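import Pool.Agent.Lib_helper14.PJ.CurveNF

/-!
BLOCK CurveA of MP_f6fc0c_ag.
BLOCKS CURVE (the base curve `z^4 = A_0(x,y)`, `w^4 = A_1(x,y)`,
`A_c = x^4 + c x^2 y^2 + y^4`).  Its homogeneous coordinate ring `R = k[x,y][z,w]` is free over
`k[x,y]` with basis `z^i w^j`, `i, j < 4`, and the group `μ_4 x μ_4` acts on it.
-/

noncomputable section

namespace PicJump

open MvPolynomial

variable {k : Type} [Field k] [IsAlgClosed k] [CharZero k] {c₀ c₁ : k}

theorem base_homog (c₀ c₁ : k) : HomogIdeal (base (G0 c₀) (G1 c₁)) := CN.base_homog' c₀ c₁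

/-- CURVE-A. The base ideal is prime.  (E.g. `k(x,y)(z,w)` is a field of degree 16: Kummer theory
by hand: `z^4 = A_0`, `w^4 = A_1` with `A_0, A_1` squarefree and coprime; or: `R` is a graded
domain because it is normal and connected.  `R` is free over `k[x,y]`, so it embeds in
`k(x,y)[z,w]/(z^4 - A_0, w^4 - A_1)`.) -/
theorem base_prime (h : c₀ ≠ c₁) (h0 : c₀ ^ 2 ≠ 4) (h1 : c₁ ^ 2 ≠ 4) :
    (base (G0 c₀) (G1 c₁)).IsPrime := CN.base_prime' h h0 h1

end PicJump

end
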