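import Pool.Agent.Lib_helper43.PJ.D
import Pool.Agent.Lib_helper43.PJ.W_CurveA

/-!
BLOCK CurveB of MP_f6fc0c_ag.
BLOCKS CURVE (the base curve `z^4 = A_0(x,y)`, `w^4 = A_1(x,y)`,
`A_c = x^4 + c x^2 y^2 + y^4`).  Its homogeneous coordinate ring `R = k[x,y][z,w]` is free over
`k[x,y]` with basis `z^i w^j`, `i, j < 4`, and the group `μ_4 x μ_4` acts on it.
-/

noncomputable section

namespace PicJump

open MvPolynomial

section curveBgen

variable {k : Type} [Field k]

/-- value of a homogeneous polynomial at a scaled point -/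
theorem curveB_aeval_scaled' {σ : Type} [Fintype σ] {A : Type} [CommRing A] [Algebra k A]
    (w : σ → A) (y : A)
    {f : MvPolynomial σ k} {d : ℕ} (hf : f.IsHomogeneous d) :
    aeval (fun i => w i * y) f = aeval w f * y ^ d := by
  rw [aeval_def, aeval_def, eval₂_eq', eval₂_eq', Finset.sum_mul]
  refine Finset.sum_congr rfl fun m hm => ?_
  have h1 : m.degree = d := by
    have := hf (mem_support_iff.1 hm)
    rwa [Pi.one_def, ← Finsupp.degree_eq_weight_one] at this
  have h2 : ∏ i, (w i * y) ^ m i = (∏ i, w i ^ m i) * y ^ d := by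
    simp only [mul_pow, Finset.prod_mul_distrib, Finset.prod_pow_eq_pow_sum]
    rw [← h1, Finsupp.degree_eq_sum]
  rw [h2]
  ring

/-- value of a homogeneous polynomial at a scaled point -/
theorem curveB_aeval_scaled {σ : Type} [Fintype σ] {A : Type} [CommRing A] [Algebra k A]
    (v : σ → k) (y : A)
    {f : MvPolynomial σ k} {d : ℕ} (hf : f.IsHomogeneous d) :
    aeval (fun i => algebraMap k A (v i) * y) f = algebraMap k A (eval v f) * y ^ d := by
  rw [curveB_aeval_scaled' (fun i => algebraMap k A (v i)) y hf]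
  congr 1
  rw [aeval_def, eval₂_eq', eval_eq', map_sum]
  refine Finset.sum_congr rfl fun m _ => ?_
  rw [map_mul, map_prod]
  simp only [map_pow]

theorem curveB_ptIdeal_le {v : Fin 4 → k} {J : Ideal (Pol k)} (L : Pol k)
    (h : ∀ i, X i - C (v i) * L ∈ J) : ptIdeal v ≤ J := by
  rw [ptIdeal, Ideal.span_le]
  rintro f ⟨i, j, rfl⟩
  have h1 : C (v j) * X i - C (v i) * X j =
      C (v j) * (X i - C (v i) * L) - C (v i) * (X j - C (v j) * L) := by ring
  rw [SetLike.mem_coe, h1]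
  exact J.sub_mem (J.mul_mem_left _ (h i)) (J.mul_mem_left _ (h j))

theorem curveB_eval_ptIdeal {v : Fin 4 → k} {f : Pol k} (hf : f ∈ ptIdeal v) : eval v f = 0 := by
  have h1 : ptIdeal v ≤ RingHom.ker (eval v) := by
    rw [ptIdeal, Ideal.span_le]
    rintro f ⟨i, j, rfl⟩
    simp only [SetLike.mem_coe, RingHom.mem_ker, map_sub, map_mul, eval_C, eval_X]
    ring
  exact h1 hf

end curveBgen

variable {k : Type} [Field k] [IsAlgClosed k] [CharZero k] {c₀ c₁ : k}

omit [IsAlgClosed k] [CharZero k] in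
theorem mem_ptIdeal_aux {v : Fin 4 → k} (hv : v ≠ 0) {f : Pol k} {d : ℕ}
    (hf : f.IsHomogeneous d) : f ∈ ptIdeal v ↔ eval v f = 0 := by
  refine ⟨curveB_eval_ptIdeal, fun h => ?_⟩
  obtain ⟨i0, hi0⟩ : ∃ i, v i ≠ 0 := by
    by_contra hcon
    push Not at hcon
    exact hv (funext hcon)
  rw [← Ideal.Quotient.eq_zero_iff_mem]
  have h1 : ∀ i, Ideal.Quotient.mk (ptIdeal v) (X i) =
      algebraMap k (Pol k ⧸ ptIdeal v) (v i) *
        (algebraMap k (Pol k ⧸ ptIdeal v) (v i0)⁻¹ * Ideal.Quotient.mk (ptIdeal v) (X i0)) := by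
    intro i
    have h2 : C (v i0) * X i - C (v i) * X i0 ∈ ptIdeal v :=
      Ideal.subset_span ⟨i, i0, rfl⟩
    rw [← Ideal.Quotient.eq_zero_iff_mem, map_sub, map_mul, map_mul, sub_eq_zero] at h2
    have h3 : ∀ a : k, Ideal.Quotient.mk (ptIdeal v) (C a) =
        algebraMap k (Pol k ⧸ ptIdeal v) a := fun a => rfl
    rw [h3, h3] at h2
    have h4 : algebraMap k (Pol k ⧸ ptIdeal v) (v i0)⁻¹ *
        algebraMap k (Pol k ⧸ ptIdeal v) (v i0) = 1 := by
      rw [← map_mul, inv_mul_cancel₀ hi0, map_one]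
    calc Ideal.Quotient.mk (ptIdeal v) (X i)
        = (algebraMap k (Pol k ⧸ ptIdeal v) (v i0)⁻¹ *
          algebraMap k (Pol k ⧸ ptIdeal v) (v i0)) * Ideal.Quotient.mk (ptIdeal v) (X i) := by
          rw [h4, one_mul]
      _ = algebraMap k (Pol k ⧸ ptIdeal v) (v i0)⁻¹ *
          (algebraMap k (Pol k ⧸ ptIdeal v) (v i0) * Ideal.Quotient.mk (ptIdeal v) (X i)) := by
          ring
      _ = _ := by rw [h2]; ring
  have h5 : Ideal.Quotient.mk (ptIdeal v) f =
      aeval (fun i => Ideal.Quotient.mk (ptIdeal v) (X i)) f := by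
    have h6 : Ideal.Quotient.mkₐ k (ptIdeal v) = aeval (fun i => Ideal.Quotient.mk (ptIdeal v) (X i)) := by
      apply MvPolynomial.algHom_ext
      intro i
      simp
    exact congrArg (fun φ => φ f) h6
  rw [h5, funext h1, curveB_aeval_scaled v _ hf, h, map_zero, zero_mul]

set_option linter.unusedSectionVars false in
theorem mem_ptIdeal {v : Fin 4 → k} (hv : v ≠ 0) {f : Pol k} {d : ℕ} (hf : f.IsHomogeneous d) :
    f ∈ ptIdeal v ↔ eval v f = 0 := mem_ptIdeal_aux hv hf

section curveBgen2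

variable {k : Type} [Field k]

/-- the parametrization of the line through `v` -/
def curveB_phi (v : Fin 4 → k) : Pol k →ₐ[k] Polynomial k :=
  aeval (fun i => algebraMap k (Polynomial k) (v i) * Polynomial.X)

theorem curveB_phi_coeff (v : Fin 4 → k) (f : Pol k) (n : ℕ) :
    (curveB_phi v f).coeff n = eval v (homogeneousComponent n f) := by
  have h1 : f = ∑ i ∈ Finset.range (f.totalDegree + 1), homogeneousComponent i f :=
    (sum_homogeneousComponent f).symm
  conv_lhs => rw [h1]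
  rw [map_sum, Polynomial.finsetSum_coeff]
  have h2 : ∀ i, (curveB_phi v (homogeneousComponent i f)).coeff n =
      if n = i then eval v (homogeneousComponent i f) else 0 := by
    intro i
    rw [curveB_phi, curveB_aeval_scaled v _ (homogeneousComponent_isHomogeneous i f)]
    rw [Polynomial.algebraMap_eq, Polynomial.coeff_C_mul, Polynomial.coeff_X_pow]
    split_ifs <;> simp
  simp only [h2]
  rw [Finset.sum_ite_eq]
  split_ifs with h3
  · rfl
  · rw [homogeneousComponent_eq_zero, map_zero]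
    simp only [Finset.mem_range, not_lt] at h3
    omega

theorem curveB_ker (v : Fin 4 → k) (hv : v ≠ 0) :
    ptIdeal v = RingHom.ker (curveB_phi v).toRingHom := by
  apply le_antisymm
  · rw [ptIdeal, Ideal.span_le]
    rintro f ⟨i, j, rfl⟩
    simp only [SetLike.mem_coe, RingHom.mem_ker, AlgHom.toRingHom_eq_coe, RingHom.coe_coe,
      map_sub, map_mul, curveB_phi, aeval_X, algHom_C]
    ring
  · intro f hf
    have h1 : curveB_phi v f = 0 := hf
    rw [← sum_homogeneousComponent f]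
    refine Ideal.sum_mem _ fun i _ => ?_
    rw [mem_ptIdeal_aux hv (homogeneousComponent_isHomogeneous i f), ← curveB_phi_coeff, h1,
      Polynomial.coeff_zero]

theorem curveB_prime (v : Fin 4 → k) (hv : v ≠ 0) : (ptIdeal v).IsPrime := by
  rw [curveB_ker v hv]
  exact RingHom.ker_isPrime _

theorem curveB_homog (v : Fin 4 → k) (hv : v ≠ 0) : HomogIdeal (ptIdeal v) := by
  intro f hf n
  rw [mem_ptIdeal_aux hv (homogeneousComponent_isHomogeneous n f), ← curveB_phi_coeff]
  rw [curveB_ker v hv] at hf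
  have h1 : curveB_phi v f = 0 := hf
  rw [h1, Polynomial.coeff_zero]

theorem curveB_G0_homog (c : k) : (G0 c).IsHomogeneous 4 := by
  unfold G0
  have hX : ∀ i : Fin 4, (X i : Pol k).IsHomogeneous 1 := fun i => isHomogeneous_X _ i
  refine IsHomogeneous.sub (IsHomogeneous.add (IsHomogeneous.add ?_ ?_) ?_) ?_
  · simpa using (hX 0).pow 4
  · have := ((isHomogeneous_C (Fin 4) c).mul ((hX 0).pow 2)).mul ((hX 1).pow 2)
    simpa using this
  · simpa using (hX 1).pow 4
  · simpa using (hX 2).pow 4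

theorem curveB_G1_homog (c : k) : (G1 c).IsHomogeneous 4 := by
  unfold G1
  have hX : ∀ i : Fin 4, (X i : Pol k).IsHomogeneous 1 := fun i => isHomogeneous_X _ i
  refine IsHomogeneous.sub (IsHomogeneous.add (IsHomogeneous.add ?_ ?_) ?_) ?_
  · simpa using (hX 0).pow 4
  · have := ((isHomogeneous_C (Fin 4) c).mul ((hX 0).pow 2)).mul ((hX 1).pow 2)
    simpa using this
  · simpa using (hX 1).pow 4
  · simpa using (hX 3).pow 4

theorem curveB_eval_base {c₀ c₁ : k} {v : Fin 4 → k} (hv0 : eval v (G0 c₀) = 0)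
    (hv1 : eval v (G1 c₁) = 0) {f : Pol k} (hf : f ∈ base (G0 c₀) (G1 c₁)) : eval v f = 0 := by
  have h1 : base (G0 c₀) (G1 c₁) ≤ RingHom.ker (eval v) := by
    rw [base, Ideal.span_le]
    rintro f (rfl | rfl)
    · exact hv0
    · exact hv1
  exact h1 hf

theorem curveB_lt {c₀ c₁ : k} {v : Fin 4 → k} (h01 : v 0 ≠ 0 ∨ v 1 ≠ 0)
    (hv0 : eval v (G0 c₀) = 0) (hv1 : eval v (G1 c₁) = 0) :
    base (G0 c₀) (G1 c₁) < ptIdeal v := by
  have hv : v ≠ 0 := by
    rintro rfl
    simp at h01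
  refine lt_of_le_of_ne ?_ ?_
  · rw [base, Ideal.span_le]
    rintro f (rfl | rfl)
    · exact (mem_ptIdeal_aux hv (curveB_G0_homog c₀)).2 hv0
    · exact (mem_ptIdeal_aux hv (curveB_G1_homog c₁)).2 hv1
  · intro heq
    have h1 : C (v 1) * X 0 - C (v 0) * X 1 ∈ base (G0 c₀) (G1 c₁) := by
      rw [heq]
      exact Ideal.subset_span ⟨0, 1, rfl⟩
    rcases h01 with h | h
    · have h2 := curveB_eval_base (v := ![0, 1, 1, 1]) (by simp [G0]) (by simp [G1]) h1
      simp at h2
      exact h h2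
    · have h2 := curveB_eval_base (v := ![1, 0, 1, 1]) (by simp [G0]) (by simp [G1]) h1
      simp at h2
      exact h h2

theorem curveB_root4 [IsAlgClosed k] {J : Ideal (Pol k)} (hJ : J.IsPrime) {L Z : Pol k} {a : k}
    (h : C a * L ^ 4 - Z ^ 4 ∈ J) : ∃ ζ : k, ζ ^ 4 = a ∧ Z - C ζ * L ∈ J := by
  obtain ⟨ζ, hζ⟩ := IsAlgClosed.exists_pow_nat_eq a (n := 4) (by norm_num)
  obtain ⟨i, hi⟩ := IsAlgClosed.exists_pow_nat_eq (-1 : k) (n := 2) (by norm_num)
  have hi4 : i ^ 4 = 1 := by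
    calc i ^ 4 = (i ^ 2) ^ 2 := by ring
      _ = 1 := by rw [hi]; ring
  have hCi : (C i : Pol k) ^ 2 = -1 := by
    rw [← C_pow, hi]
    simp
  have h1 : C a * L ^ 4 - Z ^ 4 =
      -((Z - C ζ * L) * (Z - C (-ζ) * L) * ((Z - C (i * ζ) * L) * (Z - C (-(i * ζ)) * L))) := by
    rw [← hζ]
    simp only [map_mul, map_neg, map_pow]
    linear_combination (-(C ζ ^ 2 * L ^ 2 * Z ^ 2) + C ζ ^ 4 * L ^ 4) * hCi
  rw [h1, neg_mem_iff] at h
  rcases hJ.mem_or_mem h with h2 | h2
  · rcases hJ.mem_or_mem h2 with h3 | h3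
    · exact ⟨ζ, hζ, h3⟩
    · exact ⟨-ζ, by rw [← hζ]; ring, h3⟩
  · rcases hJ.mem_or_mem h2 with h3 | h3
    · exact ⟨i * ζ, by rw [mul_pow, hi4, one_mul, hζ], h3⟩
    · exact ⟨-(i * ζ), by rw [neg_pow, mul_pow, hi4, one_mul, hζ]; ring, h3⟩

/-- the inclusion of `k[x, y]` -/
def curveB_iota : MvPolynomial (Fin 2) k →ₐ[k] Pol k := aeval ![X 0, X 1]

theorem curveB_iota_homog {g : MvPolynomial (Fin 2) k} {n : ℕ} (hg : g.IsHomogeneous n) :
    (curveB_iota g).IsHomogeneous n := by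
  have := IsHomogeneous.aeval hg (![X 0, X 1] : Fin 2 → Pol k) (n := 1) (by
    intro i
    fin_cases i
    · exact isHomogeneous_X _ _
    · exact isHomogeneous_X _ _)
  simpa [curveB_iota] using this

theorem curveB_iota_comp (g : MvPolynomial (Fin 2) k) (n : ℕ) :
    homogeneousComponent n (curveB_iota g) = curveB_iota (homogeneousComponent n g) := by
  have h1 : g = ∑ i ∈ Finset.range (g.totalDegree + 1), homogeneousComponent i g :=
    (sum_homogeneousComponent g).symm
  conv_lhs => rw [h1]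
  rw [map_sum, map_sum]
  have h2 : ∀ i, homogeneousComponent n (curveB_iota (homogeneousComponent i g)) =
      if n = i then curveB_iota (homogeneousComponent i g) else 0 := by
    intro i
    rw [homogeneousComponent_of_mem ((mem_homogeneousSubmodule _ _).2
      (curveB_iota_homog (homogeneousComponent_isHomogeneous i g)))]
  simp only [h2]
  rw [Finset.sum_ite_eq]
  split_ifs with h3
  · rfl
  · rw [homogeneousComponent_eq_zero, map_zero]
    simp only [Finset.mem_range, not_lt] at h3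
    omega

theorem curveB_exists_low {c₀ c₁ : k} (hI : (base (G0 c₀) (G1 c₁)).IsPrime) {J : Ideal (Pol k)}
    (hlt : base (G0 c₀) (G1 c₁) < J) :
    ∃ g : MvPolynomial (Fin 2) k, g ≠ 0 ∧ curveB_iota g ∈ J := by
  set I := base (G0 c₀) (G1 c₁) with hIdef
  obtain ⟨f, hfJ, hfI⟩ := SetLike.exists_of_lt hlt
  have : IsDomain (Pol k ⧸ I) := Ideal.Quotient.isDomain I
  let alg : Algebra (MvPolynomial (Fin 2) k) (Pol k ⧸ I) :=
    ((Ideal.Quotient.mk I).comp (curveB_iota (k := k)).toRingHom).toAlgebra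
  have halg : ∀ g : MvPolynomial (Fin 2) k, algebraMap (MvPolynomial (Fin 2) k) (Pol k ⧸ I) g =
      Ideal.Quotient.mk I (curveB_iota g) := fun g => rfl
  have hX : ∀ i : Fin 4, IsIntegral (MvPolynomial (Fin 2) k) (Ideal.Quotient.mk I (X i)) := by
    intro i
    fin_cases i
    · have : Ideal.Quotient.mk I (X 0) =
          algebraMap (MvPolynomial (Fin 2) k) (Pol k ⧸ I) (X 0) := by
        rw [halg]
        simp [curveB_iota]
      change IsIntegral (MvPolynomial (Fin 2) k) (Ideal.Quotient.mk I (X 0))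
      rw [this]
      exact isIntegral_algebraMap
    · have : Ideal.Quotient.mk I (X 1) =
          algebraMap (MvPolynomial (Fin 2) k) (Pol k ⧸ I) (X 1) := by
        rw [halg]
        simp [curveB_iota]
      change IsIntegral (MvPolynomial (Fin 2) k) (Ideal.Quotient.mk I (X 1))
      rw [this]
      exact isIntegral_algebraMap
    · have : Ideal.Quotient.mk I (X 2) ^ 4 =
          algebraMap (MvPolynomial (Fin 2) k) (Pol k ⧸ I)
            (X 0 ^ 4 + C c₀ * X 0 ^ 2 * X 1 ^ 2 + X 1 ^ 4) := by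
        rw [halg, ← map_pow, eq_comm, Ideal.Quotient.mk_eq_mk_iff_sub_mem]
        have h1 : G0 c₀ ∈ I := Ideal.subset_span (by simp)
        simpa [curveB_iota, G0, algHom_C] using h1
      change IsIntegral (MvPolynomial (Fin 2) k) (Ideal.Quotient.mk I (X 2))
      refine IsIntegral.of_pow (n := 4) (by norm_num) ?_
      rw [this]
      exact isIntegral_algebraMap
    · have : Ideal.Quotient.mk I (X 3) ^ 4 =
          algebraMap (MvPolynomial (Fin 2) k) (Pol k ⧸ I)
            (X 0 ^ 4 + C c₁ * X 0 ^ 2 * X 1 ^ 2 + X 1 ^ 4) := by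
        rw [halg, ← map_pow, eq_comm, Ideal.Quotient.mk_eq_mk_iff_sub_mem]
        have h1 : G1 c₁ ∈ I := Ideal.subset_span (by simp)
        simpa [curveB_iota, G1, algHom_C] using h1
      change IsIntegral (MvPolynomial (Fin 2) k) (Ideal.Quotient.mk I (X 3))
      refine IsIntegral.of_pow (n := 4) (by norm_num) ?_
      rw [this]
      exact isIntegral_algebraMap
  have hint : ∀ p : Pol k, IsIntegral (MvPolynomial (Fin 2) k) (Ideal.Quotient.mk I p) := by
    intro p
    induction p using MvPolynomial.induction_on with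
    | C a =>
      have : Ideal.Quotient.mk I (C a) =
          algebraMap (MvPolynomial (Fin 2) k) (Pol k ⧸ I) (C a) := by
        rw [halg]
        simp [curveB_iota, algHom_C]
      rw [this]
      exact isIntegral_algebraMap
    | add p q hp hq => rw [map_add]; exact hp.add hq
    | mul_X p i hp => rw [map_mul]; exact hp.mul (hX i)
  have hx0 : Ideal.Quotient.mk I f ≠ 0 := by
    rwa [Ne, Ideal.Quotient.eq_zero_iff_mem]
  have hxJ : Ideal.Quotient.mk I f ∈ J.map (Ideal.Quotient.mk I) := Ideal.mem_map_of_mem _ hfJ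
  have hne := Ideal.comap_ne_bot_of_integral_mem hx0 hxJ (hint f)
  obtain ⟨g, hg, hg0⟩ := Submodule.exists_mem_ne_zero_of_ne_bot hne
  refine ⟨g, hg0, ?_⟩
  have h2 : Ideal.Quotient.mk I (curveB_iota g) ∈ J.map (Ideal.Quotient.mk I) := hg
  exact (Ideal.mem_quotient_iff_mem hlt.le).1 h2

theorem curveB_exists_lin [IsAlgClosed k] [Infinite k] {J : Ideal (Pol k)} (hJ : J.IsPrime)
    (hJh : HomogIdeal J) {g : MvPolynomial (Fin 2) k} (hg : g ≠ 0) (hgJ : curveB_iota g ∈ J) :
    ∃ (a b : k) (L : Pol k), (a ≠ 0 ∨ b ≠ 0) ∧ X 0 - C a * L ∈ J ∧ X 1 - C b * L ∈ J := by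
  obtain ⟨n, hn⟩ : ∃ n, homogeneousComponent n g ≠ 0 := by
    by_contra hcon
    push Not at hcon
    apply hg
    rw [← sum_homogeneousComponent g]
    exact Finset.sum_eq_zero fun i _ => hcon i
  set gn := homogeneousComponent n g with hgn
  have hgnh : gn.IsHomogeneous n := homogeneousComponent_isHomogeneous n g
  have hgnJ : curveB_iota gn ∈ J := by
    rw [hgn, ← curveB_iota_comp]
    exact hJh _ hgJ n
  by_cases hy : (X 1 : Pol k) ∈ J
  · refine ⟨1, 0, X 0, Or.inl one_ne_zero, by simp, by simpa using hy⟩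
  have : IsDomain (Pol k ⧸ J) := Ideal.Quotient.isDomain J
  let K := FractionRing (Pol k ⧸ J)
  let φ : Pol k →ₐ[k] K := (IsScalarTower.toAlgHom k (Pol k ⧸ J) K).comp (Ideal.Quotient.mkₐ k J)
  have hφ : ∀ p : Pol k, φ p = 0 ↔ p ∈ J := by
    intro p
    change algebraMap (Pol k ⧸ J) K (Ideal.Quotient.mk J p) = 0 ↔ p ∈ J
    rw [← Ideal.Quotient.eq_zero_iff_mem]
    exact (map_eq_zero_iff _ (IsFractionRing.injective (Pol k ⧸ J) K))
  have hy0 : φ (X 1) ≠ 0 := by rwa [Ne, hφ]
  set ρ : K := φ (X 0) / φ (X 1) with hρ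
  have h1 : aeval ![φ (X 0), φ (X 1)] gn = 0 := by
    have h2 : aeval ![φ (X 0), φ (X 1)] gn = φ (curveB_iota gn) := by
      have : (aeval ![φ (X 0), φ (X 1)] : MvPolynomial (Fin 2) k →ₐ[k] K) =
          φ.comp curveB_iota := by
        apply MvPolynomial.algHom_ext
        intro i
        fin_cases i <;> simp [curveB_iota]
      rw [this]
      rfl
    rw [h2, hφ]
    exact hgnJ
  have h3 : aeval ![ρ, 1] gn = 0 := by
    have h4 : (![φ (X 0), φ (X 1)] : Fin 2 → K) = fun i => (![ρ, 1] : Fin 2 → K) i * φ (X 1) := by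
      funext i
      fin_cases i
      · exact (div_mul_cancel₀ _ hy0).symm
      · simp
    rw [h4, curveB_aeval_scaled' _ _ hgnh] at h1
    exact (mul_eq_zero.1 h1).resolve_right (pow_ne_zero _ hy0)
  let h : Polynomial k := aeval ![Polynomial.X, 1] gn
  have hroot : Polynomial.aeval ρ h = 0 := by
    have : (Polynomial.aeval ρ).comp (aeval ![Polynomial.X, 1] :
        MvPolynomial (Fin 2) k →ₐ[k] Polynomial k) = aeval ![ρ, 1] := by
      apply MvPolynomial.algHom_ext
      intro i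
      fin_cases i <;> simp
    rw [← h3, ← this]
    rfl
  have hne : h ≠ 0 := by
    intro h0
    apply hn
    have h5 : gn * X 1 = 0 := by
      apply MvPolynomial.funext
      intro w
      rw [map_mul, eval_X, map_zero]
      by_cases hw : w 1 = 0
      · rw [hw, mul_zero]
      · have h6 : (w : Fin 2 → k) = fun i => (![w 0 / w 1, 1] : Fin 2 → k) i * w 1 := by
          funext i
          fin_cases i
          · simp [hw]
          · simp
        have h7 : eval w gn = aeval w gn := rfl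
        have h8 : aeval (![w 0 / w 1, 1] : Fin 2 → k) gn = 0 := by
          have : (Polynomial.aeval (w 0 / w 1)).comp (aeval ![Polynomial.X, 1] :
              MvPolynomial (Fin 2) k →ₐ[k] Polynomial k) = aeval ![w 0 / w 1, 1] := by
            apply MvPolynomial.algHom_ext
            intro i
            fin_cases i <;> simp
          rw [← this]
          change Polynomial.aeval (w 0 / w 1) h = 0
          rw [h0, map_zero]
        rw [h7, h6, curveB_aeval_scaled' _ _ hgnh, h8, zero_mul, zero_mul]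
    exact (mul_eq_zero.1 h5).resolve_right (X_ne_zero 1)
  have hint : IsIntegral k ρ := by
    rw [← isAlgebraic_iff_isIntegral]
    exact ⟨h, hne, hroot⟩
  obtain ⟨r, hr⟩ := minpoly.mem_range_of_degree_eq_one k ρ
    (IsAlgClosed.degree_eq_one_of_irreducible k (minpoly.irreducible hint))
  refine ⟨r, 1, X 1, Or.inr one_ne_zero, ?_, by simp⟩
  rw [← hφ, map_sub, map_mul]
  have h9 : φ (C r) = algebraMap k K r := by
    rw [algHom_C]
  rw [h9, hr, hρ, div_mul_cancel₀ _ hy0, sub_self]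

theorem curveB_exists_pt_le [IsAlgClosed k] [CharZero k] {c₀ c₁ : k} (h : c₀ ≠ c₁)
    (h0 : c₀ ^ 2 ≠ 4) (h1 : c₁ ^ 2 ≠ 4) {J : Ideal (Pol k)} (hJ : J.IsPrime)
    (hJh : HomogIdeal J) (hlt : base (G0 c₀) (G1 c₁) < J) :
    ∃ v : Fin 4 → k, (v 0 ≠ 0 ∨ v 1 ≠ 0) ∧ eval v (G0 c₀) = 0 ∧ eval v (G1 c₁) = 0 ∧
      ptIdeal v ≤ J := by
  obtain ⟨g, hg, hgJ⟩ := curveB_exists_low (base_prime h h0 h1) hlt
  obtain ⟨a, b, L, hab, ha, hb⟩ := curveB_exists_lin hJ hJh hg hgJ
  have hA : ∀ c : k, C (a ^ 4 + c * a ^ 2 * b ^ 2 + b ^ 4) * L ^ 4 -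
      (X 0 ^ 4 + C c * X 0 ^ 2 * X 1 ^ 2 + X 1 ^ 4) ∈ J := by
    intro c
    have ha' : Ideal.Quotient.mk J (X 0) = Ideal.Quotient.mk J (C a * L) := by
      rwa [Ideal.Quotient.mk_eq_mk_iff_sub_mem]
    have hb' : Ideal.Quotient.mk J (X 1) = Ideal.Quotient.mk J (C b * L) := by
      rwa [Ideal.Quotient.mk_eq_mk_iff_sub_mem]
    rw [← Ideal.Quotient.mk_eq_mk_iff_sub_mem]
    simp only [map_add, map_mul, map_pow] at ha' hb' ⊢
    rw [ha', hb']
    ring
  have hz : C (a ^ 4 + c₀ * a ^ 2 * b ^ 2 + b ^ 4) * L ^ 4 - X 2 ^ 4 ∈ J := by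
    have h2 : G0 c₀ ∈ J := hlt.le (Ideal.subset_span (by simp))
    have h3 := J.add_mem (hA c₀) h2
    rw [G0] at h3
    convert h3 using 1
    ring
  have hw : C (a ^ 4 + c₁ * a ^ 2 * b ^ 2 + b ^ 4) * L ^ 4 - X 3 ^ 4 ∈ J := by
    have h2 : G1 c₁ ∈ J := hlt.le (Ideal.subset_span (by simp))
    have h3 := J.add_mem (hA c₁) h2
    rw [G1] at h3
    convert h3 using 1
    ring
  obtain ⟨ζ, hζ, hζJ⟩ := curveB_root4 hJ hz
  obtain ⟨η, hη, hηJ⟩ := curveB_root4 hJ hw
  refine ⟨![a, b, ζ, η], by simpa using hab, by simp [G0, hζ], by simp [G1, hη], ?_⟩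
  refine curveB_ptIdeal_le L fun i => ?_
  fin_cases i
  · simpa using ha
  · simpa using hb
  · simpa using hζJ
  · simpa using hηJ

end curveBgen2

/-- CURVE-B. The prime divisors of the base curve are its points. -/
theorem point_cases (h : c₀ ≠ c₁) (h0 : c₀ ^ 2 ≠ 4) (h1 : c₁ ^ 2 ≠ 4)
    (P : PrimeDiv (base (G0 c₀) (G1 c₁))) :
    ∃ v : Fin 4 → k, (v 0 ≠ 0 ∨ v 1 ≠ 0) ∧ eval v (G0 c₀) = 0 ∧ eval v (G1 c₁) = 0 ∧
      P.carrier = ptIdeal v := by
  obtain ⟨v, h01, hv0, hv1, hle⟩ := curveB_exists_pt_le h h0 h1 P.prime P.homog P.lt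
  have hv : v ≠ 0 := by
    rintro rfl
    simp at h01
  exact ⟨v, h01, hv0, hv1, (P.minimal _ (curveB_prime v hv) (curveB_homog v hv)
    (curveB_lt h01 hv0 hv1) hle).symm⟩

theorem exists_pt (h : c₀ ≠ c₁) (h0 : c₀ ^ 2 ≠ 4) (h1 : c₁ ^ 2 ≠ 4) (v : Fin 4 → k)
    (hv : v ≠ 0) (hv0 : eval v (G0 c₀) = 0) (hv1 : eval v (G1 c₁) = 0) :
    ∃ P : PrimeDiv (base (G0 c₀) (G1 c₁)), P.carrier = ptIdeal v := by
  have h01 : v 0 ≠ 0 ∨ v 1 ≠ 0 := by
    by_contra hcon
    push Not at hcon
    apply hv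
    obtain ⟨ha, hb⟩ := hcon
    have h2 : v 2 = 0 := by
      simpa [G0, ha, hb] using hv0
    have h3 : v 3 = 0 := by
      simpa [G1, ha, hb] using hv1
    funext i
    fin_cases i <;> simp [ha, hb, h2, h3]
  refine ⟨⟨ptIdeal v, curveB_prime v hv, curveB_homog v hv, curveB_lt h01 hv0 hv1, ?_⟩, rfl⟩
  intro J hJ hJh hlt hle
  obtain ⟨u, hu01, hu0, hu1, hule⟩ := curveB_exists_pt_le h h0 h1 hJ hJh hlt
  refine le_antisymm hle (le_trans ?_ hule)
  have hu : u ≠ 0 := by
    rintro rfl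
    simp at hu01
  obtain ⟨i0, hi0⟩ : ∃ i, u i ≠ 0 := by
    by_contra hcon
    push Not at hcon
    exact hu (funext hcon)
  have hprop : ∀ i j, u j * v i - u i * v j = 0 := by
    intro i j
    have h2 : C (u j) * X i - C (u i) * X j ∈ ptIdeal v :=
      (hule.trans hle) (Ideal.subset_span ⟨i, j, rfl⟩)
    have h3 := curveB_eval_ptIdeal h2
    simpa using h3
  have hv' : ∀ i, v i = (v i0 / u i0) * u i := by
    intro i
    have h2 := hprop i i0
    field_simp
    linear_combination h2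
  rw [ptIdeal, Ideal.span_le]
  rintro f ⟨i, j, rfl⟩
  rw [hv' i, hv' j]
  have h4 : C (v i0 / u i0 * u j) * X i - C (v i0 / u i0 * u i) * X j =
      C (v i0 / u i0) * (C (u j) * X i - C (u i) * X j) := by
    simp only [map_mul]
    ring
  rw [SetLike.mem_coe, h4]
  exact (ptIdeal u).mul_mem_left _ (Ideal.subset_span ⟨i, j, rfl⟩)

end PicJump

end
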