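import Pool.Agent.Lib_helper43.PJ.D

/-!
BLOCK OrdA of MP_f6fc0c_ag.
BLOCK ORD (orders of vanishing; everything for a prime ideal `I`).
`LocPrin Q p` says that `Q` is generated by `p` locally at its generic point, so that the local ring
of `k[x]/I` at `Q` is a discrete valuation ring with uniformizer `p`.
Proof sketch of the key facts, with `t * Q <= (p) + I`, `t` not in `Q`:
* `p` is not in `I` (else `t * Q <= I`, so `Q <= I`).
* ord_eq: if `s A = p^n B` mod `I` with `s, B` not in `Q`, then `s A` is in `Q^n + I`; and if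
  `s' A` is in `Q^m + I` with `m > n`, then `t^m s' A` is in `(p^m) + I`, so multiplying by `s` and
  cancelling `p^n` mod `I` gives `t^m s' B` in `Q`, a contradiction.
* exists_decomp: Noetherian; in the domain `k[x]/I` the ideals generated by the successive quotients
  would ascend forever (or: the localization at `Q` is a DVR).
* finite_mem: `Q` is a minimal prime over `I + (A)` (a minimal prime over a homogeneous ideal is
  homogeneous: `Ideal.IsPrime.homogeneousCore` or by hand), and there are finitely many.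
-/

noncomputable section

namespace PicJump

open MvPolynomial

variable {k : Type} [Field k] {I : Ideal (Pol k)}

theorem ordA_set_zero (Q : PrimeDiv I) (A : Pol k) :
    0 ∈ {n : ℕ | ∃ s : Pol k, s ∉ Q.carrier ∧ s * A ∈ Q.carrier ^ n ⊔ I} := by
  refine ⟨1, fun h => Q.prime.ne_top ((Ideal.eq_top_iff_one _).2 h), ?_⟩
  simp

theorem ordA_sup_pow_le {R : Type} [CommRing R] (J I : Ideal R) (m : ℕ) :
    (J ⊔ I) ^ m ≤ J ^ m ⊔ I := by
  induction m with
  | zero => simp
  | succ m ih =>
    rw [pow_succ, pow_succ]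
    calc (J ⊔ I) ^ m * (J ⊔ I) ≤ (J ^ m ⊔ I) * (J ⊔ I) := Ideal.mul_mono_left ih
      _ ≤ J ^ m * J ⊔ I := by
        rw [Ideal.mul_sup, Ideal.sup_mul, Ideal.sup_mul]
        exact sup_le (sup_le le_sup_left (le_sup_of_le_right (Ideal.mul_le_inf.trans inf_le_left)))
          (sup_le (le_sup_of_le_right (Ideal.mul_le_inf.trans inf_le_right))
            (le_sup_of_le_right (Ideal.mul_le_inf.trans inf_le_left)))

theorem ord_eq_zero_of_not_mem (Q : PrimeDiv I) {A : Pol k} (hA : A ∉ Q.carrier) :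
    ord Q A = 0 := by
  have h : {n : ℕ | ∃ s : Pol k, s ∉ Q.carrier ∧ s * A ∈ Q.carrier ^ n ⊔ I} = {0} := by
    ext n
    constructor
    · rintro ⟨s, hs, h⟩
      rw [Set.mem_singleton_iff]
      by_contra hn
      have h1 : Q.carrier ^ n ⊔ I ≤ Q.carrier := sup_le (Ideal.pow_le_self hn) Q.lt.le
      rcases Q.prime.mem_or_mem (h1 h) with h2 | h2
      · exact hs h2
      · exact hA h2
    · rintro rfl
      exact ordA_set_zero Q A
  unfold ord
  rw [h]
  exact csSup_singleton 0

theorem ord_congr (Q : PrimeDiv I) {A B : Pol k} (h : A - B ∈ I) : ord Q A = ord Q B := by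
  unfold ord
  congr 1
  ext n
  constructor
  · rintro ⟨s, hs, h1⟩
    refine ⟨s, hs, ?_⟩
    have : s * B = s * A - s * (A - B) := by ring
    rw [this]
    exact Ideal.sub_mem _ h1 (Ideal.mem_sup_right (Ideal.mul_mem_left _ _ h))
  · rintro ⟨s, hs, h1⟩
    refine ⟨s, hs, ?_⟩
    have : s * A = s * B + s * (A - B) := by ring
    rw [this]
    exact Ideal.add_mem _ h1 (Ideal.mem_sup_right (Ideal.mul_mem_left _ _ h))

theorem ordA_not_mem (hI : I.IsPrime) {Q : PrimeDiv I} {p : Pol k} (hQ : LocPrin Q p) :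
    p ∉ I := by
  intro hp
  obtain ⟨_, t, ht, h⟩ := hQ
  have h1 : Q.carrier ≤ I := by
    intro x hx
    have h2 : t * x ∈ I := by
      have h3 : Ideal.span {p} ⊔ I ≤ I :=
        sup_le (by rw [Ideal.span_singleton_le_iff_mem]; exact hp) le_rfl
      exact h3 (h x hx)
    exact (hI.mem_or_mem h2).resolve_left fun h4 => ht (Q.lt.le h4)
  exact absurd Q.lt (not_lt_of_ge h1)

/-- the saturation at `Q` of the ideal `(A) + I` -/
def ordASat (Q : PrimeDiv I) (A : Pol k) : Ideal (Pol k) where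
  carrier := {x | ∃ s : Pol k, s ∉ Q.carrier ∧ s * x ∈ Ideal.span {A} ⊔ I}
  zero_mem' := ⟨1, fun h => Q.prime.ne_top ((Ideal.eq_top_iff_one _).2 h), by simp⟩
  add_mem' := by
    rintro x y ⟨s, hs, h1⟩ ⟨t, ht, h2⟩
    refine ⟨s * t, fun h => (Q.prime.mem_or_mem h).elim hs ht, ?_⟩
    have : s * t * (x + y) = t * (s * x) + s * (t * y) := by ring
    rw [this]
    exact Ideal.add_mem _ (Ideal.mul_mem_left _ _ h1) (Ideal.mul_mem_left _ _ h2)
  smul_mem' := by
    rintro c x ⟨s, hs, h1⟩
    refine ⟨s, hs, ?_⟩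
    have : s * (c • x) = c * (s * x) := by rw [smul_eq_mul]; ring
    rw [this]
    exact Ideal.mul_mem_left _ _ h1

theorem LocPrin.exists_decomp (hI : I.IsPrime) {Q : PrimeDiv I} {p : Pol k} (hQ : LocPrin Q p)
    {A : Pol k} (hA : A ∉ I) :
    ∃ (n : ℕ) (s B : Pol k), s ∉ Q.carrier ∧ B ∉ Q.carrier ∧ s * A - p ^ n * B ∈ I := by
  obtain ⟨hp, t, ht, hloc⟩ := hQ
  have key : ∀ J : Ideal (Pol k), ∀ A : Pol k, ordASat Q A = J → A ∉ I →
      ∃ (n : ℕ) (s B : Pol k), s ∉ Q.carrier ∧ B ∉ Q.carrier ∧ s * A - p ^ n * B ∈ I := by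
    intro J
    induction J using IsNoetherian.induction with
    | hgt J ih =>
      intro A hJ hA
      by_cases hAQ : A ∈ Q.carrier
      · obtain ⟨y, hy, i, hi, hyi⟩ := Submodule.mem_sup.1 (hloc A hAQ)
        obtain ⟨A₁, rfl⟩ := Ideal.mem_span_singleton'.1 hy
        have hA₁ : A₁ ∉ I := by
          intro h
          have h1 : t * A ∈ I := by
            rw [← hyi]
            exact Ideal.add_mem _ (Ideal.mul_mem_right _ _ h) hi
          rcases hI.mem_or_mem h1 with h2 | h2
          · exact ht (Q.lt.le h2)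
          · exact hA h2
        have hlt : ordASat Q A < ordASat Q A₁ := by
          refine lt_of_le_of_ne ?_ ?_
          · rintro x ⟨s, hs, h1⟩
            refine ⟨t * s, fun h => (Q.prime.mem_or_mem h).elim ht hs, ?_⟩
            obtain ⟨y, hy, j, hj, hyj⟩ := Submodule.mem_sup.1 h1
            obtain ⟨c, rfl⟩ := Ideal.mem_span_singleton'.1 hy
            have : t * s * x = c * p * A₁ + (c * i + t * j) := by
              have e1 : t * s * x = t * (s * x) := by ring
              rw [e1, ← hyj]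
              have e2 : t * (c * A + j) = c * (t * A) + t * j := by ring
              rw [e2, ← hyi]
              ring
            rw [this]
            refine Ideal.add_mem _ (Ideal.mem_sup_left ?_) (Ideal.mem_sup_right ?_)
            · exact Ideal.mem_span_singleton'.2 ⟨c * p, rfl⟩
            · exact Ideal.add_mem _ (Ideal.mul_mem_left _ _ hi) (Ideal.mul_mem_left _ _ hj)
          · intro heq
            have h1 : A₁ ∈ ordASat Q A₁ :=
              ⟨1, fun h => Q.prime.ne_top ((Ideal.eq_top_iff_one _).2 h), by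
                rw [one_mul]; exact Ideal.mem_sup_left (Ideal.mem_span_singleton_self _)⟩
            rw [← heq] at h1
            obtain ⟨s, hs, h2⟩ := h1
            obtain ⟨y, hy, j, hj, hyj⟩ := Submodule.mem_sup.1 h2
            obtain ⟨c, rfl⟩ := Ideal.mem_span_singleton'.1 hy
            have h3 : A * (s * t - p * c) ∈ I := by
              have : A * (s * t - p * c) = p * j + s * i := by
                have e1 : A * (s * t - p * c) = s * (t * A) - p * (c * A) := by ring
                have e2 : c * A = s * A₁ - j := by rw [← hyj]; ring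
                rw [e1, e2, ← hyi]
                ring
              rw [this]
              exact Ideal.add_mem _ (Ideal.mul_mem_left _ _ hj) (Ideal.mul_mem_left _ _ hi)
            rcases hI.mem_or_mem h3 with h4 | h4
            · exact hA h4
            · have h5 : s * t ∈ Q.carrier := by
                have : s * t = (s * t - p * c) + p * c := by ring
                rw [this]
                exact Ideal.add_mem _ (Q.lt.le h4) (Ideal.mul_mem_right _ _ hp)
              exact (Q.prime.mem_or_mem h5).elim hs ht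
        obtain ⟨n, s, B, hs, hB, h⟩ := ih _ (hJ ▸ hlt) A₁ rfl hA₁
        refine ⟨n + 1, s * t, B, fun h => (Q.prime.mem_or_mem h).elim hs ht, hB, ?_⟩
        have : s * t * A - p ^ (n + 1) * B = p * (s * A₁ - p ^ n * B) + s * i := by
          have e1 : s * t * A = s * (t * A) := by ring
          rw [e1, ← hyi]
          ring
        rw [this]
        exact Ideal.add_mem _ (Ideal.mul_mem_left _ _ h) (Ideal.mul_mem_left _ _ hi)
      · refine ⟨0, 1, A, fun h => Q.prime.ne_top ((Ideal.eq_top_iff_one _).2 h), hAQ, ?_⟩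
        simp
  exact key _ A rfl hA

theorem ordA_bound (hI : I.IsPrime) {Q : PrimeDiv I} {p : Pol k} (hQ : LocPrin Q p)
    {A s B : Pol k} {n : ℕ} (hs : s ∉ Q.carrier) (hB : B ∉ Q.carrier)
    (h : s * A - p ^ n * B ∈ I) (m : ℕ) :
    (∃ s : Pol k, s ∉ Q.carrier ∧ s * A ∈ Q.carrier ^ m ⊔ I) ↔ m ≤ n := by
  have hpI := ordA_not_mem hI hQ
  obtain ⟨hp, t, ht, hloc⟩ := hQ
  constructor
  · rintro ⟨s', hs', h1⟩
    by_contra hmn
    push Not at hmn
    have h2 : t ^ m * (s' * A) ∈ Ideal.span {p ^ m} ⊔ I := by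
      have h3 : Ideal.span {t ^ m} * Q.carrier ^ m ≤ Ideal.span {p ^ m} ⊔ I := by
        rw [← Ideal.span_singleton_pow, ← Ideal.span_singleton_pow, ← mul_pow]
        refine le_trans (Ideal.pow_right_mono ?_ m) (ordA_sup_pow_le _ _ m)
        rw [Ideal.span_singleton_mul_le_iff]
        exact hloc
      obtain ⟨y, hy, i, hi, hyi⟩ := Submodule.mem_sup.1 h1
      rw [← hyi, mul_add]
      refine Ideal.add_mem _ (h3 (Ideal.mul_mem_mul (Ideal.mem_span_singleton_self _) hy)) ?_
      exact Ideal.mem_sup_right (Ideal.mul_mem_left _ _ hi)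
    obtain ⟨y, hy, i, hi, hyi⟩ := Submodule.mem_sup.1 h2
    obtain ⟨c, rfl⟩ := Ideal.mem_span_singleton'.1 hy
    have hm : m = n + (m - n) := by omega
    have h4 : p ^ n * (t ^ m * s' * B - s * c * p ^ (m - n)) ∈ I := by
      have : p ^ n * (t ^ m * s' * B - s * c * p ^ (m - n)) =
          s * i - t ^ m * s' * (s * A - p ^ n * B) := by
        have e1 : t ^ m * s' * (s * A - p ^ n * B) = s * (t ^ m * (s' * A)) - t ^ m * s' * p ^ n * B := by
          ring
        rw [e1, ← hyi]
        have e2 : p ^ m = p ^ n * p ^ (m - n) := by rw [← pow_add, ← hm]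
        rw [e2]
        ring
      rw [this]
      exact Ideal.sub_mem _ (Ideal.mul_mem_left _ _ hi) (Ideal.mul_mem_left _ _ h)
    rcases hI.mem_or_mem h4 with h5 | h5
    · exact hpI (hI.mem_of_pow_mem _ h5)
    · have h6 : t ^ m * s' * B ∈ Q.carrier := by
        have : t ^ m * s' * B = (t ^ m * s' * B - s * c * p ^ (m - n)) + s * c * p ^ (m - n) := by
          ring
        rw [this]
        refine Ideal.add_mem _ (Q.lt.le h5) (Ideal.mul_mem_left _ _ ?_)
        exact Ideal.pow_mem_of_mem _ hp _ (by omega)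
      rcases Q.prime.mem_or_mem h6 with h7 | h7
      · rcases Q.prime.mem_or_mem h7 with h8 | h8
        · exact ht (Q.prime.mem_of_pow_mem _ h8)
        · exact hs' h8
      · exact hB h7
  · intro hmn
    refine ⟨s, hs, ?_⟩
    have : s * A = (s * A - p ^ n * B) + p ^ n * B := by ring
    rw [this]
    refine Ideal.add_mem _ (Ideal.mem_sup_right h) (Ideal.mem_sup_left (Ideal.mul_mem_right _ _ ?_))
    exact Ideal.pow_le_pow_right hmn (Ideal.pow_mem_pow hp n)

theorem LocPrin.ord_eq (hI : I.IsPrime) {Q : PrimeDiv I} {p : Pol k} (hQ : LocPrin Q p)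
    {A s B : Pol k} {n : ℕ} (hs : s ∉ Q.carrier) (hB : B ∉ Q.carrier)
    (h : s * A - p ^ n * B ∈ I) : ord Q A = n := by
  unfold ord
  apply IsGreatest.csSup_eq
  refine ⟨(ordA_bound hI hQ hs hB h n).2 le_rfl, fun m hm => (ordA_bound hI hQ hs hB h m).1 hm⟩

theorem ordA_one (Q : PrimeDiv I) : (1 : Pol k) ∉ Q.carrier :=
  fun h => Q.prime.ne_top ((Ideal.eq_top_iff_one _).2 h)

theorem LocPrin.ord_self (hI : I.IsPrime) {Q : PrimeDiv I} {p : Pol k} (hQ : LocPrin Q p) :
    ord Q p = 1 :=
  LocPrin.ord_eq hI hQ (s := 1) (B := 1) (ordA_one Q) (ordA_one Q) (by simp)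

theorem LocPrin.ord_mul (hI : I.IsPrime) {Q : PrimeDiv I} {p : Pol k} (hQ : LocPrin Q p)
    {A B : Pol k} (hA : A ∉ I) (hB : B ∉ I) : ord Q (A * B) = ord Q A + ord Q B := by
  obtain ⟨n, s, A', hs, hA', h1⟩ := hQ.exists_decomp hI hA
  obtain ⟨m, t, B', ht, hB', h2⟩ := hQ.exists_decomp hI hB
  rw [hQ.ord_eq hI hs hA' h1, hQ.ord_eq hI ht hB' h2]
  refine hQ.ord_eq hI (s := s * t) (B := A' * B') (fun h => (Q.prime.mem_or_mem h).elim hs ht)
    (fun h => (Q.prime.mem_or_mem h).elim hA' hB') ?_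
  have : s * t * (A * B) - p ^ (n + m) * (A' * B') =
      t * B * (s * A - p ^ n * A') + p ^ n * A' * (t * B - p ^ m * B') := by ring
  rw [this]
  exact Ideal.add_mem _ (Ideal.mul_mem_left _ _ h1) (Ideal.mul_mem_left _ _ h2)

theorem LocPrin.van_iff (hI : I.IsPrime) {Q : PrimeDiv I} {p : Pol k} (hQ : LocPrin Q p)
    {A : Pol k} (hA : A ∉ I) (n : ℕ) :
    (∃ s : Pol k, s ∉ Q.carrier ∧ s * A ∈ Q.carrier ^ n ⊔ I) ↔ n ≤ ord Q A := by
  obtain ⟨n', s, A', hs, hA', h1⟩ := hQ.exists_decomp hI hA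
  rw [hQ.ord_eq hI hs hA' h1]
  exact ordA_bound hI hQ hs hA' h1 n

theorem LocPrin.ord_pos_iff (hI : I.IsPrime) {Q : PrimeDiv I} {p : Pol k} (hQ : LocPrin Q p)
    {A : Pol k} (hA : A ∉ I) : 0 < ord Q A ↔ A ∈ Q.carrier := by
  constructor
  · intro h
    by_contra h'
    rw [ord_eq_zero_of_not_mem Q h'] at h
    exact absurd h (lt_irrefl 0)
  · intro h
    have h1 := (hQ.van_iff hI hA 1).1 ⟨1, ordA_one Q, by
      rw [one_mul, pow_one]; exact Ideal.mem_sup_left h⟩
    omega

theorem LocPrin.le_ord_add (hI : I.IsPrime) {Q : PrimeDiv I} {p : Pol k} (hQ : LocPrin Q p)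
    {A B : Pol k} (hA : A ∉ I) (hB : B ∉ I) (hAB : A + B ∉ I) :
    min (ord Q A) (ord Q B) ≤ ord Q (A + B) := by
  rw [← hQ.van_iff hI hAB]
  obtain ⟨s, hs, h1⟩ := (hQ.van_iff hI hA (min (ord Q A) (ord Q B))).2 (min_le_left _ _)
  obtain ⟨t, ht, h2⟩ := (hQ.van_iff hI hB (min (ord Q A) (ord Q B))).2 (min_le_right _ _)
  refine ⟨s * t, fun h => (Q.prime.mem_or_mem h).elim hs ht, ?_⟩
  have : s * t * (A + B) = t * (s * A) + s * (t * B) := by ring
  rw [this]
  exact Ideal.add_mem _ (Ideal.mul_mem_left _ _ h1) (Ideal.mul_mem_left _ _ h2)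

end PicJump

end
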