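import Pool.Agent.Lib_helper43.PJ.D
import Pool.Agent.Lib_helper43.PJ.W_OrdA

/-!
BLOCK OrdB of MP_f6fc0c_ag.
BLOCK ORD (orders of vanishing; everything for a prime ideal `I`).
`LocPrin Q p` says that `Q` is generated by `p` locally at its generic point, so that the local ring
of `k[x]/I` at `Q` is a discrete valuation ring with uniformizer `p`.
Proof sketch of the key facts, with `t * Q <= (p) + I`, `t` not in `Q`:
* `p` is not in `I` (else `t * Q <= I`, so `Q <= I`).
* ord_eq: if `s A = p^n B` mod `I` with `s, B` not in `Q`, then `s A` is in `Q^n + I`; and if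
  `s' A` is in `Q^m + I` with `m > n`, then `t^m s' A` is in `(p^m) + I`, so multiplying by `s` and
  cancelling `p^n` mod `I` gives `t^m s' B` in `Q`, a contradiction.
* exists_decomp: Noetherian; in the domain `k[x]/I` the ideals generated by the successive quotients
  would ascend forever (or: the localization at `Q` is a DVR).
* finite_mem: `Q` is a minimal prime over `I + (A)` (a minimal prime over a homogeneous ideal is
  homogeneous: `Ideal.IsPrime.homogeneousCore` or by hand), and there are finitely many.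
-/

noncomputable section

namespace PicJump

open MvPolynomial

variable {k : Type} [Field k] {I : Ideal (Pol k)}

attribute [local instance] MvPolynomial.gradedAlgebra

theorem ordB_homog_iff (J : Ideal (Pol k)) :
    HomogIdeal J ↔ J.IsHomogeneous (homogeneousSubmodule (Fin 4) k) := by
  constructor
  · intro h i r hr
    have := h r hr i
    rwa [← decomposition.decompose'_apply] at this
  · intro h f hf n
    have := h n hf
    rw [← decomposition.decompose'_apply]
    exact this

theorem ordB_core (J : Ideal (Pol k)) (hJ : J.IsPrime) :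
    ∃ J' : Ideal (Pol k), J'.IsPrime ∧ HomogIdeal J' ∧ J' ≤ J ∧
      (∀ K : Ideal (Pol k), HomogIdeal K → K ≤ J → K ≤ J') ∧
      ∀ (f : Pol k) (d : ℕ), f.IsHomogeneous d → f ∈ J → f ∈ J' := by
  refine ⟨(J.homogeneousCore (homogeneousSubmodule (Fin 4) k)).toIdeal, hJ.homogeneousCore,
    (ordB_homog_iff _).2 (J.homogeneousCore (homogeneousSubmodule (Fin 4) k)).isHomogeneous,
    Ideal.toIdeal_homogeneousCore_le _ _, ?_, ?_⟩
  · intro K hK hKJ
    have h1 := ((ordB_homog_iff K).1 hK).toIdeal_homogeneousCore_eq_self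
    rw [← h1]
    exact Ideal.homogeneousCore_mono _ hKJ
  · intro f d hf hfJ
    exact Ideal.mem_homogeneousCore_of_homogeneous_of_mem ⟨d, hf⟩ hfJ

/-- a form not in `I` is contained in only finitely many prime divisors -/
theorem finite_mem (hI : I.IsPrime) (hIh : HomogIdeal I) {A : Pol k} {d : ℕ}
    (hA : A.IsHomogeneous d) (hAI : A ∉ I) : {Q : PrimeDiv I | A ∈ Q.carrier}.Finite := by
  have hfin := Ideal.finite_minimalPrimes_of_isNoetherianRing (Pol k) (Ideal.span {A} ⊔ I)
  refine Set.Finite.of_finite_image (f := fun Q : PrimeDiv I => Q.carrier)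
    (hfin.subset ?_) ?_
  · rintro _ ⟨Q, hQ, rfl⟩
    refine ⟨⟨Q.prime, sup_le ((Ideal.span_singleton_le_iff_mem _).2 hQ) Q.lt.le⟩, ?_⟩
    rintro P ⟨hP, hPle⟩ hPQ
    obtain ⟨P', hP', hPh, hle, hcore, hform⟩ := ordB_core P hP
    have h1 : I ≤ P' := hcore I hIh (le_sup_right.trans hPle)
    have h2 : A ∈ P' := hform A d hA (hPle (Ideal.mem_sup_left (Ideal.mem_span_singleton_self _)))
    have h3 : I < P' := lt_of_le_of_ne h1 fun h => hAI (h ▸ h2)
    have h4 := Q.minimal P' hP' hPh h3 (hle.trans hPQ)
    show Q.carrier ≤ P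
    rw [← h4]
    exact hle
  · intro Q _ Q' _ h
    cases Q; cases Q'
    simp only at h
    subst h
    rfl

/-- the divisor of a form -/
theorem exists_divF (hI : I.IsPrime) (hIh : HomogIdeal I) {A : Pol k} {d : ℕ}
    (hA : A.IsHomogeneous d) (hAI : A ∉ I) :
    ∃ D : PrimeDiv I →₀ ℤ, ∀ Q : PrimeDiv I, D Q = (ord Q A : ℤ) := by
  have hfin := finite_mem hI hIh hA hAI
  have hs : (Function.support fun Q : PrimeDiv I => (ord Q A : ℤ)).Finite := by
    refine hfin.subset fun Q hQ => ?_
    by_contra h
    exact hQ (by simp only; rw [ord_eq_zero_of_not_mem Q h]; rfl)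
  exact ⟨Finsupp.ofSupportFinite _ hs, fun Q => rfl⟩

/-- if all prime divisors are locally principal at their generic points, the principal divisors
already form a group -/
theorem mem_Princ_iff (hI : I.IsPrime) (h : ∀ Q : PrimeDiv I, ∃ p, LocPrin Q p)
    (D : PrimeDiv I →₀ ℤ) : D ∈ Princ I ↔ IsDivOf D := by
  constructor
  · intro hD
    refine AddSubgroup.closure_induction (p := fun D _ => IsDivOf D) (fun D hD => hD) ?_ ?_ ?_ hD
    · refine ⟨0, 1, 1, isHomogeneous_one _ _, isHomogeneous_one _ _,
        fun h => hI.ne_top ((Ideal.eq_top_iff_one _).2 h),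
        fun h => hI.ne_top ((Ideal.eq_top_iff_one _).2 h), fun Q => ?_⟩
      rw [sub_self]; rfl
    · rintro D₁ D₂ _ _ ⟨d, A, B, hA, hB, hAI, hBI, h1⟩ ⟨e, A', B', hA', hB', hAI', hBI', h2⟩
      refine ⟨d + e, A * A', B * B', hA.mul hA', hB.mul hB',
        fun h => (hI.mem_or_mem h).elim hAI hAI', fun h => (hI.mem_or_mem h).elim hBI hBI',
        fun Q => ?_⟩
      obtain ⟨p, hp⟩ := h Q
      rw [Finsupp.add_apply, h1, h2, hp.ord_mul hI hAI hAI', hp.ord_mul hI hBI hBI']
      push_cast
      ring
    · rintro D _ ⟨d, A, B, hA, hB, hAI, hBI, h1⟩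
      refine ⟨d, B, A, hB, hA, hBI, hAI, fun Q => ?_⟩
      rw [Finsupp.neg_apply, h1]
      ring
  · intro hD
    exact AddSubgroup.subset_closure hD

end PicJump

end
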