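import Pool.Agent.Lib_helper43.PJ.FibDef

/-!
The elliptic curve `y^2 = x^3 + 4 F^2 x` over `k(a)`, `F = a^4 + s a^2 + 1` (a quadratic twist, by
`2F`, of the constant curve `Y^2 = X^3 + X`: put `x = 2F X`, `y = (2F)^2 Y`, then
`2 F Y^2 = X^3 + X`).
-/

noncomputable section

namespace PicJump

instance decEqRatFunc (k : Type) [Field k] : DecidableEq (RatFunc k) := Classical.decEq _

/-- `F = a^4 + s a^2 + 1` in `k(a)` -/
def Fr {k : Type} [Field k] (s : k) : RatFunc k := algebraMap (Polynomial k) (RatFunc k) (Fp s)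

/-- the curve `y^2 = x^3 + 4 F^2 x` -/
def Wc {k : Type} [Field k] (s : k) : WeierstrassCurve.Affine (RatFunc k) :=
  { a₁ := 0, a₂ := 0, a₃ := 0, a₄ := 4 * Fr s ^ 2, a₆ := 0 }

/-- its group of `k(a)`-rational points -/
abbrev EP {k : Type} [Field k] (s : k) : Type := (Wc s).Point

/-- its affine coordinate ring -/
abbrev CR {k : Type} [Field k] (s : k) : Type := (Wc s).CoordinateRing

/-- the function `x` on the curve -/
def xC {k : Type} [Field k] (s : k) : CR s :=
  WeierstrassCurve.Affine.CoordinateRing.mk (Wc s) (Polynomial.C Polynomial.X)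

/-- the function `y` on the curve -/
def yC {k : Type} [Field k] (s : k) : CR s :=
  WeierstrassCurve.Affine.CoordinateRing.mk (Wc s) Polynomial.X

end PicJump

end
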