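import Pool.Agent.Lib_helper43.PJ.FibDef
import Pool.Agent.Lib_helper43.PJ.EllDef

/-!
Auxiliary definitions used in the proof blocks (MP_f6fc0c_ag).
-/

noncomputable section

namespace PicJump

open MvPolynomial

section

variable {k : Type} [Field k] {I : Ideal (Pol k)}

/-- `Q` is generated by `p` locally at its generic point. -/
def LocPrin (Q : PrimeDiv I) (p : Pol k) : Prop :=
  p ∈ Q.carrier ∧ ∃ s : Pol k, s ∉ Q.carrier ∧ ∀ h ∈ Q.carrier, s * h ∈ Ideal.span {p} ⊔ I

variable {k' : Type} [Field k']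

/-- A ring isomorphism of polynomial rings which preserves homogeneity and degrees. -/
def HomogIso (e : Pol k ≃+* Pol k') : Prop :=
  ∀ (f : Pol k) (n : ℕ), f.IsHomogeneous n ↔ (e f).IsHomogeneous n

end

section

variable {A : Type} [CommRing A] [IsDomain A] [IsDedekindDomain A]

open Classical in
/-- The class of a nonzero ideal in the class group (the junk value `0` for the zero ideal). -/
def cls (J : Ideal A) : Additive (ClassGroup A) :=
  if h : J ≠ ⊥ then Additive.ofMul (ClassGroup.mk0 ⟨J, mem_nonZeroDivisors_of_ne_zero h⟩) else 0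

/-- The exponent of the prime `P` in the factorization of the ideal `J`. -/
def vI (P J : Ideal A) : ℕ := sSup {n : ℕ | J ≤ P ^ n}

end

section

variable {k A : Type} [Field k] [CommRing A] [Algebra k A] {s : k}

def Fib.m (f : Fib k A s) (ζ : k) : A := f.u - algebraMap k A ζ * f.v

def Fib.n (f : Fib k A s) (ζ : k) : A := f.u + algebraMap k A ζ * f.v

/-- `p = a^2 + s/2 - u^2` -/
def Fib.pp (f : Fib k A s) : A := f.a ^ 2 + algebraMap k A (s / 2) - f.u ^ 2

/-- the ideal `(p, v - κ)`, for `κ^4 = 1 - s^2/4` -/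
def Fib.cc (f : Fib k A s) (κ : k) : Ideal A := Ideal.span {f.pp, f.v - algebraMap k A κ}

/-- `h_r = p^2 - (s + 2 r) p + v^4 - c`, so that `2 p (a^2 - r) = h_r(p, v)` -/
def hr (s r : k) : MvPolynomial (Fin 2) k :=
  X 0 ^ 2 - C (s + 2 * r) * X 0 + X 1 ^ 4 - C (1 - s ^ 2 / 4)

end

section

variable {k : Type} [Field k]

/-- `Iso s`: there is a nonconstant `φ` in `k(a)` with `F_s ψ^2 = φ^4 + 1`, `ψ <> 0`; so the curve
`e^2 = F_s(a)` maps onto the curve `e^2 = b^4 + 1`. -/
def Iso (s : k) : Prop :=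
  ∃ φ ψ : RatFunc k, (∀ c : k, φ ≠ RatFunc.C c) ∧ ψ ≠ 0 ∧ Fr s * ψ ^ 2 = φ ^ 4 + 1

/-- the degree of a rational function (as a map) -/
def rdeg (X : RatFunc k) : ℕ := max X.num.natDegree X.denom.natDegree

/-- the vertical subgroup -/
def Vert (s : k) : AddSubgroup (Cl (IX s)) :=
  AddSubgroup.closure {c | ∃ Q : PrimeDiv (IX s), ¬ Hor Q ∧ c = Cl.mk (Finsupp.single Q 1)}

/-- `A_c(p) = p^4 + c p^2 + 1`, the value of `A_c` at `(p : 1)` -/
def Ac (c p : k) : k := p ^ 4 + c * p ^ 2 + 1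

/-- the homogeneous ideal of the point `(v0 : v1 : v2 : v3)` -/
def ptIdeal (v : Fin 4 → k) : Ideal (Pol k) :=
  Ideal.span {f | ∃ i j : Fin 4, f = C (v j) * X i - C (v i) * X j}

/-- `E` is the divisor of the intersection of the base curve with the line `x = p y`, `z = q w` -/
def IsLineDiv (c₀ c₁ p q : k) (E : PrimeDiv (base (G0 c₀) (G1 c₁)) →₀ ℤ) : Prop :=
  open Classical in
  ∀ P : PrimeDiv (base (G0 c₀) (G1 c₁)), E P = if lineIdeal p q ≤ P.carrier then 1 else 0

end

/-- the algebraic numbers -/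
abbrev Qbar : Type := AlgebraicClosure ℚ

end PicJump

end
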