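import Mathlib

/-!
Definitions for MP_f6fc0c_ag (Chow group of the base curve of a pencil of quartic surfaces).

A projective variety `X` in `P^3` over an algebraically closed field `k` is given by a homogeneous
prime ideal `I` of `k[x_0,...,x_3]`.  We define its prime divisors, the order of vanishing of a form
along a prime divisor, the Weil divisor class group `Cl`, its subgroup `Pic` of classes of locally
principal divisors (for a normal variety this is the Picard group), the Picard number `rho`, and for
a pencil of surfaces the subgroup `Gamma` of the class group of the base curve generated by the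
restrictions of all line bundles on all Picard-jump members.
-/

noncomputable section

namespace PicJump

open MvPolynomial

/-- The homogeneous coordinate ring `k[x_0,x_1,x_2,x_3]` of `P^3`. -/
abbrev Pol (k : Type) [Field k] : Type := MvPolynomial (Fin 4) k

/-- An ideal of `k[x_0,...,x_3]` is homogeneous if it contains the homogeneous components of its
elements. -/
def HomogIdeal {k : Type} [Field k] (J : Ideal (Pol k)) : Prop :=
  ∀ f ∈ J, ∀ n : ℕ, homogeneousComponent n f ∈ J

/-- Prime divisors of the projective variety `X = V(I)`: the irreducible closed subvarieties of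
codimension one, i.e. the homogeneous primes `Q` strictly containing `I` which are minimal with this
property. -/
structure PrimeDiv {k : Type} [Field k] (I : Ideal (Pol k)) where
  /-- the homogeneous prime ideal of the prime divisor -/
  carrier : Ideal (Pol k)
  prime : carrier.IsPrime
  homog : HomogIdeal carrier
  lt : I < carrier
  minimal : ∀ J : Ideal (Pol k), J.IsPrime → HomogIdeal J → I < J → J ≤ carrier → J = carrier

section

variable {k : Type} [Field k] {I : Ideal (Pol k)}

/-- The order of vanishing of the form `A` along the prime divisor `Q` of `V(I)`: the largest `n`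
such that the image of `A` lies in the `n`-th power of the maximal ideal of the local ring of
`k[x]/I` at `Q`, i.e. such that `s * A ∈ Q ^ n + I` for some `s ∉ Q`. -/
def ord (Q : PrimeDiv I) (A : Pol k) : ℕ :=
  sSup {n : ℕ | ∃ s : Pol k, s ∉ Q.carrier ∧ s * A ∈ Q.carrier ^ n ⊔ I}

/-- `D` is the divisor of the rational function `A / B`, with `A`, `B` forms of the same degree, not
vanishing identically on `V(I)`. -/
def IsDivOf (D : PrimeDiv I →₀ ℤ) : Prop :=
  ∃ (d : ℕ) (A B : Pol k), A.IsHomogeneous d ∧ B.IsHomogeneous d ∧ A ∉ I ∧ B ∉ I ∧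
    ∀ Q : PrimeDiv I, D Q = (ord Q A : ℤ) - (ord Q B : ℤ)

/-- `D` is locally principal: near every closed point `v` of `V(I)` it is the divisor of a rational
function. -/
def LocallyPrincipal (D : PrimeDiv I →₀ ℤ) : Prop :=
  ∀ v : Fin 4 → k, v ≠ 0 → (∀ f ∈ I, eval v f = 0) →
    ∃ (d : ℕ) (A B : Pol k), A.IsHomogeneous d ∧ B.IsHomogeneous d ∧ A ∉ I ∧ B ∉ I ∧
      ∀ Q : PrimeDiv I, (∀ f ∈ Q.carrier, eval v f = 0) →
        D Q = (ord Q A : ℤ) - (ord Q B : ℤ)

end

section

variable {k : Type} [Field k]

/-- The group of principal Weil divisors of `V(I)`. -/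
def Princ (I : Ideal (Pol k)) : AddSubgroup (PrimeDiv I →₀ ℤ) :=
  AddSubgroup.closure {D | IsDivOf D}

/-- The Weil divisor class group of `V(I)`. -/
abbrev Cl (I : Ideal (Pol k)) : Type := (PrimeDiv I →₀ ℤ) ⧸ Princ I

/-- The class of a divisor. -/
def Cl.mk {I : Ideal (Pol k)} (D : PrimeDiv I →₀ ℤ) : Cl I := QuotientAddGroup.mk D

/-- The Picard group of (the normal variety) `V(I)`: the classes of locally principal divisors. -/
def Pic (I : Ideal (Pol k)) : AddSubgroup (Cl I) :=
  AddSubgroup.closure {c | ∃ D : PrimeDiv I →₀ ℤ, LocallyPrincipal D ∧ c = Cl.mk D}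

/-- The Picard number of `V(I)`, the rank of its Picard group. (For a normal quartic surface
`H^1(O) = 0`, so that the Picard group is the Neron-Severi group.) -/
def rho (I : Ideal (Pol k)) : Cardinal.{0} := Module.rank ℤ (Pic I)

/-- The ideal of the member `l F0 + m F1 = 0` of the pencil spanned by `F0` and `F1`. -/
def member (F0 F1 : Pol k) (l m : k) : Ideal (Pol k) := Ideal.span {C l * F0 + C m * F1}

/-- The ideal of the base locus `F0 = F1 = 0` of the pencil. -/
def base (F0 F1 : Pol k) : Ideal (Pol k) := Ideal.span {F0, F1}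

/-- An algebraic closure of the function field `k(T)` of the parameter line of the pencil. -/
abbrev GenField (k : Type) [Field k] : Type := AlgebraicClosure (RatFunc k)

/-- The Picard number of the geometric generic member `F0 + T F1 = 0` of the pencil. -/
def rhoGen (F0 F1 : Pol k) : Cardinal.{0} :=
  rho (member (F0.map (algebraMap k (GenField k))) (F1.map (algebraMap k (GenField k)))
    1 (algebraMap (RatFunc k) (GenField k) RatFunc.X))

/-- The multiplicity at the point `P` of the base curve of the intersection with the base curve of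
the prime divisor `Q` of a member: the least order of vanishing at `P`, along the base curve, of an
element of the ideal of `Q`. -/
def mult {J I : Ideal (Pol k)} (P : PrimeDiv J) (Q : PrimeDiv I) : ℕ :=
  sInf {n : ℕ | ∃ (d : ℕ) (h : Pol k), h.IsHomogeneous d ∧ h ∈ Q.carrier ∧ h ∉ J ∧ ord P h = n}

/-- `E` is the restriction to the curve `V(J)` of the divisor `D` on the surface `V(I)`, where no
component of `D` is the curve `V(J)` itself. -/
def IsRestriction {J I : Ideal (Pol k)} (D : PrimeDiv I →₀ ℤ) (E : PrimeDiv J →₀ ℤ) : Prop :=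
  (∀ Q ∈ D.support, Q.carrier ≠ J) ∧
    ∀ P : PrimeDiv J, E P = D.sum fun Q n => n * (mult P Q : ℤ)

/-- The subgroup `Gamma` of the class group `CH_0` of the base curve generated by the restrictions
of all line bundles on all the members whose Picard number is larger than that of the geometric
generic member. -/
def Gamma (F0 F1 : Pol k) : AddSubgroup (Cl (base F0 F1)) :=
  AddSubgroup.closure {c | ∃ l m : k, (l ≠ 0 ∨ m ≠ 0) ∧ rhoGen F0 F1 < rho (member F0 F1 l m) ∧
    ∃ (D : PrimeDiv (member F0 F1 l m) →₀ ℤ) (E : PrimeDiv (base F0 F1) →₀ ℤ),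
      LocallyPrincipal D ∧ IsRestriction D E ∧ c = Cl.mk E}

/-- The surface `F = 0` is smooth. -/
def SmoothSurface (F : Pol k) : Prop :=
  ∀ v : Fin 4 → k, v ≠ 0 → eval v F = 0 → ∃ i, eval v (pderiv i F) ≠ 0

/-- The base locus `F0 = F1 = 0` is a smooth curve (Jacobian criterion). -/
def SmoothBase (F0 F1 : Pol k) : Prop :=
  ∀ v : Fin 4 → k, v ≠ 0 → eval v F0 = 0 → eval v F1 = 0 →
    LinearIndependent k ![fun i => eval v (pderiv i F0), fun i => eval v (pderiv i F1)]

/-- A pencil of quartic surfaces with smooth base curve and smooth general member. -/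
structure Admissible (F0 F1 : Pol k) : Prop where
  hom0 : F0.IsHomogeneous 4
  hom1 : F1.IsHomogeneous 4
  smoothBase : SmoothBase F0 F1
  smoothMember : ∃ l m : k, SmoothSurface (C l * F0 + C m * F1)

/-- The forms `x^4 + c x^2 y^2 + y^4 - z^4`. -/
def G0 (c : k) : Pol k := X 0 ^ 4 + C c * X 0 ^ 2 * X 1 ^ 2 + X 1 ^ 4 - X 2 ^ 4

/-- The forms `x^4 + c x^2 y^2 + y^4 - w^4`. -/
def G1 (c : k) : Pol k := X 0 ^ 4 + C c * X 0 ^ 2 * X 1 ^ 2 + X 1 ^ 4 - X 3 ^ 4

/-- The diagonal quartic forms, the sum of the `a_i x_i^4`. -/
def Diag (a : Fin 4 → k) : Pol k := ∑ i, C (a i) * X i ^ 4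

end

end PicJump

end
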