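import Pool.Agent.Lib_helper43.PJ.Defs

/-!
Definitions for the fibration of `X_s : x^4 + s x^2 y^2 + y^4 = z^4 + w^4` over the `(x : y)`-line.
`Fib k A s`: `A` is the coordinate ring of the generic fibre, the curve `u^4 + v^4 = a^4 + s a^2 + 1`
over the field `k(a)`, i.e. `A` is the localization of `k[a,u,v]/(a^4 + s a^2 + 1 - u^4 - v^4)` at
the nonzero elements of `k[a]`.
-/

noncomputable section

namespace PicJump

open MvPolynomial

/-- `a^4 + s a^2 + 1 - u^4 - v^4` -/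
def relPoly {k : Type} [Field k] (s : k) : MvPolynomial (Fin 3) k :=
  X 0 ^ 4 + C s * X 0 ^ 2 + 1 - X 1 ^ 4 - X 2 ^ 4

/-- `t^4 + s t^2 + 1` -/
def Fp {k : Type} [Field k] (s : k) : Polynomial k :=
  Polynomial.X ^ 4 + Polynomial.C s * Polynomial.X ^ 2 + 1

structure Fib (k A : Type) [Field k] [CommRing A] [Algebra k A] (s : k) where
  a : A
  u : A
  v : A
  rel : a ^ 4 + algebraMap k A s * a ^ 2 + 1 = u ^ 4 + v ^ 4
  unit : ∀ t : Polynomial k, t ≠ 0 → IsUnit (Polynomial.aeval a t)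
  gen : ∀ x : A, ∃ (t : Polynomial k) (P : MvPolynomial (Fin 3) k), t ≠ 0 ∧
    x * Polynomial.aeval a t = aeval ![a, u, v] P
  inj : ∀ P : MvPolynomial (Fin 3) k, aeval ![a, u, v] P = 0 → relPoly s ∣ P

/-- The surface `X_s`. -/
def Phi {k : Type} [Field k] (s : k) : Pol k :=
  X 0 ^ 4 + C s * X 0 ^ 2 * X 1 ^ 2 + X 1 ^ 4 - X 2 ^ 4 - X 3 ^ 4

/-- its ideal -/
def IX {k : Type} [Field k] (s : k) : Ideal (Pol k) := Ideal.span {Phi s}

section

variable {k A : Type} [Field k] [CommRing A] [Algebra k A] {s : k}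

/-- Evaluation of forms at `(a, 1, u, v)`: restriction to the generic fibre. -/
def Fib.ev (f : Fib k A s) : Pol k →ₐ[k] A := aeval ![f.a, 1, f.u, f.v]

/-- `e` is the automorphism of `A` with the given values on `a`, `u`, `v`. -/
def Fib.IsAut (f : Fib k A s) (e : A ≃ₐ[k] A) (a' u' v' : A) : Prop :=
  e f.a = a' ∧ e f.u = u' ∧ e f.v = v'

end

/-- A prime divisor of `X_s` is horizontal if it contains no nonzero linear form in `x`, `y`. -/
def Hor {k : Type} [Field k] {I : Ideal (Pol k)} (Q : PrimeDiv I) : Prop :=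
  ∀ α β : k, (α ≠ 0 ∨ β ≠ 0) → C α * X 0 + C β * X 1 ∉ Q.carrier

/-- The ideal of the line `x = p y`, `z = q w`. -/
def lineIdeal {k : Type} [Field k] (p q : k) : Ideal (Pol k) :=
  Ideal.span {X 0 - C p * X 1, X 2 - C q * X 3}

end PicJump

end
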