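import Pool.Agent.Lib_helper43.PJ.D

/-!
BLOCK TransA of MP_f6fc0c_ag.
-/

noncomputable section

namespace PicJump

open MvPolynomial

variable {k k' : Type} [Field k] [Field k']

theorem transA_comp (e : Pol k ≃+* Pol k') (he : HomogIso e) (f : Pol k) (n : ℕ) :
    e (homogeneousComponent n f) = homogeneousComponent n (e f) := by
  have h1 : ∀ i, homogeneousComponent n (e (homogeneousComponent i f)) =
      if n = i then e (homogeneousComponent i f) else 0 := by
    intro i
    have h2 : (e (homogeneousComponent i f)).IsHomogeneous i :=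
      (he _ _).mp (homogeneousComponent_isHomogeneous i f)
    exact homogeneousComponent_of_mem h2
  have h3 : f = ∑ i ∈ Finset.range (f.totalDegree + 1), homogeneousComponent i f :=
    (sum_homogeneousComponent f).symm
  have h4 : homogeneousComponent n (e f) =
      ∑ i ∈ Finset.range (f.totalDegree + 1), if n = i then e (homogeneousComponent i f) else 0 := by
    conv_lhs => rw [h3, map_sum, map_sum]
    exact Finset.sum_congr rfl fun i _ => h1 i
  rw [h4, Finset.sum_ite_eq]
  split_ifs with h5
  · rfl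
  · have : f.totalDegree < n := by
      simpa using h5
    rw [homogeneousComponent_eq_zero n f this, map_zero]

theorem transA_symm (e : Pol k ≃+* Pol k') (he : HomogIso e) : HomogIso e.symm := by
  intro f n
  rw [he (e.symm f) n, e.apply_symm_apply]

theorem transA_mem (e : Pol k ≃+* Pol k') (J : Ideal (Pol k)) (x : Pol k) :
    e x ∈ J.map (e : Pol k →+* Pol k') ↔ x ∈ J := by
  constructor
  · intro h
    obtain ⟨y, hy, hyx⟩ := (Ideal.mem_map_iff_of_surjective (e : Pol k →+* Pol k')
      e.surjective).mp h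
    have : y = x := e.injective hyx
    rwa [this] at hy
  · intro h
    exact Ideal.mem_map_of_mem _ h

theorem transA_mem' (e : Pol k ≃+* Pol k') (J : Ideal (Pol k)) (y : Pol k') :
    y ∈ J.map (e : Pol k →+* Pol k') ↔ e.symm y ∈ J := by
  rw [← transA_mem e, e.apply_symm_apply]

theorem transA_le (e : Pol k ≃+* Pol k') (J K : Ideal (Pol k)) :
    J.map (e : Pol k →+* Pol k') ≤ K.map (e : Pol k →+* Pol k') ↔ J ≤ K := by
  constructor
  · intro h x hx
    rw [← transA_mem e]
    exact h ((transA_mem e J x).mpr hx)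
  · intro h
    exact Ideal.map_mono h

theorem transA_homog (e : Pol k ≃+* Pol k') (he : HomogIso e) (J : Ideal (Pol k))
    (hJ : HomogIdeal J) : HomogIdeal (J.map (e : Pol k →+* Pol k')) := by
  intro f hf n
  rw [transA_mem'] at hf ⊢
  rw [transA_comp e.symm (transA_symm e he)]
  exact hJ _ hf n

theorem transA_prime (e : Pol k ≃+* Pol k') (J : Ideal (Pol k))
    (hJ : J.IsPrime) : (J.map (e : Pol k →+* Pol k')).IsPrime :=
  Ideal.map_isPrime_of_equiv e

theorem transA_map_map (e : Pol k ≃+* Pol k') (J : Ideal (Pol k)) :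
    (J.map (e : Pol k →+* Pol k')).map (e.symm : Pol k' →+* Pol k) = J := by
  ext x
  rw [transA_mem', transA_mem', e.symm_symm, e.symm_apply_apply]

theorem transA_ext {I : Ideal (Pol k)} {Q Q' : PrimeDiv I}
    (h : Q.carrier = Q'.carrier) : Q = Q' := by
  cases Q
  cases Q'
  simp only at h
  subst h
  rfl

/-- transport of one prime divisor -/
def transA_fun (e : Pol k ≃+* Pol k') (he : HomogIso e) (I : Ideal (Pol k))
    (J : Ideal (Pol k')) (hJ : J = I.map (e : Pol k →+* Pol k')) (Q : PrimeDiv I) :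
    PrimeDiv J where
  carrier := Q.carrier.map (e : Pol k →+* Pol k')
  prime := transA_prime e _ Q.prime
  homog := transA_homog e he _ Q.homog
  lt := by
    rw [hJ]
    refine lt_of_le_not_ge ?_ ?_
    · rw [transA_le]; exact Q.lt.le
    · rw [transA_le]; exact Q.lt.not_ge
  minimal := by
    intro K hK hKh hIK hKQ
    have h1 : K = (K.map (e.symm : Pol k' →+* Pol k)).map (e : Pol k →+* Pol k') := by
      have := transA_map_map e.symm K
      rw [e.symm_symm] at this
      exact this.symm
    have h2 := Q.minimal (K.map (e.symm : Pol k' →+* Pol k)) (transA_prime e.symm K hK)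
      (transA_homog e.symm (transA_symm e he) K hKh) ?_ ?_
    · rw [h1, h2]
    · rw [hJ, h1] at hIK
      refine lt_of_le_not_ge ?_ ?_
      · exact (transA_le e _ _).mp hIK.le
      · intro h3
        exact hIK.not_ge ((transA_le e _ _).mpr h3)
    · rw [h1] at hKQ
      exact (transA_le e _ _).mp hKQ

theorem transA_ord (e : Pol k ≃+* Pol k') (he : HomogIso e) (I : Ideal (Pol k))
    (J : Ideal (Pol k')) (hJ : J = I.map (e : Pol k →+* Pol k'))
    (Q : PrimeDiv I) (Q' : PrimeDiv J) (hQ : Q'.carrier = Q.carrier.map (e : Pol k →+* Pol k'))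
    (A : Pol k) : ord Q' (e A) = ord Q A := by
  have h1 : ∀ n : ℕ, Q'.carrier ^ n ⊔ J = (Q.carrier ^ n ⊔ I).map (e : Pol k →+* Pol k') := by
    intro n
    rw [hQ, hJ, Ideal.map_sup, Ideal.map_pow]
  have h2 : {n : ℕ | ∃ s : Pol k', s ∉ Q'.carrier ∧ s * e A ∈ Q'.carrier ^ n ⊔ J} =
      {n : ℕ | ∃ s : Pol k, s ∉ Q.carrier ∧ s * A ∈ Q.carrier ^ n ⊔ I} := by
    ext n
    simp only [Set.mem_setOf_eq]
    constructor
    · rintro ⟨s, hs, hsA⟩
      refine ⟨e.symm s, ?_, ?_⟩
      · rwa [hQ, transA_mem'] at hs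
      · rw [h1, transA_mem', map_mul, e.symm_apply_apply] at hsA
        exact hsA
    · rintro ⟨s, hs, hsA⟩
      refine ⟨e s, ?_, ?_⟩
      · rwa [hQ, transA_mem]
      · rw [h1, ← map_mul, transA_mem]
        exact hsA
  rw [ord, ord, h2]

theorem exists_primeDivEquiv (e : Pol k ≃+* Pol k') (he : HomogIso e) (I : Ideal (Pol k))
    (J : Ideal (Pol k')) (hJ : J = I.map (e : Pol k →+* Pol k')) :
    ∃ E : PrimeDiv I ≃ PrimeDiv J,
      (∀ Q, (E Q).carrier = Q.carrier.map (e : Pol k →+* Pol k')) ∧
      ∀ Q A, ord (E Q) (e A) = ord Q A := by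
  have hI : I = J.map (e.symm : Pol k' →+* Pol k) := by rw [hJ, transA_map_map]
  refine ⟨⟨transA_fun e he I J hJ, transA_fun e.symm (transA_symm e he) J I hI, ?_, ?_⟩, ?_, ?_⟩
  · intro Q
    apply transA_ext
    exact transA_map_map e Q.carrier
  · intro Q
    apply transA_ext
    have := transA_map_map e.symm Q.carrier
    rw [e.symm_symm] at this
    exact this
  · intro Q
    rfl
  · intro Q A
    exact transA_ord e he I J hJ Q _ rfl A

theorem transA_princ (e : Pol k ≃+* Pol k') (he : HomogIso e) (I : Ideal (Pol k))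
    (J : Ideal (Pol k')) (hJ : J = I.map (e : Pol k →+* Pol k'))
    (E : PrimeDiv I ≃ PrimeDiv J)
    (hE : ∀ Q, (E Q).carrier = Q.carrier.map (e : Pol k →+* Pol k'))
    (D : PrimeDiv I →₀ ℤ) (hD : D ∈ Princ I) :
    Finsupp.equivMapDomain E D ∈ Princ J := by
  induction hD using AddSubgroup.closure_induction with
  | mem D hD =>
    apply AddSubgroup.subset_closure
    obtain ⟨d, A, B, hA, hB, hAI, hBI, hD⟩ := hD
    refine ⟨d, e A, e B, (he _ _).mp hA, (he _ _).mp hB, ?_, ?_, ?_⟩
    · rwa [hJ, transA_mem]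
    · rwa [hJ, transA_mem]
    · intro Q
      rw [Finsupp.equivMapDomain_apply, hD]
      have hQ : Q.carrier = (E.symm Q).carrier.map (e : Pol k →+* Pol k') := by
        rw [← hE, Equiv.apply_symm_apply]
      rw [transA_ord e he I J hJ (E.symm Q) Q hQ, transA_ord e he I J hJ (E.symm Q) Q hQ]
  | zero =>
    have : Finsupp.equivMapDomain E (0 : PrimeDiv I →₀ ℤ) = 0 := by
      ext Q
      simp [Finsupp.equivMapDomain_apply]
    rw [this]
    exact AddSubgroup.zero_mem _
  | add D D' _ _ h h' =>
    have : Finsupp.equivMapDomain E (D + D') =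
        Finsupp.equivMapDomain E D + Finsupp.equivMapDomain E D' := by
      ext Q
      simp [Finsupp.equivMapDomain_apply]
    rw [this]
    exact AddSubgroup.add_mem _ h h'
  | neg D _ h =>
    have : Finsupp.equivMapDomain E (-D) = -Finsupp.equivMapDomain E D := by
      ext Q
      simp [Finsupp.equivMapDomain_apply]
    rw [this]
    exact AddSubgroup.neg_mem _ h

/-- the induced map on divisors preserves principal divisors -/
theorem princ_transport (e : Pol k ≃+* Pol k') (he : HomogIso e) (I : Ideal (Pol k))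
    (J : Ideal (Pol k')) (hJ : J = I.map (e : Pol k →+* Pol k'))
    (E : PrimeDiv I ≃ PrimeDiv J)
    (hE : ∀ Q, (E Q).carrier = Q.carrier.map (e : Pol k →+* Pol k'))
    (D : PrimeDiv I →₀ ℤ) :
    Finsupp.equivMapDomain E D ∈ Princ J ↔ D ∈ Princ I := by
  refine ⟨fun h => ?_, transA_princ e he I J hJ E hE D⟩
  have hI : I = J.map (e.symm : Pol k' →+* Pol k) := by rw [hJ, transA_map_map]
  have h2 := transA_princ e.symm (transA_symm e he) J I hI E.symm (by
    intro Q
    have := hE (E.symm Q)
    rw [Equiv.apply_symm_apply] at this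
    rw [this, transA_map_map]) _ h
  have h3 : Finsupp.equivMapDomain E.symm (Finsupp.equivMapDomain E D) = D := by
    ext Q
    simp [Finsupp.equivMapDomain_apply]
  rwa [h3] at h2

end PicJump

end
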