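import Pool.Agent.Lib_helper43.PJ.D
import Pool.Agent.Lib_helper43.PJ.W_TransA

/-!
BLOCK TransB of MP_f6fc0c_ag.
-/

noncomputable section

namespace PicJump

open MvPolynomial

variable {k : Type} [Field k]

theorem transB_eval (e : Pol k ≃ₐ[k] Pol k) (v : Fin 4 → k) (f : Pol k) :
    eval v (e f) = eval (fun i => eval v (e (X i))) f := by
  have h : ((aeval v : Pol k →ₐ[k] k).comp (e : Pol k →ₐ[k] Pol k)) =
      (aeval (fun i => eval v (e (X i))) : Pol k →ₐ[k] k) := by
    ext i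
    simp [aeval_X, MvPolynomial.coe_aeval_eq_eval]
  have h2 := DFunLike.congr_fun h f
  simpa [MvPolynomial.coe_aeval_eq_eval] using h2

theorem transB_ne (e : Pol k ≃ₐ[k] Pol k) (he : HomogIso (e : Pol k ≃+* Pol k)) (v : Fin 4 → k)
    (hv : v ≠ 0) : (fun i => eval v (e (X i))) ≠ 0 := by
  intro h0
  apply hv
  ext i
  have h1 : (e.symm (X i)).IsHomogeneous 1 := by
    rw [he (e.symm (X i)) 1]
    change (e (e.symm (X i))).IsHomogeneous 1
    rw [e.apply_symm_apply]
    exact isHomogeneous_X k i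
  have h2 : eval v (e (e.symm (X i))) = 0 := by
    rw [transB_eval, h0]
    have h3 : eval (0 : Fin 4 → k) (e.symm (X i)) = constantCoeff (e.symm (X i)) := by
      rw [MvPolynomial.eval_zero]
    rw [h3]
    by_contra hne
    have h4 := h1 (d := 0) (by simpa [constantCoeff_eq] using hne)
    simp at h4
  rw [e.apply_symm_apply, eval_X] at h2
  exact h2

theorem transB_lp (e : Pol k ≃ₐ[k] Pol k) (he : HomogIso (e : Pol k ≃+* Pol k))
    (I J : Ideal (Pol k)) (hJ : J = I.map ((e : Pol k ≃+* Pol k) : Pol k →+* Pol k))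
    (E : PrimeDiv I ≃ PrimeDiv J)
    (hE : ∀ Q, (E Q).carrier = Q.carrier.map ((e : Pol k ≃+* Pol k) : Pol k →+* Pol k))
    (D : PrimeDiv I →₀ ℤ) (hD : LocallyPrincipal D) :
    LocallyPrincipal (Finsupp.equivMapDomain E D) := by
  intro v hv hvJ
  obtain ⟨d, A, B, hA, hB, hAI, hBI, h⟩ := hD (fun i => eval v (e (X i)))
    (transB_ne e he v hv) (by
      intro f hf
      rw [← transB_eval]
      apply hvJ
      rw [hJ]
      exact Ideal.mem_map_of_mem _ hf)
  refine ⟨d, e A, e B, (he _ _).mp hA, (he _ _).mp hB, ?_, ?_, ?_⟩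
  · rw [hJ]
    intro hmem
    exact hAI ((transA_mem (e : Pol k ≃+* Pol k) I A).mp hmem)
  · rw [hJ]
    intro hmem
    exact hBI ((transA_mem (e : Pol k ≃+* Pol k) I B).mp hmem)
  · intro Q hQ
    have hQ' : Q.carrier =
        (E.symm Q).carrier.map ((e : Pol k ≃+* Pol k) : Pol k →+* Pol k) := by
      rw [← hE, Equiv.apply_symm_apply]
    rw [Finsupp.equivMapDomain_apply, h]
    · have h1 := transA_ord (e : Pol k ≃+* Pol k) he I J hJ (E.symm Q) Q hQ' A
      have h2 := transA_ord (e : Pol k ≃+* Pol k) he I J hJ (E.symm Q) Q hQ' B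
      rw [← h1, ← h2]
      rfl
    · intro f hf
      rw [← transB_eval]
      apply hQ
      rw [hQ']
      exact Ideal.mem_map_of_mem _ hf

/-- The Picard number does not change under a linear change of coordinates. -/
theorem rho_map (e : Pol k ≃ₐ[k] Pol k) (he : HomogIso (e : Pol k ≃+* Pol k))
    (I J : Ideal (Pol k)) (hJ : J = I.map (e : Pol k →+* Pol k)) : rho J = rho I := by
  have hJ' : J = I.map ((e : Pol k ≃+* Pol k) : Pol k →+* Pol k) := hJ
  obtain ⟨E, hE, -⟩ := exists_primeDivEquiv (e : Pol k ≃+* Pol k) he I J hJ'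
  -- the isomorphism of divisor groups
  let φ : (PrimeDiv I →₀ ℤ) ≃+ (PrimeDiv J →₀ ℤ) := Finsupp.domCongr E
  have hφ : ∀ D, φ D = Finsupp.equivMapDomain E D := fun D => rfl
  have hmap : AddSubgroup.map (φ : (PrimeDiv I →₀ ℤ) →+ (PrimeDiv J →₀ ℤ)) (Princ I) =
      Princ J := by
    ext D
    constructor
    · rintro ⟨D', hD', rfl⟩
      exact (princ_transport (e : Pol k ≃+* Pol k) he I J hJ' E hE D').mpr hD'
    · intro hD
      refine ⟨φ.symm D, ?_, φ.apply_symm_apply D⟩
      apply (princ_transport (e : Pol k ≃+* Pol k) he I J hJ' E hE (φ.symm D)).mp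
      rw [← hφ, φ.apply_symm_apply]
      exact hD
  let ψ : Cl I ≃+ Cl J := QuotientAddGroup.congr (Princ I) (Princ J) φ hmap
  have hψ : ∀ D : PrimeDiv I →₀ ℤ, ψ (Cl.mk D) = Cl.mk (Finsupp.equivMapDomain E D) :=
    fun D => rfl
  have hJe : I = J.map ((e.symm : Pol k ≃+* Pol k) : Pol k →+* Pol k) := by
    rw [hJ']
    exact (transA_map_map (e : Pol k ≃+* Pol k) I).symm
  have hEe : ∀ Q, (E.symm Q).carrier =
      Q.carrier.map ((e.symm : Pol k ≃+* Pol k) : Pol k →+* Pol k) := by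
    intro Q
    have := hE (E.symm Q)
    rw [Equiv.apply_symm_apply] at this
    rw [this]
    exact (transA_map_map (e : Pol k ≃+* Pol k) _).symm
  have hPic : AddSubgroup.map (ψ : Cl I →+ Cl J) (Pic I) = Pic J := by
    rw [Pic, AddMonoidHom.map_closure, Pic]
    congr 1
    ext c
    constructor
    · rintro ⟨c', ⟨D, hD, rfl⟩, rfl⟩
      exact ⟨_, transB_lp e he I J hJ' E hE D hD, hψ D⟩
    · rintro ⟨D, hD, rfl⟩
      refine ⟨Cl.mk (Finsupp.equivMapDomain E.symm D), ⟨_, ?_, rfl⟩, ?_⟩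
      · exact transB_lp e.symm (transA_symm (e : Pol k ≃+* Pol k) he) J I hJe E.symm hEe D hD
      · change ψ _ = _
        rw [hψ]
        congr 1
        ext Q
        simp [Finsupp.equivMapDomain_apply]
  have h1 : (Pic I) ≃+ AddSubgroup.map (ψ : Cl I →+ Cl J) (Pic I) := ψ.addSubgroupMap (Pic I)
  have h2 : (Pic I) ≃+ Pic J := h1.trans (AddEquiv.addSubgroupCongr hPic)
  rw [rho, rho]
  exact (h2.toIntLinearEquiv.rank_eq).symm

end PicJump

end
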