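import Pool.Agent.Lib_helper43.PJ.D
import Pool.Agent.Lib_helper43.PJ.W_TransB

/-!
Rescaling the variables.
-/

noncomputable section

namespace PicJump

open MvPolynomial

variable {k : Type} [Field k]

/-- the substitution `X i -> c i X i` -/
def scaleHom (c : Fin 4 → k) : Pol k →ₐ[k] Pol k := aeval fun i => C (c i) * X i

theorem scaleHom_X (c : Fin 4 → k) (i : Fin 4) : scaleHom c (X i) = C (c i) * X i := by
  simp [scaleHom]

theorem scaleHom_comp (c d : Fin 4 → k) (h : ∀ i, c i * d i = 1) :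
    (scaleHom c).comp (scaleHom d) = AlgHom.id k (Pol k) := by
  ext i : 1
  simp only [AlgHom.comp_apply, scaleHom_X, map_mul, AlgHom.id_apply]
  rw [← MvPolynomial.algebraMap_eq, AlgHom.commutes, MvPolynomial.algebraMap_eq, ← mul_assoc,
    ← C_mul, mul_comm (d i), h, C_1, one_mul]

/-- the substitution `X i -> c i X i`, for nonzero `c i` -/
def scaleEquiv (c : Fin 4 → k) (hc : ∀ i, c i ≠ 0) : Pol k ≃ₐ[k] Pol k :=
  AlgEquiv.ofAlgHom (scaleHom c) (scaleHom fun i => (c i)⁻¹)
    (scaleHom_comp _ _ fun i => mul_inv_cancel₀ (hc i))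
    (scaleHom_comp _ _ fun i => inv_mul_cancel₀ (hc i))

theorem scaleEquiv_apply (c : Fin 4 → k) (hc : ∀ i, c i ≠ 0) (f : Pol k) :
    scaleEquiv c hc f = scaleHom c f := rfl

theorem scaleHom_homog (c : Fin 4 → k) {f : Pol k} {n : ℕ} (hf : f.IsHomogeneous n) :
    (scaleHom c f).IsHomogeneous n := by
  have h := hf.aeval (fun i => C (c i) * X i : Fin 4 → Pol k) (n := 1) (by
    intro i
    simpa using (isHomogeneous_C (Fin 4) (c i)).mul (isHomogeneous_X k i))
  rwa [one_mul] at h

theorem scaleEquiv_homog (c : Fin 4 → k) (hc : ∀ i, c i ≠ 0) :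
    HomogIso (scaleEquiv c hc : Pol k ≃+* Pol k) := by
  intro f n
  constructor
  · intro h
    exact scaleHom_homog c h
  · intro h
    have h2 := scaleHom_homog (fun i => (c i)⁻¹) h
    have h3 : scaleHom (fun i => (c i)⁻¹) (scaleHom c f) = f := by
      have := scaleHom_comp (fun i => (c i)⁻¹) c (fun i => inv_mul_cancel₀ (hc i))
      exact DFunLike.congr_fun this f
    have h4 : (scaleEquiv c hc : Pol k ≃+* Pol k) f = scaleHom c f := rfl
    rw [h4, h3] at h2
    exact h2

/-- rescaling does not change the Picard number -/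
theorem rho_scale (c : Fin 4 → k) (hc : ∀ i, c i ≠ 0) (F G : Pol k) (u : k) (hu : u ≠ 0)
    (h : scaleHom c F = C u * G) : rho (Ideal.span {G}) = rho (Ideal.span {F}) := by
  refine rho_map (scaleEquiv c hc) (scaleEquiv_homog c hc) _ _ ?_
  rw [Ideal.map_span, Set.image_singleton]
  have h4 : ((scaleEquiv c hc : Pol k ≃ₐ[k] Pol k) : Pol k →+* Pol k) F = scaleHom c F := rfl
  rw [h4, h, Ideal.span_singleton_mul_left_unit]
  exact (isUnit_iff_ne_zero.mpr hu).map C

end PicJump

end
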