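import Pool.Agent.Lib_helper43.PJ.D

/-!
BLOCK ClsA of MP_f6fc0c_ag.
BLOCK CLS (class groups of Dedekind domains, written additively, and valuations of ideals).
-/

noncomputable section

namespace PicJump

variable {A B : Type} [CommRing A] [IsDomain A] [IsDedekindDomain A]
  [CommRing B] [IsDomain B] [IsDedekindDomain B]

lemma ClsA.cls_def {J : Ideal A} (hJ : J ≠ ⊥) :
    cls J = Additive.ofMul (ClassGroup.mk0 ⟨J, mem_nonZeroDivisors_of_ne_zero hJ⟩) := by
  unfold cls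
  rw [dif_pos hJ]

theorem cls_mul {I J : Ideal A} (hI : I ≠ ⊥) (hJ : J ≠ ⊥) : cls (I * J) = cls I + cls J := by
  have hIJ : I * J ≠ ⊥ := mul_ne_zero hI hJ
  rw [ClsA.cls_def hI, ClsA.cls_def hJ, ClsA.cls_def hIJ, ← ofMul_mul, ← map_mul]
  rfl

theorem cls_eq_iff {I J : Ideal A} (hI : I ≠ ⊥) (hJ : J ≠ ⊥) :
    cls I = cls J ↔ ∃ x y : A, x ≠ 0 ∧ y ≠ 0 ∧ Ideal.span {x} * I = Ideal.span {y} * J := by
  rw [ClsA.cls_def hI, ClsA.cls_def hJ]
  have h := ClassGroup.mk0_eq_mk0_iff (I := ⟨I, mem_nonZeroDivisors_of_ne_zero hI⟩)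
    (J := ⟨J, mem_nonZeroDivisors_of_ne_zero hJ⟩)
  constructor
  · intro h1
    obtain ⟨x, y, hx, hy, h2⟩ := h.1 (Additive.ofMul.injective h1)
    exact ⟨x, y, hx, hy, h2⟩
  · rintro ⟨x, y, hx, hy, h2⟩
    exact congrArg Additive.ofMul (h.2 ⟨x, y, hx, hy, h2⟩)

theorem cls_top : cls (⊤ : Ideal A) = 0 := by
  have h : (⊤ : Ideal A) ≠ ⊥ := top_ne_bot
  have h2 := cls_mul h h
  rw [Ideal.mul_top] at h2
  exact left_eq_add.1 h2

theorem cls_pow {I : Ideal A} (hI : I ≠ ⊥) (n : ℕ) : cls (I ^ n) = n • cls I := by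
  induction n with
  | zero => rw [pow_zero, Ideal.one_eq_top, cls_top, zero_smul]
  | succ n ih => rw [pow_succ, cls_mul (pow_ne_zero n hI) hI, ih, succ_nsmul]

theorem cls_span_singleton (x : A) : cls (Ideal.span {x}) = 0 := by
  by_cases hx : x = 0
  · rw [hx]
    unfold cls
    rw [dif_neg]
    simp
  · have h : (Ideal.span {x} : Ideal A) ≠ ⊥ := by
      rw [Ne, Ideal.span_singleton_eq_bot]
      exact hx
    rw [← cls_top, cls_eq_iff h top_ne_bot]
    refine ⟨1, x, one_ne_zero, hx, ?_⟩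
    rw [Ideal.span_singleton_one, Ideal.top_mul, Ideal.mul_top]

theorem cls_eq_zero_iff {J : Ideal A} (hJ : J ≠ ⊥) :
    cls J = 0 ↔ ∃ x : A, x ≠ 0 ∧ J = Ideal.span {x} := by
  constructor
  · intro h
    rw [← cls_top, cls_eq_iff hJ top_ne_bot] at h
    obtain ⟨x, y, hx, hy, h2⟩ := h
    rw [Ideal.mul_top] at h2
    have h3 : y ∈ Ideal.span {x} * J := by
      rw [h2]
      exact Ideal.mem_span_singleton_self y
    obtain ⟨z, hz, hy2⟩ := Ideal.mem_span_singleton_mul.1 h3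
    have hz0 : z ≠ 0 := by
      rintro rfl
      apply hy
      rw [← hy2, mul_zero]
    refine ⟨z, hz0, ?_⟩
    have h4 : Ideal.span {x} * J = Ideal.span {x} * Ideal.span {z} := by
      rw [h2, Ideal.span_singleton_mul_span_singleton, hy2]
    have h5 : (Ideal.span {x} : Ideal A) ≠ 0 := by
      rw [Ne, Ideal.zero_eq_bot, Ideal.span_singleton_eq_bot]
      exact hx
    exact mul_left_cancel₀ h5 h4
  · rintro ⟨x, _, rfl⟩
    exact cls_span_singleton x

theorem exists_cls_eq (c : Additive (ClassGroup A)) : ∃ J : Ideal A, J ≠ ⊥ ∧ cls J = c := by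
  obtain ⟨J, hJ⟩ := ClassGroup.mk0_surjective (Additive.toMul c)
  have hJ0 : (J : Ideal A) ≠ ⊥ := nonZeroDivisors.ne_zero J.2
  refine ⟨J, hJ0, ?_⟩
  rw [ClsA.cls_def hJ0]
  have : (⟨(J : Ideal A), mem_nonZeroDivisors_of_ne_zero hJ0⟩ : nonZeroDivisors (Ideal A)) = J :=
    rfl
  rw [this, hJ]
  rfl

theorem closure_cls_prime :
    AddSubgroup.closure {c : Additive (ClassGroup A) | ∃ P : Ideal A, P.IsPrime ∧ P ≠ ⊥ ∧
      c = cls P} = ⊤ := by
  rw [eq_top_iff]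
  intro c hc
  obtain ⟨J, hJ, rfl⟩ := exists_cls_eq c
  clear hc
  induction J using UniqueFactorizationMonoid.induction_on_prime with
  | h₁ => exact absurd rfl hJ
  | h₂ J hu =>
    have : J = ⊤ := Ideal.isUnit_iff.1 hu
    rw [this, cls_top]
    exact AddSubgroup.zero_mem _
  | h₃ J P hJ0 hP ih =>
    rw [cls_mul hP.ne_zero hJ0]
    refine AddSubgroup.add_mem _ (AddSubgroup.subset_closure ?_) (ih hJ0)
    exact ⟨P, Ideal.isPrime_of_prime hP, hP.ne_zero, rfl⟩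

end PicJump

end
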