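import Pool.Agent.Lib_helper43.PJ.D
import Pool.Agent.Lib_helper43.PJ.W_ClsA

/-!
BLOCK ClsB of MP_f6fc0c_ag.
BLOCK CLS (class groups of Dedekind domains, written additively, and valuations of ideals).
-/

noncomputable section

namespace PicJump

variable {A B : Type} [CommRing A] [IsDomain A] [IsDedekindDomain A]
  [CommRing B] [IsDomain B] [IsDedekindDomain B]

lemma ClsB.fin {P J : Ideal A} (hP : P.IsPrime) (hP0 : P ≠ ⊥) (hJ : J ≠ ⊥) :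
    FiniteMultiplicity P J :=
  FiniteMultiplicity.of_prime_left (Ideal.prime_of_isPrime hP0 hP) hJ

lemma ClsB.vI_eq {P J : Ideal A} (hP : P.IsPrime) (hP0 : P ≠ ⊥) (hJ : J ≠ ⊥) :
    vI P J = multiplicity P J := by
  unfold vI
  have h : {n : ℕ | J ≤ P ^ n} = Set.Iic (multiplicity P J) := by
    ext n
    rw [Set.mem_ofPred_eq, Set.mem_Iic, ← Ideal.dvd_iff_le,
      (ClsB.fin hP hP0 hJ).pow_dvd_iff_le_multiplicity]
  rw [h, csSup_Iic]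

theorem le_pow_iff {P J : Ideal A} (hP : P.IsPrime) (hP0 : P ≠ ⊥) (hJ : J ≠ ⊥) (n : ℕ) :
    J ≤ P ^ n ↔ n ≤ vI P J := by
  rw [ClsB.vI_eq hP hP0 hJ, ← Ideal.dvd_iff_le,
    (ClsB.fin hP hP0 hJ).pow_dvd_iff_le_multiplicity]

theorem vI_mul {P I J : Ideal A} (hP : P.IsPrime) (hP0 : P ≠ ⊥) (hI : I ≠ ⊥) (hJ : J ≠ ⊥) :
    vI P (I * J) = vI P I + vI P J := by
  have hIJ : I * J ≠ ⊥ := mul_ne_zero hI hJ
  rw [ClsB.vI_eq hP hP0 hIJ, ClsB.vI_eq hP hP0 hI, ClsB.vI_eq hP hP0 hJ,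
    multiplicity_mul (Ideal.prime_of_isPrime hP0 hP) (ClsB.fin hP hP0 hIJ)]

theorem vI_pow {P I : Ideal A} (hP : P.IsPrime) (hP0 : P ≠ ⊥) (hI : I ≠ ⊥) (n : ℕ) :
    vI P (I ^ n) = n * vI P I := by
  rw [ClsB.vI_eq hP hP0 (pow_ne_zero n hI), ClsB.vI_eq hP hP0 hI,
    (ClsB.fin hP hP0 hI).multiplicity_pow (Ideal.prime_of_isPrime hP0 hP)]

theorem vI_self {P : Ideal A} (hP : P.IsPrime) (hP0 : P ≠ ⊥) : vI P P = 1 := by
  rw [ClsB.vI_eq hP hP0 hP0, multiplicity_self]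

theorem vI_pos_iff {P J : Ideal A} (hP : P.IsPrime) (hP0 : P ≠ ⊥) (hJ : J ≠ ⊥) :
    0 < vI P J ↔ J ≤ P := by
  have h := le_pow_iff hP hP0 hJ 1
  rw [pow_one] at h
  rw [h]
  omega

theorem vI_ne {P Q : Ideal A} (hP : P.IsPrime) (hP0 : P ≠ ⊥) (hQ : Q.IsPrime) (hQ0 : Q ≠ ⊥)
    (h : P ≠ Q) : vI P Q = 0 := by
  by_contra h0
  have h1 : Q ≤ P := (vI_pos_iff hP hP0 hQ0).1 (Nat.pos_of_ne_zero h0)
  have hmax : Q.IsMaximal := hQ.isMaximal hQ0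
  exact h (hmax.eq_of_le hP.ne_top h1).symm

theorem ideal_ext_vI {I J : Ideal A} (hI : I ≠ ⊥) (hJ : J ≠ ⊥)
    (h : ∀ P : Ideal A, P.IsPrime → P ≠ ⊥ → vI P I = vI P J) : I = J := by
  classical
  rw [← associated_iff_eq,
    UniqueFactorizationMonoid.associated_iff_normalizedFactors_eq_normalizedFactors hI hJ]
  ext P
  by_cases hP : Prime P
  · have hP' : P.IsPrime := Ideal.isPrime_of_prime hP
    have hP0 : P ≠ ⊥ := hP.ne_zero
    have h1 := UniqueFactorizationMonoid.multiplicity_eq_count_normalizedFactors hP.irreducible hI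
    have h2 := UniqueFactorizationMonoid.multiplicity_eq_count_normalizedFactors hP.irreducible hJ
    rw [normalize_eq] at h1 h2
    rw [← h1, ← h2, ← ClsB.vI_eq hP' hP0 hI, ← ClsB.vI_eq hP' hP0 hJ]
    exact h P hP' hP0
  · rw [Multiset.count_eq_zero_of_notMem, Multiset.count_eq_zero_of_notMem]
    · exact fun hm => hP (UniqueFactorizationMonoid.prime_of_normalized_factor P hm)
    · exact fun hm => hP (UniqueFactorizationMonoid.prime_of_normalized_factor P hm)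

lemma ClsB.ne_bot_of_le {P J : Ideal A} (hJ : J ≠ ⊥) (h : J ≤ P) : P ≠ ⊥ := by
  rintro rfl
  exact hJ (le_bot_iff.1 h)

theorem finite_primes {J : Ideal A} (hJ : J ≠ ⊥) : {P : Ideal A | P.IsPrime ∧ J ≤ P}.Finite := by
  have h := (Ideal.finite_factors (I := J) hJ).image
    (fun v : IsDedekindDomain.HeightOneSpectrum A => v.asIdeal)
  refine h.subset ?_
  rintro P ⟨hP, hJP⟩
  refine ⟨⟨P, hP, ClsB.ne_bot_of_le hJ hJP⟩, ?_, rfl⟩
  exact Ideal.dvd_iff_le.2 hJP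

lemma ClsB.vI_top {P : Ideal A} (hP : P.IsPrime) (hP0 : P ≠ ⊥) : vI P (⊤ : Ideal A) = 0 := by
  have h := vI_mul hP hP0 (top_ne_bot (α := Ideal A)) (top_ne_bot (α := Ideal A))
  rw [Ideal.mul_top] at h
  omega

lemma ClsB.prod_ne {S : Finset (Ideal A)} (hS' : ∀ P ∈ S, P.IsPrime ∧ P ≠ ⊥) (n : Ideal A → ℕ) :
    (∏ P ∈ S, P ^ n P) ≠ ⊥ :=
  Finset.prod_ne_zero_iff.2 fun P hP => pow_ne_zero _ (hS' P hP).2

lemma ClsB.vI_prod {S : Finset (Ideal A)} (hS' : ∀ P ∈ S, P.IsPrime ∧ P ≠ ⊥) (n : Ideal A → ℕ)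
    {Q : Ideal A} (hQ : Q.IsPrime) (hQ0 : Q ≠ ⊥) :
    vI Q (∏ P ∈ S, P ^ n P) = ∑ P ∈ S, n P * vI Q P := by
  classical
  induction S using Finset.induction_on with
  | empty =>
    rw [Finset.prod_empty, Finset.sum_empty, Ideal.one_eq_top, ClsB.vI_top hQ hQ0]
  | insert a T haT ih =>
    have hT : ∀ P ∈ T, P.IsPrime ∧ P ≠ ⊥ := fun P hP => hS' P (Finset.mem_insert_of_mem hP)
    have ha := hS' a (Finset.mem_insert_self a T)
    rw [Finset.prod_insert haT, Finset.sum_insert haT,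
      vI_mul hQ hQ0 (pow_ne_zero _ ha.2) (ClsB.prod_ne hT n), vI_pow hQ hQ0 ha.2, ih hT]

lemma ClsB.cls_prod {S : Finset (Ideal A)} (hS' : ∀ P ∈ S, P.IsPrime ∧ P ≠ ⊥)
    (n : Ideal A → ℕ) : cls (∏ P ∈ S, P ^ n P) = ∑ P ∈ S, n P • cls P := by
  classical
  induction S using Finset.induction_on with
  | empty =>
    rw [Finset.prod_empty, Finset.sum_empty, Ideal.one_eq_top, cls_top]
  | insert a T haT ih =>
    have hT : ∀ P ∈ T, P.IsPrime ∧ P ≠ ⊥ := fun P hP => hS' P (Finset.mem_insert_of_mem hP)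
    have ha := hS' a (Finset.mem_insert_self a T)
    rw [Finset.prod_insert haT, Finset.sum_insert haT,
      cls_mul (pow_ne_zero _ ha.2) (ClsB.prod_ne hT n), cls_pow ha.2, ih hT]

lemma ClsB.eq_prod {J : Ideal A} (hJ : J ≠ ⊥) (S : Finset (Ideal A))
    (hS : ∀ P : Ideal A, P.IsPrime → J ≤ P → P ∈ S) (hS' : ∀ P ∈ S, P.IsPrime ∧ P ≠ ⊥) :
    J = ∏ P ∈ S, P ^ (vI P J) := by
  apply ideal_ext_vI hJ (ClsB.prod_ne hS' _)
  intro Q hQ hQ0
  rw [ClsB.vI_prod hS' _ hQ hQ0]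
  by_cases hQS : Q ∈ S
  · rw [Finset.sum_eq_single_of_mem Q hQS]
    · rw [vI_self hQ hQ0, mul_one]
    · intro P hP hPQ
      rw [vI_ne hQ hQ0 (hS' P hP).1 (hS' P hP).2 hPQ.symm, mul_zero]
  · rw [Finset.sum_eq_zero]
    · by_contra h0
      exact hQS (hS Q hQ ((vI_pos_iff hQ hQ0 hJ).1 (Nat.pos_of_ne_zero h0)))
    · intro P hP
      rw [vI_ne hQ hQ0 (hS' P hP).1 (hS' P hP).2 (fun h => hQS (h ▸ hP)), mul_zero]

theorem cls_eq_sum {J : Ideal A} (hJ : J ≠ ⊥) (S : Finset (Ideal A))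
    (hS : ∀ P : Ideal A, P.IsPrime → J ≤ P → P ∈ S) (hS' : ∀ P ∈ S, P.IsPrime ∧ P ≠ ⊥) :
    cls J = ∑ P ∈ S, vI P J • cls P := by
  conv_lhs => rw [ClsB.eq_prod hJ S hS hS']
  exact ClsB.cls_prod hS' (fun P => vI P J)

end PicJump

end
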