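import Pool.Agent.Lib_helper43.PJ.D
import Pool.Agent.Lib_helper43.PJ.W_ClsA

/-!
BLOCK ClsC of MP_f6fc0c_ag.
BLOCK CLS (class groups of Dedekind domains, written additively, and valuations of ideals).
-/

noncomputable section

namespace PicJump

variable {A B : Type} [CommRing A] [IsDomain A] [IsDedekindDomain A]
  [CommRing B] [IsDomain B] [IsDedekindDomain B]

lemma ClsC.map_ne_bot (j : A →+* B) (hj : Function.Injective j) {J : Ideal A} (hJ : J ≠ ⊥) :
    J.map j ≠ ⊥ := by
  rw [Ne, Ideal.map_eq_bot_iff_of_injective hj]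
  exact hJ

/-- functoriality for injective ring homomorphisms -/
theorem exists_clsMap (j : A →+* B) (hj : Function.Injective j) :
    ∃ f : Additive (ClassGroup A) →+ Additive (ClassGroup B),
      ∀ J : Ideal A, J ≠ ⊥ → f (cls J) = cls (J.map j) := by
  letI : Algebra A B := j.toAlgebra
  haveI : FaithfulSMul A B := (faithfulSMul_iff_algebraMap_injective A B).2 hj
  haveI : Module.IsTorsionFree A B := inferInstance
  refine ⟨MonoidHom.toAdditive (ClassGroup.extendedHom A B), ?_⟩
  intro J hJ
  rw [ClsA.cls_def hJ, ClsA.cls_def (ClsC.map_ne_bot j hj hJ)]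
  have h := ClassGroup.extendedHom_mk0 A B ⟨J, mem_nonZeroDivisors_of_ne_zero hJ⟩
  exact congrArg Additive.ofMul h

/-- functoriality for ring isomorphisms -/
theorem exists_clsEquiv (e : A ≃+* B) :
    ∃ f : Additive (ClassGroup A) ≃+ Additive (ClassGroup B),
      ∀ J : Ideal A, f (cls J) = cls (J.map (e : A →+* B)) := by
  obtain ⟨f, hf⟩ := exists_clsMap (e : A →+* B) e.injective
  obtain ⟨g, hg⟩ := exists_clsMap (e.symm : B →+* A) e.symm.injective
  have hmap : ∀ J : Ideal A, (J.map (e : A →+* B)).map (e.symm : B →+* A) = J := by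
    intro J
    rw [Ideal.map_map]
    have : (e.symm : B →+* A).comp (e : A →+* B) = RingHom.id A := by
      ext x
      simp
    rw [this, Ideal.map_id]
  have hmap' : ∀ J : Ideal B, (J.map (e.symm : B →+* A)).map (e : A →+* B) = J := by
    intro J
    rw [Ideal.map_map]
    have : (e : A →+* B).comp (e.symm : B →+* A) = RingHom.id B := by
      ext x
      simp
    rw [this, Ideal.map_id]
  have h1 : ∀ c, g (f c) = c := by
    intro c
    obtain ⟨J, hJ, rfl⟩ := exists_cls_eq c
    rw [hf J hJ, hg _ (ClsC.map_ne_bot _ e.injective hJ), hmap]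
  have h2 : ∀ c, f (g c) = c := by
    intro c
    obtain ⟨J, hJ, rfl⟩ := exists_cls_eq c
    rw [hg J hJ, hf _ (ClsC.map_ne_bot _ e.symm.injective hJ), hmap']
  refine ⟨{ f with invFun := g, left_inv := h1, right_inv := h2 }, ?_⟩
  intro J
  by_cases hJ : J = ⊥
  · subst hJ
    have h3 : cls (⊥ : Ideal A) = 0 := by unfold cls; rw [dif_neg (by simp)]
    have h4 : cls ((⊥ : Ideal A).map (e : A →+* B)) = 0 := by
      rw [Ideal.map_bot]; unfold cls; rw [dif_neg (by simp)]
    rw [h3, h4, map_zero]
  · exact hf J hJ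

/-- valuations are transported by isomorphisms -/
theorem vI_map (e : A ≃+* B) (P J : Ideal A) :
    vI (P.map (e : A →+* B)) (J.map (e : A →+* B)) = vI P J := by
  unfold vI
  congr 1
  ext n
  rw [Set.mem_ofPred_eq, Set.mem_ofPred_eq, ← Ideal.map_pow]
  constructor
  · intro h
    have h2 := Ideal.map_mono (f := (e.symm : B →+* A)) h
    rw [Ideal.map_map, Ideal.map_map] at h2
    have : (e.symm : B →+* A).comp (e : A →+* B) = RingHom.id A := by
      ext x
      simp
    rw [this, Ideal.map_id, Ideal.map_id] at h2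
    exact h2
  · intro h
    exact Ideal.map_mono h

end PicJump

end
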