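import Pool.Agent.Lib_helper43.PJ.D
import Pool.Agent.Lib_helper43.PJ.W_CurveA
import Pool.Agent.Lib_helper43.PJ.W_CurveB
import Pool.Agent.Lib_helper43.PJ.W_OrdA
import Pool.Agent.Lib_helper14.PJ.CurveLP

/-!
BLOCK CurveC of MP_f6fc0c_ag.
BLOCKS CURVE (the base curve `z^4 = A_0(x,y)`, `w^4 = A_1(x,y)`,
`A_c = x^4 + c x^2 y^2 + y^4`).  Its homogeneous coordinate ring `R = k[x,y][z,w]` is free over
`k[x,y]` with basis `z^i w^j`, `i, j < 4`, and the group `μ_4 x μ_4` acts on it.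
-/

noncomputable section

namespace PicJump

open MvPolynomial

variable {k : Type} [Field k] [IsAlgClosed k] [CharZero k] {c₀ c₁ : k}

/-- CURVE-C. The local rings of the base curve are discrete valuation rings: at the point `v`
with `v 0 = p v 1`, a uniformizer is `x - p y` if `z, w` do not vanish at `v`, `z` if `z` vanishes
(then `w` does not vanish), `w` if `w` vanishes (similarly `v 1 = 0`, with `y`). -/
theorem curve_locPrin (h : c₀ ≠ c₁) (h0 : c₀ ^ 2 ≠ 4) (h1 : c₁ ^ 2 ≠ 4)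
    (P : PrimeDiv (base (G0 c₀) (G1 c₁))) : ∃ π, LocPrin P π := by
  obtain ⟨v, hv⟩ := CN.exists_Pt h h0 h1 P
  exact hv.exists_locPrin h0 h1 h

/-- CURVE-C. `x - p y` has order 1 at each of the 16 points above `(p : 1)`, if
`A_0(p) A_1(p) <> 0`. -/
theorem ord_unram (h : c₀ ≠ c₁) (h0 : c₀ ^ 2 ≠ 4) (h1 : c₁ ^ 2 ≠ 4) (p : k) (hp0 : Ac c₀ p ≠ 0)
    (hp1 : Ac c₁ p ≠ 0) (P : PrimeDiv (base (G0 c₀) (G1 c₁))) (hP : X 0 - C p * X 1 ∈ P.carrier) :
    ord P (X 0 - C p * X 1) = 1 := by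
  obtain ⟨v, hv⟩ := CN.exists_Pt h h0 h1 P
  have hI := base_prime h h0 h1
  have h2 : v 0 = p * v 1 := by
    rw [hv.carrier] at hP
    have := CN.eval_ptIdeal' hP
    simp only [map_sub, map_mul, eval_X, eval_C] at this
    linear_combination this
  have h3 : v 1 ≠ 0 := by
    intro h3
    rcases hv.ne with h4 | h4
    · exact h4 (by rw [h2, h3, mul_zero])
    · exact h4 h3
  have e0 := hv.e0
  have e1 := hv.e1
  rw [h2] at e0 e1
  have h4 : v 2 ≠ 0 := by
    intro h4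
    rw [h4] at e0
    have h5 : v 1 ^ 4 * Ac c₀ p = 0 := by unfold Ac; linear_combination e0
    rcases mul_eq_zero.mp h5 with h5 | h5
    · exact h3 (eq_zero_of_pow_eq_zero h5)
    · exact hp0 h5
  have h5 : v 3 ≠ 0 := by
    intro h4
    rw [h4] at e1
    have h5 : v 1 ^ 4 * Ac c₁ p = 0 := by unfold Ac; linear_combination e1
    rcases mul_eq_zero.mp h5 with h5 | h5
    · exact h3 (eq_zero_of_pow_eq_zero h5)
    · exact hp1 h5
  have h6 : LocPrin P (X 0 - C p * X 1) := by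
    refine CN.locPrin_smul h3 ?_ (hv.locPrin_unram h4 h5)
    rw [CN.iot_lin, h2, C_mul]
    ring
  exact h6.ord_self hI

end PicJump

end
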