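import Pool.Agent.Lib_helper43.PJ.D
import Pool.Agent.Lib_helper43.PJ.W_CurveA
import Pool.Agent.Lib_helper43.PJ.W_CurveB
import Pool.Agent.Lib_helper43.PJ.W_CurveC
import Pool.Agent.Lib_helper43.PJ.W_OrdA
import Pool.Agent.Lib_helper14.PJ.CurveN

/-!
BLOCK CurveD of MP_f6fc0c_ag.
BLOCKS CURVE (the base curve `z^4 = A_0(x,y)`, `w^4 = A_1(x,y)`,
`A_c = x^4 + c x^2 y^2 + y^4`).  Its homogeneous coordinate ring `R = k[x,y][z,w]` is free over
`k[x,y]` with basis `z^i w^j`, `i, j < 4`, and the group `μ_4 x μ_4` acts on it.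
-/

noncomputable section

namespace PicJump

open MvPolynomial

variable {k : Type} [Field k] [IsAlgClosed k] [CharZero k] {c₀ c₁ : k}

/-- CURVE-D. Normality.  Proof: multiplying `M` and `B` by the product of the other conjugates of
`B` under `μ_4 x μ_4`, we may assume that `B` is a form in `x, y`, and by induction that it is
a linear form `L`.  Write `M = sum z^i w^j m_ij` with `m_ij` in `k[x,y]`.  If `z, w` do not vanish
above `L = 0`, then `M` vanishes at the 16 points above `L = 0`, so all `m_ij` vanish at `L = 0`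
(Vandermonde in `i` and `j`), i.e. are divisible by `L`.  If `z` vanishes, `L` has order 4, `z` has
order 1 at the four points above `L = 0` and `w` is a unit; the terms with the smallest `i` for which
some `m_ij` is not divisible by `L` give a contradiction (Vandermonde in `j`).  Similarly for
`w`. -/
theorem curve_normal (h : c₀ ≠ c₁) (h0 : c₀ ^ 2 ≠ 4) (h1 : c₁ ^ 2 ≠ 4) (M B : Pol k) (d e : ℕ)
    (hM : M.IsHomogeneous d) (hB : B.IsHomogeneous e) (hMI : M ∉ base (G0 c₀) (G1 c₁))
    (hBI : B ∉ base (G0 c₀) (G1 c₁))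
    (hord : ∀ P : PrimeDiv (base (G0 c₀) (G1 c₁)), ord P B ≤ ord P M) :
    M ∈ Ideal.span {B} ⊔ base (G0 c₀) (G1 c₁) :=
  CN.curve_normal' h h0 h1 M B e hB hMI hBI hord

end PicJump

end
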