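import Pool.Agent.Lib_helper43.PJ.D
import Pool.Agent.Lib_helper43.PJ.W_CurveA
import Pool.Agent.Lib_helper43.PJ.W_CurveB
import Pool.Agent.Lib_helper43.PJ.W_OrdA
import Pool.Agent.Lib_helper43.PJ.W_OrdB

/-!
BLOCK CurveE of MP_f6fc0c_ag.
BLOCKS CURVE (the base curve `z^4 = A_0(x,y)`, `w^4 = A_1(x,y)`,
`A_c = x^4 + c x^2 y^2 + y^4`).  Its homogeneous coordinate ring `R = k[x,y][z,w]` is free over
`k[x,y]` with basis `z^i w^j`, `i, j < 4`, and the group `μ_4 x μ_4` acts on it.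
-/

noncomputable section

namespace PicJump

open MvPolynomial

variable {k : Type} [Field k] [IsAlgClosed k] [CharZero k] {c₀ c₁ : k}

set_option linter.unusedVariables false in
/-- CURVE-E. (`lineIdeal p q ≤ P` for exactly the four points `(p, 1, q w, w)`, `w^4 = A_1(p)`.) -/
theorem exists_lineDiv (h : c₀ ≠ c₁) (h0 : c₀ ^ 2 ≠ 4) (h1 : c₁ ^ 2 ≠ 4) (p q : k)
    (hp0 : Ac c₀ p ≠ 0) (hp1 : Ac c₁ p ≠ 0) (hq : q ^ 4 * Ac c₁ p = Ac c₀ p) :
    ∃ E, IsLineDiv c₀ c₁ p q E := by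
  classical
  have hA : (X 0 - C p * X 1 : Pol k).IsHomogeneous 1 := by
    refine IsHomogeneous.sub (isHomogeneous_X _ _) ?_
    simpa using (isHomogeneous_C (Fin 4) p).mul (isHomogeneous_X k (1 : Fin 4))
  have hAI : (X 0 - C p * X 1 : Pol k) ∉ base (G0 c₀) (G1 c₁) := by
    intro hmem
    have h2 := curveB_eval_base (v := ![1, 0, 1, 1]) (by simp [G0]) (by simp [G1]) hmem
    simp at h2
  have hfin := finite_mem (base_prime h h0 h1) (base_homog c₀ c₁) hA hAI
  have hfin' : (Function.support (fun P : PrimeDiv (base (G0 c₀) (G1 c₁)) =>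
      if lineIdeal p q ≤ P.carrier then (1 : ℤ) else 0)).Finite := by
    refine hfin.subset fun P hP => ?_
    have h2 : lineIdeal p q ≤ P.carrier := by
      by_contra hcon
      exact hP (if_neg hcon)
    exact h2 (Ideal.subset_span (by simp))
  refine ⟨Finsupp.ofSupportFinite _ hfin', ?_⟩
  intro P
  rw [Finsupp.ofSupportFinite_coe]

end PicJump

end
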