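import Pool.Agent.Lib_helper43.PJ.D
import Pool.Agent.Lib_helper43.PJ.W_CurveA
import Pool.Agent.Lib_helper43.PJ.W_CurveB
import Pool.Agent.Lib_helper43.PJ.W_CurveC
import Pool.Agent.Lib_helper43.PJ.W_CurveD
import Pool.Agent.Lib_helper43.PJ.W_CurveE
import Pool.Agent.Lib_helper43.PJ.W_OrdA
import Pool.Agent.Lib_helper43.PJ.W_OrdB

/-!
BLOCK CurveF of MP_f6fc0c_ag.
BLOCKS CURVE (the base curve `z^4 = A_0(x,y)`, `w^4 = A_1(x,y)`,
`A_c = x^4 + c x^2 y^2 + y^4`).  Its homogeneous coordinate ring `R = k[x,y][z,w]` is free over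
`k[x,y]` with basis `z^i w^j`, `i, j < 4`, and the group `μ_4 x μ_4` acts on it.
-/

noncomputable section

namespace PicJump

open MvPolynomial

variable {k : Type} [Field k] [IsAlgClosed k] [CharZero k] {c₀ c₁ : k}

/-- CURVE-F. Uniqueness of the effective divisor.  Proof: by `mem_Princ_iff`, `E - E'` is the
divisor of `A / B`.  Let `H = x - p' y`; its divisor is the sum of the 16 points above `p'`.  By
`curve_normal`, `A H = B Λ` modulo the base ideal, with `Λ` homogeneous of degree 1 (take the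
homogeneous component of degree 1), and `Λ` vanishes at the 12 points above `p'` not on the line
`x = p' y`, `z = q' w`.  So `Λ = c H` (the coefficients of `z` and `w` vanish: compare two of the 12
points with the same `w` and different `z`), hence `A = c B` and `E = E'`; as `E` contains some
point `P`, and `P` contains both `x - p y` and `x - p' y`, `p = p'`. -/
theorem lineDiv_unique (h : c₀ ≠ c₁) (h0 : c₀ ^ 2 ≠ 4) (h1 : c₁ ^ 2 ≠ 4) (p q p' q' : k)
    (hp0 : Ac c₀ p ≠ 0) (hp1 : Ac c₁ p ≠ 0) (hq : q ^ 4 * Ac c₁ p = Ac c₀ p)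
    (hp0' : Ac c₀ p' ≠ 0) (hp1' : Ac c₁ p' ≠ 0) (hq' : q' ^ 4 * Ac c₁ p' = Ac c₀ p')
    (E E' : PrimeDiv (base (G0 c₀) (G1 c₁)) →₀ ℤ) (hE : IsLineDiv c₀ c₁ p q E)
    (hE' : IsLineDiv c₀ c₁ p' q' E') (hprinc : E - E' ∈ Princ (base (G0 c₀) (G1 c₁))) :
    p = p' := by
  have hI := base_prime h h0 h1
  have hL := curve_locPrin h h0 h1
  rw [mem_Princ_iff hI hL] at hprinc
  obtain ⟨d, A, B, hA, hB, hAI, hBI, hdiv⟩ := hprinc
  set H : Pol k := X 0 - C p' * X 1 with hH
  have hHlin : H = CN.iot (CN.lin p' 1) := by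
    rw [CN.iot_lin, C_1, one_mul]
  have hHhom : H.IsHomogeneous 1 := by
    have e1 : (X 0 : Pol k).IsHomogeneous 1 := isHomogeneous_X _ _
    have e2 := (isHomogeneous_C (Fin 4) p').mul (isHomogeneous_X k (1 : Fin 4))
    rw [zero_add] at e2
    exact e1.sub e2
  have hHI : H ∉ base (G0 c₀) (G1 c₁) := by
    rw [hHlin]
    exact CN.iot_not_mem h h0 h1 (CN.lin_prime (Or.inr one_ne_zero)).ne_zero
  have hordH : ∀ P : PrimeDiv (base (G0 c₀) (G1 c₁)), H ∈ P.carrier → ord P H = 1 :=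
    fun P hP => ord_unram h h0 h1 p' hp0' hp1' P hP
  have hAH : A * H ∉ base (G0 c₀) (G1 c₁) := fun h2 => (hI.mem_or_mem h2).elim hAI hHI
  have hline : ∀ P : PrimeDiv (base (G0 c₀) (G1 c₁)), lineIdeal p' q' ≤ P.carrier →
      H ∈ P.carrier := fun P hP => hP (Ideal.subset_span (Or.inl rfl))
  have hE0 : ∀ P, 0 ≤ E P := by
    intro P
    rw [hE P]
    split_ifs <;> norm_num
  have hE1 : ∀ P, E' P = 0 ∨ (E' P = 1 ∧ lineIdeal p' q' ≤ P.carrier) := by
    intro P
    rw [hE' P]
    split_ifs with h2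
    · exact Or.inr ⟨rfl, h2⟩
    · exact Or.inl rfl
  have hordAH : ∀ P : PrimeDiv (base (G0 c₀) (G1 c₁)), ord P (A * H) = ord P A + ord P H := by
    intro P
    obtain ⟨π, hπ⟩ := hL P
    exact hπ.ord_mul hI hAI hHI
  have hnorm := CN.curve_normal' h h0 h1 (A * H) B d hB hAH hBI (by
    intro P
    rw [hordAH]
    have h2 := hdiv P
    rw [Finsupp.sub_apply] at h2
    have h3 := hE0 P
    rcases hE1 P with h4 | ⟨h4, h5⟩
    · omega
    · have h6 := hordH P (hline P h5)
      omega)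
  obtain ⟨a, ha, b, hb, hab⟩ := Submodule.mem_sup.mp hnorm
  obtain ⟨Λ₀, rfl⟩ := Ideal.mem_span_singleton.mp ha
  obtain ⟨Λ, hΛ, hΛeq⟩ : ∃ Λ : Pol k, Λ.IsHomogeneous 1 ∧
      A * H - B * Λ ∈ base (G0 c₀) (G1 c₁) := by
    refine ⟨homogeneousComponent 1 Λ₀, homogeneousComponent_isHomogeneous _ _, ?_⟩
    have h2 := base_homog c₀ c₁ _ hb (d + 1)
    have h3 : b = A * H - B * Λ₀ := by rw [← hab]; ring
    rw [h3, map_sub, CN.hc_mul hB, if_pos (by omega), Nat.add_sub_cancel_left,
      homogeneousComponent_eq_self (hA.mul hHhom)] at h2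
    exact h2
  have hΛI : Λ ∉ base (G0 c₀) (G1 c₁) := by
    intro h2
    apply hAH
    have h3 : A * H = (A * H - B * Λ) + B * Λ := by ring
    rw [h3]
    exact Ideal.add_mem _ hΛeq (Ideal.mul_mem_left _ _ h2)
  have hΛmem : ∀ P : PrimeDiv (base (G0 c₀) (G1 c₁)), H ∈ P.carrier →
      ¬ lineIdeal p' q' ≤ P.carrier → Λ ∈ P.carrier := by
    intro P h2 h3
    obtain ⟨π, hπ⟩ := hL P
    rw [← hπ.ord_pos_iff hI hΛI]
    have h4 : ord P (A * H) = ord P B + ord P Λ := by
      rw [ord_congr P hΛeq, hπ.ord_mul hI hBI hΛI]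
    rw [hordAH, hordH P h2] at h4
    have h5 := hdiv P
    have h6 := hE0 P
    have h7 : E' P = 0 := (hE1 P).resolve_right (fun h8 => h3 h8.2)
    rw [Finsupp.sub_apply] at h5
    omega
  -- the coefficients of `Λ`
  obtain ⟨a, ha⟩ : ∃ a : Fin 4 → k, ∑ i, a i • (X i : Pol k) = Λ := by
    rw [← mem_homogeneousSubmodule, homogeneousSubmodule_one_eq_span_X,
      Submodule.mem_span_range_iff_exists_fun] at hΛ
    exact hΛ
  have hev : ∀ v : Fin 4 → k, eval v Λ = a 0 * v 0 + a 1 * v 1 + a 2 * v 2 + a 3 * v 3 := by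
    intro v
    rw [← ha, Fin.sum_univ_four]
    simp only [smul_eq_C_mul, map_add, map_mul, eval_C, eval_X]
  obtain ⟨w₀, hw₀⟩ := IsAlgClosed.exists_pow_nat_eq (Ac c₁ p') (n := 4) (by norm_num)
  obtain ⟨I, hI2⟩ := IsAlgClosed.exists_pow_nat_eq (-1 : k) (n := 2) (by norm_num)
  have hw0 : w₀ ≠ 0 := by
    rintro rfl
    exact hp1' (by rw [← hw₀]; simp)
  have hq0 : q' ≠ 0 := by
    rintro rfl
    exact hp0' (by rw [← hq']; simp)
  have hpt : ∀ u w : k, w ^ 4 = Ac c₁ p' → u ^ 4 = q' ^ 4 → u ≠ q' →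
      a 0 * p' + a 1 + a 2 * (u * w) + a 3 * w = 0 := by
    intro u w hw hu huq
    have hww : w ≠ 0 := by
      rintro rfl
      exact hp1' (by rw [← hw]; simp)
    obtain ⟨P, hP⟩ := CN.exists_P h h0 h1 (v := ![p', 1, u * w, w]) (Or.inr one_ne_zero) (by
      simp only [Matrix.cons_val, mul_pow, hw, hu, hq']
      unfold Ac; ring) (by
      simp only [Matrix.cons_val, hw]
      unfold Ac; ring)
    have h2 : H ∈ P.carrier := by
      rw [hHlin]
      exact hP.lin_mem
    have h3 : ¬ lineIdeal p' q' ≤ P.carrier := by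
      intro h3
      have h4 := h3 (Ideal.subset_span (Or.inr rfl) : X 2 - C q' * X 3 ∈ lineIdeal p' q')
      rw [hP.carrier] at h4
      have h5 := CN.eval_ptIdeal' h4
      simp only [map_sub, map_mul, eval_X, eval_C, Matrix.cons_val] at h5
      have h6 : (u - q') * w = 0 := by linear_combination h5
      rcases mul_eq_zero.mp h6 with h7 | h7
      · exact huq (sub_eq_zero.mp h7)
      · exact hww h7
    have h4 := hΛmem P h2 h3
    rw [hP.carrier] at h4
    have h5 := CN.eval_ptIdeal' h4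
    rw [hev] at h5
    simp only [Matrix.cons_val] at h5
    linear_combination h5
  have hn1 : -q' ≠ q' := by
    intro h2
    apply hq0
    have : 2 * q' = 0 := by linear_combination -h2
    simpa using this
  have hn2 : I * q' ≠ q' := by
    intro h2
    have h3 : (I - 1) * q' = 0 := by linear_combination h2
    rcases mul_eq_zero.mp h3 with h4 | h4
    · have h5 : I = 1 := by linear_combination h4
      rw [h5] at hI2
      norm_num at hI2
    · exact hq0 h4
  have g1 := hpt (-q') w₀ hw₀ (by ring) hn1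
  have g2 := hpt (-q') (-w₀) (by rw [← hw₀]; ring) (by ring) hn1
  have g3 := hpt (I * q') w₀ hw₀ (by
    rw [mul_pow, show I ^ 4 = (I ^ 2) ^ 2 by ring, hI2]; ring) hn2
  have g4 : a 0 * p' + a 1 = 0 := by linear_combination (g1 + g2) / 2
  have g5 : (a 3 - a 2 * q') * w₀ = 0 := by linear_combination (g1 - g2) / 2
  have g6 : (a 3 + a 2 * (I * q')) * w₀ = 0 := by linear_combination g3 - g4
  have g5' := (mul_eq_zero.mp g5).resolve_right hw0
  have g6' := (mul_eq_zero.mp g6).resolve_right hw0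
  have g7 : a 2 * ((1 + I) * q') = 0 := by linear_combination g6' - g5'
  have hI1 : (1 + I) ≠ 0 := by
    intro h2
    have h3 : I = -1 := by linear_combination h2
    rw [h3] at hI2
    norm_num at hI2
  have ha2 : a 2 = 0 := (mul_eq_zero.mp g7).resolve_right (mul_ne_zero hI1 hq0)
  have ha3 : a 3 = 0 := by rw [ha2] at g5'; linear_combination g5'
  have ha1 : a 1 = - (a 0 * p') := by linear_combination g4
  have hΛH : Λ = C (a 0) * H := by
    rw [← ha, Fin.sum_univ_four, ha2, ha3, ha1, hH]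
    simp only [smul_eq_C_mul, C_neg, C_mul, C_0]
    ring
  have ha0 : a 0 ≠ 0 := by
    intro h2
    apply hΛI
    rw [hΛH, h2, C_0, zero_mul]
    exact Ideal.zero_mem _
  have hAB : A - C (a 0) * B ∈ base (G0 c₀) (G1 c₁) := by
    have h2 : (A - C (a 0) * B) * H ∈ base (G0 c₀) (G1 c₁) := by
      have h3 : (A - C (a 0) * B) * H = A * H - B * Λ := by rw [hΛH]; ring
      rw [h3]
      exact hΛeq
    exact (hI.mem_or_mem h2).resolve_right hHI
  have hordAB : ∀ P : PrimeDiv (base (G0 c₀) (G1 c₁)), ord P A = ord P B := by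
    intro P
    obtain ⟨π, hπ⟩ := hL P
    have hCI : C (a 0) ∉ base (G0 c₀) (G1 c₁) := by
      intro h2
      apply hI.ne_top
      exact Ideal.eq_top_of_isUnit_mem _ h2 ((isUnit_iff_ne_zero.mpr ha0).map C)
    have hCP : C (a 0) ∉ P.carrier := by
      intro h2
      apply P.prime.ne_top
      exact Ideal.eq_top_of_isUnit_mem _ h2 ((isUnit_iff_ne_zero.mpr ha0).map C)
    rw [ord_congr P hAB, hπ.ord_mul hI hCI hBI, ord_eq_zero_of_not_mem P hCP, zero_add]
  have hEE : ∀ P, E P = E' P := by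
    intro P
    have h2 := hdiv P
    rw [Finsupp.sub_apply, hordAB P] at h2
    omega
  -- a point of `E`
  obtain ⟨w, hw⟩ := IsAlgClosed.exists_pow_nat_eq (Ac c₁ p) (n := 4) (by norm_num)
  obtain ⟨P, hP⟩ := CN.exists_P h h0 h1 (v := ![p, 1, q * w, w]) (Or.inr one_ne_zero) (by
    simp only [Matrix.cons_val, mul_pow, hw, hq]
    unfold Ac; ring) (by
    simp only [Matrix.cons_val, hw]
    unfold Ac; ring)
  have hPl : lineIdeal p q ≤ P.carrier := by
    unfold lineIdeal
    rw [Ideal.span_le]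
    rintro f (rfl | hf)
    · have h2 := hP.lin_mem
      rw [CN.iot_lin] at h2
      simpa using h2
    · rw [Set.mem_singleton_iff] at hf
      subst hf
      have hww : w ≠ 0 := by
        rintro rfl
        exact hp1 (by rw [← hw]; simp)
      rw [hP.carrier]
      have h2 := CN.gen_mem ![p, 1, q * w, w] 2 3
      simp only [Matrix.cons_val] at h2
      have h3 : (X 2 - C q * X 3 : Pol k) = C w⁻¹ * (C w * X 2 - C (q * w) * X 3) := by
        have h4 : (C w : Pol k) * C w⁻¹ = 1 := by rw [← C_mul, mul_inv_cancel₀ hww, C_1]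
        rw [C_mul]
        linear_combination (-(X 2 - C q * X 3)) * h4
      rw [SetLike.mem_coe, h3]
      exact Ideal.mul_mem_left _ _ h2
  have h2 : E' P = 1 := by
    rw [← hEE, hE P, if_pos hPl]
  have h3 : lineIdeal p' q' ≤ P.carrier := by
    rcases hE1 P with h4 | h4
    · rw [h2] at h4; norm_num at h4
    · exact h4.2
  have h4 := hline P h3
  rw [hP.carrier] at h4
  have h5 := CN.eval_ptIdeal' h4
  rw [hH] at h5
  simp only [map_sub, map_mul, eval_X, eval_C, Matrix.cons_val] at h5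
  linear_combination h5

end PicJump

end
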