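import Pool.Agent.Lib_helper43.PJ.D
import Pool.Agent.Lib_helper43.PJ.W_CurveA
import Pool.Agent.Lib_helper43.PJ.W_CurveB
import Pool.Agent.Lib_helper43.PJ.W_CurveC
import Pool.Agent.Lib_helper43.PJ.W_OrdA
import Pool.Agent.Lib_helper43.PJ.W_OrdB

/-!
BLOCK CurveG of MP_f6fc0c_ag.
BLOCKS CURVE (the base curve `z^4 = A_0(x,y)`, `w^4 = A_1(x,y)`,
`A_c = x^4 + c x^2 y^2 + y^4`).  Its homogeneous coordinate ring `R = k[x,y][z,w]` is free over
`k[x,y]` with basis `z^i w^j`, `i, j < 4`, and the group `μ_4 x μ_4` acts on it.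
-/

noncomputable section

namespace PicJump

open MvPolynomial

namespace CurveG

section

variable {k : Type} [Field k]

/-- the parametrization of the line -/
def psi (p q : k) : Pol k →ₐ[k] MvPolynomial (Fin 2) k :=
  aeval ![C p * X 0, X 0, C q * X 1, X 1]

lemma psi_X0 (p q : k) : psi p q (X 0) = C p * X 0 := by
  unfold psi; rw [aeval_X]; rfl

lemma psi_X1 (p q : k) : psi p q (X 1) = X 0 := by
  unfold psi; rw [aeval_X]; rfl

lemma psi_X2 (p q : k) : psi p q (X 2) = C q * X 1 := by
  unfold psi; rw [aeval_X]; rfl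

lemma psi_X3 (p q : k) : psi p q (X 3) = X 1 := by
  unfold psi; rw [aeval_X]; rfl

lemma psi_C (p q c : k) : psi p q (C c) = C c := by
  unfold psi; rw [algHom_C]; rfl

lemma lineIdeal_eq (p q : k) :
    lineIdeal p q = RingHom.ker (psi p q : Pol k →+* MvPolynomial (Fin 2) k) := by
  apply le_antisymm
  · unfold lineIdeal
    rw [Ideal.span_le]
    intro f hf
    rw [SetLike.mem_coe, RingHom.mem_ker]
    rcases hf with rfl | hf
    · have : psi p q (X 0 - C p * X 1) = 0 := by
        rw [map_sub, map_mul, psi_X0, psi_X1, psi_C, sub_self]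
      exact this
    · rw [Set.mem_singleton_iff] at hf
      subst hf
      have : psi p q (X 2 - C q * X 3) = 0 := by
        rw [map_sub, map_mul, psi_X2, psi_X3, psi_C, sub_self]
      exact this
  · intro f hf
    rw [RingHom.mem_ker] at hf
    have hf' : psi p q f = 0 := hf
    let χ : MvPolynomial (Fin 2) k →ₐ[k] Pol k ⧸ lineIdeal p q :=
      aeval ![Ideal.Quotient.mk (lineIdeal p q) (X 1), Ideal.Quotient.mk (lineIdeal p q) (X 3)]
    have h0 : χ (X 0) = Ideal.Quotient.mk (lineIdeal p q) (X 1) := by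
      simp only [χ]; rw [aeval_X]; rfl
    have h1 : χ (X 1) = Ideal.Quotient.mk (lineIdeal p q) (X 3) := by
      simp only [χ]; rw [aeval_X]; rfl
    have hC : ∀ c : k, χ (C c) = Ideal.Quotient.mk (lineIdeal p q) (C c) := by
      intro c
      simp only [χ]; rw [algHom_C]; rfl
    have hχ : χ.comp (psi p q) = Ideal.Quotient.mkₐ k (lineIdeal p q) := by
      apply algHom_ext
      intro i
      have h3 : ∀ g, Ideal.Quotient.mkₐ k (lineIdeal p q) g =
        Ideal.Quotient.mk (lineIdeal p q) g := fun g => rfl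
      rw [AlgHom.comp_apply, h3]
      fin_cases i
      · show χ (psi p q (X 0)) = Ideal.Quotient.mk (lineIdeal p q) (X 0)
        rw [psi_X0, map_mul, hC, h0, ← map_mul, Ideal.Quotient.eq]
        have : (C p * X 1 - X 0 : Pol k) = -(X 0 - C p * X 1) := by ring
        rw [this]
        exact neg_mem (Ideal.subset_span (Or.inl rfl))
      · show χ (psi p q (X 1)) = Ideal.Quotient.mk (lineIdeal p q) (X 1)
        rw [psi_X1, h0]
      · show χ (psi p q (X 2)) = Ideal.Quotient.mk (lineIdeal p q) (X 2)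
        rw [psi_X2, map_mul, hC, h1, ← map_mul, Ideal.Quotient.eq]
        have : (C q * X 3 - X 2 : Pol k) = -(X 2 - C q * X 3) := by ring
        rw [this]
        exact neg_mem (Ideal.subset_span (Or.inr rfl))
      · show χ (psi p q (X 3)) = Ideal.Quotient.mk (lineIdeal p q) (X 3)
        rw [psi_X3, h1]
    have h6 := congrArg (fun g => g f) hχ
    simp only [AlgHom.comp_apply, hf', map_zero] at h6
    have h7 : Ideal.Quotient.mk (lineIdeal p q) f = 0 := h6.symm
    rwa [Ideal.Quotient.eq_zero_iff_mem] at h7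

lemma lineIdeal_prime (p q : k) : (lineIdeal p q).IsPrime := by
  rw [lineIdeal_eq]
  exact RingHom.ker_isPrime _

lemma mem_line_iff (p q : k) (f : Pol k) : f ∈ lineIdeal p q ↔ psi p q f = 0 := by
  rw [lineIdeal_eq, RingHom.mem_ker]
  rfl

lemma psi_homog (p q : k) {f : Pol k} {d : ℕ} (hf : f.IsHomogeneous d) :
    (psi p q f).IsHomogeneous d := by
  unfold psi
  have := hf.aeval (n := 1) (![C p * X 0, X 0, C q * X 1, X 1] :
      Fin 4 → MvPolynomial (Fin 2) k) (by
    intro i
    fin_cases i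
    · show (C p * X 0 : MvPolynomial (Fin 2) k).IsHomogeneous 1
      simpa using (isHomogeneous_C (Fin 2) p).mul (isHomogeneous_X k (0 : Fin 2))
    · exact isHomogeneous_X k (0 : Fin 2)
    · show (C q * X 1 : MvPolynomial (Fin 2) k).IsHomogeneous 1
      simpa using (isHomogeneous_C (Fin 2) q).mul (isHomogeneous_X k (1 : Fin 2))
    · exact isHomogeneous_X k (1 : Fin 2))
  rwa [one_mul] at this

lemma lineIdeal_homog (p q : k) : HomogIdeal (lineIdeal p q) := by
  intro f hf n
  rw [mem_line_iff] at hf ⊢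
  by_cases hn : n ≤ f.totalDegree
  · have h1 : psi p q f = ∑ i ∈ Finset.range (f.totalDegree + 1),
        psi p q (homogeneousComponent i f) := by
      conv_lhs => rw [← sum_homogeneousComponent f]
      rw [map_sum]
    have h2 : homogeneousComponent n (psi p q f) = psi p q (homogeneousComponent n f) := by
      rw [h1, map_sum, Finset.sum_eq_single n]
      · rw [homogeneousComponent_of_mem
          ((psi_homog p q (homogeneousComponent_isHomogeneous n f)))]
        simp
      · intro i _ hi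
        rw [homogeneousComponent_of_mem
          ((psi_homog p q (homogeneousComponent_isHomogeneous i f)))]
        simp [Ne.symm hi]
      · intro h
        exact absurd (Finset.mem_range.2 (Nat.lt_succ_of_le hn)) h
    rw [← h2, hf, map_zero]
  · rw [homogeneousComponent_eq_zero _ _ (not_le.1 hn), map_zero]

lemma X01_mem (p q : k) : (X 0 - C p * X 1 : Pol k) ∈ lineIdeal p q :=
  Ideal.subset_span (Or.inl rfl)

lemma X23_mem (p q : k) : (X 2 - C q * X 3 : Pol k) ∈ lineIdeal p q :=
  Ideal.subset_span (Or.inr rfl)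

lemma X01_homog (p : k) : (X 0 - C p * X 1 : Pol k).IsHomogeneous 1 := by
  apply (isHomogeneous_X k (0 : Fin 4)).sub
  simpa using (isHomogeneous_C (Fin 4) p).mul (isHomogeneous_X k (1 : Fin 4))

lemma X23_homog (q : k) : (X 2 - C q * X 3 : Pol k).IsHomogeneous 1 := by
  apply (isHomogeneous_X k (2 : Fin 4)).sub
  simpa using (isHomogeneous_C (Fin 4) q).mul (isHomogeneous_X k (3 : Fin 4))

/-- forms in the base ideal vanish at `(1 : 0 : 1 : 1)` -/
lemma eval_base (c₀ c₁ : k) {f : Pol k} (hf : f ∈ base (G0 c₀) (G1 c₁)) :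
    eval ![1, 0, 1, 1] f = 0 := by
  have h : base (G0 c₀) (G1 c₁) ≤ RingHom.ker (eval (![1, 0, 1, 1] : Fin 4 → k)) := by
    unfold base
    rw [Ideal.span_le]
    intro g hg
    rw [SetLike.mem_coe, RingHom.mem_ker]
    rcases hg with rfl | hg
    · simp [G0]
    · rw [Set.mem_singleton_iff] at hg
      subst hg
      simp [G1]
  exact h hf

lemma X01_not_mem_base (c₀ c₁ p : k) : (X 0 - C p * X 1 : Pol k) ∉ base (G0 c₀) (G1 c₁) := by
  intro h
  have := eval_base c₀ c₁ h
  simp at this

lemma member_le_base (c₀ c₁ l m : k) :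
    member (G0 c₀) (G1 c₁) l m ≤ base (G0 c₀) (G1 c₁) := by
  unfold member base
  rw [Ideal.span_le, Set.singleton_subset_iff]
  exact add_mem (Ideal.mul_mem_left _ _ (Ideal.subset_span (Or.inl rfl)))
    (Ideal.mul_mem_left _ _ (Ideal.subset_span (Or.inr rfl)))

lemma psi_mem (c₀ c₁ t p q : k) (hpt : Ac c₀ p + t * Ac c₁ p = 0) (hqt : q ^ 4 = -t) :
    (C 1 * G0 c₀ + C t * G1 c₁ : Pol k) ∈ lineIdeal p q := by
  rw [mem_line_iff]
  unfold G0 G1
  simp only [map_add, map_sub, map_mul, map_pow, psi_X0, psi_X1, psi_X2, psi_X3, psi_C]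
  have e1 : (C (Ac c₀ p) + C t * C (Ac c₁ p) : MvPolynomial (Fin 2) k) = 0 := by
    rw [← map_mul, ← map_add, hpt, map_zero]
  have e2 : (C q ^ 4 : MvPolynomial (Fin 2) k) = - C t := by
    rw [← map_pow, hqt, map_neg]
  unfold Ac at e1
  simp only [map_add, map_mul, map_pow, map_one] at e1 ⊢
  linear_combination (X 0 : MvPolynomial (Fin 2) k) ^ 4 * e1 -
    (X 1 : MvPolynomial (Fin 2) k) ^ 4 * e2

lemma member_lt_line (c₀ c₁ t p q : k) (hpt : Ac c₀ p + t * Ac c₁ p = 0) (hqt : q ^ 4 = -t) :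
    member (G0 c₀) (G1 c₁) 1 t < lineIdeal p q := by
  constructor
  · unfold member
    rw [Ideal.span_le, Set.singleton_subset_iff]
    exact psi_mem c₀ c₁ t p q hpt hqt
  · intro h
    exact X01_not_mem_base c₀ c₁ p (member_le_base c₀ c₁ 1 t (h (X01_mem p q)))

lemma line_height (p q : k) : (lineIdeal p q).height ≤ 2 := by
  have h1 := Ideal.height_le_spanFinrank (lineIdeal p q) (lineIdeal_prime p q).ne_top
  refine h1.trans ?_
  have h2 : (lineIdeal p q).spanFinrank ≤ 2 := by
    unfold lineIdeal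
    refine (Submodule.spanFinrank_span_le_ncard_of_finite (Set.toFinite _)).trans ?_
    exact (Set.ncard_insert_le _ _).trans (by rw [Set.ncard_singleton])
  exact_mod_cast h2

end

variable {k : Type} [Field k]

/-- the line as a prime divisor of the member -/
lemma exists_L (c₀ c₁ t p q : k) (hpt : Ac c₀ p + t * Ac c₁ p = 0) (hqt : q ^ 4 = -t)
    (hne : member (G0 c₀) (G1 c₁) 1 t ≠ ⊥)
    (hprime : (member (G0 c₀) (G1 c₁) 1 t).IsPrime) :
    ∃ L : PrimeDiv (member (G0 c₀) (G1 c₁) 1 t), L.carrier = lineIdeal p q := by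
  refine ⟨⟨lineIdeal p q, lineIdeal_prime p q, lineIdeal_homog p q,
    member_lt_line c₀ c₁ t p q hpt hqt, ?_⟩, rfl⟩
  intro J hJ _ hlt hle
  by_contra hJne
  have hlt2 : J < lineIdeal p q := lt_of_le_of_ne hle hJne
  have := hJ
  have := hprime
  have := lineIdeal_prime p q
  have : (⊥ : Ideal (Pol k)).IsPrime := Ideal.isPrime_bot
  have a1 := Ideal.height_add_one_le_of_lt_of_isPrime (bot_lt_iff_ne_bot.2 hne)
  have a2 := Ideal.height_add_one_le_of_lt_of_isPrime hlt
  have a3 := Ideal.height_add_one_le_of_lt_of_isPrime hlt2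
  have a4 := line_height p q
  rw [Ideal.height_bot] at a1
  have : (3 : ℕ∞) ≤ 2 := by
    calc (3 : ℕ∞) = 0 + 1 + 1 + 1 := by norm_num
      _ ≤ (member (G0 c₀) (G1 c₁) 1 t).height + 1 + 1 := by gcongr
      _ ≤ J.height + 1 := by gcongr
      _ ≤ (lineIdeal p q).height := a3
      _ ≤ 2 := a4
  exact absurd this (by decide)

end CurveG

variable {k : Type} [Field k] [IsAlgClosed k] [CharZero k] {c₀ c₁ : k}

/-- CURVE-G. The line `x = p y`, `z = q w` is a prime divisor of the member `t`, and its restriction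
to the base curve is the divisor `E` of `IsLineDiv`. -/
theorem line_restriction (h : c₀ ≠ c₁) (h0 : c₀ ^ 2 ≠ 4) (h1 : c₁ ^ 2 ≠ 4) (t p q : k)
    (ht : t ≠ 0) (hpt : Ac c₀ p + t * Ac c₁ p = 0) (hqt : q ^ 4 = -t)
    (hp0 : Ac c₀ p ≠ 0) (hp1 : Ac c₁ p ≠ 0)
    (hprime : (member (G0 c₀) (G1 c₁) 1 t).IsPrime) :
    ∃ L : PrimeDiv (member (G0 c₀) (G1 c₁) 1 t), L.carrier = lineIdeal p q ∧
      ∀ E, IsLineDiv c₀ c₁ p q E → IsRestriction (Finsupp.single L 1) E := by
  classical
  have hne : member (G0 c₀) (G1 c₁) 1 t ≠ ⊥ := by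
    intro hbot
    unfold member at hbot
    rw [Ideal.span_singleton_eq_bot] at hbot
    have := congrArg (eval (![0, 0, 1, 0] : Fin 4 → k)) hbot
    simp [G0, G1] at this
  obtain ⟨L, hL⟩ := CurveG.exists_L c₀ c₁ t p q hpt hqt hne hprime
  refine ⟨L, hL, ?_⟩
  intro E hE
  have hbp := base_prime h h0 h1
  constructor
  · intro Q hQ
    rw [Finsupp.support_single _ (one_ne_zero), Finset.mem_singleton] at hQ
    subst hQ
    rw [hL]
    intro he
    exact CurveG.X01_not_mem_base c₀ c₁ p (he ▸ CurveG.X01_mem p q)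
  · intro P
    rw [Finsupp.sum_single_index (by simp), one_mul, hE P]
    split_ifs with hP
    · -- multiplicity one
      have h1mem : 1 ∈ {n : ℕ | ∃ (d : ℕ) (h : Pol k), h.IsHomogeneous d ∧ h ∈ L.carrier ∧
          h ∉ base (G0 c₀) (G1 c₁) ∧ ord P h = n} := by
        refine ⟨1, X 0 - C p * X 1, CurveG.X01_homog p, ?_, CurveG.X01_not_mem_base c₀ c₁ p, ?_⟩
        · rw [hL]; exact CurveG.X01_mem p q
        · exact ord_unram h h0 h1 p hp0 hp1 P (hP (CurveG.X01_mem p q))
      have h2 : mult P L = 1 := by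
        unfold mult
        apply le_antisymm (Nat.sInf_le h1mem)
        obtain ⟨d, g, hg1, hg2, hg3, hg4⟩ := Nat.sInf_mem ⟨1, h1mem⟩
        rw [← hg4]
        obtain ⟨π, hπ⟩ := curve_locPrin h h0 h1 P
        rw [hL] at hg2
        exact (hπ.ord_pos_iff hbp hg3).2 (hP hg2)
      rw [h2]
      rfl
    · have h2 : mult P L = 0 := by
        unfold mult
        apply Nat.eq_zero_of_le_zero
        apply Nat.sInf_le
        have h3 : ¬ ((X 0 - C p * X 1 : Pol k) ∈ P.carrier ∧
            (X 2 - C q * X 3 : Pol k) ∈ P.carrier) := by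
          rintro ⟨ha, hb⟩
          apply hP
          unfold lineIdeal
          rw [Ideal.span_le]
          intro f hf
          rcases hf with rfl | hf
          · exact ha
          · rw [Set.mem_singleton_iff] at hf
            subst hf
            exact hb
        rw [not_and_or] at h3
        rcases h3 with h3 | h3
        · exact ⟨1, X 0 - C p * X 1, CurveG.X01_homog p, by rw [hL]; exact CurveG.X01_mem p q,
            CurveG.X01_not_mem_base c₀ c₁ p, ord_eq_zero_of_not_mem P h3⟩
        · exact ⟨1, X 2 - C q * X 3, CurveG.X23_homog q, by rw [hL]; exact CurveG.X23_mem p q,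
            fun hb => h3 (P.lt.le hb), ord_eq_zero_of_not_mem P h3⟩
      rw [h2]
      rfl

end PicJump

end
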