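import Pool.Agent.Lib_helper43.PJ.D

/-!
BLOCK FibIso of MP_f6fc0c_ag.
BLOCK FIBISO (uniqueness of `A` and its automorphisms).
By `gen`, `unit`, `inj`, `A` is the localization of `k[a,u,v]/(rel)` at the nonzero elements of
`k[a]`; so two `Fib`s with the same `s` are isomorphic, and any other triple satisfying the axioms
gives an automorphism.
-/

noncomputable section

namespace PicJump

open MvPolynomial

variable {k A B : Type} [Field k] [CommRing A] [Algebra k A] [CommRing B] [Algebra k B] {s : k}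

theorem fibiso_aeval_poly {C : Type} [CommRing C] [Algebra k C] (g : Fin 3 → C)
    (t : Polynomial k) :
    MvPolynomial.aeval g (Polynomial.aeval (X 0 : MvPolynomial (Fin 3) k) t)
      = Polynomial.aeval (g 0) t := by
  rw [← Polynomial.aeval_algHom_apply]
  simp

theorem fibiso_relPoly_zero {C : Type} [CommRing C] [Algebra k C] (a u v : C)
    (h : a ^ 4 + algebraMap k C s * a ^ 2 + 1 = u ^ 4 + v ^ 4) :
    MvPolynomial.aeval ![a, u, v] (relPoly s) = 0 := by
  simp only [relPoly, map_sub, map_add, map_mul, map_pow, map_one, aeval_X, aeval_C,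
    Matrix.cons_val_zero, Matrix.cons_val_one, Matrix.cons_val_two, Matrix.head_cons,
    Matrix.tail_cons]
  rw [h]; ring

/-- The universal property of `A`. -/
theorem Fib.exists_lift (f : Fib k A s) (a' u' v' : B)
    (rel' : a' ^ 4 + algebraMap k B s * a' ^ 2 + 1 = u' ^ 4 + v' ^ 4)
    (unit' : ∀ t : Polynomial k, t ≠ 0 → IsUnit (Polynomial.aeval a' t)) :
    ∃ φ : A →ₐ[k] B, φ f.a = a' ∧ φ f.u = u' ∧ φ f.v = v' := by
  classical
  choose T P hT hP using f.gen
  -- well-definedness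
  have wd : ∀ (z : A) (t t' : Polynomial k) (Q Q' : MvPolynomial (Fin 3) k),
      z * Polynomial.aeval f.a t = aeval ![f.a, f.u, f.v] Q →
      z * Polynomial.aeval f.a t' = aeval ![f.a, f.u, f.v] Q' →
      aeval ![a', u', v'] Q * Polynomial.aeval a' t'
        = aeval ![a', u', v'] Q' * Polynomial.aeval a' t := by
    intro z t t' Q Q' h h'
    have h1 : aeval ![f.a, f.u, f.v] (Q * Polynomial.aeval (X 0 : MvPolynomial (Fin 3) k) t'
        - Q' * Polynomial.aeval (X 0 : MvPolynomial (Fin 3) k) t) = 0 := by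
      rw [map_sub, map_mul, map_mul, fibiso_aeval_poly, fibiso_aeval_poly, ← h, ← h']
      simp only [Matrix.cons_val_zero]
      ring
    obtain ⟨w, hw⟩ := f.inj _ h1
    have h2 : aeval ![a', u', v'] (Q * Polynomial.aeval (X 0 : MvPolynomial (Fin 3) k) t'
        - Q' * Polynomial.aeval (X 0 : MvPolynomial (Fin 3) k) t) = 0 := by
      rw [hw, map_mul, fibiso_relPoly_zero a' u' v' rel', zero_mul]
    rw [map_sub, map_mul, map_mul, fibiso_aeval_poly, fibiso_aeval_poly] at h2
    simp only [Matrix.cons_val_zero] at h2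
    exact sub_eq_zero.1 h2
  set φ : A → B := fun z => aeval ![a', u', v'] (P z) * ((unit' (T z) (hT z)).unit⁻¹ : Bˣ) with hφ
  have hφ0 : ∀ z, φ z * Polynomial.aeval a' (T z) = aeval ![a', u', v'] (P z) := by
    intro z
    have : (((unit' (T z) (hT z)).unit⁻¹ : Bˣ) : B) * Polynomial.aeval a' (T z) = 1 := by
      have := (unit' (T z) (hT z)).unit.inv_mul
      simpa using this
    rw [hφ]
    simp only
    rw [mul_assoc, this, mul_one]
  have key : ∀ (z : A) (t : Polynomial k) (Q : MvPolynomial (Fin 3) k),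
      z * Polynomial.aeval f.a t = aeval ![f.a, f.u, f.v] Q →
      φ z * Polynomial.aeval a' t = aeval ![a', u', v'] Q := by
    intro z t Q h
    have h1 := wd z (T z) t (P z) Q (hP z) h
    rw [← hφ0 z] at h1
    have h2 := (unit' (T z) (hT z)).mul_right_cancel
      (show (φ z * Polynomial.aeval a' t) * Polynomial.aeval a' (T z)
        = aeval ![a', u', v'] Q * Polynomial.aeval a' (T z) by rw [← h1]; ring)
    exact h2
  have key1 : ∀ (z : A) (Q : MvPolynomial (Fin 3) k), z = aeval ![f.a, f.u, f.v] Q →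
      φ z = aeval ![a', u', v'] Q := by
    intro z Q h
    have := key z 1 Q (by rw [map_one, mul_one, h])
    rwa [map_one, mul_one] at this
  have hadd : ∀ z w, φ (z + w) = φ z + φ w := by
    intro z w
    have h1 := key (z + w) (T z * T w)
      (P z * Polynomial.aeval (X 0 : MvPolynomial (Fin 3) k) (T w)
        + P w * Polynomial.aeval (X 0 : MvPolynomial (Fin 3) k) (T z)) (by
        simp only [map_add, map_mul, fibiso_aeval_poly, ← hP, Matrix.cons_val_zero]
        ring)
    simp only [map_add, map_mul, fibiso_aeval_poly, ← hφ0, Matrix.cons_val_zero] at h1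
    refine ((unit' (T z) (hT z)).mul (unit' (T w) (hT w))).mul_right_cancel ?_
    rw [h1]; ring
  have hmul : ∀ z w, φ (z * w) = φ z * φ w := by
    intro z w
    have h1 := key (z * w) (T z * T w) (P z * P w) (by
        simp only [map_mul, ← hP]
        ring)
    simp only [map_mul, ← hφ0] at h1
    refine ((unit' (T z) (hT z)).mul (unit' (T w) (hT w))).mul_right_cancel ?_
    rw [h1]; ring
  have hone : φ 1 = 1 := by
    rw [key1 1 1 (by rw [map_one]), map_one]
  have hzero : φ 0 = 0 := by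
    rw [key1 0 0 (by rw [map_zero]), map_zero]
  have hcomm : ∀ c : k, φ (algebraMap k A c) = algebraMap k B c := by
    intro c
    rw [key1 _ (C c) (by rw [aeval_C]), aeval_C]
  refine ⟨{ toFun := φ, map_one' := hone, map_mul' := hmul, map_zero' := hzero, map_add' := hadd,
            commutes' := hcomm }, ?_, ?_, ?_⟩
  · change φ f.a = a'
    rw [key1 f.a (X 0) (by simp)]; simp
  · change φ f.u = u'
    rw [key1 f.u (X 1) (by simp)]; simp
  · change φ f.v = v'
    rw [key1 f.v (X 2) (by simp)]; simp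

/-- Homomorphisms out of `A` are determined by the images of `a`, `u`, `v`. -/
theorem Fib.hom_ext (f : Fib k A s) (φ ψ : A →ₐ[k] B) (h1 : φ f.a = ψ f.a)
    (h2 : φ f.u = ψ f.u) (h3 : φ f.v = ψ f.v) : φ = ψ := by
  ext z
  obtain ⟨t, P, ht, hP⟩ := f.gen z
  have hu : IsUnit (φ (Polynomial.aeval f.a t)) := (f.unit t ht).map φ
  refine hu.mul_right_cancel ?_
  have hψ : φ (Polynomial.aeval f.a t) = ψ (Polynomial.aeval f.a t) := by
    rw [← Polynomial.aeval_algHom_apply, ← Polynomial.aeval_algHom_apply, h1]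
  have hev : φ (aeval ![f.a, f.u, f.v] P) = ψ (aeval ![f.a, f.u, f.v] P) := by
    have : φ.comp (aeval ![f.a, f.u, f.v]) = ψ.comp (aeval ![f.a, f.u, f.v]) := by
      apply MvPolynomial.algHom_ext
      intro i
      fin_cases i <;> simp [h1, h2, h3]
    exact DFunLike.congr_fun this P
  calc φ z * φ (Polynomial.aeval f.a t) = φ (z * Polynomial.aeval f.a t) := (map_mul _ _ _).symm
    _ = ψ (z * Polynomial.aeval f.a t) := by rw [hP, hev]
    _ = ψ z * φ (Polynomial.aeval f.a t) := by rw [map_mul, hψ]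

theorem Fib.exists_iso [IsDomain A] [IsDomain B] (f : Fib k A s) (g : Fib k B s) :
    ∃ e : A ≃ₐ[k] B, e f.a = g.a ∧ e f.u = g.u ∧ e f.v = g.v := by
  obtain ⟨φ, h1, h2, h3⟩ := f.exists_lift g.a g.u g.v g.rel g.unit
  obtain ⟨ψ, h1', h2', h3'⟩ := g.exists_lift f.a f.u f.v f.rel f.unit
  refine ⟨AlgEquiv.ofAlgHom φ ψ ?_ ?_, ?_, ?_, ?_⟩
  · apply g.hom_ext <;> simp [h1, h2, h3, h1', h2', h3']
  · apply f.hom_ext <;> simp [h1, h2, h3, h1', h2', h3']
  · simpa using h1
  · simpa using h2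
  · simpa using h3

theorem Fib.aut_ext [IsDomain A] (f : Fib k A s) (e e' : A ≃ₐ[k] A) (h1 : e f.a = e' f.a)
    (h2 : e f.u = e' f.u) (h3 : e f.v = e' f.v) : e = e' := by
  have := f.hom_ext (e : A →ₐ[k] A) (e' : A →ₐ[k] A) (by simpa using h1) (by simpa using h2)
    (by simpa using h3)
  ext z
  exact DFunLike.congr_fun this z

theorem Fib.exists_scale_hom (f : Fib k A s) (ε ζ ξ : k) (hε : ε ^ 2 = 1)
    (hζ : ζ ^ 4 = 1) (hξ : ξ ^ 4 = 1) :
    ∃ e : A →ₐ[k] A, e f.a = algebraMap k A ε * f.a ∧ e f.u = algebraMap k A ζ * f.u ∧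
      e f.v = algebraMap k A ξ * f.v := by
  have hε0 : ε ≠ 0 := by rintro rfl; norm_num at hε
  refine f.exists_lift _ _ _ ?_ ?_
  · have e2 : algebraMap k A ε ^ 2 = 1 := by rw [← map_pow, hε, map_one]
    have e4 : algebraMap k A ε ^ 4 = 1 := by
      rw [show 4 = 2 * 2 from rfl, pow_mul, e2, one_pow]
    have z4 : algebraMap k A ζ ^ 4 = 1 := by rw [← map_pow, hζ, map_one]
    have x4 : algebraMap k A ξ ^ 4 = 1 := by rw [← map_pow, hξ, map_one]
    rw [mul_pow, mul_pow, mul_pow, mul_pow, e2, e4, z4, x4, one_mul, one_mul, one_mul, one_mul]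
    exact f.rel
  · intro t ht
    have h1 : Polynomial.aeval (algebraMap k A ε * f.a) t
        = Polynomial.aeval f.a (t.comp (Polynomial.C ε * Polynomial.X)) := by
      rw [Polynomial.aeval_comp]
      simp
    rw [h1]
    apply f.unit
    intro h0
    apply ht
    rwa [Polynomial.comp_C_mul_X_eq_zero_iff] at h0
    exact mem_nonZeroDivisors_of_ne_zero hε0

/-- the automorphism `(a, u, v) -> (ε a, ζ u, ξ v)`, `ε ^ 2 = ζ ^ 4 = ξ ^ 4 = 1` -/
theorem Fib.exists_scale [IsDomain A] (f : Fib k A s) (ε ζ ξ : k) (hε : ε ^ 2 = 1)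
    (hζ : ζ ^ 4 = 1) (hξ : ξ ^ 4 = 1) :
    ∃ e : A ≃ₐ[k] A, f.IsAut e (algebraMap k A ε * f.a) (algebraMap k A ζ * f.u)
      (algebraMap k A ξ * f.v) := by
  obtain ⟨φ, h1, h2, h3⟩ := f.exists_scale_hom ε ζ ξ hε hζ hξ
  obtain ⟨ψ, h1', h2', h3'⟩ := f.exists_scale_hom ε (ζ ^ 3) (ξ ^ 3) hε
    (by rw [← pow_mul, mul_comm, pow_mul, hζ, one_pow])
    (by rw [← pow_mul, mul_comm, pow_mul, hξ, one_pow])
  have e2 : algebraMap k A ε * algebraMap k A ε = 1 := by rw [← map_mul, ← sq, hε, map_one]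
  have z4 : algebraMap k A (ζ ^ 3) * algebraMap k A ζ = 1 := by
    rw [← map_mul, ← pow_succ, hζ, map_one]
  have x4 : algebraMap k A (ξ ^ 3) * algebraMap k A ξ = 1 := by
    rw [← map_mul, ← pow_succ, hξ, map_one]
  refine ⟨AlgEquiv.ofAlgHom φ ψ ?_ ?_, ?_, ?_, ?_⟩
  · apply f.hom_ext
    · simp only [AlgHom.comp_apply, h1', map_mul, AlgHom.commutes, h1, AlgHom.id_apply]
      rw [← mul_assoc, e2, one_mul]
    · rw [AlgHom.comp_apply, h2', map_mul, AlgHom.commutes, h2, AlgHom.id_apply, ← mul_assoc, z4,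
        one_mul]
    · rw [AlgHom.comp_apply, h3', map_mul, AlgHom.commutes, h3, AlgHom.id_apply, ← mul_assoc, x4,
        one_mul]
  · apply f.hom_ext
    · simp only [AlgHom.comp_apply, h1', map_mul, AlgHom.commutes, h1, AlgHom.id_apply]
      rw [← mul_assoc, e2, one_mul]
    · rw [AlgHom.comp_apply, h2, map_mul, AlgHom.commutes, h2', AlgHom.id_apply, ← mul_assoc,
        mul_comm (algebraMap k A ζ), z4, one_mul]
    · rw [AlgHom.comp_apply, h3, map_mul, AlgHom.commutes, h3', AlgHom.id_apply, ← mul_assoc,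
        mul_comm (algebraMap k A ξ), x4, one_mul]
  · simpa using h1
  · simpa using h2
  · simpa using h3

/-- the automorphism `(a, u, v) -> (a, v, u)` -/
theorem Fib.exists_swap [IsDomain A] (f : Fib k A s) :
    ∃ e : A ≃ₐ[k] A, f.IsAut e f.a f.v f.u := by
  obtain ⟨φ, h1, h2, h3⟩ := f.exists_lift f.a f.v f.u (by rw [f.rel]; ring) f.unit
  refine ⟨AlgEquiv.ofAlgHom φ φ ?_ ?_, ?_, ?_, ?_⟩
  · apply f.hom_ext <;> simp [h1, h2, h3]
  · apply f.hom_ext <;> simp [h1, h2, h3]
  · simpa using h1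
  · simpa using h2
  · simpa using h3

/-- the automorphism `(a, u, v) -> (1/a, u/a, v/a)`, where `b` is the inverse of `a` -/
theorem Fib.exists_inv [IsDomain A] (f : Fib k A s) :
    ∃ (b : A) (e : A ≃ₐ[k] A), f.a * b = 1 ∧ f.IsAut e b (f.u * b) (f.v * b) := by
  have hua : IsUnit f.a := by
    have := f.unit Polynomial.X Polynomial.X_ne_zero
    simpa using this
  obtain ⟨b, hb⟩ := hua.exists_right_inv
  have hrel : b ^ 4 + algebraMap k A s * b ^ 2 + 1 = (f.u * b) ^ 4 + (f.v * b) ^ 4 := by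
    have h1 : (f.u * b) ^ 4 + (f.v * b) ^ 4 = (f.a ^ 4 + algebraMap k A s * f.a ^ 2 + 1) * b ^ 4 := by
      rw [f.rel]; ring
    rw [h1]
    have h2 : (f.a ^ 4 + algebraMap k A s * f.a ^ 2 + 1) * b ^ 4
        = (f.a * b) ^ 4 + algebraMap k A s * (f.a * b) ^ 2 * b ^ 2 + b ^ 4 := by ring
    rw [h2, hb]; ring
  have hunit : ∀ t : Polynomial k, t ≠ 0 → IsUnit (Polynomial.aeval b t) := by
    intro t ht
    letI : Invertible b := ⟨f.a, hb, by rw [mul_comm]; exact hb⟩
    have h1 := Polynomial.eval₂_reverse_mul_pow (algebraMap k A) b t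
    have h2 : (⅟b : A) = f.a := rfl
    rw [h2] at h1
    rw [Polynomial.aeval_def, ← h1]
    refine IsUnit.mul ?_ ?_
    · have := f.unit t.reverse (by rwa [Ne, Polynomial.reverse_eq_zero])
      rwa [Polynomial.aeval_def] at this
    · exact (isUnit_of_invertible b).pow _
  obtain ⟨φ, h1, h2, h3⟩ := f.exists_lift b (f.u * b) (f.v * b) hrel hunit
  have hφb : φ b = f.a := by
    have h4 : φ f.a * φ b = 1 := by rw [← map_mul, hb, map_one]
    rw [h1] at h4
    have : φ b = (f.a * b) * φ b := by rw [hb, one_mul]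
    rw [this, mul_assoc, h4, mul_one]
  refine ⟨b, AlgEquiv.ofAlgHom φ φ ?_ ?_, hb, ?_, ?_, ?_⟩
  · apply f.hom_ext
    · simp [h1, hφb]
    · simp only [AlgHom.comp_apply, h2, map_mul, hφb, AlgHom.id_apply]
      rw [mul_assoc, mul_comm b, hb, mul_one]
    · simp only [AlgHom.comp_apply, h3, map_mul, hφb, AlgHom.id_apply]
      rw [mul_assoc, mul_comm b, hb, mul_one]
  · apply f.hom_ext
    · simp [h1, hφb]
    · simp only [AlgHom.comp_apply, h2, map_mul, hφb, AlgHom.id_apply]
      rw [mul_assoc, mul_comm b, hb, mul_one]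
    · simp only [AlgHom.comp_apply, h3, map_mul, hφb, AlgHom.id_apply]
      rw [mul_assoc, mul_comm b, hb, mul_one]
  · simpa using h1
  · simpa using h2
  · simpa using h3

end PicJump

end
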