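import Pool.Agent.Lib_helper43.PJ.D
import Pool.Agent.Lib_helper43.PJ.W_FibIso

/-!
BLOCK DanA of MP_f6fc0c_ag.
BLOCKS DAN (the quotient of `X_s` by `x -> -x`, `z -> -z` is the surface `p q = w^4 - c y^4`).
Notation: `c = 1 - s^2/4 <> 0`, `p = a^2 + s/2 - u^2`, `q = a^2 + s/2 + u^2`, so `p q = v^4 - c`,
`a^2 = (p + q - s)/2`, `u^2 = (q - p)/2`.  In `A`, the elements `p`, `v` are algebraically
independent over `k` (`k[p,v]` is a polynomial ring, contained in `A`).
-/

noncomputable section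

namespace PicJump

open MvPolynomial

variable {k A : Type} [Field k] [IsAlgClosed k] [CharZero k] [CommRing A] [IsDomain A]
  [Algebra k A] {s : k}

theorem dana_two_ne (k A : Type) [Field k] [CharZero k] [CommRing A] [IsDomain A]
    [Algebra k A] : (2 : A) ≠ 0 := by
  have h : (algebraMap k A) 2 ≠ 0 := by
    rw [Ne, map_eq_zero_iff (algebraMap k A) (algebraMap k A).injective]
    exact two_ne_zero
  rwa [map_ofNat] at h

/-- every nonzero polynomial divides a nonzero polynomial in `X ^ 2` -/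
theorem dana_exists_even {T : Polynomial k} (hT : T ≠ 0) :
    ∃ t : Polynomial k, t ≠ 0 ∧ T ∣ t.comp (Polynomial.X ^ 2) := by
  have hfin : Module.Finite k (AdjoinRoot T) := (AdjoinRoot.powerBasis hT).finite
  have hint : IsIntegral k ((AdjoinRoot.root T) ^ 2) := Algebra.IsIntegral.isIntegral _
  refine ⟨minpoly k ((AdjoinRoot.root T) ^ 2), minpoly.ne_zero hint, ?_⟩
  rw [← AdjoinRoot.mk_eq_zero]
  have h := minpoly.aeval k ((AdjoinRoot.root T) ^ 2)
  have h2 : AdjoinRoot.mk T ((minpoly k ((AdjoinRoot.root T) ^ 2)).comp (Polynomial.X ^ 2))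
      = Polynomial.aeval ((AdjoinRoot.root T) ^ 2) (minpoly k ((AdjoinRoot.root T) ^ 2)) := by
    rw [← AdjoinRoot.aeval_eq, Polynomial.aeval_comp]
    simp
  rw [h2, h]

/-- DAN-A. Every element of `A` invariant under `α : a -> -a` and `γ : u -> -u` times a suitable
nonzero `t(a^2)` and a power of `p` is a polynomial in `p` and `v`. -/
theorem Fib.inv_poly (f : Fib k A s) (α γ : A ≃ₐ[k] A) (hα : f.IsAut α (-f.a) f.u f.v)
    (hγ : f.IsAut γ f.a (-f.u) f.v) (z : A) (h1 : α z = z) (h2 : γ z = z) :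
    ∃ (t : Polynomial k) (N : ℕ) (R : MvPolynomial (Fin 2) k), t ≠ 0 ∧
      z * Polynomial.aeval (f.a ^ 2) t * f.pp ^ N = aeval ![f.pp, f.v] R := by
  obtain ⟨hα1, hα2, hα3⟩ := hα
  obtain ⟨hγ1, hγ2, hγ3⟩ := hγ
  obtain ⟨T, P, hT, hP⟩ := f.gen z
  obtain ⟨t, ht, S, hS⟩ := dana_exists_even hT
  have hev : Polynomial.aeval (f.a ^ 2) t = Polynomial.aeval f.a T * Polynomial.aeval f.a S := by
    rw [← map_mul, ← hS, Polynomial.aeval_comp]
    simp
  set B : Subalgebra k A := Algebra.adjoin k {f.a ^ 2, f.u ^ 2, f.v} with hB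
  have ha2 : f.a ^ 2 ∈ B := Algebra.subset_adjoin (by simp)
  have hu2 : f.u ^ 2 ∈ B := Algebra.subset_adjoin (by simp)
  have hv : f.v ∈ B := Algebra.subset_adjoin (by simp)
  -- parity decomposition
  have hdec : ∀ P : MvPolynomial (Fin 3) k, ∃ w₀ ∈ B, ∃ w₁ ∈ B, ∃ w₂ ∈ B, ∃ w₃ ∈ B,
      aeval ![f.a, f.u, f.v] P = w₀ + f.a * w₁ + f.u * w₂ + f.a * f.u * w₃ := by
    intro P
    induction P using MvPolynomial.induction_on with
    | C c =>
      refine ⟨algebraMap k A c, B.algebraMap_mem c, 0, B.zero_mem, 0, B.zero_mem, 0, B.zero_mem, ?_⟩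
      rw [aeval_C]; ring
    | add p q hp hq =>
      obtain ⟨w₀, m₀, w₁, m₁, w₂, m₂, w₃, m₃, hw⟩ := hp
      obtain ⟨w₀', m₀', w₁', m₁', w₂', m₂', w₃', m₃', hw'⟩ := hq
      refine ⟨w₀ + w₀', B.add_mem m₀ m₀', w₁ + w₁', B.add_mem m₁ m₁', w₂ + w₂', B.add_mem m₂ m₂',
        w₃ + w₃', B.add_mem m₃ m₃', ?_⟩
      rw [map_add, hw, hw']; ring
    | mul_X p i hp =>
      obtain ⟨w₀, m₀, w₁, m₁, w₂, m₂, w₃, m₃, hw⟩ := hp
      rw [map_mul, aeval_X, hw]
      fin_cases i
      · refine ⟨f.a ^ 2 * w₁, B.mul_mem ha2 m₁, w₀, m₀, f.a ^ 2 * w₃, B.mul_mem ha2 m₃, w₂, m₂, ?_⟩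
        simp only [Fin.zero_eta, Matrix.cons_val_zero]
        ring
      · refine ⟨f.u ^ 2 * w₂, B.mul_mem hu2 m₂, f.u ^ 2 * w₃, B.mul_mem hu2 m₃, w₀, m₀, w₁, m₁, ?_⟩
        have : (![f.a, f.u, f.v] ((fun i => i) ⟨1, by omega⟩) : A) = f.u := rfl
        rw [this]
        ring
      · refine ⟨f.v * w₀, B.mul_mem hv m₀, f.v * w₁, B.mul_mem hv m₁, f.v * w₂, B.mul_mem hv m₂,
          f.v * w₃, B.mul_mem hv m₃, ?_⟩
        have : (![f.a, f.u, f.v] ((fun i => i) ⟨2, by omega⟩) : A) = f.v := rfl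
        rw [this]
        ring
  have hfix : ∀ (τ : A ≃ₐ[k] A), τ (f.a ^ 2) = f.a ^ 2 → τ (f.u ^ 2) = f.u ^ 2 → τ f.v = f.v →
      ∀ w ∈ B, τ w = w := by
    intro τ e1 e2 e3 w hw
    have hle : B ≤ AlgHom.equalizer (τ : A →ₐ[k] A) (AlgHom.id k A) := by
      rw [hB]
      apply Algebra.adjoin_le
      rintro y (rfl | rfl | hy)
      · exact e1
      · exact e2
      · rw [Set.mem_singleton_iff] at hy; subst hy; exact e3
    exact hle hw
  have hαB := hfix α (by rw [map_pow, hα1]; ring) (by rw [map_pow, hα2]) hα3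
  have hγB := hfix γ (by rw [map_pow, hγ1]) (by rw [map_pow, hγ2]; ring) hγ3
  -- `w = z * t(a ^ 2)`
  obtain ⟨w₀, m₀, w₁, m₁, w₂, m₂, w₃, m₃, hw⟩ := hdec
    (P * Polynomial.aeval (X 0 : MvPolynomial (Fin 3) k) S)
  have hw' : z * Polynomial.aeval (f.a ^ 2) t
      = w₀ + f.a * w₁ + f.u * w₂ + f.a * f.u * w₃ := by
    rw [← hw, map_mul, fibiso_aeval_poly, hev, ← mul_assoc, hP]
    simp only [Matrix.cons_val_zero]
  have hta : ∀ (τ : A ≃ₐ[k] A), τ (f.a ^ 2) = f.a ^ 2 →
      τ (Polynomial.aeval (f.a ^ 2) t) = Polynomial.aeval (f.a ^ 2) t := by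
    intro τ e1
    have h5 := Polynomial.aeval_algHom_apply (τ : A →ₐ[k] A) (f.a ^ 2) t
    rw [AlgEquiv.coe_toAlgHom, e1] at h5
    exact h5.symm
  have two0 : (2 : A) ≠ 0 := dana_two_ne k A
  have hα' := congrArg α hw'
  simp only [map_add, map_mul, h1, hta α (by rw [map_pow, hα1]; ring), hα1, hα2, hαB _ m₀,
    hαB _ m₁, hαB _ m₂, hαB _ m₃] at hα'
  have hγ' := congrArg γ hw'
  simp only [map_add, map_mul, h2, hta γ (by rw [map_pow, hγ1]), hγ1, hγ2, hγB _ m₀,
    hγB _ m₁, hγB _ m₂, hγB _ m₃] at hγ'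
  have hγα := congrArg γ hα'
  simp only [map_add, map_mul, map_neg, h2, hta γ (by rw [map_pow, hγ1]), hγ1, hγ2, hγB _ m₀,
    hγB _ m₁, hγB _ m₂, hγB _ m₃] at hγα
  have hw0 : z * Polynomial.aeval (f.a ^ 2) t = w₀ := by
    have h4 : (2 * 2 : A) ≠ 0 := mul_ne_zero two0 two0
    apply mul_left_cancel₀ h4
    linear_combination hw' + hα' + hγ' + hγα
  -- elements of `B` are polynomials in `p, v` up to powers of `p`
  have hs2 : algebraMap k A s = 2 * algebraMap k A (s / 2) := by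
    rw [show (2 : A) = algebraMap k A 2 by rw [map_ofNat], ← map_mul]
    congr 1
    field_simp
  have hhalf : (2 : A) * algebraMap k A (1 / 2) = 1 := by
    rw [show (2 : A) = algebraMap k A 2 by rw [map_ofNat], ← map_mul, ← map_one (algebraMap k A)]
    congr 1
    field_simp
  have hpol : ∀ y ∈ B, ∃ (N : ℕ) (R : MvPolynomial (Fin 2) k),
      y * f.pp ^ N = aeval ![f.pp, f.v] R := by
    intro y hy
    induction hy using Algebra.adjoin_induction with
    | mem y hy =>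
      rcases hy with rfl | rfl | hy
      · -- `2 p a^2 = p^2 - s p + v^4 - 1 + s^2/4`
        refine ⟨1, C (1 / 2) * (X 0 ^ 2 - C s * X 0 + X 1 ^ 4 - 1 + C (s / 2) ^ 2), ?_⟩
        simp only [map_mul, map_add, map_sub, map_pow, aeval_X, aeval_C, map_one,
          Matrix.cons_val_zero, Matrix.cons_val_one, Fib.pp, pow_one]
        have hr := f.rel
        rw [hs2] at hr ⊢
        linear_combination (algebraMap k A (1 / 2)) * hr
          - (f.a ^ 2 * (f.a ^ 2 + algebraMap k A (s / 2) - f.u ^ 2)) * hhalf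
      · refine ⟨1, C (1 / 2) * (- X 0 ^ 2 + X 1 ^ 4 - 1 + C (s / 2) ^ 2), ?_⟩
        simp only [map_mul, map_add, map_sub, map_neg, map_pow, aeval_X, aeval_C, map_one,
          Matrix.cons_val_zero, Matrix.cons_val_one, Fib.pp, pow_one]
        have hr := f.rel
        rw [hs2] at hr
        linear_combination (algebraMap k A (1 / 2)) * hr
          - (f.u ^ 2 * (f.a ^ 2 + algebraMap k A (s / 2) - f.u ^ 2)) * hhalf
      · rw [Set.mem_singleton_iff] at hy
        subst hy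
        refine ⟨0, X 1, ?_⟩
        simp
    | algebraMap c =>
      refine ⟨0, C c, ?_⟩
      simp
    | add y y' _ _ hy hy' =>
      obtain ⟨N, R, h⟩ := hy
      obtain ⟨N', R', h'⟩ := hy'
      refine ⟨N + N', R * X 0 ^ N' + R' * X 0 ^ N, ?_⟩
      simp only [map_add, map_mul, map_pow, aeval_X, ← h, ← h', Matrix.cons_val_zero]
      ring
    | mul y y' _ _ hy hy' =>
      obtain ⟨N, R, h⟩ := hy
      obtain ⟨N', R', h'⟩ := hy'
      refine ⟨N + N', R * R', ?_⟩
      simp only [map_mul, ← h, ← h']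
      ring
  obtain ⟨N, R, hR⟩ := hpol w₀ m₀
  exact ⟨t, N, R, ht, by rw [hw0, hR]⟩

theorem dana_indep_aux {Ω : Type} [Field Ω] [IsAlgClosed Ω]
    (ψ : MvPolynomial (Fin 2) k →+* Ω) (hψ : Function.Injective ψ)
    (f : Fib k A s) : Function.Injective
    (aeval ![f.pp, f.v] : MvPolynomial (Fin 2) k →ₐ[k] A) := by
  letI : Algebra k Ω := (ψ.comp C).toAlgebra
  have halg : ∀ c : k, algebraMap k Ω c = ψ (C c) := fun c => rfl
  set P : Ω := ψ (X 0) with hP
  set V : Ω := ψ (X 1) with hV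
  have hP0 : P ≠ 0 := by
    rw [hP, Ne, map_eq_zero_iff ψ hψ]
    exact X_ne_zero 0
  have h2 : (2 : Ω) ≠ 0 := dana_two_ne k Ω
  set h : Ω := algebraMap k Ω (s / 2) with hh
  have hs2 : algebraMap k Ω s = 2 * h := by
    rw [hh, show (2 : Ω) = algebraMap k Ω 2 by rw [map_ofNat], ← map_mul]
    congr 1
    field_simp
  set Q : Ω := (V ^ 4 - 1 + h ^ 2) / P with hQ
  have hPQ : P * Q = V ^ 4 - 1 + h ^ 2 := by rw [hQ]; field_simp
  obtain ⟨a', ha'⟩ := IsAlgClosed.exists_pow_nat_eq ((P + Q - 2 * h) / 2) (n := 2) (by norm_num)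
  obtain ⟨u', hu'⟩ := IsAlgClosed.exists_pow_nat_eq ((Q - P) / 2) (n := 2) (by norm_num)
  have ha2 : 2 * a' ^ 2 = P + Q - 2 * h := by rw [ha']; field_simp
  have hu2 : 2 * u' ^ 2 = Q - P := by rw [hu']; field_simp
  have hrel : a' ^ 4 + algebraMap k Ω s * a' ^ 2 + 1 = u' ^ 4 + V ^ 4 := by
    rw [hs2]
    have h4 : (2 * 2 : Ω) ≠ 0 := mul_ne_zero h2 h2
    apply mul_left_cancel₀ h4
    linear_combination (2 * a' ^ 2 + P + Q + 2 * h) * ha2 - (2 * u' ^ 2 + Q - P) * hu2 + 4 * hPQ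
  have hunit : ∀ t : Polynomial k, t ≠ 0 → IsUnit (Polynomial.aeval a' t) := by
    intro t ht
    rw [isUnit_iff_ne_zero]
    intro h0
    have halg' : IsAlgebraic k a' := ⟨t, ht, h0⟩
    -- so `a'` is in `k`
    obtain ⟨r, hr⟩ : ∃ r : k, algebraMap k Ω r = a' := by
      have hint : IsIntegral k a' := halg'.isIntegral
      have := IsAlgClosed.degree_eq_one_of_irreducible k (minpoly.irreducible hint)
      have hmem := minpoly.mem_range_of_degree_eq_one k a' this
      exact hmem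
    have hz : ψ (X 0 ^ 2 - C (s + 2 * r ^ 2) * X 0 + X 1 ^ 4 - 1 + C (s / 2) ^ 2) = 0 := by
      simp only [map_add, map_sub, map_mul, map_pow, map_one, ← halg, map_ofNat]
      rw [← hP, ← hV, ← hh, hs2, hr]
      linear_combination (-P) * ha2 - hPQ
    rw [map_eq_zero_iff ψ hψ] at hz
    have hc := congrArg (fun p => MvPolynomial.coeff (Finsupp.single 1 4) p) hz
    have e1 : (Finsupp.single (1 : Fin 2) 4 : Fin 2 →₀ ℕ) ≠ 0 := by simp
    have e2 : MvPolynomial.coeff (Finsupp.single (1 : Fin 2) 4)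
        ((X 0 : MvPolynomial (Fin 2) k) ^ 2) = 0 := by
      rw [coeff_X_pow, if_neg]
      intro h
      have := DFunLike.congr_fun h 0
      simp at this
    have e3 : MvPolynomial.coeff (Finsupp.single (1 : Fin 2) 4)
        (C (s + 2 * r ^ 2) * (X 0 : MvPolynomial (Fin 2) k)) = 0 := by
      rw [coeff_C_mul, coeff_X', if_neg, mul_zero]
      intro h
      have := DFunLike.congr_fun h 0
      simp at this
    have e4 : MvPolynomial.coeff (Finsupp.single (1 : Fin 2) 4)
        ((X 1 : MvPolynomial (Fin 2) k) ^ 4) = 1 := by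
      rw [coeff_X_pow, if_pos rfl]
    have e5 : MvPolynomial.coeff (Finsupp.single (1 : Fin 2) 4)
        (1 : MvPolynomial (Fin 2) k) = 0 := by
      rw [MvPolynomial.coeff_one, if_neg (Ne.symm e1)]
    have e6 : MvPolynomial.coeff (Finsupp.single (1 : Fin 2) 4)
        ((C (s / 2) : MvPolynomial (Fin 2) k) ^ 2) = 0 := by
      rw [← map_pow, coeff_C, if_neg (Ne.symm e1)]
    simp only [coeff_add, coeff_sub, e2, e3, e4, e5, e6, coeff_zero] at hc
    norm_num at hc
  obtain ⟨φ, hφa, hφu, hφv⟩ := f.exists_lift a' u' V hrel hunit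
  have hφp : φ f.pp = P := by
    rw [Fib.pp, map_sub, map_add, map_pow, map_pow, hφa, hφu, AlgHom.commutes, ← hh]
    apply mul_left_cancel₀ h2
    linear_combination ha2 - hu2
  have hφR : ∀ R, φ (aeval ![f.pp, f.v] R) = ψ R := by
    intro R
    have h7 : (φ : A →+* Ω).comp ((aeval ![f.pp, f.v] : MvPolynomial (Fin 2) k →ₐ[k] A) :
        MvPolynomial (Fin 2) k →+* A) = ψ := by
      apply MvPolynomial.ringHom_ext
      · intro c
        simp only [RingHom.comp_apply, RingHom.coe_coe, aeval_C, AlgHom.commutes]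
        exact halg c
      · intro i
        fin_cases i
        · simpa using hφp
        · simpa using hφv
    exact DFunLike.congr_fun h7 R
  intro R R' h
  apply hψ
  rw [← hφR, ← hφR, h]

/-- DAN-A'. `p` and `v` are algebraically independent over `k`. -/
theorem Fib.pv_indep (f : Fib k A s) : Function.Injective
    (aeval ![f.pp, f.v] : MvPolynomial (Fin 2) k →ₐ[k] A) :=
  dana_indep_aux ((algebraMap (FractionRing (MvPolynomial (Fin 2) k))
    (AlgebraicClosure (FractionRing (MvPolynomial (Fin 2) k)))).comp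
      (algebraMap (MvPolynomial (Fin 2) k) (FractionRing (MvPolynomial (Fin 2) k))))
    (by
      rw [RingHom.coe_comp]
      exact (RingHom.injective _).comp (IsFractionRing.injective _ _)) f

theorem Fib.hr_eq (f : Fib k A s) (r : k) :
    2 * f.pp * (f.a ^ 2 - algebraMap k A r) = aeval ![f.pp, f.v] (hr s r) := by
  have hs2 : algebraMap k A s = 2 * algebraMap k A (s / 2) := by
    rw [show (2 : A) = algebraMap k A 2 by rw [map_ofNat], ← map_mul]
    congr 1
    field_simp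
  have hs4 : algebraMap k A (1 - s ^ 2 / 4) = 1 - algebraMap k A (s / 2) ^ 2 := by
    rw [← map_one (algebraMap k A), ← map_pow, ← map_sub]
    congr 1
    ring
  have hr' := f.rel
  rw [hs2] at hr'
  simp only [hr, map_add, map_sub, map_mul, map_pow, aeval_X, aeval_C, Matrix.cons_val_zero,
    Matrix.cons_val_one]
  have hs4' : algebraMap k A 1 - algebraMap k A (s ^ 2 / 4) = 1 - algebraMap k A (s / 2) ^ 2 := by
    rw [← hs4, map_sub]
  rw [hs4', hs2, map_ofNat, Fib.pp]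
  linear_combination hr'

theorem Fib.pp_ne_zero (f : Fib k A s) : f.pp ≠ 0 := by
  intro h
  have h1 : (aeval ![f.pp, f.v] : MvPolynomial (Fin 2) k →ₐ[k] A) (X 0) = 0 := by
    simpa using h
  have h2 := f.pv_indep (h1.trans (map_zero _).symm)
  exact X_ne_zero 0 h2

end PicJump

end
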