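import Pool.Agent.Lib_helper43.PJ.D

/-!
BLOCK DanB of MP_f6fc0c_ag.
BLOCKS DAN (the quotient of `X_s` by `x -> -x`, `z -> -z` is the surface `p q = w^4 - c y^4`).
Notation: `c = 1 - s^2/4 <> 0`, `p = a^2 + s/2 - u^2`, `q = a^2 + s/2 + u^2`, so `p q = v^4 - c`,
`a^2 = (p + q - s)/2`, `u^2 = (q - p)/2`.  In `A`, the elements `p`, `v` are algebraically
independent over `k` (`k[p,v]` is a polynomial ring, contained in `A`).
-/

noncomputable section

namespace PicJump

open MvPolynomial

variable {k A : Type} [Field k] [IsAlgClosed k] [CharZero k] [CommRing A] [IsDomain A]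
  [Algebra k A] {s : k}

/-- a square root of `e - 4 v ^ 4` is invariant under `v -> - v` -/
theorem danb_even (e : k) (D : MvPolynomial (Fin 1) k)
    (hD : D ^ 2 = C e - 4 * X 0 ^ 4) :
    (aeval (fun _ => - X 0) D : MvPolynomial (Fin 1) k) = D := by
  set τ : MvPolynomial (Fin 1) k →ₐ[k] MvPolynomial (Fin 1) k := aeval (fun _ => - X 0) with hτ
  have hτX : ∀ i, τ (X i) = - X 0 := by intro i; rw [hτ, aeval_X]
  have h1 : (τ D) ^ 2 = D ^ 2 := by
    rw [← map_pow, hD, map_sub, map_mul, map_pow, hτX, algHom_C, map_ofNat]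
    simp only [algebraMap_eq]
    ring
  rcases sq_eq_sq_iff_eq_or_eq_neg.1 h1 with h | h
  · exact h
  · -- `D (0) = 0`
    have h2 : MvPolynomial.constantCoeff (τ D) = MvPolynomial.constantCoeff D := by
      have h3 : ((MvPolynomial.aeval (fun _ : Fin 1 => (0 : k))).comp τ :
          MvPolynomial (Fin 1) k →ₐ[k] k) = MvPolynomial.aeval (fun _ : Fin 1 => (0 : k)) := by
        apply MvPolynomial.algHom_ext
        intro i
        simp [hτX]
      have h4 := DFunLike.congr_fun h3 D
      simp only [AlgHom.comp_apply] at h4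
      have h5 : ∀ P : MvPolynomial (Fin 1) k,
          MvPolynomial.aeval (fun _ : Fin 1 => (0 : k)) P = MvPolynomial.constantCoeff P := by
        intro P
        simp
      rw [h5, h5] at h4
      exact h4
    have h3 : MvPolynomial.constantCoeff D = 0 := by
      rw [h, map_neg] at h2
      have : (2 : k) * MvPolynomial.constantCoeff D = 0 := by linear_combination - h2
      exact (mul_eq_zero.1 this).resolve_left two_ne_zero
    have h4 : e = 0 := by
      have := congrArg MvPolynomial.constantCoeff hD
      rw [map_pow, h3] at this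
      simp at this
      exact this.symm
    obtain ⟨j, hj⟩ := IsAlgClosed.exists_pow_nat_eq (-4 : k) (n := 2) (by norm_num)
    have h5 : (D - C j * X 0 ^ 2) * (D + C j * X 0 ^ 2) = 0 := by
      have h6 : (C j : MvPolynomial (Fin 1) k) ^ 2 = -4 := by
        rw [← map_pow, hj, map_neg]
        rw [show (C (4 : k) : MvPolynomial (Fin 1) k) = 4 from map_ofNat C 4]
      rw [h4, map_zero] at hD
      linear_combination hD - X 0 ^ 4 * h6
    rcases mul_eq_zero.1 h5 with h6 | h6
    · have h7 : D = C j * X 0 ^ 2 := by linear_combination h6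
      rw [h7, map_mul, map_pow, hτX, algHom_C]
      simp only [algebraMap_eq]
      ring
    · have h7 : D = - (C j * X 0 ^ 2) := by linear_combination h6
      rw [h7, map_neg, map_mul, map_pow, hτX, algHom_C]
      simp only [algebraMap_eq]
      ring

/-- DAN-B. The irreducible factors of `h_r` are even in `v` up to a constant: if `π` and `π(p,-v)`
were not associated, `h_r` would be `(p - α(v)) (p - α(-v))` up to a constant; comparing the sum and
the product of `α(v)`, `α(-v)` (`α` of degree at most 2) gives a contradiction. -/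
theorem hr_factor_even (s r : k) (π : MvPolynomial (Fin 2) k) (hπ : Irreducible π)
    (hdvd : π ∣ hr s r) :
    Associated (aeval ![X 0, - X 1] π : MvPolynomial (Fin 2) k) π := by
  set E := MvPolynomial.finSuccEquiv k 1 with hE
  set τ : MvPolynomial (Fin 1) k →ₐ[k] MvPolynomial (Fin 1) k := aeval (fun _ => - X 0) with hτ
  have hτX : ∀ i, τ (X i) = - X 0 := by intro i; rw [hτ, aeval_X]
  set Θ : Polynomial (MvPolynomial (Fin 1) k) →ₐ[k] Polynomial (MvPolynomial (Fin 1) k) :=
    Polynomial.mapAlgHom τ with hΘ
  have hΘX : Θ Polynomial.X = Polynomial.X := by simp [hΘ]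
  have hΘC : ∀ r, Θ (Polynomial.C r) = Polynomial.C (τ r) := by intro r; simp [hΘ]
  have hE0 : E (X 0) = Polynomial.X := by rw [hE]; exact finSuccEquiv_X_zero
  have hE1 : E (X 1) = Polynomial.C (X 0) := by
    rw [hE]; exact finSuccEquiv_X_succ (n := 1) (j := 0)
  have hEC : ∀ c : k, E (C c) = Polynomial.C (C c) := by
    intro c
    rw [hE, ← algebraMap_eq, AlgEquiv.commutes]
    rfl
  have hcomm : ∀ P, E (aeval ![X 0, - X 1] P) = Θ (E P) := by
    intro P
    have h1 : ((E : MvPolynomial (Fin 2) k →ₐ[k] Polynomial (MvPolynomial (Fin 1) k)).comp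
        (aeval ![X 0, - X 1] : MvPolynomial (Fin 2) k →ₐ[k] MvPolynomial (Fin 2) k))
        = Θ.comp (E : MvPolynomial (Fin 2) k →ₐ[k] Polynomial (MvPolynomial (Fin 1) k)) := by
      apply MvPolynomial.algHom_ext
      intro i
      fin_cases i
      · show E (aeval ![X 0, - X 1] (X 0)) = Θ (E (X 0))
        rw [aeval_X, hE0, hΘX]
        exact hE0
      · show E (aeval ![X 0, - X 1] (X 1)) = Θ (E (X 1))
        rw [aeval_X, hE1, hΘC, hτX]
        show E (- X 1) = _
        rw [map_neg, hE1, map_neg]
    exact DFunLike.congr_fun h1 P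
  -- it suffices to work in `k[v][p]`
  have hsuff : Associated (Θ (E π)) (E π) → Associated (aeval ![X 0, - X 1] π) π := by
    intro h
    rw [← hcomm] at h
    have := h.map E.symm
    simpa using this
  apply hsuff
  set P := E π with hP
  have hPirr : Irreducible P := by
    rw [hP]
    exact (MulEquiv.irreducible_iff E).2 hπ
  obtain ⟨b, hb⟩ : ∃ b : k, b = s + 2 * r := ⟨_, rfl⟩
  obtain ⟨c, hc⟩ : ∃ c : k, c = 1 - s ^ 2 / 4 := ⟨_, rfl⟩
  set H : Polynomial (MvPolynomial (Fin 1) k) :=
    Polynomial.X ^ 2 + (Polynomial.C (- C b) * Polynomial.X + Polynomial.C (X 0 ^ 4 - C c)) with hH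
  have hHr : E (hr s r) = H := by
    rw [hr, hH, ← hb, ← hc, map_sub, map_add, map_sub, map_mul, map_pow, map_pow, hE0, hE1,
      hEC, hEC, map_neg, map_sub, map_pow]
    ring
  have hPH : P ∣ H := by
    rw [← hHr, hP]
    exact map_dvd E hdvd
  have hHdeg : H.natDegree = 2 := by
    rw [hH]
    compute_degree!
  have hHmon : H.Monic := by
    rw [hH]
    monicity!
  have hΘH : Θ H = H := by
    have e1 : τ (- C b) = - C b := by rw [map_neg, algHom_C, algebraMap_eq]
    have e2 : τ (X 0 ^ 4 - C c) = X 0 ^ 4 - C c := by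
      rw [map_sub, algHom_C, algebraMap_eq, map_pow, hτX]
      ring
    rw [hH, map_add, map_add, map_pow, map_mul, hΘX, hΘC, hΘC, e1, e2]
  obtain ⟨g, hg⟩ := hPH
  have hlc : P.leadingCoeff * g.leadingCoeff = 1 := by
    rw [← Polynomial.leadingCoeff_mul, ← hg]
    exact hHmon
  have hP0 : P ≠ 0 := hPirr.ne_zero
  have hg0 : g ≠ 0 := by
    rintro rfl
    rw [mul_zero] at hg
    exact hHmon.ne_zero hg
  have hdeg : P.natDegree + g.natDegree = 2 := by
    rw [← Polynomial.natDegree_mul hP0 hg0, ← hg, hHdeg]
  have hcases : P.natDegree = 0 ∨ P.natDegree = 1 ∨ P.natDegree = 2 := by omega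
  rcases hcases with h0 | h1 | h2
  · exfalso
    apply hPirr.not_isUnit
    rw [Polynomial.eq_C_of_natDegree_eq_zero h0]
    apply IsUnit.map
    have : P.coeff 0 = P.leadingCoeff := by rw [Polynomial.leadingCoeff, h0]
    rw [this]
    exact IsUnit.of_mul_eq_one _ hlc
  · -- degree one
    set l := P.leadingCoeff with hl
    set m := g.leadingCoeff with hm
    set α : MvPolynomial (Fin 1) k := - (m * P.coeff 0) with hα
    have hPform : P = Polynomial.C l * (Polynomial.X - Polynomial.C α) := by
      have h3 : P = Polynomial.C (P.coeff 1) * Polynomial.X + Polynomial.C (P.coeff 0) := by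
        exact Polynomial.eq_X_add_C_of_natDegree_le_one h1.le
      have h4 : P.coeff 1 = l := by rw [hl, Polynomial.leadingCoeff, h1]
      rw [h4] at h3
      have h5 : (Polynomial.C l * Polynomial.C m : Polynomial (MvPolynomial (Fin 1) k)) = 1 := by
        rw [← map_mul, hlc, map_one]
      conv_lhs => rw [h3]
      rw [hα, map_neg, map_mul]
      linear_combination (- Polynomial.C (P.coeff 0)) * h5
    have hroot : Polynomial.eval α H = 0 := by
      rw [hg, hPform]
      simp
    have hroot' : α ^ 2 - C b * α + X 0 ^ 4 - C c = 0 := by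
      rw [hH] at hroot
      simp only [Polynomial.eval_add, Polynomial.eval_pow, Polynomial.eval_X, Polynomial.eval_mul,
        Polynomial.eval_C] at hroot
      linear_combination hroot
    have hτα : τ α = α := by
      have h6 : (2 * α - C b) ^ 2 = C (b ^ 2 + 4 * c) - 4 * X 0 ^ 4 := by
        rw [map_add, map_mul, map_pow,
          show (C (4 : k) : MvPolynomial (Fin 1) k) = 4 from map_ofNat C 4]
        linear_combination 4 * hroot'
      have h7 := danb_even _ _ h6
      rw [← hτ, map_sub, map_mul, map_ofNat, algHom_C, algebraMap_eq] at h7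
      have h8 : (2 : MvPolynomial (Fin 1) k) * (τ α - α) = 0 := by linear_combination h7
      have h9 : (2 : MvPolynomial (Fin 1) k) ≠ 0 := by
        rw [show (2 : MvPolynomial (Fin 1) k) = C (2 : k) from (map_ofNat C 2).symm, Ne, C_eq_zero]
        exact two_ne_zero
      exact sub_eq_zero.1 ((mul_eq_zero.1 h8).resolve_left h9)
    have hlu : IsUnit (Polynomial.C l) := IsUnit.map _ (IsUnit.of_mul_eq_one _ hlc)
    have hlu' : IsUnit (Θ (Polynomial.C l)) := hlu.map Θ
    rw [hPform, map_mul, map_sub, hΘX, hΘC α, hτα]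
    exact (associated_isUnit_mul_left_iff hlu').2 ((associated_isUnit_mul_right_iff hlu).2
      (Associated.refl _))
  · -- degree two
    have hg1 : g.natDegree = 0 := by omega
    have hgu : IsUnit g := by
      rw [Polynomial.eq_C_of_natDegree_eq_zero hg1]
      apply IsUnit.map
      have : g.coeff 0 = g.leadingCoeff := by rw [Polynomial.leadingCoeff, hg1]
      rw [this]
      exact IsUnit.of_mul_eq_one_right _ hlc
    have h5 : Associated P H := by
      rw [hg]
      exact (associated_mul_isUnit_right_iff hgu).2 (Associated.refl _)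
    have h6 : Associated (Θ P) (Θ H) := h5.map Θ
    rw [hΘH] at h6
    exact h6.trans h5.symm

end PicJump

end
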