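import Pool.Agent.Lib_helper43.PJ.D
import Pool.Agent.Lib_helper43.PJ.W_ClsA
import Pool.Agent.Lib_helper43.PJ.W_ClsB
import Pool.Agent.Lib_helper43.PJ.W_ClsC
import Pool.Agent.Lib_helper43.PJ.W_DanA

/-!
BLOCK DanC of MP_f6fc0c_ag.
BLOCKS DAN (the quotient of `X_s` by `x -> -x`, `z -> -z` is the surface `p q = w^4 - c y^4`).
Notation: `c = 1 - s^2/4 <> 0`, `p = a^2 + s/2 - u^2`, `q = a^2 + s/2 + u^2`, so `p q = v^4 - c`,
`a^2 = (p + q - s)/2`, `u^2 = (q - p)/2`.  In `A`, the elements `p`, `v` are algebraically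
independent over `k` (`k[p,v]` is a polynomial ring, contained in `A`).
-/

noncomputable section

namespace PicJump

open MvPolynomial

variable {k A : Type} [Field k] [IsAlgClosed k] [CharZero k] [CommRing A] [IsDomain A]
  [Algebra k A] {s : k}

/-- `q = a^2 + s/2 + u^2` -/
def Fib.danq (f : Fib k A s) : A := f.a ^ 2 + algebraMap k A (s / 2) + f.u ^ 2

omit [IsAlgClosed k] [IsDomain A] in
theorem Fib.dan_pq (f : Fib k A s) : f.pp * f.danq = f.v ^ 4 - algebraMap k A (1 - s ^ 2 / 4) := by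
  have h := f.rel
  have e : algebraMap k A (1 - s ^ 2 / 4) = 1 - algebraMap k A (s / 2) ^ 2 := by
    rw [← map_pow, ← map_one (algebraMap k A), ← map_sub]; congr 1; ring
  have e2 : algebraMap k A s = 2 * algebraMap k A (s / 2) := by
    rw [← map_ofNat (algebraMap k A) 2, ← map_mul]; congr 1; field_simp
  rw [e]
  rw [e2] at h
  simp only [Fib.pp, Fib.danq]
  linear_combination h

omit [IsAlgClosed k] [CharZero k] [IsDomain A] in
theorem Fib.dan_const_unit (_f : Fib k A s) {c : k} (hc : c ≠ 0) : IsUnit (algebraMap k A c) :=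
  (isUnit_iff_ne_zero.2 hc).map _

omit [IsAlgClosed k] [CharZero k] [IsDomain A] in
/-- modulo `(p, v - κ)` every element is, up to a unit `t(a)`, of the form `R₀(a) + R₁(a) u` -/
theorem Fib.dan_mod (f : Fib k A s) (κ : k) (x : A) : ∃ (t R₀ R₁ : Polynomial k), t ≠ 0 ∧
    x * Polynomial.aeval f.a t - (Polynomial.aeval f.a R₀ + Polynomial.aeval f.a R₁ * f.u) ∈
      f.cc κ := by
  obtain ⟨t, P, ht, hP⟩ := f.gen x
  have key : ∀ P : MvPolynomial (Fin 3) k, ∃ R₀ R₁ : Polynomial k,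
      aeval ![f.a, f.u, f.v] P - (Polynomial.aeval f.a R₀ + Polynomial.aeval f.a R₁ * f.u) ∈
        f.cc κ := by
    intro P
    have hp : f.pp ∈ f.cc κ := Ideal.subset_span (by simp)
    have hv : f.v - algebraMap k A κ ∈ f.cc κ := Ideal.subset_span (by simp)
    induction P using MvPolynomial.induction_on with
    | C c =>
      refine ⟨Polynomial.C c, 0, ?_⟩
      simp
    | add p q hp hq =>
      obtain ⟨R₀, R₁, h1⟩ := hp
      obtain ⟨S₀, S₁, h2⟩ := hq
      refine ⟨R₀ + S₀, R₁ + S₁, ?_⟩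
      have := add_mem h1 h2
      simp only [map_add] at this ⊢
      convert this using 1; ring
    | mul_X p m hp' =>
      obtain ⟨R₀, R₁, h1⟩ := hp'
      fin_cases m
      · refine ⟨R₀ * Polynomial.X, R₁ * Polynomial.X, ?_⟩
        have := Ideal.mul_mem_right f.a _ h1
        simp only [map_mul, aeval_X, Polynomial.aeval_X] at this ⊢
        convert this using 1
        simp; ring
      · refine ⟨R₁ * (Polynomial.X ^ 2 + Polynomial.C (s / 2)), R₀, ?_⟩
        have h2 := Ideal.mul_mem_right f.u _ h1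
        have h3 := Ideal.mul_mem_left _ (Polynomial.aeval f.a R₁) hp
        have := sub_mem h2 h3
        simp only [map_mul, map_add, map_pow, aeval_X, Polynomial.aeval_X, Polynomial.aeval_C] at this ⊢
        convert this using 1
        simp [Fib.pp]; ring
      · refine ⟨R₀ * Polynomial.C κ, R₁ * Polynomial.C κ, ?_⟩
        have h2 := Ideal.mul_mem_right (algebraMap k A κ) _ h1
        have h3 := Ideal.mul_mem_left _ (aeval ![f.a, f.u, f.v] p) hv
        have := add_mem h2 h3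
        simp only [map_mul, aeval_X, Polynomial.aeval_C] at this ⊢
        convert this using 1
        simp; ring
  obtain ⟨R₀, R₁, h⟩ := key P
  exact ⟨t, R₀, R₁, ht, by rw [hP]; exact h⟩

omit [IsAlgClosed k] [CharZero k] [IsDomain A] in
theorem Fib.dan_unit_not_mem (f : Fib k A s) {Q : Ideal A} (hQ : Q.IsPrime) {R : Polynomial k}
    (hR : Polynomial.aeval f.a R ∈ Q) : R = 0 := by
  by_contra h
  exact hQ.ne_top (Ideal.eq_top_of_isUnit_mem _ hR (f.unit R h))

theorem Fib.cc_ne_bot (f : Fib k A s) (κ : k) : f.cc κ ≠ ⊥ := by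
  intro h
  have hp : f.pp ∈ f.cc κ := Ideal.subset_span (by simp)
  rw [h] at hp
  exact f.pp_ne_zero hp

omit [IsDomain A] in
theorem Fib.cc_ne_top (f : Fib k A s) {κ : k} (hκ : κ ^ 4 = 1 - s ^ 2 / 4) :
    f.cc κ ≠ ⊤ := by
  intro h
  have h1 : (1 : A) ∈ f.cc κ := h ▸ Submodule.mem_top
  obtain ⟨x, y, hxy⟩ := Ideal.mem_span_pair.1 h1
  obtain ⟨t1, P1, ht1, hP1⟩ := f.gen x
  obtain ⟨t2, P2, ht2, hP2⟩ := f.gen y
  -- a polynomial identity modulo the relation
  have key : aeval ![f.a, f.u, f.v] (P1 * (X 0 ^ 2 + C (s / 2) - X 1 ^ 2) *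
      Polynomial.aeval (X 0 : MvPolynomial (Fin 3) k) t2 + P2 * (X 2 - C κ) *
      Polynomial.aeval (X 0 : MvPolynomial (Fin 3) k) t1 -
      Polynomial.aeval (X 0 : MvPolynomial (Fin 3) k) (t1 * t2)) = 0 := by
    have e1 : ∀ t : Polynomial k, aeval ![f.a, f.u, f.v]
        (Polynomial.aeval (X 0 : MvPolynomial (Fin 3) k) t) = Polynomial.aeval f.a t := by
      intro t
      rw [← Polynomial.aeval_algHom_apply]; simp
    have e2 : aeval ![f.a, f.u, f.v] (X 0 ^ 2 + C (s / 2) - X 1 ^ 2 : MvPolynomial (Fin 3) k) =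
        f.pp := by simp [Fib.pp]
    have e3 : aeval ![f.a, f.u, f.v] (X 2 - C κ : MvPolynomial (Fin 3) k) =
        f.v - algebraMap k A κ := by simp
    rw [map_sub, map_add, map_mul, map_mul, map_mul, map_mul, e1, e1, e1, e2, e3, map_mul, ← hP1,
      ← hP2]
    linear_combination (Polynomial.aeval f.a t1 * Polynomial.aeval f.a t2) * hxy
  obtain ⟨Z, hZ⟩ := f.inj _ key
  -- evaluate at a point
  obtain ⟨a0, ha0⟩ : ∃ a0 : k, (t1 * t2).eval a0 ≠ 0 := by
    by_contra hcon
    push Not at hcon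
    exact mul_ne_zero ht1 ht2 (Polynomial.funext fun x => by simpa using hcon x)
  obtain ⟨u0, hu0⟩ : ∃ u0 : k, u0 ^ 2 = a0 ^ 2 + s / 2 :=
    IsAlgClosed.exists_pow_nat_eq _ (by norm_num)
  have h2 := congrArg (eval ![a0, u0, κ]) hZ
  have e1 : ∀ t : Polynomial k, eval ![a0, u0, κ]
      (Polynomial.aeval (X 0 : MvPolynomial (Fin 3) k) t) = t.eval a0 := by
    intro t
    have : eval ![a0, u0, κ] (Polynomial.aeval (X 0 : MvPolynomial (Fin 3) k) t) =
        aeval ![a0, u0, κ] (Polynomial.aeval (X 0 : MvPolynomial (Fin 3) k) t) := rfl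
    rw [this, ← Polynomial.aeval_algHom_apply]; simp
  simp only [map_sub, map_add, map_mul, map_pow, eval_X, eval_C] at h2
  simp only [← map_mul, e1] at h2
  have e4 : eval ![a0, u0, κ] (relPoly s) = 0 := by
    simp [relPoly]
    have : u0 ^ 4 = (a0 ^ 2 + s / 2) ^ 2 := by rw [← hu0]; ring
    rw [this, hκ]; ring
  rw [map_mul, e4, zero_mul] at h2
  apply ha0
  simp at h2 ⊢
  rw [hu0] at h2
  simpa using h2

variable [IsDedekindDomain A]

/-- product of two of the ideals -/
theorem Fib.dan_mul (f : Fib k A s) (x y : A) (h : ∃ r t : A, r * x + t * y = 1) :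
    Ideal.span {f.pp, x} * Ideal.span {f.pp, y} = Ideal.span {f.pp, x * y} := by
  obtain ⟨r, t, hrt⟩ := h
  rw [Ideal.span_pair_mul_span_pair]
  apply le_antisymm
  · rw [Ideal.span_le]
    rintro z (rfl | rfl | rfl | rfl)
    · exact Ideal.mul_mem_left _ _ (Ideal.subset_span (by simp))
    · exact Ideal.mul_mem_right _ _ (Ideal.subset_span (by simp))
    · exact Ideal.mul_mem_left _ _ (Ideal.subset_span (by simp))
    · exact Ideal.subset_span (by simp)
  · rw [Ideal.span_le]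
    rintro z (rfl | rfl)
    · have : f.pp = r * (x * f.pp) + t * (f.pp * y) := by
        linear_combination (-f.pp) * hrt
      have h2 : r * (x * f.pp) + t * (f.pp * y) ∈
          Ideal.span {f.pp * f.pp, f.pp * y, x * f.pp, x * y} :=
        add_mem (Ideal.mul_mem_left _ _ (Ideal.subset_span (by simp)))
          (Ideal.mul_mem_left _ _ (Ideal.subset_span (by simp)))
      rw [← this] at h2
      exact h2
    · exact Ideal.subset_span (by simp)

/-- the product of two of the ideals `(p, v - κ)` -/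
theorem Fib.dan_cc_mul (f : Fib k A s) {κ κ' : k} (h : κ ≠ κ') :
    f.cc κ * f.cc κ' =
      Ideal.span {f.pp, (f.v - algebraMap k A κ) * (f.v - algebraMap k A κ')} := by
  apply f.dan_mul
  refine ⟨algebraMap k A (κ' - κ)⁻¹, - algebraMap k A (κ' - κ)⁻¹, ?_⟩
  have h1 : algebraMap k A (κ' - κ)⁻¹ * algebraMap k A (κ' - κ) = 1 := by
    rw [← map_mul, inv_mul_cancel₀ (sub_ne_zero.2 (Ne.symm h)), map_one]
  rw [map_sub] at h1
  linear_combination h1

/-- the product of the four ideals is `(p)` -/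
theorem Fib.dan_prod (f : Fib k A s) {i κ : k} (hi : i ^ 2 = -1) (hκ0 : κ ≠ 0)
    (hκ : κ ^ 4 = 1 - s ^ 2 / 4) :
    (f.cc κ * f.cc (-κ)) * (f.cc (i * κ) * f.cc (-(i * κ))) = Ideal.span {f.pp} := by
  have hi0 : i ≠ 0 := by rintro rfl; simp at hi
  have h2 : (2 : k) ≠ 0 := two_ne_zero
  have n1 : κ ≠ -κ := by
    intro h; apply hκ0
    have : 2 * κ = 0 := by linear_combination h
    exact (mul_eq_zero.1 this).resolve_left h2
  have n2 : i * κ ≠ -(i * κ) := by
    intro h; apply mul_ne_zero hi0 hκ0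
    have : 2 * (i * κ) = 0 := by linear_combination h
    exact (mul_eq_zero.1 this).resolve_left h2
  rw [f.dan_cc_mul n1, f.dan_cc_mul n2, f.dan_mul]
  · have e : (f.v - algebraMap k A κ) * (f.v - algebraMap k A (-κ)) *
        ((f.v - algebraMap k A (i * κ)) * (f.v - algebraMap k A (-(i * κ)))) = f.pp * f.danq := by
      rw [f.dan_pq, ← hκ]
      simp only [map_neg, map_mul, map_pow]
      have hi' : algebraMap k A i ^ 2 = -1 := by rw [← map_pow, hi]; simp
      linear_combination (-(algebraMap k A κ) ^ 2 * (f.v ^ 2 - algebraMap k A κ ^ 2)) * hi'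
    rw [e]
    apply le_antisymm
    · rw [Ideal.span_le]
      rintro z (rfl | rfl)
      · exact Ideal.mem_span_singleton_self _
      · exact Ideal.mul_mem_right _ _ (Ideal.mem_span_singleton_self _)
    · rw [Ideal.span_singleton_le_iff_mem]; exact Ideal.subset_span (by simp)
  · refine ⟨- algebraMap k A (2 * κ ^ 2)⁻¹, algebraMap k A (2 * κ ^ 2)⁻¹, ?_⟩
    have h1 : algebraMap k A (2 * κ ^ 2)⁻¹ * algebraMap k A (2 * κ ^ 2) = 1 := by
      rw [← map_mul, inv_mul_cancel₀ (mul_ne_zero h2 (pow_ne_zero 2 hκ0)), map_one]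
    have hi' : algebraMap k A i ^ 2 = -1 := by rw [← map_pow, hi]; simp
    simp only [map_mul, map_pow, map_ofNat, map_neg] at h1 ⊢
    linear_combination h1 - (algebraMap k A (2 * κ ^ 2)⁻¹ * algebraMap k A κ ^ 2) * hi'

omit [IsAlgClosed k] in
/-- elements of a prime containing `(p, v - κ)` are in `Q^2 + (p, v - κ)` -/
theorem Fib.dan_sq (f : Fib k A s) {κ : k} {Q : Ideal A} (hQ : Q.IsPrime) (h : f.cc κ ≤ Q) :
    Q ≤ Q ^ 2 ⊔ f.cc κ := by
  intro x hx
  obtain ⟨t, R₀, R₁, ht, hR⟩ := f.dan_mod κ x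
  set y := Polynomial.aeval f.a R₀ + Polynomial.aeval f.a R₁ * f.u with hy
  have hyQ : y ∈ Q := by
    have e : y = x * Polynomial.aeval f.a t - (x * Polynomial.aeval f.a t - y) := by ring
    rw [e]; exact sub_mem (Ideal.mul_mem_right _ _ hx) (h hR)
  have hp : f.pp ∈ f.cc κ := Ideal.subset_span (by simp)
  -- the norm
  have hN : R₀ ^ 2 - R₁ ^ 2 * (Polynomial.X ^ 2 + Polynomial.C (s / 2)) = 0 := by
    apply f.dan_unit_not_mem hQ
    have e : Polynomial.aeval f.a (R₀ ^ 2 - R₁ ^ 2 * (Polynomial.X ^ 2 + Polynomial.C (s / 2))) =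
        y * (Polynomial.aeval f.a R₀ - Polynomial.aeval f.a R₁ * f.u) -
          (Polynomial.aeval f.a R₁) ^ 2 * f.pp := by
      simp only [map_sub, map_mul, map_pow, map_add, Polynomial.aeval_X, Polynomial.aeval_C, hy, Fib.pp]
      ring
    rw [e]
    exact sub_mem (Ideal.mul_mem_right _ _ hyQ) (Ideal.mul_mem_left _ _ (h hp))
  have hyS : y ∈ Q ^ 2 ⊔ f.cc κ := by
    by_cases hR0 : R₀ = 0
    · rw [hR0] at hN
      have h1 : R₁ ^ 2 * (Polynomial.X ^ 2 + Polynomial.C (s / 2)) = 0 := by linear_combination -hN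
      have h2 : (Polynomial.X ^ 2 + Polynomial.C (s / 2) : Polynomial k) ≠ 0 := by
        intro h0
        have := congrArg (fun p => Polynomial.coeff p 2) h0
        simp [Polynomial.coeff_C] at this
      have h3 : R₁ = 0 := by
        have := (mul_eq_zero.1 h1).resolve_right h2
        exact pow_eq_zero_iff (two_ne_zero) |>.1 this
      rw [hy, hR0, h3]; simp
    · obtain ⟨w, hw⟩ := ((f.dan_const_unit (c := 2) two_ne_zero).mul (f.unit R₀ hR0)).exists_right_inv
      have e1 : Polynomial.aeval f.a R₀ ^ 2 - Polynomial.aeval f.a R₁ ^ 2 *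
          (f.a ^ 2 + algebraMap k A (s / 2)) = 0 := by
        have := congrArg (Polynomial.aeval f.a) hN
        simpa using this
      have e : y = w * y ^ 2 + w * (Polynomial.aeval f.a R₁ ^ 2 * f.pp) := by
        simp only [map_ofNat] at hw
        have e3 : y ^ 2 + Polynomial.aeval f.a R₁ ^ 2 * f.pp = 2 * Polynomial.aeval f.a R₀ * y := by
          simp only [hy, Fib.pp]
          linear_combination -e1
        calc y = (2 * Polynomial.aeval f.a R₀ * w) * y := by rw [hw, one_mul]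
          _ = w * (2 * Polynomial.aeval f.a R₀ * y) := by ring
          _ = _ := by rw [← e3]; ring
      rw [e]
      exact Submodule.add_mem_sup (Ideal.mul_mem_left _ _ (Ideal.pow_mem_pow hyQ 2))
        (Ideal.mul_mem_left _ _ (Ideal.mul_mem_left _ _ hp))
  obtain ⟨w, hw⟩ := (f.unit t ht).exists_right_inv
  have e : x = w * ((x * Polynomial.aeval f.a t - y) + y) := by
    linear_combination (-x) * hw
  rw [e]
  exact Ideal.mul_mem_left _ _ (add_mem (Ideal.mem_sup_right hR) hyS)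

/-- DAN-C. the four ideals are pairwise coprime and radical, with product `(p)` -/
theorem Fib.vI_cc (f : Fib k A s) (hs : s ^ 2 ≠ 4) {i κ : k} (hi : i ^ 2 = -1)
    (hκ : κ ^ 4 = 1 - s ^ 2 / 4) (Q : Ideal A) (hQ : Q.IsPrime) (hQ0 : Q ≠ ⊥) :
    (f.pp ∈ Q → ∃ j : Fin 4, ∀ l : Fin 4, vI Q (f.cc (i ^ (l : ℕ) * κ)) = if l = j then 1 else 0) ∧
    (f.pp ∉ Q → ∀ l : Fin 4, vI Q (f.cc (i ^ (l : ℕ) * κ)) = 0) := by
  have hκ0 : κ ≠ 0 := by
    rintro rfl
    apply hs
    have : 1 - s ^ 2 / 4 = 0 := by rw [← hκ]; simp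
    linear_combination -4 * this
  have hi0 : i ≠ 0 := by rintro rfl; simp at hi
  have hpcc : ∀ κ', f.pp ∈ f.cc κ' := fun κ' => Ideal.subset_span (by simp)
  have hvcc : ∀ κ', f.v - algebraMap k A κ' ∈ f.cc κ' := fun κ' => Ideal.subset_span (by simp)
  have hzero : ∀ κ', ¬ (f.cc κ' ≤ Q) → vI Q (f.cc κ') = 0 := by
    intro κ' h
    by_contra h0
    exact h ((vI_pos_iff hQ hQ0 (f.cc_ne_bot κ')).1 (Nat.pos_of_ne_zero h0))
  refine ⟨fun hp => ?_, fun hp l => hzero _ fun h => hp (h (hpcc _))⟩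
  -- the fourth powers of `i ^ l κ`
  have h4 : ∀ l : ℕ, (i ^ l * κ) ^ 4 = 1 - s ^ 2 / 4 := by
    intro l
    rw [mul_pow, ← pow_mul, mul_comm l 4, pow_mul, show i ^ 4 = 1 by
      rw [show (4 : ℕ) = 2 * 2 by norm_num, pow_mul, hi]; norm_num, one_pow, one_mul, hκ]
  -- distinctness
  have hdist : ∀ l j : Fin 4, l ≠ j → i ^ (l : ℕ) * κ ≠ i ^ (j : ℕ) * κ := by
    intro l j hlj h
    have h1 : i ^ (l : ℕ) = i ^ (j : ℕ) := mul_right_cancel₀ hκ0 h
    have h2 : (2 : k) ≠ 0 := two_ne_zero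
    have hi1 : i ≠ 1 := by
      intro h; rw [h] at hi; apply h2; linear_combination hi
    have hi2 : i ≠ -1 := by
      intro h; rw [h] at hi; apply h2; linear_combination hi
    have e3 : i ^ 3 = -i := by rw [show (3 : ℕ) = 2 + 1 by norm_num, pow_succ, hi]; ring
    have hii : i ≠ -i := by
      intro h; apply mul_ne_zero h2 hi0; linear_combination h
    have h12 : (1 : k) ≠ -1 := by
      intro h; apply h2; linear_combination h
    fin_cases l <;> fin_cases j <;> simp [e3, hi] at h1 hlj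
    all_goals first
      | exact hi1 h1.symm
      | exact hi1 h1
      | exact hi2 h1
      | exact hi2 h1.symm
      | exact hii h1
      | exact hii h1.symm
      | exact h12 h1
      | exact h12 h1.symm
      | exact hi2 (by linear_combination -h1)
      | exact hi2 (by linear_combination h1)
      | exact hi1 (by linear_combination -h1)
      | exact hi1 (by linear_combination h1)
  -- some `v - i^j κ` is in `Q`
  obtain ⟨j, hj⟩ : ∃ j : Fin 4, f.v - algebraMap k A (i ^ (j : ℕ) * κ) ∈ Q := by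
    have h1 : (f.v - algebraMap k A κ) * (f.v - algebraMap k A (-κ)) *
        ((f.v - algebraMap k A (i * κ)) * (f.v - algebraMap k A (-(i * κ)))) ∈ Q := by
      have e : (f.v - algebraMap k A κ) * (f.v - algebraMap k A (-κ)) *
          ((f.v - algebraMap k A (i * κ)) * (f.v - algebraMap k A (-(i * κ)))) = f.pp * f.danq := by
        rw [f.dan_pq, ← hκ]
        simp only [map_neg, map_mul, map_pow]
        have hi' : algebraMap k A i ^ 2 = -1 := by rw [← map_pow, hi]; simp
        linear_combination (-(algebraMap k A κ) ^ 2 * (f.v ^ 2 - algebraMap k A κ ^ 2)) * hi'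
      rw [e]; exact Ideal.mul_mem_right _ _ hp
    rcases hQ.mem_or_mem h1 with h | h <;> rcases hQ.mem_or_mem h with h | h
    · exact ⟨0, by simpa using h⟩
    · refine ⟨2, ?_⟩
      have : i ^ ((2 : Fin 4) : ℕ) * κ = -κ := by
        change i ^ 2 * κ = _
        rw [hi]; ring
      rw [this]; exact h
    · exact ⟨1, by simpa using h⟩
    · refine ⟨3, ?_⟩
      have : i ^ ((3 : Fin 4) : ℕ) * κ = -(i * κ) := by
        change i ^ 3 * κ = _
        rw [show (3 : ℕ) = 2 + 1 by norm_num, pow_succ, hi]; ring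
      rw [this]; exact h
  refine ⟨j, fun l => ?_⟩
  by_cases hlj : l = j
  · rw [if_pos hlj, hlj]
    have hle : f.cc (i ^ (j : ℕ) * κ) ≤ Q := by
      rw [Fib.cc, Ideal.span_le]
      rintro z (rfl | rfl)
      · exact hp
      · exact hj
    have h1 : 0 < vI Q (f.cc (i ^ (j : ℕ) * κ)) := (vI_pos_iff hQ hQ0 (f.cc_ne_bot _)).2 hle
    have h2 : ¬ (2 ≤ vI Q (f.cc (i ^ (j : ℕ) * κ))) := by
      intro h2
      have h3 := (le_pow_iff hQ hQ0 (f.cc_ne_bot _) 2).2 h2
      have h4 : Q ≤ Q ^ 2 := (f.dan_sq hQ hle).trans (sup_le le_rfl h3)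
      have h5 : vI Q Q = 1 := vI_self hQ hQ0
      have h6 := (le_pow_iff hQ hQ0 hQ0 2).1 h4
      omega
    omega
  · rw [if_neg hlj]
    apply hzero
    intro hle
    have h1 := hle (hvcc _)
    have h2 : algebraMap k A (i ^ (l : ℕ) * κ - i ^ (j : ℕ) * κ) ∈ Q := by
      have e : algebraMap k A (i ^ (l : ℕ) * κ - i ^ (j : ℕ) * κ) =
          (f.v - algebraMap k A (i ^ (j : ℕ) * κ)) - (f.v - algebraMap k A (i ^ (l : ℕ) * κ)) := by
        rw [map_sub]; ring
      rw [e]; exact sub_mem hj h1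
    exact hQ.ne_top (Ideal.eq_top_of_isUnit_mem _ h2
      (f.dan_const_unit (sub_ne_zero.2 (hdist l j hlj))))


omit [IsAlgClosed k] [CharZero k] [IsDomain A] [IsDedekindDomain A] in
/-- the automorphism `γ` acts on polynomials in `a` trivially -/
theorem Fib.dan_gamma (f : Fib k A s) (γ : A ≃ₐ[k] A) (hγ : f.IsAut γ f.a (-f.u) f.v)
    (t : Polynomial k) : γ (Polynomial.aeval f.a t) = Polynomial.aeval f.a t := by
  have h1 := Polynomial.aeval_algHom_apply (γ : A →ₐ[k] A) f.a t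
  have h2 : (γ : A →ₐ[k] A) f.a = f.a := hγ.1
  rw [h2] at h1
  exact h1.symm

/-- the primes containing `(p, v - κ)` are permuted transitively by `α`, `γ` -/
theorem Fib.primes_cc (f : Fib k A s) (hs : s ^ 2 ≠ 4) {κ : k} (hκ : κ ^ 4 = 1 - s ^ 2 / 4)
    (γ : A ≃ₐ[k] A) (hγ : f.IsAut γ f.a (-f.u) f.v) (Q Q' : Ideal A) (hQ : Q.IsPrime)
    (hQ' : Q'.IsPrime) (h : f.cc κ ≤ Q) (h' : f.cc κ ≤ Q') :
    Q' = Q ∨ Q' = Q.map (γ : A →+* A) := by
  have hp : f.pp ∈ f.cc κ := Ideal.subset_span (by simp)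
  have hv : f.v - algebraMap k A κ ∈ f.cc κ := Ideal.subset_span (by simp)
  -- `γ` is an involution
  have hinv : ∀ x, γ (γ x) = x := by
    intro x
    obtain ⟨t, P, ht, hP⟩ := f.gen x
    have hΓ : ((γ : A →ₐ[k] A).comp (γ : A →ₐ[k] A)).comp (aeval ![f.a, f.u, f.v]) =
        (aeval ![f.a, f.u, f.v] : MvPolynomial (Fin 3) k →ₐ[k] A) := by
      apply MvPolynomial.algHom_ext
      intro m
      fin_cases m
      · simp [hγ.1]
      · simp [hγ.2.1]
      · simp [hγ.2.2]
    have hPP : γ (γ (aeval ![f.a, f.u, f.v] P)) = aeval ![f.a, f.u, f.v] P :=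
      congrArg (fun φ : MvPolynomial (Fin 3) k →ₐ[k] A => φ P) hΓ
    have hu := f.unit t ht
    apply hu.mul_right_cancel
    have e := f.dan_gamma γ hγ t
    calc γ (γ x) * Polynomial.aeval f.a t = γ (γ (x * Polynomial.aeval f.a t)) := by
          rw [map_mul, map_mul, e, e]
      _ = _ := by rw [hP, hPP]
  have hmapcc : ∀ x ∈ f.cc κ, γ x ∈ f.cc κ := by
    intro x hx
    obtain ⟨y, z, rfl⟩ := Ideal.mem_span_pair.1 hx
    have e1 : γ f.pp = f.pp := by
      simp only [Fib.pp, map_sub, map_add, map_pow, hγ.1, hγ.2.1, AlgEquiv.commutes]; ring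
    have e2 : γ (f.v - algebraMap k A κ) = f.v - algebraMap k A κ := by
      rw [map_sub, hγ.2.2, AlgEquiv.commutes]
    rw [map_add, map_mul, map_mul, e1, e2]
    exact add_mem (Ideal.mul_mem_left _ _ hp) (Ideal.mul_mem_left _ _ hv)
  have hmemmap : ∀ x, x ∈ Q.map (γ : A →+* A) ↔ γ x ∈ Q := by
    intro x
    have h1 : Q.map (γ : A →+* A) = Q.comap (γ.symm : A →+* A) :=
      Ideal.map_comap_of_equiv (γ : A ≃+* A)
    have h2 : γ.symm x = γ x := by
      rw [AlgEquiv.symm_apply_eq, hinv]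
    rw [h1, Ideal.mem_comap]
    change γ.symm x ∈ Q ↔ _
    rw [h2]
  have hmapp : (Q.map (γ : A →+* A)).IsPrime := Ideal.map_isPrime_of_equiv (γ : A ≃+* A)
  -- the union
  have hunion : ∀ z ∈ Q', z ∈ Q ∨ z ∈ Q.map (γ : A →+* A) := by
    intro z hz
    rw [hmemmap]
    obtain ⟨t, R₀, R₁, ht, hR⟩ := f.dan_mod κ z
    set y := Polynomial.aeval f.a R₀ + Polynomial.aeval f.a R₁ * f.u with hy
    have hyQ : y ∈ Q' := by
      have e : y = z * Polynomial.aeval f.a t - (z * Polynomial.aeval f.a t - y) := by ring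
      rw [e]; exact sub_mem (Ideal.mul_mem_right _ _ hz) (h' hR)
    have hN : R₀ ^ 2 - R₁ ^ 2 * (Polynomial.X ^ 2 + Polynomial.C (s / 2)) = 0 := by
      apply f.dan_unit_not_mem hQ'
      have e : Polynomial.aeval f.a (R₀ ^ 2 - R₁ ^ 2 * (Polynomial.X ^ 2 + Polynomial.C (s / 2))) =
          y * (Polynomial.aeval f.a R₀ - Polynomial.aeval f.a R₁ * f.u) -
            (Polynomial.aeval f.a R₁) ^ 2 * f.pp := by
        simp only [map_sub, map_mul, map_pow, map_add, Polynomial.aeval_X, Polynomial.aeval_C, hy,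
          Fib.pp]
        ring
      rw [e]
      exact sub_mem (Ideal.mul_mem_right _ _ hyQ) (Ideal.mul_mem_left _ _ (h' hp))
    have e1 : Polynomial.aeval f.a R₀ ^ 2 - Polynomial.aeval f.a R₁ ^ 2 *
        (f.a ^ 2 + algebraMap k A (s / 2)) = 0 := by
      have := congrArg (Polynomial.aeval f.a) hN
      simpa using this
    -- `y * γ y ∈ cc`
    have hyy : y * γ y ∈ Q := by
      have e2 : γ y = Polynomial.aeval f.a R₀ - Polynomial.aeval f.a R₁ * f.u := by
        rw [hy, map_add, map_mul, f.dan_gamma γ hγ, f.dan_gamma γ hγ, hγ.2.1]; ring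
      have e3 : y * γ y = Polynomial.aeval f.a R₁ ^ 2 * f.pp := by
        rw [e2, hy]; simp only [Fib.pp]; linear_combination e1
      rw [e3]; exact h (Ideal.mul_mem_left _ _ hp)
    have hzz : (z * γ z) * (Polynomial.aeval f.a t) ^ 2 ∈ Q := by
      have e4 : (z * γ z) * (Polynomial.aeval f.a t) ^ 2 =
          (z * Polynomial.aeval f.a t - y) * γ (z * Polynomial.aeval f.a t) +
          y * γ (z * Polynomial.aeval f.a t - y) + y * γ y := by
        rw [map_sub, map_mul, f.dan_gamma γ hγ]; ring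
      rw [e4]
      exact add_mem (add_mem (Ideal.mul_mem_right _ _ (h hR))
        (Ideal.mul_mem_left _ _ (h (hmapcc _ hR)))) hyy
    have hzz' : z * γ z ∈ Q := by
      refine (hQ.mem_or_mem hzz).resolve_right fun hc => ?_
      have := hQ.mem_of_pow_mem 2 hc
      exact ht (f.dan_unit_not_mem hQ this)
    exact hQ.mem_or_mem hzz'
  have hsub : (Q' : Set A) ⊆ Q ∪ (Q.map (γ : A →+* A) : Ideal A) := hunion
  have hmax' : Q'.IsMaximal := hQ'.isMaximal (fun h0 => f.cc_ne_bot κ (le_bot_iff.1 (h0 ▸ h')))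
  rcases (Ideal.subset_union).1 hsub with h1 | h1
  · exact Or.inl (hmax'.eq_of_le hQ.ne_top h1)
  · exact Or.inr (hmax'.eq_of_le hmapp.ne_top h1)

/-- DAN-C. `(p, v - κ) (p, v + κ)` is principal.  With `i^2 = -1`, put
`g = p + i (v^2 - κ^2)`, `g' = p - i (v^2 - κ'^2)...`: precisely, with `ρ = i κ^2`, `ρ^2 = -c`,
`g = p - ρ + i v^2`, `g' = p - ρ - i v^2`, one has `g g' = 2 p (a^2 - r)`, `r = ρ - s/2`, where
`a^2 - r` is a unit, `g` is in `(p, v - κ)(p, v + κ)`, `g'` is in `(p, v - iκ)(p, v + iκ)`, and the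
product of the four ideals `(p, v - i^j κ)` is `(p)`. -/
theorem Fib.cls_cc_neg (f : Fib k A s) (hs : s ^ 2 ≠ 4) {κ : k} (hκ : κ ^ 4 = 1 - s ^ 2 / 4) :
    cls (f.cc κ) + cls (f.cc (-κ)) = 0 := by
  obtain ⟨i, hi⟩ : ∃ i : k, i ^ 2 = -1 := IsAlgClosed.exists_pow_nat_eq _ (by norm_num)
  have hκ0 : κ ≠ 0 := by
    rintro rfl
    apply hs
    have : 1 - s ^ 2 / 4 = 0 := by rw [← hκ]; simp
    linear_combination -4 * this
  have hi0 : i ≠ 0 := by rintro rfl; simp at hi
  have h2 : (2 : k) ≠ 0 := two_ne_zero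
  have n1 : κ ≠ -κ := by
    intro h; apply hκ0
    have : 2 * κ = 0 := by linear_combination h
    exact (mul_eq_zero.1 this).resolve_left h2
  have n2 : i * κ ≠ -(i * κ) := by
    intro h; apply mul_ne_zero hi0 hκ0
    have : 2 * (i * κ) = 0 := by linear_combination h
    exact (mul_eq_zero.1 this).resolve_left h2
  have hi' : algebraMap k A i ^ 2 = -1 := by rw [← map_pow, hi]; simp
  have hprod := f.dan_prod hi hκ0 hκ
  set J1 := f.cc κ * f.cc (-κ) with hJ1
  set J2 := f.cc (i * κ) * f.cc (-(i * κ)) with hJ2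
  have hJ10 : J1 ≠ ⊥ := mul_ne_zero (f.cc_ne_bot _) (f.cc_ne_bot _)
  have hJ20 : J2 ≠ ⊥ := mul_ne_zero (f.cc_ne_bot _) (f.cc_ne_bot _)
  have e1 : J1 = Ideal.span {f.pp, (f.v - algebraMap k A κ) * (f.v - algebraMap k A (-κ))} :=
    f.dan_cc_mul n1
  have e2 : J2 = Ideal.span {f.pp, (f.v - algebraMap k A (i * κ)) *
      (f.v - algebraMap k A (-(i * κ)))} := f.dan_cc_mul n2
  set g : A := f.pp + algebraMap k A i * (f.v ^ 2 - algebraMap k A κ ^ 2) with hg
  set g' : A := f.pp - algebraMap k A i * (f.v ^ 2 + algebraMap k A κ ^ 2) with hg'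
  have hg1 : Ideal.span {g} ≤ J1 := by
    rw [Ideal.span_singleton_le_iff_mem, e1, Ideal.mem_span_pair]
    exact ⟨1, algebraMap k A i, by rw [hg]; simp only [map_neg]; ring⟩
  have hg2 : Ideal.span {g'} ≤ J2 := by
    rw [Ideal.span_singleton_le_iff_mem, e2, Ideal.mem_span_pair]
    refine ⟨1, - algebraMap k A i, ?_⟩
    rw [hg']; simp only [map_neg, map_mul]
    linear_combination (algebraMap k A i * algebraMap k A κ ^ 2) * hi'
  obtain ⟨I1, hI1⟩ := Ideal.dvd_iff_le.2 hg1
  obtain ⟨I2, hI2⟩ := Ideal.dvd_iff_le.2 hg2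
  -- the product of `g` and `g'`
  have hgg : g * g' = f.pp * (2 * (f.a ^ 2 - algebraMap k A (i * κ ^ 2 - s / 2))) := by
    have hpq := f.dan_pq
    rw [← hκ] at hpq
    have e3 : f.pp + f.danq = 2 * f.a ^ 2 + 2 * algebraMap k A (s / 2) := by
      simp only [Fib.pp, Fib.danq]; ring
    simp only [map_sub, map_mul, map_pow] at hpq ⊢
    rw [hg, hg']
    linear_combination -hpq + f.pp * e3 + (-(f.v ^ 4 - algebraMap k A κ ^ 4)) * hi'
  have hunit : IsUnit (2 * (f.a ^ 2 - algebraMap k A (i * κ ^ 2 - s / 2))) := by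
    have h3 := f.unit (Polynomial.X ^ 2 - Polynomial.C (i * κ ^ 2 - s / 2)) (by
      intro h0
      have := congrArg (fun p => Polynomial.coeff p 2) h0
      simp only [Polynomial.coeff_sub, Polynomial.coeff_X_pow, Polynomial.coeff_C,
        Polynomial.coeff_zero] at this
      norm_num at this)
    have h4 := f.dan_const_unit (c := 2) two_ne_zero
    rw [map_ofNat] at h4
    exact h4.mul (by simpa using h3)
  have hgg' : Ideal.span {g} * Ideal.span {g'} = Ideal.span {f.pp} := by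
    rw [Ideal.span_singleton_mul_span_singleton, hgg]
    exact Ideal.span_singleton_mul_right_unit hunit _
  have hI : I1 * I2 = ⊤ := by
    have h4 : (J1 * J2) * (I1 * I2) = (J1 * J2) * ⊤ := by
      rw [Ideal.mul_top]
      calc (J1 * J2) * (I1 * I2) = (J1 * I1) * (J2 * I2) := by ring
        _ = J1 * J2 := by rw [← hI1, ← hI2, hgg', hprod]
    exact mul_left_cancel₀ (mul_ne_zero hJ10 hJ20) h4
  have hI1' : I1 = ⊤ := by
    rw [eq_top_iff, ← hI]; exact Ideal.mul_le_left
  have h5 : J1 = Ideal.span {g} := by rw [hI1, hI1', Ideal.mul_top]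
  rw [← cls_mul (f.cc_ne_bot _) (f.cc_ne_bot _), ← hJ1, h5, cls_span_singleton]

end PicJump

end
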