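import Pool.Agent.Lib_helper43.PJ.D
import Pool.Agent.Lib_helper43.PJ.W_ClsA
import Pool.Agent.Lib_helper43.PJ.W_ClsB
import Pool.Agent.Lib_helper43.PJ.W_ClsC
import Pool.Agent.Lib_helper43.PJ.W_DanA
import Pool.Agent.Lib_helper43.PJ.W_DanC

/-!
BLOCK DanD of MP_f6fc0c_ag.
BLOCKS DAN (the quotient of `X_s` by `x -> -x`, `z -> -z` is the surface `p q = w^4 - c y^4`).
Notation: `c = 1 - s^2/4 <> 0`, `p = a^2 + s/2 - u^2`, `q = a^2 + s/2 + u^2`, so `p q = v^4 - c`,
`a^2 = (p + q - s)/2`, `u^2 = (q - p)/2`.  In `A`, the elements `p`, `v` are algebraically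
independent over `k` (`k[p,v]` is a polynomial ring, contained in `A`).
-/

noncomputable section

namespace PicJump

open MvPolynomial

/-- a nonmaximal prime of `k[p,v]` which contains an irreducible `π` is generated by it -/
theorem dan_plane_prime {k : Type} [Field k] (π : MvPolynomial (Fin 2) k) (hπ : Irreducible π)
    (q : Ideal (MvPolynomial (Fin 2) k)) (hq : q.IsPrime) (hmem : π ∈ q) (hm : ¬ q.IsMaximal) :
    q = Ideal.span {π} := by
  by_contra hne
  have hπp : Prime π := hπ.prime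
  have h1 : (Ideal.span {π}).IsPrime := (Ideal.span_singleton_prime hπ.ne_zero).2 hπp
  have hle : Ideal.span {π} ≤ q := by rwa [Ideal.span_singleton_le_iff_mem]
  have hlt : Ideal.span {π} < q := lt_of_le_of_ne hle (Ne.symm hne)
  obtain ⟨M, hM, hqM⟩ := Ideal.exists_le_maximal q hq.ne_top
  have hlt2 : q < M := lt_of_le_of_ne hqM (fun h => hm (h ▸ hM))
  have hlt0 : (⊥ : Ideal (MvPolynomial (Fin 2) k)) < Ideal.span {π} := by
    rw [bot_lt_iff_ne_bot, Ne, Ideal.span_singleton_eq_bot]; exact hπ.ne_zero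
  let P0 : PrimeSpectrum (MvPolynomial (Fin 2) k) := ⟨⊥, Ideal.isPrime_bot⟩
  let P1 : PrimeSpectrum (MvPolynomial (Fin 2) k) := ⟨Ideal.span {π}, h1⟩
  let P2 : PrimeSpectrum (MvPolynomial (Fin 2) k) := ⟨q, hq⟩
  let P3 : PrimeSpectrum (MvPolynomial (Fin 2) k) := ⟨M, hM.isPrime⟩
  have h01 : P0 < P1 := hlt0
  have h12 : P1 < P2 := hlt
  have h23 : P2 < P3 := hlt2
  let S : LTSeries (PrimeSpectrum (MvPolynomial (Fin 2) k)) :=
    { length := 3
      toFun := ![P0, P1, P2, P3]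
      step := by
        intro i
        fin_cases i
        · exact h01
        · exact h12
        · exact h23 }
  have h3 : (3 : WithBot ℕ∞) ≤ ringKrullDim (MvPolynomial (Fin 2) k) := by
    have := Order.LTSeries.length_le_krullDim S
    exact this
  rw [MvPolynomial.ringKrullDim_of_isNoetherianRing, ringKrullDim_eq_zero_of_field] at h3
  simp at h3
  exact absurd h3 (by norm_num)

variable {k A : Type} [Field k] [IsAlgClosed k] [CharZero k] [CommRing A] [IsDomain A]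
  [Algebra k A] {s : k}

omit [IsAlgClosed k] [CharZero k] [IsDomain A] in
/-- endomorphisms which agree on `a`, `u`, `v` are equal -/
theorem Fib.dan_ext (f : Fib k A s) (e e' : A →ₐ[k] A) (h1 : e f.a = e' f.a)
    (h2 : e f.u = e' f.u) (h3 : e f.v = e' f.v) (x : A) : e x = e' x := by
  obtain ⟨t, P, ht, hP⟩ := f.gen x
  have hΓ : e.comp (aeval ![f.a, f.u, f.v]) =
      (e'.comp (aeval ![f.a, f.u, f.v]) : MvPolynomial (Fin 3) k →ₐ[k] A) := by
    apply MvPolynomial.algHom_ext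
    intro m
    fin_cases m
    · simpa using h1
    · simpa using h2
    · simpa using h3
  have hPP : e (aeval ![f.a, f.u, f.v] P) = e' (aeval ![f.a, f.u, f.v] P) :=
    congrArg (fun φ : MvPolynomial (Fin 3) k →ₐ[k] A => φ P) hΓ
  have hT : e (Polynomial.aeval f.a t) = e' (Polynomial.aeval f.a t) := by
    rw [← Polynomial.aeval_algHom_apply, ← Polynomial.aeval_algHom_apply, h1]
  have hu : IsUnit (e' (Polynomial.aeval f.a t)) := (f.unit t ht).map e'
  apply hu.mul_right_cancel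
  calc e x * e' (Polynomial.aeval f.a t) = e (x * Polynomial.aeval f.a t) := by
        rw [map_mul, hT]
    _ = e' (x * Polynomial.aeval f.a t) := by rw [hP, hPP]
    _ = _ := by rw [map_mul]

section
variable (f : Fib k A s) (α γ : A ≃ₐ[k] A)

omit [IsAlgClosed k] [CharZero k] [IsDomain A] in
theorem Fib.dan_a2 (hα : f.IsAut α (-f.a) f.u f.v) (x : A) : α (α x) = x := by
  refine f.dan_ext ((α : A →ₐ[k] A).comp (α : A →ₐ[k] A)) (AlgHom.id k A) ?_ ?_ ?_ x
  · simp [hα.1]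
  · simp [hα.2.1]
  · simp [hα.2.2]

omit [IsAlgClosed k] [CharZero k] [IsDomain A] in
theorem Fib.dan_g2 (hγ : f.IsAut γ f.a (-f.u) f.v) (x : A) : γ (γ x) = x := by
  refine f.dan_ext ((γ : A →ₐ[k] A).comp (γ : A →ₐ[k] A)) (AlgHom.id k A) ?_ ?_ ?_ x
  · simp [hγ.1]
  · simp [hγ.2.1]
  · simp [hγ.2.2]

omit [IsAlgClosed k] [CharZero k] [IsDomain A] in
theorem Fib.dan_ag (hα : f.IsAut α (-f.a) f.u f.v) (hγ : f.IsAut γ f.a (-f.u) f.v) (x : A) :
    α (γ x) = γ (α x) := by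
  refine f.dan_ext ((α : A →ₐ[k] A).comp (γ : A →ₐ[k] A)) ((γ : A →ₐ[k] A).comp (α : A →ₐ[k] A))
    ?_ ?_ ?_ x
  · simp [hα.1, hγ.1]
  · simp [hα.2.1, hγ.2.1]
  · simp [hα.2.2, hγ.2.2]

omit [IsAlgClosed k] [CharZero k] [IsDomain A] in
theorem Fib.dan_a_pp (hα : f.IsAut α (-f.a) f.u f.v) : α f.pp = f.pp := by
  simp only [Fib.pp, map_sub, map_add, map_pow, hα.1, hα.2.1, AlgEquiv.commutes]; ring

omit [IsAlgClosed k] [CharZero k] [IsDomain A] in
theorem Fib.dan_g_pp (hγ : f.IsAut γ f.a (-f.u) f.v) : γ f.pp = f.pp := by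
  simp only [Fib.pp, map_sub, map_add, map_pow, hγ.1, hγ.2.1, AlgEquiv.commutes]; ring

omit [IsAlgClosed k] [CharZero k] [IsDomain A] in
/-- an automorphism which fixes `p`, `v` fixes the polynomials in `p`, `v` -/
theorem Fib.dan_fix (e : A ≃ₐ[k] A) (h1 : e f.pp = f.pp) (h2 : e f.v = f.v)
    (R : MvPolynomial (Fin 2) k) : e (aeval ![f.pp, f.v] R) = aeval ![f.pp, f.v] R := by
  have hΓ : (e : A →ₐ[k] A).comp (aeval ![f.pp, f.v]) =
      (aeval ![f.pp, f.v] : MvPolynomial (Fin 2) k →ₐ[k] A) := by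
    apply MvPolynomial.algHom_ext
    intro m
    fin_cases m
    · simpa using h1
    · simpa using h2
  exact congrArg (fun φ : MvPolynomial (Fin 2) k →ₐ[k] A => φ R) hΓ

omit [IsAlgClosed k] [CharZero k] [IsDomain A] in
/-- an automorphism which fixes `p`, `v` fixes the ideals `(p, v - κ)` -/
theorem Fib.dan_cc_fix (e : A ≃ₐ[k] A) (h1 : e f.pp = f.pp) (h2 : e f.v = f.v) (κ : k) :
    (f.cc κ).map (e : A →+* A) = f.cc κ := by
  rw [Fib.cc, Ideal.map_span, Set.image_pair]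
  have e1 : (e : A →+* A) f.pp = f.pp := h1
  have e2 : (e : A →+* A) (f.v - algebraMap k A κ) = f.v - algebraMap k A κ := by
    change e (f.v - algebraMap k A κ) = _
    rw [map_sub, h2, AlgEquiv.commutes]
  rw [e1, e2]

/-- the norm -/
def danNorm (z : A) : A := (z * α z) * (γ z * α (γ z))

omit [IsAlgClosed k] [CharZero k] [IsDomain A] in
theorem Fib.dnorm_a (hα : f.IsAut α (-f.a) f.u f.v) (z : A) : α (danNorm α γ z) = danNorm α γ z := by
  simp only [danNorm, map_mul, f.dan_a2 α hα]; ring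

omit [IsAlgClosed k] [CharZero k] [IsDomain A] in
theorem Fib.dnorm_g (hα : f.IsAut α (-f.a) f.u f.v) (hγ : f.IsAut γ f.a (-f.u) f.v) (z : A) :
    γ (danNorm α γ z) = danNorm α γ z := by
  simp only [danNorm, map_mul, ← f.dan_ag α γ hα hγ, f.dan_g2 γ hγ]; ring

omit [IsAlgClosed k] [CharZero k] in
theorem danNorm_ne_zero {z : A} (hz : z ≠ 0) : danNorm α γ z ≠ 0 := by
  have h1 : ∀ e : A ≃ₐ[k] A, ∀ x : A, x ≠ 0 → e x ≠ 0 := fun e x hx h => hx (by simpa using h)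
  exact mul_ne_zero (mul_ne_zero hz (h1 _ _ hz)) (mul_ne_zero (h1 _ _ hz) (h1 _ _ (h1 _ _ hz)))

end

/-- invariant elements in terms of `k[p,v]` -/
theorem Fib.dan_inv (f : Fib k A s) (α γ : A ≃ₐ[k] A) (hα : f.IsAut α (-f.a) f.u f.v)
    (hγ : f.IsAut γ f.a (-f.u) f.v) (z : A) (h1 : α z = z) (h2 : γ z = z) :
    ∃ (m : Multiset k) (c : k) (N : ℕ) (R : MvPolynomial (Fin 2) k), c ≠ 0 ∧
      z * aeval ![f.pp, f.v] (C c * (m.map (hr s)).prod) * f.pp ^ N =
        f.pp ^ (Multiset.card m) * aeval ![f.pp, f.v] R := by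
  obtain ⟨t, N, R, ht, hR⟩ := f.inv_poly α γ hα hγ z h1 h2
  refine ⟨t.roots, t.leadingCoeff, N, C (2 ^ (Multiset.card t.roots)) * R,
    Polynomial.leadingCoeff_ne_zero.2 ht, ?_⟩
  have hsplit : t = Polynomial.C t.leadingCoeff *
      (t.roots.map fun r => Polynomial.X - Polynomial.C r).prod :=
    (IsAlgClosed.splits t).eq_prod_roots
  have key : ∀ m : Multiset k, aeval ![f.pp, f.v] (m.map (hr s)).prod =
      (2 * f.pp) ^ (Multiset.card m) * Polynomial.aeval (f.a ^ 2)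
        (m.map fun r => Polynomial.X - Polynomial.C r).prod := by
    intro m
    induction m using Multiset.induction_on with
    | empty => simp
    | cons r m ih =>
      simp only [Multiset.map_cons, Multiset.prod_cons, map_mul, ih, Multiset.card_cons, map_sub,
        Polynomial.aeval_X, Polynomial.aeval_C, ← f.hr_eq r]
      ring
  rw [map_mul, key, map_mul]
  have h3 : Polynomial.aeval (f.a ^ 2) t = algebraMap k A t.leadingCoeff *
      Polynomial.aeval (f.a ^ 2) (t.roots.map fun r => Polynomial.X - Polynomial.C r).prod := by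
    conv_lhs => rw [hsplit]
    rw [map_mul, Polynomial.aeval_C]
  rw [h3] at hR
  simp only [algHom_C, map_pow, map_ofNat]
  rw [← hR]
  ring

/-- the elements `h_r(p,v)` are outside the primes not containing `p` -/
theorem Fib.dan_hr_not_mem (f : Fib k A s) {Q : Ideal A} (hQ : Q.IsPrime) (hp : f.pp ∉ Q)
    (m : Multiset k) {c : k} (hc : c ≠ 0) :
    aeval ![f.pp, f.v] (C c * (m.map (hr s)).prod) ∉ Q := by
  have h2 : (2 : A) ∉ Q := by
    intro h
    have h4 := f.dan_const_unit (c := 2) two_ne_zero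
    rw [map_ofNat] at h4
    exact hQ.ne_top (Ideal.eq_top_of_isUnit_mem _ h h4)
  have h1 : aeval ![f.pp, f.v] (m.map (hr s)).prod ∉ Q := by
    induction m using Multiset.induction_on with
    | empty => simpa using (Ideal.ne_top_iff_one Q).1 hQ.ne_top
    | cons r m ih =>
      simp only [Multiset.map_cons, Multiset.prod_cons, map_mul, ← f.hr_eq r]
      intro h
      rcases hQ.mem_or_mem h with h | h
      · rcases hQ.mem_or_mem h with h | h
        · rcases hQ.mem_or_mem h with h | h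
          · exact h2 h
          · exact hp h
        · have e : f.a ^ 2 - algebraMap k A r =
              Polynomial.aeval f.a (Polynomial.X ^ 2 - Polynomial.C r) := by simp
          rw [e] at h
          exact (Polynomial.X_pow_sub_C_ne_zero (by norm_num) r) (f.dan_unit_not_mem hQ h)
      · exact ih h
  rw [map_mul, algHom_C]
  intro h
  rcases hQ.mem_or_mem h with h | h
  · exact hQ.ne_top (Ideal.eq_top_of_isUnit_mem _ h (f.dan_const_unit hc))
  · exact h1 h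


/-- contraction to `k[p,v]` -/
def Fib.dcon (f : Fib k A s) (Q : Ideal A) : Ideal (MvPolynomial (Fin 2) k) :=
  Q.comap (aeval ![f.pp, f.v] : MvPolynomial (Fin 2) k →ₐ[k] A)

omit [IsAlgClosed k] [CharZero k] [IsDomain A] in
theorem Fib.mem_dcon (f : Fib k A s) (Q : Ideal A) (R : MvPolynomial (Fin 2) k) :
    R ∈ f.dcon Q ↔ aeval ![f.pp, f.v] R ∈ Q := Iff.rfl

theorem Fib.dcon_ne_bot (f : Fib k A s) (α γ : A ≃ₐ[k] A) (hα : f.IsAut α (-f.a) f.u f.v)
    (hγ : f.IsAut γ f.a (-f.u) f.v) {Q : Ideal A} (hQ0 : Q ≠ ⊥) : f.dcon Q ≠ ⊥ := by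
  obtain ⟨z, hzQ, hz⟩ := Submodule.exists_mem_ne_zero_of_ne_bot hQ0
  obtain ⟨m, c, N, R, hc, hR⟩ := f.dan_inv α γ hα hγ (danNorm α γ z) (f.dnorm_a α γ hα z)
    (f.dnorm_g α γ hα hγ z)
  intro hbot
  have hNQ : danNorm α γ z ∈ Q := Ideal.mul_mem_right _ _ (Ideal.mul_mem_right _ _ hzQ)
  have e : aeval ![f.pp, f.v] (X 0 ^ (Multiset.card m) * R) =
      f.pp ^ (Multiset.card m) * aeval ![f.pp, f.v] R := by
    rw [map_mul, map_pow, aeval_X]; rfl
  have h1 : X 0 ^ (Multiset.card m) * R ∈ f.dcon Q := by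
    rw [f.mem_dcon, e, ← hR]
    exact Ideal.mul_mem_right _ _ (Ideal.mul_mem_right _ _ hNQ)
  rw [hbot] at h1
  have h2 : X 0 ^ (Multiset.card m) * R = 0 := h1
  rw [h2, map_zero] at e
  have hp0 : f.pp ∉ (⊥ : Ideal A) := f.pp_ne_zero
  have h3 := f.dan_hr_not_mem (Q := ⊥) Ideal.isPrime_bot hp0 m hc
  have h4 := danNorm_ne_zero α γ hz
  rw [← hR] at e
  exact (mul_ne_zero (mul_ne_zero h4 h3) (pow_ne_zero _ f.pp_ne_zero)) e.symm

theorem Fib.dcon_not_max (f : Fib k A s) {Q : Ideal A} (hQ : Q.IsPrime) (hp : f.pp ∉ Q) :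
    ¬ (f.dcon Q).IsMaximal := by
  intro h
  obtain ⟨x, hx⟩ := MvPolynomial.isMaximal_iff_eq_vanishingIdeal_singleton.1 h
  have hx0 : x 0 ≠ 0 := by
    intro h0
    have h1 : X 0 ∈ f.dcon Q := by
      rw [hx, mem_vanishingIdeal_singleton_iff, aeval_X, h0]
    rw [f.mem_dcon, aeval_X] at h1
    exact hp h1
  have h2 : hr s (((x 0 ^ 2 + x 1 ^ 4 - (1 - s ^ 2 / 4)) / x 0 - s) / 2) ∈ f.dcon Q := by
    rw [hx, mem_vanishingIdeal_singleton_iff]
    simp only [hr, map_add, map_sub, map_mul, map_pow, aeval_X, algHom_C, Algebra.algebraMap_self,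
      RingHom.id_apply]
    field_simp
    ring
  rw [f.mem_dcon] at h2
  have h3 := f.dan_hr_not_mem hQ hp {((x 0 ^ 2 + x 1 ^ 4 - (1 - s ^ 2 / 4)) / x 0 - s) / 2}
    (c := 1) one_ne_zero
  rw [Multiset.map_singleton, Multiset.prod_singleton, C_1, one_mul] at h3
  exact h3 h2

omit [IsAlgClosed k] [CharZero k] [IsDomain A] in
theorem dan_mem_map_inv (e : A ≃ₐ[k] A) (he : ∀ x, e (e x) = x) (Q : Ideal A) (x : A) :
    x ∈ Q.map (e : A →+* A) ↔ e x ∈ Q := by
  have h1 : Q.map (e : A →+* A) = Q.comap (e.symm : A →+* A) :=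
    Ideal.map_comap_of_equiv (e : A ≃+* A)
  have h2 : e.symm x = e x := by
    rw [AlgEquiv.symm_apply_eq, he]
  rw [h1, Ideal.mem_comap]
  change e.symm x ∈ Q ↔ _
  rw [h2]

omit [IsAlgClosed k] [CharZero k] [IsDomain A] in
theorem dan_map_prime (e : A ≃ₐ[k] A) {Q : Ideal A} (hQ : Q.IsPrime) :
    (Q.map (e : A →+* A)).IsPrime := Ideal.map_isPrime_of_equiv (e : A ≃+* A)

omit [IsAlgClosed k] [CharZero k] [IsDomain A] in
theorem dan_map_ne_bot (e : A ≃ₐ[k] A) {Q : Ideal A} (hQ : Q ≠ ⊥) :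
    Q.map (e : A →+* A) ≠ ⊥ := by
  intro h
  apply hQ
  rw [eq_bot_iff]
  intro x hx
  have h1 : e x ∈ Q.map (e : A →+* A) := Ideal.mem_map_of_mem (e : A →+* A) hx
  rw [h, Ideal.mem_bot] at h1
  simpa using h1

/-- the orbit of `Q` -/
def DanOrb (α γ : A ≃ₐ[k] A) (Q P : Ideal A) : Prop :=
  P = Q ∨ P = Q.map (α : A →+* A) ∨ P = Q.map (γ : A →+* A) ∨
    P = (Q.map (γ : A →+* A)).map (α : A →+* A)

theorem Fib.dcon_orbit [IsDedekindDomain A] (f : Fib k A s) (α γ : A ≃ₐ[k] A)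
    (hα : f.IsAut α (-f.a) f.u f.v) (hγ : f.IsAut γ f.a (-f.u) f.v) {Q Q' : Ideal A}
    (hQ : Q.IsPrime) (hQ' : Q'.IsPrime) (hQ'0 : Q' ≠ ⊥) (hp : f.pp ∉ Q)
    (h : f.dcon Q' ≤ f.dcon Q) : DanOrb α γ Q Q' := by
  have hmax : Q'.IsMaximal := hQ'.isMaximal hQ'0
  have ha2 := f.dan_a2 α hα
  have hg2 := f.dan_g2 γ hγ
  have hag := f.dan_ag α γ hα hγ
  have hor : ∀ z ∈ Q', z ∈ Q ∨ z ∈ Q.map (α : A →+* A) ∨ z ∈ Q.map (γ : A →+* A) ∨
      z ∈ (Q.map (γ : A →+* A)).map (α : A →+* A) := by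
    intro z hz
    obtain ⟨m, c, N, R, hc, hR⟩ := f.dan_inv α γ hα hγ (danNorm α γ z) (f.dnorm_a α γ hα z)
      (f.dnorm_g α γ hα hγ z)
    have hNQ : danNorm α γ z ∈ Q' := Ideal.mul_mem_right _ _ (Ideal.mul_mem_right _ _ hz)
    have e : aeval ![f.pp, f.v] (X 0 ^ (Multiset.card m) * R) =
        f.pp ^ (Multiset.card m) * aeval ![f.pp, f.v] R := by
      rw [map_mul, map_pow, aeval_X]; rfl
    have h1 : X 0 ^ (Multiset.card m) * R ∈ f.dcon Q' := by
      rw [f.mem_dcon, e, ← hR]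
      exact Ideal.mul_mem_right _ _ (Ideal.mul_mem_right _ _ hNQ)
    have h2 := h h1
    rw [f.mem_dcon, e, ← hR] at h2
    have h3 : danNorm α γ z ∈ Q := by
      rcases hQ.mem_or_mem h2 with h | h
      · exact (hQ.mem_or_mem h).resolve_right (f.dan_hr_not_mem hQ hp m hc)
      · exact absurd (hQ.mem_of_pow_mem _ h) hp
    rw [dan_mem_map_inv α ha2, dan_mem_map_inv γ hg2, dan_mem_map_inv α ha2, dan_mem_map_inv γ hg2, ← hag]
    rcases hQ.mem_or_mem h3 with h | h <;> rcases hQ.mem_or_mem h with h | h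
    · exact Or.inl h
    · exact Or.inr (Or.inl h)
    · exact Or.inr (Or.inr (Or.inl h))
    · exact Or.inr (Or.inr (Or.inr h))
  let F : Fin 4 → Ideal A := ![Q, Q.map (α : A →+* A), Q.map (γ : A →+* A),
    (Q.map (γ : A →+* A)).map (α : A →+* A)]
  have hF : ∀ i : Fin 4, (F i).IsPrime := by
    intro i
    fin_cases i
    · exact hQ
    · exact dan_map_prime α hQ
    · exact dan_map_prime γ hQ
    · exact dan_map_prime α (dan_map_prime γ hQ)
  have hsub : (Q' : Set A) ⊆ ⋃ i ∈ ((Finset.univ : Finset (Fin 4)) : Set (Fin 4)), (F i : Set A) := by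
    intro z hz
    rw [Set.mem_iUnion₂]
    rcases hor z hz with h | h | h | h
    · exact ⟨0, by simp, h⟩
    · exact ⟨1, by simp, h⟩
    · exact ⟨2, by simp, h⟩
    · exact ⟨3, by simp, h⟩
  obtain ⟨i, -, hi⟩ := (Ideal.subset_union_prime 0 0 (fun i _ _ _ => hF i)).1 hsub
  have hi' : Q' = F i := hmax.eq_of_le (hF i).ne_top hi
  fin_cases i
  · exact Or.inl hi'
  · exact Or.inr (Or.inl hi')
  · exact Or.inr (Or.inr (Or.inl hi'))
  · exact Or.inr (Or.inr (Or.inr hi'))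


omit [IsAlgClosed k] [CharZero k] [IsDomain A] in
theorem dan_map_map_inv (e : A ≃ₐ[k] A) (he : ∀ x, e (e x) = x) (Q : Ideal A) :
    (Q.map (e : A →+* A)).map (e : A →+* A) = Q := by
  ext x
  rw [dan_mem_map_inv e he, dan_mem_map_inv e he, he]

/-- the norm of an ideal -/
def danN (α γ : A ≃ₐ[k] A) (Q : Ideal A) : Ideal A :=
  (Q * Q.map (α : A →+* A)) * (Q.map (γ : A →+* A) * (Q.map (γ : A →+* A)).map (α : A →+* A))

omit [IsAlgClosed k] [CharZero k] [IsDomain A] in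
theorem Fib.map_comm (f : Fib k A s) (α γ : A ≃ₐ[k] A)
    (hα : f.IsAut α (-f.a) f.u f.v) (hγ : f.IsAut γ f.a (-f.u) f.v) (Q : Ideal A) :
    (Q.map (γ : A →+* A)).map (α : A →+* A) = (Q.map (α : A →+* A)).map (γ : A →+* A) := by
  ext x
  rw [dan_mem_map_inv α (f.dan_a2 α hα), dan_mem_map_inv γ (f.dan_g2 γ hγ),
    dan_mem_map_inv γ (f.dan_g2 γ hγ), dan_mem_map_inv α (f.dan_a2 α hα), f.dan_ag α γ hα hγ]

omit [IsAlgClosed k] [CharZero k] [IsDomain A] in
theorem Fib.dN_a (f : Fib k A s) (α γ : A ≃ₐ[k] A)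
    (hα : f.IsAut α (-f.a) f.u f.v) (Q : Ideal A) :
    (danN α γ Q).map (α : A →+* A) = danN α γ Q := by
  simp only [danN, Ideal.map_mul, dan_map_map_inv α (f.dan_a2 α hα)]
  ring

omit [IsAlgClosed k] [CharZero k] [IsDomain A] in
theorem Fib.dN_g (f : Fib k A s) (α γ : A ≃ₐ[k] A)
    (hα : f.IsAut α (-f.a) f.u f.v) (hγ : f.IsAut γ f.a (-f.u) f.v) (Q : Ideal A) :
    (danN α γ Q).map (γ : A →+* A) = danN α γ Q := by
  simp only [danN, Ideal.map_mul, f.map_comm α γ hα hγ, dan_map_map_inv γ (f.dan_g2 γ hγ)]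
  ring

section ded

variable [IsDedekindDomain A]

omit [IsAlgClosed k] [CharZero k] [IsDomain A] in
theorem danN_ne_bot (α γ : A ≃ₐ[k] A) {Q : Ideal A} (hQ0 : Q ≠ ⊥) : danN α γ Q ≠ ⊥ :=
  mul_ne_zero (mul_ne_zero hQ0 (dan_map_ne_bot α hQ0))
    (mul_ne_zero (dan_map_ne_bot γ hQ0) (dan_map_ne_bot α (dan_map_ne_bot γ hQ0)))

omit [IsAlgClosed k] [CharZero k] in
theorem cls_danN (α γ : A ≃ₐ[k] A) {Q : Ideal A} (hQ0 : Q ≠ ⊥) :
    cls (danN α γ Q) = cls Q + cls (Q.map (α : A →+* A)) + cls (Q.map (γ : A →+* A)) +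
      cls ((Q.map (γ : A →+* A)).map (α : A →+* A)) := by
  have h1 := dan_map_ne_bot α hQ0
  have h2 := dan_map_ne_bot γ hQ0
  have h3 := dan_map_ne_bot α h2
  rw [danN, cls_mul (mul_ne_zero hQ0 h1) (mul_ne_zero h2 h3), cls_mul hQ0 h1, cls_mul h2 h3]
  abel

omit [IsAlgClosed k] [CharZero k] [IsDomain A] in
theorem dan_vI_stable (e : A ≃ₐ[k] A) (P J : Ideal A) (hJ : J.map (e : A →+* A) = J) :
    vI (P.map (e : A →+* A)) J = vI P J := by
  have h := vI_map (e : A ≃+* A) P J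
  have e1 : J.map ((e : A ≃+* A) : A →+* A) = J := hJ
  rw [e1] at h
  exact h

omit [IsAlgClosed k] [CharZero k] [IsDomain A] in
theorem dan_vI_orb (α γ : A ≃ₐ[k] A) {Q P J : Ideal A} (h : DanOrb α γ Q P)
    (h1 : J.map (α : A →+* A) = J) (h2 : J.map (γ : A →+* A) = J) : vI P J = vI Q J := by
  rcases h with rfl | rfl | rfl | rfl
  · rfl
  · exact dan_vI_stable α _ _ h1
  · exact dan_vI_stable γ _ _ h2
  · rw [dan_vI_stable α _ _ h1, dan_vI_stable γ _ _ h2]

omit [IsAlgClosed k] [CharZero k] in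
theorem vI_danN_zero (α γ : A ≃ₐ[k] A) {Q P : Ideal A} (hQ : Q.IsPrime) (hQ0 : Q ≠ ⊥)
    (hP : P.IsPrime) (hP0 : P ≠ ⊥) (h : ¬ DanOrb α γ Q P) : vI P (danN α γ Q) = 0 := by
  simp only [DanOrb, not_or] at h
  obtain ⟨n1, n2, n3, n4⟩ := h
  have h1 := dan_map_ne_bot α hQ0
  have h2 := dan_map_ne_bot γ hQ0
  have h3 := dan_map_ne_bot α h2
  rw [danN, vI_mul hP hP0 (mul_ne_zero hQ0 h1) (mul_ne_zero h2 h3), vI_mul hP hP0 hQ0 h1,
    vI_mul hP hP0 h2 h3, vI_ne hP hP0 hQ hQ0 n1, vI_ne hP hP0 (dan_map_prime α hQ) h1 n2,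
    vI_ne hP hP0 (dan_map_prime γ hQ) h2 n3, vI_ne hP hP0 (dan_map_prime α (dan_map_prime γ hQ)) h3 n4]

omit [IsAlgClosed k] [CharZero k] [Algebra k A] [Field k] in
theorem dan_prod_ne_bot {ι : Type} (S : Finset ι) (F : ι → Ideal A) (hF : ∀ i, F i ≠ ⊥) :
    ∏ i ∈ S, F i ≠ ⊥ := by
  rw [← Ideal.zero_eq_bot]
  exact Finset.prod_ne_zero_iff.2 fun i _ => hF i

theorem dan_vI_top {P : Ideal A} (hP : P.IsPrime) (hP0 : P ≠ ⊥) : vI P (⊤ : Ideal A) = 0 := by
  by_contra h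
  have h1 := (vI_pos_iff hP hP0 (J := ⊤) top_ne_bot).1 (Nat.pos_of_ne_zero h)
  exact hP.ne_top (top_le_iff.1 h1)

theorem dan_vI_prod {ι : Type} (S : Finset ι) (F : ι → Ideal A) (hF : ∀ i, F i ≠ ⊥) {P : Ideal A}
    (hP : P.IsPrime) (hP0 : P ≠ ⊥) : vI P (∏ i ∈ S, F i) = ∑ i ∈ S, vI P (F i) := by
  classical
  induction S using Finset.induction_on with
  | empty => rw [Finset.prod_empty, Finset.sum_empty, Ideal.one_eq_top, dan_vI_top hP hP0]
  | insert a S ha ih =>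
    rw [Finset.prod_insert ha, Finset.sum_insert ha, vI_mul hP hP0 (hF a) (dan_prod_ne_bot S F hF), ih]

theorem dan_cls_prod {ι : Type} (S : Finset ι) (F : ι → Ideal A) (hF : ∀ i, F i ≠ ⊥) :
    cls (∏ i ∈ S, F i) = ∑ i ∈ S, cls (F i) := by
  classical
  induction S using Finset.induction_on with
  | empty => rw [Finset.prod_empty, Finset.sum_empty, Ideal.one_eq_top, cls_top]
  | insert a S ha ih =>
    rw [Finset.prod_insert ha, Finset.sum_insert ha, cls_mul (hF a) (dan_prod_ne_bot S F hF), ih]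

/-- the classes of the four ideals are in the subgroup generated by two of them -/
theorem Fib.cls_cc_mem (f : Fib k A s) (hs : s ^ 2 ≠ 4) {i κ : k} (hi : i ^ 2 = -1)
    (hκ : κ ^ 4 = 1 - s ^ 2 / 4) (l : Fin 4) : cls (f.cc (i ^ (l : ℕ) * κ)) ∈
      AddSubgroup.closure {cls (f.cc κ), cls (f.cc (i * κ))} := by
  have m0 : cls (f.cc κ) ∈ AddSubgroup.closure {cls (f.cc κ), cls (f.cc (i * κ))} :=
    AddSubgroup.subset_closure (by simp)
  have m1 : cls (f.cc (i * κ)) ∈ AddSubgroup.closure {cls (f.cc κ), cls (f.cc (i * κ))} :=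
    AddSubgroup.subset_closure (by simp)
  have hiκ : (i * κ) ^ 4 = 1 - s ^ 2 / 4 := by
    rw [mul_pow, hκ, show (4 : ℕ) = 2 * 2 by norm_num, pow_mul, hi]; ring
  fin_cases l
  · simpa using m0
  · simpa using m1
  · have e : i ^ 2 * κ = -κ := by rw [hi]; ring
    change cls (f.cc (i ^ 2 * κ)) ∈ _
    rw [e, eq_neg_of_add_eq_zero_right (f.cls_cc_neg hs hκ)]
    exact neg_mem m0
  · have e : i ^ 3 * κ = -(i * κ) := by
      rw [show (3 : ℕ) = 2 + 1 by norm_num, pow_succ, hi]; ring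
    change cls (f.cc (i ^ 3 * κ)) ∈ _
    rw [e, eq_neg_of_add_eq_zero_right (f.cls_cc_neg hs hiκ)]
    exact neg_mem m1

/-- DAN-D. Norms to the quotient are combinations of the classes of the four ideals.
Proof: if `p` is in `Q` use DAN-C.  Otherwise let `q = Q ∩ k[p,v]`: it is a nonzero prime (take the
norm, under `α, γ`, of a nonzero element of `Q`, and DAN-A), and not maximal (else `p - p_0`,
`v - v_0` are in `Q`, with `p_0 <> 0`, so `a^2 - r` is in `Q` for some `r` in `k`, but it is a unit).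
So `q = (π)` with `π` irreducible (a nonmaximal nonzero prime of `k[p,v]`).  If `Q'` is a prime
containing `π` but not `p`, then similarly `Q' ∩ k[p,v] = (π)`, and `Q'` is one of the
images of `Q` under the group `G` generated by `α, γ`: otherwise choose `z` in `Q'` and not in
`g Q` for all `g` in `G`; its norm `N z` is in `Q'`, so by DAN-A it is in `Q`, contradiction.
So `(π)` is the product of a power of (the product of the distinct images of `Q`) and of primes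
containing `p`; taking classes gives the claim. -/
theorem Fib.norm_mem (f : Fib k A s) (hs : s ^ 2 ≠ 4) {i κ : k} (hi : i ^ 2 = -1)
    (hκ : κ ^ 4 = 1 - s ^ 2 / 4) (α γ : A ≃ₐ[k] A) (hα : f.IsAut α (-f.a) f.u f.v)
    (hγ : f.IsAut γ f.a (-f.u) f.v) (Q : Ideal A) (hQ : Q.IsPrime) (hQ0 : Q ≠ ⊥) :
    ∃ e : ℕ, 0 < e ∧ e • (cls Q + cls (Q.map (α : A →+* A)) + cls (Q.map (γ : A →+* A)) +
      cls ((Q.map (γ : A →+* A)).map (α : A →+* A))) ∈
        AddSubgroup.closure {cls (f.cc κ), cls (f.cc (i * κ))} := by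
  rw [← cls_danN α γ hQ0]
  have hi4 : i ^ 4 = 1 := by rw [show (4 : ℕ) = 2 * 2 by norm_num, pow_mul, hi]; ring
  have hκl : ∀ l : ℕ, (i ^ l * κ) ^ 4 = 1 - s ^ 2 / 4 := by
    intro l
    rw [mul_pow, hκ, ← pow_mul, mul_comm l 4, pow_mul, hi4, one_pow, one_mul]
  have hN0 : danN α γ Q ≠ ⊥ := danN_ne_bot α γ hQ0
  have hNa := f.dN_a α γ hα Q
  have hNg := f.dN_g α γ hα hγ Q
  have hαp := f.dan_a_pp α hα
  have hγp := f.dan_g_pp γ hγ
  have hcc0 : ∀ l : Fin 4, f.cc (i ^ (l : ℕ) * κ) ≠ ⊥ := fun l => f.cc_ne_bot _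
  have hmem := f.cls_cc_mem hs hi hκ
  -- `p` and the orbit
  have horbp : ∀ P, DanOrb α γ Q P → (f.pp ∈ P ↔ f.pp ∈ Q) := by
    intro P hP
    rcases hP with rfl | rfl | rfl | rfl
    · rfl
    · rw [dan_mem_map_inv α (f.dan_a2 α hα), hαp]
    · rw [dan_mem_map_inv γ (f.dan_g2 γ hγ), hγp]
    · rw [dan_mem_map_inv α (f.dan_a2 α hα), hαp, dan_mem_map_inv γ (f.dan_g2 γ hγ), hγp]
  by_cases hp : f.pp ∈ Q
  · obtain ⟨j, hj⟩ := (f.vI_cc hs hi hκ Q hQ hQ0).1 hp
    refine ⟨1, one_pos, ?_⟩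
    have hjj : vI Q (f.cc (i ^ (j : ℕ) * κ)) = 1 := by rw [hj j, if_pos rfl]
    have hle : f.cc (i ^ (j : ℕ) * κ) ≤ Q :=
      (vI_pos_iff hQ hQ0 (hcc0 j)).1 (by rw [hjj]; exact one_pos)
    have key : danN α γ Q = f.cc (i ^ (j : ℕ) * κ) ^ (vI Q (danN α γ Q)) := by
      apply ideal_ext_vI hN0 (pow_ne_zero _ (hcc0 j))
      intro P hP hP0
      rw [vI_pow hP hP0 (hcc0 j)]
      by_cases ho : DanOrb α γ Q P
      · rw [dan_vI_orb α γ ho hNa hNg, dan_vI_orb α γ ho (f.dan_cc_fix α hαp hα.2.2 _)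
          (f.dan_cc_fix γ hγp hγ.2.2 _), hjj, mul_one]
      · rw [vI_danN_zero α γ hQ hQ0 hP hP0 ho]
        have h0 : vI P (f.cc (i ^ (j : ℕ) * κ)) = 0 := by
          by_contra hne
          have hle' := (vI_pos_iff hP hP0 (hcc0 j)).1 (Nat.pos_of_ne_zero hne)
          apply ho
          rcases f.primes_cc hs (hκl j) γ hγ Q P hQ hP hle hle' with h | h
          · exact Or.inl h
          · exact Or.inr (Or.inr (Or.inl h))
        rw [h0, mul_zero]
    rw [key, cls_pow (hcc0 j), one_smul]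
    exact nsmul_mem (hmem j) _
  · -- the contraction
    have hqp : (f.dcon Q).IsPrime := Ideal.comap_isPrime _ _
    obtain ⟨π, hπq, hπ⟩ := hqp.exists_mem_prime_of_ne_bot (f.dcon_ne_bot α γ hα hγ hQ0)
    have hq : f.dcon Q = Ideal.span {π} :=
      dan_plane_prime π hπ.irreducible _ hqp hπq (f.dcon_not_max hQ hp)
    set x : A := aeval ![f.pp, f.v] π with hx
    have hx0 : x ≠ 0 := by
      intro h
      apply hπ.ne_zero
      apply f.pv_indep
      rw [← hx, h, map_zero]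
    have hJ0 : Ideal.span {x} ≠ ⊥ := by rwa [Ne, Ideal.span_singleton_eq_bot]
    have hJa : (Ideal.span {x}).map (α : A →+* A) = Ideal.span {x} := by
      rw [Ideal.map_span, Set.image_singleton]
      have e1 : (α : A →+* A) x = x := f.dan_fix α hαp hα.2.2 π
      rw [e1]
    have hJg : (Ideal.span {x}).map (γ : A →+* A) = Ideal.span {x} := by
      rw [Ideal.map_span, Set.image_singleton]
      have e1 : (γ : A →+* A) x = x := f.dan_fix γ hγp hγ.2.2 π
      rw [e1]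
    have horb : ∀ P : Ideal A, P.IsPrime → P ≠ ⊥ → f.pp ∉ P → x ∈ P → DanOrb α γ Q P := by
      intro P hP hP0 hpP hxP
      have hqP : (f.dcon P).IsPrime := Ideal.comap_isPrime _ _
      have hq' : f.dcon P = Ideal.span {π} :=
        dan_plane_prime π hπ.irreducible _ hqP hxP (f.dcon_not_max hP hpP)
      exact f.dcon_orbit α γ hα hγ hQ hP hP0 hp (by rw [hq', hq])
    have hxQ : Ideal.span {x} ≤ Q := by
      rw [Ideal.span_singleton_le_iff_mem]; exact hπq
    have he : 0 < vI Q (Ideal.span {x}) := (vI_pos_iff hQ hQ0 hJ0).2 hxQ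
    -- primes containing the `cc`
    have hP' : ∀ l : Fin 4, ∃ P : Ideal A, P.IsPrime ∧ f.cc (i ^ (l : ℕ) * κ) ≤ P := by
      intro l
      obtain ⟨M, hM, hle⟩ := Ideal.exists_le_maximal _ (f.cc_ne_top (hκl l))
      exact ⟨M, hM.isPrime, hle⟩
    choose P' hP'p hP'le using hP'
    set n := vI Q (danN α γ Q) with hn
    have key : Ideal.span {x} ^ n = danN α γ Q ^ (vI Q (Ideal.span {x})) *
        ∏ l : Fin 4, f.cc (i ^ (l : ℕ) * κ) ^ (n * vI (P' l) (Ideal.span {x})) := by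
      have hpr0 : ∏ l : Fin 4, f.cc (i ^ (l : ℕ) * κ) ^ (n * vI (P' l) (Ideal.span {x})) ≠ ⊥ :=
        dan_prod_ne_bot _ _ fun l => pow_ne_zero _ (hcc0 l)
      apply ideal_ext_vI (pow_ne_zero _ hJ0) (mul_ne_zero (pow_ne_zero _ hN0) hpr0)
      intro P hP hP0
      rw [vI_pow hP hP0 hJ0, vI_mul hP hP0 (pow_ne_zero _ hN0) hpr0, vI_pow hP hP0 hN0,
        dan_vI_prod _ _ (fun l => pow_ne_zero _ (hcc0 l)) hP hP0]
      have e2 : ∀ l : Fin 4, vI P (f.cc (i ^ (l : ℕ) * κ) ^ (n * vI (P' l) (Ideal.span {x}))) =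
          n * vI (P' l) (Ideal.span {x}) * vI P (f.cc (i ^ (l : ℕ) * κ)) :=
        fun l => vI_pow hP hP0 (hcc0 l) _
      rw [Finset.sum_congr rfl fun l _ => e2 l]
      by_cases hpP : f.pp ∈ P
      · have ho : ¬ DanOrb α γ Q P := fun h => hp ((horbp P h).1 hpP)
        obtain ⟨j, hj⟩ := (f.vI_cc hs hi hκ P hP hP0).1 hpP
        have hjj : vI P (f.cc (i ^ (j : ℕ) * κ)) = 1 := by rw [hj j, if_pos rfl]
        have hle : f.cc (i ^ (j : ℕ) * κ) ≤ P :=
          (vI_pos_iff hP hP0 (hcc0 j)).1 (by rw [hjj]; exact one_pos)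
        have e3 : vI (P' j) (Ideal.span {x}) = vI P (Ideal.span {x}) := by
          rcases f.primes_cc hs (hκl j) γ hγ P (P' j) hP (hP'p j) hle (hP'le j) with h | h
          · rw [h]
          · rw [h, dan_vI_stable γ _ _ hJg]
        rw [vI_danN_zero α γ hQ hQ0 hP hP0 ho, mul_zero, zero_add, Finset.sum_eq_single j, hjj,
          e3, mul_one]
        · intro l _ hl
          rw [hj l, if_neg hl, mul_zero]
        · intro h; exact absurd (Finset.mem_univ j) h
      · have e4 := (f.vI_cc hs hi hκ P hP hP0).2 hpP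
        rw [Finset.sum_eq_zero (fun l _ => by rw [e4 l, mul_zero]), add_zero]
        by_cases ho : DanOrb α γ Q P
        · rw [dan_vI_orb α γ ho hNa hNg, dan_vI_orb α γ ho hJa hJg, ← hn, mul_comm]
        · rw [vI_danN_zero α γ hQ hQ0 hP hP0 ho, mul_zero]
          have h0 : vI P (Ideal.span {x}) = 0 := by
            by_contra hne
            have hle' := (vI_pos_iff hP hP0 hJ0).1 (Nat.pos_of_ne_zero hne)
            exact ho (horb P hP hP0 hpP ((Ideal.span_singleton_le_iff_mem P).1 hle'))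
          rw [h0, mul_zero]
    have hcls := congrArg cls key
    rw [cls_pow hJ0, cls_span_singleton, smul_zero, cls_mul (pow_ne_zero _ hN0)
      (dan_prod_ne_bot _ _ fun l => pow_ne_zero _ (hcc0 l)), cls_pow hN0,
      dan_cls_prod _ _ (fun l => pow_ne_zero _ (hcc0 l))] at hcls
    refine ⟨vI Q (Ideal.span {x}), he, ?_⟩
    rw [eq_neg_of_add_eq_zero_left hcls.symm]
    apply neg_mem
    apply sum_mem
    intro l _
    rw [cls_pow (hcc0 l)]
    exact nsmul_mem (hmem l) _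

end ded

end PicJump

end
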