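import Pool.Agent.Lib_helper43.PJ.D
import Pool.Agent.Lib_helper43.PJ.W_ClsA
import Pool.Agent.Lib_helper43.PJ.W_ClsB
import Pool.Agent.Lib_helper43.PJ.W_ClsC
import Pool.Agent.Lib_helper43.PJ.W_DanA
import Pool.Agent.Lib_helper43.PJ.W_DanB
import Pool.Agent.Lib_helper43.PJ.W_DanC
import Pool.Agent.Lib_helper43.PJ.W_DanD
import Pool.Agent.Lib_helper43.PJ.W_FibIso

/-!
BLOCK DanE of MP_f6fc0c_ag.
BLOCKS DAN (the quotient of `X_s` by `x -> -x`, `z -> -z` is the surface `p q = w^4 - c y^4`).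
Notation: `c = 1 - s^2/4 <> 0`, `p = a^2 + s/2 - u^2`, `q = a^2 + s/2 + u^2`, so `p q = v^4 - c`,
`a^2 = (p + q - s)/2`, `u^2 = (q - p)/2`.  In `A`, the elements `p`, `v` are algebraically
independent over `k` (`k[p,v]` is a polynomial ring, contained in `A`).
-/

noncomputable section

namespace PicJump

open MvPolynomial

variable {k A : Type} [Field k] [IsAlgClosed k] [CharZero k] [CommRing A] [IsDomain A]
  [Algebra k A] {s : k}

/-- the substitution `v -> -v` -/
def danE (k : Type) [Field k] : MvPolynomial (Fin 2) k →ₐ[k] MvPolynomial (Fin 2) k :=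
  aeval ![X 0, - X 1]

omit [IsAlgClosed k] [CharZero k] in
theorem danE_hr (s r : k) : danE k (hr s r) = hr s r := by
  simp only [danE, hr, map_add, map_sub, map_mul, map_pow, aeval_X, algHom_C,
    MvPolynomial.algebraMap_eq, Matrix.cons_val_zero, Matrix.cons_val_one]
  ring

omit [IsAlgClosed k] [CharZero k] [IsDomain A] in
theorem Fib.danE_ev (f : Fib k A s) (τ : A ≃ₐ[k] A) (h1 : τ f.pp = f.pp) (h2 : τ f.v = -f.v)
    (R : MvPolynomial (Fin 2) k) :
    τ (aeval ![f.pp, f.v] R) = aeval ![f.pp, f.v] (danE k R) := by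
  have hΓ : (τ : A →ₐ[k] A).comp (aeval ![f.pp, f.v]) =
      ((aeval ![f.pp, f.v] : MvPolynomial (Fin 2) k →ₐ[k] A).comp (danE k)) := by
    apply MvPolynomial.algHom_ext
    intro m
    fin_cases m
    · simpa [danE] using h1
    · simpa [danE] using h2
  exact congrArg (fun φ : MvPolynomial (Fin 2) k →ₐ[k] A => φ R) hΓ

/-- an irreducible which becomes a unit when `p` is inverted is even in `v`, up to constants -/
theorem Fib.dan_even_factor (f : Fib k A s) (α γ : A ≃ₐ[k] A) (hα : f.IsAut α (-f.a) f.u f.v)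
    (hγ : f.IsAut γ f.a (-f.u) f.v) (π : MvPolynomial (Fin 2) k) (hπ : Irreducible π)
    (h : ∀ Q : Ideal A, Q.IsPrime → f.pp ∉ Q → aeval ![f.pp, f.v] π ∉ Q) :
    Associated (danE k π) π := by
  by_cases hX : Associated π (X 0)
  · have e1 : danE k (X 0) = X 0 := by simp [danE]
    have h1 : Associated (danE k π) (danE k (X 0)) := hX.map (danE k)
    rw [e1] at h1
    exact h1.trans hX.symm
  set x : A := aeval ![f.pp, f.v] π with hx
  have hrad : f.pp ∈ (Ideal.span {x}).radical := by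
    rw [Ideal.radical_eq_sInf, Submodule.mem_sInf]
    rintro J ⟨hJ1, hJ2⟩
    by_contra hp
    exact h J hJ2 hp ((Ideal.span_singleton_le_iff_mem J).1 hJ1)
  obtain ⟨M, hM⟩ := hrad
  obtain ⟨y, hy⟩ := Ideal.mem_span_singleton'.1 hM
  obtain ⟨m, c, N, R, hc, hR⟩ := f.dan_inv α γ hα hγ (danNorm α γ y) (f.dnorm_a α γ hα y)
    (f.dnorm_g α γ hα hγ y)
  have hαx : α x = x := f.dan_fix α (f.dan_a_pp α hα) hα.2.2 π
  have hγx : γ x = x := f.dan_fix γ (f.dan_g_pp γ hγ) hγ.2.2 π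
  have hαp := f.dan_a_pp α hα
  have hγp := f.dan_g_pp γ hγ
  have hN1 : danNorm α γ (f.pp ^ M) = f.pp ^ (4 * M) := by
    simp only [danNorm, map_pow, hαp, hγp]; ring
  have hN2 : danNorm α γ (y * x) = danNorm α γ y * x ^ 4 := by
    simp only [danNorm, map_mul, hαx, hγx]; ring
  rw [← hy, hN2] at hN1
  have key : π ^ 4 * (X 0 ^ (Multiset.card m) * R) =
      X 0 ^ (4 * M) * (C c * (m.map (hr s)).prod) * X 0 ^ N := by
    apply f.pv_indep
    simp only [map_mul, map_pow, aeval_X, Matrix.cons_val_zero] at hR ⊢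
    rw [← hN1, ← hR, ← hx]
    ring
  have hπp : Prime π := hπ.prime
  have hd : π ∣ X 0 ^ (4 * M) * (C c * (m.map (hr s)).prod) * X 0 ^ N := by
    rw [← key]
    exact Dvd.dvd.mul_right (dvd_pow_self π (by norm_num)) _
  have hX0 : Irreducible (X 0 : MvPolynomial (Fin 2) k) := MvPolynomial.X_prime.irreducible
  have hnX : ∀ n : ℕ, ¬ π ∣ X 0 ^ n := by
    intro n hn
    exact hX (hπ.associated_of_dvd hX0 (hπp.dvd_of_dvd_pow hn))
  rcases hπp.dvd_or_dvd hd with hd | hd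
  · rcases hπp.dvd_or_dvd hd with hd | hd
    · exact absurd hd (hnX _)
    · rcases hπp.dvd_or_dvd hd with hd | hd
      · exfalso
        apply hπ.not_isUnit
        refine isUnit_of_dvd_unit hd ?_
        exact (isUnit_iff_ne_zero.2 hc).map C
      · obtain ⟨b, hb, hb'⟩ := hπp.exists_mem_multiset_dvd hd
        obtain ⟨r, -, rfl⟩ := Multiset.mem_map.1 hb
        exact hr_factor_even s r π hπ hb'
  · exact absurd hd (hnX _)

omit [IsAlgClosed k] [CharZero k] [IsDomain A] in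
/-- `v -> -v` exchanges `(p, v - κ)` and `(p, v + κ)` -/
theorem Fib.dan_cc_tau (f : Fib k A s) (τ : A ≃ₐ[k] A) (h1 : τ f.pp = f.pp) (h2 : τ f.v = -f.v)
    (κ : k) : (f.cc (-κ)).map (τ : A →+* A) = f.cc κ := by
  rw [Fib.cc, Ideal.map_span, Set.image_pair]
  have e1 : (τ : A →+* A) f.pp = f.pp := h1
  have e2 : (τ : A →+* A) (f.v - algebraMap k A (-κ)) = -(f.v - algebraMap k A κ) := by
    change τ (f.v - algebraMap k A (-κ)) = _
    rw [map_sub, h2, AlgEquiv.commutes, map_neg]; ring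
  rw [e1, e2, Fib.cc]
  apply le_antisymm
  · rw [Ideal.span_le]
    rintro z (rfl | rfl)
    · exact Ideal.subset_span (by simp)
    · exact neg_mem (Ideal.subset_span (by simp))
  · rw [Ideal.span_le]
    rintro z (rfl | rfl)
    · exact Ideal.subset_span (by simp)
    · rw [← neg_neg (f.v - algebraMap k A κ)]
      exact neg_mem (Ideal.subset_span (by simp))

variable [IsDedekindDomain A]

theorem Fib.dan_natAbs (f : Fib k A s) (hs : s ^ 2 ≠ 4) {κ : k} (hκ : κ ^ 4 = 1 - s ^ 2 / 4)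
    (m : ℤ) : ∃ κ' : k, (κ' = κ ∨ κ' = -κ) ∧ m • cls (f.cc κ) = m.natAbs • cls (f.cc κ') := by
  rcases Int.natAbs_eq m with h | h
  · refine ⟨κ, Or.inl rfl, ?_⟩
    conv_lhs => rw [h]
    rw [natCast_zsmul]
  · refine ⟨-κ, Or.inr rfl, ?_⟩
    conv_lhs => rw [h]
    rw [neg_smul, natCast_zsmul, eq_neg_of_add_eq_zero_right (f.cls_cc_neg hs hκ), smul_neg]

/-- DAN-E. The classes of `(p, v - κ)` and `(p, v - iκ)` are independent.
Proof: if `m₀ cls + m₁ cls = 0`, then (fractional) `(φ) = cc(κ)^m₀ cc(iκ)^m₁`; the norm `ψ` of `φ`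
under `α, γ` has `(ψ) = cc(κ)^{4 m₀} cc(iκ)^{4 m₁}` and is a quotient of elements of `k[p,v]`
(DAN-A, and `2 p (a^2 - r) = h_r`).  Factor it in the UFD `k[p,v]`.  Let `π <> p` be an irreducible
factor which occurs.  If `π` is in a prime `Q` not containing `p`, then no other irreducible factor is
in `Q` (as in DAN-D), so `v_Q(ψ) <> 0`, a contradiction.  So `π` is a unit in `A[1/p]`, i.e. divides
(in `A`) a power of `p`; taking norms, `π` divides (in `k[p,v]`) a power of `p` times a product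
of `h_r`'s, so it divides some `h_r`, and by DAN-B it is invariant (up to constants) under `v -> -v`,
which exchanges `cc(κ)` and `cc(-κ)`.  So `v_Q(ψ) = v_{τQ}(ψ)` for a prime `Q` containing `cc(κ)`,
`τ : (u, v) -> (-u, -v)`, i.e. `4 m₀ = 0`. Similarly `m₁ = 0`. -/
theorem Fib.cc_indep (f : Fib k A s) (hs : s ^ 2 ≠ 4) {i κ : k} (hi : i ^ 2 = -1)
    (hκ : κ ^ 4 = 1 - s ^ 2 / 4) (m₀ m₁ : ℤ)
    (h : m₀ • cls (f.cc κ) + m₁ • cls (f.cc (i * κ)) = 0) : m₀ = 0 ∧ m₁ = 0 := by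
  have hκ0 : κ ≠ 0 := by
    rintro rfl
    apply hs
    have : 1 - s ^ 2 / 4 = 0 := by rw [← hκ]; simp
    linear_combination -4 * this
  have hi0 : i ≠ 0 := by rintro rfl; simp at hi
  have h2 : (2 : k) ≠ 0 := two_ne_zero
  have hiκ : (i * κ) ^ 4 = 1 - s ^ 2 / 4 := by
    rw [mul_pow, hκ, show (4 : ℕ) = 2 * 2 by norm_num, pow_mul, hi]; ring
  obtain ⟨κ₀, hκ₀, e₀⟩ := f.dan_natAbs hs hκ m₀
  obtain ⟨κ₁, hκ₁, e₁⟩ := f.dan_natAbs hs hiκ m₁
  rw [e₀, e₁] at h
  -- the automorphisms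
  obtain ⟨α, hα'⟩ := f.exists_scale (-1) 1 1 (by norm_num) (by norm_num) (by norm_num)
  obtain ⟨γ, hγ'⟩ := f.exists_scale 1 (-1) 1 (by norm_num) (by norm_num) (by norm_num)
  obtain ⟨τ, hτ'⟩ := f.exists_scale 1 1 (-1) (by norm_num) (by norm_num) (by norm_num)
  have hα : f.IsAut α (-f.a) f.u f.v := by simpa [Fib.IsAut] using hα'
  have hγ : f.IsAut γ f.a (-f.u) f.v := by simpa [Fib.IsAut] using hγ'
  have hτ : f.IsAut τ f.a f.u (-f.v) := by simpa [Fib.IsAut] using hτ'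
  have hαp := f.dan_a_pp α hα
  have hγp := f.dan_g_pp γ hγ
  have hτp : τ f.pp = f.pp := by
    simp only [Fib.pp, map_sub, map_add, map_pow, hτ.1, hτ.2.1, AlgEquiv.commutes]
  have hc0 := f.cc_ne_bot κ₀
  have hc1 := f.cc_ne_bot κ₁
  set J : Ideal A := f.cc κ₀ ^ m₀.natAbs * f.cc κ₁ ^ m₁.natAbs with hJ
  have hJ0 : J ≠ ⊥ := mul_ne_zero (pow_ne_zero _ hc0) (pow_ne_zero _ hc1)
  have hJcls : cls J = 0 := by
    rw [hJ, cls_mul (pow_ne_zero _ hc0) (pow_ne_zero _ hc1), cls_pow hc0, cls_pow hc1, h]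
  obtain ⟨x, hx0, hx⟩ := (cls_eq_zero_iff hJ0).1 hJcls
  have hJα : J.map (α : A →+* A) = J := by
    rw [hJ, Ideal.map_mul, Ideal.map_pow, Ideal.map_pow, f.dan_cc_fix α hαp hα.2.2,
      f.dan_cc_fix α hαp hα.2.2]
  have hJγ : J.map (γ : A →+* A) = J := by
    rw [hJ, Ideal.map_mul, Ideal.map_pow, Ideal.map_pow, f.dan_cc_fix γ hγp hγ.2.2,
      f.dan_cc_fix γ hγp hγ.2.2]
  have hspanα : ∀ y : A, Ideal.span {y} = J → Ideal.span {α y} = J := by
    intro y hy
    rw [← hJα, ← hy, Ideal.map_span, Set.image_singleton]; rfl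
  have hspanγ : ∀ y : A, Ideal.span {y} = J → Ideal.span {γ y} = J := by
    intro y hy
    rw [← hJγ, ← hy, Ideal.map_span, Set.image_singleton]; rfl
  have hnorm : Ideal.span {danNorm α γ x} = J ^ 4 := by
    rw [danNorm, ← Ideal.span_singleton_mul_span_singleton,
      ← Ideal.span_singleton_mul_span_singleton, ← Ideal.span_singleton_mul_span_singleton,
      hspanα _ (hspanγ _ hx.symm), hspanγ _ hx.symm, hspanα _ hx.symm, ← hx]
    ring
  have hN0 := danNorm_ne_zero α γ hx0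
  obtain ⟨m, c, N, R, hc, hR⟩ := f.dan_inv α γ hα hγ (danNorm α γ x) (f.dnorm_a α γ hα x)
    (f.dnorm_g α γ hα hγ x)
  set T : MvPolynomial (Fin 2) k := C c * (m.map (hr s)).prod with hT
  have hp0 := f.pp_ne_zero
  have hT0 : aeval ![f.pp, f.v] T ≠ 0 :=
    f.dan_hr_not_mem (Q := ⊥) Ideal.isPrime_bot hp0 m hc
  have hR0' : aeval ![f.pp, f.v] R ≠ 0 := by
    intro h0
    rw [h0, mul_zero] at hR
    exact (mul_ne_zero (mul_ne_zero hN0 hT0) (pow_ne_zero _ hp0)) hR
  have hR0 : R ≠ 0 := by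
    rintro rfl; exact hR0' (map_zero _)
  -- `T` and `R` are even
  have hTe : danE k T = T := by
    rw [hT, map_mul, map_multiset_prod, Multiset.map_map]
    congr 1
    · simp [danE]
    · congr 1
      apply Multiset.map_congr rfl
      intro r _
      exact danE_hr s r
  have hRe : Associated (danE k R) R := by
    obtain ⟨F, hF, hFR⟩ := UniqueFactorizationMonoid.exists_prime_factors R hR0
    have hfac : ∀ π ∈ F, Associated (danE k π) π := by
      intro π hπ
      have hπp := hF π hπ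
      apply f.dan_even_factor α γ hα hγ π hπp.irreducible
      intro Q hQ hpQ hπQ
      have hdvd : π ∣ R := (Multiset.dvd_prod hπ).trans hFR.dvd
      have h1 : aeval ![f.pp, f.v] R ∈ Q := by
        obtain ⟨R', rfl⟩ := hdvd
        rw [map_mul]; exact Ideal.mul_mem_right _ _ hπQ
      have h3 : danNorm α γ x * aeval ![f.pp, f.v] T * f.pp ^ N ∈ Q := by
        rw [hR]; exact Ideal.mul_mem_left _ _ h1
      have h4 : danNorm α γ x ∈ Q := by
        rcases hQ.mem_or_mem h3 with h | h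
        · exact (hQ.mem_or_mem h).resolve_right (f.dan_hr_not_mem hQ hpQ m hc)
        · exact absurd (hQ.mem_of_pow_mem _ h) hpQ
      have h5 : J ^ 4 ≤ Q := by
        rw [← hnorm, Ideal.span_singleton_le_iff_mem]; exact h4
      have h6 : J ≤ Q := hQ.le_of_pow_le h5
      rw [hJ] at h6
      have hpcc : ∀ κ', f.cc κ' ≤ Q → False := fun κ' hle =>
        hpQ (hle (Ideal.subset_span (by simp)))
      rcases (hQ.mul_le).1 h6 with h | h
      · exact hpcc _ (hQ.le_of_pow_le h)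
      · exact hpcc _ (hQ.le_of_pow_le h)
    have hprod : Associated (danE k F.prod) F.prod := by
      clear hFR hF
      induction F using Multiset.induction_on with
      | empty => simp
      | cons a F ih =>
        rw [Multiset.prod_cons, map_mul]
        exact (hfac a (Multiset.mem_cons_self a F)).mul_mul
          (ih fun π hπ => hfac π (Multiset.mem_cons_of_mem hπ))
    exact ((hFR.symm.map (danE k)).trans hprod).trans hFR
  -- the symmetry
  have hsym : ∀ P : Ideal A, P.IsPrime → P ≠ ⊥ →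
      m₀.natAbs * vI P (f.cc κ₀) + m₁.natAbs * vI P (f.cc κ₁) =
      m₀.natAbs * vI P (f.cc (-κ₀)) + m₁.natAbs * vI P (f.cc (-κ₁)) := by
    intro P hP hP0
    set P' := P.map (τ : A →+* A) with hP'
    have hP'p : P'.IsPrime := dan_map_prime τ hP
    have hP'0 : P' ≠ ⊥ := dan_map_ne_bot τ hP0
    have sb : ∀ y : A, y ≠ 0 → Ideal.span {y} ≠ ⊥ := fun y hy => by
      rwa [Ne, Ideal.span_singleton_eq_bot]
    have hinv : ∀ y : A, Ideal.span {τ y} = Ideal.span {y} →
        vI P' (Ideal.span {y}) = vI P (Ideal.span {y}) := by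
      intro y hy
      apply dan_vI_stable τ
      rw [Ideal.map_span, Set.image_singleton]
      exact hy
    have v1 := hinv f.pp (by rw [hτp])
    have v2 := hinv (aeval ![f.pp, f.v] T) (by rw [f.danE_ev τ hτp hτ.2.2, hTe])
    have v3 := hinv (aeval ![f.pp, f.v] R) (by
      rw [f.danE_ev τ hτp hτ.2.2, Ideal.span_singleton_eq_span_singleton]
      exact hRe.map (aeval ![f.pp, f.v] : MvPolynomial (Fin 2) k →ₐ[k] A))
    have hident : J ^ 4 * Ideal.span {aeval ![f.pp, f.v] T} * Ideal.span {f.pp} ^ N =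
        Ideal.span {f.pp} ^ (Multiset.card m) * Ideal.span {aeval ![f.pp, f.v] R} := by
      rw [← hnorm, Ideal.span_singleton_pow, Ideal.span_singleton_pow,
        Ideal.span_singleton_mul_span_singleton, Ideal.span_singleton_mul_span_singleton,
        Ideal.span_singleton_mul_span_singleton, hR]
    have hval : ∀ P : Ideal A, P.IsPrime → P ≠ ⊥ →
        4 * vI P J + vI P (Ideal.span {aeval ![f.pp, f.v] T}) + N * vI P (Ideal.span {f.pp}) =
        (Multiset.card m) * vI P (Ideal.span {f.pp}) + vI P (Ideal.span {aeval ![f.pp, f.v] R}) := by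
      intro P hP hP0
      have e := congrArg (vI P) hident
      have p1 := pow_ne_zero 4 hJ0
      rw [vI_mul hP hP0 (mul_ne_zero p1 (sb _ hT0)) (pow_ne_zero _ (sb _ hp0)),
        vI_mul hP hP0 p1 (sb _ hT0), vI_pow hP hP0 hJ0, vI_pow hP hP0 (sb _ hp0),
        vI_mul hP hP0 (pow_ne_zero _ (sb _ hp0)) (sb _ hR0'), vI_pow hP hP0 (sb _ hp0)] at e
      exact e
    have w1 := hval P hP hP0
    have w2 := hval P' hP'p hP'0
    rw [v1, v2, v3] at w2
    have w3 : vI P J = vI P' J := by omega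
    have w4 : ∀ Q : Ideal A, Q.IsPrime → Q ≠ ⊥ →
        vI Q J = m₀.natAbs * vI Q (f.cc κ₀) + m₁.natAbs * vI Q (f.cc κ₁) := by
      intro Q hQ hQ0
      rw [hJ, vI_mul hQ hQ0 (pow_ne_zero _ hc0) (pow_ne_zero _ hc1), vI_pow hQ hQ0 hc0,
        vI_pow hQ hQ0 hc1]
    rw [w4 P hP hP0, w4 P' hP'p hP'0] at w3
    have w5 : ∀ κ' : k, vI P' (f.cc κ') = vI P (f.cc (-κ')) := by
      intro κ'
      have h := vI_map (τ : A ≃+* A) P (f.cc (-κ'))
      have e1 : (f.cc (-κ')).map ((τ : A ≃+* A) : A →+* A) = f.cc κ' :=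
        f.dan_cc_tau τ hτp hτ.2.2 κ'
      rw [e1] at h
      exact h
    rw [w5, w5] at w3
    exact w3
  -- distinct constants
  have hzero : ∀ P : Ideal A, P.IsPrime → P ≠ ⊥ → ∀ κ' κ'' : k, κ' ≠ κ'' → f.cc κ' ≤ P →
      vI P (f.cc κ'') = 0 := by
    intro P hP hP0 κ' κ'' hne hle
    by_contra hv
    have hle' := (vI_pos_iff hP hP0 (f.cc_ne_bot κ'')).1 (Nat.pos_of_ne_zero hv)
    have h1 : f.v - algebraMap k A κ' ∈ P := hle (Ideal.subset_span (by simp))
    have h3 : f.v - algebraMap k A κ'' ∈ P := hle' (Ideal.subset_span (by simp))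
    have h4 : algebraMap k A (κ'' - κ') ∈ P := by
      have e : algebraMap k A (κ'' - κ') =
          (f.v - algebraMap k A κ') - (f.v - algebraMap k A κ'') := by rw [map_sub]; ring
      rw [e]; exact sub_mem h1 h3
    exact hP.ne_top (Ideal.eq_top_of_isUnit_mem _ h4
      (f.dan_const_unit (sub_ne_zero.2 (Ne.symm hne))))
  have hi1 : i ≠ 1 := by rintro rfl; norm_num at hi
  have hi2 : i ≠ -1 := by rintro rfl; norm_num at hi
  have hd1 : κ₀ ≠ κ₁ ∧ κ₀ ≠ -κ₁ := by
    have n1 : κ ≠ i * κ := fun h => hi1 (mul_right_cancel₀ hκ0 (by rw [one_mul]; exact h.symm))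
    have n2 : κ ≠ -(i * κ) := fun h => hi2 (mul_right_cancel₀ hκ0 (by linear_combination h))
    rcases hκ₀ with rfl | rfl <;> rcases hκ₁ with rfl | rfl
    · exact ⟨n1, n2⟩
    · exact ⟨n2, by rw [neg_neg]; exact n1⟩
    · exact ⟨fun h => n2 (by rw [← h, neg_neg]), fun h => n1 (neg_injective h)⟩
    · exact ⟨fun h => n1 (neg_injective h), fun h => n2 (by rw [neg_neg] at h; rw [← h, neg_neg])⟩
  have hk₀ : κ₀ ≠ 0 := by rcases hκ₀ with rfl | rfl <;> simpa using hκ0
  have hk₁ : κ₁ ≠ 0 := by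
    have := mul_ne_zero hi0 hκ0
    rcases hκ₁ with rfl | rfl
    · exact this
    · exact neg_ne_zero.2 this
  have hnn : ∀ κ' : k, κ' ≠ 0 → κ' ≠ -κ' := by
    intro κ' h0 h
    apply h0
    have : 2 * κ' = 0 := by linear_combination h
    exact (mul_eq_zero.1 this).resolve_left h2
  have h40 : κ₀ ^ 4 = 1 - s ^ 2 / 4 := by
    rcases hκ₀ with rfl | rfl
    · exact hκ
    · rw [← hκ]; ring
  have h41 : κ₁ ^ 4 = 1 - s ^ 2 / 4 := by
    rcases hκ₁ with rfl | rfl
    · exact hiκ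
    · rw [← hiκ]; ring
  have hprime : ∀ κ' : k, κ' ^ 4 = 1 - s ^ 2 / 4 → ∃ P : Ideal A, P.IsPrime ∧ P ≠ ⊥ ∧
      f.cc κ' ≤ P := by
    intro κ' hκ'
    obtain ⟨M, hM, hle⟩ := Ideal.exists_le_maximal _ (f.cc_ne_top hκ')
    exact ⟨M, hM.isPrime, fun h => f.cc_ne_bot κ' (le_bot_iff.1 (h ▸ hle)), hle⟩
  constructor
  · obtain ⟨P, hP, hP0, hle⟩ := hprime κ₀ h40
    have e := hsym P hP hP0
    rw [hzero P hP hP0 κ₀ κ₁ hd1.1 hle, hzero P hP hP0 κ₀ (-κ₀) (hnn _ hk₀) hle,
      hzero P hP hP0 κ₀ (-κ₁) hd1.2 hle] at e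
    have hpos := (vI_pos_iff hP hP0 hc0).2 hle
    simp only [mul_zero, add_zero, mul_eq_zero, Int.natAbs_eq_zero] at e
    rcases e with e | e
    · exact e
    · omega
  · obtain ⟨P, hP, hP0, hle⟩ := hprime κ₁ h41
    have e := hsym P hP hP0
    have hd2 : κ₁ ≠ -κ₀ := fun h => hd1.2 (by rw [h, neg_neg])
    rw [hzero P hP hP0 κ₁ κ₀ hd1.1.symm hle, hzero P hP hP0 κ₁ (-κ₁) (hnn _ hk₁) hle,
      hzero P hP hP0 κ₁ (-κ₀) hd2 hle] at e
    have hpos := (vI_pos_iff hP hP0 hc1).2 hle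
    simp only [mul_zero, zero_add, add_zero, mul_eq_zero, Int.natAbs_eq_zero] at e
    rcases e with e | e
    · exact e
    · omega

end PicJump

end
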