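import Pool.Agent.Lib_helper43.PJ.D
import Pool.Agent.Lib_helper43.PJ.W_OrdB

/-!
BLOCK Surf0 of MP_f6fc0c_ag.
BLOCKS SURF (the surface `X_s` and its generic fibre).
-/

noncomputable section

namespace PicJump

open MvPolynomial

variable {k : Type} [Field k] [IsAlgClosed k] [CharZero k] {s : k}

attribute [local instance] MvPolynomial.gradedAlgebra

theorem Phi_homog (s : k) : (Phi s).IsHomogeneous 4 := by
  unfold Phi
  have h0 : ∀ i : Fin 4, (X i ^ 4 : Pol k).IsHomogeneous 4 := fun i => by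
    simpa using (isHomogeneous_X k i).pow 4
  have h1 : (C s * X 0 ^ 2 * X 1 ^ 2 : Pol k).IsHomogeneous 4 := by
    have := ((isHomogeneous_C (Fin 4) s).mul ((isHomogeneous_X k (0 : Fin 4)).pow 2)).mul
      ((isHomogeneous_X k (1 : Fin 4)).pow 2)
    simpa using this
  exact ((((h0 0).add h1).add (h0 1)).sub (h0 2)).sub (h0 3)

theorem Phi_ne_zero (s : k) : Phi s ≠ 0 := by
  intro h
  have h1 := congrArg (eval ![1, 0, 0, 0]) h
  simp [Phi] at h1

theorem surf0_eisenstein {R : Type} [CommRing R] [IsDomain R] (G π : R) (hπ : Prime π)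
    (h1 : π ∣ G) (h2 : ¬ π ^ 2 ∣ G) : Irreducible (Polynomial.X ^ 4 - Polynomial.C G) := by
  have hmonic : (Polynomial.X ^ 4 - Polynomial.C G : Polynomial R).Monic :=
    Polynomial.monic_X_pow_sub_C G (by norm_num)
  have hdeg : (Polynomial.X ^ 4 - Polynomial.C G : Polynomial R).natDegree = 4 :=
    Polynomial.natDegree_X_pow_sub_C
  refine Polynomial.irreducible_of_eisenstein_criterion (P := Ideal.span {π})
    ((Ideal.span_singleton_prime hπ.ne_zero).2 hπ) ?_ ?_ ?_ ?_ hmonic.isPrimitive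
  · rw [hmonic.leadingCoeff, Ideal.mem_span_singleton]
    exact fun h => hπ.not_isUnit (isUnit_of_dvd_one h)
  · intro n hn
    rw [Polynomial.degree_eq_natDegree hmonic.ne_zero, hdeg] at hn
    have hn' : n < 4 := by exact_mod_cast hn
    rw [Polynomial.coeff_sub, Polynomial.coeff_X_pow, if_neg (by omega), Polynomial.coeff_C]
    split_ifs
    · rw [zero_sub, Ideal.neg_mem_iff, Ideal.mem_span_singleton]; exact h1
    · simp
  · rw [Polynomial.degree_eq_natDegree hmonic.ne_zero, hdeg]; norm_num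
  · rw [Polynomial.coeff_sub, Polynomial.coeff_X_pow, if_neg (by norm_num),
      Polynomial.coeff_C_zero, zero_sub, Ideal.span_singleton_pow, Ideal.neg_mem_iff,
      Ideal.mem_span_singleton]
    exact h2

theorem surf0_prime {R : Type} [CommRing R] [IsDomain R] [UniqueFactorizationMonoid R] (G π : R)
    (hπ : Prime π) (h1 : π ∣ G) (h2 : ¬ π ^ 2 ∣ G) :
    Prime (Polynomial.X ^ 4 - Polynomial.C G) :=
  (surf0_eisenstein G π hπ h1 h2).prime

theorem surf0_step {R : Type} [CommRing R] [IsDomain R] [UniqueFactorizationMonoid R] (F π : R)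
    (hπ : Prime π) (h1 : π ∣ F) (h2 : ¬ π ^ 2 ∣ F) :
    Prime (Polynomial.X ^ 4 - Polynomial.C (-(Polynomial.X ^ 4 - Polynomial.C F)) :
      Polynomial (Polynomial R)) := by
  have h3 : Prime (Polynomial.X ^ 4 - Polynomial.C F) := surf0_prime F π hπ h1 h2
  refine surf0_prime _ _ h3 ?_ ?_
  · exact ⟨-1, by ring⟩
  · rintro ⟨g, hg⟩
    have h4 : (Polynomial.X ^ 4 - Polynomial.C F : Polynomial R) * 1 =
        (Polynomial.X ^ 4 - Polynomial.C F) * ((Polynomial.X ^ 4 - Polynomial.C F) * (-g)) := by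
      linear_combination -hg
    have h5 := mul_left_cancel₀ h3.ne_zero h4
    exact h3.not_isUnit (isUnit_of_dvd_one ⟨-g, h5⟩)

theorem surf0_form {R : Type} [CommRing R] (x y s : R) :
    Polynomial.C (Polynomial.C x) ^ 4 + Polynomial.C (Polynomial.C s) *
      Polynomial.C (Polynomial.C x) ^ 2 * Polynomial.C (Polynomial.C y) ^ 2 +
      Polynomial.C (Polynomial.C y) ^ 4 - Polynomial.X ^ 4 - Polynomial.C Polynomial.X ^ 4 =
      -(Polynomial.X ^ 4 - Polynomial.C (-(Polynomial.X ^ 4 -
        Polynomial.C (x ^ 4 + s * x ^ 2 * y ^ 2 + y ^ 4)))) := by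
  simp only [map_sub, map_add, map_mul, map_pow, map_neg]
  ring

theorem surf0_comap {R S : Type} [CommRing R] [CommRing S] (e : R ≃+* S) (a : R) (b : S)
    (hb : e a = -b) (h : Prime b) : (Ideal.span {a}).IsPrime := by
  have h6 : Ideal.span {a} = Ideal.comap e (Ideal.span {b}) := by
    ext x
    rw [Ideal.mem_comap, Ideal.mem_span_singleton, Ideal.mem_span_singleton]
    constructor
    · rintro ⟨c, rfl⟩
      exact ⟨-e c, by rw [map_mul, hb]; ring⟩
    · rintro ⟨c, hc⟩
      refine ⟨-e.symm c, e.injective ?_⟩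
      rw [map_mul, hc, map_neg, RingEquiv.apply_symm_apply, hb]
      ring
  rw [h6]
  have := (Ideal.span_singleton_prime h.ne_zero).2 h
  exact Ideal.comap_isPrime _ _

/-- the ring isomorphism `k[x,y,z,w] = k[x,y][w][z]` -/
theorem surf0_exists_equiv (k : Type) [Field k] :
    ∃ e : Pol k ≃+* Polynomial (Polynomial (MvPolynomial (Fin 2) k)),
      (∀ c, e (C c) = Polynomial.C (Polynomial.C (C c))) ∧
      e (X 0) = Polynomial.C (Polynomial.C (X 0)) ∧ e (X 1) = Polynomial.C (Polynomial.C (X 1)) ∧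
      e (X 2) = Polynomial.X ∧ e (X 3) = Polynomial.C Polynomial.X := by
  let σ : Fin 4 ≃ Fin 4 := ⟨![2, 3, 0, 1], ![2, 3, 0, 1], by decide, by decide⟩
  let e1 : Pol k ≃+* Pol k := (renameEquiv k σ).toRingEquiv
  let e2 : Pol k ≃+* Polynomial (MvPolynomial (Fin 3) k) := (finSuccEquiv k 3).toRingEquiv
  let e3 : Polynomial (MvPolynomial (Fin 3) k) ≃+*
      Polynomial (Polynomial (MvPolynomial (Fin 2) k)) :=
    Polynomial.mapEquiv (finSuccEquiv k 2).toRingEquiv
  have hX : ∀ i, (e1.trans (e2.trans e3)) (X i) =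
      (finSuccEquiv k 3 (X (σ i))).map ((finSuccEquiv k 2 : MvPolynomial (Fin 3) k →+*
        Polynomial (MvPolynomial (Fin 2) k))) := by
    intro i
    simp [e1, e2, e3]
  refine ⟨e1.trans (e2.trans e3), ?_, ?_, ?_, ?_, ?_⟩
  · intro c
    simp only [e1, e2, e3, RingEquiv.trans_apply]
    have h1 : (renameEquiv k σ).toRingEquiv (C c) = C c := (renameEquiv k σ).commutes c
    have h2 : (finSuccEquiv k 3).toRingEquiv (C c) = Polynomial.C (C c) :=
      (finSuccEquiv k 3).commutes c
    have h3 : (finSuccEquiv k 2).toRingEquiv (C c) = Polynomial.C (C c) :=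
      (finSuccEquiv k 2).commutes c
    rw [h1, h2, Polynomial.mapEquiv_apply, Polynomial.map_C]
    exact congrArg Polynomial.C h3
  · rw [hX]
    have : X (σ 0) = (X (Fin.succ 1) : Pol k) := rfl
    rw [this, finSuccEquiv_X_succ, Polynomial.map_C]
    have : (X 1 : MvPolynomial (Fin 3) k) = X (Fin.succ 0) := rfl
    rw [this]
    exact congrArg Polynomial.C finSuccEquiv_X_succ
  · rw [hX]
    have : X (σ 1) = (X (Fin.succ 2) : Pol k) := rfl
    rw [this, finSuccEquiv_X_succ, Polynomial.map_C]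
    have : (X 2 : MvPolynomial (Fin 3) k) = X (Fin.succ 1) := rfl
    rw [this]
    exact congrArg Polynomial.C finSuccEquiv_X_succ
  · rw [hX]
    have : X (σ 2) = (X 0 : Pol k) := rfl
    rw [this, finSuccEquiv_X_zero, Polynomial.map_X]
  · rw [hX]
    have : X (σ 3) = (X (Fin.succ 0) : Pol k) := rfl
    rw [this, finSuccEquiv_X_succ, Polynomial.map_C]
    exact congrArg Polynomial.C finSuccEquiv_X_zero

/-- e.g. as a polynomial in `z`, `z^4 = x^4 + s x^2 y^2 + y^4 - w^4`, where the right side is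
squarefree (not a square, nor `-4` times a 4th power, in `k(x,y,w)`); or `Eisenstein` at a prime
factor of it. Valid for `s^2 <> 4`. -/
theorem IX_prime (s : k) (hs : s ^ 2 ≠ 4) : (IX s).IsPrime := by
  obtain ⟨r, hr⟩ : ∃ r : k, r ^ 4 + s * r ^ 2 + 1 = 0 := by
    obtain ⟨r, hr⟩ := IsAlgClosed.exists_root
      (Polynomial.X ^ 4 + Polynomial.C s * Polynomial.X ^ 2 + 1 : Polynomial k) (by
        have : (Polynomial.X ^ 4 + Polynomial.C s * Polynomial.X ^ 2 + 1 : Polynomial k).degree = 4 := by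
          compute_degree!
        rw [this]; norm_num)
    exact ⟨r, by simpa using hr⟩
  have hr0 : r ≠ 0 := by
    rintro rfl
    norm_num at hr
  have hr2 : 2 * r ^ 2 + s ≠ 0 := by
    intro h
    apply hs
    have h1 : s = - (2 * r ^ 2) := by linear_combination h
    have h2 : r ^ 4 = 1 := by
      rw [h1] at hr
      linear_combination -hr
    rw [h1]
    linear_combination 4 * h2
  set F : MvPolynomial (Fin 2) k := X 0 ^ 4 + C s * X 0 ^ 2 * X 1 ^ 2 + X 1 ^ 4 with hF
  set π : MvPolynomial (Fin 2) k := X 0 - C r * X 1 with hπdef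
  have hπ : Prime π := by
    have h1 := irreducible_mul_X_add (1 : MvPolynomial (Fin 2) k) (- (C r * X 1)) 0 one_ne_zero (by simp) (by
      rw [vars_neg]
      intro h
      have h2 := vars_mul _ _ h
      simp at h2) isRelPrime_one_left
    have h2 : (1 : MvPolynomial (Fin 2) k) * X 0 + - (C r * X 1) = π := by rw [hπdef]; ring
    rw [h2] at h1
    exact h1.prime
  have hdvd : π ∣ F := by
    have h1 : F = (X 0 - C r * X 1) * (X 0 ^ 3 + C r * X 0 ^ 2 * X 1 + C (r ^ 2 + s) * X 0 * X 1 ^ 2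
        + C (r ^ 3 + s * r) * X 1 ^ 3) + C (r ^ 4 + s * r ^ 2 + 1) * X 1 ^ 4 := by
      rw [hF]
      simp only [map_add, map_mul, map_pow, map_one]
      ring
    rw [h1, hr]
    simp [hπdef]
  have hndvd : ¬ π ^ 2 ∣ F := by
    rintro ⟨g, hg⟩
    have h1 := congrArg (fun f => eval ![r, 1] (pderiv 0 f)) hg
    rw [hF, hπdef] at h1
    simp [pderiv_X] at h1
    have h2 : r * (2 * r ^ 2 + s) = 0 := by linear_combination h1 / 2
    rcases mul_eq_zero.1 h2 with h3 | h3
    · exact hr0 h3
    · exact hr2 h3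
  obtain ⟨e, he, he0, he1, he2, he3⟩ := surf0_exists_equiv k
  refine surf0_comap e _ _ ?_ (surf0_step F π hπ hdvd hndvd)
  unfold Phi
  simp only [map_sub, map_add, map_mul, map_pow, he, he0, he1, he2, he3]
  exact surf0_form _ _ _

theorem IX_homog (s : k) : HomogIdeal (IX s) := by
  rw [ordB_homog_iff]
  refine Ideal.homogeneous_span _ _ ?_
  rintro x hx
  rw [Set.mem_singleton_iff] at hx
  rw [hx]
  exact ⟨4, Phi_homog s⟩

theorem Phi_smooth (s : k) (hs : s ^ 2 ≠ 4) : SmoothSurface (Phi s) := by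
  intro v hv hv0
  by_contra h
  push Not at h
  apply hv
  have h0 := h 0
  have h1 := h 1
  have h2 := h 2
  have h3 := h 3
  simp [Phi, pderiv_X] at h0 h1 h2 h3 hv0
  rw [h2, h3] at hv0
  have hz : v 0 = 0 ∧ v 1 = 0 := by
    by_cases hx : v 0 = 0
    · rw [hx] at hv0
      have h4 : v 1 ^ 4 = 0 := by linear_combination hv0
      exact ⟨hx, pow_eq_zero_iff (by norm_num) |>.1 h4⟩
    · exfalso
      by_cases hy : v 1 = 0
      · rw [hy] at hv0
        have h4 : v 0 ^ 4 = 0 := by linear_combination hv0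
        exact hx (pow_eq_zero_iff (by norm_num) |>.1 h4)
      · have h5 : 2 * v 0 ^ 2 + s * v 1 ^ 2 = 0 := by
          have : v 0 * (2 * v 0 ^ 2 + s * v 1 ^ 2) = 0 := by linear_combination h0 / 2
          exact (mul_eq_zero.1 this).resolve_left hx
        have h6 : s * v 0 ^ 2 + 2 * v 1 ^ 2 = 0 := by
          have : v 1 * (s * v 0 ^ 2 + 2 * v 1 ^ 2) = 0 := by linear_combination h1 / 2
          exact (mul_eq_zero.1 this).resolve_left hy
        have h7 : (s ^ 2 - 4) * v 1 ^ 2 = 0 := by linear_combination s * h5 - 2 * h6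
        rcases mul_eq_zero.1 h7 with h8 | h8
        · exact hs (by linear_combination h8)
        · exact hy (pow_eq_zero_iff (by norm_num) |>.1 h8)
  funext i
  fin_cases i
  · exact hz.1
  · exact hz.2
  · exact h2
  · exact h3

end PicJump

end
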