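import Pool.Agent.Lib_helper43.PJ.D
import Pool.Agent.Lib_helper43.PJ.W_TransA
import Pool.Agent.Lib_helper43.PJ.W_TransB
import Pool.Agent.Lib_helper43.PJ.W_Surf0
import Pool.Agent.Lib_helper43.PJ.Scale

/-!
BLOCK DiagA of MP_f6fc0c_ag.
-/

noncomputable section

namespace PicJump

open MvPolynomial

variable {k : Type} [Field k] [IsAlgClosed k] [CharZero k]

/-- DIAG-A. If all coefficients are nonzero, the surface is isomorphic to the Fermat quartic,
i.e. to `X_0 : x^4 + y^4 = z^4 + w^4`, by rescaling the variables. -/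
theorem rho_diag (a : Fin 4 → k) (ha : ∀ i, a i ≠ 0) :
    rho (Ideal.span {Diag a}) = rho (IX (0 : k)) := by
  have hc : ∀ i : Fin 4, ∃ c : k, c ^ 4 = (![1, 1, -1, -1] : Fin 4 → k) i * (a i)⁻¹ := fun i =>
    IsAlgClosed.exists_pow_nat_eq _ (by norm_num)
  choose c hc using hc
  have hc0 : ∀ i, c i ≠ 0 := by
    intro i h
    have h1 := hc i
    rw [h, zero_pow (by norm_num)] at h1
    have h2 : (![1, 1, -1, -1] : Fin 4 → k) i ≠ 0 := by fin_cases i <;> simp
    exact (mul_ne_zero h2 (inv_ne_zero (ha i))) h1.symm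
  symm
  refine rho_scale c hc0 (Diag a) (Phi 0) 1 one_ne_zero ?_
  have h1 : ∀ i, scaleHom c (C (a i) * X i ^ 4) =
      C ((![1, 1, -1, -1] : Fin 4 → k) i) * X i ^ 4 := by
    intro i
    rw [map_mul, map_pow, scaleHom_X, ← MvPolynomial.algebraMap_eq, AlgHom.commutes,
      MvPolynomial.algebraMap_eq, mul_pow, ← C_pow, hc i, ← mul_assoc, ← C_mul]
    congr 2
    field_simp [ha i]
  rw [Diag, map_sum]
  simp only [h1, Fin.sum_univ_four]
  simp [Phi]
  ring

theorem admissible_diag (a : Fin 4 → k) (ha : Function.Injective a) :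
    Admissible (Diag (fun _ => (1 : k))) (Diag a) := by
  have hhom : ∀ b : Fin 4 → k, (Diag b).IsHomogeneous 4 := by
    intro b
    refine IsHomogeneous.sum _ _ _ fun i _ => ?_
    simpa using (isHomogeneous_C (Fin 4) (b i)).mul ((isHomogeneous_X k i).pow 4)
  have hder : ∀ (b : Fin 4 → k) (v : Fin 4 → k) (i : Fin 4),
      eval v (pderiv i (Diag b)) = 4 * b i * v i ^ 3 := by
    intro b v i
    simp only [Diag, map_sum]
    rw [Finset.sum_eq_single i]
    · simp only [Derivation.leibniz, Derivation.leibniz_pow, pderiv_X_self, pderiv_C, smul_eq_mul,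
        mul_zero, add_zero, map_mul, map_pow, eval_C, eval_X, nsmul_eq_mul, map_natCast, mul_one]
      push_cast
      ring
    · intro j _ hj
      simp [Derivation.leibniz, Derivation.leibniz_pow, pderiv_X_of_ne hj]
    · simp
  have heval : ∀ (b : Fin 4 → k) (v : Fin 4 → k), eval v (Diag b) = ∑ i, b i * v i ^ 4 := by
    intro b v
    simp [Diag]
  refine ⟨hhom _, hhom _, ?_, ?_⟩
  · intro v hv h0 h1
    rw [LinearIndependent.pair_iff]
    intro s t hst
    have h4 : ∀ i, (s + t * a i) * v i ^ 3 = 0 := by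
      intro i
      have := congrFun hst i
      simp only [Pi.add_apply, Pi.smul_apply, smul_eq_mul, hder, Pi.zero_apply, mul_one] at this
      have h5 : (4 : k) * ((s + t * a i) * v i ^ 3) = 0 := by linear_combination this
      exact (mul_eq_zero.mp h5).resolve_left (by norm_num : (4 : k) ≠ 0)
    -- two nonzero coordinates
    have h2 : ∃ i j, i ≠ j ∧ v i ≠ 0 ∧ v j ≠ 0 := by
      obtain ⟨i, hi⟩ := Function.ne_iff.mp hv
      by_contra hcon
      push Not at hcon
      rw [heval] at h0
      rw [Finset.sum_eq_single i] at h0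
      · simp only [one_mul] at h0
        exact hi (pow_eq_zero_iff (by norm_num) |>.mp h0)
      · intro j _ hj
        rw [hcon i j (Ne.symm hj) hi]
        simp
      · simp
    obtain ⟨i, j, hij, hi, hj⟩ := h2
    have e1 := (mul_eq_zero.mp (h4 i)).resolve_right (pow_ne_zero 3 hi)
    have e2 := (mul_eq_zero.mp (h4 j)).resolve_right (pow_ne_zero 3 hj)
    have e3 : t * (a i - a j) = 0 := by linear_combination e1 - e2
    have ht : t = 0 := (mul_eq_zero.mp e3).resolve_right (sub_ne_zero.mpr fun h => hij (ha h))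
    rw [ht, zero_mul, add_zero] at e1
    exact ⟨e1, ht⟩
  · refine ⟨1, 0, ?_⟩
    have e : (C 1 * Diag (fun _ => (1 : k)) + C 0 * Diag a : Pol k) = Diag (fun _ => (1 : k)) := by
      simp
    rw [e]
    intro v hv _
    obtain ⟨i, hi⟩ := Function.ne_iff.mp hv
    refine ⟨i, ?_⟩
    rw [hder, mul_one]
    exact mul_ne_zero (by norm_num : (4 : k) ≠ 0) (pow_ne_zero 3 hi)

end PicJump

end
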