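import Pool.Agent.Lib_helper43.PJ.D
import Pool.Agent.Lib_helper43.PJ.W_TransA
import Pool.Agent.Lib_helper43.PJ.W_TransB
import Pool.Agent.Lib_helper43.PJ.W_OrdA
import Pool.Agent.Lib_helper43.PJ.W_OrdB
import Pool.Agent.Lib_helper17.PJ.CycNormal
import Pool.Agent.Lib_helper17.PJ.ConeRank

/-!
BLOCK DiagB of MP_f6fc0c_ag.
BLOCKS FINAL-B (diagonal pencils have no jump points).
-/

noncomputable section

namespace PicJump

open MvPolynomial

variable {k : Type} [Field k]

attribute [local instance] MvPolynomial.gradedAlgebra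

/-- the binary form `b x^4 + c y^4` -/
def diagBg (b c : k) : MvPolynomial (Fin 2) k := C b * X 0 ^ 4 + C c * X 1 ^ 4

theorem diagBg_ne_zero {b c : k} (hb : b ≠ 0) : diagBg b c ≠ 0 := by
  intro h
  have := congrArg (eval ![1, 0]) h
  simp [diagBg] at this
  exact hb this

theorem diagBg_not_isUnit (b c : k) : ¬ IsUnit (diagBg b c) := by
  intro h
  have := h.map (constantCoeff (R := k) (σ := Fin 2))
  simp [diagBg] at this

theorem diagBg_squarefree [CharZero k] {b c : k} (hb : b ≠ 0) (hc : c ≠ 0) :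
    Squarefree (diagBg b c) := by
  rintro d ⟨h, hd⟩
  have hder : ∀ i : Fin 2, d ∣ pderiv i (diagBg b c) := by
    intro i
    rw [hd, Derivation.leibniz, Derivation.leibniz]
    simp only [smul_eq_mul]
    exact ⟨d * pderiv i h + 2 * h * pderiv i d, by ring⟩
  have h4 : (4 : k) ≠ 0 := by norm_num
  have hC4 : (C (4 : k) : MvPolynomial (Fin 2) k) = 4 := map_ofNat C 4
  have h0 : d ∣ (X 0 : MvPolynomial (Fin 2) k) ^ 3 := by
    have h1 := hder 0
    have h2 : pderiv 0 (diagBg b c) = C (b * 4) * X 0 ^ 3 := by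
      rw [map_mul, hC4]
      simp [diagBg, pderiv_X]
      ring
    rw [h2] at h1
    have h3 : (X 0 : MvPolynomial (Fin 2) k) ^ 3 = C (b * 4)⁻¹ * (C (b * 4) * X 0 ^ 3) := by
      rw [← mul_assoc, ← map_mul, inv_mul_cancel₀ (mul_ne_zero hb h4), map_one, one_mul]
    rw [h3]
    exact Dvd.dvd.mul_left h1 _
  have h1 : d ∣ (X 1 : MvPolynomial (Fin 2) k) ^ 3 := by
    have h1 := hder 1
    have h2 : pderiv 1 (diagBg b c) = C (c * 4) * X 1 ^ 3 := by
      rw [map_mul, hC4]
      simp [diagBg, pderiv_X]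
      ring
    rw [h2] at h1
    have h3 : (X 1 : MvPolynomial (Fin 2) k) ^ 3 = C (c * 4)⁻¹ * (C (c * 4) * X 1 ^ 3) := by
      rw [← mul_assoc, ← map_mul, inv_mul_cancel₀ (mul_ne_zero hc h4), map_one, one_mul]
    rw [h3]
    exact Dvd.dvd.mul_left h1 _
  have hX0 : Prime (X 0 : MvPolynomial (Fin 2) k) := X_prime
  obtain ⟨m, hm, hassoc⟩ := (dvd_prime_pow hX0 3).1 h0
  rcases Nat.eq_zero_or_pos m with rfl | hm0
  · rw [pow_zero] at hassoc
    exact hassoc.isUnit_iff.2 isUnit_one
  · exfalso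
    have h2 : (X 0 : MvPolynomial (Fin 2) k) ∣ X 1 :=
      hX0.dvd_of_dvd_pow (((dvd_pow_self _ (by omega)).trans hassoc.symm.dvd).trans h1)
    obtain ⟨q, hq⟩ := h2
    have := congrArg (eval ![0, 1]) hq
    simp at this

/-- the ternary form `x^4 - b y^4 - c z^4` -/
def diagBF (b c : k) : MvPolynomial (Fin 3) k := X 0 ^ 4 - (C b * X 1 ^ 4 + C c * X 2 ^ 4)

theorem diagBF_eq (b c : k) : finSuccEquiv k 2 (diagBF b c) = Cyc.pol (diagBg b c) := by
  have h1 : (1 : Fin 3) = Fin.succ 0 := rfl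
  have h2 : (2 : Fin 3) = Fin.succ 1 := rfl
  have hC : ∀ x : k, finSuccEquiv k 2 (C x) = Polynomial.C (C x) := fun x =>
    (finSuccEquiv k 2).commutes x
  simp only [diagBF, h1, h2, map_sub, map_add, map_mul, map_pow, finSuccEquiv_X_zero,
    finSuccEquiv_X_succ, hC, Cyc.pol, diagBg]

/-- the projection to the coordinate ring of the affine cone over the plane curve -/
def diagBrho (b c : k) : MvPolynomial (Fin 3) k →+* AdjoinRoot (Cyc.pol (diagBg b c)) :=
  (AdjoinRoot.mk (Cyc.pol (diagBg b c))).comp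
    (finSuccEquiv k 2 : MvPolynomial (Fin 3) k →+* Polynomial (MvPolynomial (Fin 2) k))

theorem diagBrho_surjective (b c : k) : Function.Surjective (diagBrho b c) :=
  AdjoinRoot.mk_surjective.comp (finSuccEquiv k 2).surjective

theorem diagBrho_eq_zero_iff (b c : k) (f : MvPolynomial (Fin 3) k) :
    diagBrho b c f = 0 ↔ diagBF b c ∣ f := by
  have h : diagBrho b c f = AdjoinRoot.mk (Cyc.pol (diagBg b c)) (finSuccEquiv k 2 f) := rfl
  rw [h, AdjoinRoot.mk_eq_zero, ← diagBF_eq]
  exact map_dvd_iff (finSuccEquiv k 2)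

theorem rho_cone_zero [IsAlgClosed k] [CharZero k] (a : Fin 4 → k) (h0 : a 0 = 0)
    (ha : ∀ j, j ≠ 0 → a j ≠ 0) : rho (Ideal.span {Diag a}) ≤ 1 := by
  have ha1 := ha 1 (by decide)
  have ha2 := ha 2 (by decide)
  have ha3 := ha 3 (by decide)
  set b : k := -(a 2 / a 1) with hb
  set c : k := -(a 3 / a 1) with hc
  have hb0 : b ≠ 0 := neg_ne_zero.2 (div_ne_zero ha2 ha1)
  have hc0 : c ≠ 0 := neg_ne_zero.2 (div_ne_zero ha3 ha1)
  obtain ⟨i, hi⟩ : ∃ i : k, i ^ 2 = -1 := IsAlgClosed.exists_pow_nat_eq (-1) (by norm_num)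
  have hi' : (C i : MvPolynomial (Fin 2) k) ^ 2 = -1 := by
    rw [← map_pow, hi, map_neg, map_one]
  have h4 : IsUnit (4 : MvPolynomial (Fin 2) k) := by
    have h4k : IsUnit (4 : k) := IsUnit.mk0 _ (by norm_num)
    have := h4k.map (C : k →+* MvPolynomial (Fin 2) k)
    rwa [map_ofNat] at this
  have := Cyc.isDomain_adjoinRoot (diagBg_not_isUnit b c) (diagBg_ne_zero hb0)
    (diagBg_squarefree hb0 hc0)
  have := Cyc.isIntegrallyClosed hi' h4 (diagBg_not_isUnit b c) (diagBg_ne_zero hb0)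
    (diagBg_squarefree hb0 hc0)
  have hDiag : Diag a = C (a 1) * rename Fin.succ (diagBF b c) := by
    have e1 : a 1 * b = - a 2 := by rw [hb]; field_simp
    have e2 : a 1 * c = - a 3 := by rw [hc]; field_simp
    have s0 : Fin.succ (0 : Fin 3) = 1 := rfl
    have s1 : Fin.succ (1 : Fin 3) = 2 := rfl
    have s2 : Fin.succ (2 : Fin 3) = 3 := rfl
    simp only [diagBF, map_sub, map_add, map_mul, map_pow, rename_X, rename_C, s0, s1, s2]
    have e3 : (C (a 1) * (X 1 ^ 4 - (C b * X 2 ^ 4 + C c * X 3 ^ 4)) : Pol k) =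
        C (a 1) * X 1 ^ 4 - C (a 1 * b) * X 2 ^ 4 - C (a 1 * c) * X 3 ^ 4 := by
      rw [map_mul, map_mul]; ring
    rw [e3, e1, e2, Diag, Fin.sum_univ_four, h0, map_neg, map_neg, map_zero]
    ring
  refine Cone.rho_le (diagBrho b c) ?_ ?_ (diagBrho_surjective b c) ?_
  · ext f
    rw [RingHom.mem_ker, Cone.psi_apply, Ideal.mem_span_singleton, hDiag]
    have hu : IsUnit (C (a 1) : Pol k) := (IsUnit.mk0 _ ha1).map C
    rw [hu.mul_left_dvd]
    have h1 : (rename Fin.succ (diagBF b c) : Pol k) ∣ f ↔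
        Polynomial.C (diagBF b c) ∣ finSuccEquiv k 3 f := by
      rw [← map_dvd_iff (finSuccEquiv k 3), Cone.finSucc_rename]
    rw [h1, Polynomial.C_dvd_iff_dvd_coeff, Polynomial.ext_iff]
    refine forall_congr' fun n => ?_
    rw [Polynomial.coeff_map, Polynomial.coeff_zero, diagBrho_eq_zero_iff]
  · rw [ordB_homog_iff]
    refine Ideal.homogeneous_span _ _ ?_
    rintro _ rfl
    refine ⟨4, ?_⟩
    refine IsHomogeneous.sum _ _ _ fun j _ => ?_
    exact isHomogeneous_C_mul_X_pow _ _ _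
  · intro f hf
    rw [diagBrho_eq_zero_iff] at hf
    obtain ⟨q, rfl⟩ := hf
    rw [map_mul]
    simp [diagBF]

/-- DIAG-B. The cone: if exactly one coefficient vanishes the Picard number is at most 1.
Proof: let `a i = 0` and let `v` be the vertex (the `i`-th unit vector).  Let `D` be locally
principal, `D = div(A/B)` near `v`; `D - div(A/B)` is a combination of prime divisors `Q` not
through `v`.  Such a `Q` contains a form which is monic in `x_i`.  Let `R` be the coordinate ring of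
the plane curve `sum_{j <> i} a_j x_j^4 = 0`, a normal domain.  `Q` meets `R` in `0` (else by
minimality `Q` is generated by a prime of `R`, and passes through `v`).  So `Q` (mod `I`) is generated
by the minimal polynomial `m` of `x_i` mod `Q`, which has coefficients in `R`
(`minpoly.isIntegrallyClosed..`) and is homogeneous: `Q` is the divisor of `m`, linearly equivalent
to a multiple of a hyperplane section. -/
theorem rho_cone_le [IsAlgClosed k] [CharZero k] (a : Fin 4 → k) (i : Fin 4) (hi : a i = 0)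
    (ha : ∀ j, j ≠ i → a j ≠ 0) : rho (Ideal.span {Diag a}) ≤ 1 := by
  let σ := Equiv.swap (0 : Fin 4) i
  let e : Pol k ≃ₐ[k] Pol k := renameEquiv k σ
  have he : HomogIso (e : Pol k ≃+* Pol k) := by
    intro f n
    exact (IsHomogeneous.rename_isHomogeneous_iff σ.injective).symm
  have heD : e (Diag a) = Diag (a ∘ σ) := by
    change rename σ (Diag a) = _
    rw [Diag, Diag, map_sum]
    rw [← Equiv.sum_comp σ]
    refine Finset.sum_congr rfl fun j _ => ?_
    rw [map_mul, map_pow, rename_C, rename_X]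
    simp [σ]
  have hJ : Ideal.span {Diag (a ∘ σ)} = (Ideal.span {Diag a}).map (e : Pol k →+* Pol k) := by
    rw [Ideal.map_span, Set.image_singleton]
    congr 1
    rw [← heD]
    rfl
  rw [← rho_map e he _ _ hJ]
  refine rho_cone_zero (a ∘ σ) ?_ ?_
  · simp [σ, hi]
  · intro j hj
    apply ha
    intro h
    apply hj
    have : σ (σ j) = σ i := congrArg σ h
    simpa [σ] using this

end PicJump

end
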