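import Pool.Agent.Lib_helper43.PJ.D

/-!
BLOCK FibEx of MP_f6fc0c_ag.
BLOCK FIBEX (existence of the Dedekind domain `A`).
Let `K = k(a)` (`RatFunc k`), `F = a^4 + s a^2 + 1`.  Take `A` = the integral closure of `K[v]` in
`K(v)(u)`, `u^4 = F - v^4` (irreducible: `F - v^4` is squarefree in `K[v]`, not a constant), which is
a Dedekind domain.  Show `A = K[v][u]`: if `x = sum_{i<4} c_i u^i` is integral, so are its conjugates
under `u -> i^j u`, hence each `c_i u^i` (4 is invertible and `i` is in `k`), so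
`c_i^4 (F - v^4)^i` is in `K[v]` (integrally closed), and as `F - v^4` is squarefree `c_i` is in
`K[v]`.
Then check the axioms of `Fib`.
-/

set_option linter.unusedSectionVars false

noncomputable section

namespace PicJump

open Polynomial

/-! ### the coefficients of an integral element -/

lemma fx_isUnit {R : Type*} [CommRing R] [IsDomain R] [UniqueFactorizationMonoid R] {G d : R}
    (hG : Squarefree G) (hG0 : G ≠ 0) {j : ℕ} (hj : j ≤ 3) (h : d ^ 4 ∣ G ^ j) : IsUnit d := by
  by_contra hd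
  have hd0 : d ≠ 0 := by
    rintro rfl
    rw [zero_pow (by norm_num), zero_dvd_iff] at h
    exact hG0 (pow_eq_zero_iff (by rintro rfl; simp at h) |>.1 h)
  obtain ⟨p, hp, hpd⟩ := WfDvdMonoid.exists_irreducible_factor hd hd0
  have hp' : Prime p := UniqueFactorizationMonoid.irreducible_iff_prime.mp hp
  have h4 : p ^ 4 ∣ G ^ j := (pow_dvd_pow_of_dvd hpd 4).trans h
  have hpG : p ∣ G := hp'.dvd_of_dvd_pow ((dvd_pow_self p (by norm_num)).trans h4)
  obtain ⟨g, rfl⟩ := hpG
  have hg : ¬ p ∣ g := by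
    rintro ⟨e, rfl⟩
    exact hp.not_isUnit (hG p ⟨e, by ring⟩)
  rw [mul_pow] at h4
  have h5 : p ^ (4 - j) ∣ g ^ j := by
    have e : p ^ 4 = p ^ j * p ^ (4 - j) := by rw [← pow_add]; congr 1; omega
    rw [e] at h4
    exact (mul_dvd_mul_iff_left (pow_ne_zero _ hp.ne_zero)).1 h4
  exact hg (hp'.dvd_of_dvd_pow ((dvd_pow_self p (by omega)).trans h5))

lemma fx_coeff {R E : Type*} [CommRing R] [IsDomain R] [UniqueFactorizationMonoid R] [Field E]
    [Algebra R E] [IsFractionRing R E] {G : R} (hG : Squarefree G) (hG0 : G ≠ 0) {j : ℕ}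
    (hj : j ≤ 3) {c : E} {r : R} (h : c ^ 4 * (algebraMap R E G) ^ j = algebraMap R E r) :
    ∃ c' : R, algebraMap R E c' = c := by
  obtain ⟨n, d, hnd, hc⟩ := IsFractionRing.exists_reduced_fraction (A := R) (K := E) c
  have hd0 : (algebraMap R E d) ≠ 0 := by
    rw [Ne, IsFractionRing.to_map_eq_zero_iff]
    exact nonZeroDivisors.ne_zero d.2
  have hc' : c * algebraMap R E d = algebraMap R E n := by
    rw [← hc]
    exact IsLocalization.mk'_spec E n d
  have h1 : n ^ 4 * G ^ j = r * (d : R) ^ 4 := by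
    apply IsFractionRing.injective R E
    simp only [map_mul, map_pow]
    rw [← hc', ← h]
    ring
  have h2 : (d : R) ^ 4 ∣ G ^ j := by
    have h3 : (d : R) ^ 4 ∣ n ^ 4 * G ^ j := ⟨r, by rw [h1]; ring⟩
    exact IsRelPrime.dvd_of_dvd_mul_left (hnd.symm.pow) h3
  have hu := fx_isUnit hG hG0 hj h2
  obtain ⟨d', hd'⟩ := hu
  refine ⟨n * ((d'⁻¹ : Rˣ) : R), ?_⟩
  rw [map_mul, ← hc', mul_assoc, ← map_mul, ← hd', Units.mul_inv, map_one, mul_one]

lemma fx_parts {R L : Type*} [CommRing R] [Field L] [Algebra R L] (σ : L →ₐ[R] L) {i q : R}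
    (hi : i ^ 2 = -1) (hq : 4 * q = 1) {c : Fin 4 → L} (hc : ∀ j, σ (c j) = c j) {u : L}
    (hu : σ u = algebraMap R L i * u)
    (hx : IsIntegral R (∑ j : Fin 4, c j * u ^ (j : ℕ))) :
    ∀ j : Fin 4, IsIntegral R (c j * u ^ (j : ℕ)) := by
  set I := algebraMap R L i with hI
  have hI2 : I ^ 2 = -1 := by rw [hI, ← map_pow, hi]; simp
  have hI3 : I ^ 3 = -I := by rw [pow_succ, hI2]; ring
  have hQ : (4 : L) * algebraMap R L q = 1 := by
    have := congrArg (algebraMap R L) hq
    rwa [map_mul, map_one, map_ofNat] at this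
  have hσI : σ I = I := by rw [hI]; exact σ.commutes i
  have hIi : IsIntegral R I := isIntegral_algebraMap
  have hQi : IsIntegral R (algebraMap R L q) := isIntegral_algebraMap
  rw [Fin.sum_univ_four] at hx
  simp only [Fin.val_zero, Fin.val_one, Fin.val_two, pow_zero, mul_one, pow_one,
    show ((3 : Fin 4) : ℕ) = 3 from rfl] at hx
  set x := c 0 + c 1 * u + c 2 * u ^ 2 + c 3 * u ^ 3 with hxd
  have e1 : σ x = c 0 + c 1 * (I * u) - c 2 * u ^ 2 - c 3 * (I * u ^ 3) := by
    rw [hxd]; simp only [map_add, map_mul, map_pow, hc, hu]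
    linear_combination (c 2 * u ^ 2 + c 3 * I * u ^ 3) * hI2
  have e2 : σ (σ x) = c 0 - c 1 * u + c 2 * u ^ 2 - c 3 * u ^ 3 := by
    rw [e1]; simp only [map_add, map_sub, map_mul, map_pow, hc, hu, hσI]
    linear_combination (c 1 * u - c 2 * u ^ 2 - c 3 * u ^ 3 * (I ^ 2 - 1)) * hI2
  have e3 : σ (σ (σ x)) = c 0 - c 1 * (I * u) - c 2 * u ^ 2 + c 3 * (I * u ^ 3) := by
    rw [e2]; simp only [map_add, map_sub, map_mul, map_pow, hc, hu]
    linear_combination (c 2 * u ^ 2 - c 3 * I * u ^ 3) * hI2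
  have i1 : IsIntegral R (σ x) := hx.map σ
  have i2 : IsIntegral R (σ (σ x)) := i1.map σ
  have i3 : IsIntegral R (σ (σ (σ x))) := i2.map σ
  have j0 : c 0 = algebraMap R L q * (x + σ x + σ (σ x) + σ (σ (σ x))) := by
    rw [e3, e2, e1, hxd]
    linear_combination (-c 0) * hQ
  have j1 : c 1 * u = algebraMap R L q * (x - I * σ x - σ (σ x) + I * σ (σ (σ x))) := by
    rw [e3, e2, e1, hxd]
    linear_combination (-c 1 * u) * hQ + algebraMap R L q * (2 * c 1 * u - 2 * c 3 * u ^ 3) * hI2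
  have j2 : c 2 * u ^ 2 = algebraMap R L q * (x - σ x + σ (σ x) - σ (σ (σ x))) := by
    rw [e3, e2, e1, hxd]
    linear_combination (-c 2 * u ^ 2) * hQ
  have j3 : c 3 * u ^ 3 = algebraMap R L q * (x + I * σ x - σ (σ x) - I * σ (σ (σ x))) := by
    rw [e3, e2, e1, hxd]
    linear_combination (-c 3 * u ^ 3) * hQ - algebraMap R L q * (2 * c 1 * u - 2 * c 3 * u ^ 3) * hI2
  intro j
  fin_cases j
  · simp only [Fin.zero_eta, pow_zero, mul_one]
    rw [j0]
    exact hQi.mul (((hx.add i1).add i2).add i3)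
  · simp only [Fin.mk_one, pow_one]
    rw [j1]
    exact hQi.mul (((hx.sub (hIi.mul i1)).sub i2).add (hIi.mul i3))
  · show IsIntegral R (c 2 * u ^ 2)
    rw [j2]
    exact hQi.mul (((hx.sub i1).add i2).sub i3)
  · show IsIntegral R (c 3 * u ^ 3)
    rw [j3]
    exact hQi.mul (((hx.add (hIi.mul i1)).sub i2).sub (hIi.mul i3))

/-! ### the field `L` -/

section main

variable {k : Type} [Field k] [IsAlgClosed k] [CharZero k]

omit [IsAlgClosed k] [CharZero k] in
lemma fx_Fr_ne_zero (s : k) : Fr s ≠ 0 := by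
  unfold Fr
  rw [Ne, map_eq_zero_iff _ (RatFunc.algebraMap_injective k)]
  intro h
  have h1 : (Fp s).coeff 4 = 0 := by rw [h]; simp
  simp [Fp, coeff_X_pow, coeff_one, coeff_C_mul] at h1

/-- `F - v^4` -/
def fxG (s : k) : Polynomial (RatFunc k) := C (Fr s) - X ^ 4

omit [IsAlgClosed k] [CharZero k] in
lemma fxG_natDegree (s : k) : (fxG s).natDegree = 4 := by
  unfold fxG
  compute_degree!

omit [IsAlgClosed k] in
lemma fxG_separable (s : k) : (fxG s).Separable := by
  have hF := fx_Fr_ne_zero s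
  refine ⟨C (Fr s)⁻¹, - (C ((Fr s)⁻¹ / 4) * X), ?_⟩
  have h4 : (4 : RatFunc k) ≠ 0 := by norm_num
  have h1 : C (Fr s)⁻¹ * C (Fr s) = (1 : Polynomial (RatFunc k)) := by
    rw [← C_mul, inv_mul_cancel₀ hF, C_1]
  have h2 : C ((Fr s)⁻¹ / 4) * 4 = (C (Fr s)⁻¹ : Polynomial (RatFunc k)) := by
    rw [show (4 : Polynomial (RatFunc k)) = C 4 from rfl, ← C_mul, div_mul_cancel₀ _ h4]
  unfold fxG
  simp only [derivative_sub, derivative_C, derivative_X_pow]
  push_cast
  simp only [C_ofNat, zero_sub]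
  linear_combination h1 + X ^ 4 * h2

omit [IsAlgClosed k] in
lemma fx_irred (s : k) :
    Irreducible (X ^ 4 - C (fxG s) : Polynomial (Polynomial (RatFunc k))) := by
  have hsq := (fxG_separable s).squarefree
  have hdeg := fxG_natDegree s
  have h0 : fxG s ≠ 0 := by intro h; rw [h] at hdeg; simp at hdeg
  have hu : ¬ IsUnit (fxG s) := by
    intro h
    have := natDegree_eq_zero_of_isUnit h
    omega
  obtain ⟨p, hp, hpG⟩ := WfDvdMonoid.exists_irreducible_factor hu h0
  have hI : (Ideal.span {p}).IsPrime := (Ideal.span_singleton_prime hp.ne_zero).2 hp.prime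
  have hm : (X ^ 4 - C (fxG s) : Polynomial (Polynomial (RatFunc k))).Monic :=
    monic_X_pow_sub_C _ (by norm_num)
  refine (hm.isEisensteinAt_of_mem_of_notMem hI.ne_top ?_ ?_).irreducible hI hm.isPrimitive
    (by rw [natDegree_X_pow_sub_C]; norm_num)
  · intro n hn
    rw [natDegree_X_pow_sub_C] at hn
    rw [coeff_sub, coeff_X_pow, if_neg (by omega), zero_sub, neg_mem_iff, coeff_C]
    split_ifs
    · exact Ideal.mem_span_singleton.2 hpG
    · exact Ideal.zero_mem _
  · rw [Ideal.span_singleton_pow, Ideal.mem_span_singleton, coeff_sub, coeff_X_pow,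
      if_neg (by omega), zero_sub, coeff_C_zero, dvd_neg, sq]
    intro h
    exact hp.not_isUnit (hsq p h)

/-- `u^4 - (F - v^4)` over `k(a)(v)` -/
def fxf (s : k) : Polynomial (FractionRing (Polynomial (RatFunc k))) :=
  X ^ 4 - C (algebraMap _ _ (fxG s))

omit [IsAlgClosed k] [CharZero k] in
lemma fxf_natDegree (s : k) : (fxf s).natDegree = 4 := by
  unfold fxf
  exact natDegree_X_pow_sub_C

omit [IsAlgClosed k] [CharZero k] in
lemma fxf_monic (s : k) : (fxf s).Monic := monic_X_pow_sub_C _ (by norm_num)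

instance fxf_irred (s : k) : Fact (Irreducible (fxf s)) := by
  constructor
  have hm : (X ^ 4 - C (fxG s) : Polynomial (Polynomial (RatFunc k))).Monic :=
    monic_X_pow_sub_C _ (by norm_num)
  have h := (hm.irreducible_iff_irreducible_map_fraction_map
    (K := FractionRing (Polynomial (RatFunc k)))).1 (fx_irred s)
  have e : fxf s = (X ^ 4 - C (fxG s) : Polynomial (Polynomial (RatFunc k))).map
      (algebraMap _ (FractionRing (Polynomial (RatFunc k)))) := by
    unfold fxf
    simp only [Polynomial.map_sub, Polynomial.map_pow, map_X, map_C]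
  rw [e]
  exact h

/-- the field `k(a,v)(u)` -/
abbrev fxL (s : k) : Type := AdjoinRoot (fxf s)

/-- the element `u` -/
def fxu (s : k) : fxL s := AdjoinRoot.root (fxf s)

lemma fxu_pow (s : k) : fxu s ^ 4 = algebraMap (Polynomial (RatFunc k)) (fxL s) (fxG s) := by
  have h := AdjoinRoot.eval₂_root (fxf s)
  unfold fxf at h
  simp only [eval₂_sub, eval₂_pow, eval₂_X, eval₂_C] at h
  rw [sub_eq_zero] at h
  exact h

lemma fx_repr (s : k) (x : fxL s) : ∃ c : Fin 4 → FractionRing (Polynomial (RatFunc k)),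
    x = ∑ j : Fin 4, algebraMap _ (fxL s) (c j) * fxu s ^ (j : ℕ) := by
  obtain ⟨p, rfl⟩ := AdjoinRoot.mk_surjective x
  have h1 : AdjoinRoot.mk (fxf s) p = AdjoinRoot.mk (fxf s) (p %ₘ fxf s) := by
    rw [AdjoinRoot.mk_eq_mk]
    exact ⟨p /ₘ fxf s, by linear_combination -(modByMonic_add_div p (fxf s))⟩
  have h2 : (p %ₘ fxf s).natDegree < 4 := by
    have := natDegree_modByMonic_lt p (fxf_monic s) (by
      intro h
      have := fxf_natDegree s
      rw [h] at this
      simp at this)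
    rwa [fxf_natDegree] at this
  refine ⟨fun j => (p %ₘ fxf s).coeff j, ?_⟩
  rw [h1]
  conv_lhs => rw [as_sum_range_C_mul_X_pow' (p %ₘ fxf s) h2]
  rw [map_sum, Finset.sum_range]
  apply Finset.sum_congr rfl
  intro j _
  rw [map_mul, map_pow, AdjoinRoot.mk_X, AdjoinRoot.mk_C]
  rfl

/-- the ring `A` -/
abbrev fxA (s : k) : Type := integralClosure (Polynomial (RatFunc k)) (fxL s)

lemma fxu_int (s : k) : IsIntegral (Polynomial (RatFunc k)) (fxu s) := by
  apply IsIntegral.of_pow (n := 4) (by norm_num)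
  rw [fxu_pow]
  exact isIntegral_algebraMap

/-- the element `u` of `A` -/
def fxuA (s : k) : fxA s := ⟨fxu s, fxu_int s⟩

/-- the element `a` of `A` -/
def fxaA (s : k) : fxA s := algebraMap (RatFunc k) (fxA s) RatFunc.X

/-- the element `v` of `A` -/
def fxvA (s : k) : fxA s := algebraMap (Polynomial (RatFunc k)) (fxA s) X

lemma fxuA_pow (s : k) :
    fxuA s ^ 4 = algebraMap (Polynomial (RatFunc k)) (fxA s) (fxG s) := by
  apply Subtype.ext
  exact fxu_pow s

omit [IsAlgClosed k] [CharZero k] in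
lemma fx_aeval_X (t : Polynomial k) :
    aeval (RatFunc.X : RatFunc k) t = algebraMap (Polynomial k) (RatFunc k) t := by
  rw [← RatFunc.algebraMap_X, aeval_algebraMap_apply, aeval_X_left_apply]

lemma fx_aeval_a (s : k) (t : Polynomial k) :
    aeval (fxaA s) t = algebraMap (RatFunc k) (fxA s) (algebraMap (Polynomial k) (RatFunc k) t) := by
  unfold fxaA
  rw [aeval_algebraMap_apply, fx_aeval_X]

lemma fx_rel (s : k) : fxaA s ^ 4 + algebraMap k (fxA s) s * fxaA s ^ 2 + 1 =
    fxuA s ^ 4 + fxvA s ^ 4 := by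
  have h1 : fxaA s ^ 4 + algebraMap k (fxA s) s * fxaA s ^ 2 + 1 = aeval (fxaA s) (Fp s) := by
    unfold Fp
    simp
  have h2 : algebraMap (RatFunc k) (fxA s) (Fr s) =
      algebraMap (Polynomial (RatFunc k)) (fxA s) (C (Fr s)) := by
    rw [IsScalarTower.algebraMap_apply (RatFunc k) (Polynomial (RatFunc k)) (fxA s)]
    rfl
  rw [h1, fx_aeval_a, fxuA_pow]
  show algebraMap (RatFunc k) (fxA s) (Fr s) = _
  rw [h2]
  unfold fxvA fxG
  rw [map_sub, map_pow]
  ring

lemma fx_unit (s : k) (t : Polynomial k) (ht : t ≠ 0) : IsUnit (aeval (fxaA s) t) := by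
  rw [fx_aeval_a]
  apply IsUnit.map
  rw [isUnit_iff_ne_zero]
  rwa [Ne, map_eq_zero_iff _ (RatFunc.algebraMap_injective k)]

/-- elements that are quotients of polynomials in `a, u, v` by polynomials in `a` -/
def fxGood (s : k) (x : fxA s) : Prop :=
  ∃ (t : Polynomial k) (P : MvPolynomial (Fin 3) k), t ≠ 0 ∧
      x * Polynomial.aeval (fxaA s) t = MvPolynomial.aeval ![fxaA s, fxuA s, fxvA s] P

/-- the substitution of `a` in a polynomial -/
lemma fx_sub (s : k) (t : Polynomial k) :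
    MvPolynomial.aeval ![fxaA s, fxuA s, fxvA s] (aeval (MvPolynomial.X 0 : MvPolynomial (Fin 3) k) t) =
      aeval (fxaA s) t := by
  have := aeval_algHom_apply (MvPolynomial.aeval ![fxaA s, fxuA s, fxvA s] :
    MvPolynomial (Fin 3) k →ₐ[k] fxA s) (MvPolynomial.X 0) t
  rw [MvPolynomial.aeval_X] at this
  exact this.symm

lemma fxGood.add {s : k} {x y : fxA s} (hx : fxGood s x) (hy : fxGood s y) : fxGood s (x + y) := by
  obtain ⟨t, P, ht, hP⟩ := hx
  obtain ⟨t', P', ht', hP'⟩ := hy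
  refine ⟨t * t', P * aeval (MvPolynomial.X 0) t' + P' * aeval (MvPolynomial.X 0) t,
    mul_ne_zero ht ht', ?_⟩
  rw [map_add, map_mul, map_mul, map_mul, fx_sub, fx_sub, ← hP, ← hP']
  ring

lemma fxGood.mul {s : k} {x y : fxA s} (hx : fxGood s x) (hy : fxGood s y) : fxGood s (x * y) := by
  obtain ⟨t, P, ht, hP⟩ := hx
  obtain ⟨t', P', ht', hP'⟩ := hy
  refine ⟨t * t', P * P', mul_ne_zero ht ht', ?_⟩
  rw [map_mul, map_mul, ← hP, ← hP']
  ring

lemma fxGood_u (s : k) : fxGood s (fxuA s) := by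
  refine ⟨1, MvPolynomial.X 1, one_ne_zero, ?_⟩
  rw [map_one, mul_one, MvPolynomial.aeval_X]
  rfl

lemma fxGood_v (s : k) : fxGood s (fxvA s) := by
  refine ⟨1, MvPolynomial.X 2, one_ne_zero, ?_⟩
  rw [map_one, mul_one, MvPolynomial.aeval_X]
  rfl

lemma fxGood_one (s : k) : fxGood s 1 := by
  refine ⟨1, 1, one_ne_zero, ?_⟩
  simp

lemma fxGood.pow {s : k} {x : fxA s} (hx : fxGood s x) (n : ℕ) : fxGood s (x ^ n) := by
  induction n with
  | zero => rw [pow_zero]; exact fxGood_one s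
  | succ n ih => rw [pow_succ]; exact ih.mul hx

lemma fxGood_K (s : k) (q : RatFunc k) : fxGood s (algebraMap (RatFunc k) (fxA s) q) := by
  refine ⟨q.denom, aeval (MvPolynomial.X 0) q.num, RatFunc.denom_ne_zero q, ?_⟩
  rw [fx_sub, fx_aeval_a, fx_aeval_a, ← map_mul]
  congr 1
  conv_lhs => rw [← RatFunc.num_div_denom q]
  rw [RatFunc.num_div_denom]
  have h : algebraMap (Polynomial k) (RatFunc k) q.denom ≠ 0 := by
    rw [Ne, map_eq_zero_iff _ (RatFunc.algebraMap_injective k)]
    exact RatFunc.denom_ne_zero q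
  have h2 := RatFunc.num_div_denom q
  rw [div_eq_iff h] at h2
  exact h2.symm

lemma fxGood_R (s : k) (c : Polynomial (RatFunc k)) :
    fxGood s (algebraMap (Polynomial (RatFunc k)) (fxA s) c) := by
  induction c using Polynomial.induction_on' with
  | add p q hp hq => rw [map_add]; exact hp.add hq
  | monomial n q =>
    rw [← C_mul_X_pow_eq_monomial, map_mul, map_pow]
    refine fxGood.mul ?_ ((fxGood_v s).pow n)
    have := fxGood_K s q
    rw [IsScalarTower.algebraMap_apply (RatFunc k) (Polynomial (RatFunc k)) (fxA s)] at this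
    exact this

lemma fxf_eval₂ (s : k) {T : Type*} [CommRing T]
    (g : FractionRing (Polynomial (RatFunc k)) →+* T) (y : T) :
    (fxf s).eval₂ g y = y ^ 4 - g (algebraMap _ _ (fxG s)) := by
  unfold fxf
  simp only [eval₂_sub, eval₂_pow, eval₂_X, eval₂_C]

lemma fxσ_aux (s : k) (i : k) (hi : i ^ 2 = -1) :
    (fxf s).eval₂ (Algebra.algHom (Polynomial (RatFunc k))
      (FractionRing (Polynomial (RatFunc k))) (fxL s))
      (algebraMap (Polynomial (RatFunc k)) (fxL s) (algebraMap k _ i) * fxu s) = 0 := by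
  rw [fxf_eval₂, mul_pow, fxu_pow, ← map_pow, ← map_pow]
  have h4 : i ^ 4 = 1 := by
    have : i ^ 4 = (i ^ 2) ^ 2 := by ring
    rw [this, hi]; ring
  rw [h4, map_one, map_one, one_mul, sub_eq_zero]
  rfl

/-- the automorphism `u ↦ i u` -/
def fxσ (s : k) (i : k) (hi : i ^ 2 = -1) : fxL s →ₐ[Polynomial (RatFunc k)] fxL s :=
  AdjoinRoot.liftAlgHom (fxf s)
    (Algebra.algHom (Polynomial (RatFunc k)) (FractionRing (Polynomial (RatFunc k))) (fxL s))
    (algebraMap (Polynomial (RatFunc k)) (fxL s) (algebraMap k _ i) * fxu s)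
    (fxσ_aux s i hi)

lemma fxσ_u (s : k) (i : k) (hi : i ^ 2 = -1) : fxσ s i hi (fxu s) =
    algebraMap (Polynomial (RatFunc k)) (fxL s) (algebraMap k _ i) * fxu s :=
  AdjoinRoot.liftAlgHom_root _ _ _ _

lemma fxσ_c (s : k) (i : k) (hi : i ^ 2 = -1) (c : FractionRing (Polynomial (RatFunc k))) :
    fxσ s i hi (algebraMap _ (fxL s) c) = algebraMap _ (fxL s) c :=
  AdjoinRoot.liftAlgHom_of _ _ _ _ _

lemma fx_gen (s : k) (x : fxA s) : fxGood s x := by
  obtain ⟨x, hx⟩ := x
  obtain ⟨c, hc⟩ := fx_repr s x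
  obtain ⟨i, hi⟩ := IsAlgClosed.exists_pow_nat_eq (-1 : k) (n := 2) (by norm_num)
  have hi' : (algebraMap k (Polynomial (RatFunc k)) i) ^ 2 = -1 := by
    rw [← map_pow, hi]; simp
  have hq : (4 : Polynomial (RatFunc k)) * C (1 / 4) = 1 := by
    rw [show (4 : Polynomial (RatFunc k)) = C 4 from rfl, ← C_mul, mul_one_div_cancel, C_1]
    norm_num
  have hx2 : IsIntegral (Polynomial (RatFunc k))
      (∑ j : Fin 4, algebraMap _ (fxL s) (c j) * fxu s ^ (j : ℕ)) := by rw [← hc]; exact hx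
  have hparts := fx_parts (fxσ s i hi) hi' hq (c := fun j => algebraMap _ (fxL s) (c j))
    (fun j => fxσ_c s i hi (c j)) (fxσ_u s i hi) hx2
  have hG0 : fxG s ≠ 0 := by
    intro h
    have := fxG_natDegree s
    rw [h] at this
    simp at this
  have hcoef : ∀ j : Fin 4, ∃ c' : Polynomial (RatFunc k),
      algebraMap _ (FractionRing (Polynomial (RatFunc k))) c' = c j := by
    intro j
    have h1 := (hparts j).pow 4
    have h2 : (algebraMap _ (fxL s) (c j) * fxu s ^ (j : ℕ)) ^ 4 =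
        algebraMap (FractionRing (Polynomial (RatFunc k))) (fxL s)
          (c j ^ 4 * (algebraMap _ _ (fxG s)) ^ (j : ℕ)) := by
      rw [mul_pow, ← pow_mul, mul_comm (j : ℕ) 4, pow_mul, fxu_pow, map_mul, map_pow, map_pow,
        ← IsScalarTower.algebraMap_apply]
    rw [h2] at h1
    have h3 : IsIntegral (Polynomial (RatFunc k))
        (c j ^ 4 * (algebraMap _ (FractionRing (Polynomial (RatFunc k))) (fxG s)) ^ (j : ℕ)) :=
      (isIntegral_algebraMap_iff (algebraMap (FractionRing (Polynomial (RatFunc k)))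
        (fxL s)).injective).1 h1
    obtain ⟨r, hr⟩ := IsIntegrallyClosed.isIntegral_iff.1 h3
    exact fx_coeff (fxG_separable s).squarefree hG0 (by omega) hr.symm
  choose c' hc' using hcoef
  have hx3 : (⟨x, hx⟩ : fxA s) = algebraMap (Polynomial (RatFunc k)) (fxA s) (c' 0) +
      algebraMap (Polynomial (RatFunc k)) (fxA s) (c' 1) * fxuA s +
      algebraMap (Polynomial (RatFunc k)) (fxA s) (c' 2) * fxuA s ^ 2 +
      algebraMap (Polynomial (RatFunc k)) (fxA s) (c' 3) * fxuA s ^ 3 := by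
    apply Subtype.ext
    show x = algebraMap (Polynomial (RatFunc k)) (fxL s) (c' 0) +
      algebraMap (Polynomial (RatFunc k)) (fxL s) (c' 1) * fxu s +
      algebraMap (Polynomial (RatFunc k)) (fxL s) (c' 2) * fxu s ^ 2 +
      algebraMap (Polynomial (RatFunc k)) (fxL s) (c' 3) * fxu s ^ 3
    rw [hc, Fin.sum_univ_four]
    simp only [IsScalarTower.algebraMap_apply (Polynomial (RatFunc k))
      (FractionRing (Polynomial (RatFunc k))) (fxL s), hc']
    simp only [Fin.val_zero, Fin.val_one, Fin.val_two, pow_zero, mul_one, pow_one,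
      show ((3 : Fin 4) : ℕ) = 3 from rfl]
  rw [hx3]
  exact (((fxGood_R s _).add ((fxGood_R s _).mul (fxGood_u s))).add
    ((fxGood_R s _).mul ((fxGood_u s).pow 2))).add ((fxGood_R s _).mul ((fxGood_u s).pow 3))

/-! ### relations -/

/-- `k[a,u,v] → k[a][v][u]` -/
def fxψ (k : Type) [Field k] : MvPolynomial (Fin 3) k →+* Polynomial (Polynomial (Polynomial k)) :=
  (MvPolynomial.aeval (![C (C X), X, C X] : Fin 3 → Polynomial (Polynomial (Polynomial k))) :
    MvPolynomial (Fin 3) k →ₐ[k] Polynomial (Polynomial (Polynomial k))).toRingHom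

/-- `k[a][v][u] → k[a,u,v]` -/
def fxχ (k : Type) [Field k] : Polynomial (Polynomial (Polynomial k)) →+* MvPolynomial (Fin 3) k :=
  eval₂RingHom (eval₂RingHom (aeval (MvPolynomial.X 0 : MvPolynomial (Fin 3) k)).toRingHom
    (MvPolynomial.X 2)) (MvPolynomial.X 1)

omit [IsAlgClosed k] [CharZero k] in
lemma fxχψ (P : MvPolynomial (Fin 3) k) : fxχ k (fxψ k P) = P := by
  have h : (fxχ k).comp (fxψ k) = RingHom.id _ := by
    apply MvPolynomial.ringHom_ext
    · intro r
      simp [fxχ, fxψ]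
    · intro i
      fin_cases i <;> simp [fxχ, fxψ]
  exact congrArg (fun g => g P) h

/-- `k[a][v] → k(a)[v] → k(a)(v)` -/
def fxτ (k : Type) [Field k] : Polynomial (Polynomial k) →+*
    FractionRing (Polynomial (RatFunc k)) :=
  (algebraMap (Polynomial (RatFunc k)) (FractionRing (Polynomial (RatFunc k)))).comp
    (mapRingHom (algebraMap (Polynomial k) (RatFunc k)))

omit [IsAlgClosed k] [CharZero k] in
lemma fxτ_inj : Function.Injective (fxτ k) :=
  (IsFractionRing.injective (Polynomial (RatFunc k)) _).comp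
    (Polynomial.map_injective _ (RatFunc.algebraMap_injective k))

omit [IsAlgClosed k] [CharZero k] in
lemma fxτ_C (t : Polynomial k) : fxτ k (C t) = algebraMap (Polynomial (RatFunc k))
    (FractionRing (Polynomial (RatFunc k))) (C (algebraMap (Polynomial k) (RatFunc k) t)) := by
  unfold fxτ
  rw [RingHom.comp_apply, coe_mapRingHom, map_C]

omit [IsAlgClosed k] [CharZero k] in
lemma fxτ_X : fxτ k X = algebraMap (Polynomial (RatFunc k))
    (FractionRing (Polynomial (RatFunc k))) X := by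
  unfold fxτ
  rw [RingHom.comp_apply, coe_mapRingHom, map_X]

/-- evaluation `k[a][v][u] → L` -/
def fxε (s : k) : Polynomial (Polynomial (Polynomial k)) →+* fxL s :=
  (AdjoinRoot.mk (fxf s)).comp (mapRingHom (fxτ k))

lemma fxε_ψ (s : k) (P : MvPolynomial (Fin 3) k) : fxε s (fxψ k P) =
    (MvPolynomial.aeval ![fxaA s, fxuA s, fxvA s] P : fxA s) := by
  have h : (fxε s).comp (fxψ k) = (algebraMap (fxA s) (fxL s)).comp
      (MvPolynomial.aeval ![fxaA s, fxuA s, fxvA s] : MvPolynomial (Fin 3) k →ₐ[k] fxA s).toRingHom := by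
    apply MvPolynomial.ringHom_ext
    · intro r
      simp [fxε, fxψ]
      rw [fxτ_C, RatFunc.algebraMap_C]
      rfl
    · intro i
      fin_cases i
      · simp [fxε, fxψ]
        rw [fxτ_C, RatFunc.algebraMap_X]
        rfl
      · simp [fxε, fxψ]
        rfl
      · simp [fxε, fxψ]
        rw [fxτ_X]
        rfl
  exact congrArg (fun g => g P) h

lemma fx_inj (s : k) (P : MvPolynomial (Fin 3) k)
    (hP : MvPolynomial.aeval ![fxaA s, fxuA s, fxvA s] P = 0) : relPoly s ∣ P := by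
  set m : Polynomial (Polynomial (Polynomial k)) := X ^ 4 - C (C (Fp s) - X ^ 4) with hm
  have hmon : m.Monic := monic_X_pow_sub_C _ (by norm_num)
  have hdeg : m.natDegree = 4 := natDegree_X_pow_sub_C
  have hmap : mapRingHom (fxτ k) m = fxf s := by
    rw [hm]
    unfold fxf fxG fxτ
    simp only [coe_mapRingHom, Polynomial.map_sub, Polynomial.map_pow, map_X, map_C, map_sub,
      RingHom.comp_apply, map_pow]
    rfl
  have hmε : fxε s m = 0 := by
    show AdjoinRoot.mk (fxf s) (mapRingHom (fxτ k) m) = 0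
    rw [hmap, AdjoinRoot.mk_self]
  have h0 : fxε s (fxψ k P) = 0 := by
    rw [fxε_ψ, hP]
    rfl
  have hr : fxε s (fxψ k P %ₘ m) = 0 := by
    have := congrArg (fxε s) (modByMonic_add_div (fxψ k P) m)
    rw [map_add, map_mul, hmε, zero_mul, add_zero, h0] at this
    exact this
  have hlt : (fxψ k P %ₘ m).natDegree < 4 := by
    have := natDegree_modByMonic_lt (fxψ k P) hmon (by
      intro h
      rw [h] at hdeg
      simp at hdeg)
    rwa [hdeg] at this
  have hr0 : fxψ k P %ₘ m = 0 := by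
    have h1 : fxf s ∣ mapRingHom (fxτ k) (fxψ k P %ₘ m) := AdjoinRoot.mk_eq_zero.1 hr
    have h2 : (mapRingHom (fxτ k) (fxψ k P %ₘ m)).natDegree < (fxf s).natDegree := by
      rw [fxf_natDegree]
      exact lt_of_le_of_lt natDegree_map_le hlt
    have h3 := eq_zero_of_dvd_of_natDegree_lt h1 h2
    exact (map_eq_zero_iff _ (Polynomial.map_injective _ fxτ_inj)).1 h3
  have hdvd : m ∣ fxψ k P := (modByMonic_eq_zero_iff_dvd hmon).1 hr0
  have h1 := map_dvd (fxχ k) hdvd
  rw [fxχψ] at h1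
  have h2 : fxχ k m = - relPoly s := by
    have e1 : fxχ k X = MvPolynomial.X 1 := by simp [fxχ]
    have e2 : fxχ k (C X) = MvPolynomial.X 2 := by simp [fxχ]
    have e3 : fxχ k (C (C (Fp s))) = aeval (MvPolynomial.X 0 : MvPolynomial (Fin 3) k) (Fp s) := by
      simp [fxχ]
    have e4 : m + C (C (Fp s)) = X ^ 4 + C X ^ 4 := by
      rw [hm, C_sub, C_pow]
      ring
    have e5 := congrArg (fxχ k) e4
    rw [map_add, map_add, map_pow, map_pow, e1, e2, e3] at e5
    have e6 : aeval (MvPolynomial.X 0 : MvPolynomial (Fin 3) k) (Fp s) =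
        MvPolynomial.X 0 ^ 4 + MvPolynomial.C s * MvPolynomial.X 0 ^ 2 + 1 := by
      unfold Fp
      simp only [map_add, map_mul, map_pow, map_one, aeval_X, aeval_C]
      rw [MvPolynomial.algebraMap_eq]
    rw [e6] at e5
    unfold relPoly
    linear_combination e5
  rw [h2, neg_dvd] at h1
  exact h1

end main

theorem exists_fib (k : Type) [Field k] [IsAlgClosed k] [CharZero k] (s : k) :
    ∃ (A : Type) (_ : CommRing A) (_ : IsDomain A) (_ : IsDedekindDomain A) (_ : Algebra k A),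
      Nonempty (Fib k A s) := by
  have : FiniteDimensional (FractionRing (Polynomial (RatFunc k))) (fxL s) :=
    (AdjoinRoot.powerBasis (fxf_monic s).ne_zero).finite
  refine ⟨fxA s, inferInstance, inferInstance, inferInstance, inferInstance, ⟨?_⟩⟩
  exact ⟨fxaA s, fxuA s, fxvA s, fx_rel s, fx_unit s, fx_gen s, fx_inj s⟩

end PicJump

end
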