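import Pool.Agent.Lib_helper43.PJ.D
import Pool.Agent.Lib_helper62.PJ.UfdLocal

/-!
BLOCK SmoothA of MP_f6fc0c_ag.
BLOCK SMOOTH (smooth surfaces in `P^3` are locally factorial).
-/

noncomputable section

namespace PicJump

open MvPolynomial

variable {k : Type} [Field k]

/-- the linear form `v_i x_m - v_m x_i` -/
def smAl (v : Fin 4 → k) (i m : Fin 4) : Pol k := C (v i) * X m - C (v m) * X i

/-- substitution `x_m -> (v_m / v_i) x_i` for `m` in `s` -/
def smApsi (v : Fin 4 → k) (i : Fin 4) (s : Set (Fin 4)) : Pol k →ₐ[k] Pol k :=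
  open Classical in aeval (fun m => if m ∈ s then C (v m / v i) * X i else X m)

theorem smA_ker (v : Fin 4 → k) (i : Fin 4) (hvi : v i ≠ 0) (s : Set (Fin 4)) (hi : i ∉ s) :
    RingHom.ker (smApsi v i s) = Ideal.span (smAl v i '' s) := by
  classical
  apply le_antisymm
  · have key : ∀ f : Pol k, f - smApsi v i s f ∈ Ideal.span (smAl v i '' s) := by
      intro f
      induction f using MvPolynomial.induction_on with
      | C a => simp [smApsi]
      | add p q hp hq =>
        rw [map_add, add_sub_add_comm]; exact add_mem hp hq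
      | mul_X p m hp =>
        have hX : X m - smApsi v i s (X m) ∈ Ideal.span (smAl v i '' s) := by
          by_cases hm : m ∈ s
          · have e : X m - smApsi v i s (X m) = C (v i)⁻¹ * smAl v i m := by
              simp only [smApsi, aeval_X, if_pos hm, smAl]
              rw [mul_sub, ← mul_assoc, ← mul_assoc, ← C_mul, ← C_mul, inv_mul_cancel₀ hvi, C_1,
                one_mul, div_eq_inv_mul]
            rw [e]; exact Ideal.mul_mem_left _ _ (Ideal.subset_span ⟨m, hm, rfl⟩)
          · simp [smApsi, hm]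
        have e : p * X m - smApsi v i s (p * X m) = (p - smApsi v i s p) * X m +
            smApsi v i s p * (X m - smApsi v i s (X m)) := by rw [map_mul]; ring
        rw [e]
        exact add_mem (Ideal.mul_mem_right _ _ hp) (Ideal.mul_mem_left _ _ hX)
    intro f hf
    have := key f
    rw [RingHom.mem_ker] at hf
    rw [hf, sub_zero] at this; exact this
  · rw [Ideal.span_le]
    rintro _ ⟨m, hm, rfl⟩
    change smApsi v i s (smAl v i m) = 0
    simp only [smAl, smApsi, map_sub, map_mul, aeval_X, if_pos hm, if_neg hi, algHom_C,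
      algebraMap_eq]
    rw [← mul_assoc, ← C_mul, mul_div_cancel₀ _ hvi, sub_self]

theorem smA_prime (v : Fin 4 → k) (i : Fin 4) (hvi : v i ≠ 0) (s : Set (Fin 4)) (hi : i ∉ s) :
    (Ideal.span (smAl v i '' s)).IsPrime := by
  rw [← smA_ker v i hvi s hi]; exact RingHom.ker_isPrime _

theorem smA_not_mem (v : Fin 4 → k) (i : Fin 4) (hvi : v i ≠ 0) (s : Set (Fin 4)) (hi : i ∉ s)
    (m : Fin 4) (hm : m ∉ s) (hmi : m ≠ i) : smAl v i m ∉ Ideal.span (smAl v i '' s) := by
  classical
  rw [← smA_ker v i hvi s hi, RingHom.mem_ker]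
  simp only [smAl, smApsi, map_sub, map_mul, aeval_X, if_neg hm, if_neg hi, algHom_C, algebraMap_eq]
  intro h
  have := congrArg (coeff (Finsupp.single m 1)) h
  simp [coeff_C_mul, coeff_X, Finsupp.single_left_inj, Ne.symm hmi, hvi] at this

theorem smA_eval (v : Fin 4 → k) (i : Fin 4) (s : Set (Fin 4)) (f : Pol k)
    (hf : f ∈ Ideal.span (smAl v i '' s)) : eval v f = 0 := by
  have : Ideal.span (smAl v i '' s) ≤ RingHom.ker (eval v) := by
    rw [Ideal.span_le]
    rintro _ ⟨m, hm, rfl⟩
    change eval v (smAl v i m) = 0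
    simp [smAl]; ring
  exact this hf

theorem smA_mem_of_homog (v : Fin 4 → k) (i : Fin 4) (hvi : v i ≠ 0) (f : Pol k) (n : ℕ)
    (hf : f.IsHomogeneous n) (hv : eval v f = 0) : f ∈ Ideal.span (smAl v i '' {m | m ≠ i}) := by
  classical
  rw [← smA_ker v i hvi {m | m ≠ i} (by simp), RingHom.mem_ker]
  have h1 : smApsi v i {m | m ≠ i} f = C ((v i)⁻¹ ^ n * eval v f) * X i ^ n := by
    have e0 : smApsi v i {m | m ≠ i} = aeval (fun m => C (v m * (v i)⁻¹) * X i) := by
      apply MvPolynomial.algHom_ext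
      intro m
      by_cases hm : m = i
      · subst hm; simp [smApsi]; rw [← C_mul, mul_inv_cancel₀ hvi, C_1]
      · simp [smApsi, hm, div_eq_mul_inv]
    rw [e0]
    rw [aeval_def, eval₂_eq, eval_eq]
    rw [Finset.mul_sum, map_sum, Finset.sum_mul]
    apply Finset.sum_congr rfl
    intro d hd
    have hdn : ∑ m, d m = n := by
      have := hf (mem_support_iff.1 hd)
      rw [Finsupp.weight_apply, Finsupp.sum_fintype] at this
      · simpa using this
      · intro m; simp
    have e1 : ∏ m, (C (v m * (v i)⁻¹) * X i : Pol k) ^ d m =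
        C (∏ m, v m ^ d m) * C ((v i)⁻¹ ^ n) * X i ^ n := by
      simp only [mul_pow, Finset.prod_mul_distrib, Finset.prod_pow_eq_pow_sum, hdn, C_mul, C_pow]
      rw [map_prod]
      simp only [C_pow]
    have e2 : ∏ m ∈ d.support, (C (v m * (v i)⁻¹) * X i : Pol k) ^ d m =
        ∏ m, (C (v m * (v i)⁻¹) * X i : Pol k) ^ d m := by
      apply Finset.prod_subset (Finset.subset_univ _)
      intro m _ hm; rw [Finsupp.notMem_support_iff.1 hm, pow_zero]
    have e3 : ∏ m ∈ d.support, v m ^ d m = ∏ m, v m ^ d m := by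
      apply Finset.prod_subset (Finset.subset_univ _)
      intro m _ hm; rw [Finsupp.notMem_support_iff.1 hm, pow_zero]
    rw [e2, e1, e3]
    simp only [algebraMap_eq, C_mul]
    ring
  rw [h1, hv]; simp

theorem smA_inj {R : Type} [CommRing R] [IsDomain R] (P : Ideal R) [P.IsPrime] :
    Function.Injective (algebraMap R (Localization.AtPrime P)) :=
  IsLocalization.injective _ P.primeCompl_le_nonZeroDivisors

attribute [local instance] MvPolynomial.gradedAlgebra

theorem smA_dec (f : Pol k) (n : ℕ) :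
    ((DirectSum.decompose (homogeneousSubmodule (Fin 4) k) f) n : Pol k) =
      homogeneousComponent n f := decomposition.decompose'_apply f n

theorem smA_homog {J : Ideal (Pol k)} (h : HomogIdeal J) :
    J.IsHomogeneous (homogeneousSubmodule (Fin 4) k) := by
  intro n f hf
  rw [smA_dec]
  exact h f hf n

theorem smA_of_homog {J : Ideal (Pol k)} (h : J.IsHomogeneous (homogeneousSubmodule (Fin 4) k)) :
    HomogIdeal J := fun _ hf n => MvPolynomial.homogeneousComponent_mem_of_mem h hf n

theorem smA_comp_mul (s h : Pol k) (m n : ℕ) (hh : h.IsHomogeneous m) :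
    homogeneousComponent (n + m) (s * h) = homogeneousComponent n s * h := by
  have := DirectSum.coe_decompose_mul_add_of_right_mem (homogeneousSubmodule (Fin 4) k)
    (a := s) (b := h) (i := n) (j := m) ((mem_homogeneousSubmodule m h).2 hh)
  rw [smA_dec, smA_dec] at this
  exact this

/-- SMOOTH-A. -/
theorem exists_local_eq {F : Pol k} {d : ℕ} (hF : F.IsHomogeneous d)
    (hprime : (Ideal.span {F} : Ideal (Pol k)).IsPrime) (hF0 : F ≠ 0)
    (v : Fin 4 → k) (hv : v ≠ 0) (hFv : eval v F = 0) (hsm : ∃ i, eval v (pderiv i F) ≠ 0)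
    (Q : PrimeDiv (Ideal.span {F})) (hQ : ∀ f ∈ Q.carrier, eval v f = 0) :
    ∃ (n : ℕ) (A : Pol k), A.IsHomogeneous n ∧ A ∈ Q.carrier ∧
      ∃ s : Pol k, eval v s ≠ 0 ∧ ∀ h ∈ Q.carrier, s * h ∈ Ideal.span {A} ⊔ Ideal.span {F} := by
  classical
  obtain ⟨i, hvi⟩ : ∃ i, v i ≠ 0 := by
    by_contra h; push Not at h; exact hv (funext h)
  -- Euler: a partial derivative with index different from `i` is nonzero
  obtain ⟨j0, hj0i, hj0⟩ : ∃ j0, j0 ≠ i ∧ eval v (pderiv j0 F) ≠ 0 := by
    by_contra h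
    push Not at h
    have heul := congrArg (eval v) hF.sum_X_mul_pderiv
    simp only [map_sum, map_mul, eval_X, map_nsmul, hFv, smul_zero] at heul
    have h2 : v i * eval v (pderiv i F) = 0 := by
      rw [Finset.sum_eq_single i] at heul
      · exact heul
      · intro m _ hm; rw [h m hm, mul_zero]
      · simp
    have h3 : eval v (pderiv i F) = 0 := (mul_eq_zero.1 h2).resolve_left hvi
    obtain ⟨m, hm⟩ := hsm
    by_cases hmi : m = i
    · exact hm (hmi ▸ h3)
    · exact hm (h m hmi)
  -- the other two indices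
  obtain ⟨j1, j2, hj1i, hj2i, hj10, hj20, hj12, hall⟩ : ∃ j1 j2 : Fin 4, j1 ≠ i ∧ j2 ≠ i ∧
      j1 ≠ j0 ∧ j2 ≠ j0 ∧ j1 ≠ j2 ∧ ∀ m : Fin 4, m ≠ i → m = j0 ∨ m = j1 ∨ m = j2 := by
    clear hj0 hvi
    revert hj0i; revert i j0; decide
  set a := smAl v i j1 with ha
  set b := smAl v i j2 with hb
  set c := smAl v i j0 with hc
  set P : Ideal (Pol k) := Ideal.span (smAl v i '' {m | m ≠ i}) with hP
  have hPp : P.IsPrime := smA_prime v i hvi _ (by simp)
  have hPeval : ∀ f ∈ P, eval v f = 0 := fun f hf => smA_eval v i _ f hf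
  have hPhom : ∀ (f : Pol k) (n : ℕ), f.IsHomogeneous n → eval v f = 0 → f ∈ P :=
    fun f n hf hv => smA_mem_of_homog v i hvi f n hf hv
  have hcP : c ∈ P := Ideal.subset_span ⟨j0, hj0i, rfl⟩
  have haP : a ∈ P := Ideal.subset_span ⟨j1, hj1i, rfl⟩
  have hbP : b ∈ P := Ideal.subset_span ⟨j2, hj2i, rfl⟩
  -- membership in `P`
  have hPmem : ∀ f ∈ P, ∃ f0 f1 f2 : Pol k, f = c * f0 + a * f1 + b * f2 := by
    intro f hf
    induction hf using Submodule.span_induction with
    | mem x hx =>
      obtain ⟨m, hm, rfl⟩ := hx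
      rcases hall m hm with rfl | rfl | rfl
      · exact ⟨1, 0, 0, by rw [hc]; ring⟩
      · exact ⟨0, 1, 0, by rw [ha]; ring⟩
      · exact ⟨0, 0, 1, by rw [hb]; ring⟩
    | zero => exact ⟨0, 0, 0, by ring⟩
    | add x y _ _ hx hy =>
      obtain ⟨x0, x1, x2, rfl⟩ := hx
      obtain ⟨y0, y1, y2, rfl⟩ := hy
      exact ⟨x0 + y0, x1 + y1, x2 + y2, by ring⟩
    | smul r x _ hx =>
      obtain ⟨x0, x1, x2, rfl⟩ := hx
      exact ⟨r * x0, r * x1, r * x2, by rw [smul_eq_mul]; ring⟩
  have hFP : F ∈ P := hPhom F d hF hFv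
  obtain ⟨G, α, β, hFG⟩ := hPmem F hFP
  have hGv : eval v G ≠ 0 := by
    intro h0
    apply hj0
    rw [hFG]
    have ea : eval v a = 0 := hPeval a haP
    have eb : eval v b = 0 := hPeval b hbP
    have ec : eval v c = 0 := hPeval c hcP
    have da : pderiv j0 a = 0 := by
      rw [ha, smAl]; simp [pderiv_X, hj10, Ne.symm hj0i]
    have db : pderiv j0 b = 0 := by
      rw [hb, smAl]; simp [pderiv_X, hj20, Ne.symm hj0i]
    simp only [map_add, Derivation.leibniz, smul_eq_mul, map_mul, da, db, ea, eb, ec, h0]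
    simp
  have hGP : G ∉ P := fun h => hGv (hPeval G h)
  -- the ideal `(a, b)` is prime
  have hab : (Ideal.span {a, b} : Ideal (Pol k)).IsPrime := by
    have := smA_prime v i hvi {j1, j2} (by simp [Ne.symm hj1i, Ne.symm hj2i])
    rwa [Set.image_pair] at this
  have hcab : c ∉ (Ideal.span {a, b} : Ideal (Pol k)) := by
    have := smA_not_mem v i hvi {j1, j2} (by simp [Ne.symm hj1i, Ne.symm hj2i]) j0
      (by simp [Ne.symm hj10, Ne.symm hj20]) hj0i
    rwa [Set.image_pair] at this
  have hap : (Ideal.span {a} : Ideal (Pol k)).IsPrime := by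
    have := smA_prime v i hvi {j1} (by simp [Ne.symm hj1i])
    rwa [Set.image_singleton] at this
  have hba : b ∉ (Ideal.span {a} : Ideal (Pol k)) := by
    have := smA_not_mem v i hvi {j1} (by simp [Ne.symm hj1i]) j2
      (by simp [Ne.symm hj12]) hj2i
    rwa [Set.image_singleton] at this
  have habP : (Ideal.span {a, b} : Ideal (Pol k)) ≤ P := by
    rw [Ideal.span_le]; rintro x (rfl | rfl)
    · exact haP
    · exact hbP
  have hFab : F ∉ (Ideal.span {a, b} : Ideal (Pol k)) := by
    intro h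
    have h1 : c * G ∈ (Ideal.span {a, b} : Ideal (Pol k)) := by
      have e : c * G = F - (a * α + b * β) := by rw [hFG]; ring
      rw [e]
      exact sub_mem h (add_mem (Ideal.mul_mem_right _ _ (Ideal.subset_span (by simp)))
        (Ideal.mul_mem_right _ _ (Ideal.subset_span (by simp))))
    rcases hab.mem_or_mem h1 with h2 | h2
    · exact hcab h2
    · exact hGP (habP h2)
  have hreg0 : ∀ x y z : Pol k, b * x = a * y + F * z → ∃ y' z', x = a * y' + F * z' := by
    intro x y z h
    have h1 : F * z ∈ (Ideal.span {a, b} : Ideal (Pol k)) := by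
      have e : F * z = b * x - a * y := by rw [h]; ring
      rw [e]
      exact sub_mem (Ideal.mul_mem_right _ _ (Ideal.subset_span (by simp)))
        (Ideal.mul_mem_right _ _ (Ideal.subset_span (by simp)))
    have h2 := (hab.mem_or_mem h1).resolve_left hFab
    obtain ⟨z1, z2, hz⟩ := Ideal.mem_span_pair.1 h2
    have h3 : b * (x - F * z2) ∈ (Ideal.span {a} : Ideal (Pol k)) := by
      rw [Ideal.mem_span_singleton]
      exact ⟨y + F * z1, by rw [← hz] at h; linear_combination h⟩
    have h4 := (hap.mem_or_mem h3).resolve_left hba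
    obtain ⟨y', hy'⟩ := Ideal.mem_span_singleton.1 h4
    exact ⟨y', z2, by linear_combination hy'⟩
  -- the local ring
  set R := Pol k ⧸ (Ideal.span {F} : Ideal (Pol k)) with hR
  have hRd : IsDomain R := (Ideal.Quotient.isDomain_iff_prime _).2 hprime
  set mk : Pol k →+* R := Ideal.Quotient.mk _ with hmk
  have hmks : Function.Surjective mk := Ideal.Quotient.mk_surjective
  have hmk0 : ∀ f, mk f = 0 ↔ f ∈ (Ideal.span {F} : Ideal (Pol k)) := fun f =>
    Ideal.Quotient.eq_zero_iff_mem
  have hker : RingHom.ker mk = Ideal.span {F} := Ideal.mk_ker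
  have hFleP : (Ideal.span {F} : Ideal (Pol k)) ≤ P := (Ideal.span_singleton_le_iff_mem _).2 hFP
  set PR : Ideal R := P.map mk with hPR
  have hPRp : PR.IsPrime := Ideal.map_isPrime_of_surjective hmks (by rw [hker]; exact hFleP)
  have hcomap : ∀ J : Ideal (Pol k), Ideal.span {F} ≤ J → ∀ f, mk f ∈ J.map mk ↔ f ∈ J := by
    intro J hJ f
    rw [Ideal.mem_map_iff_of_surjective mk hmks]
    constructor
    · rintro ⟨g, hg, he⟩
      have h1 : f - g ∈ (Ideal.span {F} : Ideal (Pol k)) := by
        rw [← hmk0, map_sub, he, sub_self]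
      have : f = (f - g) + g := by ring
      rw [this]; exact add_mem (hJ h1) hg
    · intro hf; exact ⟨f, hf, rfl⟩
  have hufd : UniqueFactorizationMonoid (Localization.AtPrime PR) := by
    apply Pool.Agent.Lib_helper62.PJ.ufd_atPrime PR (mk a) (mk b)
    · rw [Ne, hmk0, Ideal.mem_span_singleton]
      rintro ⟨h, hh⟩
      have h1 : F * h ∈ (Ideal.span {a} : Ideal (Pol k)) := by
        rw [← hh]; exact Ideal.mem_span_singleton_self a
      have hFa : F ∉ (Ideal.span {a} : Ideal (Pol k)) := fun h => hFab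
        (Ideal.span_mono (by simp) h)
      have h2 := (hap.mem_or_mem h1).resolve_left hFa
      obtain ⟨h', rfl⟩ := Ideal.mem_span_singleton.1 h2
      have ha0 : a ≠ 0 := by
        intro h0
        have := smA_not_mem v i hvi ∅ (by simp) j1 (by simp) hj1i
        apply this
        rw [← ha, h0]; exact zero_mem _
      have h3 : F * h' = 1 := by
        apply mul_left_cancel₀ ha0
        linear_combination -hh
      exact hprime.ne_top (Ideal.eq_top_of_isUnit_mem _ (Ideal.mem_span_singleton_self F)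
        (IsUnit.of_mul_eq_one _ h3))
    · exact Ideal.mem_map_of_mem _ haP
    · exact Ideal.mem_map_of_mem _ hbP
    · refine ⟨mk G, fun h => hGP ((hcomap P hFleP G).1 h), ?_⟩
      intro x hx
      obtain ⟨f, rfl⟩ := hmks x
      rw [hcomap P hFleP] at hx
      obtain ⟨f0, f1, f2, rfl⟩ := hPmem f hx
      rw [← map_mul, Ideal.mem_span_pair]
      refine ⟨mk (G * f1 - α * f0), mk (G * f2 - β * f0), ?_⟩
      rw [← map_mul, ← map_mul, ← map_add, ← sub_eq_zero, ← map_sub, hmk0, Ideal.mem_span_singleton]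
      exact ⟨- f0, by rw [hFG]; ring⟩
    · intro x hx
      obtain ⟨f, rfl⟩ := hmks x
      obtain ⟨y', hy'⟩ := Ideal.mem_span_singleton.1 hx
      obtain ⟨y, rfl⟩ := hmks y'
      rw [← map_mul, ← map_mul, ← sub_eq_zero, ← map_sub, hmk0, Ideal.mem_span_singleton] at hy'
      obtain ⟨z, hz⟩ := hy'
      obtain ⟨y1, z1, h1⟩ := hreg0 f y z (by linear_combination hz)
      rw [Ideal.mem_span_singleton]
      refine ⟨mk y1, ?_⟩
      rw [← map_mul, ← sub_eq_zero, ← map_sub, hmk0, Ideal.mem_span_singleton]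
      exact ⟨z1, by linear_combination h1⟩
  set O := Localization.AtPrime PR with hO
  set ι : Pol k →+* O := (algebraMap R O).comp mk with hι
  have hinj : Function.Injective (algebraMap R O) := smA_inj PR
  have hι0 : ∀ f, ι f = 0 ↔ f ∈ (Ideal.span {F} : Ideal (Pol k)) := by
    intro f
    rw [hι, RingHom.comp_apply, map_eq_zero_iff _ hinj, hmk0]
  have hιdvd : ∀ f g, ι f ∣ ι g → ∃ s, s ∉ P ∧ s * g ∈ Ideal.span {f} ⊔ Ideal.span {F} := by
    rintro f g ⟨y, hy⟩
    obtain ⟨x, t, rfl⟩ := IsLocalization.exists_mk'_eq PR.primeCompl y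
    obtain ⟨x, rfl⟩ := hmks x
    obtain ⟨t, ht⟩ := t
    obtain ⟨t, rfl⟩ := hmks t
    refine ⟨t, fun h => ht (Ideal.mem_map_of_mem _ h), ?_⟩
    have e1 : IsLocalization.mk' O (mk x) (⟨mk t, ht⟩ : PR.primeCompl) * algebraMap R O (mk t) =
        algebraMap R O (mk x) := IsLocalization.mk'_spec O (mk x) (⟨mk t, ht⟩ : PR.primeCompl)
    have e2 : ι (t * g) = ι (f * x) := by
      rw [map_mul, map_mul, hy]
      have : ι t = algebraMap R O (mk t) := rfl
      have h2 : ι x = algebraMap R O (mk x) := rfl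
      rw [this, h2, ← e1]; ring
    have e3 : t * g - f * x ∈ (Ideal.span {F} : Ideal (Pol k)) := by
      rw [← hι0, map_sub, e2, sub_self]
    have : t * g = f * x + (t * g - f * x) := by ring
    rw [this]
    exact Submodule.add_mem_sup (Ideal.mul_mem_right _ _ (Ideal.mem_span_singleton_self f)) e3
  have hιunit : ∀ f, ι f ∈ IsLocalRing.maximalIdeal O ↔ f ∈ P := by
    intro f
    rw [hι, RingHom.comp_apply, IsLocalization.AtPrime.to_map_mem_maximal_iff O PR, hcomap P hFleP]
  -- the prime `Q`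
  have hQp := Q.prime
  have hQF : Ideal.span {F} ≤ Q.carrier := Q.lt.le
  have hQP : Q.carrier ≤ P := by
    intro f hf
    rw [← sum_homogeneousComponent f]
    exact sum_mem fun n _ => hPhom _ n (homogeneousComponent_isHomogeneous n f)
      (hQ _ (Q.homog f hf n))
  have hQRp : (Q.carrier.map mk).IsPrime := Ideal.map_isPrime_of_surjective hmks
    (by rw [hker]; exact hQF)
  set qO : Ideal O := (Q.carrier.map mk).map (algebraMap R O) with hqO
  have hdisj : Disjoint (PR.primeCompl : Set R) (Q.carrier.map mk : Ideal R) := by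
    rw [Set.disjoint_left]
    intro x hx hx'
    exact hx (Ideal.map_mono hQP hx')
  have hqOp : qO.IsPrime := IsLocalization.isPrime_of_isPrime_disjoint PR.primeCompl O _ hQRp hdisj
  have hqOmem : ∀ f, ι f ∈ qO ↔ f ∈ Q.carrier := by
    intro f
    have h1 := IsLocalization.under_map_of_isPrime_disjoint PR.primeCompl O hQRp hdisj
    have h2 : ι f ∈ qO ↔ mk f ∈ (Q.carrier.map mk : Ideal R) := by
      constructor
      · intro h
        rw [← h1]; exact h
      · intro h; exact Ideal.mem_map_of_mem _ h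
    rw [h2, hcomap _ hQF]
  -- a homogeneous element of `Q` outside `(F)`
  have hsumout : ∀ (J : Ideal (Pol k)) (f : Pol k), f ∉ J → ∃ n, homogeneousComponent n f ∉ J := by
    intro J f hf
    by_contra h
    push Not at h
    apply hf
    rw [← sum_homogeneousComponent f]
    exact sum_mem fun n _ => h n
  obtain ⟨f, hfQ, hfF⟩ := Set.exists_of_ssubset Q.lt
  obtain ⟨n0, hn0⟩ := hsumout _ f hfF
  set A0 := homogeneousComponent n0 f with hA0
  have hA0Q : A0 ∈ Q.carrier := Q.homog f hfQ n0
  have hA0h : A0.IsHomogeneous n0 := homogeneousComponent_isHomogeneous n0 f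
  have hιA0 : ι A0 ≠ 0 := fun h => hn0 ((hι0 _).1 h)
  -- a prime factor of `A0` in `Q`
  obtain ⟨fac, hfac, hassoc⟩ := UniqueFactorizationMonoid.exists_prime_factors (ι A0) hιA0
  obtain ⟨π, hπfac, hπq⟩ : ∃ π ∈ fac, π ∈ qO := by
    have h1 : fac.prod ∈ qO := by
      obtain ⟨u, hu⟩ := hassoc.symm
      rw [← hu]; exact Ideal.mul_mem_right _ _ ((hqOmem A0).2 hA0Q)
    exact (Ideal.IsPrime.multiset_prod_mem_iff_exists_mem hqOp fac).1 h1
  have hπ : Prime π := hfac π hπfac
  have hπA0 : π ∣ ι A0 := (Multiset.dvd_prod hπfac).trans hassoc.dvd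
  have hπp : (Ideal.span {π} : Ideal O).IsPrime := (Ideal.span_singleton_prime hπ.ne_zero).2 hπ
  -- every element of `Q` is divisible by `π`
  have hdiv : ∀ h ∈ Q.carrier, π ∣ ι h := by
    set P' : Ideal (Pol k) := (Ideal.span {π} : Ideal O).comap ι with hP'
    have hP'p : P'.IsPrime := Ideal.comap_isPrime ι _
    have hP'Q : P' ≤ Q.carrier := by
      intro x hx
      rw [← hqOmem]
      exact (Ideal.span_singleton_le_iff_mem _).2 hπq hx
    set P'' := (P'.homogeneousCore (homogeneousSubmodule (Fin 4) k)).toIdeal with hP''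
    have hP''p : P''.IsPrime := Ideal.IsPrime.homogeneousCore hP'p
    have hP''h : HomogIdeal P'' := smA_of_homog (HomogeneousIdeal.isHomogeneous _)
    have hP''le : P'' ≤ P' := Ideal.toIdeal_homogeneousCore_le _ _
    have hmem : ∀ (x : Pol k) (n : ℕ), x.IsHomogeneous n → x ∈ P' → x ∈ P'' := by
      intro x n hx hxP
      exact Ideal.mem_homogeneousCore_of_homogeneous_of_mem ⟨n, hx⟩ hxP
    have hFP'' : (Ideal.span {F} : Ideal (Pol k)) ≤ P'' := by
      rw [Ideal.span_singleton_le_iff_mem]
      apply hmem F d hF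
      change ι F ∈ (Ideal.span {π} : Ideal O)
      rw [(hι0 F).2 (Ideal.mem_span_singleton_self F)]; exact zero_mem _
    have hlt : (Ideal.span {F} : Ideal (Pol k)) < P'' := by
      refine lt_of_le_of_ne hFP'' fun he => hn0 ?_
      rw [he]
      exact hmem A0 n0 hA0h (Ideal.mem_span_singleton.2 hπA0)
    have heq := Q.minimal P'' hP''p hP''h hlt (hP''le.trans hP'Q)
    intro h hh
    rw [← heq] at hh
    exact Ideal.mem_span_singleton.1 (hP''le hh)
  -- some homogeneous element of `Q` generates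
  obtain ⟨n, A, hAh, hAQ, hAdvd⟩ : ∃ (n : ℕ) (A : Pol k), A.IsHomogeneous n ∧ A ∈ Q.carrier ∧
      ι A ∣ π := by
    by_contra hcon
    push Not at hcon
    have h1 : ∀ h ∈ Q.carrier, ι h ∈ Ideal.span {π} * IsLocalRing.maximalIdeal O := by
      intro h hh
      rw [← sum_homogeneousComponent h, map_sum]
      apply sum_mem
      intro m _
      have hm := Q.homog h hh m
      obtain ⟨y, hy⟩ := hdiv _ hm
      rw [hy]
      apply Ideal.mul_mem_mul (Ideal.mem_span_singleton_self π)
      rw [IsLocalRing.mem_maximalIdeal]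
      intro hu
      exact hcon m _ (homogeneousComponent_isHomogeneous m h) hm
        ((hy ▸ (associated_mul_unit_left π y hu)).dvd)
    have h2 : qO ≤ Ideal.span {π} * IsLocalRing.maximalIdeal O := by
      rw [hqO, Ideal.map_map, Ideal.map_le_iff_le_comap]
      exact h1
    obtain ⟨y, hy, he⟩ := Ideal.mem_span_singleton_mul.1 (h2 hπq)
    have h3 : y = 1 := mul_left_cancel₀ hπ.ne_zero (by rw [he, mul_one])
    rw [h3] at hy
    exact (Ideal.ne_top_iff_one _).1 (IsLocalRing.maximalIdeal.isMaximal O).ne_top hy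
  -- homogeneous multipliers
  have hIhom : (Ideal.span {A} ⊔ Ideal.span {F} : Ideal (Pol k)).IsHomogeneous
      (homogeneousSubmodule (Fin 4) k) := by
    apply Ideal.IsHomogeneous.sup
    · apply Ideal.homogeneous_span; rintro x rfl; exact ⟨n, hAh⟩
    · apply Ideal.homogeneous_span; rintro x rfl; exact ⟨d, hF⟩
  have hmult : ∀ (h : Pol k) (m : ℕ), h.IsHomogeneous m → h ∈ Q.carrier →
      ∃ s : Pol k, eval v s ≠ 0 ∧ s * h ∈ Ideal.span {A} ⊔ Ideal.span {F} := by
    intro h m hh hhQ
    obtain ⟨s, hs, hsm⟩ := hιdvd A h (hAdvd.trans (hdiv h hhQ))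
    obtain ⟨r, hr⟩ := hsumout P s hs
    refine ⟨homogeneousComponent r s, fun h0 => hr (hPhom _ r
      (homogeneousComponent_isHomogeneous r s) h0), ?_⟩
    rw [← smA_comp_mul s h m r hh]
    exact MvPolynomial.homogeneousComponent_mem_of_mem hIhom hsm _
  have hmult' : ∀ h ∈ Q.carrier,
      ∃ s : Pol k, eval v s ≠ 0 ∧ s * h ∈ Ideal.span {A} ⊔ Ideal.span {F} := by
    intro h hh
    choose! s hs1 hs2 using fun m => hmult (homogeneousComponent m h) m
      (homogeneousComponent_isHomogeneous m h) (Q.homog h hh m)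
    refine ⟨∏ m ∈ Finset.range (h.totalDegree + 1), s m, ?_, ?_⟩
    · rw [map_prod]; exact Finset.prod_ne_zero_iff.2 fun m _ => hs1 m
    · nth_rewrite 2 [← sum_homogeneousComponent h]
      rw [Finset.mul_sum]
      apply sum_mem
      intro m hm
      rw [← Finset.mul_prod_erase _ _ hm, mul_comm (s m), mul_assoc]
      exact Ideal.mul_mem_left _ _ (hs2 m)
  -- uniform multiplier
  obtain ⟨T, hT⟩ := (isNoetherianRing_iff_ideal_fg (Pol k)).1 inferInstance Q.carrier
  have hTQ : ∀ h ∈ T, h ∈ Q.carrier := fun h hh => hT ▸ Ideal.subset_span hh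
  choose! s hs1 hs2 using fun h => hmult' h
  refine ⟨n, A, hAh, hAQ, ∏ h ∈ T, s h, ?_, ?_⟩
  · rw [map_prod]; exact Finset.prod_ne_zero_iff.2 fun h hh => hs1 h (hTQ h hh)
  · intro h hh
    rw [← hT] at hh
    induction hh using Submodule.span_induction with
    | mem x hx =>
      rw [← Finset.mul_prod_erase _ _ hx, mul_comm (s x), mul_assoc]
      exact Ideal.mul_mem_left _ _ (hs2 x (hTQ x hx))
    | zero => simp
    | add x y _ _ hx hy => rw [mul_add]; exact add_mem hx hy
    | smul r x _ hx => rw [smul_eq_mul, mul_left_comm]; exact Ideal.mul_mem_left _ _ hx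

end PicJump

end
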