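import Pool.Agent.Lib_helper43.PJ.D

/-!
BLOCK SmoothB of MP_f6fc0c_ag.
BLOCK SMOOTH (smooth surfaces in `P^3` are locally factorial).
-/

noncomputable section

namespace PicJump

open MvPolynomial

variable {k : Type} [Field k]

/-- the restriction of a polynomial to the line through `v` -/
def smoothBline (v : Fin 4 → k) : Pol k →ₐ[k] Polynomial k :=
  aeval fun i => Polynomial.C (v i) * Polynomial.X

theorem smoothBline_homog (v : Fin 4 → k) {f : Pol k} {n : ℕ} (hf : f.IsHomogeneous n) :
    smoothBline v f = Polynomial.C (eval v f) * Polynomial.X ^ n := by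
  have h1 : smoothBline v f = ∑ d ∈ f.support, Polynomial.C (f.coeff d) *
      ∏ i, (Polynomial.C (v i) * Polynomial.X) ^ d i := by
    rw [smoothBline, aeval_def, eval₂_eq']
    rfl
  rw [h1, eval_eq', map_sum, Finset.sum_mul]
  refine Finset.sum_congr rfl fun d hd => ?_
  have h2 : ∑ i, d i = n := by
    have := hf (mem_support_iff.1 hd)
    rw [← this, Finsupp.weight_apply, Finsupp.sum_fintype _ _ (fun i => by simp)]
    simp
  rw [map_mul, map_prod, mul_assoc]
  congr 1
  simp_rw [mul_pow]
  rw [Finset.prod_mul_distrib, Finset.prod_pow_eq_pow_sum, h2]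
  simp

theorem smoothBline_eq_sum (v : Fin 4 → k) (f : Pol k) :
    smoothBline v f = ∑ n ∈ Finset.range (f.totalDegree + 1),
      Polynomial.C (eval v (homogeneousComponent n f)) * Polynomial.X ^ n := by
  conv_lhs => rw [← sum_homogeneousComponent f]
  rw [map_sum]
  refine Finset.sum_congr rfl fun n _ => ?_
  exact smoothBline_homog v (homogeneousComponent_isHomogeneous n f)

theorem smoothBline_zero_iff (v : Fin 4 → k) (f : Pol k) :
    smoothBline v f = 0 ↔ ∀ n, eval v (homogeneousComponent n f) = 0 := by
  rw [smoothBline_eq_sum]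
  constructor
  · intro h n
    by_cases hn : n ∈ Finset.range (f.totalDegree + 1)
    · have h1 := congrArg (fun p => Polynomial.coeff p n) h
      simp only [Polynomial.finsetSum_coeff, Polynomial.coeff_C_mul, Polynomial.coeff_X_pow,
        Polynomial.coeff_zero, mul_ite, mul_one, mul_zero] at h1
      rw [Finset.sum_ite_eq, if_pos hn] at h1
      exact h1
    · rw [homogeneousComponent_eq_zero _ _ (by simpa using hn)]
      simp
  · intro h
    refine Finset.sum_eq_zero fun n _ => ?_
    rw [h n]
    simp

theorem smoothB_null [IsAlgClosed k] (J : Ideal (Pol k)) (hJ : J.IsPrime) (f : Pol k)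
    (h : ∀ v : Fin 4 → k, (∀ g ∈ J, eval v g = 0) → eval v f = 0) : f ∈ J := by
  have h1 : f ∈ vanishingIdeal k (zeroLocus k J) := by
    rw [mem_vanishingIdeal_iff]
    intro x hx
    rw [mem_zeroLocus_iff] at hx
    have := h x (fun g hg => by simpa using hx g hg)
    simpa using this
  rw [vanishingIdeal_zeroLocus_eq_radical, hJ.radical] at h1
  exact h1

/-- SMOOTH-B. Every prime divisor of a surface has a closed point (`k` algebraically closed).
Proof: otherwise by the Nullstellensatz `Q` contains all `X_i`; but there is a homogeneous prime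
strictly between `(F)` and `(X_0,..,X_3)`: the ideal `P_v` of a point `v` of the surface. -/
theorem exists_point [IsAlgClosed k] {F : Pol k} {d : ℕ} (hF : F.IsHomogeneous d) (hd : 2 ≤ d)
    (hprime : (Ideal.span {F} : Ideal (Pol k)).IsPrime) (hF0 : F ≠ 0)
    (Q : PrimeDiv (Ideal.span {F})) : ∃ v : Fin 4 → k, v ≠ 0 ∧ ∀ f ∈ Q.carrier, eval v f = 0 := by
  by_contra hcon
  push Not at hcon
  have hdeg : ∀ g : Pol k, g ≠ 0 → g.IsHomogeneous 1 → g ∉ Ideal.span {F} := by
    intro g hg hg1 h
    obtain ⟨c, hc⟩ := Ideal.mem_span_singleton'.1 h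
    have hc0 : c ≠ 0 := by rintro rfl; exact hg (by rw [← hc, zero_mul])
    have h1 := totalDegree_mul_of_isDomain hc0 hF0
    rw [hc, hg1.totalDegree hg, hF.totalDegree hF0] at h1
    omega
  -- `F` has a nonzero zero
  have hpt : ∃ v : Fin 4 → k, v ≠ 0 ∧ eval v F = 0 := by
    by_contra hno
    push Not at hno
    refine hdeg (X 0) (X_ne_zero _) (isHomogeneous_X _ _) ?_
    refine smoothB_null _ hprime _ fun v hv => ?_
    by_cases hv0 : v = 0
    · rw [hv0]; simp
    · exact absurd (hv F (Ideal.mem_span_singleton_self _)) (hno v hv0)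
  obtain ⟨v, hv0, hvF⟩ := hpt
  have hX : ∀ i, (X i : Pol k) ∈ Q.carrier := by
    intro i
    refine smoothB_null _ Q.prime _ fun w hw => ?_
    by_cases hw0 : w = 0
    · rw [hw0]; simp
    · obtain ⟨f, hf, hf'⟩ := hcon w hw0
      exact absurd (hw f hf) hf'
  have hQle : ∀ f : Pol k, eval 0 f = 0 → f ∈ Q.carrier := by
    intro f hf
    refine smoothB_null _ Q.prime _ fun w hw => ?_
    have : w = 0 := by
      funext i
      simpa using hw (X i) (hX i)
    rw [this, hf]
  have hker : ∀ f, f ∈ RingHom.ker (smoothBline v) ↔ ∀ n, eval v (homogeneousComponent n f) = 0 :=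
    fun f => by rw [RingHom.mem_ker]; exact smoothBline_zero_iff v f
  obtain ⟨i, hi⟩ : ∃ i, v i ≠ 0 := by
    by_contra h
    push Not at h
    exact hv0 (funext h)
  have hXi : (X i : Pol k) ∉ RingHom.ker (smoothBline v) := by
    rw [RingHom.mem_ker, smoothBline_homog v (isHomogeneous_X _ _)]
    simp [hi]
  have hle : RingHom.ker (smoothBline v) ≤ Q.carrier := by
    intro f hf
    rw [RingHom.mem_ker] at hf
    refine hQle f ?_
    have h0 := (smoothBline_zero_iff v f).1 hf 0
    rw [homogeneousComponent_zero] at h0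
    rw [eval_C] at h0
    have h1 : eval (0 : Fin 4 → k) f = coeff 0 f := by
      rw [← constantCoeff_eq, ← eval_zero']
      rfl
    rw [h1]
    exact h0
  have h := Q.minimal (RingHom.ker (smoothBline v)) (RingHom.ker_isPrime _) ?_ ?_ hle
  · exact hXi (h ▸ hX i)
  · intro f hf n
    rw [hker] at hf ⊢
    intro m
    by_cases hmn : m = n
    · subst hmn
      rw [homogeneousComponent_of_mem ((homogeneousComponent_isHomogeneous m f)), if_pos rfl]
      exact hf m
    · rw [homogeneousComponent_of_mem (homogeneousComponent_isHomogeneous n f), if_neg hmn, map_zero]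
  · refine lt_of_le_of_ne ?_ ?_
    · rw [Ideal.span_singleton_le_iff_mem, RingHom.mem_ker, smoothBline_homog v hF, hvF]
      simp
    · intro heq
      obtain ⟨j, hj⟩ : ∃ j : Fin 4, j ≠ i := exists_ne i
      have hg : (C (v j) * X i - C (v i) * X j : Pol k) ≠ 0 := by
        intro h0
        have := congrArg (eval (Pi.single j (1 : k))) h0
        simp [Pi.single_apply, hj.symm, hi] at this
      refine hdeg _ hg ?_ ?_
      · refine IsHomogeneous.sub ?_ ?_
        · simpa using (isHomogeneous_C (Fin 4) (v j)).mul (isHomogeneous_X k i)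
        · simpa using (isHomogeneous_C (Fin 4) (v i)).mul (isHomogeneous_X k j)
      · rw [heq, RingHom.mem_ker]
        simp [smoothBline]
        ring

end PicJump

end
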