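import Pool.Agent.Lib_helper43.PJ.D
import Pool.Agent.Lib_helper43.PJ.W_OrdA
import Pool.Agent.Lib_helper43.PJ.W_OrdB
import Pool.Agent.Lib_helper43.PJ.W_SmoothA
import Pool.Agent.Lib_helper43.PJ.W_SmoothB

/-!
BLOCK SmoothC of MP_f6fc0c_ag.
BLOCK SMOOTH (smooth surfaces in `P^3` are locally factorial).
-/

noncomputable section

namespace PicJump

open MvPolynomial

variable {k : Type} [Field k]

/-- SMOOTH-C. From SMOOTH-A and SMOOTH-B. (`s` in SMOOTH-A does not lie in `Q`.) -/
theorem smooth_locPrin [IsAlgClosed k] {F : Pol k} {d : ℕ} (hF : F.IsHomogeneous d) (hd : 2 ≤ d)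
    (hprime : (Ideal.span {F} : Ideal (Pol k)).IsPrime) (hF0 : F ≠ 0) (hsm : SmoothSurface F)
    (Q : PrimeDiv (Ideal.span {F})) : ∃ p, LocPrin Q p := by
  obtain ⟨v, hv, hQ⟩ := exists_point hF hd hprime hF0 Q
  have hFv : eval v F = 0 := hQ F (Q.lt.le (Ideal.mem_span_singleton_self _))
  obtain ⟨n, A, _, hAQ, s, hs, h⟩ := exists_local_eq hF hprime hF0 v hv hFv (hsm v hv hFv) Q hQ
  exact ⟨A, hAQ, s, fun hsQ => hs (hQ s hsQ), h⟩

/-- SMOOTH-C. The local equation of `D = sum n_Q Q` at `v` is the product of the `A_Q ^ n_Q` for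
those `Q` which pass through `v` (divided by the right power of a linear form not vanishing at `v`);
orders are additive by `LocPrin.ord_mul`, and `A_Q` has order `1` along `Q` and order `0` along any
other `Q'` through `v` (if `A_Q` is in `Q'`, then `s Q <= Q'`, so `Q <= Q'` and `Q = Q'`). -/
theorem smooth_locallyPrincipal [IsAlgClosed k] {F : Pol k} {d : ℕ} (hF : F.IsHomogeneous d)
    (hd : 2 ≤ d) (hprime : (Ideal.span {F} : Ideal (Pol k)).IsPrime) (hF0 : F ≠ 0)
    (hsm : SmoothSurface F) (D : PrimeDiv (Ideal.span {F}) →₀ ℤ) : LocallyPrincipal D := by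
  classical
  intro v hv hvI
  have hlp := smooth_locPrin hF hd hprime hF0 hsm
  have hone : (1 : Pol k) ∉ Ideal.span {F} :=
    fun h => hprime.ne_top ((Ideal.eq_top_iff_one _).2 h)
  have hFv : eval v F = 0 := hvI F (Ideal.mem_span_singleton_self _)
  obtain ⟨i, hi⟩ : ∃ i, v i ≠ 0 := by
    by_contra h; push Not at h; exact hv (funext h)
  let S : AddSubgroup (PrimeDiv (Ideal.span {F}) →₀ ℤ) :=
    { carrier := {D | ∃ (d : ℕ) (A B : Pol k), A.IsHomogeneous d ∧ B.IsHomogeneous d ∧
        A ∉ (Ideal.span {F} : Ideal (Pol k)) ∧ B ∉ (Ideal.span {F} : Ideal (Pol k)) ∧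
        ∀ Q : PrimeDiv (Ideal.span {F}), (∀ f ∈ Q.carrier, eval v f = 0) →
          D Q = (ord Q A : ℤ) - (ord Q B : ℤ)}
      zero_mem' := by
        refine ⟨0, 1, 1, isHomogeneous_one _ _, isHomogeneous_one _ _, hone, hone, fun Q _ => ?_⟩
        rw [sub_self]; rfl
      add_mem' := by
        rintro D₁ D₂ ⟨d, A, B, hA, hB, hAI, hBI, h1⟩ ⟨e, A', B', hA', hB', hAI', hBI', h2⟩
        refine ⟨d + e, A * A', B * B', hA.mul hA', hB.mul hB',
          fun h => (hprime.mem_or_mem h).elim hAI hAI', fun h => (hprime.mem_or_mem h).elim hBI hBI',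
          fun Q hQ => ?_⟩
        obtain ⟨p, hp⟩ := hlp Q
        rw [Finsupp.add_apply, h1 Q hQ, h2 Q hQ, hp.ord_mul hprime hAI hAI',
          hp.ord_mul hprime hBI hBI']
        push_cast
        ring
      neg_mem' := by
        rintro D ⟨d, A, B, hA, hB, hAI, hBI, h1⟩
        refine ⟨d, B, A, hB, hA, hBI, hAI, fun Q hQ => ?_⟩
        rw [Finsupp.neg_apply, h1 Q hQ]
        ring }
  have hsingle : ∀ Q : PrimeDiv (Ideal.span {F}), Finsupp.single Q (1 : ℤ) ∈ S := by
    intro Q
    by_cases hQ : ∀ f ∈ Q.carrier, eval v f = 0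
    · obtain ⟨n, A, hA, hAQ, s, hs, h⟩ := exists_local_eq hF hprime hF0 v hv hFv (hsm v hv hFv) Q hQ
      have hloc : LocPrin Q A := ⟨hAQ, s, fun hsQ => hs (hQ s hsQ), h⟩
      refine ⟨n, A, X i ^ n, hA, ?_, ordA_not_mem hprime hloc, ?_, ?_⟩
      · simpa using (isHomogeneous_X k i).pow n
      · intro hmem
        have := hvI _ hmem
        rw [map_pow, eval_X] at this
        exact pow_ne_zero n hi this
      · intro Q' hQ'
        have hX : (X i ^ n : Pol k) ∉ Q'.carrier := by
          intro hmem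
          have := hQ' _ hmem
          rw [map_pow, eval_X] at this
          exact pow_ne_zero n hi this
        rw [ord_eq_zero_of_not_mem Q' hX]
        by_cases hQQ : Q = Q'
        · subst hQQ
          rw [hloc.ord_self hprime]
          simp
        · rw [Finsupp.single_eq_of_ne (Ne.symm hQQ), ord_eq_zero_of_not_mem Q']
          · simp
          · intro hAQ'
            apply hQQ
            have hle : Q.carrier ≤ Q'.carrier := by
              intro f hf
              have h1 := h f hf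
              have h2 : (Ideal.span {A} ⊔ Ideal.span {F} : Ideal (Pol k)) ≤ Q'.carrier :=
                sup_le ((Ideal.span_singleton_le_iff_mem _).2 hAQ') Q'.lt.le
              exact (Q'.prime.mem_or_mem (h2 h1)).resolve_left fun hsQ => hs (hQ' s hsQ)
            have heq := Q'.minimal Q.carrier Q.prime Q.homog Q.lt hle
            cases Q; cases Q'
            simp only at heq
            subst heq
            rfl
    · refine ⟨0, 1, 1, isHomogeneous_one _ _, isHomogeneous_one _ _, hone, hone, fun Q' hQ' => ?_⟩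
      rw [sub_self, Finsupp.single_eq_of_ne]
      rintro rfl
      exact hQ hQ'
  have hD : D ∈ S := by
    induction D using Finsupp.induction_linear with
    | zero => exact S.zero_mem
    | add f g hf hg => exact S.add_mem hf hg
    | single Q n =>
      have : Finsupp.single Q n = n • Finsupp.single Q (1 : ℤ) := by simp
      rw [this]
      exact S.zsmul_mem (hsingle Q) n
  exact hD

theorem smooth_Pic_eq_top [IsAlgClosed k] {F : Pol k} {d : ℕ} (hF : F.IsHomogeneous d)
    (hd : 2 ≤ d) (hprime : (Ideal.span {F} : Ideal (Pol k)).IsPrime) (hF0 : F ≠ 0)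
    (hsm : SmoothSurface F) : Pic (Ideal.span {F} : Ideal (Pol k)) = ⊤ := by
  rw [eq_top_iff]
  intro c _
  obtain ⟨D, rfl⟩ := QuotientAddGroup.mk_surjective c
  exact AddSubgroup.subset_closure ⟨D, smooth_locallyPrincipal hF hd hprime hF0 hsm D, rfl⟩

theorem smooth_rho [IsAlgClosed k] {F : Pol k} {d : ℕ} (hF : F.IsHomogeneous d)
    (hd : 2 ≤ d) (hprime : (Ideal.span {F} : Ideal (Pol k)).IsPrime) (hF0 : F ≠ 0)
    (hsm : SmoothSurface F) :
    rho (Ideal.span {F} : Ideal (Pol k)) = Module.rank ℤ (Cl (Ideal.span {F} : Ideal (Pol k))) := by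
  unfold rho
  rw [smooth_Pic_eq_top hF hd hprime hF0 hsm]
  exact (AddSubgroup.topEquiv (G := Cl (Ideal.span {F} : Ideal (Pol k)))).toIntLinearEquiv.rank_eq

end PicJump

end
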