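import Pool.Agent.Lib_helper43.PJ.D
import Pool.Agent.Lib_helper43.PJ.W_Surf0
import Pool.Agent.Lib_helper43.PJ.W_OrdA
import Pool.Agent.Lib_helper43.PJ.W_OrdB

/-!
BLOCK SurfC of MP_f6fc0c_ag.
BLOCKS SURF (the surface `X_s` and its generic fibre).
-/

set_option linter.unusedSectionVars false

noncomputable section

namespace PicJump

open MvPolynomial

/-! ### general lemmas -/

lemma sc_homog_span {k : Type} [Field k] (S : Set (Pol k))
    (h : ∀ g ∈ S, ∃ n, g.IsHomogeneous n) : HomogIdeal (Ideal.span S) := by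
  let _ := MvPolynomial.gradedAlgebra (σ := Fin 4) (R := k)
  have h1 : (Ideal.span S).IsHomogeneous (homogeneousSubmodule (Fin 4) k) :=
    Ideal.homogeneous_span _ _ fun x hx => by
      obtain ⟨n, hn⟩ := h x hx
      exact ⟨n, (mem_homogeneousSubmodule n x).2 hn⟩
  intro f hf n
  exact homogeneousComponent_mem_of_mem h1 hf n

lemma sc_min {R : Type*} [CommRing R] [IsDomain R] [IsNoetherianRing R] {I J L : Ideal R}
    (hI : I.IsPrime) (hI0 : I ≠ ⊥) (hJ : J.IsPrime) (hL : L.IsPrime) (hIJ : I < J) (hJL : J ≤ L)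
    {a b : R} (hab : L = Ideal.span {a, b}) : J = L := by
  classical
  by_contra hne
  have hlt : J < L := lt_of_le_of_ne hJL hne
  have h1 := Ideal.height_add_one_le_of_lt_of_isPrime hIJ
  have h2 := Ideal.height_add_one_le_of_lt_of_isPrime hlt
  have h3 : L.height ≤ 2 := by
    have hm : L ∈ (Ideal.span (({a, b} : Finset R) : Set R)).minimalPrimes := by
      rw [Finset.coe_pair, ← hab]
      rw [Ideal.minimalPrimes_eq_subsingleton_self]
      rfl
    refine (Ideal.height_le_card_of_mem_minimalPrimes_span_finset hm).trans ?_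
    exact_mod_cast Finset.card_le_two
  have h4 : I.height ≠ 0 := by
    rw [Ne, Ideal.height_eq_zero_iff_eq_bot]
    exact hI0
  have h5 : (1 : ℕ∞) ≤ I.height := Order.one_le_iff_ne_zero.2 h4
  have h6 : (1 : ℕ∞) + 1 + 1 ≤ 2 := by
    calc (1 : ℕ∞) + 1 + 1 ≤ I.height + 1 + 1 := by gcongr
      _ ≤ J.height + 1 := by gcongr
      _ ≤ L.height := h2
      _ ≤ 2 := h3
  exact absurd h6 (by decide)

lemma sc_sub {k : Type} [Field k] {L : Ideal (Pol k)} (e : Pol k → Pol k)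
    (hadd : ∀ p q, e (p + q) = e p + e q) (hmul : ∀ p q, e (p * q) = e p * e q)
    (hC : ∀ r, e (C r) = C r) (hX : ∀ i, X i - e (X i) ∈ L) (f : Pol k) : f - e f ∈ L := by
  induction f using MvPolynomial.induction_on with
  | C r => rw [hC, sub_self]; exact L.zero_mem
  | add p q hp hq =>
    have : p + q - e (p + q) = (p - e p) + (q - e q) := by
      rw [hadd]; ring
    rw [this]
    exact L.add_mem hp hq
  | mul_X p i hp =>
    have : p * X i - e (p * X i) = X i * (p - e p) + e p * (X i - e (X i)) := by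
      rw [hmul]; ring
    rw [this]
    exact L.add_mem (L.mul_mem_left _ hp) (L.mul_mem_left _ (hX i))

variable {k : Type} [Field k] [IsAlgClosed k] [CharZero k] {s : k}

lemma sc_lin_not_mem {g : Pol k} (hg : g.IsHomogeneous 1) (hg0 : g ≠ 0) : g ∉ IX s := by
  intro h
  rw [IX, Ideal.mem_span_singleton] at h
  obtain ⟨c, hc⟩ := h
  have hc0 : c ≠ 0 := by
    rintro rfl
    rw [mul_zero] at hc
    exact hg0 hc
  have h1 := totalDegree_mul_of_isDomain (Phi_ne_zero s) hc0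
  rw [← hc, hg.totalDegree hg0, (Phi_homog s).totalDegree (Phi_ne_zero s)] at h1
  omega

lemma sc_IX_ne_bot (s : k) : IX s ≠ ⊥ := by
  rw [IX, Ne, Ideal.span_singleton_eq_bot]
  exact Phi_ne_zero s

/-- construction of prime divisors -/
def sc_mk (hs : s ^ 2 ≠ 4) (L : Ideal (Pol k)) (hp : L.IsPrime) (hh : HomogIdeal L)
    (hlt : IX s < L) {a b : Pol k} (hab : L = Ideal.span {a, b}) : PrimeDiv (IX s) where
  carrier := L
  prime := hp
  homog := hh
  lt := hlt
  minimal _ hJ _ hIJ hJL := sc_min (IX_prime s hs) (sc_IX_ne_bot s) hJ hp hIJ hJL hab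

/-! ### lines -/

/-- restriction to the line -/
def scφ (p q : k) : Pol k →ₐ[k] MvPolynomial (Fin 2) k :=
  aeval ![C p * X 0, X 0, C q * X 1, X 1]

/-- section of the restriction to the line -/
def scι (k : Type) [Field k] : MvPolynomial (Fin 2) k →ₐ[k] Pol k := aeval ![X 1, X 3]

lemma scφ_0 (p q : k) : scφ p q (X 0) = C p * X 0 := by simp [scφ]
lemma scφ_1 (p q : k) : scφ p q (X 1) = X 0 := by simp [scφ]
lemma scφ_2 (p q : k) : scφ p q (X 2) = C q * X 1 := by simp [scφ]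
lemma scφ_3 (p q : k) : scφ p q (X 3) = X 1 := by simp [scφ]
lemma scφ_C (p q r : k) : scφ p q (C r) = C r := by
  simp [scφ]

lemma sc_line_ker (p q : k) : lineIdeal p q = RingHom.ker (scφ p q) := by
  apply le_antisymm
  · rw [lineIdeal, Ideal.span_le]
    intro g hg
    simp only [Set.mem_insert_iff, Set.mem_singleton_iff] at hg
    rcases hg with rfl | rfl
    · rw [SetLike.mem_coe, RingHom.mem_ker]
      show scφ p q _ = 0
      rw [map_sub, map_mul, scφ_0, scφ_1, scφ_C, sub_self]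
    · rw [SetLike.mem_coe, RingHom.mem_ker]
      show scφ p q _ = 0
      rw [map_sub, map_mul, scφ_2, scφ_3, scφ_C, sub_self]
  · intro f hf
    rw [RingHom.mem_ker] at hf
    have h := sc_sub (L := lineIdeal p q) (fun f => scι k (scφ p q f))
      (fun _ _ => by rw [map_add, map_add]) (fun _ _ => by rw [map_mul, map_mul])
      (by intro r; simp [scφ, scι]) (by
        intro i
        fin_cases i
        · simp [scφ, scι]
          exact Ideal.subset_span (by simp)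
        · simp [scφ, scι]
        · simp [scφ, scι]
          exact Ideal.subset_span (by simp)
        · simp [scφ, scι]) f
    have h2 : scφ p q f = 0 := hf
    rwa [h2, map_zero, sub_zero] at h

lemma sc_line_prime (p q : k) : (lineIdeal p q).IsPrime := by
  rw [sc_line_ker]
  exact RingHom.ker_isPrime _

lemma sc_hom_lin (i j : Fin 4) (c : k) : (X i - C c * X j : Pol k).IsHomogeneous 1 := by
  apply IsHomogeneous.sub (isHomogeneous_X _ _)
  have := (isHomogeneous_C (Fin 4) c).mul (isHomogeneous_X k j)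
  rwa [zero_add] at this

lemma sc_line_homog (p q : k) : HomogIdeal (lineIdeal p q) := by
  apply sc_homog_span
  intro g hg
  simp only [Set.mem_insert_iff, Set.mem_singleton_iff] at hg
  rcases hg with rfl | rfl
  · exact ⟨1, sc_hom_lin _ _ _⟩
  · exact ⟨1, sc_hom_lin _ _ _⟩

lemma sc_C_eq {p : k} (hp : p ^ 4 + s * p ^ 2 + 1 = 0) {σ : Type} :
    (C p : MvPolynomial σ k) ^ 4 + C s * C p ^ 2 + 1 = 0 := by
  have := congrArg (C : k →+* MvPolynomial σ k) hp
  simpa only [map_add, map_mul, map_pow, map_one, map_zero] using this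

lemma sc_C_q {q : k} (hq : q ^ 4 = -1) {σ : Type} : (C q : MvPolynomial σ k) ^ 4 = -1 := by
  have := congrArg (C : k →+* MvPolynomial σ k) hq
  simpa only [map_neg, map_pow, map_one] using this

lemma sc_Phi_mem {p q : k} (hp : p ^ 4 + s * p ^ 2 + 1 = 0) (hq : q ^ 4 = -1) :
    Phi s ∈ lineIdeal p q := by
  rw [sc_line_ker, RingHom.mem_ker]
  show scφ p q _ = 0
  unfold Phi
  simp only [map_sub, map_add, map_mul, map_pow, scφ_0, scφ_1, scφ_2, scφ_3, scφ_C]
  linear_combination X 0 ^ 4 * sc_C_eq hp (σ := Fin 2) - X 1 ^ 4 * sc_C_q hq (σ := Fin 2)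

lemma sc_X_sub_ne (i j : Fin 4) (hij : i ≠ j) (c : k) : (X i - C c * X j : Pol k) ≠ 0 := by
  intro h
  have := congrArg (eval (fun l => if l = i then (1 : k) else 0)) h
  simp [hij.symm] at this

lemma sc_line_lt {p q : k} (hp : p ^ 4 + s * p ^ 2 + 1 = 0) (hq : q ^ 4 = -1) :
    IX s < lineIdeal p q := by
  apply lt_of_le_of_ne
  · rw [IX, Ideal.span_singleton_le_iff_mem]
    exact sc_Phi_mem hp hq
  · intro h
    have h1 : (X 0 - C p * X 1 : Pol k) ∈ lineIdeal p q := Ideal.subset_span (by simp)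
    rw [← h] at h1
    exact sc_lin_not_mem (sc_hom_lin _ _ _) (sc_X_sub_ne 0 1 (by decide) p) h1

/-- the lines -/
theorem exists_line (hs : s ^ 2 ≠ 4) {p q : k} (hp : p ^ 4 + s * p ^ 2 + 1 = 0)
    (hq : q ^ 4 = -1) : ∃ L : PrimeDiv (IX s), L.carrier = lineIdeal p q :=
  ⟨sc_mk hs (lineIdeal p q) (sc_line_prime p q) (sc_line_homog p q) (sc_line_lt hp hq) rfl, rfl⟩

/-! ### sections -/

/-- `c⁻¹ (z^4 + w^4)` in `k[w][z]` -/
def scg (c : k) : Polynomial (Polynomial k) :=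
  Polynomial.C (Polynomial.C c⁻¹) * (Polynomial.X ^ 4 + Polynomial.C (Polynomial.X ^ 4))

lemma sc_prime_poly {c : k} (hc : c ≠ 0) :
    Prime (Polynomial.X ^ 4 - Polynomial.C (scg c) : Polynomial (Polynomial (Polynomial k))) := by
  obtain ⟨q, hq⟩ := IsAlgClosed.exists_pow_nat_eq (-1 : k) (n := 4) (by norm_num)
  have hq0 : q ≠ 0 := by
    rintro rfl
    norm_num at hq
  set r : Polynomial k := Polynomial.C q * Polynomial.X with hr
  have hr4 : r ^ 4 = - Polynomial.X ^ 4 := by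
    rw [hr, mul_pow, ← Polynomial.C_pow, hq]
    simp
  have hpi : Prime (Polynomial.X - Polynomial.C r) := Polynomial.prime_X_sub_C r
  have hI : (Ideal.span {Polynomial.X - Polynomial.C r}).IsPrime :=
    (Ideal.span_singleton_prime hpi.ne_zero).2 hpi
  have hdvd : Polynomial.X - Polynomial.C r ∣ scg c := by
    rw [Polynomial.dvd_iff_isRoot, Polynomial.IsRoot, scg]
    simp only [Polynomial.eval_mul, Polynomial.eval_add, Polynomial.eval_pow, Polynomial.eval_X,
      Polynomial.eval_C]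
    rw [hr4]
    ring
  have hsq : ¬ (Polynomial.X - Polynomial.C r) ^ 2 ∣ scg c := by
    rintro ⟨e, he⟩
    have h1 := congrArg (fun P => Polynomial.eval r (Polynomial.derivative P)) he
    simp only [scg, Polynomial.derivative_mul, Polynomial.derivative_C, Polynomial.derivative_add,
      Polynomial.eval_add, Polynomial.eval_mul, Polynomial.eval_pow,
      Polynomial.eval_X, Polynomial.eval_C, Polynomial.eval_sub, zero_mul, zero_add, add_zero,
      Polynomial.derivative_pow, sub_self] at h1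
    have h2 : (Polynomial.C c⁻¹ : Polynomial k) * (4 * r ^ 3) = 0 := by
      simpa using h1
    have h3 : (Polynomial.C c⁻¹ : Polynomial k) ≠ 0 := by simpa using hc
    have h4 : r ≠ 0 := mul_ne_zero (by simpa using hq0) Polynomial.X_ne_zero
    exact (mul_ne_zero h3 (mul_ne_zero (by norm_num) (pow_ne_zero _ h4))) h2
  have hm : (Polynomial.X ^ 4 - Polynomial.C (scg c) :
      Polynomial (Polynomial (Polynomial k))).Monic := Polynomial.monic_X_pow_sub_C _ (by norm_num)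
  have hirr : Irreducible (Polynomial.X ^ 4 - Polynomial.C (scg c) :
      Polynomial (Polynomial (Polynomial k))) := by
    refine (hm.isEisensteinAt_of_mem_of_notMem hI.ne_top ?_ ?_).irreducible hI hm.isPrimitive
      (by rw [Polynomial.natDegree_X_pow_sub_C]; norm_num)
    · intro n hn
      rw [Polynomial.natDegree_X_pow_sub_C] at hn
      rw [Polynomial.coeff_sub, Polynomial.coeff_X_pow, if_neg (by omega), zero_sub, neg_mem_iff,
        Polynomial.coeff_C]
      split_ifs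
      · exact Ideal.mem_span_singleton.2 hdvd
      · exact Ideal.zero_mem _
    · rw [Ideal.span_singleton_pow, Ideal.mem_span_singleton, Polynomial.coeff_sub,
        Polynomial.coeff_X_pow, if_neg (by omega), zero_sub, Polynomial.coeff_C_zero]
      rintro ⟨e, he⟩
      exact hsq ⟨-e, by linear_combination -he⟩
  exact hirr.prime

/-- substitution `x = - β T`, `y = α T` -/
def scψ (α β : k) : Pol k →+* Polynomial (Polynomial (Polynomial k)) :=
  (aeval (![-(Polynomial.C (Polynomial.C (Polynomial.C β)) * Polynomial.X),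
      Polynomial.C (Polynomial.C (Polynomial.C α)) * Polynomial.X, Polynomial.C Polynomial.X,
      Polynomial.C (Polynomial.C Polynomial.X)] : Fin 4 → Polynomial (Polynomial (Polynomial k))) :
      Pol k →ₐ[k] Polynomial (Polynomial (Polynomial k))).toRingHom

/-- substitution `T = γ x + δ y` -/
def scχ (γ δ : k) : Polynomial (Polynomial (Polynomial k)) →+* Pol k :=
  Polynomial.eval₂RingHom (Polynomial.eval₂RingHom (Polynomial.eval₂RingHom (C : k →+* Pol k) (X 3))
    (X 2)) (C γ * X 0 + C δ * X 1)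

lemma scψ_0 (α β : k) : scψ α β (X 0) =
    -(Polynomial.C (Polynomial.C (Polynomial.C β)) * Polynomial.X) := by simp [scψ]
lemma scψ_1 (α β : k) : scψ α β (X 1) =
    Polynomial.C (Polynomial.C (Polynomial.C α)) * Polynomial.X := by simp [scψ]
lemma scψ_2 (α β : k) : scψ α β (X 2) = Polynomial.C Polynomial.X := by simp [scψ]
lemma scψ_3 (α β : k) : scψ α β (X 3) = Polynomial.C (Polynomial.C Polynomial.X) := by simp [scψ]
lemma scψ_C (α β r : k) : scψ α β (C r) = Polynomial.C (Polynomial.C (Polynomial.C r)) := by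
  simp [scψ]

lemma scχ_X (γ δ : k) : scχ γ δ Polynomial.X = C γ * X 0 + C δ * X 1 := by simp [scχ]
lemma scχ_CX (γ δ : k) : scχ γ δ (Polynomial.C Polynomial.X) = X 2 := by simp [scχ]
lemma scχ_CCX (γ δ : k) : scχ γ δ (Polynomial.C (Polynomial.C Polynomial.X)) = X 3 := by
  simp [scχ]
lemma scχ_CCC (γ δ r : k) : scχ γ δ (Polynomial.C (Polynomial.C (Polynomial.C r))) = C r := by
  simp [scχ]

lemma sc_section_prime (α β : k) (h0 : α ≠ 0 ∨ β ≠ 0)
    (h : β ^ 4 + s * β ^ 2 * α ^ 2 + α ^ 4 ≠ 0) :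
    (Ideal.span {C α * X 0 + C β * X 1} ⊔ IX s).IsPrime := by
  obtain ⟨γ, δ, hγδ⟩ : ∃ γ δ : k, α * δ - β * γ = 1 := by
    rcases h0 with h0 | h0
    · exact ⟨0, α⁻¹, by field_simp; ring⟩
    · exact ⟨-β⁻¹, 0, by field_simp; ring⟩
  set c := β ^ 4 + s * β ^ 2 * α ^ 2 + α ^ 4 with hc
  set L : Ideal (Pol k) := Ideal.span {C α * X 0 + C β * X 1} ⊔ IX s with hL
  have hγδ' : (C α * C δ - C β * C γ : Pol k) = 1 := by
    rw [← C_mul, ← C_mul, ← C_sub, hγδ, C_1]
  have hℓ : C α * X 0 + C β * X 1 ∈ L :=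
    Ideal.mem_sup_left (Ideal.subset_span rfl)
  have hPhi : Phi s ∈ L := Ideal.mem_sup_right (Ideal.subset_span rfl)
  have hprime := sc_prime_poly h
  set m : Polynomial (Polynomial (Polynomial k)) := Polynomial.X ^ 4 - Polynomial.C (scg c) with hm
  have hdom : IsDomain (AdjoinRoot m) := AdjoinRoot.isDomain_of_prime hprime
  -- the image of `m`
  have hχm : C c * scχ γ δ m = C c * (C γ * X 0 + C δ * X 1) ^ 4 - (X 2 ^ 4 + X 3 ^ 4) := by
    have e1 : m + Polynomial.C (scg c) = Polynomial.X ^ 4 := by rw [hm]; ring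
    have e2 := congrArg (scχ γ δ) e1
    rw [map_add, map_pow, scχ_X] at e2
    have e3 : scχ γ δ (Polynomial.C (scg c)) = C c⁻¹ * (X 2 ^ 4 + X 3 ^ 4) := by
      rw [scg, Polynomial.C_mul, map_mul, scχ_CCC, Polynomial.C_add, map_add, Polynomial.C_pow,
        map_pow, scχ_CX, Polynomial.C_pow, Polynomial.C_pow, map_pow, scχ_CCX]
    rw [e3] at e2
    have e4 : (C c * C c⁻¹ : Pol k) = 1 := by rw [← C_mul, mul_inv_cancel₀ h, C_1]
    linear_combination C c * e2 - (X 2 ^ 4 + X 3 ^ 4) * e4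
  have hmL : scχ γ δ m ∈ L := by
    have h1 : C c * scχ γ δ m ∈ L := by
      rw [hχm, ← Ideal.Quotient.eq_zero_iff_mem]
      have q1 : Ideal.Quotient.mk L (C α * X 0 + C β * X 1) = 0 :=
        Ideal.Quotient.eq_zero_iff_mem.2 hℓ
      have q2 : Ideal.Quotient.mk L (Phi s) = 0 := Ideal.Quotient.eq_zero_iff_mem.2 hPhi
      have q3 := congrArg (Ideal.Quotient.mk L) hγδ'
      have q4 : (C c : Pol k) = C β ^ 4 + C s * C β ^ 2 * C α ^ 2 + C α ^ 4 := by
        rw [hc]; simp only [map_add, map_mul, map_pow]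
      rw [q4]
      unfold Phi at q2
      simp only [map_sub, map_add, map_mul, map_pow, map_one] at q1 q2 q3 ⊢
      have key : ∀ T, Ideal.Quotient.mk L (X 0) = -Ideal.Quotient.mk L (C β) * T →
          Ideal.Quotient.mk L (X 1) = Ideal.Quotient.mk L (C α) * T →
          (Ideal.Quotient.mk L (C β) ^ 4 + Ideal.Quotient.mk L (C s) *
            Ideal.Quotient.mk L (C β) ^ 2 * Ideal.Quotient.mk L (C α) ^ 2 +
            Ideal.Quotient.mk L (C α) ^ 4) * T ^ 4 =
          Ideal.Quotient.mk L (X 0) ^ 4 + Ideal.Quotient.mk L (C s) *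
            Ideal.Quotient.mk L (X 0) ^ 2 * Ideal.Quotient.mk L (X 1) ^ 2 +
            Ideal.Quotient.mk L (X 1) ^ 4 := by
        intro T h1 h2
        rw [h1, h2]
        ring
      rw [key]
      · linear_combination q2
      · linear_combination Ideal.Quotient.mk L (C δ) * q1 - Ideal.Quotient.mk L (X 0) * q3
      · linear_combination (-Ideal.Quotient.mk L (C γ)) * q1 - Ideal.Quotient.mk L (X 1) * q3
    have h2 : C c⁻¹ * (C c * scχ γ δ m) ∈ L := L.mul_mem_left _ h1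
    have e4 : (C c⁻¹ * C c : Pol k) = 1 := by rw [← C_mul, inv_mul_cancel₀ h, C_1]
    rwa [← mul_assoc, e4, one_mul] at h2
  have hker : L = RingHom.ker ((AdjoinRoot.mk m).comp (scψ α β)) := by
    apply le_antisymm
    · rw [hL]
      apply sup_le
      · rw [Ideal.span_singleton_le_iff_mem, RingHom.mem_ker, RingHom.comp_apply]
        have : scψ α β (C α * X 0 + C β * X 1) = 0 := by
          simp only [map_add, map_mul, scψ_0, scψ_1, scψ_C]
          ring
        rw [this, map_zero]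
      · rw [IX, Ideal.span_singleton_le_iff_mem, RingHom.mem_ker, RingHom.comp_apply]
        rw [AdjoinRoot.mk_eq_zero]
        refine ⟨Polynomial.C (Polynomial.C (Polynomial.C c)), ?_⟩
        have e1 : (Polynomial.C (Polynomial.C (Polynomial.C c)) :
            Polynomial (Polynomial (Polynomial k))) =
            Polynomial.C (Polynomial.C (Polynomial.C β)) ^ 4 +
            Polynomial.C (Polynomial.C (Polynomial.C s)) *
            Polynomial.C (Polynomial.C (Polynomial.C β)) ^ 2 *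
            Polynomial.C (Polynomial.C (Polynomial.C α)) ^ 2 +
            Polynomial.C (Polynomial.C (Polynomial.C α)) ^ 4 := by
          rw [hc]; simp only [map_add, map_mul, map_pow]
        have e2 : (Polynomial.C (Polynomial.C (Polynomial.C c⁻¹)) *
            Polynomial.C (Polynomial.C (Polynomial.C c)) :
            Polynomial (Polynomial (Polynomial k))) = 1 := by
          rw [← Polynomial.C_mul, ← Polynomial.C_mul, ← Polynomial.C_mul, inv_mul_cancel₀ h]
          simp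
        unfold Phi
        simp only [map_sub, map_add, map_mul, map_pow, scψ_0, scψ_1, scψ_2, scψ_3, scψ_C]
        rw [hm, scg]
        simp only [Polynomial.C_mul, Polynomial.C_add, Polynomial.C_pow]
        linear_combination (-Polynomial.X ^ 4) * e1 + (Polynomial.C Polynomial.X ^ 4 +
          Polynomial.C (Polynomial.C Polynomial.X) ^ 4) * e2
    · intro f hf
      rw [RingHom.mem_ker, RingHom.comp_apply, AdjoinRoot.mk_eq_zero] at hf
      have h1 := sc_sub (L := L) (fun f => scχ γ δ (scψ α β f))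
        (fun _ _ => by rw [map_add, map_add]) (fun _ _ => by rw [map_mul, map_mul])
        (fun r => by rw [scψ_C, scχ_CCC]) (by
        intro i
        fin_cases i
        · show X 0 - scχ γ δ (scψ α β (X 0)) ∈ L
          have e1 : scψ α β (X 0) +
              Polynomial.C (Polynomial.C (Polynomial.C β)) * Polynomial.X = 0 := by
            rw [scψ_0]; ring
          have e2 := congrArg (scχ γ δ) e1
          rw [map_add, map_mul, scχ_CCC, scχ_X, map_zero] at e2
          have e3 : X 0 - scχ γ δ (scψ α β (X 0)) = C δ * (C α * X 0 + C β * X 1) := by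
            linear_combination (-1 : Pol k) * e2 - X 0 * hγδ'
          rw [e3]
          exact L.mul_mem_left _ hℓ
        · show X 1 - scχ γ δ (scψ α β (X 1)) ∈ L
          have e2 : scχ γ δ (scψ α β (X 1)) = C α * (C γ * X 0 + C δ * X 1) := by
            rw [scψ_1, map_mul, scχ_CCC, scχ_X]
          have e3 : X 1 - scχ γ δ (scψ α β (X 1)) = (-C γ) * (C α * X 0 + C β * X 1) := by
            linear_combination (-1 : Pol k) * e2 - X 1 * hγδ'
          rw [e3]
          exact L.mul_mem_left _ hℓ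
        · show X 2 - scχ γ δ (scψ α β (X 2)) ∈ L
          rw [scψ_2, scχ_CX, sub_self]
          exact L.zero_mem
        · show X 3 - scχ γ δ (scψ α β (X 3)) ∈ L
          rw [scψ_3, scχ_CCX, sub_self]
          exact L.zero_mem) f
      obtain ⟨e, he⟩ := hf
      rw [he, map_mul] at h1
      have h2 : scχ γ δ m * scχ γ δ e ∈ L := L.mul_mem_right _ hmL
      have h3 := L.add_mem h1 h2
      rwa [sub_add_cancel] at h3
  rw [hker]
  exact RingHom.ker_isPrime _

lemma sc_section_eq (α β : k) : (Ideal.span {C α * X 0 + C β * X 1} ⊔ IX s : Ideal (Pol k)) =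
    Ideal.span {C α * X 0 + C β * X 1, Phi s} := by
  rw [IX, ← Ideal.span_union, Set.singleton_union]

lemma sc_hom_lin2 (α β : k) : (C α * X 0 + C β * X 1 : Pol k).IsHomogeneous 1 := by
  have h1 := (isHomogeneous_C (Fin 4) α).mul (isHomogeneous_X k (0 : Fin 4))
  have h2 := (isHomogeneous_C (Fin 4) β).mul (isHomogeneous_X k (1 : Fin 4))
  rw [zero_add] at h1 h2
  exact h1.add h2

lemma sc_lin2_ne {α β : k} (h0 : α ≠ 0 ∨ β ≠ 0) : (C α * X 0 + C β * X 1 : Pol k) ≠ 0 := by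
  intro h
  have h1 := congrArg (eval (fun l : Fin 4 => if l = 0 then (1 : k) else 0)) h
  have h2 := congrArg (eval (fun l : Fin 4 => if l = 1 then (1 : k) else 0)) h
  simp at h1 h2
  rcases h0 with h0 | h0
  · exact h0 h1
  · exact h0 h2

lemma sc_section_homog (α β : k) :
    HomogIdeal (Ideal.span {C α * X 0 + C β * X 1} ⊔ IX s : Ideal (Pol k)) := by
  rw [sc_section_eq]
  apply sc_homog_span
  intro g hg
  simp only [Set.mem_insert_iff, Set.mem_singleton_iff] at hg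
  rcases hg with rfl | rfl
  · exact ⟨1, sc_hom_lin2 _ _⟩
  · exact ⟨4, Phi_homog s⟩

lemma sc_section_lt {α β : k} (h0 : α ≠ 0 ∨ β ≠ 0) :
    IX s < (Ideal.span {C α * X 0 + C β * X 1} ⊔ IX s : Ideal (Pol k)) := by
  apply lt_of_le_of_ne le_sup_right
  intro h
  have h1 : (C α * X 0 + C β * X 1 : Pol k) ∈ IX s := by
    rw [h]
    exact Ideal.mem_sup_left (Ideal.subset_span rfl)
  exact sc_lin_not_mem (sc_hom_lin2 _ _) (sc_lin2_ne h0) h1

/-- the other plane sections through the line `x = y = 0` are irreducible -/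
theorem exists_section (hs : s ^ 2 ≠ 4) (α β : k) (h0 : α ≠ 0 ∨ β ≠ 0)
    (h : β ^ 4 + s * β ^ 2 * α ^ 2 + α ^ 4 ≠ 0) :
    ∃ L : PrimeDiv (IX s), L.carrier = Ideal.span {C α * X 0 + C β * X 1} ⊔ IX s :=
  ⟨sc_mk hs _ (sc_section_prime α β h0 h) (sc_section_homog α β) (sc_section_lt h0)
    (sc_section_eq α β), rfl⟩

/-! ### classification -/

/-- the cofactor of `z - q w` in `z^4 + w^4` -/
def scT (q : k) : Pol k := X 2 ^ 3 + C q * X 2 ^ 2 * X 3 + C q ^ 2 * X 2 * X 3 ^ 2 +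
  C q ^ 3 * X 3 ^ 3

/-- the cofactor of `x - p y` in `x^4 + s x^2 y^2 + y^4` -/
def scU (s p : k) : Pol k := X 0 ^ 3 + C p * X 0 ^ 2 * X 1 + (C p ^ 2 + C s) * X 0 * X 1 ^ 2 +
  (C p ^ 3 + C s * C p) * X 1 ^ 3

lemma scT_mul {q : k} (hq : q ^ 4 = -1) :
    (X 2 - C q * X 3) * scT q = (X 2 ^ 4 + X 3 ^ 4 : Pol k) := by
  unfold scT
  linear_combination (-X 3 ^ 4) * sc_C_q hq (σ := Fin 4)

lemma scU_mul {p : k} (hp : p ^ 4 + s * p ^ 2 + 1 = 0) :
    (X 0 - C p * X 1) * scU s p = (X 0 ^ 4 + C s * X 0 ^ 2 * X 1 ^ 2 + X 1 ^ 4 : Pol k) := by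
  unfold scU
  linear_combination (-X 1 ^ 4) * sc_C_eq hp (σ := Fin 4)

lemma scT_not_mem {p q : k} (hq : q ^ 4 = -1) : scT q ∉ lineIdeal p q := by
  rw [sc_line_ker, RingHom.mem_ker]
  show scφ p q (scT q) ≠ 0
  have hq0 : q ≠ 0 := by
    rintro rfl
    norm_num at hq
  have e : scφ p q (scT q) = 4 * C q ^ 3 * X 1 ^ 3 := by
    unfold scT
    simp only [map_add, map_mul, map_pow, scφ_2, scφ_3, scφ_C]
    ring
  rw [e]
  refine mul_ne_zero (mul_ne_zero ?_ (pow_ne_zero _ ?_)) (pow_ne_zero _ (X_ne_zero _))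
  · exact_mod_cast (by norm_num : (4 : ℕ) ≠ 0)
  · rwa [Ne, C_eq_zero]

lemma scU_not_mem (hs : s ^ 2 ≠ 4) {p q : k} (hp : p ^ 4 + s * p ^ 2 + 1 = 0) :
    scU s p ∉ lineIdeal p q := by
  rw [sc_line_ker, RingHom.mem_ker]
  show scφ p q (scU s p) ≠ 0
  have e : scφ p q (scU s p) = C (4 * p ^ 3 + 2 * s * p) * X 0 ^ 3 := by
    unfold scU
    simp only [map_add, map_mul, map_pow, scφ_0, scφ_1, scφ_C, map_ofNat]
    ring
  rw [e]
  refine mul_ne_zero ?_ (pow_ne_zero _ (X_ne_zero _))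
  rw [Ne, C_eq_zero]
  intro h
  have hp0 : p ≠ 0 := by
    rintro rfl
    norm_num at hp
  have h1 : 2 * p ^ 2 + s = 0 := by
    have : (2 * p) * (2 * p ^ 2 + s) = 0 := by linear_combination h
    rcases mul_eq_zero.1 this with h2 | h2
    · exact absurd h2 (mul_ne_zero two_ne_zero hp0)
    · exact h2
  apply hs
  have h2 : s = -(2 * p ^ 2) := by linear_combination h1
  rw [h2] at hp ⊢
  linear_combination (-4 : k) * hp

lemma sc_factor_q : ∃ q₁ q₂ q₃ q₄ : k, q₁ ^ 4 = -1 ∧ q₂ ^ 4 = -1 ∧ q₃ ^ 4 = -1 ∧ q₄ ^ 4 = -1 ∧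
    (X 2 ^ 4 + X 3 ^ 4 : Pol k) = (X 2 - C q₁ * X 3) * (X 2 - C q₂ * X 3) *
      (X 2 - C q₃ * X 3) * (X 2 - C q₄ * X 3) := by
  obtain ⟨q, hq⟩ := IsAlgClosed.exists_pow_nat_eq (-1 : k) (n := 4) (by norm_num)
  obtain ⟨i, hi⟩ := IsAlgClosed.exists_pow_nat_eq (-1 : k) (n := 2) (by norm_num)
  refine ⟨q, -q, i * q, -(i * q), hq, by rw [← hq]; ring, ?_, ?_, ?_⟩
  · linear_combination (i ^ 2 - 1) * q ^ 4 * hi + hq
  · linear_combination (i ^ 2 - 1) * q ^ 4 * hi + hq
  · have h1 := sc_C_q hq (σ := Fin 4)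
    have h2 : (C i : Pol k) ^ 2 = -1 := by
      have := congrArg (C : k →+* Pol k) hi
      simpa only [map_neg, map_pow, map_one] using this
    simp only [map_neg, map_mul]
    linear_combination (X 2 ^ 2 * X 3 ^ 2 * C q ^ 2 - C q ^ 4 * X 3 ^ 4) * h2 + X 3 ^ 4 * h1

lemma sc_factor_p (s : k) : ∃ p₁ p₂ p₃ p₄ : k, p₁ ^ 4 + s * p₁ ^ 2 + 1 = 0 ∧
    p₂ ^ 4 + s * p₂ ^ 2 + 1 = 0 ∧ p₃ ^ 4 + s * p₃ ^ 2 + 1 = 0 ∧ p₄ ^ 4 + s * p₄ ^ 2 + 1 = 0 ∧
    (X 0 ^ 4 + C s * X 0 ^ 2 * X 1 ^ 2 + X 1 ^ 4 : Pol k) = (X 0 - C p₁ * X 1) *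
      (X 0 - C p₂ * X 1) * (X 0 - C p₃ * X 1) * (X 0 - C p₄ * X 1) := by
  obtain ⟨r, hr⟩ : ∃ r : k, r ^ 2 + s * r + 1 = 0 := by
    obtain ⟨t, ht⟩ := IsAlgClosed.exists_pow_nat_eq (s ^ 2 / 4 - 1 : k) (n := 2) (by norm_num)
    refine ⟨t - s / 2, ?_⟩
    linear_combination ht
  obtain ⟨p, hp⟩ := IsAlgClosed.exists_pow_nat_eq r (n := 2) (by norm_num)
  obtain ⟨p', hp'⟩ := IsAlgClosed.exists_pow_nat_eq (-s - r) (n := 2) (by norm_num)
  have e1 : p ^ 4 + s * p ^ 2 + 1 = 0 := by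
    linear_combination hr + (p ^ 2 + r + s) * hp
  have e2 : p' ^ 4 + s * p' ^ 2 + 1 = 0 := by
    linear_combination hr + (p' ^ 2 - s - r + s) * hp'
  refine ⟨p, -p, p', -p', e1, by rw [← e1]; ring, e2, by rw [← e2]; ring, ?_⟩
  have h1 : (C p : Pol k) ^ 2 = C r := by rw [← C_pow, hp]
  have h2 : (C p' : Pol k) ^ 2 = - C s - C r := by rw [← C_pow, hp']; simp
  have h3 : (C r : Pol k) ^ 2 + C s * C r + 1 = 0 := by
    have := congrArg (C : k →+* Pol k) hr
    simpa only [map_add, map_mul, map_pow, map_one, map_zero] using this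
  simp only [map_neg]
  linear_combination (X 0 ^ 2 * X 1 ^ 2 - X 1 ^ 4 * C p' ^ 2) * h1 +
    (X 0 ^ 2 * X 1 ^ 2 - X 1 ^ 4 * C r) * h2 + X 1 ^ 4 * h3

lemma sc_eq_of_le {Q : PrimeDiv (IX s)} {L : Ideal (Pol k)} (h1 : L.IsPrime) (h2 : HomogIdeal L)
    (h3 : IX s < L) (h4 : L ≤ Q.carrier) : Q.carrier = L :=
  (Q.minimal L h1 h2 h3 h4).symm

lemma sc_line_le {Q : PrimeDiv (IX s)} {p q : k} (hp : p ^ 4 + s * p ^ 2 + 1 = 0)
    (hq : q ^ 4 = -1) (h1 : (X 0 - C p * X 1 : Pol k) ∈ Q.carrier)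
    (h2 : (X 2 - C q * X 3 : Pol k) ∈ Q.carrier) : Q.carrier = lineIdeal p q := by
  apply sc_eq_of_le (sc_line_prime p q) (sc_line_homog p q) (sc_line_lt hp hq)
  rw [lineIdeal, Ideal.span_le]
  intro g hg
  simp only [Set.mem_insert_iff, Set.mem_singleton_iff] at hg
  rcases hg with rfl | rfl
  · exact h1
  · exact h2

lemma sc_Phi_memQ (Q : PrimeDiv (IX s)) : Phi s ∈ Q.carrier :=
  Q.lt.le (Ideal.subset_span rfl)

lemma sc_cases_xy {Q : PrimeDiv (IX s)} {p : k} (hp : p ^ 4 + s * p ^ 2 + 1 = 0)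
    (h1 : (X 0 - C p * X 1 : Pol k) ∈ Q.carrier) :
    ∃ q, q ^ 4 = -1 ∧ Q.carrier = lineIdeal p q := by
  have hQ := Q.prime
  have h2 : (X 2 ^ 4 + X 3 ^ 4 : Pol k) ∈ Q.carrier := by
    have e : (X 2 ^ 4 + X 3 ^ 4 : Pol k) = (X 0 - C p * X 1) * scU s p - Phi s := by
      rw [scU_mul hp]
      unfold Phi
      ring
    rw [e]
    exact Q.carrier.sub_mem (Q.carrier.mul_mem_right _ h1) (sc_Phi_memQ Q)
  obtain ⟨q₁, q₂, q₃, q₄, a1, a2, a3, a4, e⟩ := sc_factor_q (k := k)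
  rw [e] at h2
  rcases hQ.mem_or_mem h2 with h2 | h2
  · rcases hQ.mem_or_mem h2 with h2 | h2
    · rcases hQ.mem_or_mem h2 with h2 | h2
      · exact ⟨q₁, a1, sc_line_le hp a1 h1 h2⟩
      · exact ⟨q₂, a2, sc_line_le hp a2 h1 h2⟩
    · exact ⟨q₃, a3, sc_line_le hp a3 h1 h2⟩
  · exact ⟨q₄, a4, sc_line_le hp a4 h1 h2⟩

lemma sc_cases_zw {Q : PrimeDiv (IX s)} {q : k} (hq : q ^ 4 = -1)
    (h1 : (X 2 - C q * X 3 : Pol k) ∈ Q.carrier) :
    ∃ p, p ^ 4 + s * p ^ 2 + 1 = 0 ∧ Q.carrier = lineIdeal p q := by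
  have hQ := Q.prime
  have h2 : (X 0 ^ 4 + C s * X 0 ^ 2 * X 1 ^ 2 + X 1 ^ 4 : Pol k) ∈ Q.carrier := by
    have e : (X 0 ^ 4 + C s * X 0 ^ 2 * X 1 ^ 2 + X 1 ^ 4 : Pol k) =
        (X 2 - C q * X 3) * scT q + Phi s := by
      rw [scT_mul hq]
      unfold Phi
      ring
    rw [e]
    exact Q.carrier.add_mem (Q.carrier.mul_mem_right _ h1) (sc_Phi_memQ Q)
  obtain ⟨p₁, p₂, p₃, p₄, a1, a2, a3, a4, e⟩ := sc_factor_p s
  rw [e] at h2
  rcases hQ.mem_or_mem h2 with h2 | h2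
  · rcases hQ.mem_or_mem h2 with h2 | h2
    · rcases hQ.mem_or_mem h2 with h2 | h2
      · exact ⟨p₁, a1, sc_line_le a1 hq h2 h1⟩
      · exact ⟨p₂, a2, sc_line_le a2 hq h2 h1⟩
    · exact ⟨p₃, a3, sc_line_le a3 hq h2 h1⟩
  · exact ⟨p₄, a4, sc_line_le a4 hq h2 h1⟩

lemma sc_cases {Q : PrimeDiv (IX s)} {α β : k} (h0 : α ≠ 0 ∨ β ≠ 0)
    (h1 : (C α * X 0 + C β * X 1 : Pol k) ∈ Q.carrier) :
    (∃ p q, p ^ 4 + s * p ^ 2 + 1 = 0 ∧ q ^ 4 = -1 ∧ Q.carrier = lineIdeal p q ∧ α ≠ 0 ∧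
      (C α * X 0 + C β * X 1 : Pol k) = C α * (X 0 - C p * X 1)) ∨
    (β ^ 4 + s * β ^ 2 * α ^ 2 + α ^ 4 ≠ 0 ∧
      Q.carrier = Ideal.span {C α * X 0 + C β * X 1} ⊔ IX s) := by
  by_cases hc : β ^ 4 + s * β ^ 2 * α ^ 2 + α ^ 4 = 0
  · left
    have hα : α ≠ 0 := by
      rintro rfl
      have hβ : β = 0 := by
        have : β ^ 4 = 0 := by linear_combination hc
        exact pow_eq_zero_iff (by norm_num) |>.1 this
      rcases h0 with h0 | h0
      · exact h0 rfl
      · exact h0 hβ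
    have hp : (-β / α) ^ 4 + s * (-β / α) ^ 2 + 1 = 0 := by
      field_simp
      linear_combination hc
    have e : (C α * X 0 + C β * X 1 : Pol k) = C α * (X 0 - C (-β / α) * X 1) := by
      have : (C β : Pol k) = - (C α * C (-β / α)) := by
        rw [← C_mul, ← C_neg]
        congr 1
        field_simp
      rw [this]
      ring
    have h2 : (X 0 - C (-β / α) * X 1 : Pol k) ∈ Q.carrier := by
      rw [e] at h1
      rcases Q.prime.mem_or_mem h1 with h2 | h2
      · exact absurd h2 (by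
          intro h3
          apply Q.prime.ne_top
          exact Q.carrier.eq_top_of_isUnit_mem h3 ((isUnit_iff_ne_zero.2 hα).map C))
      · exact h2
    obtain ⟨q, hq, hQ⟩ := sc_cases_xy hp h2
    exact ⟨-β / α, q, hp, hq, hQ, hα, e⟩
  · right
    refine ⟨hc, sc_eq_of_le (sc_section_prime α β h0 hc) (sc_section_homog α β)
      (sc_section_lt h0) ?_⟩
    apply sup_le _ Q.lt.le
    rw [Ideal.span_singleton_le_iff_mem]
    exact h1

/-- classification -/
theorem vertical_cases (hs : s ^ 2 ≠ 4) (Q : PrimeDiv (IX s)) (hQ : ¬ Hor Q) :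
    (∃ p q : k, p ^ 4 + s * p ^ 2 + 1 = 0 ∧ q ^ 4 = -1 ∧ Q.carrier = lineIdeal p q) ∨
    (∃ α β : k, (α ≠ 0 ∨ β ≠ 0) ∧ β ^ 4 + s * β ^ 2 * α ^ 2 + α ^ 4 ≠ 0 ∧
      Q.carrier = Ideal.span {C α * X 0 + C β * X 1} ⊔ IX s) := by
  unfold Hor at hQ
  push Not at hQ
  obtain ⟨α, β, h0, h1⟩ := hQ
  rcases sc_cases h0 h1 with ⟨p, q, a, b, c, -, -⟩ | ⟨a, b⟩
  · exact Or.inl ⟨p, q, a, b, c⟩
  · exact Or.inr ⟨α, β, h0, a, b⟩

/-- orders of linear forms in `x, y` -/
theorem ord_linear_xy (hs : s ^ 2 ≠ 4) (α β : k) (h0 : α ≠ 0 ∨ β ≠ 0) (Q : PrimeDiv (IX s)) :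
    (C α * X 0 + C β * X 1 ∉ Q.carrier → ord Q (C α * X 0 + C β * X 1) = 0) ∧
    (C α * X 0 + C β * X 1 ∈ Q.carrier → ord Q (C α * X 0 + C β * X 1) = 1) := by
  refine ⟨fun h => ord_eq_zero_of_not_mem Q h, fun h1 => ?_⟩
  apply LocPrin.ord_self (IX_prime s hs)
  refine ⟨h1, ?_⟩
  rcases sc_cases h0 h1 with ⟨p, q, hp, hq, hQ, hα, e⟩ | ⟨-, hQ⟩
  · refine ⟨scT q, by rw [hQ]; exact scT_not_mem hq, ?_⟩
    have hx : (X 0 - C p * X 1 : Pol k) ∈ Ideal.span {C α * X 0 + C β * X 1} ⊔ IX s := by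
      apply Ideal.mem_sup_left
      rw [Ideal.mem_span_singleton]
      refine ⟨C α⁻¹, ?_⟩
      rw [e]
      have : (C α * C α⁻¹ : Pol k) = 1 := by rw [← C_mul, mul_inv_cancel₀ hα, C_1]
      linear_combination (-(X 0 - C p * X 1)) * this
    intro h hh
    rw [hQ, lineIdeal, Ideal.mem_span_pair] at hh
    obtain ⟨a, b, rfl⟩ := hh
    have e2 : scT q * (a * (X 0 - C p * X 1) + b * (X 2 - C q * X 3)) =
        (scT q * a + b * scU s p) * (X 0 - C p * X 1) - b * Phi s := by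
      have h3 := scT_mul hq
      have h4 := scU_mul hp
      unfold Phi
      linear_combination b * h3 - b * h4
    rw [e2]
    exact Ideal.sub_mem _ (Ideal.mul_mem_left _ _ hx)
      (Ideal.mul_mem_left _ _ (Ideal.mem_sup_right (Ideal.subset_span rfl)))
  · refine ⟨1, fun h => Q.prime.ne_top ((Ideal.eq_top_iff_one _).2 h), ?_⟩
    intro h hh
    rw [one_mul, ← hQ]
    exact hh

/-- orders of the linear forms `z - q w`, `q^4 = -1` -/
theorem ord_linear_zw (hs : s ^ 2 ≠ 4) {q : k} (hq : q ^ 4 = -1) (Q : PrimeDiv (IX s)) :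
    ((∃ p : k, p ^ 4 + s * p ^ 2 + 1 = 0 ∧ Q.carrier = lineIdeal p q) →
      ord Q (X 2 - C q * X 3) = 1) ∧
    (¬ (∃ p : k, p ^ 4 + s * p ^ 2 + 1 = 0 ∧ Q.carrier = lineIdeal p q) →
      ord Q (X 2 - C q * X 3) = 0) := by
  refine ⟨?_, fun h => ord_eq_zero_of_not_mem Q fun h1 => h (sc_cases_zw hq h1)⟩
  rintro ⟨p, hp, hQ⟩
  apply LocPrin.ord_self (IX_prime s hs)
  refine ⟨by rw [hQ]; exact Ideal.subset_span (by simp), scU s p,
    by rw [hQ]; exact scU_not_mem hs hp, ?_⟩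
  intro h hh
  rw [hQ, lineIdeal, Ideal.mem_span_pair] at hh
  obtain ⟨a, b, rfl⟩ := hh
  have e2 : scU s p * (a * (X 0 - C p * X 1) + b * (X 2 - C q * X 3)) =
      (a * scT q + scU s p * b) * (X 2 - C q * X 3) + a * Phi s := by
    have h3 := scT_mul hq
    have h4 := scU_mul hp
    unfold Phi
    linear_combination a * h4 - a * h3
  rw [e2]
  exact Ideal.add_mem _ (Ideal.mul_mem_left _ _ (Ideal.mem_sup_left (Ideal.subset_span rfl)))
    (Ideal.mul_mem_left _ _ (Ideal.mem_sup_right (Ideal.subset_span rfl)))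

end PicJump

end
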