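import Pool.Agent.Lib_helper43.PJ.D
import Pool.Agent.Lib_helper43.PJ.W_Surf0
import Pool.Agent.Lib_helper43.PJ.W_SurfC
import Pool.Agent.Lib_helper43.PJ.W_OrdA
import Pool.Agent.Lib_helper43.PJ.W_OrdB
import Pool.Agent.Lib_helper43.PJ.W_SmoothC

/-!
BLOCK LinesA of MP_f6fc0c_ag.
-/

noncomputable section

namespace PicJump

open MvPolynomial

variable {k : Type} [Field k] [IsAlgClosed k] [CharZero k] {s : k}

theorem linesA_ext {I : Ideal (Pol k)} {Q Q' : PrimeDiv I}
    (h : Q.carrier = Q'.carrier) : Q = Q' := by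
  cases Q
  cases Q'
  simp only at h
  subst h
  rfl

/-- a form of degree one is not in `IX s` -/
theorem linesA_not_mem {A : Pol k} (hA : A.IsHomogeneous 1) (hA0 : A ≠ 0) : A ∉ IX s := by
  intro h
  rw [IX, Ideal.mem_span_singleton] at h
  obtain ⟨B, hB⟩ := h
  have h1 : A.totalDegree = 1 := hA.totalDegree hA0
  have hB0 : B ≠ 0 := by
    rintro rfl
    rw [mul_zero] at hB
    exact hA0 hB
  have h2 : (Phi s * B).totalDegree = (Phi s).totalDegree + B.totalDegree :=
    totalDegree_mul_of_isDomain (Phi_ne_zero s) hB0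
  rw [← hB, h1, (Phi_homog s).totalDegree (Phi_ne_zero s)] at h2
  omega

theorem linesA_lin_homog (α β : k) : (C α * X 0 + C β * X 1 : Pol k).IsHomogeneous 1 := by
  refine IsHomogeneous.add ?_ ?_
  · simpa using (isHomogeneous_C (Fin 4) α).mul (isHomogeneous_X k 0)
  · simpa using (isHomogeneous_C (Fin 4) β).mul (isHomogeneous_X k 1)

theorem linesA_lin_ne (α β : k) (h : α ≠ 0 ∨ β ≠ 0) : (C α * X 0 + C β * X 1 : Pol k) ≠ 0 := by
  intro h0
  have h1 := congrArg (eval ![1, 0, 0, 0]) h0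
  have h2 := congrArg (eval ![0, 1, 0, 0]) h0
  simp at h1 h2
  rcases h with h | h
  · exact h h1
  · exact h h2

theorem linesA_zw_homog (q : k) : (X 2 - C q * X 3 : Pol k).IsHomogeneous 1 := by
  refine IsHomogeneous.sub (isHomogeneous_X k 2) ?_
  simpa using (isHomogeneous_C (Fin 4) q).mul (isHomogeneous_X k 3)

theorem linesA_zw_ne (q : k) : (X 2 - C q * X 3 : Pol k) ≠ 0 := by
  intro h0
  have h1 := congrArg (eval ![0, 0, 1, 0]) h0
  simp at h1

/-- points of the line -/
theorem linesA_vanish {p q : k} {f : Pol k} (hf : f ∈ lineIdeal p q) (y w : k) :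
    eval ![p * y, y, q * w, w] f = 0 := by
  have h : lineIdeal p q ≤ RingHom.ker (eval ![p * y, y, q * w, w] : Pol k →+* k) := by
    rw [lineIdeal, Ideal.span_le]
    rintro g (rfl | rfl)
    · simp
    · simp
  exact h hf

theorem linesA_line_inj {p q p' q' : k} (h : lineIdeal p q = lineIdeal p' q') :
    p = p' ∧ q = q' := by
  have h1 : (X 0 - C p * X 1 : Pol k) ∈ lineIdeal p' q' := by
    rw [← h]
    exact Ideal.subset_span (Or.inl rfl)
  have h2 : (X 2 - C q * X 3 : Pol k) ∈ lineIdeal p' q' := by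
    rw [← h]
    exact Ideal.subset_span (Or.inr rfl)
  have e1 := linesA_vanish h1 1 0
  have e2 := linesA_vanish h2 0 1
  simp at e1 e2
  exact ⟨(sub_eq_zero.mp e1).symm, (sub_eq_zero.mp e2).symm⟩

theorem linesA_mk_eq (D₁ D₂ : PrimeDiv (IX s) →₀ ℤ) (A B : Pol k) (hA : A.IsHomogeneous 1)
    (hB : B.IsHomogeneous 1) (hA0 : A ≠ 0) (hB0 : B ≠ 0) (h1 : ∀ Q, D₁ Q = (ord Q A : ℤ))
    (h2 : ∀ Q, D₂ Q = (ord Q B : ℤ)) : (Cl.mk D₁ : Cl (IX s)) = Cl.mk D₂ := by
  rw [Cl.mk, Cl.mk, QuotientAddGroup.eq, neg_add_eq_sub]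
  apply AddSubgroup.subset_closure
  exact ⟨1, B, A, hB, hA, linesA_not_mem hB hB0, linesA_not_mem hA hA0, fun Q => by
    rw [Finsupp.sub_apply, h1, h2]⟩

/-- a polynomial of degree 4 has at most 4 roots -/
theorem linesA_root (a : k) (P : Polynomial k) (hP : P.natDegree = 4) (r : Fin 4 → k)
    (hr : Function.Injective r) (hr0 : ∀ i, P.IsRoot (r i)) (ha : P.IsRoot a) : ∃ i, a = r i := by
  classical
  have hP0 : P ≠ 0 := by
    rintro rfl
    simp at hP
  by_contra hcon
  push Not at hcon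
  have h1 : (insert a (Finset.univ.image r)).card ≤ P.roots.toFinset.card := by
    apply Finset.card_le_card
    intro x hx
    rw [Multiset.mem_toFinset, Polynomial.mem_roots hP0]
    rcases Finset.mem_insert.mp hx with rfl | hx
    · exact ha
    · obtain ⟨i, -, rfl⟩ := Finset.mem_image.mp hx
      exact hr0 i
  rw [Finset.card_insert_of_notMem, Finset.card_image_of_injective _ hr, Finset.card_univ,
    Fintype.card_fin] at h1
  · have h2 := P.roots.toFinset_card_le
    have h3 := P.card_roots'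
    omega
  · intro hx
    obtain ⟨i, -, hi⟩ := Finset.mem_image.mp hx
    exact hcon i hi.symm

theorem vert_span (hs : s ^ 2 ≠ 4) (p q : Fin 4 → k) (hp : Function.Injective p)
    (hq : Function.Injective q) (hp4 : ∀ i, p i ^ 4 + s * p i ^ 2 + 1 = 0)
    (hq4 : ∀ j, q j ^ 4 = -1) (L : Fin 4 → Fin 4 → PrimeDiv (IX s))
    (hL : ∀ i j, (L i j).carrier = lineIdeal (p i) (q j)) :
    Vert s = AddSubgroup.closure {c | ∃ i j, i ≠ 0 ∧ ((i = 1 ∨ i = 2) → j ≠ 0) ∧
      c = Cl.mk (Finsupp.single (L i j) 1)} := by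
  classical
  have hproot : ∀ a : k, a ^ 4 + s * a ^ 2 + 1 = 0 → ∃ i, a = p i := by
    intro a ha
    refine linesA_root a (Polynomial.X ^ 4 + Polynomial.C s * Polynomial.X ^ 2 + 1) ?_ p hp
      (fun i => ?_) ?_
    · compute_degree!
    · simpa [Polynomial.IsRoot] using hp4 i
    · simpa [Polynomial.IsRoot] using ha
  have hqroot : ∀ a : k, a ^ 4 = -1 → ∃ j, a = q j := by
    intro a ha
    refine linesA_root a (Polynomial.X ^ 4 + 1) ?_ q hq (fun j => ?_) ?_
    · compute_degree!
    · simp [Polynomial.IsRoot, hq4 j]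
    · simp [Polynomial.IsRoot, ha]
  have hLinj : ∀ i j i' j', L i j = L i' j' → i = i' ∧ j = j' := by
    intro i j i' j' h
    have h1 : lineIdeal (p i) (q j) = lineIdeal (p i') (q j') := by rw [← hL, ← hL, h]
    obtain ⟨h2, h3⟩ := linesA_line_inj h1
    exact ⟨hp h2, hq h3⟩
  have hLx : ∀ i j, (X 0 - C (p i) * X 1 : Pol k) ∈ (L i j).carrier := by
    intro i j
    rw [hL]
    exact Ideal.subset_span (Or.inl rfl)
  have hlin : ∀ c : k, (X 0 - C c * X 1 : Pol k) = C 1 * X 0 + C (-c) * X 1 := by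
    intro c
    rw [C_1, C_neg]
    ring
  have hLhor : ∀ i j, ¬ Hor (L i j) := by
    intro i j h
    apply h 1 (-(p i)) (Or.inl one_ne_zero)
    rw [← hlin]
    exact hLx i j
  -- prime divisors which contain `x - p_i y`
  have hrowmem : ∀ i (Q : PrimeDiv (IX s)), (X 0 - C (p i) * X 1 : Pol k) ∈ Q.carrier →
      ∃ j, Q = L i j := by
    intro i Q hQ
    have hnh : ¬ Hor Q := by
      intro h
      apply h 1 (-(p i)) (Or.inl one_ne_zero)
      rw [← hlin]
      exact hQ
    rcases vertical_cases hs Q hnh with ⟨p', q', hp', hq', hc⟩ | ⟨α, β, h0, hne, hc⟩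
    · obtain ⟨i', rfl⟩ := hproot p' hp'
      obtain ⟨j', rfl⟩ := hqroot q' hq'
      rw [hc] at hQ
      have h1 := linesA_vanish hQ 1 0
      simp at h1
      have h2 : i' = i := hp (sub_eq_zero.mp h1)
      subst h2
      exact ⟨j', linesA_ext (by rw [hc, hL])⟩
    · exfalso
      obtain ⟨z, hz⟩ := IsAlgClosed.exists_pow_nat_eq (β ^ 4 + s * β ^ 2 * α ^ 2 + α ^ 4) (n := 4)
        (by norm_num)
      have hker : (Ideal.span {C α * X 0 + C β * X 1} ⊔ IX s : Ideal (Pol k)) ≤
          RingHom.ker (eval ![β, -α, z, 0] : Pol k →+* k) := by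
        rw [sup_le_iff, Ideal.span_le, IX, Ideal.span_le]
        constructor
        · rintro g rfl
          simp
          ring
        · rintro g rfl
          simp [Phi]
          linear_combination -hz
      rw [hc] at hQ
      have h1 : eval ![β, -α, z, 0] (X 0 - C (p i) * X 1 : Pol k) = 0 := hker hQ
      simp at h1
      apply hne
      have hβ : β = -(p i * α) := by linear_combination h1
      rw [hβ]
      linear_combination α ^ 4 * hp4 i
  -- the common class
  set h : Cl (IX s) := Cl.mk (∑ j, Finsupp.single (L 3 j) 1) with hh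
  have hrow : ∀ i, ∀ Q : PrimeDiv (IX s), (∑ j, Finsupp.single (L i j) (1 : ℤ)) Q =
      (ord Q (X 0 - C (p i) * X 1) : ℤ) := by
    intro i Q
    obtain ⟨h1, h2⟩ := ord_linear_xy hs 1 (-(p i)) (Or.inl one_ne_zero) Q
    rw [← hlin] at h1 h2
    rw [Finsupp.finsetSum_apply]
    by_cases hQ : (X 0 - C (p i) * X 1 : Pol k) ∈ Q.carrier
    · rw [h2 hQ]
      obtain ⟨j, rfl⟩ := hrowmem i Q hQ
      rw [Finset.sum_eq_single j]
      · simp
      · intro j' _ hj'
        rw [Finsupp.single_apply, if_neg]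
        intro h3
        exact hj' (hLinj _ _ _ _ h3).2
      · simp
    · rw [h1 hQ]
      rw [Finset.sum_eq_zero]
      · simp
      · intro j _
        rw [Finsupp.single_apply, if_neg]
        rintro rfl
        exact hQ (hLx i j)
  have hcol : ∀ j, ∀ Q : PrimeDiv (IX s), (∑ i, Finsupp.single (L i j) (1 : ℤ)) Q =
      (ord Q (X 2 - C (q j) * X 3) : ℤ) := by
    intro j Q
    obtain ⟨h1, h2⟩ := ord_linear_zw hs (hq4 j) Q
    rw [Finsupp.finsetSum_apply]
    by_cases hQ : ∃ p : k, p ^ 4 + s * p ^ 2 + 1 = 0 ∧ Q.carrier = lineIdeal p (q j)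
    · rw [h1 hQ]
      obtain ⟨p', hp', hQc⟩ := hQ
      obtain ⟨i, rfl⟩ := hproot p' hp'
      have hQi : Q = L i j := linesA_ext (by rw [hQc, hL])
      subst hQi
      rw [Finset.sum_eq_single i]
      · simp
      · intro i' _ hi'
        rw [Finsupp.single_apply, if_neg]
        intro h3
        exact hi' (hLinj _ _ _ _ h3).1
      · simp
    · rw [h2 hQ]
      rw [Finset.sum_eq_zero]
      · simp
      · intro i _
        rw [Finsupp.single_apply, if_neg]
        rintro rfl
        exact hQ ⟨p i, hp4 i, hL i j⟩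
  have hxhom : ∀ c : k, (X 0 - C c * X 1 : Pol k).IsHomogeneous 1 := by
    intro c
    rw [hlin]
    exact linesA_lin_homog _ _
  have hxne : ∀ c : k, (X 0 - C c * X 1 : Pol k) ≠ 0 := by
    intro c
    rw [hlin]
    exact linesA_lin_ne _ _ (Or.inl one_ne_zero)
  have hrowcl : ∀ i, (∑ j, (Cl.mk (Finsupp.single (L i j) 1) : Cl (IX s))) = h := by
    intro i
    have h1 : (∑ j, (Cl.mk (Finsupp.single (L i j) 1) : Cl (IX s))) =
        Cl.mk (∑ j, Finsupp.single (L i j) 1) := by
      exact (map_sum (QuotientAddGroup.mk' (Princ (IX s)))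
        (fun j => Finsupp.single (L i j) (1 : ℤ)) Finset.univ).symm
    rw [h1, hh]
    exact linesA_mk_eq _ _ _ _ (hxhom _) (hxhom _) (hxne _) (hxne _) (hrow i) (hrow 3)
  have hcolcl : ∀ j, (∑ i, (Cl.mk (Finsupp.single (L i j) 1) : Cl (IX s))) = h := by
    intro j
    have h1 : (∑ i, (Cl.mk (Finsupp.single (L i j) 1) : Cl (IX s))) =
        Cl.mk (∑ i, Finsupp.single (L i j) 1) := by
      exact (map_sum (QuotientAddGroup.mk' (Princ (IX s)))
        (fun i => Finsupp.single (L i j) (1 : ℤ)) Finset.univ).symm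
    rw [h1, hh]
    exact linesA_mk_eq _ _ _ _ (linesA_zw_homog _) (hxhom _) (linesA_zw_ne _) (hxne _)
      (hcol j) (hrow 3)
  set S : AddSubgroup (Cl (IX s)) :=
    AddSubgroup.closure {c | ∃ i j, i ≠ 0 ∧ ((i = 1 ∨ i = 2) → j ≠ 0) ∧
      c = Cl.mk (Finsupp.single (L i j) 1)} with hS
  have hgood : ∀ i j, i ≠ 0 → ((i = 1 ∨ i = 2) → j ≠ 0) →
      (Cl.mk (Finsupp.single (L i j) 1) : Cl (IX s)) ∈ S := fun i j h1 h2 =>
    AddSubgroup.subset_closure ⟨i, j, h1, h2, rfl⟩
  have h3mem : ∀ j, (Cl.mk (Finsupp.single (L 3 j) 1) : Cl (IX s)) ∈ S := fun j =>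
    hgood 3 j (by decide) (fun h => absurd h (by decide))
  have hhS : h ∈ S := by
    rw [← hrowcl 3]
    exact AddSubgroup.sum_mem _ fun j _ => h3mem j
  have h12 : ∀ i, i = 1 ∨ i = 2 → ∀ j, (Cl.mk (Finsupp.single (L i j) 1) : Cl (IX s)) ∈ S := by
    intro i hi j
    have hi0 : i ≠ 0 := by rcases hi with rfl | rfl <;> decide
    by_cases hj : j = 0
    · subst hj
      have h1 := hrowcl i
      rw [Fin.sum_univ_four] at h1
      have h2 : (Cl.mk (Finsupp.single (L i 0) 1) : Cl (IX s)) =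
          h - Cl.mk (Finsupp.single (L i 1) 1) - Cl.mk (Finsupp.single (L i 2) 1) -
            Cl.mk (Finsupp.single (L i 3) 1) := by
        rw [← h1]
        abel
      rw [h2]
      exact S.sub_mem (S.sub_mem (S.sub_mem hhS (hgood i 1 hi0 (fun _ => by decide)))
        (hgood i 2 hi0 (fun _ => by decide))) (hgood i 3 hi0 (fun _ => by decide))
    · exact hgood i j hi0 (fun _ => hj)
  have hall : ∀ i j, (Cl.mk (Finsupp.single (L i j) 1) : Cl (IX s)) ∈ S := by
    intro i j
    by_cases hi : i = 0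
    · subst hi
      have h1 := hcolcl j
      rw [Fin.sum_univ_four] at h1
      have h2 : (Cl.mk (Finsupp.single (L 0 j) 1) : Cl (IX s)) =
          h - Cl.mk (Finsupp.single (L 1 j) 1) - Cl.mk (Finsupp.single (L 2 j) 1) -
            Cl.mk (Finsupp.single (L 3 j) 1) := by
        rw [← h1]
        abel
      rw [h2]
      exact S.sub_mem (S.sub_mem (S.sub_mem hhS (h12 1 (Or.inl rfl) j)) (h12 2 (Or.inr rfl) j))
        (h3mem j)
    · by_cases hi12 : i = 1 ∨ i = 2
      · exact h12 i hi12 j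
      · exact hgood i j hi (fun h => absurd h hi12)
  apply le_antisymm
  · rw [Vert, AddSubgroup.closure_le]
    rintro c ⟨Q, hQ, rfl⟩
    rcases vertical_cases hs Q hQ with ⟨p', q', hp', hq', hc⟩ | ⟨α, β, h0, hne, hc⟩
    · obtain ⟨i', rfl⟩ := hproot p' hp'
      obtain ⟨j', rfl⟩ := hqroot q' hq'
      have : Q = L i' j' := linesA_ext (by rw [hc, hL])
      rw [this]
      exact hall i' j'
    · have h1 : (Cl.mk (Finsupp.single Q 1) : Cl (IX s)) = h := by
        refine linesA_mk_eq _ _ (C α * X 0 + C β * X 1) _ (linesA_lin_homog _ _) (hxhom (p 3))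
          (linesA_lin_ne _ _ h0) (hxne _) ?_ (hrow 3)
        intro Q'
        obtain ⟨h1, h2⟩ := ord_linear_xy hs α β h0 Q'
        by_cases hQ' : (C α * X 0 + C β * X 1 : Pol k) ∈ Q'.carrier
        · rw [h2 hQ']
          have hle : Q.carrier ≤ Q'.carrier := by
            rw [hc, sup_le_iff, Ideal.span_le]
            constructor
            · rintro g rfl
              exact hQ'
            · exact Q'.lt.le
          have := Q'.minimal Q.carrier Q.prime Q.homog Q.lt hle
          rw [linesA_ext this]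
          simp
        · rw [h1 hQ', Finsupp.single_apply, if_neg]
          · simp
          · rintro rfl
            apply hQ'
            rw [hc]
            exact Ideal.mem_sup_left (Ideal.subset_span rfl)
      change (Cl.mk (Finsupp.single Q 1) : Cl (IX s)) ∈ S
      rw [h1]
      exact hhS
  · rw [hS, AddSubgroup.closure_le]
    rintro c ⟨i, j, -, -, rfl⟩
    exact AddSubgroup.subset_closure ⟨L i j, hLhor i j, rfl⟩

end PicJump

end
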