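import Pool.Agent.Lib_helper43.PJ.D
import Pool.Agent.Lib_helper43.PJ.W_FibIso

/-!
BLOCK NFA of MP_f6fc0c_ag.
BLOCK NF (normal form of the elements of `A`).
Let `ζ^4 = -1`, `m = u - ζ v`, `n = u + ζ v`.  Then `m n (m^2 + n^2) = 2 (u^4 + v^4) = 2 F(a)`.
So `m` is a unit; let `x = n / m`.  Then `m^4 (x^3 + x) = 2 F(a)`, and `A` is free of rank 4, with
basis `1, m, m^2, m^3`, over its subring generated by `k(a)`, `x`, `1/(x^3 + x)`, in which `x` is
transcendental over `k(a)`.
-/

noncomputable section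

namespace PicJump

open MvPolynomial

variable {k A : Type} [Field k] [IsAlgClosed k] [CharZero k] [CommRing A] [IsDomain A]
  [Algebra k A] {s : k}

omit [IsAlgClosed k] [CharZero k] [IsDomain A] in
theorem nfa_aeval_Fp (f : Fib k A s) : Polynomial.aeval f.a (Fp s) = f.u ^ 4 + f.v ^ 4 := by
  rw [← f.rel]
  simp only [Fp, map_add, map_mul, map_pow, Polynomial.aeval_X, Polynomial.aeval_C, map_one]

omit [IsAlgClosed k] [CharZero k] in
theorem nfa_Fp_ne_zero (s : k) : Fp s ≠ 0 := by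
  intro h
  have h1 : (Fp s).coeff 0 = 1 := by
    simp [Fp]
  rw [h] at h1
  simp at h1

theorem nfa_two_ne (k A : Type) [Field k] [CharZero k] [CommRing A] [IsDomain A]
    [Algebra k A] : (2 : A) ≠ 0 := by
  have h : (algebraMap k A) 2 ≠ 0 := by
    rw [Ne, map_eq_zero_iff (algebraMap k A) (algebraMap k A).injective]
    exact two_ne_zero
  rwa [map_ofNat] at h

theorem Fib.mn_rel (f : Fib k A s) {ζ : k} (hζ : ζ ^ 4 = -1) :
    f.m ζ * f.n ζ * (f.m ζ ^ 2 + f.n ζ ^ 2) = 2 * Polynomial.aeval f.a (Fp s) := by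
  have h1 : (algebraMap k A ζ) ^ 4 = -1 := by rw [← map_pow, hζ, map_neg, map_one]
  rw [nfa_aeval_Fp, Fib.m, Fib.n]
  linear_combination (-2 * f.v ^ 4) * h1

theorem Fib.isUnit_m (f : Fib k A s) {ζ : k} (hζ : ζ ^ 4 = -1) : IsUnit (f.m ζ) := by
  have h := f.mn_rel hζ
  have hu : IsUnit (2 * Polynomial.aeval f.a (Fp s) : A) := by
    refine IsUnit.mul ?_ (f.unit _ (nfa_Fp_ne_zero s))
    have : IsUnit ((algebraMap k A) 2) := (isUnit_iff_ne_zero.2 two_ne_zero).map (algebraMap k A)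
    rwa [map_ofNat] at this
  rw [← h, mul_assoc] at hu
  exact isUnit_of_mul_isUnit_left hu

/-- evaluation of `R ∈ k[a][x]` at `(a, x)` -/
def nfaE (f : Fib k A s) (x : A) : Polynomial (Polynomial k) →+* A :=
  Polynomial.eval₂RingHom (Polynomial.aeval f.a : Polynomial k →ₐ[k] A).toRingHom x

omit [IsAlgClosed k] [CharZero k] [IsDomain A] in
theorem nfaE_apply (f : Fib k A s) (x : A) (R : Polynomial (Polynomial k)) :
    nfaE f x R = Polynomial.eval₂ (Polynomial.aeval f.a : Polynomial k →ₐ[k] A).toRingHom x R :=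
  rfl

omit [IsAlgClosed k] [CharZero k] [IsDomain A] in
theorem nfaE_X (f : Fib k A s) (x : A) : nfaE f x Polynomial.X = x := by
  simp [nfaE]

omit [IsAlgClosed k] [CharZero k] [IsDomain A] in
theorem nfaE_C (f : Fib k A s) (x : A) (t : Polynomial k) :
    nfaE f x (Polynomial.C t) = Polynomial.aeval f.a t := by
  simp [nfaE]

/-- the image of `R ∈ k[a][x]` in the algebraic closure of `k(a)(x)` -/
def nfaPsi (k : Type) [Field k] :
    Polynomial (Polynomial k) →+* AlgebraicClosure (RatFunc (RatFunc k)) :=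
  (algebraMap (RatFunc (RatFunc k)) (AlgebraicClosure (RatFunc (RatFunc k)))).comp
    ((algebraMap (Polynomial (RatFunc k)) (RatFunc (RatFunc k))).comp
      (Polynomial.mapRingHom (algebraMap (Polynomial k) (RatFunc k))))

omit [IsAlgClosed k] [CharZero k] in
theorem nfaPsi_injective : Function.Injective (nfaPsi k) := by
  unfold nfaPsi
  rw [RingHom.coe_comp, RingHom.coe_comp]
  refine (RingHom.injective _).comp ((RatFunc.algebraMap_injective _).comp ?_)
  exact Polynomial.map_injective _ (RatFunc.algebraMap_injective _)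

omit [IsAlgClosed k] in
theorem nfaE_injective_aux {Ω : Type} [Field Ω] [IsAlgClosed Ω]
    (ψ : Polynomial (Polynomial k) →+* Ω) (hψ : Function.Injective ψ)
    (f : Fib k A s) {ζ : k} (hζ : ζ ^ 4 = -1) (x : A)
    (hx : x * f.m ζ = f.n ζ) : Function.Injective (nfaE f x) := by
  classical
  letI : Algebra k Ω := (ψ.comp (Polynomial.C.comp Polynomial.C)).toAlgebra
  have halg : ∀ c : k, algebraMap k Ω c = ψ (Polynomial.C (Polynomial.C c)) := fun c => rfl
  set a' : Ω := ψ (Polynomial.C Polynomial.X) with ha'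
  set x' : Ω := ψ Polynomial.X with hx'
  have haev : ∀ t : Polynomial k, Polynomial.aeval a' t = ψ (Polynomial.C t) := by
    intro t
    have h1 : (ψ.comp Polynomial.C) t
        = Polynomial.eval₂ ((ψ.comp Polynomial.C).comp Polynomial.C)
            ((ψ.comp Polynomial.C) Polynomial.X) t := by
      rw [← Polynomial.hom_eval₂, Polynomial.eval₂_C_X]
    rw [Polynomial.aeval_def]
    exact h1.symm
  have hne : ∀ t : Polynomial k, t ≠ 0 → Polynomial.aeval a' t ≠ 0 := by
    intro t ht h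
    rw [haev, map_eq_zero_iff ψ hψ, Polynomial.C_eq_zero] at h
    exact ht h
  have hx3 : x' ^ 3 + x' ≠ 0 := by
    intro h
    have h1 : ψ (Polynomial.X ^ 3 + Polynomial.X) = 0 := by
      rw [map_add, map_pow]; exact h
    rw [map_eq_zero_iff ψ hψ] at h1
    have h2 := congrArg (fun p => Polynomial.coeff p 1) h1
    simp [Polynomial.coeff_X_pow] at h2
  obtain ⟨m', hm'⟩ := IsAlgClosed.exists_pow_nat_eq (2 * Polynomial.aeval a' (Fp s) / (x' ^ 3 + x'))
    (n := 4) (by norm_num)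
  have h2 : (2 : Ω) ≠ 0 := nfa_two_ne k Ω
  have hm4 : m' ^ 4 * (x' ^ 3 + x') = 2 * Polynomial.aeval a' (Fp s) := by
    rw [hm']
    exact div_mul_cancel₀ _ hx3
  have hm0 : m' ≠ 0 := by
    rintro h
    rw [h] at hm4
    have h3 : (2 : Ω) * Polynomial.aeval a' (Fp s) ≠ 0 := mul_ne_zero h2 (hne _ (nfa_Fp_ne_zero s))
    apply h3
    rw [← hm4]; ring
  have hζ0 : ζ ≠ 0 := by
    rintro rfl
    norm_num at hζ
  set z : Ω := algebraMap k Ω ζ with hz
  have hz0 : z ≠ 0 := by
    rw [hz, Ne, map_eq_zero_iff (algebraMap k Ω) (algebraMap k Ω).injective]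
    exact hζ0
  have hz4 : z ^ 4 = -1 := by rw [hz, ← map_pow, hζ, map_neg, map_one]
  set u' : Ω := (m' + x' * m') / 2 with hu'
  set v' : Ω := (x' * m' - m') / (2 * z) with hv'
  have hm1 : u' - z * v' = m' := by
    rw [hu', hv']; field_simp; ring
  have hn1 : u' + z * v' = x' * m' := by
    rw [hu', hv']; field_simp; ring
  have hrel : a' ^ 4 + algebraMap k Ω s * a' ^ 2 + 1 = u' ^ 4 + v' ^ 4 := by
    have h3 : Polynomial.aeval a' (Fp s) = a' ^ 4 + algebraMap k Ω s * a' ^ 2 + 1 := by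
      simp only [Fp, map_add, map_mul, map_pow, Polynomial.aeval_X, Polynomial.aeval_C, map_one]
    have h4 : (u' - z * v') * (u' + z * v') * ((u' - z * v') ^ 2 + (u' + z * v') ^ 2)
        = 2 * (u' ^ 4 + v' ^ 4) := by
      linear_combination (-2 * v' ^ 4) * hz4
    rw [hm1, hn1] at h4
    have h5 : m' * (x' * m') * (m' ^ 2 + (x' * m') ^ 2) = m' ^ 4 * (x' ^ 3 + x') := by ring
    rw [h5, hm4, h3] at h4
    exact mul_left_cancel₀ h2 h4
  obtain ⟨φ, hφa, hφu, hφv⟩ := f.exists_lift a' u' v' hrel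
    (fun t ht => isUnit_iff_ne_zero.2 (hne t ht))
  have hφx : φ x = x' := by
    have h6 := congrArg φ hx
    rw [map_mul, Fib.m, Fib.n, map_sub, map_add, map_mul, AlgHom.commutes, hφu, hφv] at h6
    rw [← hz, hm1, hn1] at h6
    exact mul_right_cancel₀ hm0 h6
  have hφE : ∀ R, φ (nfaE f x R) = ψ R := by
    intro R
    have h7 : (φ : A →+* Ω).comp (nfaE f x) = ψ := by
      apply Polynomial.ringHom_ext
      · intro t
        rw [RingHom.comp_apply, nfaE_C, ← haev, ← hφa, Polynomial.aeval_algHom_apply]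
        rfl
      · rw [RingHom.comp_apply, nfaE_X]
        exact hφx
    exact DFunLike.congr_fun h7 R
  intro R R' h
  apply hψ
  rw [← hφE, ← hφE, h]

theorem nfaE_injective (f : Fib k A s) {ζ : k} (hζ : ζ ^ 4 = -1) (x : A)
    (hx : x * f.m ζ = f.n ζ) : Function.Injective (nfaE f x) :=
  nfaE_injective_aux (nfaPsi k) nfaPsi_injective f hζ x hx

theorem nfa_fourier (k : Type) {A : Type} [Field k] [CharZero k] [CommRing A] [IsDomain A]
    [Algebra k A] (I : A) (hI : I ^ 2 = -1) (T0 T1 T2 T3 : A)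
    (h0 : T0 + T1 + T2 + T3 = 0) (h1 : T0 + I * T1 + I ^ 2 * T2 + I ^ 3 * T3 = 0)
    (h2 : T0 + I ^ 2 * T1 + I ^ 4 * T2 + I ^ 6 * T3 = 0)
    (h3 : T0 + I ^ 3 * T1 + I ^ 6 * T2 + I ^ 9 * T3 = 0) :
    T0 = 0 ∧ T1 = 0 ∧ T2 = 0 ∧ T3 = 0 := by
  have h4 : (4 : A) ≠ 0 := by
    have := mul_ne_zero (nfa_two_ne k A) (nfa_two_ne k A)
    intro h; apply this; rw [← h]; norm_num
  have i3 : I ^ 3 = -I := by rw [pow_succ, hI]; ring
  have i4 : I ^ 4 = 1 := by rw [show 4 = 2 * 2 from rfl, pow_mul, hI]; ring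
  have i6 : I ^ 6 = -1 := by rw [show 6 = 2 * 3 from rfl, pow_mul, hI]; ring
  have i9 : I ^ 9 = I := by rw [show 9 = 4 * 2 + 1 from rfl, pow_succ, pow_mul, i4]; ring
  rw [hI, i3] at h1
  rw [hI, i4, i6] at h2
  rw [i3, i6, i9] at h3
  refine ⟨?_, ?_, ?_, ?_⟩
  · apply mul_left_cancel₀ h4
    linear_combination h0 + h1 + h2 + h3
  · apply mul_left_cancel₀ h4
    linear_combination h0 - I * h1 - h2 + I * h3 + (2 * T1 - 2 * T3) * hI
  · apply mul_left_cancel₀ h4
    linear_combination h0 - h1 + h2 - h3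
  · apply mul_left_cancel₀ h4
    linear_combination h0 + I * h1 - h2 - I * h3 + (2 * T3 - 2 * T1) * hI

/-- the automorphism `σ : (u, v) -> (i u, i v)` fixes `x` and multiplies `m` by `i` -/
theorem nfa_sigma (f : Fib k A s) {i : k} (σ : A ≃ₐ[k] A)
    (hσ : f.IsAut σ f.a (algebraMap k A i * f.u) (algebraMap k A i * f.v)) (hi : i ≠ 0)
    {ζ : k} (hζ : ζ ^ 4 = -1) (x : A) (hx : x * f.m ζ = f.n ζ) :
    σ (f.m ζ) = algebraMap k A i * f.m ζ ∧ σ x = x ∧ ∀ R, σ (nfaE f x R) = nfaE f x R := by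
  obtain ⟨h1, h2, h3⟩ := hσ
  have hm : σ (f.m ζ) = algebraMap k A i * f.m ζ := by
    rw [Fib.m, map_sub, map_mul, AlgEquiv.commutes, h2, h3]; ring
  have hn : σ (f.n ζ) = algebraMap k A i * f.n ζ := by
    rw [Fib.n, map_add, map_mul, AlgEquiv.commutes, h2, h3]; ring
  have hi0 : algebraMap k A i ≠ 0 := by
    rw [Ne, map_eq_zero_iff (algebraMap k A) (algebraMap k A).injective]
    exact hi
  have hm0 : f.m ζ ≠ 0 := (f.isUnit_m hζ).ne_zero
  have hσx : σ x = x := by
    have h4 := congrArg σ hx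
    rw [map_mul, hm, hn, ← hx] at h4
    apply mul_right_cancel₀ (mul_ne_zero hi0 hm0)
    rw [h4]; ring
  refine ⟨hm, hσx, fun R => ?_⟩
  have h7 : ((σ : A →ₐ[k] A) : A →+* A).comp (nfaE f x) = nfaE f x := by
    apply Polynomial.ringHom_ext
    · intro t
      rw [RingHom.comp_apply, nfaE_C]
      have : σ (Polynomial.aeval f.a t) = Polynomial.aeval f.a t := by
        have h5 := Polynomial.aeval_algHom_apply (σ : A →ₐ[k] A) f.a t
        rw [AlgEquiv.coe_toAlgHom, h1] at h5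
        exact h5.symm
      exact this
    · rw [RingHom.comp_apply, nfaE_X]
      exact hσx
  exact DFunLike.congr_fun h7 R

theorem nfa_exists_sigma (f : Fib k A s) : ∃ (i : k) (σ : A ≃ₐ[k] A), i ^ 2 = -1 ∧
    f.IsAut σ f.a (algebraMap k A i * f.u) (algebraMap k A i * f.v) := by
  obtain ⟨i, hi⟩ := IsAlgClosed.exists_pow_nat_eq (-1 : k) (n := 2) (by norm_num)
  have hi4 : i ^ 4 = 1 := by rw [show 4 = 2 * 2 from rfl, pow_mul, hi]; norm_num
  obtain ⟨σ, h1, h2, h3⟩ := f.exists_scale 1 i i (one_pow 2) hi4 hi4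
  exact ⟨i, σ, hi, by simpa using h1, h2, h3⟩

/-- `x` is transcendental over `k(a)`, and `1, m, m^2, m^3` are independent over `k(a)(x)`.
Polynomials in `a` and `x` are written as elements of `k[a][x]`.  Proof: apply the powers of
the automorphism `(u, v) -> (i u, i v)` to reduce to one term, which is (a power of `m` times) a
polynomial in `a, u, v` which is homogeneous in `u, v`; such a polynomial can be divisible by
`relPoly` only if it is `0` (compare the terms of lowest and highest degree in `u, v`). -/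
theorem Fib.nf_indep (f : Fib k A s) {ζ : k} (hζ : ζ ^ 4 = -1) (x : A)
    (hx : x * f.m ζ = f.n ζ) (R : Fin 4 → Polynomial (Polynomial k))
    (h : ∑ j : Fin 4, Polynomial.eval₂ (Polynomial.aeval f.a : Polynomial k →ₐ[k] A).toRingHom x
      (R j) * f.m ζ ^ (j : ℕ) = 0) : R = 0 := by
  obtain ⟨i, σ, hi, hσ⟩ := nfa_exists_sigma f
  have hi0 : i ≠ 0 := by rintro rfl; norm_num at hi
  obtain ⟨hσm, hσx, hσE⟩ := nfa_sigma f σ hσ hi0 hζ x hx
  set I := algebraMap k A i with hI
  have hI2 : I ^ 2 = -1 := by rw [hI, ← map_pow, hi, map_neg, map_one]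
  have hσI : σ I = I := by rw [hI, AlgEquiv.commutes]
  simp only [← nfaE_apply] at h
  rw [Fin.sum_univ_four] at h
  simp only [Fin.val_zero, Fin.val_one, Fin.val_two, Fin.isValue, pow_zero, mul_one, pow_one,
    show ((3 : Fin 4) : ℕ) = 3 from rfl] at h
  have h1 := congrArg σ h
  simp only [map_add, map_mul, map_pow, hσE, hσm, map_zero] at h1
  have h2 := congrArg σ h1
  simp only [map_add, map_mul, map_pow, hσE, hσm, hσI, map_zero] at h2
  have h3 := congrArg σ h2
  simp only [map_add, map_mul, map_pow, hσE, hσm, hσI, map_zero] at h3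
  have hF := nfa_fourier k I hI2 (nfaE f x (R 0)) (nfaE f x (R 1) * f.m ζ)
    (nfaE f x (R 2) * f.m ζ ^ 2) (nfaE f x (R 3) * f.m ζ ^ 3) h (by rw [← h1]; ring)
    (by rw [← h2]; ring) (by rw [← h3]; ring)
  obtain ⟨e0, e1, e2, e3⟩ := hF
  have hm0 : f.m ζ ≠ 0 := (f.isUnit_m hζ).ne_zero
  have hinj := nfaE_injective f hζ x hx
  have hz : ∀ R : Polynomial (Polynomial k), nfaE f x R = 0 → R = 0 := by
    intro R hR
    apply hinj
    rw [hR, map_zero]
  have r0 := hz _ e0
  have r1 := hz _ ((mul_eq_zero.1 e1).resolve_right hm0)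
  have r2 := hz _ ((mul_eq_zero.1 e2).resolve_right (pow_ne_zero _ hm0))
  have r3 := hz _ ((mul_eq_zero.1 e3).resolve_right (pow_ne_zero _ hm0))
  funext j
  fin_cases j
  · exact r0
  · exact r1
  · exact r2
  · exact r3

/-- every element has a normal form -/
theorem Fib.nf_exists (f : Fib k A s) {ζ : k} (hζ : ζ ^ 4 = -1) (x : A)
    (hx : x * f.m ζ = f.n ζ) (z : A) :
    ∃ (t : Polynomial k) (N : ℕ) (R : Fin 4 → Polynomial (Polynomial k)), t ≠ 0 ∧
      z * Polynomial.aeval f.a t * (x ^ 3 + x) ^ N =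
        ∑ j : Fin 4, Polynomial.eval₂ (Polynomial.aeval f.a : Polynomial k →ₐ[k] A).toRingHom x
          (R j) * f.m ζ ^ (j : ℕ) := by
  set E := nfaE f x with hE
  set m := f.m ζ with hm
  have hζ0 : ζ ≠ 0 := by
    rintro rfl
    norm_num at hζ
  have hEX : E Polynomial.X = x := nfaE_X f x
  have hEC : ∀ t, E (Polynomial.C t) = Polynomial.aeval f.a t := nfaE_C f x
  -- the relation `m ^ 4 (x ^ 3 + x) = 2 F`
  have hrel : m ^ 4 * (x ^ 3 + x) = E (Polynomial.C (2 * Fp s)) := by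
    have h := f.mn_rel hζ
    rw [← hx] at h
    rw [hEC, map_mul, map_ofNat, ← h]
    ring
  have key : ∀ P : MvPolynomial (Fin 3) k, ∃ (N : ℕ) (R : Fin 4 → Polynomial (Polynomial k)),
      aeval ![f.a, f.u, f.v] P * (x ^ 3 + x) ^ N = ∑ j : Fin 4, E (R j) * m ^ (j : ℕ) := by
    have hadd : ∀ z w : A,
        (∃ (N : ℕ) (R : Fin 4 → Polynomial (Polynomial k)),
          z * (x ^ 3 + x) ^ N = ∑ j : Fin 4, E (R j) * m ^ (j : ℕ)) →
        (∃ (N : ℕ) (R : Fin 4 → Polynomial (Polynomial k)),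
          w * (x ^ 3 + x) ^ N = ∑ j : Fin 4, E (R j) * m ^ (j : ℕ)) →
        (∃ (N : ℕ) (R : Fin 4 → Polynomial (Polynomial k)),
          (z + w) * (x ^ 3 + x) ^ N = ∑ j : Fin 4, E (R j) * m ^ (j : ℕ)) := by
      rintro z w ⟨N, R, h⟩ ⟨N', R', h'⟩
      refine ⟨N + N', fun j => R j * (Polynomial.X ^ 3 + Polynomial.X) ^ N'
        + R' j * (Polynomial.X ^ 3 + Polynomial.X) ^ N, ?_⟩
      have e1 : (z + w) * (x ^ 3 + x) ^ (N + N')
          = (z * (x ^ 3 + x) ^ N) * (x ^ 3 + x) ^ N' + (w * (x ^ 3 + x) ^ N') * (x ^ 3 + x) ^ N := by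
        ring
      rw [e1, h, h', Finset.sum_mul, Finset.sum_mul, ← Finset.sum_add_distrib]
      refine Finset.sum_congr rfl fun j _ => ?_
      simp only [map_add, map_mul, map_pow, hEX]
      ring
    have hmulE : ∀ (T : Polynomial (Polynomial k)) (z : A),
        (∃ (N : ℕ) (R : Fin 4 → Polynomial (Polynomial k)),
          z * (x ^ 3 + x) ^ N = ∑ j : Fin 4, E (R j) * m ^ (j : ℕ)) →
        (∃ (N : ℕ) (R : Fin 4 → Polynomial (Polynomial k)),
          (z * E T) * (x ^ 3 + x) ^ N = ∑ j : Fin 4, E (R j) * m ^ (j : ℕ)) := by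
      rintro T z ⟨N, R, h⟩
      refine ⟨N, fun j => T * R j, ?_⟩
      have e1 : (z * E T) * (x ^ 3 + x) ^ N = E T * (z * (x ^ 3 + x) ^ N) := by ring
      rw [e1, h, Finset.mul_sum]
      refine Finset.sum_congr rfl fun j _ => ?_
      rw [map_mul]; ring
    have hmulm : ∀ (z : A),
        (∃ (N : ℕ) (R : Fin 4 → Polynomial (Polynomial k)),
          z * (x ^ 3 + x) ^ N = ∑ j : Fin 4, E (R j) * m ^ (j : ℕ)) →
        (∃ (N : ℕ) (R : Fin 4 → Polynomial (Polynomial k)),
          (z * m) * (x ^ 3 + x) ^ N = ∑ j : Fin 4, E (R j) * m ^ (j : ℕ)) := by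
      rintro z ⟨N, R, h⟩
      refine ⟨N + 1, ![R 3 * Polynomial.C (2 * Fp s), R 0 * (Polynomial.X ^ 3 + Polynomial.X),
        R 1 * (Polynomial.X ^ 3 + Polynomial.X), R 2 * (Polynomial.X ^ 3 + Polynomial.X)], ?_⟩
      have e1 : (z * m) * (x ^ 3 + x) ^ (N + 1)
          = (z * (x ^ 3 + x) ^ N) * m * (x ^ 3 + x) := by ring
      rw [e1, h, Fin.sum_univ_four, Fin.sum_univ_four]
      simp only [Fin.val_zero, Fin.val_one, Fin.val_two, Fin.isValue, pow_zero, mul_one, pow_one,
        show ((3 : Fin 4) : ℕ) = 3 from rfl, Matrix.cons_val_zero, Matrix.cons_val_one,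
        Matrix.cons_val_two, Matrix.cons_val_three, Matrix.head_cons, Matrix.tail_cons,
        map_mul (E), map_add (E), map_pow (E), hEX]
      have h4 : E (R 3) * m ^ 3 * m * (x ^ 3 + x) = E (R 3) * E (Polynomial.C (2 * Fp s)) := by
        rw [← hrel]; ring
      linear_combination h4
    intro P
    induction P using MvPolynomial.induction_on with
    | C c =>
      refine ⟨0, ![Polynomial.C (Polynomial.C c), 0, 0, 0], ?_⟩
      rw [Fin.sum_univ_four]
      simp [hEC]
    | add p q hp hq =>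
      rw [map_add]
      exact hadd _ _ hp hq
    | mul_X p i hp =>
      rw [map_mul, aeval_X]
      fin_cases i
      · have e1 : aeval ![f.a, f.u, f.v] p * ![f.a, f.u, f.v] ⟨0, by omega⟩
            = aeval ![f.a, f.u, f.v] p * E (Polynomial.C Polynomial.X) := by
          rw [hEC]; simp
        rw [show (![f.a, f.u, f.v] ((fun i => i) ⟨0, by omega⟩) : A) = ![f.a, f.u, f.v] ⟨0, by omega⟩
          from rfl, e1]
        exact hmulE _ _ hp
      · -- `u = (1 + x) m / 2`
        have e2 : f.u = m * E (Polynomial.C (Polynomial.C (2⁻¹ : k)) * (1 + Polynomial.X)) := by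
          have h2 : (algebraMap k A) 2⁻¹ * 2 = 1 := by
            have : (algebraMap k A) 2⁻¹ * (algebraMap k A) 2 = 1 := by
              rw [← map_mul, inv_mul_cancel₀ two_ne_zero, map_one]
            rwa [map_ofNat] at this
          rw [map_mul, hEC, map_add, map_one, hEX, Polynomial.aeval_C]
          have h3 : m * (1 + x) = 2 * f.u := by
            rw [mul_add, mul_one, mul_comm m x, hx, hm, Fib.m, Fib.n]; ring
          linear_combination (-f.u) * h2 - (algebraMap k A) 2⁻¹ * h3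
        have e1 : aeval ![f.a, f.u, f.v] p * f.u
            = (aeval ![f.a, f.u, f.v] p * m)
              * E (Polynomial.C (Polynomial.C (2⁻¹ : k)) * (1 + Polynomial.X)) := by
          rw [mul_assoc, ← e2]
        change ∃ (N : ℕ) (R : Fin 4 → Polynomial (Polynomial k)),
          aeval ![f.a, f.u, f.v] p * f.u * (x ^ 3 + x) ^ N = ∑ j : Fin 4, E (R j) * m ^ (j : ℕ)
        rw [e1]
        exact hmulE _ _ (hmulm _ hp)
      · have e2 : f.v = m * E (Polynomial.C (Polynomial.C ((2 * ζ)⁻¹ : k)) * (Polynomial.X - 1)) := by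
          have h2 : (algebraMap k A) (2 * ζ)⁻¹ * (2 * algebraMap k A ζ) = 1 := by
            have : (algebraMap k A) (2 * ζ)⁻¹ * (algebraMap k A) (2 * ζ) = 1 := by
              rw [← map_mul, inv_mul_cancel₀ (mul_ne_zero two_ne_zero hζ0), map_one]
            rwa [map_mul (algebraMap k A) 2 ζ, map_ofNat] at this
          rw [map_mul, hEC, map_sub, map_one, hEX, Polynomial.aeval_C]
          have h3 : m * (x - 1) = 2 * algebraMap k A ζ * f.v := by
            rw [mul_sub, mul_one, mul_comm m x, hx, hm, Fib.m, Fib.n]; ring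
          linear_combination (-f.v) * h2 - (algebraMap k A) (2 * ζ)⁻¹ * h3
        have e1 : aeval ![f.a, f.u, f.v] p * f.v
            = (aeval ![f.a, f.u, f.v] p * m)
              * E (Polynomial.C (Polynomial.C ((2 * ζ)⁻¹ : k)) * (Polynomial.X - 1)) := by
          rw [mul_assoc, ← e2]
        change ∃ (N : ℕ) (R : Fin 4 → Polynomial (Polynomial k)),
          aeval ![f.a, f.u, f.v] p * f.v * (x ^ 3 + x) ^ N = ∑ j : Fin 4, E (R j) * m ^ (j : ℕ)
        rw [e1]
        exact hmulE _ _ (hmulm _ hp)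
  obtain ⟨t, P, ht, hP⟩ := f.gen z
  obtain ⟨N, R, hR⟩ := key P
  refine ⟨t, N, R, ht, ?_⟩
  rw [hP, hR]
  rfl

end PicJump

end
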