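import Pool.Agent.Lib_helper43.PJ.D
import Pool.Agent.Lib_helper43.PJ.W_FibIso
import Pool.Agent.Lib_helper43.PJ.W_NFA

/-!
BLOCK NFB of MP_f6fc0c_ag.
BLOCK NF (normal form of the elements of `A`).
Let `ζ^4 = -1`, `m = u - ζ v`, `n = u + ζ v`.  Then `m n (m^2 + n^2) = 2 (u^4 + v^4) = 2 F(a)`.
So `m` is a unit; let `x = n / m`.  Then `m^4 (x^3 + x) = 2 F(a)`, and `A` is free of rank 4, with
basis `1, m, m^2, m^3`, over its subring generated by `k(a)`, `x`, `1/(x^3 + x)`, in which `x` is
transcendental over `k(a)`.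
-/

noncomputable section

namespace PicJump

open MvPolynomial

variable {k A : Type} [Field k] [IsAlgClosed k] [CharZero k] [CommRing A] [IsDomain A]
  [Algebra k A] {s : k}

/-- normal form of a `σ`-fixed element -/
theorem nfb_fixed (f : Fib k A s) {i : k} (hi : i ^ 2 = -1) (σ : A ≃ₐ[k] A)
    (hσ : f.IsAut σ f.a (algebraMap k A i * f.u) (algebraMap k A i * f.v))
    {ζ : k} (hζ : ζ ^ 4 = -1) (x : A) (hx : x * f.m ζ = f.n ζ) (z : A) (hz : σ z = z) :
    ∃ (t : Polynomial k) (N : ℕ) (R : Polynomial (Polynomial k)), t ≠ 0 ∧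
      z * Polynomial.aeval f.a t * (x ^ 3 + x) ^ N = nfaE f x R := by
  have hi0 : i ≠ 0 := by rintro rfl; norm_num at hi
  have hi1 : i ≠ 1 := by rintro rfl; norm_num at hi
  obtain ⟨hσm, hσx, hσE⟩ := nfa_sigma f σ hσ hi0 hζ x hx
  obtain ⟨t, N, R, ht, h⟩ := f.nf_exists hζ x hx z
  simp only [← nfaE_apply] at h
  have hC : ∀ c : k, nfaE f x (Polynomial.C (Polynomial.C c)) = algebraMap k A c := by
    intro c; rw [nfaE_C, Polynomial.aeval_C]
  have hσt : σ (Polynomial.aeval f.a t) = Polynomial.aeval f.a t := by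
    rw [← nfaE_C f x t]; exact hσE _
  have h1 := congrArg σ h
  simp only [map_mul, map_pow, map_add, hz, hσt, hσx, map_sum, hσE, hσm] at h1
  rw [h] at h1
  -- the difference
  have h2 : ∑ j : Fin 4, nfaE f x
      (Polynomial.C (Polynomial.C (i ^ (j : ℕ) - 1)) * R j) * f.m ζ ^ (j : ℕ) = 0 := by
    have h3 : ∀ j : Fin 4, nfaE f x
      (Polynomial.C (Polynomial.C (i ^ (j : ℕ) - 1)) * R j) * f.m ζ ^ (j : ℕ)
        = nfaE f x (R j) * (algebraMap k A i * f.m ζ) ^ (j : ℕ)
          - nfaE f x (R j) * f.m ζ ^ (j : ℕ) := by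
      intro j
      rw [map_mul, hC, map_sub, map_pow, map_one]; ring
    rw [Finset.sum_congr rfl fun j _ => h3 j, Finset.sum_sub_distrib, ← h1, sub_self]
  have h4 := f.nf_indep hζ x hx (fun j => Polynomial.C (Polynomial.C (i ^ (j : ℕ) - 1)) * R j) h2
  have h5 : ∀ j : Fin 4, i ^ (j : ℕ) - 1 ≠ 0 → R j = 0 := by
    intro j hj
    have h6 := congrFun h4 j
    simp only [Pi.zero_apply] at h6
    refine (mul_eq_zero.1 h6).resolve_left ?_
    exact Polynomial.C_ne_zero.2 (Polynomial.C_ne_zero.2 hj)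
  have r1 : R 1 = 0 := h5 1 (by simpa [sub_eq_zero] using hi1)
  have r2 : R 2 = 0 := h5 2 (by
    rw [show (((2 : Fin 4) : ℕ)) = 2 from rfl, hi]
    intro h7
    have : (2 : k) = 0 := by linear_combination -h7
    exact two_ne_zero this)
  have r3 : R 3 = 0 := h5 3 (by
    rw [show (((3 : Fin 4) : ℕ)) = 3 from rfl, pow_succ, hi]
    intro h7
    apply hi0
    have h8 : i = -1 := by linear_combination -h7
    exfalso
    rw [h8] at hi
    have : (2 : k) = 0 := by linear_combination hi
    exact two_ne_zero this)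
  refine ⟨t, N, R 0, ht, ?_⟩
  rw [h, Fin.sum_univ_four, r1, r2, r3]
  simp

/-- factors of products of primes of positive degree in `k[a][x]` -/
theorem nfb_factor (T : Polynomial k) (hT : T ≠ 0) (L : List (Polynomial (Polynomial k)))
    (hL : ∀ p ∈ L, Prime p) : ∀ (R R' : Polynomial (Polynomial k)),
      R * R' = Polynomial.C T * L.prod →
      ∃ (t : Polynomial k) (L' : List (Polynomial (Polynomial k))), t ≠ 0 ∧
        (∀ p ∈ L', p ∈ L) ∧ R = Polynomial.C t * L'.prod := by
  induction L with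
  | nil =>
    intro R R' h
    rw [List.prod_nil, mul_one] at h
    have h0 : R * R' ≠ 0 := by
      rw [h]; exact Polynomial.C_ne_zero.2 hT
    have hd : (R * R').natDegree = 0 := by rw [h, Polynomial.natDegree_C]
    rw [Polynomial.natDegree_mul (left_ne_zero_of_mul h0) (right_ne_zero_of_mul h0)] at hd
    have hd' : R.natDegree = 0 := by omega
    rw [Polynomial.natDegree_eq_zero] at hd'
    obtain ⟨t, ht⟩ := hd'
    refine ⟨t, [], ?_, by simp, by simp [ht]⟩
    rintro rfl
    apply left_ne_zero_of_mul h0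
    rw [← ht, map_zero]
  | cons p L ih =>
    intro R R' h
    have hp : Prime p := hL p (by simp)
    have ih' := ih (fun q hq => hL q (by simp [hq]))
    have hdvd : p ∣ R * R' := by
      rw [h, List.prod_cons]
      exact Dvd.intro (Polynomial.C T * L.prod) (by ring)
    rcases hp.dvd_or_dvd hdvd with ⟨S, hS⟩ | ⟨S, hS⟩
    · have h1 : S * R' = Polynomial.C T * L.prod := by
        apply mul_left_cancel₀ hp.ne_zero
        rw [List.prod_cons] at h
        rw [← mul_assoc, ← hS, h]; ring
      obtain ⟨t, L', ht, hL', hS'⟩ := ih' S R' h1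
      refine ⟨t, p :: L', ht, ?_, ?_⟩
      · intro q hq
        rcases List.mem_cons.1 hq with rfl | hq
        · simp
        · exact List.mem_cons_of_mem _ (hL' q hq)
      · rw [hS, hS', List.prod_cons]; ring
    · have h1 : R * S = Polynomial.C T * L.prod := by
        apply mul_left_cancel₀ hp.ne_zero
        rw [List.prod_cons] at h
        have h2 : p * (R * S) = R * (p * S) := by ring
        rw [h2, ← hS, h]; ring
      obtain ⟨t, L', ht, hL', hS'⟩ := ih' R S h1
      exact ⟨t, L', ht, fun q hq => List.mem_cons_of_mem _ (hL' q hq), hS'⟩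

/-- `∏ (u - q_j v) ^ e_j` -/
def nfbU (f : Fib k A s) (q : Fin 4 → k) (e : Fin 4 → ℕ) : A :=
  ∏ j, (f.u - algebraMap k A (q j) * f.v) ^ e j

omit [IsAlgClosed k] [CharZero k] [IsDomain A] in
theorem nfbU_add (f : Fib k A s) (q : Fin 4 → k) (e e' : Fin 4 → ℕ) :
    nfbU f q (e + e') = nfbU f q e * nfbU f q e' := by
  unfold nfbU
  rw [← Finset.prod_mul_distrib]
  exact Finset.prod_congr rfl fun j _ => by rw [Pi.add_apply, pow_add]

omit [IsAlgClosed k] [CharZero k] [IsDomain A] in
theorem nfbU_zero (f : Fib k A s) (q : Fin 4 → k) : nfbU f q 0 = 1 := by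
  simp [nfbU]

omit [IsAlgClosed k] [CharZero k] [IsDomain A] in
theorem nfbU_nsmul (f : Fib k A s) (q : Fin 4 → k) (e : Fin 4 → ℕ) (N : ℕ) :
    nfbU f q (N • e) = nfbU f q e ^ N := by
  induction N with
  | zero => rw [zero_smul, pow_zero, nfbU_zero]
  | succ n ih => rw [succ_nsmul, nfbU_add, ih, pow_succ]

omit [IsAlgClosed k] [CharZero k] [IsDomain A] in
theorem nfbU_single (f : Fib k A s) (q : Fin 4 → k) (j : Fin 4) (n : ℕ) :
    nfbU f q (Pi.single j n) = (f.u - algebraMap k A (q j) * f.v) ^ n := by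
  unfold nfbU
  rw [Finset.prod_eq_single j]
  · rw [Pi.single_eq_same]
  · intro b _ hb
    rw [Pi.single_eq_of_ne hb, pow_zero]
  · intro h; exact absurd (Finset.mem_univ _) h

theorem nfb_sum_single (j : Fin 4) (n : ℕ) : ∑ l, (Pi.single j n : Fin 4 → ℕ) l = n := by
  rw [Finset.sum_pi_single' ]
  simp

omit [IsAlgClosed k] [CharZero k] in
/-- evaluation of a product of the three linear primes -/
theorem nfb_list (f : Fib k A s) (q : Fin 4 → k) (x m : A)
    (S : Set (Polynomial (Polynomial k)))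
    (hS : ∀ p ∈ S, ∃ (c : k) (j : Fin 4), c ≠ 0 ∧
      nfaE f x p * m = algebraMap k A c * (f.u - algebraMap k A (q j) * f.v))
    (L : List (Polynomial (Polynomial k))) (hL : ∀ p ∈ L, p ∈ S) :
    ∃ (c : k) (e : Fin 4 → ℕ), c ≠ 0 ∧ ∑ j, e j = L.length ∧
      nfaE f x L.prod * m ^ L.length = algebraMap k A c * nfbU f q e := by
  induction L with
  | nil =>
    refine ⟨1, 0, one_ne_zero, by simp, ?_⟩
    rw [List.prod_nil, map_one, List.length_nil, pow_zero, map_one, nfbU_zero]
  | cons p L ih =>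
    obtain ⟨c, e, hc, he, h⟩ := ih (fun q hq => hL q (by simp [hq]))
    obtain ⟨c', j, hc', h'⟩ := hS p (hL p (by simp))
    refine ⟨c' * c, e + Pi.single j 1, mul_ne_zero hc' hc, ?_, ?_⟩
    · simp only [Pi.add_apply, Finset.sum_add_distrib, he, List.length_cons]
      rw [nfb_sum_single]
    · rw [List.prod_cons, List.length_cons, map_mul, pow_succ, nfbU_add, nfbU_single, map_mul,
        pow_one]
      have : nfaE f x p * nfaE f x L.prod * (m ^ L.length * m)
          = (nfaE f x p * m) * (nfaE f x L.prod * m ^ L.length) := by ring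
      rw [this, h, h']; ring

/-- NF-UNITS. The units of `A` fixed by `σ : (u, v) -> (i u, i v)`.
Proof: by the normal form (and `nf_indep`), a unit fixed by `σ` and its inverse are of the form
`R(a, x) / (t(a) (x^3+x)^N)`; so `R R' = t t' (x^3 + x)^M` in `k[a][x]`, whose prime factors are
constants in `x` and `x`, `x - i`, `x + i`.  Finally `x^3 + x = 2 F / m^4`, and each of
`x, x - i, x + i` is a constant times a quotient `(u - q_j v) / (u - q_l v)`. -/
theorem Fib.unit_sigma (f : Fib k A s) (i : k) (hi : i ^ 2 = -1) (σ : A ≃ₐ[k] A)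
    (hσ : f.IsAut σ f.a (algebraMap k A i * f.u) (algebraMap k A i * f.v))
    (q : Fin 4 → k) (hq : Function.Injective q) (hq4 : ∀ j, q j ^ 4 = -1)
    (ε : A) (hε : IsUnit ε) (hσε : σ ε = ε) :
    ∃ (t₁ t₂ : Polynomial k) (e₁ e₂ : Fin 4 → ℕ), t₁ ≠ 0 ∧ t₂ ≠ 0 ∧
      ∑ j, e₁ j = ∑ j, e₂ j ∧
      ε * Polynomial.aeval f.a t₂ * ∏ j, (f.u - algebraMap k A (q j) * f.v) ^ e₂ j =
        Polynomial.aeval f.a t₁ * ∏ j, (f.u - algebraMap k A (q j) * f.v) ^ e₁ j := by
  classical
  have hi0 : i ≠ 0 := by rintro rfl; norm_num at hi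
  have hi4 : i ^ 4 = 1 := by rw [show 4 = 2 * 2 from rfl, pow_mul, hi]; norm_num
  -- all fourth roots of `-1` are among the `q j`
  have hall : ∀ w : k, w ^ 4 = -1 → ∃ j, q j = w := by
    intro w hw
    by_contra hne
    push Not at hne
    have hp : (Polynomial.X ^ 4 + 1 : Polynomial k) ≠ 0 := by
      intro h
      have := congrArg (fun p => Polynomial.coeff p 0) h
      simp at this
    have hsub : insert w (Finset.univ.image q) ⊆ (Polynomial.X ^ 4 + 1 : Polynomial k).roots.toFinset := by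
      intro y hy
      rw [Multiset.mem_toFinset, Polynomial.mem_roots hp, Polynomial.IsRoot.def]
      rcases Finset.mem_insert.1 hy with rfl | hy
      · simp [hw]
      · obtain ⟨j, _, rfl⟩ := Finset.mem_image.1 hy
        simp [hq4 j]
    have hcard := (Finset.card_le_card hsub).trans
      ((Multiset.toFinset_card_le _).trans (Polynomial.card_roots' _))
    rw [Finset.card_insert_of_notMem, Finset.card_image_of_injective _ hq] at hcard
    · have hdeg : (Polynomial.X ^ 4 + 1 : Polynomial k).natDegree = 4 := by compute_degree!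
      rw [hdeg] at hcard
      simp at hcard
    · intro h
      obtain ⟨j, _, h⟩ := Finset.mem_image.1 h
      exact hne j h
  set ζ := q 0 with hζdef
  have hζ : ζ ^ 4 = -1 := hq4 0
  obtain ⟨j1, hj1⟩ := hall (-ζ) (by rw [neg_pow, hζ]; norm_num)
  obtain ⟨j2, hj2⟩ := hall (-(i * ζ)) (by rw [neg_pow, mul_pow, hζ, hi4]; norm_num)
  obtain ⟨j3, hj3⟩ := hall (i * ζ) (by rw [mul_pow, hζ, hi4]; norm_num)
  obtain ⟨um, hum⟩ := f.isUnit_m hζ
  set x : A := f.n ζ * ((um⁻¹ : Aˣ) : A) with hxdef
  have hx : x * f.m ζ = f.n ζ := by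
    rw [hxdef, ← hum, mul_assoc, Units.inv_mul, mul_one]
  set I := algebraMap k A i with hI
  have hI2 : I ^ 2 = -1 := by rw [hI, ← map_pow, hi, map_neg, map_one]
  -- the inverse of `ε`
  obtain ⟨ε', hε'⟩ := hε.exists_right_inv
  have hσε' : σ ε' = ε' := by
    have h1 := congrArg σ hε'
    rw [map_mul, hσε, map_one] at h1
    apply hε.mul_left_cancel
    rw [h1, hε']
  obtain ⟨t, N, R, ht, h⟩ := nfb_fixed f hi σ hσ hζ x hx ε hσε
  obtain ⟨t', N', R', ht', h'⟩ := nfb_fixed f hi σ hσ hζ x hx ε' hσε'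
  set p1 : Polynomial (Polynomial k) := Polynomial.X with hp1
  set p2 : Polynomial (Polynomial k) := Polynomial.X - Polynomial.C (Polynomial.C i) with hp2
  set p3 : Polynomial (Polynomial k) := Polynomial.X - Polynomial.C (Polynomial.C (-i)) with hp3
  have hcub : p1 * p2 * p3 = Polynomial.X ^ 3 + Polynomial.X := by
    have : (Polynomial.C (Polynomial.C i) : Polynomial (Polynomial k)) ^ 2 = -1 := by
      rw [← map_pow, ← map_pow, hi]; simp
    rw [hp1, hp2, hp3, map_neg, map_neg]
    linear_combination (-Polynomial.X) * this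
  have hEC : ∀ c : k, nfaE f x (Polynomial.C (Polynomial.C c)) = algebraMap k A c := by
    intro c; rw [nfaE_C, Polynomial.aeval_C]
  have hE3 : nfaE f x (Polynomial.X ^ 3 + Polynomial.X) = x ^ 3 + x := by
    rw [map_add, map_pow, nfaE_X]
  -- the equation in `k[a][x]`
  have hRR : R * R' = Polynomial.C (t * t') * (List.replicate (N + N') p1
      ++ (List.replicate (N + N') p2 ++ List.replicate (N + N') p3)).prod := by
    apply nfaE_injective f hζ x hx
    rw [List.prod_append, List.prod_append, List.prod_replicate, List.prod_replicate,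
      List.prod_replicate, ← mul_pow, ← mul_pow, ← mul_assoc, hcub, map_mul, ← h, ← h', map_mul,
      map_pow, hE3, nfaE_C, map_mul]
    have e1 : ε * Polynomial.aeval f.a t * (x ^ 3 + x) ^ N *
        (ε' * Polynomial.aeval f.a t' * (x ^ 3 + x) ^ N')
        = (ε * ε') * (Polynomial.aeval f.a t * Polynomial.aeval f.a t' * (x ^ 3 + x) ^ (N + N')) := by
      ring
    rw [e1, hε', one_mul]
  obtain ⟨t1, L', ht1, hL', hR⟩ := nfb_factor (t * t') (mul_ne_zero ht ht') _ (by
    intro p hp
    rw [List.mem_append, List.mem_append] at hp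
    rcases hp with hp | hp | hp
    · rw [(List.mem_replicate.1 hp).2]; exact Polynomial.prime_X
    · rw [(List.mem_replicate.1 hp).2]; exact Polynomial.prime_X_sub_C _
    · rw [(List.mem_replicate.1 hp).2]; exact Polynomial.prime_X_sub_C _) R R' hRR
  -- evaluation of the linear primes
  have hS : ∀ p ∈ ({p1, p2, p3} : Set (Polynomial (Polynomial k))), ∃ (c : k) (j : Fin 4), c ≠ 0 ∧
      nfaE f x p * f.m ζ = algebraMap k A c * (f.u - algebraMap k A (q j) * f.v) := by
    intro p hp
    rcases hp with rfl | rfl | hp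
    · refine ⟨1, j1, one_ne_zero, ?_⟩
      rw [hp1, nfaE_X, hx, hj1, Fib.n, map_one, map_neg]; ring
    · refine ⟨1 - i, j2, ?_, ?_⟩
      · intro h9
        have : i = 1 := by linear_combination -h9
        rw [this] at hi
        have : (2 : k) = 0 := by linear_combination hi
        exact two_ne_zero this
      · rw [hp2, map_sub, nfaE_X, hEC, sub_mul, hx, hj2, Fib.n, Fib.m, map_sub, map_one, map_neg,
          map_mul, ← hI]
        linear_combination (algebraMap k A ζ * f.v) * hI2
    · rw [Set.mem_singleton_iff] at hp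
      subst hp
      refine ⟨1 + i, j3, ?_, ?_⟩
      · intro h9
        have : i = -1 := by linear_combination h9
        rw [this] at hi
        have : (2 : k) = 0 := by linear_combination hi
        exact two_ne_zero this
      · rw [hp3, map_sub, nfaE_X, hEC, sub_mul, hx, hj3, Fib.n, Fib.m, map_add, map_one, map_neg,
          map_mul, ← hI]
        linear_combination (algebraMap k A ζ * f.v) * hI2
  obtain ⟨c, e, hc, he, hcE⟩ := nfb_list f q x (f.m ζ) {p1, p2, p3} hS L' (by
    intro p hp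
    have := hL' p hp
    rw [List.mem_append, List.mem_append] at this
    rcases this with hp | hp | hp
    · rw [(List.mem_replicate.1 hp).2]; simp
    · rw [(List.mem_replicate.1 hp).2]; simp
    · rw [(List.mem_replicate.1 hp).2]; simp)
  obtain ⟨c0, e0, hc0, he0, hc0E⟩ := nfb_list f q x (f.m ζ) {p1, p2, p3} hS [p1, p2, p3] (by
    intro p hp
    simpa using hp)
  have hcube : (x ^ 3 + x) * f.m ζ ^ 3 = algebraMap k A c0 * nfbU f q e0 := by
    rw [← hc0E]
    have : [p1, p2, p3].prod = Polynomial.X ^ 3 + Polynomial.X := by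
      rw [← hcub]; simp [mul_assoc]
    rw [this, hE3]
    rfl
  have hm : f.m ζ = f.u - algebraMap k A (q 0) * f.v := rfl
  refine ⟨t1 * Polynomial.C c, t * Polynomial.C (c0 ^ N), e + Pi.single 0 (3 * N),
    N • e0 + Pi.single 0 L'.length, mul_ne_zero ht1 (Polynomial.C_ne_zero.2 hc),
    mul_ne_zero ht (Polynomial.C_ne_zero.2 (pow_ne_zero _ hc0)), ?_, ?_⟩
  · simp only [Pi.add_apply, Finset.sum_add_distrib, nfb_sum_single, he, Pi.smul_apply,
      smul_eq_mul, ← Finset.mul_sum, he0, List.length_cons, List.length_nil]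
    ring
  · change ε * _ * nfbU f q (N • e0 + Pi.single 0 L'.length)
      = _ * nfbU f q (e + Pi.single 0 (3 * N))
    rw [nfbU_add, nfbU_add, nfbU_single, nfbU_single, nfbU_nsmul, ← hm, map_mul, map_mul,
      Polynomial.aeval_C, Polynomial.aeval_C, map_pow]
    have h5 : ε * (Polynomial.aeval f.a t * algebraMap k A c0 ^ N) *
        (nfbU f q e0 ^ N * f.m ζ ^ L'.length)
        = (ε * Polynomial.aeval f.a t) * (algebraMap k A c0 * nfbU f q e0) ^ N
          * f.m ζ ^ L'.length := by
      rw [mul_pow]; ring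
    rw [h5, ← hcube, mul_pow]
    have h6 : (ε * Polynomial.aeval f.a t) * ((x ^ 3 + x) ^ N * (f.m ζ ^ 3) ^ N)
          * f.m ζ ^ L'.length
        = (ε * Polynomial.aeval f.a t * (x ^ 3 + x) ^ N) * (f.m ζ ^ 3) ^ N * f.m ζ ^ L'.length := by
      ring
    rw [h6, h, hR, map_mul, nfaE_C]
    have h7 : Polynomial.aeval f.a t1 * nfaE f x L'.prod * (f.m ζ ^ 3) ^ N * f.m ζ ^ L'.length
        = Polynomial.aeval f.a t1 * (nfaE f x L'.prod * f.m ζ ^ L'.length) * f.m ζ ^ (3 * N) := by
      rw [pow_mul]; ring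
    rw [h7, hcE]; ring

end PicJump

end
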