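import Pool.Agent.Lib_helper43.PJ.D
import Pool.Agent.Lib_helper43.PJ.W_Surf0
import Pool.Agent.Lib_helper43.PJ.W_OrdB

/-!
BLOCK SurfA of MP_f6fc0c_ag.
BLOCKS SURF (the surface `X_s` and its generic fibre).
-/

noncomputable section

namespace PicJump

open MvPolynomial

variable {k : Type} [Field k] [IsAlgClosed k] [CharZero k] {s : k}

variable {A : Type} [CommRing A] [IsDomain A] [Algebra k A]

attribute [local instance] MvPolynomial.gradedAlgebra

section surfA_aux

theorem surfA_sum_degree {σ : Type} [Fintype σ] {R : Type} [CommRing R] {φ : MvPolynomial σ R}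
    {n : ℕ} (hφ : φ.IsHomogeneous n) {m : σ →₀ ℕ} (hm : m ∈ φ.support) : ∑ i, m i = n := by
  have h := hφ (mem_support_iff.1 hm)
  rw [← h, Finsupp.weight_apply, Finsupp.sum_fintype _ _ (by simp)]
  simp

theorem surfA_scale {σ : Type} [Fintype σ] {k B : Type} [CommRing k] [CommRing B] [Algebra k B]
    {φ : MvPolynomial σ k} {n : ℕ} (hφ : φ.IsHomogeneous n) (c : B) (g : σ → B) :
    aeval (fun i => c * g i) φ = c ^ n * aeval g φ := by
  rw [aeval_def, aeval_def, eval₂_eq', eval₂_eq', Finset.mul_sum]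
  refine Finset.sum_congr rfl fun m hm => ?_
  have h1 : ∏ i, (c * g i) ^ m i = c ^ n * ∏ i, g i ^ m i := by
    simp_rw [mul_pow]
    rw [Finset.prod_mul_distrib, Finset.prod_pow_eq_pow_sum, surfA_sum_degree hφ hm]
  rw [h1]
  ring

end surfA_aux

section surfA_K

variable (k)

/-- the field of rational functions in `x, y, z, w` -/
abbrev SurfAK : Type := FractionRing (Pol k)

/-- the embedding -/
abbrev surfAι : Pol k →+* SurfAK k := algebraMap (Pol k) (SurfAK k)

/-- the point `(x/y, 1, z/y, w/y)` -/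
def surfAρ : Fin 4 → SurfAK k :=
  ![surfAι k (X 0) / surfAι k (X 1), 1, surfAι k (X 2) / surfAι k (X 1),
    surfAι k (X 3) / surfAι k (X 1)]

/-- the point `(x/y, z/y, w/y)` -/
def surfAσ : Fin 3 → SurfAK k :=
  ![surfAι k (X 0) / surfAι k (X 1), surfAι k (X 2) / surfAι k (X 1),
    surfAι k (X 3) / surfAι k (X 1)]

omit [IsAlgClosed k] [CharZero k] in
theorem surfA_y_ne : surfAι k (X 1) ≠ 0 := by
  intro h
  have := (IsFractionRing.injective (Pol k) (SurfAK k)) (h.trans (map_zero _).symm)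
  exact X_ne_zero 1 this

omit [IsAlgClosed k] [CharZero k] in
theorem surfA_inj : Function.Injective (surfAι k) := IsFractionRing.injective (Pol k) (SurfAK k)

variable {k}

omit [IsAlgClosed k] [CharZero k] in
theorem surfA_hom {h : Pol k} {d : ℕ} (hh : h.IsHomogeneous d) :
    surfAι k h = surfAι k (X 1) ^ d * aeval (surfAρ k) h := by
  rw [← surfA_scale hh]
  have h1 : (fun i => surfAι k (X 1) * surfAρ k i) = fun i => surfAι k (X i) := by
    have hy := surfA_y_ne k
    funext i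
    fin_cases i
    · simp [surfAρ]; field_simp
    · simp [surfAρ]
    · simp [surfAρ]; field_simp
    · simp [surfAρ]; field_simp
  rw [h1]
  have h2 : (aeval fun i => surfAι k (X i)) = (Algebra.ofId (Pol k) (SurfAK k)).restrictScalars k := by
    ext i
    simp
  rw [h2]
  rfl

omit [IsAlgClosed k] [CharZero k] in
theorem surfA_clear (g : MvPolynomial (Fin 3) k) :
    ∃ (N : ℕ) (G : Pol k), aeval (surfAσ k) g * surfAι k (X 1) ^ N = surfAι k G := by
  have hy := surfA_y_ne k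
  induction g using MvPolynomial.induction_on with
  | C c =>
    refine ⟨0, C c, ?_⟩
    rw [pow_zero, mul_one, aeval_C]
    rfl
  | add p q hp hq =>
    obtain ⟨N, G, h1⟩ := hp
    obtain ⟨M, G', h2⟩ := hq
    refine ⟨N + M, G * X 1 ^ M + G' * X 1 ^ N, ?_⟩
    rw [map_add, map_add, map_mul, map_mul, map_pow, map_pow, ← h1, ← h2]
    ring
  | mul_X p i hp =>
    obtain ⟨N, G, h1⟩ := hp
    have : ∃ j : Fin 4, surfAσ k i * surfAι k (X 1) = surfAι k (X j) := by
      fin_cases i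
      · exact ⟨0, by simp [surfAσ]⟩
      · exact ⟨2, by simp [surfAσ]⟩
      · exact ⟨3, by simp [surfAσ]⟩
    obtain ⟨j, hj⟩ := this
    refine ⟨N + 1, G * X j, ?_⟩
    rw [map_mul, map_mul, aeval_X, ← h1, ← hj]
    ring

omit [IsAlgClosed k] [CharZero k] in
theorem surfA_adjoin {B : Type} [CommRing B] [Algebra k B] (β : Fin 4 → B) (hβ : β 1 = 1)
    {t : Pol k} (ht : t ∈ Algebra.adjoin k ({X 0, X 1} : Set (Pol k))) :
    aeval β t = Polynomial.aeval (β 0)
      (aeval (![Polynomial.X, 1, 0, 0] : Fin 4 → Polynomial k) t) := by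
  have h1 : Set.EqOn (aeval β : Pol k →ₐ[k] B) ((Polynomial.aeval (β 0)).comp
      (aeval (![Polynomial.X, 1, 0, 0] : Fin 4 → Polynomial k)))
      (Algebra.adjoin k ({X 0, X 1} : Set (Pol k))) := by
    rw [AlgHom.eqOn_adjoin_iff]
    rintro x (rfl | rfl)
    · simp
    · simp [hβ]
  exact h1 ht

end surfA_K

omit [IsAlgClosed k] [CharZero k] [IsDomain A] in
theorem surfA_ev_Phi (f : Fib k A s) : f.ev (Phi s) = 0 := by
  unfold Fib.ev Phi
  have := f.rel
  simp
  linear_combination this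

/-- kernel of the evaluation on forms -/
theorem Fib.ev_eq_zero (f : Fib k A s) {h : Pol k} {d : ℕ} (hh : h.IsHomogeneous d) :
    f.ev h = 0 ↔ h ∈ IX s := by
  constructor
  · intro h0
    have hy := surfA_y_ne k
    set P : MvPolynomial (Fin 3) k := aeval ![X 0, 1, X 1, X 2] h with hP
    have e1 : (aeval ![f.a, f.u, f.v] : MvPolynomial (Fin 3) k →ₐ[k] A).comp
        (aeval (![X 0, 1, X 1, X 2] : Fin 4 → MvPolynomial (Fin 3) k)) = f.ev := by
      ext i
      fin_cases i <;> simp [Fib.ev]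
    have e2 : (aeval (surfAσ k) : MvPolynomial (Fin 3) k →ₐ[k] SurfAK k).comp
        (aeval (![X 0, 1, X 1, X 2] : Fin 4 → MvPolynomial (Fin 3) k)) = aeval (surfAρ k) := by
      ext i
      fin_cases i <;> simp [surfAσ, surfAρ]
    have h1 : aeval ![f.a, f.u, f.v] P = 0 := by
      rw [← h0, ← e1]; rfl
    obtain ⟨g, hg⟩ := f.inj P h1
    obtain ⟨N, G, hG⟩ := surfA_clear g
    have h2 : aeval (surfAρ k) h = aeval (surfAσ k) (relPoly s) * aeval (surfAσ k) g := by
      rw [← e2, ← map_mul, ← hg]; rfl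
    have h3 : aeval (surfAσ k) (relPoly s) * surfAι k (X 1) ^ 4 = surfAι k (Phi s) := by
      have hc : algebraMap k (SurfAK k) s = surfAι k (C s) := rfl
      simp [relPoly, surfAσ, Phi, hc]
      field_simp
    have h4 : X 1 ^ (N + 4) * h = Phi s * (X 1 ^ d * G) := by
      apply surfA_inj k
      rw [map_mul, map_mul, map_mul, map_pow, map_pow, surfA_hom hh, h2, ← h3, ← hG]
      ring
    have hX : ¬ (X 1 : Pol k) ∣ Phi s := by
      rintro ⟨c, hc⟩
      have := congrArg (eval ![1, 0, 0, 0]) hc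
      simp [Phi] at this
    obtain ⟨G', hG'⟩ := (X_prime (R := k) (i := (1 : Fin 4))).pow_dvd_of_dvd_mul_left (N + 4) hX
      (Dvd.intro _ h4)
    rw [hG'] at h4
    have h5 : (X 1 : Pol k) ^ (N + 4) ≠ 0 := pow_ne_zero _ (X_ne_zero 1)
    have h6 : h = Phi s * G' := by
      apply mul_left_cancel₀ h5
      rw [h4]
      ring
    rw [h6]
    exact Ideal.mul_mem_right _ _ (Ideal.mem_span_singleton_self _)
  · intro h1
    obtain ⟨c, rfl⟩ := Ideal.mem_span_singleton'.1 h1
    rw [map_mul, surfA_ev_Phi, mul_zero]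

/-- every element of `A` is a quotient of two forms of the same degree, with denominator a nonzero
form in `x, y`; moreover the degree can be chosen arbitrarily large -/
theorem Fib.exists_form (f : Fib k A s) (z : A) :
    ∃ d₀ : ℕ, ∀ d ≥ d₀, ∃ (h t : Pol k), h.IsHomogeneous d ∧ t.IsHomogeneous d ∧
      t ∈ Algebra.adjoin k ({X 0, X 1} : Set (Pol k)) ∧ t ≠ 0 ∧ z * f.ev t = f.ev h := by
  obtain ⟨t₀, P, ht₀, hz⟩ := f.gen z
  refine ⟨max t₀.natDegree P.totalDegree, fun d hd => ?_⟩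
  have hd1 : t₀.natDegree ≤ d := (le_max_left _ _).trans hd
  have hd2 : P.totalDegree ≤ d := (le_max_right _ _).trans hd
  set h : Pol k := ∑ m ∈ P.support,
    C (P.coeff m) * X 0 ^ m 0 * X 1 ^ (d - (m 0 + m 1 + m 2)) * X 2 ^ m 1 * X 3 ^ m 2 with hh
  set t : Pol k := ∑ i ∈ t₀.support, C (t₀.coeff i) * X 0 ^ i * X 1 ^ (d - i) with ht
  have hXh : ∀ (i : Fin 4) (n : ℕ), (X i ^ n : Pol k).IsHomogeneous n := fun i n => by
    simpa using (isHomogeneous_X k i).pow n
  have h1 : f.ev h = aeval ![f.a, f.u, f.v] P := by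
    rw [aeval_def, eval₂_eq', hh, map_sum]
    refine Finset.sum_congr rfl fun m _ => ?_
    simp [Fib.ev, Fin.prod_univ_three]
    ring
  have h2 : f.ev t = Polynomial.aeval f.a t₀ := by
    rw [Polynomial.aeval_def, Polynomial.eval₂_eq_sum, Polynomial.sum, ht, map_sum]
    refine Finset.sum_congr rfl fun i _ => ?_
    simp [Fib.ev]
  refine ⟨h, t, ?_, ?_, ?_, ?_, ?_⟩
  · refine IsHomogeneous.sum _ _ _ fun m hm => ?_
    have h3 : m 0 + m 1 + m 2 ≤ d := by
      have h4 := le_totalDegree hm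
      rw [Finsupp.sum_fintype _ _ (by simp), Fin.sum_univ_three] at h4
      omega
    have h5 := ((((isHomogeneous_C (Fin 4) (P.coeff m)).mul (hXh 0 (m 0))).mul
      (hXh 1 (d - (m 0 + m 1 + m 2)))).mul (hXh 2 (m 1))).mul (hXh 3 (m 2))
    have h6 : 0 + m 0 + (d - (m 0 + m 1 + m 2)) + m 1 + m 2 = d := by omega
    rwa [h6] at h5
  · refine IsHomogeneous.sum _ _ _ fun i hi => ?_
    have h3 : i ≤ d := (Polynomial.le_natDegree_of_mem_supp i hi).trans hd1
    have h5 := ((isHomogeneous_C (Fin 4) (t₀.coeff i)).mul (hXh 0 i)).mul (hXh 1 (d - i))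
    have h6 : 0 + i + (d - i) = d := by omega
    rwa [h6] at h5
  · refine Subalgebra.sum_mem _ fun i _ => ?_
    refine Subalgebra.mul_mem _ (Subalgebra.mul_mem _ ?_ ?_) ?_
    · exact Subalgebra.algebraMap_mem _ _
    · exact Subalgebra.pow_mem _ (Algebra.subset_adjoin (by simp)) _
    · exact Subalgebra.pow_mem _ (Algebra.subset_adjoin (by simp)) _
  · intro h0
    have h3 := f.unit t₀ ht₀
    rw [← h2, h0, map_zero] at h3
    exact not_isUnit_zero h3
  · rw [h1, h2, hz]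

omit [IsAlgClosed k] [CharZero k] in
theorem surfA_dehom_ne {t : Pol k} {d : ℕ} (ht : t.IsHomogeneous d)
    (ht' : t ∈ Algebra.adjoin k ({X 0, X 1} : Set (Pol k))) (ht0 : t ≠ 0) :
    aeval (![Polynomial.X, 1, 0, 0] : Fin 4 → Polynomial k) t ≠ 0 := by
  intro h
  apply ht0
  apply surfA_inj k
  rw [surfA_hom ht, surfA_adjoin (surfAρ k) rfl ht', h, map_zero, mul_zero, map_zero]

/-- nonzero elements of `k[x,y]` homogeneous go to units -/
theorem Fib.isUnit_ev (f : Fib k A s) {t : Pol k} {d : ℕ} (ht : t.IsHomogeneous d)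
    (ht' : t ∈ Algebra.adjoin k ({X 0, X 1} : Set (Pol k))) (ht0 : t ≠ 0) : IsUnit (f.ev t) := by
  have h1 := surfA_adjoin ![f.a, 1, f.u, f.v] rfl ht'
  have h2 : f.ev t = Polynomial.aeval f.a
      (aeval (![Polynomial.X, 1, 0, 0] : Fin 4 → Polynomial k) t) := h1
  rw [h2]
  exact f.unit _ (surfA_dehom_ne ht ht' ht0)

/-- a horizontal prime divisor contains no nonzero form in `x, y` (which is a product of linear
forms) -/
theorem Hor.not_mem {Q : PrimeDiv (IX s)} (hQ : Hor Q) {t : Pol k} {d : ℕ}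
    (ht : t.IsHomogeneous d) (ht' : t ∈ Algebra.adjoin k ({X 0, X 1} : Set (Pol k)))
    (ht0 : t ≠ 0) : t ∉ Q.carrier := by
  intro htQ
  have hy := surfA_y_ne k
  set t₀ := aeval (![Polynomial.X, 1, 0, 0] : Fin 4 → Polynomial k) t with ht₀
  have ht₀0 : t₀ ≠ 0 := surfA_dehom_ne ht ht' ht0
  have hsplit := (IsAlgClosed.splits t₀).eq_prod_roots
  have hprod : ∀ S : Multiset k, surfAι k (X 1) ^ (Multiset.card S) *
      Polynomial.aeval (surfAρ k 0) ((S.map fun r => Polynomial.X - Polynomial.C r).prod) =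
      surfAι k ((S.map fun r => X 0 - C r * X 1).prod) := by
    intro S
    induction S using Multiset.induction_on with
    | empty => simp
    | cons r S ih =>
      rw [Multiset.map_cons, Multiset.prod_cons, Multiset.map_cons, Multiset.prod_cons,
        Multiset.card_cons, map_mul, map_mul, ← ih, pow_succ]
      have hc : algebraMap k (SurfAK k) r = surfAι k (C r) := rfl
      have : surfAι k (X 1) * Polynomial.aeval (surfAρ k 0) (Polynomial.X - Polynomial.C r) =
          surfAι k (X 0 - C r * X 1) := by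
        simp [surfAρ, hc]
        field_simp
      rw [← this]
      ring
  have key : X 1 ^ (Multiset.card t₀.roots) * t = X 1 ^ d * (C t₀.leadingCoeff *
      (t₀.roots.map fun r => X 0 - C r * X 1).prod) := by
    apply surfA_inj k
    have hc : Polynomial.aeval (surfAρ k 0) (Polynomial.C t₀.leadingCoeff) =
      surfAι k (C t₀.leadingCoeff) := by simp; rfl
    have he : Polynomial.aeval (surfAρ k 0) t₀ = surfAι k (C t₀.leadingCoeff) *
        Polynomial.aeval (surfAρ k 0)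
          ((t₀.roots.map fun r => Polynomial.X - Polynomial.C r).prod) := by
      rw [← hc, ← map_mul, ← hsplit]
    rw [map_mul, map_mul, map_mul, ← hprod, surfA_hom ht, surfA_adjoin (surfAρ k) rfl ht', ← ht₀,
      he, map_pow, map_pow]
    ring
  have hX1 : X 1 ∉ Q.carrier := by
    have := hQ 0 1 (Or.inr one_ne_zero)
    simpa using this
  have h1 : X 1 ^ d * (C t₀.leadingCoeff *
      (t₀.roots.map fun r => X 0 - C r * X 1).prod) ∈ Q.carrier := by
    rw [← key]
    exact Ideal.mul_mem_left _ _ htQ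
  rcases Q.prime.mem_or_mem h1 with h2 | h2
  · exact hX1 (Q.prime.mem_of_pow_mem _ h2)
  rcases Q.prime.mem_or_mem h2 with h3 | h3
  · have h4 : IsUnit (C t₀.leadingCoeff : Pol k) :=
      (isUnit_iff_ne_zero.2 (Polynomial.leadingCoeff_ne_zero.2 ht₀0)).map C
    exact Q.prime.ne_top (Ideal.eq_top_of_isUnit_mem _ h3 h4)
  · have h4 := (Ideal.IsPrime.multiset_prod_mem_iff_exists_mem Q.prime _).1 h3
    obtain ⟨p, hp, hpQ⟩ := h4
    obtain ⟨r, _, rfl⟩ := Multiset.mem_map.1 hp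
    have := hQ 1 (-r) (Or.inl one_ne_zero)
    apply this
    have e : (C 1 * X 0 + C (-r) * X 1 : Pol k) = X 0 - C r * X 1 := by
      rw [map_neg, map_one]; ring
    rw [e]
    exact hpQ

/-- `z` is a quotient of a form in `J` by a form in `x, y` -/
def SurfAT (f : Fib k A s) (J : Ideal (Pol k)) (z : A) : Prop :=
  ∃ (d : ℕ) (g t : Pol k), g.IsHomogeneous d ∧ t.IsHomogeneous d ∧
    t ∈ Algebra.adjoin k ({X 0, X 1} : Set (Pol k)) ∧ t ≠ 0 ∧ g ∈ J ∧ z * f.ev t = f.ev g

omit [IsAlgClosed k] [CharZero k] in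
theorem surfA_X1_adjoin (d : ℕ) : (X 1 ^ d : Pol k) ∈ Algebra.adjoin k ({X 0, X 1} : Set (Pol k)) :=
  Subalgebra.pow_mem _ (Algebra.subset_adjoin (by simp)) _

omit [IsAlgClosed k] [CharZero k] in
theorem surfA_X1_homog (d : ℕ) : (X 1 ^ d : Pol k).IsHomogeneous d := by
  simpa using (isHomogeneous_X k (1 : Fin 4)).pow d

omit [IsAlgClosed k] [CharZero k] [IsDomain A] in
theorem surfA_ev_X1 (f : Fib k A s) (d : ℕ) : f.ev (X 1 ^ d) = 1 := by
  simp [Fib.ev]

omit [IsAlgClosed k] [CharZero k] [IsDomain A] in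
theorem surfAT_add (f : Fib k A s) {J : Ideal (Pol k)} {z w : A} (hz : SurfAT f J z)
    (hw : SurfAT f J w) : SurfAT f J (z + w) := by
  obtain ⟨d, g, t, h1, h2, h3, h4, h5, h6⟩ := hz
  obtain ⟨d', g', t', h1', h2', h3', h4', h5', h6'⟩ := hw
  refine ⟨d + d', g * t' + t * g', t * t', (h1.mul h2').add (h2.mul h1'), h2.mul h2',
    Subalgebra.mul_mem _ h3 h3', mul_ne_zero h4 h4',
    Ideal.add_mem _ (Ideal.mul_mem_right _ _ h5) (Ideal.mul_mem_left _ _ h5'), ?_⟩
  rw [map_mul, map_add, map_mul, map_mul, ← h6, ← h6']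
  ring

omit [IsAlgClosed k] [CharZero k] [IsDomain A] in
theorem surfAT_zero (f : Fib k A s) (J : Ideal (Pol k)) : SurfAT f J 0 :=
  ⟨0, 0, 1, isHomogeneous_zero _ _ _, isHomogeneous_one _ _, Subalgebra.one_mem _, one_ne_zero,
    J.zero_mem, by simp⟩

theorem surfAT_smul (f : Fib k A s) {J : Ideal (Pol k)} (a : A) {z : A} (hz : SurfAT f J z) :
    SurfAT f J (a * z) := by
  obtain ⟨d, g, t, h1, h2, h3, h4, h5, h6⟩ := hz
  obtain ⟨d₀, hd⟩ := f.exists_form a
  obtain ⟨h, t', h1', h2', h3', h4', h6'⟩ := hd d₀ le_rfl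
  refine ⟨d₀ + d, h * g, t' * t, h1'.mul h1, h2'.mul h2, Subalgebra.mul_mem _ h3' h3,
    mul_ne_zero h4' h4, Ideal.mul_mem_left _ _ h5, ?_⟩
  rw [map_mul, map_mul, ← h6, ← h6']
  ring

omit [IsAlgClosed k] [CharZero k] [IsDomain A] in
theorem surfAT_ev (f : Fib k A s) {J : Ideal (Pol k)} (hJ : HomogIdeal J) {q : Pol k}
    (hq : q ∈ J) : SurfAT f J (f.ev q) := by
  have h1 : f.ev q = ∑ i ∈ Finset.range (q.totalDegree + 1), f.ev (homogeneousComponent i q) := by
    rw [← map_sum, sum_homogeneousComponent]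
  rw [h1]
  refine Finset.sum_induction _ (SurfAT f J) (fun _ _ => surfAT_add f) (surfAT_zero f J) ?_
  intro i _
  refine ⟨i, homogeneousComponent i q, X 1 ^ i, homogeneousComponent_isHomogeneous _ _,
    surfA_X1_homog i, surfA_X1_adjoin i, pow_ne_zero _ (X_ne_zero 1), hJ q hq i, ?_⟩
  rw [surfA_ev_X1, mul_one]

theorem surfAT_map (f : Fib k A s) {J : Ideal (Pol k)} (hJ : HomogIdeal J) {z : A}
    (hz : z ∈ J.map (f.ev : Pol k →+* A)) : SurfAT f J z := by
  refine Submodule.span_induction (p := fun z _ => SurfAT f J z) ?_ (surfAT_zero f J)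
    (fun _ _ _ _ => surfAT_add f) (fun a z _ => surfAT_smul f a) hz
  rintro _ ⟨q, hq, rfl⟩
  exact surfAT_ev f hJ hq

theorem surfA_of_mem_map (f : Fib k A s) {J : Ideal (Pol k)} (hJ : HomogIdeal J) {h : Pol k}
    {d : ℕ} (hh : h.IsHomogeneous d) (hz : f.ev h ∈ J.map (f.ev : Pol k →+* A)) :
    ∃ (e : ℕ) (t : Pol k), t.IsHomogeneous e ∧
      t ∈ Algebra.adjoin k ({X 0, X 1} : Set (Pol k)) ∧ t ≠ 0 ∧ t * h ∈ J ⊔ IX s := by
  obtain ⟨e, g, t, h1, h2, h3, h4, h5, h6⟩ := surfAT_map f hJ hz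
  refine ⟨e, t, h2, h3, h4, ?_⟩
  have h7 : (h * t - g * X 1 ^ d).IsHomogeneous (d + e) := by
    refine (hh.mul h2).sub ?_
    have := h1.mul (surfA_X1_homog (k := k) d)
    rwa [add_comm] at this
  have h8 : f.ev (h * t - g * X 1 ^ d) = 0 := by
    rw [map_sub, map_mul, map_mul, h6, surfA_ev_X1, mul_one, sub_self]
  have h9 := (f.ev_eq_zero h7).1 h8
  have : t * h = g * X 1 ^ d + (h * t - g * X 1 ^ d) := by ring
  rw [this]
  exact Ideal.add_mem _ (Ideal.mem_sup_left (Ideal.mul_mem_right _ _ h5)) (Ideal.mem_sup_right h9)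

theorem Hor.mem_iff (f : Fib k A s) {Q : PrimeDiv (IX s)} (hQ : Hor Q) {h : Pol k} {d : ℕ}
    (hh : h.IsHomogeneous d) :
    f.ev h ∈ Q.carrier.map (f.ev : Pol k →+* A) ↔ h ∈ Q.carrier := by
  constructor
  · intro hz
    obtain ⟨e, t, h1, h2, h3, h4⟩ := surfA_of_mem_map f Q.homog hh hz
    have h5 : t * h ∈ Q.carrier := (sup_le le_rfl Q.lt.le : Q.carrier ⊔ IX s ≤ Q.carrier) h4
    exact (Q.prime.mem_or_mem h5).resolve_left (hQ.not_mem h1 h2 h3)
  · intro hz
    exact Ideal.mem_map_of_mem _ hz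

omit [IsAlgClosed k] [CharZero k] in
theorem surfA_pow_homog {J : Ideal (Pol k)} (hJ : J.IsHomogeneous (homogeneousSubmodule (Fin 4) k))
    (n : ℕ) : (J ^ n).IsHomogeneous (homogeneousSubmodule (Fin 4) k) := by
  induction n with
  | zero =>
    rw [pow_zero, Ideal.one_eq_top]
    exact Ideal.IsHomogeneous.top _
  | succ n ih =>
    rw [pow_succ]
    exact ih.mul hJ

theorem Hor.of_mem_pow (f : Fib k A s) {Q : PrimeDiv (IX s)} (hQ : Hor Q) {h : Pol k} {d : ℕ}
    (hh : h.IsHomogeneous d) (n : ℕ)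
    (hn : f.ev h ∈ (Q.carrier.map (f.ev : Pol k →+* A)) ^ n) :
    ∃ t : Pol k, t ∉ Q.carrier ∧ t * h ∈ Q.carrier ^ n ⊔ IX s := by
  rw [← Ideal.map_pow] at hn
  have hhom : HomogIdeal (Q.carrier ^ n) := by
    rw [ordB_homog_iff]
    exact surfA_pow_homog ((ordB_homog_iff _).1 Q.homog) n
  obtain ⟨e, t, h1, h2, h3, h4⟩ := surfA_of_mem_map f hhom hh hn
  exact ⟨t, hQ.not_mem h1 h2 h3, h4⟩

omit [IsAlgClosed k] [CharZero k] in
theorem surfA_exists_form_mem (Q : PrimeDiv (IX s)) :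
    ∃ (d : ℕ) (q : Pol k), q.IsHomogeneous d ∧ q ∈ Q.carrier ∧ q ∉ IX s := by
  obtain ⟨q, hq, hqI⟩ := SetLike.exists_of_lt Q.lt
  by_contra h
  push Not at h
  apply hqI
  rw [← sum_homogeneousComponent q]
  exact Ideal.sum_mem _ fun i _ => h i _ (homogeneousComponent_isHomogeneous _ _) (Q.homog q hq i)

theorem map_ne_bot (f : Fib k A s) (Q : PrimeDiv (IX s)) :
    Q.carrier.map (f.ev : Pol k →+* A) ≠ ⊥ := by
  obtain ⟨d, q, h1, h2, h3⟩ := surfA_exists_form_mem Q
  intro h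
  have h4 : f.ev q ∈ Q.carrier.map (f.ev : Pol k →+* A) := Ideal.mem_map_of_mem _ h2
  rw [h, Ideal.mem_bot] at h4
  exact h3 ((f.ev_eq_zero h1).1 h4)

theorem Hor.map_prime (f : Fib k A s) {Q : PrimeDiv (IX s)} (hQ : Hor Q) :
    (Q.carrier.map (f.ev : Pol k →+* A)).IsPrime ∧ Q.carrier.map (f.ev : Pol k →+* A) ≠ ⊥ := by
  refine ⟨⟨?_, ?_⟩, map_ne_bot f Q⟩
  · rw [Ideal.ne_top_iff_one]
    intro h
    have h1 : f.ev 1 ∈ Q.carrier.map (f.ev : Pol k →+* A) := by rw [map_one]; exact h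
    have h2 := (hQ.mem_iff f (isHomogeneous_one _ _)).1 h1
    exact Q.prime.ne_top ((Ideal.eq_top_iff_one _).2 h2)
  · intro x y hxy
    obtain ⟨d, hd⟩ := f.exists_form x
    obtain ⟨d', hd'⟩ := f.exists_form y
    obtain ⟨h, t, h1, h2, h3, h4, h5⟩ := hd d le_rfl
    obtain ⟨h', t', h1', h2', h3', h4', h5'⟩ := hd' d' le_rfl
    have h6 : f.ev (h * h') ∈ Q.carrier.map (f.ev : Pol k →+* A) := by
      rw [map_mul, ← h5, ← h5']
      have : x * f.ev t * (y * f.ev t') = f.ev t * f.ev t' * (x * y) := by ring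
      rw [this]
      exact Ideal.mul_mem_left _ _ hxy
    have h7 := (hQ.mem_iff f (h1.mul h1')).1 h6
    rcases Q.prime.mem_or_mem h7 with h8 | h8
    · left
      have h9 : x * f.ev t ∈ Q.carrier.map (f.ev : Pol k →+* A) := by
        rw [h5]; exact Ideal.mem_map_of_mem _ h8
      exact (Ideal.mul_unit_mem_iff_mem _ (f.isUnit_ev h2 h3 h4)).1 h9
    · right
      have h9 : y * f.ev t' ∈ Q.carrier.map (f.ev : Pol k →+* A) := by
        rw [h5']; exact Ideal.mem_map_of_mem _ h8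
      exact (Ideal.mul_unit_mem_iff_mem _ (f.isUnit_ev h2' h3' h4')).1 h9

theorem not_hor_map (f : Fib k A s) {Q : PrimeDiv (IX s)} (hQ : ¬ Hor Q) :
    Q.carrier.map (f.ev : Pol k →+* A) = ⊤ := by
  unfold Hor at hQ
  push Not at hQ
  obtain ⟨α, β, hne, hmem⟩ := hQ
  refine Ideal.eq_top_of_isUnit_mem _ (Ideal.mem_map_of_mem _ hmem) ?_
  refine f.isUnit_ev (d := 1) ?_ ?_ ?_
  · have h1 := ((isHomogeneous_C (Fin 4) α).mul (isHomogeneous_X k (0 : Fin 4))).add
      ((isHomogeneous_C (Fin 4) β).mul (isHomogeneous_X k (1 : Fin 4)))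
    simpa using h1
  · refine Subalgebra.add_mem _ (Subalgebra.mul_mem _ (Subalgebra.algebraMap_mem _ α) ?_)
      (Subalgebra.mul_mem _ (Subalgebra.algebraMap_mem _ β) ?_)
    · exact Algebra.subset_adjoin (by simp)
    · exact Algebra.subset_adjoin (by simp)
  · intro h0
    have h1 := congrArg (eval ![1, 0, 0, 0]) h0
    have h2 := congrArg (eval ![0, 1, 0, 0]) h0
    simp at h1 h2
    rcases hne with h | h
    · exact h h1
    · exact h h2

theorem Hor.inj (f : Fib k A s) {Q Q' : PrimeDiv (IX s)} (hQ : Hor Q) (hQ' : Hor Q')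
    (h : Q.carrier.map (f.ev : Pol k →+* A) = Q'.carrier.map (f.ev : Pol k →+* A)) : Q = Q' := by
  have key : ∀ Q Q' : PrimeDiv (IX s), Hor Q → Hor Q' →
      Q.carrier.map (f.ev : Pol k →+* A) = Q'.carrier.map (f.ev : Pol k →+* A) →
      Q.carrier ≤ Q'.carrier := by
    intro Q Q' hQ hQ' h x hx
    rw [← sum_homogeneousComponent x]
    refine Ideal.sum_mem _ fun i _ => ?_
    have h1 := Q.homog x hx i
    rw [← hQ'.mem_iff f (homogeneousComponent_isHomogeneous i x), ← h]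
    exact Ideal.mem_map_of_mem _ h1
  have h1 : Q.carrier = Q'.carrier := le_antisymm (key Q Q' hQ hQ' h) (key Q' Q hQ' hQ h.symm)
  cases Q; cases Q'
  simp only at h1
  subst h1
  rfl

end PicJump

end
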