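import Pool.Agent.Lib_helper43.PJ.D
import Pool.Agent.Lib_helper43.PJ.W_Surf0
import Pool.Agent.Lib_helper43.PJ.W_SurfA

/-!
BLOCK SurfA2 of MP_f6fc0c_ag.
BLOCKS SURF (the surface `X_s` and its generic fibre).
-/

noncomputable section

namespace PicJump

open MvPolynomial

variable {k : Type} [Field k] [IsAlgClosed k] [CharZero k] {s : k}

variable {A : Type} [CommRing A] [IsDomain A] [IsDedekindDomain A] [Algebra k A]

attribute [local instance] MvPolynomial.gradedAlgebra

omit [IsAlgClosed k] [CharZero k] in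
theorem surfA2_comp (t : Pol k) {h : Pol k} {d : ℕ} (hh : h.IsHomogeneous d) (i : ℕ) :
    homogeneousComponent (i + d) (t * h) = homogeneousComponent i t * h := by
  conv_lhs => rw [← sum_homogeneousComponent t, Finset.sum_mul, map_sum]
  have h1 : ∀ j, homogeneousComponent (i + d) (homogeneousComponent j t * h) =
      if j = i then homogeneousComponent i t * h else 0 := by
    intro j
    rw [homogeneousComponent_of_mem ((homogeneousComponent_isHomogeneous j t).mul hh)]
    by_cases hij : j = i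
    · rw [if_pos (by rw [hij]), if_pos hij, hij]
    · rw [if_neg (by omega), if_neg hij]
  rw [Finset.sum_congr rfl fun j _ => h1 j, Finset.sum_ite_eq']
  split_ifs with h2
  · rfl
  · rw [homogeneousComponent_eq_zero _ _ (by
      rw [Finset.mem_range] at h2; omega), zero_mul]

theorem surfA2_map (f : Fib k A s) {J : Ideal (Pol k)} (hJ : J.IsPrime) (hh : HomogIdeal J)
    (hI : IX s ≤ J) (hJt : ∀ (t : Pol k) (d : ℕ), t.IsHomogeneous d →
      t ∈ Algebra.adjoin k ({X 0, X 1} : Set (Pol k)) → t ≠ 0 → t ∉ J) :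
    (∀ (h : Pol k) (d : ℕ), h.IsHomogeneous d →
      (f.ev h ∈ J.map (f.ev : Pol k →+* A) ↔ h ∈ J)) ∧
    (J.map (f.ev : Pol k →+* A)).IsPrime := by
  have key : ∀ (h : Pol k) (d : ℕ), h.IsHomogeneous d →
      (f.ev h ∈ J.map (f.ev : Pol k →+* A) ↔ h ∈ J) := by
    intro h d hd
    constructor
    · intro hz
      obtain ⟨e, t, h1, h2, h3, h4⟩ := surfA_of_mem_map f hh hd hz
      have h5 : t * h ∈ J := (sup_le le_rfl hI : J ⊔ IX s ≤ J) h4
      exact (hJ.mem_or_mem h5).resolve_left (hJt t e h1 h2 h3)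
    · intro hz
      exact Ideal.mem_map_of_mem _ hz
  refine ⟨key, ⟨?_, ?_⟩⟩
  · rw [Ideal.ne_top_iff_one]
    intro h
    have h1 : f.ev 1 ∈ J.map (f.ev : Pol k →+* A) := by rw [map_one]; exact h
    exact hJ.ne_top ((Ideal.eq_top_iff_one _).2 ((key 1 0 (isHomogeneous_one _ _)).1 h1))
  · intro x y hxy
    obtain ⟨d, hd⟩ := f.exists_form x
    obtain ⟨d', hd'⟩ := f.exists_form y
    obtain ⟨h, t, h1, h2, h3, h4, h5⟩ := hd d le_rfl
    obtain ⟨h', t', h1', h2', h3', h4', h5'⟩ := hd' d' le_rfl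
    have h6 : f.ev (h * h') ∈ J.map (f.ev : Pol k →+* A) := by
      rw [map_mul, ← h5, ← h5']
      have : x * f.ev t * (y * f.ev t') = f.ev t * f.ev t' * (x * y) := by ring
      rw [this]
      exact Ideal.mul_mem_left _ _ hxy
    have h7 := (key _ _ (h1.mul h1')).1 h6
    rcases hJ.mem_or_mem h7 with h8 | h8
    · left
      have h9 : x * f.ev t ∈ J.map (f.ev : Pol k →+* A) := by
        rw [h5]; exact Ideal.mem_map_of_mem _ h8
      exact (Ideal.mul_unit_mem_iff_mem _ (f.isUnit_ev h2 h3 h4)).1 h9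
    · right
      have h9 : y * f.ev t' ∈ J.map (f.ev : Pol k →+* A) := by
        rw [h5']; exact Ideal.mem_map_of_mem _ h8
      exact (Ideal.mul_unit_mem_iff_mem _ (f.isUnit_ev h2' h3' h4')).1 h9

/-- `Q` = the ideal generated by the forms `h` with `ev h` in `q`; it is minimal because a
homogeneous prime `J` with `IX s < J <= Q` gives a nonzero prime ideal `J.map ev <= q`. -/
theorem exists_hor (f : Fib k A s) (hs : s ^ 2 ≠ 4) (q : Ideal A) (hq : q.IsPrime) (hq0 : q ≠ ⊥) :
    ∃ Q : PrimeDiv (IX s), Hor Q ∧ Q.carrier.map (f.ev : Pol k →+* A) = q := by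
  have hcomap : (q.comap (f.ev : Pol k →+* A)).IsPrime := Ideal.comap_isPrime _ _
  obtain ⟨Q, hQp, hQh, hQle, hQmax, hQform⟩ := ordB_core _ hcomap
  have hIQ : IX s ≤ Q := by
    refine hQmax _ (IX_homog s) ?_
    rw [IX, Ideal.span_singleton_le_iff_mem, Ideal.mem_comap]
    show f.ev (Phi s) ∈ q
    rw [surfA_ev_Phi]
    exact q.zero_mem
  have hQt : ∀ (t : Pol k) (d : ℕ), t.IsHomogeneous d →
      t ∈ Algebra.adjoin k ({X 0, X 1} : Set (Pol k)) → t ≠ 0 → t ∉ Q := by
    intro t d h1 h2 h3 h4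
    exact hq.ne_top (Ideal.eq_top_of_isUnit_mem _ (hQle h4) (f.isUnit_ev h1 h2 h3))
  have hfrac : ∀ z ∈ q, ∃ (h t : Pol k) (d : ℕ), h.IsHomogeneous d ∧ h ∈ Q ∧ IsUnit (f.ev t) ∧
      z * f.ev t = f.ev h := by
    intro z hz
    obtain ⟨d, hd⟩ := f.exists_form z
    obtain ⟨h, t, h1, h2, h3, h4, h5⟩ := hd d le_rfl
    refine ⟨h, t, d, h1, hQform h d h1 ?_, f.isUnit_ev h2 h3 h4, h5⟩
    rw [Ideal.mem_comap]
    show f.ev h ∈ q
    rw [← h5]
    exact Ideal.mul_mem_right _ _ hz
  have hmap : Q.map (f.ev : Pol k →+* A) = q := by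
    apply le_antisymm
    · rw [Ideal.map_le_iff_le_comap]
      exact hQle
    · intro z hz
      obtain ⟨h, t, d, h1, h2, h3, h4⟩ := hfrac z hz
      have h5 : z * f.ev t ∈ Q.map (f.ev : Pol k →+* A) := by
        rw [h4]; exact Ideal.mem_map_of_mem _ h2
      exact (Ideal.mul_unit_mem_iff_mem _ h3).1 h5
  have hlt : IX s < Q := by
    refine lt_of_le_of_ne hIQ ?_
    intro h
    apply hq0
    rw [← hmap, ← h, IX, Ideal.map_span, Set.image_singleton]
    have : (f.ev : Pol k →+* A) (Phi s) = 0 := surfA_ev_Phi f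
    rw [this, Ideal.span_singleton_eq_bot]
  refine ⟨⟨Q, hQp, hQh, hlt, ?_⟩, ?_, hmap⟩
  · intro J hJ hJh hIJ hJQ
    refine le_antisymm hJQ ?_
    obtain ⟨hJkey, hJp⟩ := surfA2_map f hJ hJh hIJ.le fun t d h1 h2 h3 h4 => hQt t d h1 h2 h3 (hJQ h4)
    have hJ0 : J.map (f.ev : Pol k →+* A) ≠ ⊥ := by
      intro h0
      have : J ≤ IX s := by
        intro x hx
        rw [← sum_homogeneousComponent x]
        refine Ideal.sum_mem _ fun i _ => ?_
        rw [← f.ev_eq_zero (homogeneousComponent_isHomogeneous i x)]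
        have h1 : f.ev (homogeneousComponent i x) ∈ J.map (f.ev : Pol k →+* A) :=
          Ideal.mem_map_of_mem _ (hJh x hx i)
        rwa [h0, Ideal.mem_bot] at h1
      exact absurd hIJ (not_lt_of_ge this)
    have hJmax : (J.map (f.ev : Pol k →+* A)).IsMaximal := hJp.isMaximal hJ0
    have heq : J.map (f.ev : Pol k →+* A) = q :=
      hJmax.eq_of_le hq.ne_top (by rw [← hmap]; exact Ideal.map_mono hJQ)
    intro x hx
    rw [← sum_homogeneousComponent x]
    refine Ideal.sum_mem _ fun i _ => ?_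
    rw [← hJkey _ _ (homogeneousComponent_isHomogeneous i x), heq, ← hmap]
    exact Ideal.mem_map_of_mem _ (hQh x hx i)
  · intro α β hne hmem
    refine hQt _ 1 ?_ ?_ ?_ hmem
    · have h1 := ((isHomogeneous_C (Fin 4) α).mul (isHomogeneous_X k (0 : Fin 4))).add
        ((isHomogeneous_C (Fin 4) β).mul (isHomogeneous_X k (1 : Fin 4)))
      simpa using h1
    · refine Subalgebra.add_mem _ (Subalgebra.mul_mem _ (Subalgebra.algebraMap_mem _ α) ?_)
        (Subalgebra.mul_mem _ (Subalgebra.algebraMap_mem _ β) ?_)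
      · exact Algebra.subset_adjoin (by simp)
      · exact Algebra.subset_adjoin (by simp)
    · intro h0
      have h1 := congrArg (eval ![1, 0, 0, 0]) h0
      have h2 := congrArg (eval ![0, 1, 0, 0]) h0
      simp at h1 h2
      rcases hne with h | h
      · exact h h1
      · exact h h2

/-- the order along a horizontal prime divisor -/
theorem Hor.ord_eq (f : Fib k A s) (hs : s ^ 2 ≠ 4) {Q : PrimeDiv (IX s)} (hQ : Hor Q) {h : Pol k}
    {d : ℕ} (hh : h.IsHomogeneous d) (hI : h ∉ IX s) :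
    ord Q h = vI (Q.carrier.map (f.ev : Pol k →+* A)) (Ideal.span {f.ev h}) := by
  unfold ord vI
  congr 1
  ext n
  have hP := (hQ.map_prime f).1
  constructor
  · rintro ⟨t, ht, h1⟩
    -- pass to a homogeneous component of `t`
    obtain ⟨i, hi⟩ : ∃ i, homogeneousComponent i t ∉ Q.carrier := by
      by_contra hcon
      push Not at hcon
      apply ht
      rw [← sum_homogeneousComponent t]
      exact Ideal.sum_mem _ fun i _ => hcon i
    have hhom : (Q.carrier ^ n ⊔ IX s).IsHomogeneous (homogeneousSubmodule (Fin 4) k) :=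
      (surfA_pow_homog ((ordB_homog_iff _).1 Q.homog) n).sup ((ordB_homog_iff _).1 (IX_homog s))
    have h2 : homogeneousComponent i t * h ∈ Q.carrier ^ n ⊔ IX s := by
      have h3 := (ordB_homog_iff _).2 hhom _ h1 (i + d)
      rwa [surfA2_comp t hh i] at h3
    have h4 : f.ev (homogeneousComponent i t) * f.ev h ∈
        (Q.carrier.map (f.ev : Pol k →+* A)) ^ n := by
      have h5 := Ideal.mem_map_of_mem (f.ev : Pol k →+* A) h2
      have h6 : (IX s).map (f.ev : Pol k →+* A) = ⊥ := by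
        have : (f.ev : Pol k →+* A) (Phi s) = 0 := surfA_ev_Phi f
        rw [IX, Ideal.map_span, Set.image_singleton, this, Ideal.span_singleton_eq_bot]
      rw [Ideal.map_sup, Ideal.map_pow, h6, sup_bot_eq] at h5
      rw [← map_mul]
      exact h5
    show Ideal.span {f.ev h} ≤ _
    rw [Ideal.span_singleton_le_iff_mem]
    rcases Ideal.IsPrime.mul_mem_pow _ h4 with h5 | h5
    · exact absurd ((hQ.mem_iff f (homogeneousComponent_isHomogeneous i t)).1 h5) hi
    · exact h5
  · intro h1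
    rw [Set.mem_ofPred_eq, Ideal.span_singleton_le_iff_mem] at h1
    exact hQ.of_mem_pow f hh n h1

end PicJump

end
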