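import Pool.Agent.Lib_helper43.PJ.D
import Pool.Agent.Lib_helper43.PJ.W_Surf0
import Pool.Agent.Lib_helper43.PJ.W_SurfA
import Pool.Agent.Lib_helper43.PJ.W_SurfA2
import Pool.Agent.Lib_helper43.PJ.W_SurfC
import Pool.Agent.Lib_helper43.PJ.W_OrdA
import Pool.Agent.Lib_helper43.PJ.W_OrdB
import Pool.Agent.Lib_helper43.PJ.W_SmoothC
import Pool.Agent.Lib_helper43.PJ.W_ClsA
import Pool.Agent.Lib_helper43.PJ.W_ClsB
import Pool.Agent.Lib_helper43.PJ.W_FibIso
import Pool.Agent.Lib_helper43.PJ.W_FibEx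
import Pool.Agent.Lib_helper43.PJ.W_NFB
import Pool.Agent.Lib_helper43.PJ.W_TransA

/-!
BLOCK LinesB of MP_f6fc0c_ag.
BLOCKS LINES (the subgroup of the class group of `X_s` generated by the vertical prime divisors is
free of rank 10) and the resulting formula.
-/

noncomputable section

namespace PicJump

open MvPolynomial

variable {k : Type} [Field k] [IsAlgClosed k] [CharZero k] {s : k}

section tau

omit [IsAlgClosed k] [CharZero k]

/-- the substitution `(x, y, z, w) -> (x, y, i z, i w)` -/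
def linesbT (i : k) : Pol k →ₐ[k] Pol k := aeval ![X 0, X 1, C i * X 2, C i * X 3]

theorem linesbT_X0 (i : k) : linesbT i (X 0) = X 0 := by simp [linesbT]

theorem linesbT_X1 (i : k) : linesbT i (X 1) = X 1 := by simp [linesbT]

theorem linesbT_X2 (i : k) : linesbT i (X 2) = C i * X 2 := by simp [linesbT]

theorem linesbT_X3 (i : k) : linesbT i (X 3) = C i * X 3 := by simp [linesbT]

theorem linesbT_C (i c : k) : linesbT i (C c) = C c := by
  rw [algHom_C, algebraMap_eq]

theorem linesbT_comp (i j : k) (h : i * j = 1) : (linesbT i).comp (linesbT j) = AlgHom.id k _ := by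
  have h' : (C i * C j : Pol k) = 1 := by rw [← map_mul, h, map_one]
  apply MvPolynomial.algHom_ext
  intro l
  fin_cases l
  · show linesbT i (linesbT j (X 0)) = X 0
    rw [linesbT_X0, linesbT_X0]
  · show linesbT i (linesbT j (X 1)) = X 1
    rw [linesbT_X1, linesbT_X1]
  · show linesbT i (linesbT j (X 2)) = X 2
    rw [linesbT_X2, map_mul, linesbT_C, linesbT_X2]
    linear_combination X 2 * h'
  · show linesbT i (linesbT j (X 3)) = X 3
    rw [linesbT_X3, map_mul, linesbT_C, linesbT_X3]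
    linear_combination X 3 * h'

theorem linesbT_homog (i : k) {F : Pol k} {n : ℕ} (hF : F.IsHomogeneous n) :
    (linesbT i F).IsHomogeneous n := by
  have h := hF.aeval (S := k) (n := 1) (![X 0, X 1, C i * X 2, C i * X 3] : Fin 4 → Pol k) ?_
  · rwa [one_mul] at h
  · intro l
    fin_cases l
    · exact isHomogeneous_X _ _
    · exact isHomogeneous_X _ _
    · exact (isHomogeneous_X _ _).C_mul _
    · exact (isHomogeneous_X _ _).C_mul _

def linesbE (i : k) (hi : i ^ 4 = 1) : Pol k ≃ₐ[k] Pol k :=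
  AlgEquiv.ofAlgHom (linesbT i) (linesbT (i ^ 3)) (linesbT_comp _ _ (by rw [← hi]; ring))
    (linesbT_comp _ _ (by rw [← hi]; ring))

theorem linesbE_apply (i : k) (hi : i ^ 4 = 1) (F : Pol k) : linesbE i hi F = linesbT i F := rfl

theorem linesbE_homogIso (i : k) (hi : i ^ 4 = 1) : HomogIso (linesbE i hi).toRingEquiv := by
  intro F n
  constructor
  · intro h
    exact linesbT_homog i h
  · intro h
    have h2 := linesbT_homog (i ^ 3) h
    have h3 : linesbT (i ^ 3) ((linesbE i hi).toRingEquiv F) = F :=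
      (linesbE i hi).symm_apply_apply F
    rwa [h3] at h2

theorem linesbT_Phi (i : k) (hi : i ^ 4 = 1) : linesbT i (Phi s) = Phi s := by
  have h' : (C i : Pol k) ^ 4 = 1 := by rw [← map_pow, hi, map_one]
  simp only [Phi, map_add, map_sub, map_mul, map_pow, linesbT_X0, linesbT_X1, linesbT_X2,
    linesbT_X3, linesbT_C]
  linear_combination (- X 2 ^ 4 - X 3 ^ 4) * h'

theorem linesbT_IX (i : k) (hi : i ^ 4 = 1) :
    IX s = (IX s).map ((linesbE i hi).toRingEquiv : Pol k →+* Pol k) := by
  rw [IX, Ideal.map_span, Set.image_singleton]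
  congr 2
  exact (linesbT_Phi i hi).symm

/-- invariance of the order along stable prime divisors -/
theorem linesb_ord_T (i : k) (hi : i ^ 4 = 1) (Q : PrimeDiv (IX s))
    (hQ : Q.carrier.map ((linesbE i hi).toRingEquiv : Pol k →+* Pol k) ≤ Q.carrier) (F : Pol k) :
    ord Q (linesbT i F) = ord Q F := by
  obtain ⟨E, hE1, hE2⟩ := exists_primeDivEquiv (linesbE i hi).toRingEquiv (linesbE_homogIso i hi)
    (IX s) (IX s) (linesbT_IX i hi)
  have h1 : (E Q).carrier = Q.carrier := by
    apply Q.minimal (E Q).carrier (E Q).prime (E Q).homog (E Q).lt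
    rw [hE1]
    exact hQ
  have h2 : E Q = Q := by
    cases hEQ : E Q
    cases Q
    simp only [hEQ] at h1
    subst h1
    rfl
  have h3 := hE2 Q F
  rw [h2] at h3
  exact h3

theorem linesb_stable_line (i : k) (hi : i ^ 4 = 1) (Q : PrimeDiv (IX s)) (p q : k)
    (hQ : Q.carrier = lineIdeal p q) :
    Q.carrier.map ((linesbE i hi).toRingEquiv : Pol k →+* Pol k) ≤ Q.carrier := by
  rw [Ideal.map_le_iff_le_comap, hQ, lineIdeal, Ideal.span_le]
  rintro F (rfl | hF)
  · show linesbT i (X 0 - C p * X 1) ∈ (Ideal.span {X 0 - C p * X 1, X 2 - C q * X 3} :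
      Ideal (Pol k))
    rw [map_sub, map_mul, linesbT_X0, linesbT_X1, linesbT_C]
    exact Ideal.subset_span (by simp)
  · rw [Set.mem_singleton_iff] at hF
    subst hF
    show linesbT i (X 2 - C q * X 3) ∈ (Ideal.span {X 0 - C p * X 1, X 2 - C q * X 3} :
      Ideal (Pol k))
    rw [map_sub, map_mul, linesbT_X2, linesbT_X3, linesbT_C]
    rw [show (C i * X 2 - C q * (C i * X 3) : Pol k) = C i * (X 2 - C q * X 3) by ring]
    exact Ideal.mul_mem_left _ _ (Ideal.subset_span (by simp))

theorem linesb_stable_section (i : k) (hi : i ^ 4 = 1) (Q : PrimeDiv (IX s)) (α β : k)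
    (hQ : Q.carrier = Ideal.span {C α * X 0 + C β * X 1} ⊔ IX s) :
    Q.carrier.map ((linesbE i hi).toRingEquiv : Pol k →+* Pol k) ≤ Q.carrier := by
  rw [Ideal.map_le_iff_le_comap, hQ, sup_le_iff, IX, Ideal.span_le, Ideal.span_le,
    Set.singleton_subset_iff, Set.singleton_subset_iff]
  constructor
  · show linesbT i (C α * X 0 + C β * X 1) ∈
      (Ideal.span {C α * X 0 + C β * X 1} ⊔ Ideal.span {Phi s} : Ideal (Pol k))
    rw [map_add, map_mul, map_mul, linesbT_X0, linesbT_X1, linesbT_C, linesbT_C]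
    exact Ideal.mem_sup_left (Ideal.subset_span rfl)
  · show linesbT i (Phi s) ∈
      (Ideal.span {C α * X 0 + C β * X 1} ⊔ Ideal.span {Phi s} : Ideal (Pol k))
    rw [linesbT_Phi i hi]
    exact Ideal.mem_sup_right (Ideal.subset_span rfl)

theorem linesbT_not_mem (i : k) (hi : i ^ 4 = 1) {F : Pol k} (hF : F ∉ IX s) :
    linesbT i F ∉ IX s := by
  intro h
  apply hF
  have h1 : (linesbE i hi).toRingEquiv F ∈
      (IX s).map ((linesbE i hi).toRingEquiv : Pol k →+* Pol k) := by
    rw [← linesbT_IX i hi]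
    exact h
  have h2 := (Ideal.mem_map_of_equiv (linesbE i hi).toRingEquiv _).1 h1
  obtain ⟨G, hG, hGF⟩ := h2
  rwa [← (linesbE i hi).toRingEquiv.injective hGF]

/-- the norm of a form -/
def linesbN (i : k) (F : Pol k) : Pol k :=
  F * linesbT i F * linesbT i (linesbT i F) * linesbT i (linesbT i (linesbT i F))

end tau

section form

omit [CharZero k]

/-- the form `y^M t(x/y)` -/
def linesbH (t : Polynomial k) (M : ℕ) : Pol k :=
  C t.leadingCoeff * X 1 ^ (M - t.natDegree) * (t.roots.map (fun r => (X 0 - C r * X 1 : Pol k))).prod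

omit [IsAlgClosed k] in
theorem linesb_prod_homog (m : Multiset k) :
    ((m.map (fun r => (X 0 - C r * X 1 : Pol k))).prod).IsHomogeneous (Multiset.card m) := by
  induction m using Multiset.induction_on with
  | empty => simpa using isHomogeneous_one _ _
  | cons r m ih =>
    rw [Multiset.map_cons, Multiset.prod_cons, Multiset.card_cons, add_comm]
    exact (((isHomogeneous_X _ _).sub ((isHomogeneous_X _ _).C_mul _))).mul ih

theorem linesbH_homog {t : Polynomial k} {M : ℕ} (hM : t.natDegree ≤ M) :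
    (linesbH t M).IsHomogeneous M := by
  have h1 := ((isHomogeneous_X_pow (R := k) (1 : Fin 4) (M - t.natDegree)).C_mul
    t.leadingCoeff).mul (linesb_prod_homog t.roots)
  have h2 : M - t.natDegree + Multiset.card t.roots = M := by
    rw [← (IsAlgClosed.splits t).natDegree_eq_card_roots]
    omega
  rw [h2] at h1
  exact h1

theorem linesbH_ev {A : Type} [CommRing A] [Algebra k A] (f : Fib k A s) (t : Polynomial k)
    (M : ℕ) : f.ev (linesbH t M) = Polynomial.aeval f.a t := by
  have h0 : f.ev (X 0) = f.a := by simp [Fib.ev]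
  have h1 : f.ev (X 1) = 1 := by simp [Fib.ev]
  conv_rhs => rw [(IsAlgClosed.splits t).eq_prod_roots]
  rw [linesbH, map_mul, map_mul, map_pow, h1, one_pow, mul_one, map_mul, Polynomial.aeval_C,
    algHom_C, map_multiset_prod, map_multiset_prod, Multiset.map_map, Multiset.map_map]
  congr 3
  funext r
  simp only [Function.comp_apply, map_sub, map_mul, h0, h1, algHom_C, Polynomial.aeval_X,
    Polynomial.aeval_C, mul_one]

end form

section ords

omit [IsAlgClosed k] [CharZero k] in
theorem linesb_ord_pow (hI : (IX s).IsPrime) {Q : PrimeDiv (IX s)} {π : Pol k}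
    (hQ : LocPrin Q π) {F : Pol k} (hF : F ∉ IX s) (n : ℕ) : ord Q (F ^ n) = n * ord Q F := by
  induction n with
  | zero =>
    rw [pow_zero, zero_mul]
    apply ord_eq_zero_of_not_mem
    exact (Ideal.ne_top_iff_one _).1 Q.prime.ne_top
  | succ n ih =>
    rw [pow_succ, hQ.ord_mul hI (fun h => hF (hI.mem_of_pow_mem _ h)) hF, ih]
    ring

omit [IsAlgClosed k] [CharZero k] in
theorem linesb_ord_multiset (hI : (IX s).IsPrime) {Q : PrimeDiv (IX s)} {π : Pol k}
    (hQ : LocPrin Q π) (g : k → Pol k) (hg : ∀ r, g r ∉ IX s) (m : Multiset k) :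
    (m.map g).prod ∉ IX s ∧ ord Q ((m.map g).prod) = (m.map (fun r => ord Q (g r))).sum := by
  induction m using Multiset.induction_on with
  | empty =>
    simp only [Multiset.map_zero, Multiset.prod_zero, Multiset.sum_zero]
    exact ⟨(Ideal.ne_top_iff_one _).1 hI.ne_top,
      ord_eq_zero_of_not_mem _ ((Ideal.ne_top_iff_one _).1 Q.prime.ne_top)⟩
  | cons r m ih =>
    simp only [Multiset.map_cons, Multiset.prod_cons, Multiset.sum_cons]
    refine ⟨fun h => (hI.mem_or_mem h).elim (hg r) ih.1, ?_⟩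
    rw [hQ.ord_mul hI (hg r) ih.1, ih.2]

omit [IsAlgClosed k] [CharZero k] in
theorem linesb_ord_finset (hI : (IX s).IsPrime) {Q : PrimeDiv (IX s)} {π : Pol k}
    (hQ : LocPrin Q π) {ι : Type} (S : Finset ι) (g : ι → Pol k) (hg : ∀ r, g r ∉ IX s) :
    ∏ r ∈ S, g r ∉ IX s ∧ ord Q (∏ r ∈ S, g r) = ∑ r ∈ S, ord Q (g r) := by
  classical
  induction S using Finset.induction_on with
  | empty =>
    simp only [Finset.prod_empty, Finset.sum_empty]
    exact ⟨(Ideal.ne_top_iff_one _).1 hI.ne_top,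
      ord_eq_zero_of_not_mem _ ((Ideal.ne_top_iff_one _).1 Q.prime.ne_top)⟩
  | insert r S hr ih =>
    rw [Finset.prod_insert hr, Finset.sum_insert hr]
    refine ⟨fun h => (hI.mem_or_mem h).elim (hg r) ih.1, ?_⟩
    rw [hQ.ord_mul hI (hg r) ih.1, ih.2]

omit [IsAlgClosed k] [CharZero k] in
theorem linesb_C_not_mem {J : Ideal (Pol k)} (hJ : J ≠ ⊤) {c : k} (hc : c ≠ 0) :
    (C c : Pol k) ∉ J := by
  intro h
  apply hJ
  apply Ideal.eq_top_of_isUnit_mem _ h
  exact (isUnit_iff_ne_zero.2 hc).map C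

omit [IsAlgClosed k] [CharZero k] in
theorem linesb_eval_Phi (v : Fin 4 → k) : eval v (Phi s) =
    v 0 ^ 4 + s * v 0 ^ 2 * v 1 ^ 2 + v 1 ^ 4 - v 2 ^ 4 - v 3 ^ 4 := by
  simp [Phi]

omit [IsAlgClosed k] [CharZero k] in
theorem linesb_eval_IX {v : Fin 4 → k} (hv : eval v (Phi s) = 0) {F : Pol k} (hF : F ∈ IX s) :
    eval v F = 0 := by
  rw [IX, Ideal.mem_span_singleton] at hF
  obtain ⟨G, rfl⟩ := hF
  rw [map_mul, hv, zero_mul]

/-- the order of `y^M t(x/y)` -/
theorem linesbH_ord (hI : (IX s).IsPrime) (hX : ∀ r : k, (X 0 - C r * X 1 : Pol k) ∉ IX s)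
    (hX1 : (X 1 : Pol k) ∉ IX s) {Q : PrimeDiv (IX s)} {π : Pol k}
    (hQ : LocPrin Q π) (t : Polynomial k) (ht : t ≠ 0) (M : ℕ) :
    linesbH t M ∉ IX s ∧ ord Q (linesbH t M) = (M - t.natDegree) * ord Q (X 1) +
      (t.roots.map (fun r => ord Q (X 0 - C r * X 1))).sum := by
  have hl : (C t.leadingCoeff : Pol k) ∉ IX s :=
    linesb_C_not_mem hI.ne_top (by rwa [Ne, Polynomial.leadingCoeff_eq_zero])
  have hl' : (C t.leadingCoeff : Pol k) ∉ Q.carrier :=
    linesb_C_not_mem Q.prime.ne_top (by rwa [Ne, Polynomial.leadingCoeff_eq_zero])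
  have h1 : (X 1 : Pol k) ^ (M - t.natDegree) ∉ IX s := fun h => hX1 (hI.mem_of_pow_mem _ h)
  obtain ⟨h2, h3⟩ := linesb_ord_multiset hI hQ (fun r => X 0 - C r * X 1) hX t.roots
  have h4 : C t.leadingCoeff * X 1 ^ (M - t.natDegree) ∉ IX s :=
    fun h => (hI.mem_or_mem h).elim hl h1
  refine ⟨fun h => (hI.mem_or_mem h).elim h4 h2, ?_⟩
  rw [linesbH, hQ.ord_mul hI h4 h2, hQ.ord_mul hI hl h1, ord_eq_zero_of_not_mem Q hl', zero_add,
    linesb_ord_pow hI hQ hX1, h3]

end ords

theorem linesb_sum_ite (m : Multiset k) [DecidableEq k] (r₀ : k) :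
    (m.map (fun r => if r = r₀ then 1 else 0)).sum = m.count r₀ := by
  induction m using Multiset.induction_on with
  | empty => simp
  | cons r m ih =>
    rw [Multiset.map_cons, Multiset.sum_cons, ih, Multiset.count_cons]
    by_cases h : r = r₀
    · rw [if_pos h, if_pos h.symm, add_comm]
    · rw [if_neg h, if_neg (Ne.symm h), add_comm]

/-- the norm -/
theorem linesbN_spec (i : k) (hi : i ^ 4 = 1) {F : Pol k} {d : ℕ} (hF : F.IsHomogeneous d)
    (hFI : F ∉ IX s) (hI : (IX s).IsPrime) :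
    (linesbN i F).IsHomogeneous (4 * d) ∧ linesbN i F ∉ IX s := by
  have h1 := linesbT_homog i hF
  have h2 := linesbT_homog i h1
  have h3 := linesbT_homog i h2
  have g1 := linesbT_not_mem i hi hFI
  have g2 := linesbT_not_mem i hi g1
  have g3 := linesbT_not_mem i hi g2
  refine ⟨?_, ?_⟩
  · have := ((hF.mul h1).mul h2).mul h3
    rw [show d + d + d + d = 4 * d by ring] at this
    exact this
  · intro h
    rcases hI.mem_or_mem h with h | h
    · rcases hI.mem_or_mem h with h | h
      · rcases hI.mem_or_mem h with h | h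
        · exact hFI h
        · exact g1 h
      · exact g2 h
    · exact g3 h

theorem linesbN_ord (i : k) (hi : i ^ 4 = 1) {F : Pol k} (hFI : F ∉ IX s) (hI : (IX s).IsPrime)
    {Q : PrimeDiv (IX s)} {π : Pol k} (hQ : LocPrin Q π)
    (hst : Q.carrier.map ((linesbE i hi).toRingEquiv : Pol k →+* Pol k) ≤ Q.carrier) :
    ord Q (linesbN i F) = 4 * ord Q F := by
  have g1 := linesbT_not_mem i hi hFI
  have g2 := linesbT_not_mem i hi g1
  have g3 := linesbT_not_mem i hi g2
  have m1 : F * linesbT i F ∉ IX s := fun h => (hI.mem_or_mem h).elim hFI g1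
  have m2 : F * linesbT i F * linesbT i (linesbT i F) ∉ IX s :=
    fun h => (hI.mem_or_mem h).elim m1 g2
  rw [linesbN, hQ.ord_mul hI m2 g3, hQ.ord_mul hI m1 g2, hQ.ord_mul hI hFI g1,
    linesb_ord_T i hi Q hst, linesb_ord_T i hi Q hst, linesb_ord_T i hi Q hst,
    linesb_ord_T i hi Q hst, linesb_ord_T i hi Q hst, linesb_ord_T i hi Q hst]
  ring

/-- evaluation of the norm -/
theorem linesbN_ev {A : Type} [CommRing A] [IsDomain A] [Algebra k A] (f : Fib k A s) (i : k)
    (σ : A ≃ₐ[k] A)
    (hσ : f.IsAut σ f.a (algebraMap k A i * f.u) (algebraMap k A i * f.v)) (F : Pol k) :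
    f.ev (linesbN i F) = f.ev F * σ (f.ev F) * σ (σ (f.ev F)) * σ (σ (σ (f.ev F))) := by
  have h1 : ∀ G : Pol k, f.ev (linesbT i G) = σ (f.ev G) := by
    intro G
    have h2 : f.ev.comp (linesbT i) = (σ : A →ₐ[k] A).comp f.ev := by
      obtain ⟨e1, e2, e3⟩ := hσ
      apply MvPolynomial.algHom_ext
      intro l
      fin_cases l
      · show f.ev (linesbT i (X 0)) = σ (f.ev (X 0))
        rw [linesbT_X0]
        simp [Fib.ev, e1]
      · show f.ev (linesbT i (X 1)) = σ (f.ev (X 1))
        rw [linesbT_X1]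
        simp [Fib.ev]
      · show f.ev (linesbT i (X 2)) = σ (f.ev (X 2))
        rw [linesbT_X2]
        simp [Fib.ev, e2]
      · show f.ev (linesbT i (X 3)) = σ (f.ev (X 3))
        rw [linesbT_X3]
        simp [Fib.ev, e3]
    exact DFunLike.congr_fun h2 G
  rw [linesbN, map_mul, map_mul, map_mul, h1, h1, h1, h1, h1, h1]

/-- the formula for the orders of `F / G` along stable prime divisors -/
theorem linesb_main (hs : s ^ 2 ≠ 4) (q : Fin 4 → k)
    (hq : Function.Injective q) (hq4 : ∀ j, q j ^ 4 = -1) {F G : Pol k} {d : ℕ}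
    (hF : F.IsHomogeneous d) (hG : G.IsHomogeneous d) (hFI : F ∉ IX s) (hGI : G ∉ IX s)
    (hhor : ∀ Q : PrimeDiv (IX s), Hor Q → ord Q F = ord Q G) :
    ∃ (i : k) (hi : i ^ 4 = 1) (t₁ t₂ : Polynomial k) (M : ℕ) (e₁ e₂ : Fin 4 → ℕ),
      t₁ ≠ 0 ∧ t₂ ≠ 0 ∧ t₁.natDegree ≤ M ∧ t₂.natDegree ≤ M ∧ ∑ j, e₁ j = ∑ j, e₂ j ∧
      linesbN i F * linesbH t₂ M * (∏ j, (X 2 - C (q j) * X 3) ^ e₂ j)
        - linesbN i G * linesbH t₁ M * (∏ j, (X 2 - C (q j) * X 3) ^ e₁ j) ∈ IX s := by
  classical
  have hI : (IX s).IsPrime := IX_prime s hs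
  obtain ⟨i, hi⟩ := IsAlgClosed.exists_pow_nat_eq (-1 : k) (n := 2) (by norm_num)
  have hi4 : i ^ 4 = 1 := by rw [show 4 = 2 * 2 from rfl, pow_mul, hi]; norm_num
  obtain ⟨A, _, _, _, _, ⟨f⟩⟩ := exists_fib k s
  obtain ⟨σ, hσ'⟩ := f.exists_scale 1 i i (by norm_num) hi4 hi4
  have hσ : f.IsAut σ f.a (algebraMap k A i * f.u) (algebraMap k A i * f.v) := by
    obtain ⟨e1, e2, e3⟩ := hσ'
    refine ⟨by rw [e1, map_one, one_mul], e2, e3⟩
  have hσ4 : ∀ z, σ (σ (σ (σ z))) = z := by
    intro z
    have h4 : (((σ.trans σ).trans σ).trans σ) = AlgEquiv.refl := by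
      obtain ⟨e1, e2, e3⟩ := hσ
      have hi4' : algebraMap k A i ^ 4 = 1 := by rw [← map_pow, hi4, map_one]
      apply f.aut_ext
      · simp only [AlgEquiv.trans_apply, e1, AlgEquiv.coe_refl, id]
      · simp only [AlgEquiv.trans_apply, e2, map_mul, AlgEquiv.commutes, AlgEquiv.coe_refl, id]
        linear_combination f.u * hi4'
      · simp only [AlgEquiv.trans_apply, e3, map_mul, AlgEquiv.commutes, AlgEquiv.coe_refl, id]
        linear_combination f.v * hi4'
    exact DFunLike.congr_fun h4 z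
  have hF0 : f.ev F ≠ 0 := fun h => hFI ((f.ev_eq_zero hF).1 h)
  have hG0 : f.ev G ≠ 0 := fun h => hGI ((f.ev_eq_zero hG).1 h)
  -- `ev F` and `ev G` are associated
  have hspan : Ideal.span {f.ev F} = Ideal.span {f.ev G} := by
    apply ideal_ext_vI
    · rwa [Ne, Ideal.span_singleton_eq_bot]
    · rwa [Ne, Ideal.span_singleton_eq_bot]
    · intro P hP hP0
      obtain ⟨Q, hQ, hQP⟩ := exists_hor f hs P hP hP0
      rw [← hQP, ← hQ.ord_eq f hs hF hFI, ← hQ.ord_eq f hs hG hGI]
      exact hhor Q hQ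
  obtain ⟨ε₀, hε₀⟩ := (Ideal.span_singleton_eq_span_singleton.1 hspan).symm
  -- `ev G * ε₀ = ev F`
  set ε : A := ε₀ * σ ε₀ * σ (σ ε₀) * σ (σ (σ ε₀)) with hε
  have hεu : IsUnit ε := by
    have h0 : IsUnit (ε₀ : A) := ε₀.isUnit
    exact ((h0.mul (h0.map σ)).mul ((h0.map σ).map σ)).mul (((h0.map σ).map σ).map σ)
  have hσε : σ ε = ε := by
    rw [hε]
    simp only [map_mul]
    rw [hσ4]
    ring
  obtain ⟨t₁, t₂, e₁, e₂, ht₁, ht₂, hee, heq⟩ := f.unit_sigma i hi σ hσ q hq hq4 ε hεu hσε
  refine ⟨i, hi4, t₁, t₂, max t₁.natDegree t₂.natDegree, e₁, e₂, ht₁, ht₂, le_max_left _ _,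
    le_max_right _ _, hee, ?_⟩
  set M := max t₁.natDegree t₂.natDegree with hM
  have hprodh : ∀ e : Fin 4 → ℕ,
      (∏ j, (X 2 - C (q j) * X 3 : Pol k) ^ e j).IsHomogeneous (∑ j, e j) := by
    intro e
    apply IsHomogeneous.prod
    intro j _
    have := ((isHomogeneous_X k (2 : Fin 4)).sub ((isHomogeneous_X k (3 : Fin 4)).C_mul
      (q j))).pow (e j)
    rwa [one_mul] at this
  have hprodev : ∀ e : Fin 4 → ℕ, f.ev (∏ j, (X 2 - C (q j) * X 3 : Pol k) ^ e j)
      = ∏ j, (f.u - algebraMap k A (q j) * f.v) ^ e j := by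
    intro e
    rw [map_prod]
    apply Finset.prod_congr rfl
    intro j _
    rw [map_pow, map_sub, map_mul, algHom_C]
    simp [Fib.ev]
  have hH1 := ((linesbN_spec i hi4 hF hFI hI).1.mul (linesbH_homog (le_max_right t₁.natDegree
    t₂.natDegree))).mul (hprodh e₂)
  have hH2 := ((linesbN_spec i hi4 hG hGI hI).1.mul (linesbH_homog (le_max_left t₁.natDegree
    t₂.natDegree))).mul (hprodh e₁)
  rw [hee] at hH2
  rw [← f.ev_eq_zero (hH1.sub hH2), map_sub, map_mul, map_mul, map_mul, map_mul, linesbH_ev,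
    linesbH_ev, hprodev, hprodev, linesbN_ev f i σ hσ, linesbN_ev f i σ hσ, ← hε₀, sub_eq_zero]
  simp only [map_mul]
  rw [hε] at heq
  linear_combination (f.ev G * σ (f.ev G) * σ (σ (f.ev G)) * σ (σ (σ (f.ev G)))) * heq

/-- points of the lines -/
theorem linesb_mem_line {p q : k} {F : Pol k} (hF : F ∈ lineIdeal p q) (α β : k) :
    eval ![α * p, α, β * q, β] F = 0 := by
  have h : lineIdeal p q ≤ RingHom.ker (eval ![α * p, α, β * q, β]) := by
    rw [lineIdeal, Ideal.span_le]
    rintro G (rfl | hG)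
    · simp [RingHom.mem_ker, mul_comm]
    · rw [Set.mem_singleton_iff] at hG
      subst hG
      simp [RingHom.mem_ker, mul_comm]
  exact h hF

theorem linesb_line_inj {p q p' q' : k} (h : lineIdeal p q = lineIdeal p' q') :
    p = p' ∧ q = q' := by
  have h1 : (X 0 - C p * X 1 : Pol k) ∈ lineIdeal p' q' := by
    rw [← h]; exact Ideal.subset_span (by simp)
  have h2 : (X 2 - C q * X 3 : Pol k) ∈ lineIdeal p' q' := by
    rw [← h]; exact Ideal.subset_span (by simp)
  have h3 := linesb_mem_line h1 1 0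
  have h4 := linesb_mem_line h2 0 1
  simp at h3 h4
  exact ⟨(sub_eq_zero.1 h3).symm, (sub_eq_zero.1 h4).symm⟩

theorem linesb_line_linear (p q α β : k) :
    (C α * X 0 + C β * X 1 : Pol k) ∈ lineIdeal p q ↔ α * p + β = 0 := by
  constructor
  · intro h
    have := linesb_mem_line h 1 0
    simpa using this
  · intro h
    have e : (C α * X 0 + C β * X 1 : Pol k) = C α * (X 0 - C p * X 1) := by
      have h2 : β = - (α * p) := by linear_combination h
      rw [h2, map_neg, map_mul]
      ring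
    rw [e]
    exact Ideal.mul_mem_left _ _ (Ideal.subset_span (by simp))

theorem linesb_section_mem {α β : k} {F : Pol k}
    (hF : F ∈ (Ideal.span {C α * X 0 + C β * X 1} ⊔ IX s : Ideal (Pol k)))
    (v : Fin 4 → k) (h1 : α * v 0 + β * v 1 = 0)
    (h2 : v 0 ^ 4 + s * v 0 ^ 2 * v 1 ^ 2 + v 1 ^ 4 - v 2 ^ 4 - v 3 ^ 4 = 0) :
    eval v F = 0 := by
  have h : (Ideal.span {C α * X 0 + C β * X 1} ⊔ IX s : Ideal (Pol k)) ≤
      RingHom.ker (eval v) := by
    rw [sup_le_iff, IX, Ideal.span_le, Ideal.span_le, Set.singleton_subset_iff,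
      Set.singleton_subset_iff]
    constructor
    · show eval v _ = 0
      simpa using h1
    · show eval v _ = 0
      rw [linesb_eval_Phi, h2]
  exact h hF

/-- LINES-B. Relations between the lines.
Proof: let `D = sum n_ij L_ij` be the divisor of `A / B` (`mem_Princ_iff`, `smooth_locPrin`).  Then
`ev A / ev B` is a unit of `A`-ring, so by `Fib.unit_sigma` applied to its norm under
`σ : (u, v) -> (i u, i v)`, going back to forms: the norms `A'`, `B'` of `A`, `B` under
`z -> i z`, `w -> i w` satisfy `A' T₂ y^{n₁} ∏ (z - q_j w)^{e₂ j} = B' T₁ y^{n₂} ∏ (z - q_j w)^{e₁ j}`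
modulo `IX s`, `T₁, T₂` forms in `x, y` not divisible by `y`.  The order along `L_ij`
of `A'` is `4 ord A` as `L_ij` is stable.  So `4 n_ij = x_i + e_j` where `x_i` is the multiplicity of
`x - p_i y` in `T₁` minus that in `T₂`, and `e_j = e₁ j - e₂ j` has sum zero.  Considering the other
vertical prime divisors (`y = 0` too), where `D` has coefficient zero, gives `sum x_i = 0`. -/
theorem line_relation (hs : s ^ 2 ≠ 4) (p q : Fin 4 → k) (hp : Function.Injective p)
    (hq : Function.Injective q) (hp4 : ∀ i, p i ^ 4 + s * p i ^ 2 + 1 = 0)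
    (hq4 : ∀ j, q j ^ 4 = -1) (L : Fin 4 → Fin 4 → PrimeDiv (IX s))
    (hL : ∀ i j, (L i j).carrier = lineIdeal (p i) (q j)) (c : Fin 4 → Fin 4 → ℤ)
    (hc : ∑ i, ∑ j, c i j • (Cl.mk (Finsupp.single (L i j) 1) : Cl (IX s)) = 0) :
    ∃ x e : Fin 4 → ℤ, ∑ i, x i = 0 ∧ ∑ j, e j = 0 ∧ ∀ i j, 4 * c i j = x i + e j := by
  classical
  have hI : (IX s).IsPrime := IX_prime s hs
  have hloc : ∀ Q : PrimeDiv (IX s), ∃ π, LocPrin Q π := fun Q =>
    smooth_locPrin (Phi_homog s) (by norm_num) hI (Phi_ne_zero s) (Phi_smooth s hs) Q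
  -- the divisor
  set D : PrimeDiv (IX s) →₀ ℤ := ∑ i, ∑ j, c i j • Finsupp.single (L i j) 1 with hD
  have hDP : D ∈ Princ (IX s) := by
    rw [← QuotientAddGroup.eq_zero_iff]
    have : (QuotientAddGroup.mk' (Princ (IX s))) D = 0 := by
      rw [hD, map_sum, ← hc]
      apply Finset.sum_congr rfl
      intro i _
      rw [map_sum]
      apply Finset.sum_congr rfl
      intro j _
      rw [map_zsmul]
      rfl
    exact this
  obtain ⟨d, F, G, hF, hG, hFI, hGI, hFG⟩ := (mem_Princ_iff hI hloc D).1 hDP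
  have hDapp : ∀ Q, D Q = ∑ i, ∑ j, if L i j = Q then c i j else 0 := by
    intro Q
    rw [hD, Finsupp.finset_sum_apply]
    apply Finset.sum_congr rfl
    intro i _
    rw [Finsupp.finset_sum_apply]
    apply Finset.sum_congr rfl
    intro j _
    rw [Finsupp.smul_apply, Finsupp.single_apply]
    split_ifs <;> simp
  have hD0 : ∀ Q, (∀ i j, L i j ≠ Q) → D Q = 0 := by
    intro Q hQ
    rw [hDapp]
    apply Finset.sum_eq_zero
    intro i _
    apply Finset.sum_eq_zero
    intro j _
    rw [if_neg (hQ i j)]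
  have hLinj : ∀ i j i' j', L i j = L i' j' → i = i' ∧ j = j' := by
    intro i j i' j' h
    have h1 : lineIdeal (p i) (q j) = lineIdeal (p i') (q j') := by rw [← hL, ← hL, h]
    obtain ⟨h2, h3⟩ := linesb_line_inj h1
    exact ⟨hp h2, hq h3⟩
  have hDL : ∀ i j, D (L i j) = c i j := by
    intro i j
    rw [hDapp, Finset.sum_eq_single i, Finset.sum_eq_single j, if_pos rfl]
    · intro j' _ hj'
      rw [if_neg]
      intro h
      exact hj' (hLinj _ _ _ _ h).2
    · intro h; exact absurd (Finset.mem_univ _) h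
    · intro i' _ hi'
      apply Finset.sum_eq_zero
      intro j' _
      rw [if_neg]
      intro h
      exact hi' (hLinj _ _ _ _ h).1
    · intro h; exact absurd (Finset.mem_univ _) h
  have hhor : ∀ Q : PrimeDiv (IX s), Hor Q → ord Q F = ord Q G := by
    intro Q hQ
    have h1 : D Q = 0 := by
      apply hD0
      intro i j h
      apply hQ 1 (- p i) (Or.inl one_ne_zero)
      rw [← h, hL, linesb_line_linear]
      ring
    have h2 := hFG Q
    rw [h1] at h2
    omega
  obtain ⟨i₀, hi₀, t₁, t₂, M, e₁, e₂, ht₁, ht₂, hM₁, hM₂, hee, hmem⟩ :=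
    linesb_main hs q hq hq4 hF hG hFI hGI hhor
  have hX : ∀ r : k, (X 0 - C r * X 1 : Pol k) ∉ IX s := by
    intro r h
    have := linesb_eval_IX (v := ![1, 0, 1, 0]) (by rw [linesb_eval_Phi]; simp) h
    simp at this
  have hX1 : (X 1 : Pol k) ∉ IX s := by
    intro h
    have := linesb_eval_IX (v := ![p 0, 1, 0, 0]) ?_ h
    · simp at this
    · rw [linesb_eval_Phi]
      simp only [Matrix.cons_val_zero, Matrix.cons_val_one, Matrix.cons_val]
      linear_combination hp4 0
  have hXq : ∀ r : k, (X 2 - C r * X 3 : Pol k) ∉ IX s := by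
    intro r h
    have := linesb_eval_IX (v := ![1, 0, 1, 0]) (by rw [linesb_eval_Phi]; simp) h
    simp at this
  -- the order formula along a stable prime divisor
  have hform : ∀ Q : PrimeDiv (IX s),
      Q.carrier.map ((linesbE i₀ hi₀).toRingEquiv : Pol k →+* Pol k) ≤ Q.carrier →
      4 * D Q + ((M - t₂.natDegree : ℕ) * (ord Q (X 1) : ℤ) +
        ((t₂.roots.map (fun r => ord Q (X 0 - C r * X 1))).sum : ℕ)) +
        ∑ j, (e₂ j : ℤ) * ord Q (X 2 - C (q j) * X 3) =
      ((M - t₁.natDegree : ℕ) * (ord Q (X 1) : ℤ) +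
        ((t₁.roots.map (fun r => ord Q (X 0 - C r * X 1))).sum : ℕ)) +
        ∑ j, (e₁ j : ℤ) * ord Q (X 2 - C (q j) * X 3) := by
    intro Q hQst
    obtain ⟨π, hπ⟩ := hloc Q
    have hN1 := (linesbN_spec i₀ hi₀ hF hFI hI).2
    have hN2 := (linesbN_spec i₀ hi₀ hG hGI hI).2
    obtain ⟨a1, a2⟩ := linesbH_ord hI hX hX1 hπ t₁ ht₁ M
    obtain ⟨b1, b2⟩ := linesbH_ord hI hX hX1 hπ t₂ ht₂ M
    have hpw : ∀ (e : Fin 4 → ℕ) (j : Fin 4), (X 2 - C (q j) * X 3 : Pol k) ^ e j ∉ IX s :=
      fun e j h => hXq (q j) (hI.mem_of_pow_mem _ h)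
    obtain ⟨c1, c2⟩ := linesb_ord_finset hI hπ Finset.univ
      (fun j => (X 2 - C (q j) * X 3 : Pol k) ^ e₁ j) (hpw e₁)
    obtain ⟨d1, d2⟩ := linesb_ord_finset hI hπ Finset.univ
      (fun j => (X 2 - C (q j) * X 3 : Pol k) ^ e₂ j) (hpw e₂)
    have m1 : linesbN i₀ F * linesbH t₂ M ∉ IX s := fun h => (hI.mem_or_mem h).elim hN1 b1
    have m2 : linesbN i₀ G * linesbH t₁ M ∉ IX s := fun h => (hI.mem_or_mem h).elim hN2 a1
    have h := ord_congr Q hmem
    rw [hπ.ord_mul hI m1 d1, hπ.ord_mul hI hN1 b1, hπ.ord_mul hI m2 c1, hπ.ord_mul hI hN2 a1,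
      linesbN_ord i₀ hi₀ hFI hI hπ hQst, linesbN_ord i₀ hi₀ hGI hI hπ hQst, a2, b2, c2, d2] at h
    simp only [linesb_ord_pow hI hπ (hXq _)] at h
    have h' := congrArg (fun n : ℕ => (n : ℤ)) h
    push_cast at h' ⊢
    rw [hFG Q]
    linarith
  -- sections
  have hsec : ∀ (Q : PrimeDiv (IX s)) (α β : k), (α ≠ 0 ∨ β ≠ 0) →
      β ^ 4 + s * β ^ 2 * α ^ 2 + α ^ 4 ≠ 0 →
      Q.carrier = Ideal.span {C α * X 0 + C β * X 1} ⊔ IX s →
      ∀ p' q', p' ^ 4 + s * p' ^ 2 + 1 = 0 → Q.carrier ≠ lineIdeal p' q' := by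
    intro Q α β h0 hne hQ p' q' hp' h
    have h1 : (C α * X 0 + C β * X 1 : Pol k) ∈ lineIdeal p' q' := by
      rw [← h, hQ]
      exact Ideal.mem_sup_left (Ideal.subset_span rfl)
    rw [linesb_line_linear] at h1
    apply hne
    have h2 : β = - (α * p') := by linear_combination h1
    rw [h2]
    linear_combination α ^ 4 * hp'
  have hformsec : ∀ (Q : PrimeDiv (IX s)) (α β : k), (α ≠ 0 ∨ β ≠ 0) →
      β ^ 4 + s * β ^ 2 * α ^ 2 + α ^ 4 ≠ 0 →
      Q.carrier = Ideal.span {C α * X 0 + C β * X 1} ⊔ IX s →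
      (M - t₂.natDegree) * ord Q (X 1) +
        (t₂.roots.map (fun r => ord Q (X 0 - C r * X 1))).sum =
      (M - t₁.natDegree) * ord Q (X 1) +
        (t₁.roots.map (fun r => ord Q (X 0 - C r * X 1))).sum := by
    intro Q α β h0 hne hQ
    have h1 := hform Q (linesb_stable_section i₀ hi₀ Q α β hQ)
    have h2 : D Q = 0 := by
      apply hD0
      intro i j h
      exact hsec Q α β h0 hne hQ (p i) (q j) (hp4 i) (by rw [← h, hL])
    have h3 : ∀ j, ord Q (X 2 - C (q j) * X 3) = 0 := by
      intro j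
      apply (ord_linear_zw hs (hq4 j) Q).2
      rintro ⟨p', hp', h⟩
      exact hsec Q α β h0 hne hQ p' (q j) hp' h
    simp only [h2, h3, Nat.cast_zero, mul_zero, Finset.sum_const_zero, add_zero, zero_add] at h1
    exact_mod_cast h1
  -- degrees of `t₁`, `t₂`
  have hlin1 : (X 1 : Pol k) = C 0 * X 0 + C 1 * X 1 := by simp
  have hlinr : ∀ r : k, (X 0 - C r * X 1 : Pol k) = C 1 * X 0 + C (- r) * X 1 := by
    intro r; rw [map_one, map_neg]; ring
  have hdeg : t₁.natDegree = t₂.natDegree := by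
    obtain ⟨Q, hQ⟩ := exists_section (s := s) hs 0 1 (Or.inr one_ne_zero) (by norm_num)
    have h1 := hformsec Q 0 1 (Or.inr one_ne_zero) (by norm_num) hQ
    have h2 : ord Q (X 1) = 1 := by
      rw [hlin1]
      apply (ord_linear_xy hs 0 1 (Or.inr one_ne_zero) Q).2
      rw [hQ]
      exact Ideal.mem_sup_left (Ideal.subset_span rfl)
    have h3 : ∀ r : k, ord Q (X 0 - C r * X 1) = 0 := by
      intro r
      rw [hlinr]
      apply (ord_linear_xy hs 1 (-r) (Or.inl one_ne_zero) Q).1
      intro h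
      rw [hQ] at h
      have := linesb_section_mem h ![1, 0, 1, 0] (by simp) (by simp)
      simp at this
    simp only [h2, h3, Multiset.map_const', Multiset.sum_replicate, smul_zero, mul_one,
      add_zero] at h1
    omega
  have hcount : ∀ r : k, r ^ 4 + s * r ^ 2 + 1 ≠ 0 → t₁.roots.count r = t₂.roots.count r := by
    intro r hr
    have hne : (-r) ^ 4 + s * (-r) ^ 2 * 1 ^ 2 + 1 ^ 4 ≠ 0 := by
      intro h; apply hr; linear_combination h
    obtain ⟨Q, hQ⟩ := exists_section (s := s) hs 1 (-r) (Or.inl one_ne_zero) hne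
    have h1 := hformsec Q 1 (-r) (Or.inl one_ne_zero) hne hQ
    obtain ⟨z, hz⟩ := IsAlgClosed.exists_pow_nat_eq (r ^ 4 + s * r ^ 2 + 1) (n := 4) (by norm_num)
    have hev : ∀ G : Pol k, G ∈ Q.carrier → eval ![r, 1, z, 0] G = 0 := by
      intro G hG
      rw [hQ] at hG
      apply linesb_section_mem hG
      · simp
      · simp only [Matrix.cons_val_zero, Matrix.cons_val_one, Matrix.cons_val]
        linear_combination - hz
    have h2 : ord Q (X 1) = 0 := by
      rw [hlin1]
      apply (ord_linear_xy hs 0 1 (Or.inr one_ne_zero) Q).1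
      intro h
      have := hev _ h
      simp at this
    have h3 : ∀ r' : k, ord Q (X 0 - C r' * X 1) = if r' = r then 1 else 0 := by
      intro r'
      rw [hlinr]
      split_ifs with hrr
      · subst hrr
        apply (ord_linear_xy hs 1 (-r') (Or.inl one_ne_zero) Q).2
        rw [hQ]
        exact Ideal.mem_sup_left (Ideal.subset_span rfl)
      · apply (ord_linear_xy hs 1 (-r') (Or.inl one_ne_zero) Q).1
        intro h
        have := hev _ h
        simp at this
        apply hrr
        linear_combination - this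
    simp only [h2, h3, mul_zero, zero_add, linesb_sum_ite] at h1
    exact h1.symm
  -- the lines
  have hline : ∀ i j, 4 * c i j = ((t₁.roots.count (p i) : ℤ) - t₂.roots.count (p i)) +
      ((e₁ j : ℤ) - e₂ j) := by
    intro i j
    have h1 := hform (L i j) (linesb_stable_line i₀ hi₀ (L i j) (p i) (q j) (hL i j))
    have h2 : ord (L i j) (X 1) = 0 := by
      rw [hlin1]
      apply (ord_linear_xy hs 0 1 (Or.inr one_ne_zero) (L i j)).1
      rw [hL, linesb_line_linear]
      simp
    have h3 : ∀ r : k, ord (L i j) (X 0 - C r * X 1) = if r = p i then 1 else 0 := by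
      intro r
      rw [hlinr]
      split_ifs with hr
      · apply (ord_linear_xy hs 1 (-r) (Or.inl one_ne_zero) (L i j)).2
        rw [hL, linesb_line_linear, hr]
        ring
      · apply (ord_linear_xy hs 1 (-r) (Or.inl one_ne_zero) (L i j)).1
        rw [hL, linesb_line_linear]
        intro h
        apply hr
        linear_combination - h
    have h4 : ∀ j', ord (L i j) (X 2 - C (q j') * X 3) = if j' = j then 1 else 0 := by
      intro j'
      split_ifs with hj
      · subst hj
        exact (ord_linear_zw hs (hq4 j') (L i j')).1 ⟨p i, hp4 i, hL i j'⟩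
      · apply (ord_linear_zw hs (hq4 j') (L i j)).2
        rintro ⟨p', _, h⟩
        rw [hL] at h
        exact hj (hq (linesb_line_inj h).2).symm
    rw [hDL] at h1
    simp only [h2, h3, h4, linesb_sum_ite, Nat.cast_zero, mul_zero, zero_add] at h1
    simp only [Nat.cast_ite, Nat.cast_one, Nat.cast_zero, mul_ite, mul_one, mul_zero,
      Finset.sum_ite_eq', Finset.mem_univ, if_true] at h1
    linarith
  refine ⟨fun i => (t₁.roots.count (p i) : ℤ) - t₂.roots.count (p i),
    fun j => (e₁ j : ℤ) - e₂ j, ?_, ?_, hline⟩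
  · -- the sum of the `x_i`
    set P : Finset k := Finset.univ.image p with hP
    have hPne : ∀ r : k, r ∉ P → r ^ 4 + s * r ^ 2 + 1 ≠ 0 := by
      intro r hr h0
      have hdegF : (Fp s).natDegree = 4 := by
        rw [Fp]
        compute_degree!
      have hF0 : Fp s ≠ 0 := by
        intro h
        rw [h, Polynomial.natDegree_zero] at hdegF
        omega
      have hev : ∀ r : k, r ^ 4 + s * r ^ 2 + 1 = 0 → r ∈ (Fp s).roots.toFinset := by
        intro r hr
        rw [Multiset.mem_toFinset, Polynomial.mem_roots hF0, Polynomial.IsRoot.def, Fp]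
        simpa using hr
      have hsub : insert r P ⊆ (Fp s).roots.toFinset := by
        intro x hx
        rw [Finset.mem_insert] at hx
        rcases hx with rfl | hx
        · exact hev _ h0
        · rw [hP, Finset.mem_image] at hx
          obtain ⟨i, _, rfl⟩ := hx
          exact hev _ (hp4 i)
      have hc1 := Finset.card_le_card hsub
      rw [Finset.card_insert_of_notMem hr, hP, Finset.card_image_of_injective _ hp,
        Finset.card_univ, Fintype.card_fin] at hc1
      have hc2 := Multiset.toFinset_card_le (Fp s).roots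
      have hc3 := Polynomial.card_roots' (Fp s)
      omega
    have hcard' : ∀ m : Multiset k, (Multiset.card m : ℤ) =
        ∑ i, (m.count (p i) : ℤ) + (Multiset.card (m.filter (fun r => r ∉ P)) : ℤ) := by
      intro m
      induction m using Multiset.induction_on with
      | empty => simp
      | cons r m ih =>
        simp only [Multiset.card_cons, Multiset.count_cons]
        push_cast
        rw [Finset.sum_add_distrib, ih]
        by_cases hr : r ∈ P
        · rw [Multiset.filter_cons_of_neg (p := fun r => r ∉ P) m (not_not_intro hr)]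
          rw [hP, Finset.mem_image] at hr
          obtain ⟨i, _, hi⟩ := hr
          have : ∑ i' : Fin 4, (if p i' = r then (1 : ℤ) else 0) = 1 := by
            rw [Finset.sum_eq_single i]
            · rw [if_pos hi]
            · intro i' _ hi'
              rw [if_neg]
              intro h
              exact hi' (hp (h.trans hi.symm))
            · intro h; exact absurd (Finset.mem_univ _) h
          rw [this]
          ring
        · rw [Multiset.filter_cons_of_pos (p := fun r => r ∉ P) m hr, Multiset.card_cons]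
          have : ∑ i' : Fin 4, (if p i' = r then (1 : ℤ) else 0) = 0 := by
            apply Finset.sum_eq_zero
            intro i' _
            rw [if_neg]
            intro h
            apply hr
            rw [hP, Finset.mem_image]
            exact ⟨i', Finset.mem_univ _, h⟩
          rw [this]
          push_cast
          ring
    have hcard : ∀ t : Polynomial k, (t.natDegree : ℤ) =
        ∑ i, (t.roots.count (p i) : ℤ) + (Multiset.card (t.roots.filter (fun r => r ∉ P)) : ℤ) := by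
      intro t
      rw [(IsAlgClosed.splits t).natDegree_eq_card_roots]
      exact hcard' _
    have hfil : t₁.roots.filter (fun r => r ∉ P) = t₂.roots.filter (fun r => r ∉ P) := by
      ext r
      rw [Multiset.count_filter, Multiset.count_filter]
      split_ifs with h
      · rfl
      · exact hcount r (hPne r h)
    have h1 := hcard t₁
    have h2 := hcard t₂
    rw [hfil, hdeg] at h1
    rw [Finset.sum_sub_distrib]
    linarith
  · rw [Finset.sum_sub_distrib, sub_eq_zero]
    exact_mod_cast hee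

end PicJump

end
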