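import Pool.Agent.Lib_helper43.PJ.D
import Pool.Agent.Lib_helper43.PJ.W_Surf0
import Pool.Agent.Lib_helper43.PJ.W_SurfC
import Pool.Agent.Lib_helper43.PJ.W_LinesA
import Pool.Agent.Lib_helper43.PJ.W_LinesB

/-!
BLOCK LinesC of MP_f6fc0c_ag.
-/

noncomputable section

namespace PicJump

open MvPolynomial

variable {k : Type} [Field k] [IsAlgClosed k] [CharZero k] {s : k}

/-- four distinct roots -/
theorem linesC_roots (s : k) (hs : s ^ 2 ≠ 4) :
    ∃ p : Fin 4 → k, Function.Injective p ∧ ∀ i, p i ^ 4 + s * p i ^ 2 + 1 = 0 := by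
  obtain ⟨r, hr⟩ : ∃ r : k, r ^ 4 + s * r ^ 2 + 1 = 0 := by
    have hdeg : (Polynomial.X ^ 4 + Polynomial.C s * Polynomial.X ^ 2 + 1 :
        Polynomial k).degree ≠ 0 := by
      have : (Polynomial.X ^ 4 + Polynomial.C s * Polynomial.X ^ 2 + 1 :
        Polynomial k).degree = 4 := by compute_degree!
      rw [this]; norm_num
    obtain ⟨p, hp⟩ := IsAlgClosed.exists_root _ hdeg
    exact ⟨p, by simpa [Polynomial.IsRoot] using hp⟩
  have hr0 : r ≠ 0 := by
    rintro rfl
    simp at hr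
  have hr4 : r ^ 4 ≠ 1 := by
    intro h4
    rw [h4] at hr
    apply hs
    have h2 : s * r ^ 2 = -2 := by linear_combination hr
    have : s ^ 2 * r ^ 4 = 4 := by
      calc s ^ 2 * r ^ 4 = (s * r ^ 2) ^ 2 := by ring
        _ = 4 := by rw [h2]; norm_num
    rwa [h4, mul_one] at this
  have hinv : r⁻¹ ^ 4 + s * r⁻¹ ^ 2 + 1 = 0 := by
    field_simp
    linear_combination hr
  have hne : r ≠ -r := fun h => hr0 (by
    have : (2 : k) * r = 0 := by linear_combination h
    exact (mul_eq_zero.mp this).resolve_left two_ne_zero)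
  have h1 : r ≠ r⁻¹ := fun h => hr4 (by
    have : r * r = 1 := by nth_rw 2 [h]; exact mul_inv_cancel₀ hr0
    calc r ^ 4 = (r * r) * (r * r) := by ring
      _ = 1 := by rw [this, one_mul])
  have h2 : r ≠ -r⁻¹ := fun h => hr4 (by
    have : r * r = -1 := by
      nth_rw 2 [h]
      rw [mul_neg, mul_inv_cancel₀ hr0]
    calc r ^ 4 = (r * r) * (r * r) := by ring
      _ = 1 := by rw [this]; norm_num)
  have h1' : -r ≠ -r⁻¹ := fun h => h1 (neg_injective h)
  have h2' : -r ≠ r⁻¹ := fun h => h2 (by rw [← h, neg_neg])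
  have hne' : r⁻¹ ≠ -r⁻¹ := fun h => hne (by
    have := congrArg (fun x => x⁻¹) h
    simpa [inv_neg] using this)
  refine ⟨![r, -r, r⁻¹, -r⁻¹], ?_, ?_⟩
  · intro i j hij
    fin_cases i <;> fin_cases j <;> simp_all
  · intro i
    fin_cases i
    · simpa using hr
    · change (-r) ^ 4 + s * (-r) ^ 2 + 1 = 0
      linear_combination hr
    · change r⁻¹ ^ 4 + s * r⁻¹ ^ 2 + 1 = 0
      exact hinv
    · change (-r⁻¹) ^ 4 + s * (-r⁻¹) ^ 2 + 1 = 0
      linear_combination hinv

theorem linesC_q : ∃ q : Fin 4 → k, Function.Injective q ∧ ∀ j, q j ^ 4 = -1 := by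
  obtain ⟨p, hp, hp4⟩ := linesC_roots (0 : k) (by norm_num)
  exact ⟨p, hp, fun j => by linear_combination hp4 j⟩

/-- LINES-C. -/
theorem rank_vert (s : k) (hs : s ^ 2 ≠ 4) : Module.rank ℤ (Vert s) = 10 := by
  classical
  obtain ⟨p, hp, hp4⟩ := linesC_roots s hs
  obtain ⟨q, hq, hq4⟩ := linesC_q (k := k)
  have hL : ∀ i j, ∃ L : PrimeDiv (IX s), L.carrier = lineIdeal (p i) (q j) :=
    fun i j => exists_line hs (hp4 i) (hq4 j)
  choose L hL using hL
  have hspan := vert_span hs p q hp hq hp4 hq4 L hL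
  let T := {ij : Fin 4 × Fin 4 // ij.1 ≠ 0 ∧ ((ij.1 = 1 ∨ ij.1 = 2) → ij.2 ≠ 0)}
  have hmem : ∀ t : T, (Cl.mk (Finsupp.single (L t.1.1 t.1.2) 1) : Cl (IX s)) ∈ Vert s := by
    intro t
    rw [hspan]
    exact AddSubgroup.subset_closure ⟨t.1.1, t.1.2, t.2.1, t.2.2, rfl⟩
  let v : T → Vert s := fun t => ⟨_, hmem t⟩
  have hli : LinearIndependent ℤ v := by
    rw [Fintype.linearIndependent_iff]
    intro g hg
    let c : Fin 4 → Fin 4 → ℤ := fun i j =>
      if h : (i, j).1 ≠ 0 ∧ (((i, j).1 = 1 ∨ (i, j).1 = 2) → (i, j).2 ≠ 0) then g ⟨(i, j), h⟩ else 0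
    have hc : ∑ i, ∑ j, c i j • (Cl.mk (Finsupp.single (L i j) 1) : Cl (IX s)) = 0 := by
      have h1 : (∑ t : T, g t • (Cl.mk (Finsupp.single (L t.1.1 t.1.2) 1) : Cl (IX s))) = 0 := by
        have := congrArg (fun x : Vert s => (x : Cl (IX s))) hg
        simpa [v] using this
      rw [← h1, ← Fintype.sum_prod_type']
      rw [← Finset.sum_subset (Finset.subset_univ (Finset.univ.filter
        (fun ij : Fin 4 × Fin 4 => ij.1 ≠ 0 ∧ ((ij.1 = 1 ∨ ij.1 = 2) → ij.2 ≠ 0))))]
      · rw [← Finset.sum_subtype_of_mem (p := fun ij : Fin 4 × Fin 4 => ij.1 ≠ 0 ∧ ((ij.1 = 1 ∨ ij.1 = 2) → ij.2 ≠ 0))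
          (fun ij : Fin 4 × Fin 4 => c ij.1 ij.2 • (Cl.mk (Finsupp.single (L ij.1 ij.2) 1) : Cl (IX s)))
          (fun x hx => (Finset.mem_filter.mp hx).2)]
        refine Finset.sum_congr ?_ ?_
        · ext t
          have h2 := t.2.2
          simp only [ne_eq] at h2
          simp [t.2.1]
          exact h2
        · intro t _
          have : c t.1.1 t.1.2 = g t := by
            simp only [c]
            rw [dif_pos t.2]
          rw [this]
      · intro ij _ hij
        have : c ij.1 ij.2 = 0 := by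
          simp only [c]
          rw [dif_neg]
          intro h
          exact hij (Finset.mem_filter.mpr ⟨Finset.mem_univ _, h⟩)
        rw [this]
        exact zero_zsmul _
    obtain ⟨x, e, hx, he, hxe⟩ := line_relation hs p q hp hq hp4 hq4 L hL c hc
    have hc0 : ∀ j, c 0 j = 0 := fun j => by simp [c]
    have hc1 : c 1 0 = 0 := by simp [c]
    have hc2 : c 2 0 = 0 := by simp [c]
    have e0 := hxe 0 0
    have e1 := hxe 0 1
    have e2 := hxe 0 2
    have e3 := hxe 0 3
    rw [hc0] at e0 e1 e2 e3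
    have f1 := hxe 1 0
    have f2 := hxe 2 0
    rw [hc1] at f1
    rw [hc2] at f2
    simp only [Fin.sum_univ_four] at hx he
    have x0 : x 0 = 0 := by linarith
    have he' : ∀ j, e j = 0 := by
      intro j
      fin_cases j <;> simp <;> linarith
    have hx' : ∀ i, x i = 0 := by
      have a0 := he' 0
      intro i
      fin_cases i <;> simp <;> linarith
    intro t
    have h4 := hxe t.1.1 t.1.2
    rw [hx', he'] at h4
    have : c t.1.1 t.1.2 = g t := by
      simp only [c]
      rw [dif_pos t.2]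
    rw [← this]
    linarith
  have hsp : Submodule.span ℤ (Set.range v) = ⊤ := by
    rw [eq_top_iff]
    rintro ⟨y, hy⟩ -
    have hy' : y ∈ AddSubgroup.closure {c | ∃ i j, i ≠ 0 ∧ ((i = 1 ∨ i = 2) → j ≠ 0) ∧
      c = (Cl.mk (Finsupp.single (L i j) 1) : Cl (IX s))} := by
      rw [← hspan]; exact hy
    have key : ∀ z, (hz : z ∈ AddSubgroup.closure {c | ∃ i j, i ≠ 0 ∧ ((i = 1 ∨ i = 2) → j ≠ 0) ∧
      c = (Cl.mk (Finsupp.single (L i j) 1) : Cl (IX s))}) → ∀ hz' : z ∈ Vert s,
        (⟨z, hz'⟩ : Vert s) ∈ Submodule.span ℤ (Set.range v) := by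
      intro z hz
      induction hz using AddSubgroup.closure_induction with
      | mem c hc =>
        intro hz'
        obtain ⟨i, j, hi, hj, rfl⟩ := hc
        exact Submodule.subset_span ⟨⟨(i, j), hi, hj⟩, rfl⟩
      | zero =>
        intro hz'
        exact Submodule.zero_mem _
      | add a b ha hb iha ihb =>
        intro hz'
        have ha' : a ∈ Vert s := by rw [hspan]; exact ha
        have hb' : b ∈ Vert s := by rw [hspan]; exact hb
        exact Submodule.add_mem _ (iha ha') (ihb hb')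
      | neg a ha iha =>
        intro hz'
        have ha' : a ∈ Vert s := by rw [hspan]; exact ha
        exact Submodule.neg_mem _ (iha ha')
    exact key y hy' hy
  have hb := Module.Basis.mk hli hsp.ge
  have hcard : Fintype.card T = 10 := by
    simp only [T]
    decide
  rw [rank_eq_card_basis hb, hcard]
  norm_num

end PicJump

end
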