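import Pool.Agent.Lib_helper43.PJ.D
import Pool.Agent.Lib_helper43.PJ.W_Surf0
import Pool.Agent.Lib_helper43.PJ.W_SurfA
import Pool.Agent.Lib_helper43.PJ.W_SurfA2
import Pool.Agent.Lib_helper43.PJ.W_OrdA
import Pool.Agent.Lib_helper43.PJ.W_OrdB
import Pool.Agent.Lib_helper43.PJ.W_SmoothC
import Pool.Agent.Lib_helper43.PJ.W_ClsA
import Pool.Agent.Lib_helper43.PJ.W_ClsB

/-!
BLOCK SurfB of MP_f6fc0c_ag.
BLOCKS SURF (the surface `X_s` and its generic fibre).
-/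

noncomputable section

namespace PicJump

open MvPolynomial

section aux

variable {A : Type} [CommRing A] [IsDomain A] [IsDedekindDomain A]

theorem surfB_prod_ne {ι : Type} (S : Finset ι) (J : ι → Ideal A) (n : ι → ℕ)
    (hJ : ∀ i, J i ≠ ⊥) : (∏ i ∈ S, J i ^ n i) ≠ ⊥ := by
  classical
  rw [← Ideal.zero_eq_bot]
  exact Finset.prod_ne_zero_iff.mpr fun i _ => pow_ne_zero _ (by rw [Ideal.zero_eq_bot]; exact hJ i)

theorem surfB_pow_ne {J : Ideal A} (hJ : J ≠ ⊥) (n : ℕ) : J ^ n ≠ ⊥ := by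
  rw [← Ideal.zero_eq_bot] at hJ ⊢
  exact pow_ne_zero _ hJ

theorem surfB_cls_prod {ι : Type} (S : Finset ι) (J : ι → Ideal A) (n : ι → ℕ)
    (hJ : ∀ i, J i ≠ ⊥) : cls (∏ i ∈ S, J i ^ n i) = ∑ i ∈ S, n i • cls (J i) := by
  classical
  induction S using Finset.induction_on with
  | empty =>
    rw [Finset.prod_empty, Finset.sum_empty, Ideal.one_eq_top]
    exact cls_top
  | insert a S ha ih =>
    rw [Finset.prod_insert ha, Finset.sum_insert ha,
      cls_mul (surfB_pow_ne (hJ a) _) (surfB_prod_ne S J n hJ), cls_pow (hJ a), ih]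

theorem surfB_vI_top {P : Ideal A} (hP : P.IsPrime) (hP0 : P ≠ ⊥) : vI P (⊤ : Ideal A) = 0 := by
  by_contra h
  have h1 : 0 < vI P (⊤ : Ideal A) := Nat.pos_of_ne_zero h
  rw [vI_pos_iff hP hP0 (top_ne_bot)] at h1
  exact hP.ne_top (top_le_iff.mp h1)

theorem surfB_vI_prod {ι : Type} (S : Finset ι) (J : ι → Ideal A) (n : ι → ℕ)
    (hJ : ∀ i, J i ≠ ⊥) {P : Ideal A} (hP : P.IsPrime) (hP0 : P ≠ ⊥) :
    vI P (∏ i ∈ S, J i ^ n i) = ∑ i ∈ S, n i * vI P (J i) := by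
  classical
  induction S using Finset.induction_on with
  | empty =>
    rw [Finset.prod_empty, Finset.sum_empty, Ideal.one_eq_top]
    exact surfB_vI_top hP hP0
  | insert a S ha ih =>
    rw [Finset.prod_insert ha, Finset.sum_insert ha,
      vI_mul hP hP0 (surfB_pow_ne (hJ a) _) (surfB_prod_ne S J n hJ), vI_pow hP hP0 (hJ a), ih]

end aux

variable {k : Type} [Field k] [IsAlgClosed k] [CharZero k] {s : k}

theorem surfB_vert_mem {I : Ideal (Pol k)} (E : PrimeDiv I →₀ ℤ) (hE : ∀ Q, Hor Q → E Q = 0) :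
    (Cl.mk E : Cl I) ∈ AddSubgroup.closure {c : Cl I | ∃ Q : PrimeDiv I, ¬ Hor Q ∧
      c = Cl.mk (Finsupp.single Q 1)} := by
  classical
  have h1 : (Cl.mk E : Cl I) = ∑ Q ∈ E.support, E Q • (Cl.mk (Finsupp.single Q 1) : Cl I) := by
    have h2 : E = ∑ Q ∈ E.support, E Q • Finsupp.single Q (1 : ℤ) := by
      conv_lhs => rw [← Finsupp.sum_single E]
      rw [Finsupp.sum]
      refine Finset.sum_congr rfl fun Q _ => ?_
      rw [Finsupp.smul_single, smul_eq_mul, mul_one]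
    have h3 : (Cl.mk E : Cl I) = (QuotientAddGroup.mk' (Princ I)) E := rfl
    rw [h3]
    conv_lhs => rw [h2]
    rw [map_sum]
    refine Finset.sum_congr rfl fun Q _ => ?_
    rw [map_zsmul]
    rfl
  rw [h1]
  refine AddSubgroup.sum_mem _ fun Q hQ => ?_
  have hmem : (Cl.mk (Finsupp.single Q 1) : Cl I) ∈ AddSubgroup.closure
      {c : Cl I | ∃ Q : PrimeDiv I, ¬ Hor Q ∧ c = Cl.mk (Finsupp.single Q 1)} :=
    AddSubgroup.subset_closure ⟨Q, fun hH => (Finsupp.mem_support_iff.mp hQ) (hE Q hH), rfl⟩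
  exact AddSubgroup.zsmul_mem _ hmem _

variable {A : Type} [CommRing A] [IsDomain A] [IsDedekindDomain A] [Algebra k A]

/-- the homomorphism on divisors -/
def surfB_phi (f : Fib k A s) : (PrimeDiv (IX s) →₀ ℤ) →+ Additive (ClassGroup A) :=
  Finsupp.liftAddHom fun Q =>
    (zmultiplesHom (Additive (ClassGroup A))) (cls (Q.carrier.map (f.ev : Pol k →+* A)))

theorem surfB_phi_apply (f : Fib k A s) (D : PrimeDiv (IX s) →₀ ℤ) :
    surfB_phi f D = ∑ Q ∈ D.support, D Q • cls (Q.carrier.map (f.ev : Pol k →+* A)) := by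
  unfold surfB_phi
  rw [Finsupp.liftAddHom_apply, Finsupp.sum]
  rfl

theorem surfB_phi_single (f : Fib k A s) (Q : PrimeDiv (IX s)) :
    surfB_phi f (Finsupp.single Q 1) = cls (Q.carrier.map (f.ev : Pol k →+* A)) := by
  unfold surfB_phi
  rw [Finsupp.liftAddHom_apply_single, zmultiplesHom_apply, one_zsmul]

theorem surfB_cls_not_hor (f : Fib k A s) {Q : PrimeDiv (IX s)} (hQ : ¬ Hor Q) :
    cls (Q.carrier.map (f.ev : Pol k →+* A)) = 0 := by
  rw [not_hor_map f hQ]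
  exact cls_top

theorem surfB_div (f : Fib k A s) (hs : s ^ 2 ≠ 4) {h : Pol k} {d : ℕ} (hh : h.IsHomogeneous d)
    (hI : h ∉ IX s) (D : PrimeDiv (IX s) →₀ ℤ) (hD : ∀ Q : PrimeDiv (IX s), D Q = (ord Q h : ℤ)) :
    surfB_phi f D = 0 := by
  classical
  have hev : f.ev h ≠ 0 := fun h0 => hI ((f.ev_eq_zero hh).mp h0)
  have hJ : Ideal.span {f.ev h} ≠ (⊥ : Ideal A) := by
    rw [Ne, Ideal.span_singleton_eq_bot]
    exact hev
  have h1 : surfB_phi f D = ∑ Q ∈ D.support.filter (fun Q => Hor Q),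
      vI (Q.carrier.map (f.ev : Pol k →+* A)) (Ideal.span {f.ev h}) •
        cls (Q.carrier.map (f.ev : Pol k →+* A)) := by
    rw [surfB_phi_apply, Finset.sum_filter]
    refine Finset.sum_congr rfl fun Q _ => ?_
    by_cases hQ : Hor Q
    · rw [if_pos hQ, hD Q, Hor.ord_eq f hs hQ hh hI, natCast_zsmul]
    · rw [if_neg hQ, surfB_cls_not_hor f hQ, smul_zero]
  have hinj : Set.InjOn (fun Q : PrimeDiv (IX s) => Q.carrier.map (f.ev : Pol k →+* A))
      (D.support.filter (fun Q => Hor Q)) := by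
    intro Q hQ Q' hQ' he
    exact Hor.inj f (Finset.mem_filter.mp hQ).2 (Finset.mem_filter.mp hQ').2 he
  rw [h1, ← Finset.sum_image (f := fun P : Ideal A => vI P (Ideal.span {f.ev h}) • cls P)
    (g := fun Q : PrimeDiv (IX s) => Q.carrier.map (f.ev : Pol k →+* A)) hinj, ← cls_eq_sum hJ]
  · exact cls_span_singleton _
  · intro P hP hJP
    have hP0 : P ≠ ⊥ := fun h0 => hJ (le_bot_iff.mp (h0 ▸ hJP))
    obtain ⟨Q, hQ, hQP⟩ := exists_hor f hs P hP hP0
    refine Finset.mem_image.mpr ⟨Q, Finset.mem_filter.mpr ⟨?_, hQ⟩, hQP⟩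
    rw [Finsupp.mem_support_iff, hD Q, Hor.ord_eq f hs hQ hh hI, hQP]
    have := (vI_pos_iff hP hP0 hJ).mpr hJP
    exact_mod_cast this.ne'
  · intro P hP
    obtain ⟨Q, hQ, hQP⟩ := Finset.mem_image.mp hP
    have h2 := Hor.map_prime f (Finset.mem_filter.mp hQ).2
    rw [← hQP]
    exact h2

theorem surfB_princ (f : Fib k A s) (hs : s ^ 2 ≠ 4) :
    Princ (IX s) ≤ (surfB_phi f).ker := by
  unfold Princ
  rw [AddSubgroup.closure_le]
  rintro D ⟨d, a, b, ha, hb, haI, hbI, hD⟩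
  obtain ⟨Da, hDa⟩ := exists_divF (IX_prime s hs) (IX_homog s) ha haI
  obtain ⟨Db, hDb⟩ := exists_divF (IX_prime s hs) (IX_homog s) hb hbI
  have h1 : D = Da - Db := by
    ext Q
    rw [Finsupp.sub_apply, hDa, hDb, hD]
  show surfB_phi f D = 0
  rw [h1, map_sub, surfB_div f hs ha haI Da hDa, surfB_div f hs hb hbI Db hDb, sub_zero]

theorem surfB_ker (f : Fib k A s) (hs : s ^ 2 ≠ 4) (D : PrimeDiv (IX s) →₀ ℤ)
    (hD : surfB_phi f D = 0) :
    (Cl.mk D : Cl (IX s)) ∈ AddSubgroup.closure {c : Cl (IX s) | ∃ Q : PrimeDiv (IX s), ¬ Hor Q ∧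
      c = Cl.mk (Finsupp.single Q 1)} := by
  classical
  set J : PrimeDiv (IX s) → Ideal A := fun Q => Q.carrier.map (f.ev : Pol k →+* A) with hJdef
  have hJ : ∀ Q, J Q ≠ ⊥ := fun Q => map_ne_bot f Q
  set Jp : Ideal A := ∏ Q ∈ D.support, J Q ^ (D Q).toNat with hJp
  set Jm : Ideal A := ∏ Q ∈ D.support, J Q ^ (-D Q).toNat with hJm
  have hJp0 : Jp ≠ ⊥ := surfB_prod_ne _ _ _ hJ
  have hJm0 : Jm ≠ ⊥ := surfB_prod_ne _ _ _ hJ
  have hcl : cls Jp = cls Jm := by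
    rw [hJp, hJm, surfB_cls_prod _ _ _ hJ, surfB_cls_prod _ _ _ hJ, ← sub_eq_zero,
      ← Finset.sum_sub_distrib, ← hD, surfB_phi_apply]
    refine Finset.sum_congr rfl fun Q _ => ?_
    rw [← natCast_zsmul, ← natCast_zsmul, ← sub_smul]
    congr 1
    omega
  obtain ⟨x, y, hx, hy, hxy⟩ := (cls_eq_iff hJp0 hJm0).mp hcl
  obtain ⟨d1, h1⟩ := f.exists_form x
  obtain ⟨d2, h2⟩ := f.exists_form y
  obtain ⟨a, t, ha, ht, ht', ht0, hat⟩ := h1 (max d1 d2) (le_max_left _ _)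
  obtain ⟨b, t2, hb, ht2, ht2', ht20, hbt⟩ := h2 (max d1 d2) (le_max_right _ _)
  have hut := f.isUnit_ev ht ht' ht0
  have hut2 := f.isUnit_ev ht2 ht2' ht20
  have hsa : Ideal.span {f.ev a} = (Ideal.span {x} : Ideal A) := by
    rw [← hat]
    exact Ideal.span_singleton_mul_right_unit hut x
  have hsb : Ideal.span {f.ev b} = (Ideal.span {y} : Ideal A) := by
    rw [← hbt]
    exact Ideal.span_singleton_mul_right_unit hut2 y
  have haI : a ∉ IX s := by
    intro h0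
    have h3 := (f.ev_eq_zero ha).mpr h0
    rw [← hat] at h3
    rcases mul_eq_zero.mp h3 with h4 | h4
    · exact hx h4
    · exact hut.ne_zero h4
  have hbI : b ∉ IX s := by
    intro h0
    have h3 := (f.ev_eq_zero hb).mpr h0
    rw [← hbt] at h3
    rcases mul_eq_zero.mp h3 with h4 | h4
    · exact hy h4
    · exact hut2.ne_zero h4
  have hx0 : (Ideal.span {x} : Ideal A) ≠ ⊥ := by
    rw [Ne, Ideal.span_singleton_eq_bot]; exact hx
  have hy0 : (Ideal.span {y} : Ideal A) ≠ ⊥ := by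
    rw [Ne, Ideal.span_singleton_eq_bot]; exact hy
  obtain ⟨Da, hDa⟩ := exists_divF (IX_prime s hs) (IX_homog s) ha haI
  obtain ⟨Db, hDb⟩ := exists_divF (IX_prime s hs) (IX_homog s) hb hbI
  have hprinc : (Cl.mk (Db - Da) : Cl (IX s)) = 0 := by
    refine (QuotientAddGroup.eq_zero_iff _).mpr (AddSubgroup.subset_closure ?_)
    refine ⟨max d1 d2, b, a, hb, ha, hbI, haI, fun Q => ?_⟩
    rw [Finsupp.sub_apply, hDa, hDb]
  have hE : (Cl.mk D : Cl (IX s)) = Cl.mk (D - (Db - Da)) := by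
    have h5 : (Cl.mk (D - (Db - Da)) : Cl (IX s)) = Cl.mk D - Cl.mk (Db - Da) := rfl
    rw [h5, hprinc, sub_zero]
  rw [hE]
  refine surfB_vert_mem _ fun Q hQ => ?_
  obtain ⟨hP, hP0⟩ : (J Q).IsPrime ∧ J Q ≠ ⊥ := Hor.map_prime f hQ
  have h6 := congrArg (vI (J Q)) hxy
  rw [vI_mul hP hP0 hx0 hJp0, vI_mul hP hP0 hy0 hJm0, hJp, hJm, surfB_vI_prod _ _ _ hJ hP hP0,
    surfB_vI_prod _ _ _ hJ hP hP0] at h6
  have h7 : ∀ n : PrimeDiv (IX s) → ℕ, (Q ∉ D.support → n Q = 0) →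
      ∑ Q' ∈ D.support, n Q' * vI (J Q) (J Q') = n Q := by
    intro n hn
    rw [Finset.sum_eq_single Q]
    · rw [vI_self hP hP0, mul_one]
    · intro Q' _ hne
      by_cases hQ' : Hor Q'
      · obtain ⟨hP', hP0'⟩ := Hor.map_prime f hQ'
        rw [vI_ne hP hP0 hP' hP0', mul_zero]
        intro he
        exact hne (Hor.inj f hQ' hQ he.symm)
      · have h8 : J Q' = ⊤ := not_hor_map f hQ'
        rw [h8, surfB_vI_top hP hP0, mul_zero]
    · intro hQs
      rw [hn hQs, zero_mul]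
  rw [h7 (fun Q' => (D Q').toNat) (fun h => by rw [Finsupp.notMem_support_iff.mp h]; rfl),
    h7 (fun Q' => (-D Q').toNat) (fun h => by rw [Finsupp.notMem_support_iff.mp h]; rfl)] at h6
  have h9 : (ord Q a : ℤ) = vI (J Q) (Ideal.span {x}) := by
    rw [Hor.ord_eq f hs hQ ha haI, hsa]
  have h10 : (ord Q b : ℤ) = vI (J Q) (Ideal.span {y}) := by
    rw [Hor.ord_eq f hs hQ hb hbI, hsb]
  rw [Finsupp.sub_apply, Finsupp.sub_apply, hDa, hDb, h9, h10]
  omega

/-- SURF-B: the homomorphism from the class group of the surface to the class group of `A`. -/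
theorem exists_Psi (f : Fib k A s) (hs : s ^ 2 ≠ 4) :
    ∃ Ψ : Cl (IX s) →+ Additive (ClassGroup A),
      (∀ Q : PrimeDiv (IX s), Ψ (Cl.mk (Finsupp.single Q 1)) =
        cls (Q.carrier.map (f.ev : Pol k →+* A))) ∧
      Function.Surjective Ψ ∧
      Ψ.ker = AddSubgroup.closure {c | ∃ Q : PrimeDiv (IX s), ¬ Hor Q ∧
        c = Cl.mk (Finsupp.single Q 1)} := by
  have hΨ : ∀ D : PrimeDiv (IX s) →₀ ℤ,
      QuotientAddGroup.lift (Princ (IX s)) (surfB_phi f) (surfB_princ f hs) (Cl.mk D) =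
        surfB_phi f D := fun D => rfl
  refine ⟨QuotientAddGroup.lift (Princ (IX s)) (surfB_phi f) (surfB_princ f hs), ?_, ?_, ?_⟩
  · intro Q
    rw [hΨ, surfB_phi_single]
  · rw [← AddMonoidHom.range_eq_top, eq_top_iff, ← closure_cls_prime, AddSubgroup.closure_le]
    rintro c ⟨P, hP, hP0, rfl⟩
    obtain ⟨Q, hQ, rfl⟩ := exists_hor f hs P hP hP0
    exact ⟨Cl.mk (Finsupp.single Q 1), by rw [hΨ, surfB_phi_single]⟩
  · refine le_antisymm ?_ ?_
    · intro c hc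
      obtain ⟨D, rfl⟩ := QuotientAddGroup.mk_surjective c
      exact surfB_ker f hs D hc
    · rw [AddSubgroup.closure_le]
      rintro c ⟨Q, hQ, rfl⟩
      show QuotientAddGroup.lift (Princ (IX s)) (surfB_phi f) (surfB_princ f hs) _ = 0
      rw [hΨ, surfB_phi_single]
      exact surfB_cls_not_hor f hQ

end PicJump

end
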