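import Pool.Agent.Lib_helper43.PJ.D
import Pool.Agent.Lib_helper43.PJ.W_SurfB
import Pool.Agent.Lib_helper43.PJ.W_LinesC

/-!
BLOCK LinesD of MP_f6fc0c_ag.
-/

noncomputable section

namespace PicJump

open MvPolynomial

variable {k : Type} [Field k] [IsAlgClosed k] [CharZero k] {s : k}

/-- LINES-D. -/
theorem rank_Cl_IX {A : Type} [CommRing A] [IsDomain A] [IsDedekindDomain A] [Algebra k A]
    (f : Fib k A s) (hs : s ^ 2 ≠ 4) :
    Module.rank ℤ (Cl (IX s)) = 10 + Module.rank ℤ (Additive (ClassGroup A)) := by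
  obtain ⟨Ψ, -, hsurj, hker⟩ := exists_Psi f hs
  have hker' : Ψ.ker = Vert s := hker
  let Ψ' : Cl (IX s) →ₗ[ℤ] Additive (ClassGroup A) := Ψ.toIntLinearMap
  have h1 : LinearMap.range Ψ' = ⊤ := LinearMap.range_eq_top.mpr hsurj
  have h2 := LinearMap.rank_range_add_rank_ker Ψ'
  have h3 : Module.rank ℤ (LinearMap.range Ψ') = Module.rank ℤ (Additive (ClassGroup A)) := by
    rw [h1]; exact rank_top _ _
  have h4 : Module.rank ℤ (LinearMap.ker Ψ') = 10 := by
    rw [← rank_vert s hs]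
    have e : AddSubgroup.toIntSubmodule (Vert s) = LinearMap.ker Ψ' := by
      rw [← hker']
      ext x
      simp [Ψ']
    rw [← e]
    rfl
  rw [← h2, h3, h4, add_comm]

end PicJump

end
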