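import Pool.Agent.Lib_helper43.PJ.D

/-!
BLOCK EllA of MP_f6fc0c_ag.
BLOCK ELL (the coordinate ring of the curve `y^2 = x^3 + 4 F^2 x`).
-/

noncomputable section

namespace PicJump

/-! ### Quadratic extensions `C = R + R y`, `y^2 = h`, of principal ideal domains -/

/-- the data of a quadratic extension -/
structure EllA_Quad (R C : Type) [CommRing R] [CommRing C] [Algebra R C] (y : C) (h : R) : Prop where
  sq : y ^ 2 = algebraMap R C h
  ex : ∀ x : C, ∃ p q : R, x = algebraMap R C p + algebraMap R C q * y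
  un : ∀ p q : R, algebraMap R C p + algebraMap R C q * y = 0 → p = 0 ∧ q = 0

theorem EllA_mem_of_eq {C : Type} [CommRing C] {I : Ideal C} {x y : C} (h : x = y) (hy : y ∈ I) :
    x ∈ I := h ▸ hy

section

variable {R C : Type} [CommRing R] [IsDomain R] [IsPrincipalIdealRing R] [CommRing C] [IsDomain C]
  [Algebra R C] {y : C} {h : R}

theorem EllA_Quad.sub_ne_zero (Q : EllA_Quad R C y h) (v : R) : y - algebraMap R C v ≠ 0 := by
  intro h0
  have := Q.un (-v) 1 (by rw [map_neg, map_one]; linear_combination h0)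
  exact one_ne_zero this.2

theorem EllA_Quad.alg_ne_zero (Q : EllA_Quad R C y h) {p : R} (hp : p ≠ 0) :
    algebraMap R C p ≠ 0 := by
  intro h0
  exact hp (Q.un p 0 (by rw [map_zero, h0]; ring)).1

theorem EllA_Quad.sq_ne (Q : EllA_Quad R C y h) (v : R) : v ^ 2 - h ≠ 0 := by
  intro h0
  have h1 : (y - algebraMap R C v) * (y - algebraMap R C (-v)) = 0 := by
    have h2 : algebraMap R C v ^ 2 = algebraMap R C h := by
      rw [← map_pow, sub_eq_zero.mp h0]
    rw [map_neg]
    linear_combination Q.sq - h2
  rcases mul_eq_zero.mp h1 with h3 | h3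
  · exact Q.sub_ne_zero v h3
  · exact Q.sub_ne_zero (-v) h3

/-- Mumford representation of ideals -/
theorem EllA_Quad.mumford (Q : EllA_Quad R C y h) {J : Ideal C} (hJ : J ≠ ⊥) :
    ∃ c u v : R, c ≠ 0 ∧ u ≠ 0 ∧ u ∣ v ^ 2 - h ∧
      J = Ideal.span {algebraMap R C c} *
        Ideal.span {algebraMap R C u, y - algebraMap R C v} := by
  classical
  -- the ideal of the coefficients of `y`
  let I₁ : Ideal R :=
    { carrier := {q | ∃ p, algebraMap R C p + algebraMap R C q * y ∈ J}
      add_mem' := by
        rintro a b ⟨p, hp⟩ ⟨q, hq⟩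
        refine ⟨p + q, ?_⟩
        have := J.add_mem hp hq
        rw [map_add, map_add]
        convert this using 1
        ring
      zero_mem' := ⟨0, by simp⟩
      smul_mem' := by
        rintro r a ⟨p, hp⟩
        refine ⟨r * p, ?_⟩
        have := J.mul_mem_left (algebraMap R C r) hp
        rw [smul_eq_mul, map_mul, map_mul]
        convert this using 1
        ring }
  have hI₁ : ∀ q, q ∈ I₁ ↔ ∃ p, algebraMap R C p + algebraMap R C q * y ∈ J := fun q => Iff.rfl
  obtain ⟨c, hc⟩ := (IsPrincipalIdealRing.principal I₁).principal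
  obtain ⟨b, hb⟩ := (IsPrincipalIdealRing.principal (J.comap (algebraMap R C))).principal
  have hc' : ∀ q, q ∈ I₁ ↔ c ∣ q := by
    intro q
    rw [hc]
    exact Ideal.mem_span_singleton
  have hb' : ∀ q, algebraMap R C q ∈ J ↔ b ∣ q := by
    intro q
    rw [← Ideal.mem_comap, hb]
    exact Ideal.mem_span_singleton
  -- `c ≠ 0`
  have hc0 : c ≠ 0 := by
    rintro rfl
    obtain ⟨x, hx, hx0⟩ := Submodule.exists_mem_ne_zero_of_ne_bot hJ
    obtain ⟨p, q, rfl⟩ := Q.ex x
    have hq : q = 0 := by
      have := (hc' q).mp ((hI₁ q).mpr ⟨p, hx⟩)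
      exact zero_dvd_iff.mp this
    subst hq
    have hp : p = 0 := by
      have h1 : p ∈ I₁ := (hI₁ p).mpr ⟨0, by
        have := J.mul_mem_left y hx
        convert this using 1
        rw [map_zero]; ring⟩
      exact zero_dvd_iff.mp ((hc' p).mp h1)
    subst hp
    exact hx0 (by simp)
  -- `v`
  obtain ⟨p₀, hp₀⟩ := (hI₁ c).mp ((hc' c).mpr dvd_rfl)
  have hcp : c ∣ p₀ := by
    refine (hc' p₀).mp ((hI₁ p₀).mpr ⟨c * h, ?_⟩)
    have := J.mul_mem_left y hp₀
    convert this using 1
    rw [map_mul]
    linear_combination (- algebraMap R C c) * Q.sq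
  obtain ⟨v', rfl⟩ := hcp
  have hbJ : algebraMap R C b ∈ J := (hb' b).mpr dvd_rfl
  have hcb : c ∣ b := by
    refine (hc' b).mp ((hI₁ b).mpr ⟨0, ?_⟩)
    have := J.mul_mem_left y hbJ
    convert this using 1
    rw [map_zero]; ring
  obtain ⟨u, rfl⟩ := hcb
  have hcv : algebraMap R C c * (y - algebraMap R C (-v')) ∈ J := by
    convert hp₀ using 1
    rw [map_neg, map_mul]; ring
  have hdvd : u ∣ (-v') ^ 2 - h := by
    have h1 : algebraMap R C (c * ((-v') ^ 2 - h)) ∈ J := by
      have := J.mul_mem_left (-(y + algebraMap R C (-v'))) hcv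
      convert this using 1
      rw [map_mul, map_sub, map_pow, map_neg]
      linear_combination (algebraMap R C c) * Q.sq
    have h2 := (hb' _).mp h1
    exact (mul_dvd_mul_iff_left hc0).mp h2
  refine ⟨c, u, -v', hc0, ?_, hdvd, ?_⟩
  · rintro rfl
    exact Q.sq_ne (-v') (zero_dvd_iff.mp hdvd)
  · apply le_antisymm
    · intro x hx
      obtain ⟨p, q, rfl⟩ := Q.ex x
      obtain ⟨q', rfl⟩ := (hc' q).mp ((hI₁ q).mpr ⟨p, hx⟩)
      have h1 : algebraMap R C (p + c * (-v') * q') ∈ J := by
        have := J.sub_mem hx (J.mul_mem_left (algebraMap R C q') hcv)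
        convert this using 1
        simp only [map_add, map_mul, map_neg]; ring
      obtain ⟨t, ht⟩ := (hb' _).mp h1
      have h2 : algebraMap R C p + algebraMap R C (c * q') * y =
          algebraMap R C c * (algebraMap R C t * algebraMap R C u +
            algebraMap R C q' * (y - algebraMap R C (-v'))) := by
        have h3 : algebraMap R C p + algebraMap R C c * (-algebraMap R C v') * algebraMap R C q' =
            algebraMap R C c * algebraMap R C u * algebraMap R C t := by
          rw [← map_neg, ← map_mul, ← map_mul, ← map_mul, ← map_mul, ← map_add, ht]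
        rw [map_neg, map_mul]
        linear_combination h3
      rw [h2]
      refine Ideal.mul_mem_mul (Ideal.mem_span_singleton_self _) (Ideal.add_mem _ ?_ ?_)
      · exact Ideal.mul_mem_left _ _ (Ideal.subset_span (by simp))
      · exact Ideal.mul_mem_left _ _ (Ideal.subset_span (by simp))
    · rw [Ideal.mul_le]
      intro r hr s hs
      obtain ⟨r', rfl⟩ := Ideal.mem_span_singleton'.mp hr
      obtain ⟨s₁, s₂, rfl⟩ := Ideal.mem_span_pair.mp hs
      have : r' * algebraMap R C c * (s₁ * algebraMap R C u + s₂ * (y - algebraMap R C (-v'))) =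
          r' * s₁ * algebraMap R C (c * u) + r' * s₂ * (algebraMap R C c *
            (y - algebraMap R C (-v'))) := by
        rw [map_mul]; ring
      rw [this]
      exact J.add_mem (J.mul_mem_left _ hbJ) (J.mul_mem_left _ hcv)

/-- the product formula -/
theorem EllA_Quad.prod (Q : EllA_Quad R C y h) (h2 : IsUnit (2 : R)) (hsf : Squarefree h)
    {u u' v : R} (huv : u * u' = v ^ 2 - h) :
    Ideal.span {algebraMap R C u, y - algebraMap R C v} *
      Ideal.span {algebraMap R C u', y - algebraMap R C v} =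
        Ideal.span {y - algebraMap R C v} := by
  have huv' : algebraMap R C u * algebraMap R C u' =
      - (y + algebraMap R C v) * (y - algebraMap R C v) := by
    rw [← map_mul, huv, map_sub, map_pow]
    linear_combination Q.sq
  apply le_antisymm
  · rw [Ideal.mul_le]
    intro r hr s hs
    obtain ⟨r₁, r₂, rfl⟩ := Ideal.mem_span_pair.mp hr
    obtain ⟨s₁, s₂, rfl⟩ := Ideal.mem_span_pair.mp hs
    rw [Ideal.mem_span_singleton']
    refine ⟨- r₁ * s₁ * (y + algebraMap R C v) + r₁ * s₂ * algebraMap R C u +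
      r₂ * s₁ * algebraMap R C u' + r₂ * s₂ * (y - algebraMap R C v), ?_⟩
    linear_combination (- r₁ * s₁) * huv'
  · obtain ⟨g, hg⟩ := (IsPrincipalIdealRing.principal (Ideal.span {u, u', v})).principal
    have hg' : ∀ t ∈ ({u, u', v} : Set R), g ∣ t := by
      intro t ht
      have : t ∈ Submodule.span R {g} := by
        rw [← hg]; exact Ideal.subset_span ht
      exact Ideal.mem_span_singleton.mp this
    obtain ⟨a, ha⟩ := hg' u (by simp)
    obtain ⟨b, hb⟩ := hg' u' (by simp)
    obtain ⟨c, hc⟩ := hg' v (by simp)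
    have hgu : IsUnit g := by
      apply hsf
      refine ⟨c ^ 2 - a * b, ?_⟩
      have : h = v ^ 2 - u * u' := by rw [huv]; ring
      rw [this, ha, hb, hc]; ring
    have h1 : (1 : R) ∈ Ideal.span {u, u', v} := by
      have : Ideal.span {u, u', v} = ⊤ := by
        rw [hg]; exact Ideal.span_singleton_eq_top.mpr hgu
      rw [this]; trivial
    rw [Ideal.mem_span_insert] at h1
    obtain ⟨α, z, hz, h1⟩ := h1
    obtain ⟨β, γ, rfl⟩ := Ideal.mem_span_pair.mp hz
    obtain ⟨w, hw⟩ := h2.exists_right_inv
    rw [Ideal.span_singleton_le_iff_mem]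
    have h1' : (1 : C) = algebraMap R C α * algebraMap R C u +
        (algebraMap R C β * algebraMap R C u' + algebraMap R C γ * algebraMap R C v) := by
      rw [← map_mul, ← map_mul, ← map_mul, ← map_add, ← map_add, ← h1, map_one]
    have hw' : (2 : C) * algebraMap R C w = 1 := by
      have := congrArg (algebraMap R C) hw
      rwa [map_mul, map_one, map_ofNat] at this
    have key : y - algebraMap R C v =
        (algebraMap R C α * algebraMap R C u) * (y - algebraMap R C v) +
        ((algebraMap R C β) * ((y - algebraMap R C v) * algebraMap R C u') +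
        ((- algebraMap R C γ * algebraMap R C w) * (algebraMap R C u * algebraMap R C u') +
        (- algebraMap R C γ * algebraMap R C w) * ((y - algebraMap R C v) *
          (y - algebraMap R C v)))) := by
      linear_combination (y - algebraMap R C v) * h1' +
        (algebraMap R C γ * algebraMap R C w) * huv' -
        (algebraMap R C γ * algebraMap R C v * (y - algebraMap R C v)) * hw'
    have e1 : algebraMap R C u ∈ Ideal.span {algebraMap R C u, y - algebraMap R C v} :=
      Ideal.subset_span (by simp)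
    have e2 : y - algebraMap R C v ∈ Ideal.span {algebraMap R C u, y - algebraMap R C v} :=
      Ideal.subset_span (by simp)
    have e3 : algebraMap R C u' ∈ Ideal.span {algebraMap R C u', y - algebraMap R C v} :=
      Ideal.subset_span (by simp)
    have e4 : y - algebraMap R C v ∈ Ideal.span {algebraMap R C u', y - algebraMap R C v} :=
      Ideal.subset_span (by simp)
    refine EllA_mem_of_eq key (Ideal.add_mem _ ?_ (Ideal.add_mem _ ?_ (Ideal.add_mem _ ?_ ?_)))
    · exact Ideal.mul_mem_mul (Ideal.mul_mem_left _ _ e1) e4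
    · exact Ideal.mul_mem_left _ _ (Ideal.mul_mem_mul e2 e3)
    · exact Ideal.mul_mem_left _ _ (Ideal.mul_mem_mul e1 e3)
    · exact Ideal.mul_mem_left _ _ (Ideal.mul_mem_mul e2 e4)

/-- such quadratic extensions are Dedekind domains -/
theorem EllA_Quad.isDedekindDomain (Q : EllA_Quad R C y h) (h2 : IsUnit (2 : R))
    (hsf : Squarefree h) : IsDedekindDomain C := by
  rw [isDedekindDomain_iff_mul_inv_cancel (K := FractionRing C)]
  intro I hI
  rw [FractionalIdeal.mul_inv_cancel_iff]
  obtain ⟨a, J, ha, rfl⟩ := FractionalIdeal.exists_eq_spanSingleton_mul I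
  have hJ : J ≠ ⊥ := by
    rintro rfl
    apply hI
    simp
  obtain ⟨c, u, v, hc, hu, ⟨u', hu'⟩, rfl⟩ := Q.mumford hJ
  have hP := Q.prod h2 hsf hu'.symm
  set y' := y - algebraMap R C v with hy'
  have hy0 : y' ≠ 0 := Q.sub_ne_zero v
  have hc0 : algebraMap R C c ≠ 0 := Q.alg_ne_zero hc
  let K := FractionRing C
  have ha' : algebraMap C K a ≠ 0 := by
    simpa using ha
  have hz0 : algebraMap C K (algebraMap R C c * y') ≠ 0 := by
    have : algebraMap R C c * y' ≠ 0 := mul_ne_zero hc0 hy0
    simpa using this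
  refine ⟨FractionalIdeal.spanSingleton _ (algebraMap C K a) *
    ((Ideal.span {algebraMap R C u', y'} : Ideal C) : FractionalIdeal (nonZeroDivisors C) K) *
    FractionalIdeal.spanSingleton _ (algebraMap C K (algebraMap R C c * y'))⁻¹, ?_⟩
  have e : (Ideal.span {algebraMap R C c} * Ideal.span {algebraMap R C u, y'}) *
      Ideal.span {algebraMap R C u', y'} = Ideal.span {algebraMap R C c * y'} := by
    rw [mul_assoc, hP, Ideal.span_singleton_mul_span_singleton]
  have e' := congrArg (fun I : Ideal C => (I : FractionalIdeal (nonZeroDivisors C) K)) e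
  simp only [FractionalIdeal.coeIdeal_mul] at e'
  rw [FractionalIdeal.coeIdeal_mul]
  calc _ = (FractionalIdeal.spanSingleton _ (algebraMap C K a)⁻¹ *
        FractionalIdeal.spanSingleton _ (algebraMap C K a)) *
        (((Ideal.span {algebraMap R C c} : Ideal C) : FractionalIdeal (nonZeroDivisors C) K) *
        ((Ideal.span {algebraMap R C u, y'} : Ideal C) : FractionalIdeal (nonZeroDivisors C) K) *
        ((Ideal.span {algebraMap R C u', y'} : Ideal C) : FractionalIdeal (nonZeroDivisors C) K)) *
        FractionalIdeal.spanSingleton _ (algebraMap C K (algebraMap R C c * y'))⁻¹ := by ring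
    _ = 1 := by
      rw [e', FractionalIdeal.spanSingleton_mul_spanSingleton, inv_mul_cancel₀ ha',
        FractionalIdeal.coeIdeal_span_singleton, FractionalIdeal.spanSingleton_one, one_mul,
        FractionalIdeal.spanSingleton_mul_spanSingleton, mul_inv_cancel₀ hz0,
        FractionalIdeal.spanSingleton_one]

end

variable {k : Type} [Field k] [IsAlgClosed k] [CharZero k] {s : k}

/-- `h = x^3 + 4 F^2 x` -/
def EllA_h (s : k) : Polynomial (RatFunc k) :=
  Polynomial.X ^ 3 + Polynomial.C (4 * Fr s ^ 2) * Polynomial.X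

theorem EllA_Fr_ne_zero (s : k) : Fr s ≠ 0 := by
  have : Fp s ≠ 0 := by
    intro h0
    have := congrArg (Polynomial.eval 0) h0
    simp [Fp] at this
  rw [Fr]
  simpa using this

theorem EllA_squarefree (s : k) : Squarefree (EllA_h s) := by
  apply Polynomial.Separable.squarefree
  have hF := EllA_Fr_ne_zero s
  have h4 : (4 * Fr s ^ 2 : RatFunc k) ≠ 0 := mul_ne_zero (by norm_num) (pow_ne_zero _ hF)
  set e : RatFunc k := 4 * Fr s ^ 2 with he
  have hd : Polynomial.derivative (EllA_h s) = 3 * Polynomial.X ^ 2 + Polynomial.C e := by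
    rw [EllA_h, ← he, Polynomial.derivative_add, Polynomial.derivative_X_pow,
      Polynomial.derivative_C_mul_X]
    norm_num
    exact (map_ofNat Polynomial.C 3)
  have hC : Polynomial.C e * Polynomial.C (e⁻¹) = (1 : Polynomial (RatFunc k)) := by
    rw [← Polynomial.C_mul, mul_inv_cancel₀ h4, Polynomial.C_1]
  have hC2 : (2 : Polynomial (RatFunc k)) * Polynomial.C (2⁻¹) = 1 := by
    have : (2 : Polynomial (RatFunc k)) = Polynomial.C 2 := (map_ofNat Polynomial.C 2).symm
    rw [this, ← Polynomial.C_mul, mul_inv_cancel₀ (by norm_num), Polynomial.C_1]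
  unfold Polynomial.Separable
  rw [hd, EllA_h, ← he]
  refine ⟨- 9 * Polynomial.X * Polynomial.C (e⁻¹) ^ 2 * Polynomial.C (2⁻¹),
    (3 * Polynomial.X ^ 2 + 2 * Polynomial.C e) * Polynomial.C (e⁻¹) ^ 2 * Polynomial.C (2⁻¹), ?_⟩
  linear_combination (Polynomial.C e * Polynomial.C (e⁻¹)) ^ 2 * hC2 +
    (Polynomial.C e * Polynomial.C (e⁻¹) + 1) * hC

theorem EllA_quad (s : k) : EllA_Quad (Polynomial (RatFunc k)) (CR s) (yC s) (EllA_h s) where
  sq := by
    have := WeierstrassCurve.Affine.CoordinateRing.smul_basis_mul_Y (W' := Wc s) 0 1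
    simp only [zero_smul, zero_add, one_smul, one_mul] at this
    rw [yC, pow_two, this]
    have e1 : (Polynomial.X ^ 3 + Polynomial.C (Wc s).a₂ * Polynomial.X ^ 2 +
        Polynomial.C (Wc s).a₄ * Polynomial.X + Polynomial.C (Wc s).a₆) = EllA_h s := by
      show Polynomial.X ^ 3 + Polynomial.C 0 * Polynomial.X ^ 2 +
        Polynomial.C (4 * Fr s ^ 2) * Polynomial.X + Polynomial.C 0 = EllA_h s
      rw [EllA_h, Polynomial.C_0]
      ring
    have e2 : (0 - (Polynomial.C (Wc s).a₁ * Polynomial.X + Polynomial.C (Wc s).a₃)) = 0 := by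
      show (0 - (Polynomial.C 0 * Polynomial.X + Polynomial.C 0)) = 0
      rw [Polynomial.C_0]
      ring
    rw [e1, e2, zero_smul, add_zero, Algebra.smul_def, mul_one]
  ex := by
    intro x
    obtain ⟨p, q, rfl⟩ := WeierstrassCurve.Affine.CoordinateRing.exists_smul_basis_eq x
    exact ⟨p, q, by rw [Algebra.smul_def, Algebra.smul_def, mul_one]; rfl⟩
  un := by
    intro p q hpq
    apply WeierstrassCurve.Affine.CoordinateRing.smul_basis_eq_zero (W' := Wc s)
    rw [Algebra.smul_def, Algebra.smul_def, mul_one]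
    exact hpq

theorem EllA_isUnit_two : IsUnit (2 : Polynomial (RatFunc k)) := by
  have : (2 : Polynomial (RatFunc k)) = Polynomial.C 2 := (map_ofNat Polynomial.C 2).symm
  rw [this]
  exact Polynomial.isUnit_C.mpr (IsUnit.mk0 _ (by norm_num))

/-- ELL-A. The coordinate ring is a Dedekind domain: with `K = k(a)`, `CR = K[x] + K[x] y`; if
`p + q y` (`p, q` in `K(x)`) is integral over `K[x]`, so is `p - q y`, hence `p` and `q^2 h` are in
`K[x]`, `h = x^3 + 4 F^2 x = x (x - 2 i F) (x + 2 i F)` is squarefree, so `q` is in `K[x]`. -/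
theorem isDedekindDomain_CR (s : k) : IsDedekindDomain (CR s) :=
  (EllA_quad s).isDedekindDomain EllA_isUnit_two (EllA_squarefree s)

end PicJump

end
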