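import Pool.Agent.Lib_helper43.PJ.D
import Pool.Agent.Lib_helper43.PJ.W_EllA
import Pool.Agent.Lib_helper43.PJ.W_ClsA

/-!
BLOCK EllB of MP_f6fc0c_ag.
BLOCK ELL (the coordinate ring of the curve `y^2 = x^3 + 4 F^2 x`).
-/

noncomputable section

namespace PicJump

variable {k : Type} [Field k] [IsAlgClosed k] [CharZero k] {s : k}

open Polynomial

theorem EllB_natDegree_h (s : k) : (EllA_h s).natDegree = 3 := by
  rw [EllA_h]
  compute_degree!

theorem EllB_equation {s : k} {x₀ y₀ : RatFunc k} (h : y₀ ^ 2 = (EllA_h s).eval x₀) :
    (Wc s).Nonsingular x₀ y₀ := by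
  have hF := EllA_Fr_ne_zero s
  have h4 : (4 * Fr s ^ 2 : RatFunc k) ≠ 0 := mul_ne_zero (by norm_num) (pow_ne_zero _ hF)
  rw [EllA_h, eval_add, eval_mul, eval_pow, eval_X, eval_C] at h
  rw [WeierstrassCurve.Affine.nonsingular_iff, WeierstrassCurve.Affine.equation_iff]
  have a1 : (Wc s).a₁ = 0 := rfl
  have a2 : (Wc s).a₂ = 0 := rfl
  have a3 : (Wc s).a₃ = 0 := rfl
  have a4 : (Wc s).a₄ = 4 * Fr s ^ 2 := rfl
  have a6 : (Wc s).a₆ = 0 := rfl
  rw [a1, a2, a3, a4, a6]
  refine ⟨by linear_combination h, ?_⟩
  by_cases hy : y₀ = 0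
  · left
    subst hy
    intro h1
    have h2 : x₀ * (x₀ ^ 2 + 4 * Fr s ^ 2) = 0 := by linear_combination - h
    rcases mul_eq_zero.mp h2 with h3 | h3
    · subst h3
      apply h4
      linear_combination - h1
    · apply h4
      have : 2 * (4 * Fr s ^ 2) = 0 := by linear_combination h1 + 3 * h3
      exact (mul_eq_zero.mp this).resolve_left (by norm_num)
  · right
    intro h1
    apply hy
    have : 2 * y₀ = 0 := by linear_combination h1
    exact (mul_eq_zero.mp this).resolve_left (by norm_num)

/-- the ideal class of a rational point, via `cls` -/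
theorem EllB_toClass_some [IsDedekindDomain (CR s)] {x₀ y₀ : RatFunc k}
    (h : (Wc s).Nonsingular x₀ y₀) (hne : WeierstrassCurve.Affine.CoordinateRing.XYIdeal (Wc s) x₀
      (C y₀) ≠ ⊥) :
    WeierstrassCurve.Affine.Point.toClass (WeierstrassCurve.Affine.Point.some x₀ y₀ h) =
      cls (WeierstrassCurve.Affine.CoordinateRing.XYIdeal (Wc s) x₀ (C y₀)) := by
  rw [cls, dif_pos hne, WeierstrassCurve.Affine.Point.toClass_some]
  rw [← ClassGroup.mk_mk0 (K := (Wc s).FunctionField)]
  exact congrArg (fun z => Additive.ofMul (ClassGroup.mk (Wc s).FunctionField z))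
    (Units.ext rfl)

theorem EllB_span_ne_bot [IsDedekindDomain (CR s)] (u v : (RatFunc k)[X]) :
    Ideal.span {algebraMap _ (CR s) u, yC s - algebraMap _ (CR s) v} ≠ ⊥ := by
  intro h
  have h1 : yC s - algebraMap _ (CR s) v ∈
      Ideal.span {algebraMap _ (CR s) u, yC s - algebraMap _ (CR s) v} :=
    Ideal.subset_span (by simp)
  rw [h] at h1
  exact (EllA_quad s).sub_ne_zero v (by simpa using h1)

/-- reduction of `v` modulo `u` -/
theorem EllB_span_mod (u v : (RatFunc k)[X]) (w : (RatFunc k)[X]) :
    Ideal.span {algebraMap _ (CR s) u, yC s - algebraMap _ (CR s) v} =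
      Ideal.span {algebraMap _ (CR s) u, yC s - algebraMap _ (CR s) (v + w * u)} := by
  apply le_antisymm <;> rw [Ideal.span_le]
  · rintro z hz
    rcases hz with rfl | hz
    · exact Ideal.subset_span (by simp)
    · rw [Set.mem_singleton_iff] at hz
      subst hz
      refine Ideal.mem_span_pair.mpr ⟨algebraMap _ (CR s) w, 1, ?_⟩
      rw [map_add, map_mul]; ring
  · rintro z hz
    rcases hz with rfl | hz
    · exact Ideal.subset_span (by simp)
    · rw [Set.mem_singleton_iff] at hz
      subst hz
      refine Ideal.mem_span_pair.mpr ⟨- algebraMap _ (CR s) w, 1, ?_⟩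
      rw [map_add, map_mul]; ring

theorem EllB_main [IsDedekindDomain (CR s)] (n : ℕ) : ∀ u v : (RatFunc k)[X], u ≠ 0 →
    u.natDegree = n → u ∣ v ^ 2 - EllA_h s →
    ∃ P : EP s, WeierstrassCurve.Affine.Point.toClass P =
      cls (Ideal.span {algebraMap _ (CR s) u, yC s - algebraMap _ (CR s) v}) := by
  induction n using Nat.strong_induction_on with
  | _ n ih =>
    intro u v hu hn hdvd
    -- reduce `v`
    wlog hv : v.degree < u.degree generalizing v with H
    · have e : v = v % u + v / u * u := by
        rw [add_comm, mul_comm, EuclideanDomain.div_add_mod]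
      have h1 := H (v % u) ?_ (EuclideanDomain.mod_lt v hu)
      · rw [EllB_span_mod u (v % u) (v / u), ← e] at h1
        exact h1
      · have : (v % u) ^ 2 - EllA_h s = (v ^ 2 - EllA_h s) - (v / u * (v + v % u)) * u := by
          have e' : v - v % u = v / u * u := by
            nth_rewrite 1 [e]; ring
          linear_combination - (v + v % u) * e'
        rw [this]
        exact dvd_sub hdvd (Dvd.intro_left _ rfl)
    by_cases hn2 : 2 ≤ n
    · obtain ⟨u', hu'⟩ := hdvd
      have hne : v ^ 2 - EllA_h s ≠ 0 := (EllA_quad s).sq_ne v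
      have hu'0 : u' ≠ 0 := by
        rintro rfl
        rw [mul_zero] at hu'
        exact hne hu'
      have hdeg : u'.natDegree < n := by
        have h1 : (v ^ 2 - EllA_h s).natDegree = u.natDegree + u'.natDegree := by
          rw [hu', natDegree_mul hu hu'0]
        have h2 : (v ^ 2 - EllA_h s).natDegree ≤ max (2 * v.natDegree) 3 := by
          refine (natDegree_sub_le _ _).trans ?_
          rw [natDegree_pow, EllB_natDegree_h]
        have h3 : v.natDegree < u.natDegree := by
          by_cases hv0 : v = 0
          · subst hv0; simp; omega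
          · exact natDegree_lt_natDegree hv0 hv
        omega
      obtain ⟨P, hP⟩ := ih u'.natDegree hdeg u' v hu'0 rfl ⟨u, by rw [hu']; ring⟩
      refine ⟨-P, ?_⟩
      have hprod := (EllA_quad s).prod EllA_isUnit_two (EllA_squarefree s) hu'.symm
      have h4 := congrArg cls hprod
      rw [cls_mul (EllB_span_ne_bot u v) (EllB_span_ne_bot u' v), cls_span_singleton] at h4
      rw [map_neg, hP]
      exact (eq_neg_of_add_eq_zero_left h4).symm
    · have hn' : n = 0 ∨ n = 1 := by omega
      rcases hn' with rfl | rfl
      · refine ⟨0, ?_⟩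
        have hun : IsUnit u := isUnit_iff_degree_eq_zero.mpr (by
          rw [degree_eq_natDegree hu, hn]; rfl)
        have : Ideal.span {algebraMap _ (CR s) u, yC s - algebraMap _ (CR s) v} = ⊤ := by
          rw [Ideal.eq_top_iff_one]
          obtain ⟨w, hw⟩ := hun.exists_left_inv
          refine Ideal.mem_span_pair.mpr ⟨algebraMap _ (CR s) w, 0, ?_⟩
          rw [← map_mul, hw, map_one]; ring
        rw [this, cls_top, map_zero]
      · -- `u = c (X - x₀)`, `v` constant
        have hv0 : v = C (v.coeff 0) := by
          apply eq_C_of_natDegree_eq_zero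
          by_cases hv0 : v = 0
          · subst hv0; simp
          · have := natDegree_lt_natDegree hv0 hv
            omega
        obtain ⟨x₀, hx₀⟩ := exists_root_of_degree_eq_one (p := u) (by
          rw [degree_eq_natDegree hu, hn]; rfl)
        obtain ⟨w, hw⟩ := dvd_iff_isRoot.mpr hx₀
        have hw0 : w ≠ 0 := by
          rintro rfl
          rw [mul_zero] at hw
          exact hu hw
        have hwu : IsUnit w := by
          refine isUnit_iff_degree_eq_zero.mpr ?_
          have h1 := congrArg natDegree hw
          rw [natDegree_mul (X_sub_C_ne_zero x₀) hw0, natDegree_X_sub_C, hn] at h1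
          rw [degree_eq_natDegree hw0]
          have : w.natDegree = 0 := by omega
          rw [this]; rfl
        obtain ⟨w', hw'⟩ := hwu.exists_right_inv
        set y₀ := v.coeff 0 with hy₀
        have heq : y₀ ^ 2 = (EllA_h s).eval x₀ := by
          obtain ⟨t, ht⟩ := hdvd
          have h1 := congrArg (eval x₀) ht
          rw [eval_mul, hx₀.eq_zero, zero_mul, eval_sub, eval_pow, hv0, eval_C] at h1
          exact sub_eq_zero.mp h1
        have hns := EllB_equation heq
        have hid : Ideal.span {algebraMap _ (CR s) u, yC s - algebraMap _ (CR s) v} =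
            WeierstrassCurve.Affine.CoordinateRing.XYIdeal (Wc s) x₀ (C y₀) := by
          have e1 : WeierstrassCurve.Affine.CoordinateRing.XClass (Wc s) x₀ =
              algebraMap _ (CR s) (X - C x₀) := rfl
          have e2 : WeierstrassCurve.Affine.CoordinateRing.YClass (Wc s) (C y₀) =
              yC s - algebraMap _ (CR s) v := by
            rw [WeierstrassCurve.Affine.CoordinateRing.YClass, map_sub, hv0]; rfl
          rw [WeierstrassCurve.Affine.CoordinateRing.XYIdeal, e1, e2]
          apply le_antisymm <;> rw [Ideal.span_le]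
          · rintro z hz
            rcases hz with rfl | hz
            · refine Ideal.mem_span_pair.mpr ⟨algebraMap _ (CR s) w, 0, ?_⟩
              rw [hw, map_mul]; ring
            · rw [Set.mem_singleton_iff] at hz
              subst hz
              exact Ideal.subset_span (by simp)
          · rintro z hz
            rcases hz with rfl | hz
            · refine Ideal.mem_span_pair.mpr ⟨algebraMap _ (CR s) w', 0, ?_⟩
              rw [zero_mul, add_zero, ← map_mul, hw]
              congr 1
              linear_combination (X - C x₀) * hw'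
            · rw [Set.mem_singleton_iff] at hz
              subst hz
              exact Ideal.subset_span (by simp)
        refine ⟨WeierstrassCurve.Affine.Point.some x₀ y₀ hns, ?_⟩
        rw [hid]
        exact EllB_toClass_some hns (hid ▸ EllB_span_ne_bot u v)

/-- ELL-B'. the same with `cls`, together with the compatibility of `cls` and `toClass` -/
theorem exists_point_cls [IsDedekindDomain (CR s)] (J : Ideal (CR s)) (hJ : J ≠ ⊥) :
    ∃ P : EP s, WeierstrassCurve.Affine.Point.toClass P = cls J := by
  obtain ⟨c, u, v, hc, hu, hdvd, rfl⟩ := (EllA_quad s).mumford hJ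
  obtain ⟨P, hP⟩ := EllB_main u.natDegree u v hu rfl hdvd
  refine ⟨P, ?_⟩
  rw [cls_mul (by rw [Ne, Ideal.span_singleton_eq_bot]; exact (EllA_quad s).alg_ne_zero hc)
    (EllB_span_ne_bot u v), cls_span_singleton, zero_add, hP]

/-- ELL-B. Every ideal class is the class of a rational point. -/
theorem toClass_surjective (s : k) :
    Function.Surjective (WeierstrassCurve.Affine.Point.toClass (W := Wc s)) := by
  have := isDedekindDomain_CR s
  intro c
  obtain ⟨J, hJ, rfl⟩ := exists_cls_eq c
  exact exists_point_cls J hJ

end PicJump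

end
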