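import Pool.Agent.Lib_helper43.PJ.D
import Pool.Agent.Lib_helper43.PJ.W_NFA
import Pool.Agent.Lib_helper43.PJ.W_FibIso
import Pool.Agent.Lib_helper43.PJ.W_EllA

/-!
BLOCK EllMapA of MP_f6fc0c_ag.
BLOCK ELLMAP (the map from the points of the elliptic curve to the class group of `A`).
-/

noncomputable section

namespace PicJump

open MvPolynomial

variable {k A : Type} [Field k] [IsAlgClosed k] [CharZero k] [CommRing A] [IsDomain A]
  [Algebra k A] {s : k}

/-- evaluation at `a` -/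
def EllMapA_al (f : Fib k A s) : Polynomial k →+* A :=
  (Polynomial.aeval f.a : Polynomial k →ₐ[k] A).toRingHom

theorem EllMapA_al_apply (f : Fib k A s) (t : Polynomial k) :
    EllMapA_al f t = Polynomial.aeval f.a t := rfl

theorem EllMapA_al_unit (f : Fib k A s) (y : nonZeroDivisors (Polynomial k)) :
    IsUnit (EllMapA_al f y) := f.unit y (nonZeroDivisors.ne_zero y.2)

/-- its extension to `k(a)` -/
def EllMapA_phi (f : Fib k A s) : RatFunc k →+* A :=
  IsLocalization.lift (M := nonZeroDivisors (Polynomial k)) (EllMapA_al_unit f)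

theorem EllMapA_phi_alg (f : Fib k A s) (t : Polynomial k) :
    EllMapA_phi f (algebraMap _ _ t) = Polynomial.aeval f.a t :=
  IsLocalization.lift_eq _ _

theorem EllMapA_indep (f : Fib k A s) {ζ : k} (hζ : ζ ^ 4 = -1) (x : A)
    (hx : x * f.m ζ = f.n ζ) (R : Fin 4 → Polynomial (RatFunc k))
    (h : ∑ j : Fin 4, Polynomial.eval₂ (EllMapA_phi f) x (R j) * f.m ζ ^ (j : ℕ) = 0) :
    ∀ j, R j = 0 := by
  classical
  have hN : ∀ j, ∃ (b : Polynomial k) (P : Polynomial (Polynomial k)), b ≠ 0 ∧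
      P.map (algebraMap (Polynomial k) (RatFunc k)) =
        Polynomial.C (algebraMap (Polynomial k) (RatFunc k) b) * R j := by
    intro j
    obtain ⟨b, hb0, hb⟩ := IsLocalization.integerNormalization_spec
      (nonZeroDivisors (Polynomial k)) (R j)
    refine ⟨b, _, nonZeroDivisors.ne_zero hb0, hb.trans ?_⟩
    rw [Algebra.smul_def]
    rfl
  choose b P hb hP using hN
  have hev : ∀ j (c : Polynomial k), Polynomial.eval₂ (EllMapA_al f) x (Polynomial.C c * P j) =
      EllMapA_al f (c * b j) * Polynomial.eval₂ (EllMapA_phi f) x (R j) := by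
    intro j c
    have h1 : Polynomial.eval₂ (EllMapA_al f) x (P j) =
        Polynomial.eval₂ (EllMapA_phi f) x ((P j).map (algebraMap (Polynomial k) (RatFunc k))) := by
      rw [Polynomial.eval₂_map]
      congr 1
      exact RingHom.ext fun t => (EllMapA_phi_alg f t).symm
    rw [Polynomial.eval₂_mul, Polynomial.eval₂_C, h1, hP j, Polynomial.eval₂_mul,
      Polynomial.eval₂_C, EllMapA_phi_alg, map_mul, ← EllMapA_al_apply]
    ring
  let c : Fin 4 → Polynomial k := ![b 1 * b 2 * b 3, b 0 * b 2 * b 3, b 0 * b 1 * b 3,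
    b 0 * b 1 * b 2]
  have hc : ∀ j, c j * b j = b 0 * b 1 * b 2 * b 3 := by
    intro j
    fin_cases j <;> simp [c] <;> ring
  have hc0 : ∀ j, c j ≠ 0 := by
    intro j
    have h1 : c j * b j ≠ 0 := by
      rw [hc j]
      exact mul_ne_zero (mul_ne_zero (mul_ne_zero (hb 0) (hb 1)) (hb 2)) (hb 3)
    exact left_ne_zero_of_mul h1
  have h2 : ∑ j : Fin 4, Polynomial.eval₂ (EllMapA_al f) x (Polynomial.C (c j) * P j) *
      f.m ζ ^ (j : ℕ) = 0 := by
    have : ∀ j : Fin 4, Polynomial.eval₂ (EllMapA_al f) x (Polynomial.C (c j) * P j) *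
        f.m ζ ^ (j : ℕ) = EllMapA_al f (b 0 * b 1 * b 2 * b 3) *
          (Polynomial.eval₂ (EllMapA_phi f) x (R j) * f.m ζ ^ (j : ℕ)) := by
      intro j
      rw [hev, hc]; ring
    rw [Finset.sum_congr rfl (fun j _ => this j), ← Finset.mul_sum, h, mul_zero]
  have h3 := f.nf_indep hζ x hx (fun j => Polynomial.C (c j) * P j) h2
  intro j
  have h4 : Polynomial.C (c j) * P j = 0 := congrFun h3 j
  have h5 : P j = 0 := by
    rcases mul_eq_zero.mp h4 with h5 | h5
    · exact absurd (Polynomial.C_eq_zero.mp h5) (hc0 j)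
    · exact h5
  have h6 := hP j
  rw [h5, Polynomial.map_zero] at h6
  rcases mul_eq_zero.mp h6.symm with h7 | h7
  · exfalso
    rw [Polynomial.C_eq_zero] at h7
    exact hb j (by simpa using h7)
  · exact h7

/-- ELLMAP-A. The embedding `j` of the coordinate ring of the curve into `A`: `x -> 2F n/m`,
`y -> (2F)^2 / m^2`, whose image (localized at `y`) is the ring of invariants of
`τ : (u, v) -> (-u, -v)`; `A` is free over that ring with basis `1, m`. -/
theorem Fib.exists_curveMap (f : Fib k A s) {ζ : k} (hζ : ζ ^ 4 = -1) :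
    ∃ j : CR s →+* A, Function.Injective j ∧
      (∀ t : Polynomial k, j (algebraMap (RatFunc k) (CR s) (algebraMap _ _ t)) =
        Polynomial.aeval f.a t) ∧
      j (xC s) * f.m ζ = 2 * Polynomial.aeval f.a (Fp s) * f.n ζ ∧
      j (yC s) * f.m ζ ^ 2 = (2 * Polynomial.aeval f.a (Fp s)) ^ 2 ∧
      (∀ z : A, ∃ (N : ℕ) (r₁ r₂ : CR s), z * j (yC s) ^ N = j r₁ + f.m ζ * j r₂) ∧
      (∀ r₁ r₂ : CR s, j r₁ + f.m ζ * j r₂ = 0 → r₁ = 0 ∧ r₂ = 0) := by
  obtain ⟨mu, hmu⟩ := (f.isUnit_m hζ).exists_right_inv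
  set m := f.m ζ with hm
  set n := f.n ζ with hn
  set x : A := n * mu with hxdef
  have hx : x * m = n := by rw [hxdef]; linear_combination n * hmu
  have hrel := f.mn_rel hζ
  rw [← hm, ← hn] at hrel
  set F := Polynomial.aeval f.a (Fp s) with hF
  have hFp : Fp s ≠ 0 := by
    intro h0
    have := congrArg (Polynomial.eval 0) h0
    simp [Fp] at this
  -- `m^4 (x^3 + x) = 2 F`
  have hrel' : m ^ 4 * (x ^ 3 + x) = 2 * F := by
    rw [← hrel, ← hx]; ring
  have hY : ((2 * F) ^ 2 * mu ^ 2) = 2 * F * (x ^ 3 + x) * m ^ 2 := by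
    linear_combination (-(2 * F * mu ^ 2)) * hrel' +
      2 * F * (x ^ 3 + x) * m ^ 2 * (m * mu + 1) * hmu
  -- the map `j`
  set Xc : A := 2 * F * x with hXc
  set Yc : A := (2 * F) ^ 2 * mu ^ 2 with hYc
  have hFr : EllMapA_phi f (Fr s) = F := by rw [Fr, EllMapA_phi_alg]
  have hcurve : Yc ^ 2 = Xc ^ 3 + 4 * F ^ 2 * Xc := by
    have : Yc ^ 2 = (2 * F) ^ 3 * (m ^ 4 * (x ^ 3 + x)) * mu ^ 4 * 1 := by
      rw [hrel', hYc]; ring
    rw [this]
    have e1 : m ^ 4 * mu ^ 4 = 1 := by rw [← mul_pow, hmu, one_pow]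
    rw [hXc]
    linear_combination (2 * F) ^ 3 * (x ^ 3 + x) * e1
  let φ := EllMapA_phi f
  have hpoly : Polynomial.eval₂ (Polynomial.eval₂RingHom φ Xc) Yc (Wc s).polynomial = 0 := by
    rw [WeierstrassCurve.Affine.polynomial]
    have a1 : (Wc s).a₁ = 0 := rfl
    have a2 : (Wc s).a₂ = 0 := rfl
    have a3 : (Wc s).a₃ = 0 := rfl
    have a4 : (Wc s).a₄ = 4 * Fr s ^ 2 := rfl
    have a6 : (Wc s).a₆ = 0 := rfl
    have h4 : φ (4 * Fr s ^ 2) = 4 * F ^ 2 := by
      rw [map_mul, map_pow, map_ofNat, hFr]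
    rw [a1, a2, a3, a4, a6]
    simp only [Polynomial.eval₂_sub, Polynomial.eval₂_add, Polynomial.eval₂_mul,
      Polynomial.eval₂_pow, Polynomial.eval₂_X, Polynomial.eval₂_C, Polynomial.coe_eval₂RingHom,
      h4, map_zero, Polynomial.eval₂_zero]
    linear_combination hcurve
  let j : CR s →+* A := AdjoinRoot.lift (Polynomial.eval₂RingHom φ Xc) Yc hpoly
  have hjp : ∀ p : Polynomial (RatFunc k), j (algebraMap _ (CR s) p) =
      Polynomial.eval₂ φ Xc p := fun p => AdjoinRoot.lift_of hpoly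
  have hjy : j (yC s) = Yc := AdjoinRoot.lift_root hpoly
  have hjx : j (xC s) = Xc := (hjp Polynomial.X).trans (Polynomial.eval₂_X _ _)
  have hjc : ∀ c : RatFunc k, j (algebraMap _ (CR s) c) = φ c := by
    intro c
    exact (hjp (Polynomial.C c)).trans (Polynomial.eval₂_C _ _)
  have hindep : ∀ r₁ r₂ : CR s, j r₁ + m * j r₂ = 0 → r₁ = 0 ∧ r₂ = 0 := by
    intro r₁ r₂ hr
    obtain ⟨p₁, q₁, rfl⟩ := (EllA_quad s).ex r₁
    obtain ⟨p₂, q₂, rfl⟩ := (EllA_quad s).ex r₂
    have h2F : (2 * Fr s : RatFunc k) ≠ 0 := mul_ne_zero (by norm_num) (EllA_Fr_ne_zero s)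
    let L : Polynomial (RatFunc k) := Polynomial.C (2 * Fr s) * Polynomial.X
    have hL : ∀ p : Polynomial (RatFunc k), Polynomial.eval₂ φ x (p.comp L) =
        Polynomial.eval₂ φ Xc p := by
      intro p
      rw [Polynomial.eval₂_comp]
      congr 1
      rw [Polynomial.eval₂_mul, Polynomial.eval₂_C, Polynomial.eval₂_X, map_mul, map_ofNat, hFr]
    have hL0 : ∀ p : Polynomial (RatFunc k), p.comp L = 0 → p = 0 := by
      intro p hp
      ext i
      have h1 := congrArg (fun q => Polynomial.coeff q i) hp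
      simp only [L, Polynomial.comp_C_mul_X_coeff, Polynomial.coeff_zero] at h1
      rw [Polynomial.coeff_zero]
      exact (mul_eq_zero.mp h1).resolve_right (pow_ne_zero _ h2F)
    let D : Polynomial (RatFunc k) := Polynomial.C (2 * Fr s) * (Polynomial.X ^ 3 + Polynomial.X)
    have hD : Polynomial.eval₂ φ x D = 2 * F * (x ^ 3 + x) := by
      rw [Polynomial.eval₂_mul, Polynomial.eval₂_C, Polynomial.eval₂_add, Polynomial.eval₂_pow,
        Polynomial.eval₂_X, map_mul, map_ofNat, hFr]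
    have hLD : ∀ q : Polynomial (RatFunc k), Polynomial.eval₂ φ x (q.comp L * D) =
        Polynomial.eval₂ φ Xc q * (2 * F * (x ^ 3 + x)) := by
      intro q
      rw [Polynomial.eval₂_mul, hL, hD]
    have hD0 : D ≠ 0 := by
      refine mul_ne_zero (by rwa [Ne, Polynomial.C_eq_zero]) ?_
      intro h0
      have h1 := congrArg (fun q => Polynomial.coeff q 1) h0
      simp [Polynomial.coeff_X_pow] at h1
    have h1 := EllMapA_indep f hζ x hx
      ![p₁.comp L, p₂.comp L, q₁.comp L * D, q₂.comp L * D] (by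
        rw [Fin.sum_univ_four]
        show Polynomial.eval₂ φ x (p₁.comp L) * m ^ 0 + Polynomial.eval₂ φ x (p₂.comp L) * m ^ 1 +
          Polynomial.eval₂ φ x (q₁.comp L * D) * m ^ 2 +
          Polynomial.eval₂ φ x (q₂.comp L * D) * m ^ 3 = 0
        rw [hLD, hLD, hL, hL]
        rw [map_add, map_add, map_mul, map_mul, hjp, hjp, hjp, hjp, hjy] at hr
        linear_combination hr - (Polynomial.eval₂ φ Xc q₁ + Polynomial.eval₂ φ Xc q₂ * m) * hY)
    have e0 := hL0 _ (h1 0)
    have e1 := hL0 _ (h1 1)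
    have e2 : q₁ = 0 := by
      have : q₁.comp L * D = 0 := h1 2
      exact hL0 _ ((mul_eq_zero.mp this).resolve_right hD0)
    have e3 : q₂ = 0 := by
      have : q₂.comp L * D = 0 := h1 3
      exact hL0 _ ((mul_eq_zero.mp this).resolve_right hD0)
    rw [e0, e1, e2, e3]
    simp
  refine ⟨j, ?_, ?_, ?_, ?_, ?_, hindep⟩
  · rw [injective_iff_map_eq_zero]
    intro r hr
    exact (hindep r 0 (by rw [hr, map_zero]; ring)).1
  · intro t
    rw [hjc]
    exact EllMapA_phi_alg f t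
  · rw [hjx, hXc, mul_assoc, hx]
  · rw [hjy, hYc]
    linear_combination (2 * F) ^ 2 * (m * mu + 1) * hmu
  · intro z
    obtain ⟨t, N, R, ht, hz⟩ := f.nf_exists hζ x hx z
    have h2F : (2 * Fr s : RatFunc k) ≠ 0 := mul_ne_zero (by norm_num) (EllA_Fr_ne_zero s)
    let ξ : CR s := algebraMap (RatFunc k) (CR s) (2 * Fr s)⁻¹ * xC s
    have hξ : j ξ = x := by
      rw [map_mul, hjc, hjx, hXc]
      have : φ (2 * Fr s)⁻¹ * (2 * F) = 1 := by
        have e1 : (2 * F) = φ (2 * Fr s) := by rw [map_mul, map_ofNat, hFr]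
        rw [e1, ← map_mul, inv_mul_cancel₀ h2F, map_one]
      linear_combination x * this
    let s' : Fin 4 → CR s := fun i => Polynomial.eval₂
      ((algebraMap (RatFunc k) (CR s)).comp (algebraMap (Polynomial k) (RatFunc k))) ξ (R i)
    have hs' : ∀ i, j (s' i) = Polynomial.eval₂
        (Polynomial.aeval f.a : Polynomial k →ₐ[k] A).toRingHom x (R i) := by
      intro i
      simp only [s']
      rw [Polynomial.hom_eval₂, hξ]
      congr 1
      refine RingHom.ext fun t => ?_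
      rw [RingHom.comp_apply, RingHom.comp_apply, hjc]
      exact EllMapA_phi_alg f t
    have ht' : algebraMap (Polynomial k) (RatFunc k) t ≠ 0 := by simpa using ht
    have hτ : φ (algebraMap (Polynomial k) (RatFunc k) t)⁻¹ * Polynomial.aeval f.a t = 1 := by
      rw [← EllMapA_phi_alg f t, ← map_mul, inv_mul_cancel₀ ht', map_one]
    have hY2 : Yc ^ 2 = (2 * F) ^ 3 * (x ^ 3 + x) := by rw [hcurve, hXc]; ring
    have hYm : m ^ 2 * Yc = (2 * F) ^ 2 := by
      rw [hYc]
      linear_combination (2 * F) ^ 2 * (m * mu + 1) * hmu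
    simp_rw [← hs'] at hz
    rw [Fin.sum_univ_four] at hz
    change z * Polynomial.aeval f.a t * (x ^ 3 + x) ^ N = j (s' 0) * m ^ 0 + j (s' 1) * m ^ 1 +
      j (s' 2) * m ^ 2 + j (s' 3) * m ^ 3 at hz
    let T : CR s := algebraMap (RatFunc k) (CR s)
      ((algebraMap (Polynomial k) (RatFunc k) t)⁻¹ * (2 * Fr s) ^ (3 * N))
    let c : CR s := algebraMap (RatFunc k) (CR s) ((2 * Fr s) ^ 2)
    refine ⟨2 * N + 2, T * (s' 0 * yC s ^ 2 + s' 2 * c * yC s),
      T * (s' 1 * yC s ^ 2 + s' 3 * c * yC s), ?_⟩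
    have hT : j T = φ (algebraMap (Polynomial k) (RatFunc k) t)⁻¹ * (2 * F) ^ (3 * N) := by
      simp only [T]
      rw [hjc, map_mul, map_pow, map_mul, map_ofNat, hFr]
    have hc : j c = (2 * F) ^ 2 := by
      simp only [c]
      rw [hjc, map_pow, map_mul, map_ofNat, hFr]
    simp only [map_mul, map_add, map_pow]
    rw [hjy, hT, hc]
    have e1 : Yc ^ (2 * N + 2) = ((2 * F) ^ (3 * N)) * (x ^ 3 + x) ^ N * Yc ^ 2 := by
      rw [pow_add, pow_mul, hY2, mul_pow, ← pow_mul]
    rw [e1]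
    set τ := φ (algebraMap (Polynomial k) (RatFunc k) t)⁻¹ with hτd
    set P := (2 * F) ^ (3 * N)
    set Q := (x ^ 3 + x) ^ N
    linear_combination (τ * P * Yc ^ 2) * hz - z * P * Q * Yc ^ 2 * hτ +
      τ * P * Yc * (j (s' 2) + m * j (s' 3)) * hYm

end PicJump

end
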