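import Pool.Agent.Lib_helper43.PJ.D
import Pool.Agent.Lib_helper43.PJ.W_EllMapA
import Pool.Agent.Lib_helper43.PJ.W_EllA
import Pool.Agent.Lib_helper43.PJ.W_EllB
import Pool.Agent.Lib_helper43.PJ.W_ClsA
import Pool.Agent.Lib_helper43.PJ.W_ClsB
import Pool.Agent.Lib_helper43.PJ.W_ClsC
import Pool.Agent.Lib_helper43.PJ.W_FibIso
import Pool.Agent.Lib_helper43.PJ.W_NFA

/-!
BLOCK EllMapB of MP_f6fc0c_ag.
BLOCK ELLMAP (the map from the points of the elliptic curve to the class group of `A`).
-/

noncomputable section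

namespace PicJump

open MvPolynomial

variable {k A : Type} [Field k] [IsAlgClosed k] [CharZero k] [CommRing A] [IsDomain A]
  [Algebra k A] {s : k}

/-! ### The ideal generated by `P` and `y`-torsion -/

/-- a prime of the coordinate ring containing `y` has a principal square -/
theorem EllMapB_two_cls [IsDedekindDomain (CR s)] {P : Ideal (CR s)}
    (hP0 : P ≠ ⊥) (hy : yC s ∈ P) : 2 • cls P = 0 := by
  set al := algebraMap (Polynomial (RatFunc k)) (CR s) with hal
  obtain ⟨u, hu⟩ := (IsPrincipalIdealRing.principal (P.comap al)).principal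
  have hu' : ∀ q, al q ∈ P ↔ u ∣ q := by
    intro q
    rw [← Ideal.mem_comap, hu]
    exact Ideal.mem_span_singleton
  have hh : u ∣ EllA_h s := by
    rw [← hu', ← (EllA_quad s).sq]
    exact P.pow_mem_of_mem hy 2 (by norm_num)
  obtain ⟨u', hu''⟩ := hh
  have hh0 : EllA_h s ≠ 0 := (EllA_squarefree s).ne_zero
  have hu0 : u ≠ 0 := by
    rintro rfl
    rw [zero_mul] at hu''
    exact hh0 hu''
  have hcop : IsCoprime u u' := by
    rw [← EuclideanDomain.gcd_isUnit_iff]
    apply EllA_squarefree s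
    rw [hu'']
    exact mul_dvd_mul (EuclideanDomain.gcd_dvd_left u u') (EuclideanDomain.gcd_dvd_right u u')
  have hPe : P * P = Ideal.span {al u} := by
    apply le_antisymm
    · rw [Ideal.mul_le]
      intro r hr t ht
      obtain ⟨p, q, rfl⟩ := (EllA_quad s).ex r
      obtain ⟨p', q', rfl⟩ := (EllA_quad s).ex t
      have hp : u ∣ p := by
        rw [← hu']
        have := P.sub_mem hr (P.mul_mem_left (al q) hy)
        rwa [add_sub_cancel_right] at this
      have hp' : u ∣ p' := by
        rw [← hu']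
        have := P.sub_mem ht (P.mul_mem_left (al q') hy)
        rwa [add_sub_cancel_right] at this
      obtain ⟨p, rfl⟩ := hp
      obtain ⟨p', rfl⟩ := hp'
      rw [Ideal.mem_span_singleton']
      refine ⟨al p * al u * al p' + al p * al q' * yC s + al q * al p' * yC s +
        al q * al q' * al u', ?_⟩
      have h1 := (EllA_quad s).sq
      rw [hu'', map_mul] at h1
      rw [map_mul, map_mul]
      linear_combination (- al q * al q') * h1
    · rw [Ideal.span_singleton_le_iff_mem]
      obtain ⟨α, β, hαβ⟩ := hcop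
      have h1 := (EllA_quad s).sq
      rw [hu'', map_mul] at h1
      have h2 : al α * al u + al β * al u' = 1 := by
        rw [← map_mul, ← map_mul, ← map_add, hαβ, map_one]
      have e : al u = al α * (al u * al u) + al β * (yC s * yC s) := by
        linear_combination (- al u) * h2 - al β * h1
      have h3 : al u ∈ P := (hu' u).mpr dvd_rfl
      refine EllA_mem_of_eq e (Ideal.add_mem _ (Ideal.mul_mem_left _ _ (Ideal.mul_mem_mul h3 h3))
        (Ideal.mul_mem_left _ _ (Ideal.mul_mem_mul hy hy)))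
  have := congrArg cls hPe
  rw [cls_mul hP0 hP0, cls_span_singleton] at this
  rw [two_nsmul]
  exact this

theorem EllMapB_two_cls_pow [IsDedekindDomain (CR s)] {K : Ideal (CR s)} {M : ℕ}
    (hK : yC s ^ M ∈ K) (hK0 : K ≠ ⊥) : 2 • cls K = 0 := by
  classical
  have hfin := finite_primes hK0
  have hS := cls_eq_sum hK0 hfin.toFinset
    (fun P hP hle => by rw [Set.Finite.mem_toFinset]; exact ⟨hP, hle⟩)
    (fun P hP => by
      rw [Set.Finite.mem_toFinset] at hP
      refine ⟨hP.1, ?_⟩
      rintro rfl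
      exact hK0 (le_bot_iff.mp hP.2))
  rw [hS, Finset.smul_sum]
  refine Finset.sum_eq_zero fun P hP => ?_
  rw [Set.Finite.mem_toFinset] at hP
  have hP0 : P ≠ ⊥ := by
    rintro rfl
    exact hK0 (le_bot_iff.mp hP.2)
  rw [smul_comm, EllMapB_two_cls hP0 (hP.1.mem_of_pow_mem M (hP.2 hK)), smul_zero]

/-- ELLMAP-B. The homomorphism `w`, `w(P)` = the class of the ideal generated by `j (ideal of P)`.
* `T (w P) = w P`, as `τ` fixes the image of `j`.
* injectivity modulo torsion: let `J` be the ideal of `P`, and `(JA)^n = (ψ)`.  Then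
  `N = ψ τ(ψ)` is in the ring `CR' = CR[1/y]` of invariants, `(JA)^{2n} = N A`, and as `A` is free
  over `CR'` with basis `1, m`, `J^{2n} CR' = N CR'`.  So in `CR` the ideals `J^{2n}` and `(N_0)`
  differ only at the primes containing `y`, whose squares are principal.  So `4n P = 0`
  (`toClass_injective`).
* the ideal `Q τ(Q)` is invariant, and every invariant ideal is generated by its intersection with
  the image of `j`. -/
theorem Fib.exists_w [IsDedekindDomain A] (f : Fib k A s) (hs : s ^ 2 ≠ 4) (τ : A ≃ₐ[k] A)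
    (hτ : f.IsAut τ f.a (-f.u) (-f.v))
    (T : Additive (ClassGroup A) ≃+ Additive (ClassGroup A))
    (hT : ∀ J : Ideal A, T (cls J) = cls (J.map (τ : A →+* A))) :
    ∃ w : EP s →+ Additive (ClassGroup A), (∀ P, T (w P) = w P) ∧
      (∀ P, ∀ n : ℕ, 0 < n → n • w P = 0 → ∃ m : ℕ, 0 < m ∧ m • P = 0) ∧
      (∀ Q : Ideal A, Q.IsPrime → Q ≠ ⊥ → ∃ (e : ℕ) (P : EP s), 0 < e ∧
        e • (cls Q + T (cls Q)) = w P) := by
  classical
  obtain ⟨ζ, hζ⟩ := IsAlgClosed.exists_pow_nat_eq (-1 : k) (n := 4) (by norm_num)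
  obtain ⟨j, hj, hja, hjx, hjy, hex, hun⟩ := f.exists_curveMap hζ
  have hD := isDedekindDomain_CR s
  obtain ⟨Φ, hΦ⟩ := exists_clsMap j hj
  set m := f.m ζ with hm
  set n := f.n ζ with hn
  obtain ⟨hτa, hτu, hτv⟩ := hτ
  have hτm : τ m = - m := by
    rw [hm, Fib.m, map_sub, map_mul, hτu, hτv, AlgEquiv.commutes]; ring
  have hτn : τ n = - n := by
    rw [hn, Fib.n, map_add, map_mul, hτu, hτv, AlgEquiv.commutes]; ring
  have hmu : IsUnit m := f.isUnit_m hζ
  have hFp : Fp s ≠ 0 := by
    intro h0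
    have := congrArg (Polynomial.eval 0) h0
    simp [Fp] at this
  have hτt : ∀ t : Polynomial k, τ (Polynomial.aeval f.a t) = Polynomial.aeval f.a t := by
    intro t
    have := Polynomial.aeval_algHom_apply (τ : A →ₐ[k] A) f.a t
    change Polynomial.aeval (τ f.a) t = τ (Polynomial.aeval f.a t) at this
    rw [hτa] at this
    exact this.symm
  have h2 : IsUnit (2 : A) := by
    have : IsUnit (algebraMap k A 2) := (IsUnit.mk0 (2 : k) (by norm_num)).map _
    rwa [map_ofNat] at this
  have hFu : IsUnit (2 * Polynomial.aeval f.a (Fp s)) := h2.mul (f.unit _ hFp)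
  have hYu : IsUnit (j (yC s)) := by
    have : IsUnit (j (yC s) * m ^ 2) := by rw [hjy]; exact hFu.pow 2
    exact isUnit_of_mul_isUnit_left this
  have hττ : ∀ z, τ (τ z) = z := by
    have := f.aut_ext (τ.trans τ) AlgEquiv.refl
      (by simp [hτa]) (by simp [hτu]) (by simp [hτv])
    intro z
    exact congrArg (fun e : A ≃ₐ[k] A => e z) this
  -- `τ` fixes the image of `j`
  have hτc : ∀ c : RatFunc k, τ (j (algebraMap _ (CR s) c)) = j (algebraMap _ (CR s) c) := by
    intro c
    obtain ⟨p, q, hq, hpq⟩ := IsFractionRing.div_surjective (A := Polynomial k) c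
    have hq0 : q ≠ 0 := nonZeroDivisors.ne_zero hq
    have hq1 : algebraMap (Polynomial k) (RatFunc k) q ≠ 0 := by simpa using hq0
    have e1 : c * algebraMap (Polynomial k) (RatFunc k) q = algebraMap (Polynomial k) (RatFunc k) p := by
      rw [← hpq, div_mul_cancel₀ _ hq1]
    have e2 : j (algebraMap _ (CR s) c) * Polynomial.aeval f.a q = Polynomial.aeval f.a p := by
      rw [← hja, ← hja, ← map_mul, ← map_mul, e1]
    have e3 := congrArg τ e2
    rw [map_mul, hτt, hτt, ← e2] at e3
    exact (f.unit q hq0).mul_right_cancel e3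
  have hτx : τ (j (xC s)) = j (xC s) := by
    have e3 := congrArg τ hjx
    rw [map_mul, map_mul, map_mul, hτt, hτm, hτn, map_ofNat] at e3
    apply hmu.mul_right_cancel
    linear_combination (-1 : A) * e3 - hjx
  have hτy : τ (j (yC s)) = j (yC s) := by
    have e3 := congrArg τ hjy
    rw [map_mul, map_pow, map_pow, map_mul, hτt, hτm, map_ofNat] at e3
    apply (hmu.pow 2).mul_right_cancel
    linear_combination e3 - hjy
  have hτj : ∀ z, τ (j z) = j z := by
    intro z
    obtain ⟨p, q, rfl⟩ := (EllA_quad s).ex z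
    have hp : ∀ p : Polynomial (RatFunc k), τ (j (algebraMap _ (CR s) p)) =
        j (algebraMap _ (CR s) p) := by
      intro p
      induction p using Polynomial.induction_on' with
      | add p q hp hq => rw [map_add, map_add, map_add, hp, hq]
      | monomial i c =>
        rw [← Polynomial.C_mul_X_pow_eq_monomial, map_mul, map_mul, map_mul, map_pow, map_pow,
          map_pow]
        have e1 : algebraMap (Polynomial (RatFunc k)) (CR s) Polynomial.X = xC s := rfl
        have e2 : algebraMap (Polynomial (RatFunc k)) (CR s) (Polynomial.C c) =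
          algebraMap (RatFunc k) (CR s) c := rfl
        rw [e1, e2, hτc, hτx]
    rw [map_add, map_mul, map_add, map_mul, hp, hp, hτy]
  -- `m^2 y = (2F)^2`
  set c₀ : CR s := algebraMap (RatFunc k) (CR s) (algebraMap _ _ (4 * (Fp s) ^ 2)) with hc₀
  have hmY : m ^ 2 * j (yC s) = j c₀ := by
    rw [hc₀, hja, map_mul, map_pow, map_ofNat]
    linear_combination hjy
  set Y := j (yC s) with hYdef
  -- elements of the extension of an ideal
  have hext : ∀ (I : Ideal (CR s)) (z : A), z ∈ I.map j → ∃ (M : ℕ) (r₁ r₂ : CR s), r₁ ∈ I ∧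
      r₂ ∈ I ∧ z * Y ^ M = j r₁ + m * j r₂ := by
    intro I z hz
    induction hz using Submodule.span_induction with
    | mem z hz =>
      obtain ⟨b, hb, rfl⟩ := hz
      exact ⟨0, b, 0, hb, I.zero_mem, by rw [map_zero]; ring⟩
    | zero => exact ⟨0, 0, 0, I.zero_mem, I.zero_mem, by rw [map_zero]; ring⟩
    | add z z' _ _ h1 h2 =>
      obtain ⟨M, r₁, r₂, h₁, h₂, e⟩ := h1
      obtain ⟨M', r₁', r₂', h₁', h₂', e'⟩ := h2
      refine ⟨M + M', r₁ * yC s ^ M' + r₁' * yC s ^ M, r₂ * yC s ^ M' + r₂' * yC s ^ M,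
        I.add_mem (I.mul_mem_right _ h₁) (I.mul_mem_right _ h₁'),
        I.add_mem (I.mul_mem_right _ h₂) (I.mul_mem_right _ h₂'), ?_⟩
      simp only [map_add, map_mul, map_pow, ← hYdef]
      rw [pow_add]
      linear_combination Y ^ M' * e + Y ^ M * e'
    | smul c z _ h1 =>
      obtain ⟨M, r₁, r₂, h₁, h₂, e⟩ := h1
      obtain ⟨M', s₁, s₂, e'⟩ := hex c
      refine ⟨M + M' + 1, r₁ * (s₁ * yC s) + r₂ * (s₂ * c₀), r₁ * (s₂ * yC s) + r₂ * (s₁ * yC s),
        I.add_mem (I.mul_mem_right _ h₁) (I.mul_mem_right _ h₂),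
        I.add_mem (I.mul_mem_right _ h₁) (I.mul_mem_right _ h₂), ?_⟩
      simp only [map_add, map_mul, ← hYdef, smul_eq_mul]
      rw [pow_add, pow_add, pow_one, ← hmY]
      linear_combination c * Y ^ M' * Y * e + (j r₁ + m * j r₂) * Y * e'
  have hcontr : ∀ (I : Ideal (CR s)) (b : CR s), j b ∈ I.map j → ∃ M : ℕ, yC s ^ M * b ∈ I := by
    intro I b hb
    obtain ⟨M, r₁, r₂, h₁, h₂, e⟩ := hext I _ hb
    refine ⟨M, ?_⟩
    have := hun (b * yC s ^ M - r₁) (-r₂) (by
      rw [map_sub, map_mul, map_pow, map_neg]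
      linear_combination e)
    have e1 : yC s ^ M * b = r₁ := by linear_combination this.1
    rw [e1]; exact h₁
  -- invariant ideals
  have hinv : ∀ I : Ideal A, (∀ z ∈ I, τ z ∈ I) → (I.comap j).map j = I := by
    intro I hI
    apply le_antisymm Ideal.map_comap_le
    intro z hz
    obtain ⟨M, r₁, r₂, e⟩ := hex z
    have e' := congrArg τ e
    rw [map_mul, map_pow, hτy, map_add, map_mul, hτj, hτj, hτm] at e'
    have h1 : 2 * j r₁ ∈ I := by
      have : 2 * j r₁ = z * Y ^ M + τ z * Y ^ M := by linear_combination - e - e'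
      rw [this]
      exact I.add_mem (I.mul_mem_right _ hz) (I.mul_mem_right _ (hI z hz))
    have h2' : 2 * m * j r₂ ∈ I := by
      have : 2 * m * j r₂ = z * Y ^ M - τ z * Y ^ M := by linear_combination - e + e'
      rw [this]
      exact I.sub_mem (I.mul_mem_right _ hz) (I.mul_mem_right _ (hI z hz))
    have h1' : j r₁ ∈ I := (I.unit_mul_mem_iff_mem h2).mp h1
    have h2'' : j r₂ ∈ I := (I.unit_mul_mem_iff_mem (h2.mul hmu)).mp h2'
    rw [← Ideal.mul_unit_mem_iff_mem _ (hYu.pow M), e]
    exact Ideal.add_mem _ (Ideal.mem_map_of_mem j h1')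
      (Ideal.mul_mem_left _ _ (Ideal.mem_map_of_mem j h2''))
  let w : EP s →+ Additive (ClassGroup A) :=
    Φ.comp (WeierstrassCurve.Affine.Point.toClass (W := Wc s))
  have hmapτ : ∀ I : Ideal (CR s), (I.map j).map (τ : A →+* A) = I.map j := by
    intro I
    rw [Ideal.map_map]
    congr 1
    exact RingHom.ext hτj
  have hmapne : ∀ J : Ideal (CR s), J ≠ ⊥ → J.map j ≠ ⊥ := by
    intro J hJ h0
    rw [Ideal.map_eq_bot_iff_of_injective hj] at h0
    exact hJ h0
  refine ⟨w, ?_, ?_, ?_⟩
  · intro P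
    obtain ⟨J, hJ, hJP⟩ := exists_cls_eq (WeierstrassCurve.Affine.Point.toClass P)
    show T (Φ (WeierstrassCurve.Affine.Point.toClass P)) =
      Φ (WeierstrassCurve.Affine.Point.toClass P)
    rw [← hJP, hΦ J hJ, hT, hmapτ]
  · intro P n' hn' hw
    obtain ⟨J, hJ, hJP⟩ := exists_cls_eq (WeierstrassCurve.Affine.Point.toClass P)
    have hw' : cls ((J.map j) ^ n') = 0 := by
      rw [cls_pow (hmapne J hJ), ← hΦ J hJ, hJP]
      exact hw
    obtain ⟨ψ, hψ0, hψ⟩ := (cls_eq_zero_iff (pow_ne_zero n' (hmapne J hJ))).mp hw'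
    have hψ' : (J.map j) ^ n' = Ideal.span {τ ψ} := by
      have := congrArg (Ideal.map (τ : A →+* A)) hψ
      rw [Ideal.map_pow, hmapτ, Ideal.map_span, Set.image_singleton] at this
      exact this
    have hN : (J.map j) ^ (2 * n') = Ideal.span {ψ * τ ψ} := by
      rw [two_mul, pow_add]
      nth_rewrite 1 [hψ]
      rw [hψ', Ideal.span_singleton_mul_span_singleton]
    have hN0 : ψ * τ ψ ≠ 0 := mul_ne_zero hψ0 (by simpa using hψ0)
    obtain ⟨M, r₁, r₂, e⟩ := hex (ψ * τ ψ)
    have hr₂ : j r₂ = 0 := by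
      have e' := congrArg τ e
      rw [map_mul, map_mul, map_pow, hτy, map_add, map_mul, hτj, hτj, hτm, hττ] at e'
      apply ((h2.mul hmu).mul_right_eq_zero).mp
      linear_combination - e + e'
    rw [hr₂, mul_zero, add_zero] at e
    have hr₁0 : r₁ ≠ 0 := by
      rintro rfl
      rw [map_zero] at e
      rcases mul_eq_zero.mp e with h | h
      · exact hN0 h
      · exact (hYu.pow M).ne_zero h
    -- the two ideals
    set I₁ : Ideal (CR s) := J ^ (2 * n') with hI₁
    have hI₁0 : I₁ ≠ ⊥ := pow_ne_zero _ hJ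
    have hI₁A : I₁.map j = Ideal.span {j r₁} := by
      rw [hI₁, Ideal.map_pow, hN, ← e]
      exact (Ideal.span_singleton_mul_right_unit (hYu.pow M) _).symm
    -- `y^M₁ I₁ ≤ (r₁)`
    have hM₁ : ∃ M₁ : ℕ, ∀ b ∈ I₁, yC s ^ M₁ * b ∈ Ideal.span {r₁} := by
      have hb : ∀ b ∈ I₁, ∃ M : ℕ, yC s ^ M * b ∈ Ideal.span {r₁} := by
        intro b hb
        apply hcontr
        rw [Ideal.map_span, Set.image_singleton, ← hI₁A]
        exact Ideal.mem_map_of_mem j hb
      obtain ⟨S, hS⟩ := (isNoetherianRing_iff_ideal_fg (CR s)).mp inferInstance I₁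
      choose! g hg using hb
      refine ⟨∑ b ∈ S, g b, fun b hb => ?_⟩
      rw [← hS] at hb
      induction hb using Submodule.span_induction with
      | mem z hz =>
        have hz' : z ∈ I₁ := by rw [← hS]; exact Submodule.subset_span hz
        rw [← Finset.sum_erase_add S g hz, pow_add, mul_assoc]
        exact Ideal.mul_mem_left _ _ (hg z hz')
      | zero => rw [mul_zero]; exact Ideal.zero_mem _
      | add z z' _ _ h1 h2 => rw [mul_add]; exact Ideal.add_mem _ h1 h2
      | smul c z _ h1 =>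
        rw [smul_eq_mul, mul_left_comm]; exact Ideal.mul_mem_left _ _ h1
    obtain ⟨M₁, hM₁⟩ := hM₁
    obtain ⟨M₂, hM₂⟩ := hcontr I₁ r₁ (by rw [hI₁A]; exact Ideal.mem_span_singleton_self _)
    have hdvd : Ideal.span {r₁} ∣ Ideal.span {yC s ^ M₁} * I₁ := by
      rw [Ideal.dvd_iff_le, Ideal.mul_le]
      intro r hr t ht
      obtain ⟨r', rfl⟩ := Ideal.mem_span_singleton'.mp hr
      rw [mul_assoc]
      exact Ideal.mul_mem_left _ _ (hM₁ t ht)
    obtain ⟨K, hK⟩ := hdvd
    have hy0 : yC s ≠ 0 := by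
      intro h0
      rw [hYdef, h0, map_zero] at hYu
      exact not_isUnit_zero hYu
    have hyM : ∀ M : ℕ, Ideal.span {yC s ^ M} ≠ (⊥ : Ideal (CR s)) := by
      intro M
      rw [Ne, Ideal.span_singleton_eq_bot]
      exact pow_ne_zero _ hy0
    have hK0 : K ≠ ⊥ := by
      rintro rfl
      rw [← Ideal.zero_eq_bot, mul_zero] at hK
      exact mul_ne_zero (hyM M₁) hI₁0 hK
    have hKy : yC s ^ (M₁ + M₂) ∈ K := by
      have h1 : yC s ^ M₁ * (yC s ^ M₂ * r₁) ∈ Ideal.span {r₁} * K := by
        rw [← hK]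
        exact Ideal.mul_mem_mul (Ideal.mem_span_singleton_self _) hM₂
      rw [Ideal.mem_span_singleton_mul] at h1
      obtain ⟨z, hz, hz'⟩ := h1
      have : yC s ^ (M₁ + M₂) = z := by
        apply mul_left_cancel₀ hr₁0
        rw [hz', pow_add]; ring
      rw [this]; exact hz
    have h2K := EllMapB_two_cls_pow hKy hK0
    have hcls := congrArg cls hK
    rw [cls_mul (hyM M₁) hI₁0, cls_mul (by rw [Ne, Ideal.span_singleton_eq_bot]; exact hr₁0) hK0,
      cls_span_singleton, cls_span_singleton, zero_add, zero_add, hI₁, cls_pow hJ] at hcls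
    rw [← hcls] at h2K
    refine ⟨2 * (2 * n'), by omega, ?_⟩
    apply WeierstrassCurve.Affine.Point.toClass_injective
    rw [map_nsmul, ← hJP, mul_smul, h2K, map_zero]
  · intro Q hQ hQ0
    set I : Ideal A := Q * Q.map (τ : A →+* A) with hI
    have hτQ0 : Q.map (τ : A →+* A) ≠ ⊥ := by
      intro h0
      rw [Ideal.map_eq_bot_iff_of_injective (f := (τ : A →+* A)) τ.injective] at h0
      exact hQ0 h0
    have hττQ : (Q.map (τ : A →+* A)).map (τ : A →+* A) = Q := by
      rw [Ideal.map_map]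
      have : (τ : A →+* A).comp (τ : A →+* A) = RingHom.id A := RingHom.ext hττ
      rw [this, Ideal.map_id]
    have hIτ : I.map (τ : A →+* A) = I := by
      rw [hI, Ideal.map_mul, hττQ, mul_comm]
    have hI' : (I.comap j).map j = I := by
      apply hinv
      intro z hz
      rw [← hIτ]
      exact Ideal.mem_map_of_mem (τ : A →+* A) hz
    have hI0 : I ≠ ⊥ := mul_ne_zero hQ0 hτQ0
    have hIc0 : I.comap j ≠ ⊥ := by
      intro h0
      rw [h0, Ideal.map_bot] at hI'
      exact hI0 hI'.symm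
    obtain ⟨P, hP⟩ := toClass_surjective s (cls (I.comap j))
    refine ⟨1, P, one_pos, ?_⟩
    show _ = Φ (WeierstrassCurve.Affine.Point.toClass P)
    rw [hP, hΦ _ hIc0, hI', one_smul, hT, hI, cls_mul hQ0 hτQ0]

end PicJump

end
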