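import Pool.Agent.Lib_helper43.PJ.D
import Pool.Agent.Lib_helper43.PJ.W_ClsA
import Pool.Agent.Lib_helper43.PJ.W_ClsB
import Pool.Agent.Lib_helper43.PJ.W_ClsC
import Pool.Agent.Lib_helper43.PJ.W_FibIso
import Pool.Agent.Lib_helper43.PJ.W_DanC
import Pool.Agent.Lib_helper43.PJ.W_DanD
import Pool.Agent.Lib_helper43.PJ.W_DanE
import Pool.Agent.Lib_helper43.PJ.W_EllMapB
import Pool.Agent.Lib_helper51.RankAbs

/-!
BLOCK Rank of MP_f6fc0c_ag.
BLOCK RANK (the rank of the class group of `A`).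
Let `M = Additive (ClassGroup A)`, on which the automorphisms of `A` act.  Let
`α : (-a,u,v)`, `γ : (a,-u,v)`, `δ : (a,u,-v)`, `β : (-a,-u,-v)`, `τ : (a,-u,-v)`, `ι : (1/a,u/a,v/a)`,
`σ : (a,v,u)`.  Then `α β = γ δ = τ`, `ι α ι^{-1} = β`, `σ γ σ^{-1} = δ`, `ι` commutes with `γ`, `σ`
with `α`, and in the commutative ring `ℤ[α, γ, τ]`, with `N_τ = 1 + τ`,
`2 = (1 + α) + (1 + β) - α N_τ`, `2 = (1 + γ) + (1 + δ) - γ N_τ`.  So
`4 m = sum of the four norms (1+α)(1+γ) m, (1+α)(1+δ) m, (1+β)(1+γ) m, (1+β)(1+δ) m, plus N_τ (..)`.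
The first lies (up to a multiple) in the span of `c_0, c_1` (the classes of `cc κ`, `cc (iκ)`),
the others in the images of this span under `σ`, `ι`, `ισ`, and `N_τ m'` in the image of `w` (all up to
multiples).  So the rank is at most `8 + rank E(k(a))`.
For the other inequality: `τ` is `-1` on `c_0, c_1` (DAN-C) and hence on their images under `σ`,
`ι`, `ισ`, and `+1` on the image of `w`; and `(α, γ)` acts by `(+,+), (+,-), (-,+), (-,-)` on the
span of `c_0, c_1` and its images under `σ, ι, ισ`.  So a relation between the 8 classes and elements of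
the image of `w` splits (up to a multiple) into relations in each part, and DAN-E and the
injectivity of `w` modulo torsion give the claim.
-/

noncomputable section

namespace PicJump

section

variable {k A : Type} [Field k] [CommRing A] [IsDomain A] [IsDedekindDomain A] [Algebra k A]

/-- action of an automorphism on the class group -/
def Rank.T (e : A ≃ₐ[k] A) : Additive (ClassGroup A) ≃+ Additive (ClassGroup A) :=
  (exists_clsEquiv (e : A ≃+* A)).choose

lemma Rank.T_cls (e : A ≃ₐ[k] A) (J : Ideal A) :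
    Rank.T e (cls J) = cls (J.map (e : A →+* A)) :=
  (exists_clsEquiv (e : A ≃+* A)).choose_spec J

lemma Rank.T_comp (e e' : A ≃ₐ[k] A) (m : Additive (ClassGroup A)) :
    Rank.T e (Rank.T e' m) = Rank.T (e'.trans e) m := by
  obtain ⟨J, _, rfl⟩ := exists_cls_eq m
  rw [Rank.T_cls, Rank.T_cls, Rank.T_cls, Ideal.map_map]
  rfl

lemma Rank.T_refl (m : Additive (ClassGroup A)) :
    Rank.T (AlgEquiv.refl : A ≃ₐ[k] A) m = m := by
  obtain ⟨J, _, rfl⟩ := exists_cls_eq m
  rw [Rank.T_cls]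
  congr 1
  exact Ideal.map_id J

variable {s : k}

lemma Rank.cc_map (f : Fib k A s) (κ κ' : k) (e : A ≃ₐ[k] A) (ha : e (f.a ^ 2) = f.a ^ 2)
    (hu : e (f.u ^ 2) = f.u ^ 2)
    (hv : e (f.v - algebraMap k A κ) = f.v - algebraMap k A κ' ∨
      e (f.v - algebraMap k A κ) = -(f.v - algebraMap k A κ')) :
    (f.cc κ).map (e : A →+* A) = f.cc κ' := by
  have hp : e f.pp = f.pp := by
    unfold Fib.pp
    rw [map_sub, map_add, ha, hu, AlgEquiv.commutes]
  unfold Fib.cc
  rw [Ideal.map_span]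
  have him : (fun x => (e : A →+* A) x) '' {f.pp, f.v - algebraMap k A κ} =
      {f.pp, e (f.v - algebraMap k A κ)} := by
    rw [Set.image_pair]
    congr 1
  have him' : (⇑(e : A →+* A)) '' {f.pp, f.v - algebraMap k A κ} =
      {f.pp, e (f.v - algebraMap k A κ)} := him
  rw [him']
  rcases hv with hv | hv
  · rw [hv]
  · rw [hv]
    apply le_antisymm
    · rw [Ideal.span_le]
      rintro x (rfl | rfl)
      · exact Ideal.subset_span (Or.inl rfl)
      · exact neg_mem (Ideal.subset_span (Or.inr rfl))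
    · rw [Ideal.span_le]
      rintro x (rfl | rfl)
      · exact Ideal.subset_span (Or.inl rfl)
      · have h1 : -(f.v - algebraMap k A κ') ∈
            Ideal.span {f.pp, -(f.v - algebraMap k A κ')} := Ideal.subset_span (Or.inr rfl)
        have h2 := neg_mem h1
        rw [neg_neg] at h2
        exact h2

end

theorem Fib.rank_classGroup {k A : Type} [Field k] [IsAlgClosed k] [CharZero k] [CommRing A]
    [IsDomain A] [IsDedekindDomain A] [Algebra k A] {s : k} (f : Fib k A s) (hs : s ^ 2 ≠ 4) :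
    Module.rank ℤ (Additive (ClassGroup A)) = 8 + Module.rank ℤ (EP s) := by
  -- automorphisms
  have hm1 : algebraMap k A (-1) = -1 := by rw [map_neg, map_one]
  obtain ⟨α, hα⟩ := f.exists_scale (-1) 1 1 (by ring) (by ring) (by ring)
  obtain ⟨γ, hγ⟩ := f.exists_scale 1 (-1) 1 (by ring) (by ring) (by ring)
  obtain ⟨τ, hτ⟩ := f.exists_scale 1 (-1) (-1) (by ring) (by ring) (by ring)
  obtain ⟨σ, hσ⟩ := f.exists_swap
  obtain ⟨b, ι, hab, hι⟩ := f.exists_inv
  rw [hm1, map_one, one_mul, one_mul, neg_one_mul] at hα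
  rw [hm1, map_one, one_mul, one_mul, neg_one_mul] at hγ
  rw [hm1, map_one, one_mul, neg_one_mul, neg_one_mul] at hτ
  obtain ⟨αa, αu, αv⟩ := hα
  obtain ⟨γa, γu, γv⟩ := hγ
  obtain ⟨τa, τu, τv⟩ := hτ
  obtain ⟨σa, σu, σv⟩ := hσ
  obtain ⟨ιa, ιu, ιv⟩ := hι
  have hb0 : b ≠ 0 := by
    rintro rfl
    rw [mul_zero] at hab
    exact zero_ne_one hab
  have ha0 : f.a ≠ 0 := by
    intro h
    rw [h, zero_mul] at hab
    exact zero_ne_one hab
  have inv_unique : ∀ x y z : A, x ≠ 0 → x * y = 1 → x * z = 1 → y = z := by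
    intro x y z hx h1 h2
    exact mul_left_cancel₀ hx (h1.trans h2.symm)
  -- values at b
  have ιb : ι b = f.a := by
    have h1 := congrArg ι hab
    rw [map_mul, ιa, map_one] at h1
    exact inv_unique b _ _ hb0 h1 (by rw [mul_comm]; exact hab)
  have αb : α b = -b := by
    have h1 := congrArg α hab
    rw [map_mul, αa, map_one] at h1
    have h2 := inv_unique f.a (-(α b)) b ha0 (by linear_combination h1) hab
    linear_combination (-1 : A) * h2
  have γb : γ b = b := by
    have h1 := congrArg γ hab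
    rw [map_mul, γa, map_one] at h1
    exact inv_unique f.a _ _ ha0 h1 hab
  have τb : τ b = b := by
    have h1 := congrArg τ hab
    rw [map_mul, τa, map_one] at h1
    exact inv_unique f.a _ _ ha0 h1 hab
  -- i and κ
  obtain ⟨i, hi⟩ := IsAlgClosed.exists_pow_nat_eq (-1 : k) (n := 2) (by norm_num)
  obtain ⟨κ, hκ⟩ := IsAlgClosed.exists_pow_nat_eq (1 - s ^ 2 / 4 : k) (n := 4) (by norm_num)
  have hiκ : (i * κ) ^ 4 = 1 - s ^ 2 / 4 := by
    rw [mul_pow, hκ]
    have : i ^ 4 = 1 := by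
      have : i ^ 4 = (i ^ 2) ^ 2 := by ring
      rw [this, hi]; ring
    rw [this, one_mul]
  obtain ⟨w, hw1, hw2, hw3⟩ := f.exists_w hs τ ⟨τa, τu, τv⟩ (Rank.T τ) (Rank.T_cls τ)
  have hαcc : ∀ κ' : k, Rank.T α (cls (f.cc κ')) = cls (f.cc κ') := by
    intro κ'
    rw [Rank.T_cls, Rank.cc_map f κ' κ' α (by rw [map_pow, αa, neg_sq]) (by rw [map_pow, αu])
      (Or.inl (by rw [map_sub, αv, AlgEquiv.commutes]))]
  have hγcc : ∀ κ' : k, Rank.T γ (cls (f.cc κ')) = cls (f.cc κ') := by
    intro κ'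
    rw [Rank.T_cls, Rank.cc_map f κ' κ' γ (by rw [map_pow, γa]) (by rw [map_pow, γu, neg_sq])
      (Or.inl (by rw [map_sub, γv, AlgEquiv.commutes]))]
  have hτcc : ∀ κ' : k, κ' ^ 4 = 1 - s ^ 2 / 4 → Rank.T τ (cls (f.cc κ')) = - cls (f.cc κ') := by
    intro κ' hκ'
    rw [Rank.T_cls, Rank.cc_map f κ' (-κ') τ (by rw [map_pow, τa]) (by rw [map_pow, τu, neg_sq])
      (Or.inr (by rw [map_sub, τv, AlgEquiv.commutes, map_neg]; ring))]
    have := f.cls_cc_neg hs hκ'
    exact (neg_eq_of_add_eq_zero_right this).symm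
  refine RankAbs.main (Rank.T α : Additive (ClassGroup A) →+ Additive (ClassGroup A))
    (Rank.T γ) (Rank.T τ) (Rank.T σ) (Rank.T ι) ?_ ?_ ?_ ?_ ?_ ?_ ?_ ?_ ?_ ?_ ?_ ?_
    (cls (f.cc κ)) (cls (f.cc (i * κ))) (hαcc _) (hαcc _) (hγcc _) (hγcc _) (hτcc κ hκ)
    (hτcc (i * κ) hiκ) w hw1 hw2 ?_ ?_ (fun m₀ m₁ h => f.cc_indep hs hi hκ m₀ m₁ h)
  · intro m
    simp only [AddMonoidHom.coe_coe, Rank.T_comp]
    rw [f.aut_ext (τ.trans α) (α.trans τ)] <;>
      simp [AlgEquiv.trans_apply, αa, αu, αv, τa, τu, τv]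
  · intro m
    simp only [AddMonoidHom.coe_coe, Rank.T_comp]
    rw [f.aut_ext (τ.trans γ) (γ.trans τ)] <;>
      simp [AlgEquiv.trans_apply, γa, γu, γv, τa, τu, τv]
  · intro m
    simp only [AddMonoidHom.coe_coe, Rank.T_comp]
    rw [f.aut_ext (γ.trans α) (α.trans γ)] <;>
      simp [AlgEquiv.trans_apply, γa, γu, γv, αa, αu, αv]
  · intro m
    simp only [AddMonoidHom.coe_coe, Rank.T_comp]
    rw [f.aut_ext (τ.trans τ) AlgEquiv.refl, Rank.T_refl] <;>
      simp [AlgEquiv.trans_apply, τa, τu, τv]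
  · intro m
    simp only [AddMonoidHom.coe_coe, Rank.T_comp]
    rw [f.aut_ext (σ.trans σ) AlgEquiv.refl, Rank.T_refl] <;>
      simp [AlgEquiv.trans_apply, σa, σu, σv]
  · intro m
    simp only [AddMonoidHom.coe_coe, Rank.T_comp]
    rw [f.aut_ext (ι.trans ι) AlgEquiv.refl, Rank.T_refl] <;>
      simp [AlgEquiv.trans_apply, ιa, ιu, ιv, ιb, mul_assoc, mul_comm b, hab]
  · intro m
    simp only [AddMonoidHom.coe_coe, Rank.T_comp]
    rw [f.aut_ext (σ.trans α) (α.trans σ)] <;>
      simp [AlgEquiv.trans_apply, σa, σu, σv, αa, αu, αv]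
  · intro m
    simp only [AddMonoidHom.coe_coe, Rank.T_comp]
    rw [f.aut_ext (σ.trans τ) (τ.trans σ)] <;>
      simp [AlgEquiv.trans_apply, σa, σu, σv, τa, τu, τv]
  · intro m
    simp only [AddMonoidHom.coe_coe, Rank.T_comp]
    rw [f.aut_ext (ι.trans τ) (τ.trans ι)] <;>
      simp [AlgEquiv.trans_apply, ιa, ιu, ιv, τa, τu, τv, τb]
  · intro m
    simp only [AddMonoidHom.coe_coe, Rank.T_comp]
    rw [f.aut_ext (ι.trans γ) (γ.trans ι)] <;>
      simp [AlgEquiv.trans_apply, ιa, ιu, ιv, γa, γu, γv, γb]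
  · intro m
    simp only [AddMonoidHom.coe_coe, Rank.T_comp]
    rw [f.aut_ext (σ.trans γ) ((τ.trans γ).trans σ)] <;>
      simp [AlgEquiv.trans_apply, σa, σu, σv, γa, γu, γv, τa, τu, τv]
  · intro m
    simp only [AddMonoidHom.coe_coe, Rank.T_comp]
    rw [f.aut_ext (ι.trans α) ((τ.trans α).trans ι)] <;>
      simp [AlgEquiv.trans_apply, ιa, ιu, ιv, αa, αu, αv, αb, τa, τu, τv]
  · -- the elliptic part
    intro m
    have hmem : m ∈ AddSubgroup.closure {c : Additive (ClassGroup A) | ∃ P : Ideal A, P.IsPrime ∧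
        P ≠ ⊥ ∧ c = cls P} := by
      rw [closure_cls_prime]
      exact AddSubgroup.mem_top m
    induction hmem using AddSubgroup.closure_induction with
    | mem x hx =>
      obtain ⟨Q, hQ, hQ0, rfl⟩ := hx
      exact hw3 Q hQ hQ0
    | zero => exact ⟨1, 0, by norm_num, by simp⟩
    | add x y _ _ hx hy =>
      obtain ⟨e, P, he, h⟩ := hx
      obtain ⟨e', P', he', h'⟩ := hy
      refine ⟨e * e', e' • P + e • P', by positivity, ?_⟩
      have h3 : (e * e') • (x + y + (Rank.T τ) (x + y)) =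
          e' • (e • (x + (Rank.T τ) x)) + e • (e' • (y + (Rank.T τ) y)) := by
        rw [smul_smul, smul_smul, mul_comm e' e, ← smul_add, map_add]
        congr 1
        abel
      have h4 : w (e' • P + e • P') = e' • w P + e • w P' := by
        rw [map_add, map_nsmul, map_nsmul]
      rw [h4, ← h, ← h']
      exact h3
    | neg x _ hx =>
      obtain ⟨e, P, he, h⟩ := hx
      refine ⟨e, -P, he, ?_⟩
      rw [map_neg, map_neg, ← h, ← smul_neg, neg_add]
  · -- the norms
    intro m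
    have hmem : m ∈ AddSubgroup.closure {c : Additive (ClassGroup A) | ∃ P : Ideal A, P.IsPrime ∧
        P ≠ ⊥ ∧ c = cls P} := by
      rw [closure_cls_prime]
      exact AddSubgroup.mem_top m
    induction hmem using AddSubgroup.closure_induction with
    | mem x hx =>
      obtain ⟨Q, hQ, hQ0, rfl⟩ := hx
      obtain ⟨e, he, h⟩ := f.norm_mem hs hi hκ α γ ⟨αa, αu, αv⟩ ⟨γa, γu, γv⟩ Q hQ hQ0
      rw [AddSubgroup.mem_closure_pair] at h
      obtain ⟨x, y, hxy⟩ := h
      refine ⟨e, x, y, he, ?_⟩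
      rw [hxy]
      simp only [AddMonoidHom.coe_coe, Rank.T_cls]
    | zero => exact ⟨1, 0, 0, by norm_num, by simp⟩
    | add x y _ _ hx hy =>
      obtain ⟨e, x1, y1, he, h⟩ := hx
      obtain ⟨e', x2, y2, he', h'⟩ := hy
      refine ⟨e * e', e' * x1 + e * x2, e' * y1 + e * y2, by positivity, ?_⟩
      have h3 : (e * e') • (x + y + (Rank.T α : Additive (ClassGroup A) →+ _) (x + y) +
          (Rank.T γ : Additive (ClassGroup A) →+ _) (x + y) +
          (Rank.T α : Additive (ClassGroup A) →+ _)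
            ((Rank.T γ : Additive (ClassGroup A) →+ _) (x + y))) =
          e' • (e • (x + (Rank.T α : Additive (ClassGroup A) →+ _) x +
            (Rank.T γ : Additive (ClassGroup A) →+ _) x +
            (Rank.T α : Additive (ClassGroup A) →+ _)
              ((Rank.T γ : Additive (ClassGroup A) →+ _) x))) +
          e • (e' • (y + (Rank.T α : Additive (ClassGroup A) →+ _) y +
            (Rank.T γ : Additive (ClassGroup A) →+ _) y +
            (Rank.T α : Additive (ClassGroup A) →+ _)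
              ((Rank.T γ : Additive (ClassGroup A) →+ _) y))) := by
        rw [smul_smul, smul_smul, mul_comm e' e, ← smul_add]
        congr 1
        simp only [map_add]
        abel
      rw [h3, h, h']
      simp only [add_smul, mul_smul, natCast_zsmul, smul_add]
      abel
    | neg x _ hx =>
      obtain ⟨e, x1, y1, he, h⟩ := hx
      refine ⟨e, -x1, -y1, he, ?_⟩
      rw [neg_smul, neg_smul, ← neg_add, ← h, ← smul_neg]
      congr 1
      simp only [map_neg]
      abel

end PicJump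

end
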