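import Pool.Agent.Lib_helper43.PJ.D
import Pool.Agent.Lib_helper43.PJ.W_LinesD
import Pool.Agent.Lib_helper43.PJ.W_Rank
import Pool.Agent.Lib_helper43.PJ.W_FibEx
import Pool.Agent.Lib_helper43.PJ.W_SmoothC
import Pool.Agent.Lib_helper43.PJ.W_Surf0

/-!
BLOCK FormA of MP_f6fc0c_ag.
-/

noncomputable section

namespace PicJump

open MvPolynomial

variable {k : Type} [Field k] [IsAlgClosed k] [CharZero k]

theorem rho_IX (s : k) (hs : s ^ 2 ≠ 4) : rho (IX s) = 18 + Module.rank ℤ (EP s) := by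
  obtain ⟨A, _, _, _, _, ⟨f⟩⟩ := exists_fib k s
  have h1 : rho (IX s) = Module.rank ℤ (Cl (IX s)) :=
    smooth_rho (Phi_homog s) (by norm_num) (IX_prime s hs) (Phi_ne_zero s) (Phi_smooth s hs)
  rw [h1, rank_Cl_IX f hs, Fib.rank_classGroup f hs, ← add_assoc]
  norm_num

end PicJump

end
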