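import Pool.Agent.Lib_helper43.PJ.D

/-!
BLOCK SpecD of MP_f6fc0c_ag.
BLOCKS SPEC (special parameters: the curve has a point of infinite order).
-/

noncomputable section

namespace PicJump

open Polynomial

variable {k : Type} [Field k] [IsAlgClosed k] [CharZero k]

/-- SPEC-D (used for the second part of the theorem). Extension of the field of constants. -/
theorem rank_mono {k' : Type} [Field k'] [IsAlgClosed k'] [CharZero k'] (g : k →+* k') (s : k) :
    Module.rank ℤ (EP s) ≤ Module.rank ℤ (EP (g s)) := by
  classical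
  let γ : Polynomial k →+* RatFunc k' :=
    (algebraMap (Polynomial k') (RatFunc k')).comp (Polynomial.mapRingHom g)
  have hγ : Function.Injective γ :=
    (IsFractionRing.injective (Polynomial k') (RatFunc k')).comp
      (Polynomial.map_injective g g.injective)
  let Γ : RatFunc k →+* RatFunc k' := IsFractionRing.lift hγ
  have hΓ : ∀ p : Polynomial k, Γ (algebraMap _ _ p) = algebraMap _ _ (p.map g) := fun p =>
    IsFractionRing.lift_algebraMap hγ p
  have hF : Γ (Fr s) = Fr (g s) := by
    unfold Fr
    rw [hΓ]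
    simp [Fp]
  let _ : Algebra (RatFunc k) (RatFunc k') := Γ.toAlgebra
  have e1 : (Wc s).baseChange (RatFunc k) = Wc s := by
    ext <;> simp [WeierstrassCurve.baseChange]
  have e2 : (Wc s).baseChange (RatFunc k') = Wc (g s) := by
    have h0 : algebraMap (RatFunc k) (RatFunc k') = Γ := rfl
    have h4 : Γ 4 = 4 := map_ofNat Γ 4
    ext <;> simp [WeierstrassCurve.baseChange, Wc, h0, hF, h4]
  have h1 : ∀ W₁ W₂ : WeierstrassCurve.Affine (RatFunc k), W₁ = W₂ →
      Module.rank ℤ W₁.Point = Module.rank ℤ W₂.Point := by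
    rintro W₁ _ rfl; rfl
  have h2 : ∀ W₁ W₂ : WeierstrassCurve.Affine (RatFunc k'), W₁ = W₂ →
      Module.rank ℤ W₁.Point = Module.rank ℤ W₂.Point := by
    rintro W₁ _ rfl; rfl
  have e1' := h1 _ _ e1
  have e2' := h2 _ _ e2
  show Module.rank ℤ (Wc s).Point ≤ Module.rank ℤ (Wc (g s)).Point
  rw [← e1', ← e2']
  have hinj := WeierstrassCurve.Affine.Point.map_injective (W' := Wc s)
    (Algebra.ofId (RatFunc k) (RatFunc k'))
  exact LinearMap.rank_le_of_injective
    (WeierstrassCurve.Affine.Point.map (W' := Wc s)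
      (Algebra.ofId (RatFunc k) (RatFunc k'))).toIntLinearMap hinj

end PicJump

end
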