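import Pool.Agent.Lib_helper43.PJ.D
import Pool.Agent.Lib_helper43.PJ.W_DiagA
import Pool.Agent.Lib_helper43.PJ.W_DiagB
import Pool.Agent.Lib_helper43.PJ.W_FormA
import Pool.Agent.Lib_helper43.PJ.W_SpecD

/-!
BLOCK DiagC of MP_f6fc0c_ag.
-/

noncomputable section

namespace PicJump

open MvPolynomial

variable {k : Type} [Field k] [IsAlgClosed k] [CharZero k]

theorem diagC_member {K : Type} [Field K] (b a : Fin 4 → K) (l m : K) :
    C l * Diag b + C m * Diag a = Diag (fun i => l * b i + m * a i) := by
  simp only [Diag, Finset.mul_sum, ← Finset.sum_add_distrib, map_add, map_mul]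
  refine Finset.sum_congr rfl fun i _ => ?_
  ring

/-- DIAG-C. -/
theorem gamma_diag (a : Fin 4 → k) (ha : Function.Injective a) :
    Gamma (Diag (fun _ => (1 : k))) (Diag a) = ⊥ := by
  have h18 : (18 : Cardinal.{0}) ≤ rhoGen (Diag (fun _ => (1 : k))) (Diag a) ∧
      rho (IX (0 : k)) ≤ rhoGen (Diag (fun _ => (1 : k))) (Diag a) := by
    let g : k →+* GenField k := algebraMap k (GenField k)
    let T : GenField k := algebraMap (RatFunc k) (GenField k) RatFunc.X
    have hTne : ∀ c : k, T ≠ g c := by
      intro c hc
      have h1 : algebraMap (RatFunc k) (GenField k) RatFunc.X =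
          algebraMap (RatFunc k) (GenField k) (RatFunc.C c) := hc
      have h2 := (algebraMap (RatFunc k) (GenField k)).injective h1
      have h3 := congrArg RatFunc.num h2
      rw [RatFunc.num_X, RatFunc.num_C] at h3
      exact Polynomial.X_ne_C c h3
    have e1 : (Diag (fun _ => (1 : k))).map g = Diag (fun _ => (1 : GenField k)) := by
      simp [Diag]
    have e2 : (Diag a).map g = Diag (fun i => g (a i)) := by
      simp [Diag]
    have e3 : rhoGen (Diag (fun _ => (1 : k))) (Diag a) = rho (IX (0 : GenField k)) := by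
      rw [rhoGen]
      change rho (member ((Diag (fun _ => (1 : k))).map g) ((Diag a).map g) 1 T) = _
      rw [e1, e2, member, diagC_member]
      apply rho_diag
      intro i h0
      simp only [one_mul, mul_one] at h0
      by_cases hai : a i = 0
      · rw [hai, map_zero, mul_zero, add_zero] at h0
        exact one_ne_zero h0
      · apply hTne (-(a i)⁻¹)
        rw [map_neg, map_inv₀]
        have : g (a i) ≠ 0 := (map_ne_zero g).mpr hai
        field_simp
        linear_combination h0
    have h4 : (0 : GenField k) ^ 2 ≠ 4 := by norm_num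
    have h4' : (0 : k) ^ 2 ≠ 4 := by norm_num
    rw [e3, rho_IX _ h4, rho_IX _ h4']
    refine ⟨le_self_add, ?_⟩
    have := rank_mono g (0 : k)
    rw [map_zero] at this
    gcongr
  rw [Gamma, AddSubgroup.closure_eq_bot_iff]
  rintro c ⟨l, m, hlm, hjump, -⟩
  exfalso
  rw [member, diagC_member] at hjump
  by_cases hall : ∀ i, l * 1 + m * a i ≠ 0
  · rw [rho_diag _ hall] at hjump
    exact absurd hjump (not_lt.mpr h18.2)
  · push Not at hall
    obtain ⟨i, hi⟩ := hall
    have h1 := rho_cone_le (fun i => l * 1 + m * a i) i hi (by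
      intro j hj h0
      have hm : m * (a j - a i) = 0 := by linear_combination h0 - hi
      rcases mul_eq_zero.mp hm with h | h
      · rw [h, zero_mul, add_zero, mul_one] at hi
        rcases hlm with h' | h'
        · exact h' hi
        · exact h' h
      · exact hj (ha (sub_eq_zero.mp h)))
    have h2 : (18 : Cardinal.{0}) < 1 := lt_of_le_of_lt h18.1 (lt_of_lt_of_le hjump h1)
    have h3 : ((18 : ℕ) : Cardinal.{0}) < ((1 : ℕ) : Cardinal.{0}) := by exact_mod_cast h2
    rw [Nat.cast_lt] at h3
    omega

end PicJump

end
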