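import Pool.Agent.Lib_helper43.PJ.D
import Pool.Agent.Lib_helper43.PJ.W_TransA
import Pool.Agent.Lib_helper43.PJ.W_TransB
import Pool.Agent.Lib_helper43.PJ.W_Surf0
import Pool.Agent.Lib_helper43.PJ.Scale

/-!
BLOCK FormB of MP_f6fc0c_ag.
-/

noncomputable section

namespace PicJump

open MvPolynomial

variable {k : Type} [Field k] [IsAlgClosed k] [CharZero k]

/-- the scaling which transforms the member `t` into `X_s` -/
theorem formB_scale (c₀ c₁ t s : k) (ht : t ≠ 0) (ht1 : 1 + t ≠ 0)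
    (hst : s * (1 + t) = c₀ + t * c₁) :
    ∃ c : Fin 4 → k, (∀ i, c i ≠ 0) ∧
      scaleHom c (C 1 * G0 c₀ + C t * G1 c₁) = C (1 + t) * Phi s := by
  obtain ⟨μ, hμ⟩ := IsAlgClosed.exists_pow_nat_eq (1 + t) (n := 4) (by norm_num)
  obtain ⟨ν, hν⟩ := IsAlgClosed.exists_pow_nat_eq ((1 + t) / t) (n := 4) (by norm_num)
  have hμ0 : μ ≠ 0 := by
    rintro rfl
    rw [zero_pow (by norm_num)] at hμ
    exact ht1 hμ.symm
  have hν0 : ν ≠ 0 := by
    rintro rfl
    rw [zero_pow (by norm_num)] at hν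
    exact (div_ne_zero ht1 ht) hν.symm
  refine ⟨![1, 1, μ, ν], ?_, ?_⟩
  · intro i
    fin_cases i <;> simp [hμ0, hν0]
  · have hC : ∀ r : k, scaleHom ![1, 1, μ, ν] (C r) = C r := by
      intro r
      rw [← MvPolynomial.algebraMap_eq, AlgHom.commutes]
    have h0 : scaleHom ![1, 1, μ, ν] (X 0) = X 0 := by rw [scaleHom_X]; simp
    have h1 : scaleHom ![1, 1, μ, ν] (X 1) = X 1 := by rw [scaleHom_X]; simp
    have h2 : scaleHom ![1, 1, μ, ν] (X 2) = C μ * X 2 := by rw [scaleHom_X]; simp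
    have h3 : scaleHom ![1, 1, μ, ν] (X 3) = C ν * X 3 := by rw [scaleHom_X]; simp
    have e4 : (C (1 + t) : Pol k) = 1 + C t := by rw [C_add, C_1]
    have e1 : (C μ : Pol k) ^ 4 = 1 + C t := by rw [← C_pow, hμ, e4]
    have e2 : (C t : Pol k) * C ν ^ 4 = 1 + C t := by
      rw [← C_pow, hν, ← C_mul, ← e4]
      congr 1
      field_simp
    have e3 : (C s : Pol k) * (1 + C t) = C c₀ + C t * C c₁ := by
      rw [← e4, ← C_mul, hst, C_add, C_mul]
    simp only [G0, G1, Phi, map_add, map_sub, map_mul, map_pow, hC, h0, h1, h2, h3, mul_pow]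
    rw [C_1]
    linear_combination (-(X 2) ^ 4) * e1 - X 3 ^ 4 * e2 - X 0 ^ 2 * X 1 ^ 2 * e3

/-- FORMULA-B. For `t <> 0, -1`, the member `G0 c0 + t G1 c1` is `X_s` after rescaling `z` and `w`,
`s = (c0 + t c1)/(1 + t)`. -/
theorem rho_member (c₀ c₁ t s : k) (ht : t ≠ 0) (ht1 : 1 + t ≠ 0) (hst : s * (1 + t) = c₀ + t * c₁) :
    rho (member (G0 c₀) (G1 c₁) 1 t) = rho (IX s) := by
  obtain ⟨c, hc, h⟩ := formB_scale c₀ c₁ t s ht ht1 hst
  exact (rho_scale c hc _ (Phi s) (1 + t) ht1 h).symm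

theorem formB_eval (c₀ c₁ t s : k) (hst : s * (1 + t) = c₀ + t * c₁) :
    (C 1 * G0 c₀ + C t * G1 c₁ : Pol k) =
      C (1 + t) * (X 0 ^ 4 + C s * X 0 ^ 2 * X 1 ^ 2 + X 1 ^ 4) - X 2 ^ 4 - C t * X 3 ^ 4 := by
  have e3 : (C s : Pol k) * C (1 + t) = C c₀ + C t * C c₁ := by
    rw [← C_mul, hst, C_add, C_mul]
  have e4 : (C (1 + t) : Pol k) = 1 + C t := by rw [C_add, C_1]
  simp only [G0, G1]
  rw [C_1]
  linear_combination (-(X 0 ^ 2 * X 1 ^ 2)) * e3 - (X 0 ^ 4 + X 1 ^ 4) * e4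

/-- a squarefree binary quartic -/
theorem formB_binary {s x y : k} (hs : s ^ 2 ≠ 4) (h1 : 4 * x ^ 3 + 2 * s * x * y ^ 2 = 0)
    (h2 : 2 * s * x ^ 2 * y + 4 * y ^ 3 = 0) : x = 0 ∧ y = 0 := by
  have h2' : (2 : k) ≠ 0 := two_ne_zero
  by_cases hx : x = 0
  · subst hx
    refine ⟨rfl, ?_⟩
    have h3 : y ^ 3 * 4 = 0 := by linear_combination h2
    have h4 := (mul_eq_zero.mp h3).resolve_right (by norm_num)
    exact pow_eq_zero_iff (by norm_num) |>.mp h4
  exfalso
  by_cases hy : y = 0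
  · subst hy
    have h3 : x ^ 3 * 4 = 0 := by linear_combination h1
    have h4 := (mul_eq_zero.mp h3).resolve_right (by norm_num)
    exact hx (pow_eq_zero_iff (by norm_num) |>.mp h4)
  have e1 : 2 * x ^ 2 = -s * y ^ 2 := by
    have : 2 * x * (2 * x ^ 2 + s * y ^ 2) = 0 := by linear_combination h1
    have := (mul_eq_zero.mp this).resolve_left (mul_ne_zero h2' hx)
    linear_combination this
  have e2 : s * x ^ 2 = -2 * y ^ 2 := by
    have : 2 * y * (s * x ^ 2 + 2 * y ^ 2) = 0 := by linear_combination h2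
    have := (mul_eq_zero.mp this).resolve_left (mul_ne_zero h2' hy)
    linear_combination this
  apply hs
  have : (s ^ 2 - 4) * y ^ 2 = 0 := by linear_combination s * e1 - 2 * e2
  have := (mul_eq_zero.mp this).resolve_right (pow_ne_zero 2 hy)
  linear_combination this

theorem formB_pderiv (b s t : k) (v : Fin 4 → k) :
    (eval v (pderiv 0 (C b * (X 0 ^ 4 + C s * X 0 ^ 2 * X 1 ^ 2 + X 1 ^ 4) - X 2 ^ 4 - C t * X 3 ^ 4
      : Pol k)) = b * (4 * v 0 ^ 3 + 2 * s * v 0 * v 1 ^ 2)) ∧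
    (eval v (pderiv 1 (C b * (X 0 ^ 4 + C s * X 0 ^ 2 * X 1 ^ 2 + X 1 ^ 4) - X 2 ^ 4 - C t * X 3 ^ 4
      : Pol k)) = b * (2 * s * v 0 ^ 2 * v 1 + 4 * v 1 ^ 3)) ∧
    (eval v (pderiv 2 (C b * (X 0 ^ 4 + C s * X 0 ^ 2 * X 1 ^ 2 + X 1 ^ 4) - X 2 ^ 4 - C t * X 3 ^ 4
      : Pol k)) = -4 * v 2 ^ 3) ∧
    (eval v (pderiv 3 (C b * (X 0 ^ 4 + C s * X 0 ^ 2 * X 1 ^ 2 + X 1 ^ 4) - X 2 ^ 4 - C t * X 3 ^ 4
      : Pol k)) = -4 * t * v 3 ^ 3) := by
  refine ⟨?_, ?_, ?_, ?_⟩ <;>
  · simp [Derivation.leibniz, Derivation.leibniz_pow, pderiv_X]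
    first | done | ring1 | (left; ring1)

theorem member_prime_smooth (c₀ c₁ t s : k) (ht : t ≠ 0) (ht1 : 1 + t ≠ 0)
    (hst : s * (1 + t) = c₀ + t * c₁) (hs : s ^ 2 ≠ 4) :
    (member (G0 c₀) (G1 c₁) 1 t).IsPrime ∧ SmoothSurface (C 1 * G0 c₀ + C t * G1 c₁) := by
  constructor
  · obtain ⟨c, hc, h⟩ := formB_scale c₀ c₁ t s ht ht1 hst
    have hp := IX_prime s hs
    have h1 : member (G0 c₀) (G1 c₁) 1 t = (IX s).comap (scaleEquiv c hc : Pol k →+* Pol k) := by
      have h2 : (member (G0 c₀) (G1 c₁) 1 t).map (scaleEquiv c hc : Pol k →+* Pol k) = IX s := by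
        rw [member, Ideal.map_span, Set.image_singleton]
        have h4 : ((scaleEquiv c hc : Pol k ≃ₐ[k] Pol k) : Pol k →+* Pol k)
          (C 1 * G0 c₀ + C t * G1 c₁) = scaleHom c (C 1 * G0 c₀ + C t * G1 c₁) := rfl
        rw [h4, h, Ideal.span_singleton_mul_left_unit, IX]
        exact (isUnit_iff_ne_zero.mpr ht1).map C
      rw [← h2]
      exact (Ideal.comap_map_of_bijective _ (scaleEquiv c hc).bijective).symm
    rw [h1]
    exact Ideal.comap_isPrime _ _
  · rw [formB_eval c₀ c₁ t s hst]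
    obtain hder := fun v => formB_pderiv (1 + t) s t v
    intro v hv _
    by_contra hcon
    push Not at hcon
    obtain ⟨h0, h1, h2, h3⟩ := hder v
    rw [hcon 0] at h0
    rw [hcon 1] at h1
    rw [hcon 2] at h2
    rw [hcon 3] at h3
    have g0 := (mul_eq_zero.mp h0.symm).resolve_left ht1
    have g1 := (mul_eq_zero.mp h1.symm).resolve_left ht1
    obtain ⟨hx, hy⟩ := formB_binary hs g0 g1
    have hz : v 2 = 0 := by
      have := (mul_eq_zero.mp h2.symm).resolve_left (by norm_num)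
      exact pow_eq_zero_iff (by norm_num) |>.mp this
    have hw : v 3 = 0 := by
      have := (mul_eq_zero.mp h3.symm).resolve_left (mul_ne_zero (by norm_num) ht)
      exact pow_eq_zero_iff (by norm_num) |>.mp this
    apply hv
    ext i
    fin_cases i
    · exact hx
    · exact hy
    · exact hz
    · exact hw

theorem formB_pderivG0 (c : k) (v : Fin 4 → k) :
    (fun i => eval v (pderiv i (G0 c))) =
      ![4 * v 0 ^ 3 + 2 * c * v 0 * v 1 ^ 2, 2 * c * v 0 ^ 2 * v 1 + 4 * v 1 ^ 3,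
        -4 * v 2 ^ 3, 0] := by
  ext i
  fin_cases i <;>
  · simp [G0, Derivation.leibniz, Derivation.leibniz_pow, pderiv_X]
    try ring

theorem formB_pderivG1 (c : k) (v : Fin 4 → k) :
    (fun i => eval v (pderiv i (G1 c))) =
      ![4 * v 0 ^ 3 + 2 * c * v 0 * v 1 ^ 2, 2 * c * v 0 ^ 2 * v 1 + 4 * v 1 ^ 3,
        0, -4 * v 3 ^ 3] := by
  ext i
  fin_cases i <;>
  · simp [G1, Derivation.leibniz, Derivation.leibniz_pow, pderiv_X]
    try ring

theorem formB_hom_aux (c : k) (i : Fin 4) :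
    (X 0 ^ 4 + C c * X 0 ^ 2 * X 1 ^ 2 + X 1 ^ 4 - X i ^ 4 : Pol k).IsHomogeneous 4 := by
  have hX : ∀ (i : Fin 4), (X i ^ 4 : Pol k).IsHomogeneous 4 := fun i => by
    simpa using (isHomogeneous_X k i).pow 4
  have hm : (C c * X 0 ^ 2 * X 1 ^ 2 : Pol k).IsHomogeneous 4 := by
    simpa using ((isHomogeneous_C (Fin 4) c).mul ((isHomogeneous_X k 0).pow 2)).mul
      ((isHomogeneous_X k 1).pow 2)
  exact (((hX 0).add hm).add (hX 1)).sub (hX i)

theorem admissible_G (c₀ c₁ : k) (h : c₀ ≠ c₁) (h0 : c₀ ^ 2 ≠ 4) (h1 : c₁ ^ 2 ≠ 4) :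
    Admissible (G0 c₀) (G1 c₁) := by
  refine ⟨formB_hom_aux c₀ 2, formB_hom_aux c₁ 3, ?_, ?_⟩
  · intro v hv e0 e1
    rw [formB_pderivG0, formB_pderivG1, LinearIndependent.pair_iff]
    intro a b hab
    have a0 := congrFun hab 0
    have a1 := congrFun hab 1
    have a2 := congrFun hab 2
    have a3 := congrFun hab 3
    simp at a0 a1 a2 a3
    have E0 : v 0 ^ 4 + c₀ * v 0 ^ 2 * v 1 ^ 2 + v 1 ^ 4 - v 2 ^ 4 = 0 := by
      simpa [G0] using e0
    have E1 : v 0 ^ 4 + c₁ * v 0 ^ 2 * v 1 ^ 2 + v 1 ^ 4 - v 3 ^ 4 = 0 := by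
      simpa [G1] using e1
    -- not both coordinates vanish
    have hxy : ¬ (v 0 = 0 ∧ v 1 = 0) := by
      rintro ⟨hx, hy⟩
      apply hv
      have hz : v 2 = 0 := by
        rw [hx, hy] at E0
        have : v 2 ^ 4 = 0 := by linear_combination -E0
        exact pow_eq_zero_iff (by norm_num) |>.mp this
      have hw : v 3 = 0 := by
        rw [hx, hy] at E1
        have : v 3 ^ 4 = 0 := by linear_combination -E1
        exact pow_eq_zero_iff (by norm_num) |>.mp this
      ext i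
      fin_cases i
      · exact hx
      · exact hy
      · exact hz
      · exact hw
    -- not both `z` and `w` vanish
    have hzw : ¬ (v 2 = 0 ∧ v 3 = 0) := by
      rintro ⟨hz, hw⟩
      rw [hz] at E0
      rw [hw] at E1
      have h2 : (c₀ - c₁) * (v 0 ^ 2 * v 1 ^ 2) = 0 := by linear_combination E0 - E1
      have h3 := (mul_eq_zero.mp h2).resolve_left (sub_ne_zero.mpr h)
      rcases mul_eq_zero.mp h3 with h4 | h4
      · have hx : v 0 = 0 := pow_eq_zero_iff (by norm_num) |>.mp h4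
        rw [hx] at E0
        have h5 : v 1 ^ 4 = 0 := by linear_combination E0
        exact hxy ⟨hx, pow_eq_zero_iff (by norm_num) |>.mp h5⟩
      · have hy : v 1 = 0 := pow_eq_zero_iff (by norm_num) |>.mp h4
        rw [hy] at E0
        have h5 : v 0 ^ 4 = 0 := by linear_combination E0
        exact hxy ⟨pow_eq_zero_iff (by norm_num) |>.mp h5, hy⟩
    by_cases hz : v 2 = 0
    · have hw : v 3 ≠ 0 := fun hw => hzw ⟨hz, hw⟩
      have hb : b = 0 := by
        rcases a3 with h' | h'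
        · exact h'
        · exact absurd h' hw
      subst hb
      simp at a0 a1
      refine ⟨?_, rfl⟩
      rcases a0 with h' | h'
      · exact h'
      rcases a1 with h'' | h''
      · exact h''
      exact absurd (formB_binary h0 h' h'') hxy
    · have ha : a = 0 := by
        rcases a2 with h' | h'
        · exact h'
        · exact absurd h' hz
      subst ha
      refine ⟨rfl, ?_⟩
      simp at a0 a1
      rcases a0 with h' | h'
      · exact h'
      rcases a1 with h'' | h''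
      · exact h''
      exact absurd (formB_binary h1 h' h'') hxy
  · -- a smooth member
    let bad : Polynomial k := Polynomial.X * (1 + Polynomial.X) *
      ((Polynomial.C c₀ + Polynomial.X * Polynomial.C c₁) ^ 2 -
        4 * (1 + Polynomial.X) ^ 2)
    have hbad : bad ≠ 0 := by
      intro hb
      rcases mul_eq_zero.mp hb with hb | hb
      · rcases mul_eq_zero.mp hb with hb | hb
        · exact Polynomial.X_ne_zero hb
        · have := congrArg (Polynomial.eval 0) hb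
          simp at this
      · have := congrArg (Polynomial.eval 0) hb
        simp at this
        exact h0 (by linear_combination this)
    obtain ⟨t, ht⟩ : ∃ t, bad.eval t ≠ 0 := by
      by_contra hcon
      push Not at hcon
      exact hbad (Polynomial.funext (fun x => by simpa using hcon x))
    simp only [bad, Polynomial.eval_mul, Polynomial.eval_X, Polynomial.eval_add,
      Polynomial.eval_one, Polynomial.eval_sub, Polynomial.eval_pow, Polynomial.eval_C,
      Polynomial.eval_ofNat] at ht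
    have ht0 : t ≠ 0 := fun h => ht (by rw [h]; ring)
    have ht1 : 1 + t ≠ 0 := fun h => ht (by rw [h]; ring)
    obtain ⟨s, hs⟩ : ∃ s : k, s = (c₀ + t * c₁) / (1 + t) := ⟨_, rfl⟩
    have hst : s * (1 + t) = c₀ + t * c₁ := by rw [hs]; field_simp
    have hs4 : s ^ 2 ≠ 4 := by
      intro h4
      apply ht
      rw [← hst]
      have : (s * (1 + t)) ^ 2 - 4 * (1 + t) ^ 2 = 0 := by linear_combination (1 + t) ^ 2 * h4
      rw [this, mul_zero]
    exact ⟨1, t, (member_prime_smooth c₀ c₁ t s ht0 ht1 hst hs4).2⟩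

end PicJump

end
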