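import Pool.Agent.Lib_helper43.PJ.D

/-!
BLOCK GenA of MP_f6fc0c_ag.
BLOCKS GEN (no nonconstant points when `s` moves).
-/

noncomputable section

namespace PicJump

open Polynomial

variable {k : Type} [Field k] [IsAlgClosed k] [CharZero k]

theorem genA_dvd {k : Type} [Field k] [CharZero k] {F P Q Z : k[X]}
    (hPQ : IsCoprime P Q) (h : P * Q * (P ^ 2 + Q ^ 2) = C 2 * F * Z ^ 2) :
    Z ∣ wronskian P Q := by
  set W := wronskian P Q with hW
  have hWdef : W = P * derivative Q - derivative P * Q := rfl
  have h1 : Z ∣ P * Q * (P ^ 2 + Q ^ 2) := by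
    rw [h]
    exact Dvd.intro_left (C 2 * F * Z) (by ring)
  have h2 : Z ∣ derivative (P * Q * (P ^ 2 + Q ^ 2)) := by
    rw [h]
    have e : derivative (C 2 * F * Z ^ 2) =
        Z * (C 2 * derivative F * Z + C 2 * F * (2 * derivative Z)) := by
      simp only [derivative_mul, derivative_pow, derivative_C]
      simp only [Nat.cast_ofNat, map_ofNat]
      ring
    rw [e]
    exact dvd_mul_right _ _
  have hd : derivative (P * Q * (P ^ 2 + Q ^ 2)) =
      (3 * P ^ 2 * Q + Q ^ 3) * derivative P + (P ^ 3 + 3 * P * Q ^ 2) * derivative Q := by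
    simp only [derivative_mul, derivative_pow, derivative_add]
    simp only [Nat.cast_ofNat, map_ofNat]
    ring
  have h3 : Z ∣ (3 * P ^ 2 * Q + Q ^ 3) * W := by
    have e : (3 * P ^ 2 * Q + Q ^ 3) * W = 4 * derivative Q * (P * Q * (P ^ 2 + Q ^ 2)) -
        Q * derivative (P * Q * (P ^ 2 + Q ^ 2)) := by
      rw [hd, hWdef]
      ring
    rw [e]
    exact dvd_sub (Dvd.dvd.mul_left h1 _) (Dvd.dvd.mul_left h2 _)
  have h4 : Z ∣ (P ^ 3 + 3 * P * Q ^ 2) * W := by
    have e : (P ^ 3 + 3 * P * Q ^ 2) * W = P * derivative (P * Q * (P ^ 2 + Q ^ 2)) -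
        4 * derivative P * (P * Q * (P ^ 2 + Q ^ 2)) := by
      rw [hd, hWdef]
      ring
    rw [e]
    exact dvd_sub (Dvd.dvd.mul_left h2 _) (Dvd.dvd.mul_left h1 _)
  have h5 : Z ∣ P ^ 5 * (8 * W) := by
    have e : P ^ 5 * (8 * W) = (8 * P ^ 2 + 3 * Q ^ 2) * ((P ^ 3 + 3 * P * Q ^ 2) * W) -
        9 * P * Q * ((3 * P ^ 2 * Q + Q ^ 3) * W) := by ring
    rw [e]
    exact dvd_sub (Dvd.dvd.mul_left h4 _) (Dvd.dvd.mul_left h3 _)
  have h6 : Z ∣ Q ^ 5 * (8 * W) := by
    have e : Q ^ 5 * (8 * W) = (8 * Q ^ 2 + 3 * P ^ 2) * ((3 * P ^ 2 * Q + Q ^ 3) * W) -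
        9 * P * Q * ((P ^ 3 + 3 * P * Q ^ 2) * W) := by ring
    rw [e]
    exact dvd_sub (Dvd.dvd.mul_left h3 _) (Dvd.dvd.mul_left h4 _)
  have h7 : Z ∣ 8 * W := by
    obtain ⟨a, b, hab⟩ := (hPQ.pow (m := 5) (n := 5))
    have e : 8 * W = a * (P ^ 5 * (8 * W)) + b * (Q ^ 5 * (8 * W)) := by
      linear_combination (-(8 * W)) * hab
    rw [e]
    exact dvd_add (Dvd.dvd.mul_left h5 _) (Dvd.dvd.mul_left h6 _)
  have h8 : W = C (8⁻¹ : k) * (8 * W) := by
    have e : (C (8⁻¹ : k) * 8 : k[X]) = 1 := by
      have : (8 : k[X]) = C (8 : k) := (map_ofNat C 8).symm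
      rw [this, ← C_mul, inv_mul_cancel₀ (by norm_num), C_1]
    rw [← mul_assoc, e, one_mul]
  rw [h8]
  exact Dvd.dvd.mul_left h7 _

theorem genA_wr_left {k : Type} [Field k] (P Q : k[X]) (c : k) :
    wronskian (P + C c * Q) Q = wronskian P Q := by
  simp only [wronskian, derivative_add, derivative_mul, derivative_C]
  ring

theorem genA_wr_right {k : Type} [Field k] (P Q : k[X]) (c : k) :
    wronskian (P + C c * Q) P = - (C c * wronskian P Q) := by
  simp only [wronskian, derivative_add, derivative_mul, derivative_C]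
  ring

theorem genA_natDegree {k : Type} [Field k] [IsAlgClosed k] [CharZero k] {F P Q Z : k[X]}
    (hF : F.natDegree = 4) (h : P * Q * (P ^ 2 + Q ^ 2) = C 2 * F * Z ^ 2) (hZ : Z ≠ 0)
    (hW : wronskian P Q ≠ 0) : (wronskian P Q).natDegree ≤ Z.natDegree := by
  obtain ⟨i, hi⟩ := IsAlgClosed.exists_pow_nat_eq (-1 : k) (n := 2) (by norm_num)
  have hi0 : i ≠ 0 := by
    rintro rfl
    norm_num at hi
  have hF0 : F ≠ 0 := by
    rintro rfl
    simp at hF
  set U := P + C i * Q with hU
  set V := P + C (-i) * Q with hV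
  have hUV : P ^ 2 + Q ^ 2 = U * V := by
    rw [hU, hV]
    have e : (C i : k[X]) ^ 2 = -1 := by rw [← C_pow, hi]; simp
    rw [C_neg]
    linear_combination (Q ^ 2) * e
  have hne : P * Q * (U * V) ≠ 0 := by
    rw [← hUV, h]
    exact mul_ne_zero (mul_ne_zero (by simp) hF0) (pow_ne_zero _ hZ)
  have hP0 : P ≠ 0 := by rintro e; apply hne; rw [e]; ring
  have hQ0 : Q ≠ 0 := by rintro e; apply hne; rw [e]; ring
  have hU0 : U ≠ 0 := by rintro e; apply hne; rw [e]; ring
  have hV0 : V ≠ 0 := by rintro e; apply hne; rw [e]; ring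
  have hdeg : P.natDegree + Q.natDegree + (U.natDegree + V.natDegree) = 4 + 2 * Z.natDegree := by
    have e := congrArg natDegree h
    rw [hUV, natDegree_mul (mul_ne_zero hP0 hQ0) (mul_ne_zero hU0 hV0), natDegree_mul hP0 hQ0,
      natDegree_mul hU0 hV0, natDegree_mul (mul_ne_zero (by simp) hF0) (pow_ne_zero _ hZ),
      natDegree_mul (by simp) hF0, natDegree_C, natDegree_pow, hF] at e
    omega
  have hcQ : ∀ c : k, c ≠ 0 → (C c * Q).natDegree = Q.natDegree := fun c hc =>
    natDegree_C_mul hc
  have hni : -i ≠ 0 := neg_ne_zero.2 hi0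
  -- bounds of the Wronskian
  have b1 := natDegree_wronskian_lt_add hW
  have b2 : (wronskian P Q).natDegree < U.natDegree + Q.natDegree := by
    have e := genA_wr_left P Q i
    rw [← hU] at e
    rw [← e]
    exact natDegree_wronskian_lt_add (by rw [e]; exact hW)
  have b3 : (wronskian P Q).natDegree < V.natDegree + Q.natDegree := by
    have e := genA_wr_left P Q (-i)
    rw [← hV] at e
    rw [← e]
    exact natDegree_wronskian_lt_add (by rw [e]; exact hW)
  -- degrees of U and V
  rcases lt_trichotomy P.natDegree Q.natDegree with hlt | heq | hgt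
  · have u1 : U.natDegree = Q.natDegree := by
      rw [hU, natDegree_add_eq_right_of_natDegree_lt (by rw [hcQ i hi0]; exact hlt), hcQ i hi0]
    have v1 : V.natDegree = Q.natDegree := by
      rw [hV, natDegree_add_eq_right_of_natDegree_lt (by rw [hcQ _ hni]; exact hlt), hcQ _ hni]
    omega
  · -- equal degrees
    have hU1 : U.natDegree ≤ Q.natDegree := by
      rw [hU]
      refine (natDegree_add_le _ _).trans ?_
      rw [hcQ i hi0, heq, max_self]
    have hV1 : V.natDegree ≤ Q.natDegree := by
      rw [hV]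
      refine (natDegree_add_le _ _).trans ?_
      rw [hcQ _ hni, heq, max_self]
    rcases hU1.lt_or_eq with hu | hu
    · have hv : V.natDegree = Q.natDegree := by
        have e : V = U + C (-(2 * i)) * Q := by
          rw [hU, hV]
          simp only [map_neg, map_mul, map_ofNat]
          ring
        have h2i : -(2 * i) ≠ 0 := neg_ne_zero.2 (mul_ne_zero (by norm_num) hi0)
        rw [e, natDegree_add_eq_right_of_natDegree_lt (by rw [hcQ _ h2i]; exact hu), hcQ _ h2i]
      omega
    · rcases hV1.lt_or_eq with hv | hv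
      · omega
      · -- all four of the same degree
        have hn : 0 < Q.natDegree := by omega
        set c : k := -(P.leadingCoeff / Q.leadingCoeff) with hc
        have hcne : c ≠ 0 := by
          rw [hc]
          exact neg_ne_zero.2 (div_ne_zero (leadingCoeff_ne_zero.2 hP0)
            (leadingCoeff_ne_zero.2 hQ0))
        have hlt : (P + C c * Q).natDegree < Q.natDegree := by
          have hle : (P + C c * Q).natDegree ≤ Q.natDegree := by
            refine (natDegree_add_le _ _).trans ?_
            rw [hcQ c hcne, heq, max_self]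
          rcases hle.lt_or_eq with hl | hl
          · exact hl
          · exfalso
            have hco : (P + C c * Q).coeff Q.natDegree = 0 := by
              rw [coeff_add, coeff_C_mul, ← heq, coeff_natDegree, heq, coeff_natDegree, hc]
              have := leadingCoeff_ne_zero.2 hQ0
              field_simp
              ring
            rw [← hl, coeff_natDegree, leadingCoeff_eq_zero] at hco
            rw [hco, natDegree_zero] at hl
            omega
        have b4 : (wronskian P Q).natDegree < (P + C c * Q).natDegree + Q.natDegree := by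
          rw [← genA_wr_left P Q c]
          exact natDegree_wronskian_lt_add (by rw [genA_wr_left]; exact hW)
        omega
  · have u1 : U.natDegree = P.natDegree := by
      rw [hU, natDegree_add_eq_left_of_natDegree_lt (by rw [hcQ i hi0]; exact hgt)]
    have v1 : V.natDegree = P.natDegree := by
      rw [hV, natDegree_add_eq_left_of_natDegree_lt (by rw [hcQ _ hni]; exact hgt)]
    omega

/-- GEN-A. If `P, Q` are coprime, `P Q (P^2 + Q^2) = 2 F Z^2` with `F` squarefree of degree 4, then
`P' Q - P Q' = c Z` with a constant `c`.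
Proof: `P, Q, P + iQ, P - iQ` are pairwise coprime; a root of `Z` of multiplicity `e` is a root of
multiplicity `>= 2e` of exactly one of them, so of multiplicity `>= 2e - 1 >= e` of the Wronskian:
so `P'Q - PQ' = c Z`, `c` a polynomial.  Degrees: let `n` = max of the degrees of `P, Q`.  If
`P Q (P^2+Q^2)` has degree `4n`, `deg Z = 2n-2` and the Wronskian has degree at most `2n-2`.
Otherwise exactly one of the four factors has degree `n - e`, `e >= 1`, `4 + 2 deg Z = 4n - e`, `e` is
even, `e >= 2`, and the Wronskian has degree at most `2n - e - 1 <= deg Z = 2n - 2 - e/2`. -/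
theorem wronskian_const {F P Q Z : k[X]} (hF : F.natDegree = 4) (hFs : Squarefree F)
    (hPQ : IsCoprime P Q) (h : P * Q * (P ^ 2 + Q ^ 2) = C 2 * F * Z ^ 2) (hZ : Z ≠ 0) :
    ∃ c : k, derivative P * Q - P * derivative Q = C c * Z := by
  have e : derivative P * Q - P * derivative Q = - wronskian P Q := by
    simp only [wronskian]
    ring
  by_cases hW : wronskian P Q = 0
  · exact ⟨0, by rw [e, hW]; simp⟩
  · obtain ⟨c, hc⟩ := genA_dvd hPQ h
    have h1 := genA_natDegree hF h hZ hW
    have hc0 : c ≠ 0 := by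
      rintro rfl
      rw [mul_zero] at hc
      exact hW hc
    rw [hc, natDegree_mul hZ hc0] at h1
    have h2 : c.natDegree = 0 := by omega
    rw [eq_C_of_natDegree_eq_zero h2] at hc
    refine ⟨-(c.coeff 0), ?_⟩
    rw [e, hc, C_neg]
    ring

end PicJump

end
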