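import Pool.Agent.Lib_helper43.PJ.D
import Pool.Agent.Lib_helper43.PJ.W_GenA
import Pool.Agent.Lib_helper28.PJ.Kit

/-!
BLOCK GenB of MP_f6fc0c_ag.
BLOCKS GEN (no nonconstant points when `s` moves).
-/

noncomputable section

namespace PicJump

open Polynomial

variable {k : Type} [Field k] [IsAlgClosed k] [CharZero k]

/-- GEN-B. From GEN-A: a point with nonconstant `x`-coordinate gives `X` in `k(a)` with
`2 F (X')^2 = c^2 (X^3 + X)`, `c <> 0` constant.  Here `δ = d/da`. -/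
theorem ode_of_point {s : k} (hs : s ^ 2 ≠ 4) (x y : RatFunc k)
    (hxy : y ^ 2 = x ^ 3 + 4 * Fr s ^ 2 * x)
    (hnc : ∀ c : k, x ≠ 2 * Fr s * RatFunc.C c)
    (δ : Derivation ℤ (RatFunc k) (RatFunc k)) (hδ : δ RatFunc.X = 1)
    (hδc : ∀ c : k, δ (RatFunc.C c) = 0) :
    ∃ (c : k) (X : RatFunc k), c ≠ 0 ∧ x = 2 * Fr s * X ∧
      2 * Fr s * (δ X) ^ 2 = RatFunc.C (c ^ 2) * (X ^ 3 + X) := by
  have hF0 := kit_Fr_ne_zero s
  set i : k[X] →+* RatFunc k := algebraMap k[X] (RatFunc k) with hi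
  have hinj : Function.Injective i := RatFunc.algebraMap_injective k
  have h20 : (2 : RatFunc k) ≠ 0 := by norm_num
  have h2F : 2 * Fr s ≠ 0 := mul_ne_zero h20 hF0
  set X' : RatFunc k := x / (2 * Fr s) with hX'
  have hx : x = 2 * Fr s * X' := by rw [hX']; field_simp
  have hXc : ∀ c : k, X' ≠ RatFunc.C c := by
    intro c hc
    exact hnc c (by rw [hx, hc])
  set Y : RatFunc k := y / (4 * Fr s ^ 2) with hY
  have hY2 : 2 * Fr s * Y ^ 2 = X' ^ 3 + X' := by
    rw [hY, div_pow, hxy, hx]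
    field_simp
    ring
  set P := X'.num with hP
  set Q := X'.denom with hQ
  have hQ0 : Q ≠ 0 := X'.denom_ne_zero
  have hiQ : i Q ≠ 0 := (map_ne_zero_iff _ hinj).2 hQ0
  have hPQ : X' = i P / i Q := (RatFunc.num_div_denom X').symm
  have hcop : IsCoprime P Q := RatFunc.isCoprime_num_denom X'
  set Z : RatFunc k := Y * i Q ^ 2 with hZ
  have hZ2 : i (C 2 * Fp s) * Z ^ 2 = i (P * Q * (P ^ 2 + Q ^ 2)) := by
    have e1 : i (C 2 * Fp s) = 2 * Fr s := by
      rw [map_mul]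
      have : i (C 2) = 2 := by rw [map_ofNat C 2, map_ofNat]
      rw [this]
      rfl
    rw [e1, hZ]
    have e2 : 2 * Fr s * (Y * i Q ^ 2) ^ 2 = (X' ^ 3 + X') * i Q ^ 4 := by
      rw [← hY2]; ring
    rw [e2, hPQ]
    simp only [map_mul, map_add, map_pow]
    field_simp
  have hFs : Squarefree (C 2 * Fp s) := by
    have h1 := kit_Fp_squarefree hs
    have hu : IsUnit (C (2 : k)) := (isUnit_iff_ne_zero.2 (by norm_num)).map C
    exact fun x hx => h1 x (hu.dvd_mul_left.1 hx)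
  obtain ⟨z, hz⟩ := kit_sq _ _ hFs Z hZ2
  have hpoly : P * Q * (P ^ 2 + Q ^ 2) = C 2 * Fp s * z ^ 2 := by
    apply hinj
    rw [← hZ2, hz, map_mul i (C 2 * Fp s) (z ^ 2), map_pow]
  have hY0 : Y ≠ 0 := by
    intro h0
    rw [h0] at hY2
    have h1 : X' * (X' ^ 2 + 1) = 0 := by linear_combination (-1 : RatFunc k) * hY2
    rcases mul_eq_zero.1 h1 with h2 | h2
    · exact hXc 0 (by rw [h2, map_zero])
    · obtain ⟨j, hj⟩ := IsAlgClosed.exists_pow_nat_eq (-1 : k) (n := 2) (by norm_num)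
      have hj' : (RatFunc.C j) ^ 2 = (-1 : RatFunc k) := by
        rw [← map_pow, hj, map_neg, map_one]
      have h3 : (X' - RatFunc.C j) * (X' + RatFunc.C j) = 0 := by
        linear_combination h2 - hj'
      rcases mul_eq_zero.1 h3 with h4 | h4
      · exact hXc j (sub_eq_zero.1 h4)
      · exact hXc (-j) (by rw [map_neg]; exact eq_neg_of_add_eq_zero_left h4)
  have hz0 : z ≠ 0 := by
    intro h0
    rw [h0, map_zero, hZ] at hz
    exact mul_ne_zero hY0 (pow_ne_zero _ hiQ) hz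
  obtain ⟨c, hc⟩ := wronskian_const (kit_Fp_natDegree s) (kit_Fp_squarefree hs) hcop hpoly hz0
  have hδX : δ X' = RatFunc.C c * Y := by
    have e1 : X' * i Q = i P := by rw [hPQ]; field_simp
    have e2 := congrArg δ e1
    rw [Derivation.leibniz, kit_der_poly δ hδ hδc, kit_der_poly δ hδ hδc, smul_eq_mul,
      smul_eq_mul] at e2
    have e3 : i (derivative P) * i Q - i P * i (derivative Q) = RatFunc.C c * Z := by
      rw [hz, ← RatFunc.algebraMap_C, ← map_mul, ← map_mul, ← map_sub, ← map_mul, hc]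
    have e4 : δ X' * i Q ^ 2 = RatFunc.C c * Y * i Q ^ 2 := by
      have e5 : RatFunc.C c * Z = RatFunc.C c * Y * i Q ^ 2 := by rw [hZ]; ring
      rw [← e5, ← e3]
      linear_combination (i Q) * e2 - i (derivative Q) * e1
    exact mul_right_cancel₀ (pow_ne_zero 2 hiQ) e4
  refine ⟨c, X', ?_, hx, ?_⟩
  · rintro rfl
    rw [map_zero, zero_mul] at hc
    have h1 : wronskian P Q = 0 := by
      simp only [wronskian]
      linear_combination (-1 : k[X]) * hc
    obtain ⟨h2, h3⟩ := hcop.wronskian_eq_zero_iff.1 h1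
    have h4 : P.natDegree = 0 := derivative_eq_zero.1 h2
    have h5 : Q.natDegree = 0 := derivative_eq_zero.1 h3
    apply hXc (P.coeff 0 / Q.coeff 0)
    rw [hPQ, eq_C_of_natDegree_eq_zero h4, eq_C_of_natDegree_eq_zero h5]
    simp only [coeff_C_zero, map_div₀, hi, RatFunc.algebraMap_C]
  · rw [hδX, mul_pow, map_pow, ← hY2]
    ring

end PicJump

end
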