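import Pool.Agent.Lib_helper43.PJ.D

/-!
BLOCK GenC of MP_f6fc0c_ag.
BLOCKS GEN (no nonconstant points when `s` moves).
-/

noncomputable section

namespace PicJump

open Polynomial

variable {k : Type} [Field k] [IsAlgClosed k] [CharZero k]

omit [IsAlgClosed k] [CharZero k] in
theorem genC_der_poly (δ : Derivation ℤ (RatFunc k) (RatFunc k))
    (hδa : δ RatFunc.X = 1) (hδc : ∀ c : k, δ (RatFunc.C c) = 0) (p : k[X]) :
    δ (algebraMap k[X] (RatFunc k) p) = algebraMap k[X] (RatFunc k) (derivative p) := by
  induction p using Polynomial.induction_on' with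
  | add p q hp hq => rw [map_add, map_add, hp, hq, derivative_add, map_add]
  | monomial n a =>
    rw [← C_mul_X_pow_eq_monomial, map_mul, map_pow, RatFunc.algebraMap_C, RatFunc.algebraMap_X,
      Derivation.leibniz, Derivation.leibniz_pow, hδa, hδc, derivative_C_mul_X_pow]
    simp only [smul_eq_mul, mul_one, mul_zero, add_zero, map_mul, map_pow, RatFunc.algebraMap_C,
      RatFunc.algebraMap_X, nsmul_eq_mul, map_natCast]
    ring

omit [IsAlgClosed k] [CharZero k] in
/-- the derivations commute -/
theorem genC_comm (δ D : Derivation ℤ (RatFunc k) (RatFunc k))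
    (hδa : δ RatFunc.X = 1) (hδc : ∀ c : k, δ (RatFunc.C c) = 0) (hDa : D RatFunc.X = 0)
    (d : k → k) (hDc : ∀ c : k, D (RatFunc.C c) = RatFunc.C (d c)) (x : RatFunc k) :
    D (δ x) = δ (D x) := by
  have hp : ∀ p : k[X], D (δ (algebraMap k[X] (RatFunc k) p)) =
      δ (D (algebraMap k[X] (RatFunc k) p)) := by
    intro p
    induction p using Polynomial.induction_on' with
    | add p q hp hq => simp only [map_add, hp, hq]
    | monomial n a =>
      have e1 : D (algebraMap k[X] (RatFunc k) (monomial n a)) =
          algebraMap k[X] (RatFunc k) (monomial n (d a)) := by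
        rw [← C_mul_X_pow_eq_monomial, ← C_mul_X_pow_eq_monomial, map_mul, map_pow,
          RatFunc.algebraMap_C, RatFunc.algebraMap_X, Derivation.leibniz, Derivation.leibniz_pow,
          hDa, hDc, map_mul, map_pow, RatFunc.algebraMap_C, RatFunc.algebraMap_X]
        simp [mul_comm]
      rw [e1, genC_der_poly δ hδa hδc, genC_der_poly δ hδa hδc, derivative_monomial,
        derivative_monomial, ← C_mul_X_pow_eq_monomial, ← C_mul_X_pow_eq_monomial, map_mul, map_pow,
        RatFunc.algebraMap_C, RatFunc.algebraMap_X, Derivation.leibniz, Derivation.leibniz_pow,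
        hDa]
      simp only [map_mul, map_pow, RatFunc.algebraMap_C, RatFunc.algebraMap_X, Derivation.leibniz, hDc]
      have : D (RatFunc.C (n : k)) = 0 := by
        rw [map_natCast]; exact D.map_natCast n
      rw [hDc] at this
      rw [this]
      simp only [smul_eq_mul, smul_zero, mul_zero, zero_add, add_zero]
      ring
  have hd : algebraMap k[X] (RatFunc k) x.denom ≠ 0 :=
    RatFunc.algebraMap_ne_zero (RatFunc.denom_ne_zero x)
  have hm : algebraMap k[X] (RatFunc k) x.denom * x = algebraMap k[X] (RatFunc k) x.num := by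
    rw [eq_comm, mul_comm, ← div_eq_iff hd]; exact RatFunc.num_div_denom x
  have e1 := congrArg (fun y => D (δ y)) hm
  have e2 := congrArg (fun y => δ (D y)) hm
  simp only [Derivation.leibniz, map_add, smul_eq_mul] at e1 e2
  rw [hp] at e1
  rw [hp] at e1
  have : algebraMap k[X] (RatFunc k) x.denom * D (δ x) =
      algebraMap k[X] (RatFunc k) x.denom * δ (D x) := by
    linear_combination e1 - e2
  exact mul_left_cancel₀ hd this

omit [IsAlgClosed k] in
theorem genC_natDegree_Fp (s : k) : (Fp s).natDegree = 4 := by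
  unfold Fp; compute_degree!

/-- the polynomial step: `2 F W' - F' W = 2 μ F - d X^2` has no rational solution unless `d = 0` -/
theorem genC_poly (s : k) (hs : s ^ 2 ≠ 4) (P Q : k[X]) (hQ0 : Q ≠ 0) (hPQ : IsCoprime P Q)
    (μ d : k) (h : 2 * Fp s * (derivative P * Q - P * derivative Q) - derivative (Fp s) * P * Q =
      (C (2 * μ) * Fp s - C d * X ^ 2) * Q ^ 2) : d = 0 := by
  -- every root of `Q` leads to a contradiction
  have hF' : ∀ r : k, (Fp s).eval r = 0 → (derivative (Fp s)).eval r ≠ 0 := by
    intro r h1 h2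
    have e1 : r ^ 4 + s * r ^ 2 + 1 = 0 := by simpa [Fp] using h1
    have e2 : 4 * r ^ 3 + s * (2 * r) = 0 := by
      have : derivative (Fp s) = C 4 * X ^ 3 + C s * (C 2 * X) := by
        simp only [Fp, derivative_add, derivative_X_pow, derivative_mul, derivative_C, derivative_one]
        norm_num
      rw [this] at h2; simpa using h2
    have hr : r ≠ 0 := by rintro rfl; simp at e1
    have e3 : 2 * r ^ 2 + s = 0 := by
      have : 2 * r * (2 * r ^ 2 + s) = 0 := by linear_combination e2
      rcases mul_eq_zero.1 this with h | h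
      · exact absurd h (by simpa using hr)
      · exact h
    apply hs
    have : s = - 2 * r ^ 2 := by linear_combination e3
    rw [this] at e1 ⊢
    have e4 : r ^ 4 = 1 := by linear_combination -e1
    linear_combination 4 * e4
  have hroot : ∀ r : k, Q.eval r ≠ 0 := by
    intro r hr
    have hdvd : (X - C r) ∣ Q := dvd_iff_isRoot.2 hr
    obtain ⟨Q₁, hQ₁, hQ₁r⟩ := exists_eq_pow_rootMultiplicity_mul_and_not_dvd Q hQ0 r
    set m := Q.rootMultiplicity r with hm
    have hm1 : 1 ≤ m := by
      rw [hm]; exact (rootMultiplicity_pos hQ0).2 hr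
    obtain ⟨n, hn⟩ : ∃ n, m = n + 1 := ⟨m - 1, by omega⟩
    have hPr : P.eval r ≠ 0 := by
      intro h0
      obtain ⟨u, v, huv⟩ := hPQ
      have := congrArg (eval r) huv
      simp [h0, hr] at this
    have hQ₁r' : Q₁.eval r ≠ 0 := fun h => hQ₁r (dvd_iff_isRoot.2 h)
    rw [hn] at hQ₁
    -- derivative of Q
    have hdQ : derivative Q = (X - C r) ^ n * ((C ((n : k) + 1)) * Q₁ + (X - C r) * derivative Q₁) := by
      rw [hQ₁, derivative_mul, derivative_X_sub_C_pow]
      simp only [Nat.add_sub_cancel]
      push_cast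
      simp only [map_add, map_natCast, map_one]
      ring
    -- `(X - C r)` divides `F`
    have hXne : (X - C r : k[X]) ≠ 0 := X_sub_C_ne_zero r
    have h2 : (X - C r) ^ n * ((X - C r) * (2 * Fp s * derivative P * Q₁ - derivative (Fp s) * P * Q₁
        - (C (2 * μ) * Fp s - C d * X ^ 2) * (X - C r) ^ (n + 1) * Q₁ ^ 2
        - 2 * Fp s * P * derivative Q₁)) =
        (X - C r) ^ n * (2 * Fp s * P * (C ((n : k) + 1) * Q₁)) := by
      have := h
      rw [hdQ, hQ₁] at this
      linear_combination this
    have h3 := mul_left_cancel₀ (pow_ne_zero n hXne) h2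
    have hFr : (Fp s).eval r = 0 := by
      have := congrArg (eval r) h3
      simp only [eval_mul, eval_sub, eval_X, eval_C, sub_self, zero_mul] at this
      have h4 : (2 : k) * (Fp s).eval r * P.eval r * (((n : k) + 1) * Q₁.eval r) = 0 := by
        simpa using this.symm
      have hn1 : ((n : k) + 1) ≠ 0 := Nat.cast_add_one_ne_zero n
      rcases mul_eq_zero.1 h4 with h5 | h5
      · rcases mul_eq_zero.1 h5 with h6 | h6
        · rcases mul_eq_zero.1 h6 with h7 | h7
          · norm_num at h7
          · exact h7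
        · exact absurd h6 hPr
      · exact absurd h5 (mul_ne_zero hn1 hQ₁r')
    obtain ⟨F₁, hF₁⟩ : (X - C r) ∣ Fp s := dvd_iff_isRoot.2 hFr
    have hdF : derivative (Fp s) = F₁ + (X - C r) * derivative F₁ := by
      rw [hF₁, derivative_mul]; simp
    have hF₁r : F₁.eval r ≠ 0 := by
      have := hF' r hFr
      rw [hdF] at this; simpa using this
    -- now compare modulo `(X - C r)`
    have h5 : (X - C r) * (2 * F₁ * derivative P * (X - C r) * Q₁ - (F₁ + (X - C r) * derivative F₁) * P * Q₁
        - (C (2 * μ) * ((X - C r) * F₁) - C d * X ^ 2) * (X - C r) ^ (n + 1) * Q₁ ^ 2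
        - 2 * ((X - C r) * F₁) * P * derivative Q₁) =
        (X - C r) * (2 * F₁ * P * (C ((n : k) + 1) * Q₁)) := by
      have := h3
      rw [hdF, hF₁] at this
      linear_combination this
    have h6 := mul_left_cancel₀ hXne h5
    have h7 := congrArg (eval r) h6
    simp only [eval_mul, eval_sub, eval_add, eval_X, eval_C, sub_self, zero_mul, mul_zero, eval_pow,
      zero_pow (Nat.succ_ne_zero n), add_zero, sub_zero, zero_sub] at h7
    have h8 : F₁.eval r * P.eval r * Q₁.eval r * (2 * (n : k) + 3) = 0 := by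
      have h2' : eval r (2 : k[X]) = 2 := by simp
      rw [h2'] at h7
      linear_combination -h7
    have hn3 : (2 * (n : k) + 3) ≠ 0 := by
      have : ((2 * n + 3 : ℕ) : k) ≠ 0 := Nat.cast_ne_zero.2 (by omega)
      push_cast at this; exact this
    exact (mul_ne_zero (mul_ne_zero (mul_ne_zero hF₁r hPr) hQ₁r') hn3) h8
  -- so `Q` is constant
  have hQdeg : Q.natDegree = 0 := by
    by_contra hne
    have hdeg : Q.degree ≠ 0 := by
      intro h0
      exact hne (natDegree_eq_of_degree_eq_some h0)
    obtain ⟨r, hr⟩ := IsAlgClosed.exists_root Q hdeg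
    exact hroot r hr
  obtain ⟨q, rfl⟩ : ∃ q, Q = C q := ⟨_, eq_C_of_natDegree_eq_zero hQdeg⟩
  have hq : q ≠ 0 := by rintro rfl; simp at hQ0
  -- normalise: `W = P / q`
  set W : k[X] := C q⁻¹ * P with hW
  have hPW : P = C q * W := by
    rw [hW, ← mul_assoc, ← C_mul, mul_inv_cancel₀ hq, C_1, one_mul]
  have h9 : 2 * Fp s * derivative W - derivative (Fp s) * W = C (2 * μ) * Fp s - C d * X ^ 2 := by
    have hCq : (C q ^ 2 : k[X]) ≠ 0 := pow_ne_zero _ (by simpa using hq)
    apply mul_left_cancel₀ hCq
    rw [hPW] at h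
    simp only [derivative_mul, derivative_C] at h
    linear_combination h
  -- degree of `W`
  have hWdeg : W.natDegree ≤ 2 := by
    by_contra hcon
    push Not at hcon
    have hc := congrArg (fun p => coeff p (W.natDegree + 3)) h9
    simp only [coeff_sub] at hc
    obtain ⟨n, hn⟩ : ∃ n, W.natDegree = n + 3 := ⟨W.natDegree - 3, by omega⟩
    have hF4 : derivative (Fp s) = C 4 * X ^ 3 + C (2 * s) * X := by
      simp only [Fp, derivative_add, derivative_X_pow, derivative_mul, derivative_C, derivative_one]
      simp only [map_mul]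
      norm_num
      simp only [map_ofNat]
      ring
    have h10 : (2 * Fp s * derivative W).coeff (W.natDegree + 3) =
        2 * ((W.natDegree : k)) * W.leadingCoeff := by
      have e : 2 * Fp s * derivative W = C 2 * (derivative W * X ^ 4) + C (2 * s) * (derivative W * X ^ 2)
          + C 2 * derivative W := by
        simp only [Fp, map_mul, map_ofNat]; ring
      rw [e, coeff_add, coeff_add, coeff_C_mul, coeff_C_mul, coeff_C_mul, coeff_mul_X_pow', coeff_mul_X_pow']
      rw [if_pos (by omega), if_pos (by omega)]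
      have z1 : (derivative W).coeff (W.natDegree + 3 - 2) = 0 := by
        rw [coeff_derivative, coeff_eq_zero_of_natDegree_lt (by omega), zero_mul]
      have z2 : (derivative W).coeff (W.natDegree + 3) = 0 := by
        rw [coeff_derivative, coeff_eq_zero_of_natDegree_lt (by omega), zero_mul]
      have z3 : (derivative W).coeff (W.natDegree + 3 - 4) = W.leadingCoeff * W.natDegree := by
        rw [coeff_derivative, show W.natDegree + 3 - 4 + 1 = W.natDegree by omega]
        rw [leadingCoeff]
        congr 1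
        have : ((W.natDegree + 3 - 4 : ℕ) : k) + 1 = ((W.natDegree + 3 - 4 + 1 : ℕ) : k) := by
          push_cast; ring
        rw [this]; congr 1; omega
      rw [z1, z2, z3]; ring
    have h11 : (derivative (Fp s) * W).coeff (W.natDegree + 3) = 4 * W.leadingCoeff := by
      have e : derivative (Fp s) * W = C 4 * (W * X ^ 3) + C (2 * s) * (W * X) := by
        rw [hF4]; ring
      rw [e, coeff_add, coeff_C_mul, coeff_C_mul, coeff_mul_X_pow, show W.natDegree + 3 = (W.natDegree + 2) + 1 by ring,
        coeff_mul_X, coeff_eq_zero_of_natDegree_lt (show W.natDegree < W.natDegree + 2 by omega)]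
      rw [leadingCoeff]; ring
    have h12 : (C (2 * μ) * Fp s).coeff (W.natDegree + 3) = 0 := by
      rw [coeff_C_mul, coeff_eq_zero_of_natDegree_lt (by rw [genC_natDegree_Fp]; omega), mul_zero]
    have h13 : (C d * X ^ 2 : k[X]).coeff (W.natDegree + 3) = 0 := by
      rw [coeff_C_mul, coeff_X_pow, if_neg (by omega), mul_zero]
    rw [h10, h11, h12, h13] at hc
    have h14 : W.leadingCoeff * (2 * (n : k) + 2) = 0 := by
      rw [hn] at hc; push_cast at hc
      linear_combination hc
    have hn2 : (2 * (n : k) + 2) ≠ 0 := by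
      have : ((2 * n + 2 : ℕ) : k) ≠ 0 := Nat.cast_ne_zero.2 (by omega)
      push_cast at this; exact this
    have hW0 : W.leadingCoeff ≠ 0 := by
      intro h0
      rw [leadingCoeff_eq_zero] at h0
      rw [h0] at hcon; simp at hcon
    exact (mul_ne_zero hW0 hn2) h14
  -- coefficients
  obtain ⟨w0, w1, w2, hWw⟩ : ∃ w0 w1 w2 : k, W = C w0 + C w1 * X + C w2 * X ^ 2 := by
    refine ⟨W.coeff 0, W.coeff 1, W.coeff 2, ?_⟩
    ext i
    simp only [coeff_add, coeff_C_mul, coeff_X_pow, coeff_X, coeff_C]
    by_cases h0 : i = 0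
    · subst h0; simp
    by_cases h1 : i = 1
    · subst h1; simp
    by_cases h2 : i = 2
    · subst h2; simp
    · rw [coeff_eq_zero_of_natDegree_lt (by omega)]
      simp [h0, h2, Ne.symm h1]
  rw [hWw] at h9
  have hpoly : (C (-2 * w1 - 2 * μ) * X ^ 4 + C (2 * s * w2 - 4 * w0) * X ^ 3 + C (d - 2 * μ * s) * X ^ 2 +
      C (4 * w2 - 2 * s * w0) * X + C (2 * w1 - 2 * μ) : k[X]) = 0 := by
    have hF4 : derivative (Fp s) = C 4 * X ^ 3 + C 2 * C s * X := by
      simp only [Fp, derivative_add, derivative_X_pow, derivative_mul, derivative_C, derivative_one]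
      norm_num
      simp only [map_ofNat]
      ring
    rw [hF4] at h9
    simp only [Fp, derivative_add, derivative_X_pow, derivative_mul, derivative_C, derivative_X] at h9
    simp only [map_sub, map_mul, map_neg, map_ofNat] at h9 ⊢
    norm_num at h9
    simp only [map_ofNat] at h9 ⊢
    linear_combination h9
  have c4 := congrArg (fun p => coeff p 4) hpoly
  have c2 := congrArg (fun p => coeff p 2) hpoly
  have c0 := congrArg (fun p => coeff p 0) hpoly
  simp only [coeff_add, coeff_C_mul, coeff_X_pow, coeff_X, coeff_C, coeff_zero] at c4 c2 c0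
  norm_num at c4 c2 c0
  have hμ : μ = 0 := by
    have : (4 : k) * μ = 0 := by linear_combination -c4 - c0
    rcases mul_eq_zero.1 this with h | h
    · norm_num at h
    · exact h
  rw [hμ] at c2
  linear_combination c2

/-- GEN-C. The key computation.  `D` is a derivation of `k(a)` with `D a = 0`, mapping `k` to `k`,
with `D s <> 0`.  Put `W = D X / δ X`.  Applying `D` and `δ` to the equation gives
`2 F δ W - (δ F) W = 2 μ F - D F` with `μ = D c / c` in `k`.  So `W` has no poles (at a pole of
order `m` at `r`: if `F(r) <> 0` the left side has a pole of order `m + 1`; if `F(r) = 0`, a simple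
root, the left side has a pole of order exactly `m`, as `2 (-m) - 1 <> 0`), `W` is a polynomial, of
degree at most 2 (leading coefficients), and comparing coefficients gives `μ = 0` and `D s = 0`.
(`W = w0 + w1 a + w2 a^2`: `-2 w1 = 2 μ`, `2 s w2 - 4 w0 = 0`, `2 μ s = D s`, `4 w2 - 2 s w0 = 0`,
`2 w1 = 2 μ`.) -/
theorem no_ode (s : k) (hs : s ^ 2 ≠ 4) (δ D : Derivation ℤ (RatFunc k) (RatFunc k))
    (hδa : δ RatFunc.X = 1) (hδc : ∀ c : k, δ (RatFunc.C c) = 0) (hDa : D RatFunc.X = 0)
    (d : k → k) (hDc : ∀ c : k, D (RatFunc.C c) = RatFunc.C (d c)) (hds : d s ≠ 0)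
    (c : k) (hc : c ≠ 0) (X : RatFunc k) (hX : δ X ≠ 0)
    (h : 2 * Fr s * (δ X) ^ 2 = RatFunc.C (c ^ 2) * (X ^ 3 + X)) : False := by
  have hDδ : D (δ X) = δ (D X) := genC_comm δ D hδa hδc hDa d hDc X
  set W : RatFunc k := D X / δ X with hW
  have hDX : D X = W * δ X := by rw [hW]; field_simp
  have hδδ : δ (D X) = δ W * δ X + W * δ (δ X) := by
    rw [hDX, Derivation.leibniz]; simp only [smul_eq_mul]; ring
  have hFD : D (Fr s) = RatFunc.C (d s) * RatFunc.X ^ 2 := by
    have e : Fr s = RatFunc.X ^ 4 + RatFunc.C s * RatFunc.X ^ 2 + 1 := by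
      simp [Fr, Fp, RatFunc.algebraMap_X, RatFunc.algebraMap_C]
    rw [e]
    simp only [map_add, Derivation.leibniz, Derivation.leibniz_pow, hDa, hDc, Derivation.map_one_eq_zero]
    simp only [smul_eq_mul, mul_zero, smul_zero, zero_add, add_zero]
    ring
  have hFδ : δ (Fr s) = algebraMap k[X] (RatFunc k) (derivative (Fp s)) :=
    genC_der_poly δ hδa hδc (Fp s)
  -- apply the derivations to the equation
  have e1 := congrArg δ h
  have e2 := congrArg D h
  have h2D : D (2 : RatFunc k) = 0 := by
    have := D.map_natCast 2; simpa using this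
  have h2δ : δ (2 : RatFunc k) = 0 := by
    have := δ.map_natCast 2; simpa using this
  have hcD : D (RatFunc.C (c ^ 2)) = 2 * RatFunc.C c * RatFunc.C (d c) := by
    rw [map_pow, Derivation.leibniz_pow, hDc]; simp; ring
  simp only [Derivation.leibniz, Derivation.leibniz_pow, map_add, hδc, h2δ, smul_eq_mul,
    nsmul_eq_mul, mul_zero, add_zero] at e1
  simp only [Derivation.leibniz, Derivation.leibniz_pow, map_add, hcD, h2D, smul_eq_mul,
    nsmul_eq_mul, mul_zero, add_zero] at e2
  rw [hDδ, hδδ, hDX, hFD] at e2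
  rw [hFδ] at e1
  have hcne : (RatFunc.C c : RatFunc k) ≠ 0 := by simpa using hc
  set μ : k := d c / c with hμ
  have hμc : RatFunc.C (d c) = RatFunc.C μ * RatFunc.C c := by
    rw [← map_mul, hμ]; congr 1; field_simp
  rw [map_pow] at h e1 e2
  have key : 2 * Fr s * δ W - algebraMap k[X] (RatFunc k) (derivative (Fp s)) * W =
      RatFunc.C (2 * μ) * Fr s - RatFunc.C (d s) * RatFunc.X ^ 2 := by
    have h2ne : (2 * (δ X) ^ 2 : RatFunc k) ≠ 0 := mul_ne_zero two_ne_zero (pow_ne_zero 2 hX)
    apply mul_left_cancel₀ h2ne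
    rw [hμc] at e2
    simp only [map_mul, map_ofNat]
    norm_num at e1 e2
    linear_combination e2 - W * e1 - 2 * RatFunc.C μ * h
  -- pass to numerator and denominator
  have hden : algebraMap k[X] (RatFunc k) W.denom ≠ 0 :=
    RatFunc.algebraMap_ne_zero (RatFunc.denom_ne_zero W)
  have hWm : algebraMap k[X] (RatFunc k) W.num = W * algebraMap k[X] (RatFunc k) W.denom := by
    nth_rewrite 2 [← RatFunc.num_div_denom W]; field_simp
  have hWδ : algebraMap k[X] (RatFunc k) (derivative W.num) =
      δ W * algebraMap k[X] (RatFunc k) W.denom + W * algebraMap k[X] (RatFunc k) (derivative W.denom) := by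
    rw [← genC_der_poly δ hδa hδc, hWm, Derivation.leibniz, genC_der_poly δ hδa hδc]
    simp only [smul_eq_mul]; ring
  have hfin := genC_poly s hs W.num W.denom (RatFunc.denom_ne_zero W) (RatFunc.isCoprime_num_denom W)
    μ (d s) (by
      apply RatFunc.algebraMap_injective k
      simp only [map_sub, map_mul, map_pow, map_ofNat, RatFunc.algebraMap_C, RatFunc.algebraMap_X]
      rw [hWδ, hWm]
      have e : algebraMap k[X] (RatFunc k) (Fp s) = Fr s := rfl
      rw [e]
      simp only [map_mul, map_ofNat] at key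
      linear_combination (algebraMap k[X] (RatFunc k) W.denom) ^ 2 * key)
  exact hds hfin

end PicJump

end
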