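import Pool.Agent.Lib_helper43.PJ.D
import Pool.Agent.Lib_helper28.PJ.Der

/-!
BLOCK GenD of MP_f6fc0c_ag.
BLOCKS GEN (no nonconstant points when `s` moves).
-/

noncomputable section

namespace PicJump

open Polynomial

variable {k : Type} [Field k] [IsAlgClosed k] [CharZero k]

/-- GEN-D. Existence of the derivations: `δ = d/da` and the coefficientwise extension of a
derivation `d` of `k`. -/
theorem exists_derivations (d : Derivation ℤ k k) :
    ∃ δ D : Derivation ℤ (RatFunc k) (RatFunc k), δ RatFunc.X = 1 ∧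
      (∀ c : k, δ (RatFunc.C c) = 0) ∧ D RatFunc.X = 0 ∧
      ∀ c : k, D (RatFunc.C c) = RatFunc.C (d c) := by
  obtain ⟨δ, h1, h2⟩ := der_transport _ inferInstance
    (fun f : RatFunc k → RatFunc k => f RatFunc.X = 1 ∧ ∀ c : k, f (RatFunc.C c) = 0)
    (der_ddX k)
  obtain ⟨D, h3, h4⟩ := der_transport _ inferInstance
    (fun f : RatFunc k → RatFunc k => f RatFunc.X = 0 ∧
      ∀ c : k, f (RatFunc.C c) = RatFunc.C (d c)) (der_coeff k d)
  exact ⟨δ, D, h1, h2, h3, h4⟩

end PicJump

end
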