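import Pool.Agent.Lib_helper43.PJ.D
import Pool.Agent.Lib_helper43.PJ.W_GenA
import Pool.Agent.Lib_helper43.PJ.W_GenB
import Pool.Agent.Lib_helper43.PJ.W_GenC
import Pool.Agent.Lib_helper43.PJ.W_GenD
import Pool.Agent.Lib_helper28.PJ.Kit

/-!
BLOCK GenE of MP_f6fc0c_ag.
BLOCKS GEN (no nonconstant points when `s` moves).
-/

noncomputable section

namespace PicJump

open Polynomial

variable {k : Type} [Field k] [IsAlgClosed k] [CharZero k]

/-- A squarefree polynomial of positive degree is not a constant times a square. -/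
theorem genE_not_square {k : Type} [Field k] [CharZero k] {s : k} (hs : s ^ 2 ≠ 4) (Y : RatFunc k)
    (c : k) (hc : c ≠ 0) : 2 * Fr s * Y ^ 2 ≠ RatFunc.C c := by
  intro h
  set i : k[X] →+* RatFunc k := algebraMap k[X] (RatFunc k) with hi
  have hinj : Function.Injective i := RatFunc.algebraMap_injective k
  have h1 : i (Fp s) * Y ^ 2 = i (C (c / 2)) := by
    have h2 : i (C (c / 2)) = RatFunc.C c / 2 := by
      rw [hi, RatFunc.algebraMap_C, map_div₀, map_ofNat]
    rw [h2, ← h]
    show Fr s * Y ^ 2 = _
    field_simp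
  obtain ⟨z, hz⟩ := kit_sq _ _ (kit_Fp_squarefree hs) Y h1
  rw [hz, ← map_pow, ← map_mul] at h1
  have h2 := hinj h1
  have hz0 : z ≠ 0 := by
    rintro rfl
    have h3 : C (c / 2) = 0 := by rw [← h2]; ring
    rw [C_eq_zero] at h3
    exact hc (by linear_combination (2 : k) * h3)
  have h3 := congrArg natDegree h2
  rw [natDegree_mul (kit_Fp_ne_zero s) (pow_ne_zero 2 hz0), kit_Fp_natDegree, natDegree_C] at h3
  omega

/-- GEN-E. Conclusion: if some derivation of `k` does not kill `s`, all points of the curve are
2-torsion.  (If `x = 2 F c` with `c` constant, `2 F (y / (4 F^2))^2 = c^3 + c`, so `c^3 + c = 0` as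
`F` is not a constant times a square, so `y = 0`.) -/
theorem generic_two_torsion (s : k) (hs : s ^ 2 ≠ 4) (d : Derivation ℤ k k) (hds : d s ≠ 0)
    (P : EP s) : 2 • P = 0 := by
  cases P with
  | zero =>
    show (2 : ℕ) • (0 : EP s) = 0
    exact nsmul_zero 2
  | some x y h =>
    have heq : y ^ 2 = x ^ 3 + 4 * Fr s ^ 2 * x := by
      have h1 := (WeierstrassCurve.Affine.equation_iff (W := Wc s) x y).1 h.1
      simp only [Wc] at h1
      linear_combination h1
    have hF0 := kit_Fr_ne_zero s
    have hy : y = 0 := by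
      by_cases hx : ∃ c : k, x = 2 * Fr s * RatFunc.C c
      · obtain ⟨c, hc⟩ := hx
        by_contra hy0
        have h1 : 2 * Fr s * (y / (4 * Fr s ^ 2)) ^ 2 = RatFunc.C (c ^ 3 + c) := by
          rw [div_pow, heq, hc, map_add, map_pow]
          field_simp
          ring
        have h2 : c ^ 3 + c ≠ 0 := by
          intro h3
          rw [h3, map_zero] at h1
          have h4 : y / (4 * Fr s ^ 2) = 0 := by
            rcases mul_eq_zero.1 h1 with h5 | h5
            · exact absurd h5 (mul_ne_zero (by norm_num) hF0)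
            · exact pow_eq_zero_iff (two_ne_zero) |>.1 h5
          rcases div_eq_zero_iff.1 h4 with h5 | h5
          · exact hy0 h5
          · exact absurd h5 (mul_ne_zero (by norm_num) (pow_ne_zero 2 hF0))
        exact genE_not_square hs _ _ h2 h1
      · exfalso
        push Not at hx
        obtain ⟨δ, D, hδa, hδc, hDa, hDc⟩ := exists_derivations d
        obtain ⟨c, X', hc, hxX, hode⟩ := ode_of_point hs x y heq hx δ hδa hδc
        have hδX : δ X' ≠ 0 := by
          intro h0
          rw [h0] at hode
          have h1 : X' ^ 3 + X' = 0 := by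
            have h2 : RatFunc.C (c ^ 2) ≠ (0 : RatFunc k) := by
              rw [Ne, map_eq_zero]
              exact pow_ne_zero 2 hc
            have h3 : RatFunc.C (c ^ 2) * (X' ^ 3 + X') = 0 := by rw [← hode]; ring
            exact (mul_eq_zero.1 h3).resolve_left h2
          have h2 : X' * (X' ^ 2 + 1) = 0 := by linear_combination h1
          rcases mul_eq_zero.1 h2 with h3 | h3
          · exact hx 0 (by rw [hxX, h3, map_zero])
          · obtain ⟨j, hj⟩ := IsAlgClosed.exists_pow_nat_eq (-1 : k) (n := 2) (by norm_num)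
            have hj' : (RatFunc.C j) ^ 2 = (-1 : RatFunc k) := by
              rw [← map_pow, hj, map_neg, map_one]
            have h4 : (X' - RatFunc.C j) * (X' + RatFunc.C j) = 0 := by
              linear_combination h3 - hj'
            rcases mul_eq_zero.1 h4 with h5 | h5
            · exact hx j (by rw [hxX, sub_eq_zero.1 h5])
            · exact hx (-j) (by rw [map_neg, hxX, eq_neg_of_add_eq_zero_left h5])
        exact no_ode s hs δ D hδa hδc hDa d hDc hds c hc X' hδX hode
    subst hy
    rw [two_nsmul]
    exact WeierstrassCurve.Affine.Point.add_self_of_Y_eq (by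
      simp [WeierstrassCurve.Affine.negY, Wc])

theorem generic_rank_zero (s : k) (hs : s ^ 2 ≠ 4) (d : Derivation ℤ k k) (hds : d s ≠ 0) :
    Module.rank ℤ (EP s) = 0 := by
  rw [rank_eq_zero_iff]
  intro P
  refine ⟨2, by norm_num, ?_⟩
  have := generic_two_torsion s hs d hds P
  rw [← this]
  norm_cast

end PicJump

end
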