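import Pool.Agent.Lib_helper43.PJ.D
import Pool.Agent.Lib_helper28.PJ.Der

/-!
BLOCK GenF of MP_f6fc0c_ag.
BLOCKS GEN (no nonconstant points when `s` moves).
-/

noncomputable section

namespace PicJump

open Polynomial

variable {k : Type} [Field k] [IsAlgClosed k] [CharZero k]

/-- GEN-F. The derivation `d/dT` of `k(T)` extends to the algebraic closure (formally etale, or
Zorn + minimal polynomials). -/
theorem exists_derivation_genField (k₀ : Type) [Field k₀] [CharZero k₀] :
    ∃ d : Derivation ℤ (AlgebraicClosure (RatFunc k₀)) (AlgebraicClosure (RatFunc k₀)),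
      d (algebraMap (RatFunc k₀) _ RatFunc.X) = 1 ∧
      ∀ c : k₀, d (algebraMap (RatFunc k₀) _ (RatFunc.C c)) = 0 := by
  exact der_transport _ inferInstance
    (fun f : AlgebraicClosure (RatFunc k₀) → AlgebraicClosure (RatFunc k₀) =>
      f (algebraMap (RatFunc k₀) _ RatFunc.X) = 1 ∧
        ∀ c : k₀, f (algebraMap (RatFunc k₀) _ (RatFunc.C c)) = 0)
    (der_genField k₀)

end PicJump

end
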