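import Pool.Agent.Lib_helper43.PJ.D

/-!
BLOCK SpecB of MP_f6fc0c_ag.
BLOCKS SPEC (special parameters: the curve has a point of infinite order).
-/

noncomputable section

namespace PicJump

open Polynomial

variable {k : Type} [Field k] [IsAlgClosed k] [CharZero k]

omit [IsAlgClosed k] [CharZero k] in
theorem specB_rdeg_div (A B : Polynomial k) (hAB : IsCoprime A B) (hB : B ≠ 0) :
    rdeg (algebraMap (Polynomial k) (RatFunc k) A / algebraMap (Polynomial k) (RatFunc k) B) =
      max A.natDegree B.natDegree := by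
  set Y := algebraMap (Polynomial k) (RatFunc k) A / algebraMap (Polynomial k) (RatFunc k) B with hY
  have hinj := IsFractionRing.injective (Polynomial k) (RatFunc k)
  have hB' : algebraMap (Polynomial k) (RatFunc k) B ≠ 0 := fun h =>
    hB (hinj (h.trans (map_zero _).symm))
  have hden : Y.denom ≠ 0 := RatFunc.denom_ne_zero Y
  have hden' : algebraMap (Polynomial k) (RatFunc k) Y.denom ≠ 0 := fun h =>
    hden (hinj (h.trans (map_zero _).symm))
  have hcop := RatFunc.isCoprime_num_denom Y
  have h1 : A * Y.denom = Y.num * B := by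
    apply hinj
    rw [map_mul, map_mul]
    have h2 := RatFunc.num_div_denom Y
    rw [hY] at h2 hden' ⊢
    field_simp at h2
    linear_combination -h2
  have h2 : A ∣ Y.num := hAB.dvd_of_dvd_mul_right (Dvd.intro _ h1)
  have h3 : Y.num ∣ A := hcop.dvd_of_dvd_mul_right (Dvd.intro _ h1.symm)
  have h4 : B ∣ Y.denom := hAB.symm.dvd_of_dvd_mul_left (Dvd.intro_left _ h1.symm)
  have h5 : Y.denom ∣ B := hcop.symm.dvd_of_dvd_mul_left (Dvd.intro_left _ h1)
  have h6 : Y.num.natDegree = A.natDegree :=
    Polynomial.natDegree_eq_of_degree_eq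
      (Polynomial.degree_eq_degree_of_associated (associated_of_dvd_dvd h3 h2))
  have h7 : Y.denom.natDegree = B.natDegree :=
    Polynomial.natDegree_eq_of_degree_eq
      (Polynomial.degree_eq_degree_of_associated (associated_of_dvd_dvd h5 h4))
  unfold rdeg
  rw [h6, h7]

/-- SPEC-B. The duplication formula multiplies degrees by 4. -/
theorem rdeg_dup (X : RatFunc k) (hX : 0 < rdeg X) :
    rdeg ((X ^ 2 - 1) ^ 2 / (4 * (X ^ 3 + X))) = 4 * rdeg X := by
  set p := X.num with hp
  set q := X.denom with hq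
  have hcop : IsCoprime p q := RatFunc.isCoprime_num_denom X
  have hq0 : q ≠ 0 := RatFunc.denom_ne_zero X
  have hqm : q.Monic := RatFunc.monic_denom X
  have hinj := IsFractionRing.injective (Polynomial k) (RatFunc k)
  have hq' : algebraMap (Polynomial k) (RatFunc k) q ≠ 0 := fun h =>
    hq0 (hinj (h.trans (map_zero _).symm))
  have hXpq : X = algebraMap (Polynomial k) (RatFunc k) p / algebraMap (Polynomial k) (RatFunc k) q :=
    (RatFunc.num_div_denom X).symm
  have hd : rdeg X = max p.natDegree q.natDegree := rfl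
  have hconst : ∀ c : k, p ≠ Polynomial.C c * q := by
    intro c hc
    have hqu : IsUnit q := hcop.isUnit_of_dvd' (Dvd.intro_left _ hc.symm) dvd_rfl
    have hq1 : q.natDegree = 0 := Polynomial.natDegree_eq_zero_of_isUnit hqu
    have hp1 : p.natDegree = 0 := by
      rw [hc]
      have := Polynomial.natDegree_C_mul_le c q
      omega
    rw [hd, hp1, hq1] at hX
    exact absurd hX (lt_irrefl _)
  have hp0 : p ≠ 0 := by
    intro h
    exact hconst 0 (by rw [h]; simp)
  set A : Polynomial k := p ^ 2 - q ^ 2 with hA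
  set B : Polynomial k := p ^ 2 + q ^ 2 with hB
  have hB0 : B ≠ 0 := by
    intro h
    obtain ⟨i, hi⟩ := IsAlgClosed.exists_pow_nat_eq (-1 : k) (n := 2) (by norm_num)
    have h1 : (p - Polynomial.C i * q) * (p + Polynomial.C i * q) = 0 := by
      have h2 : (Polynomial.C i : Polynomial k) ^ 2 = -1 := by
        rw [← map_pow, hi]; simp
      have : (p - Polynomial.C i * q) * (p + Polynomial.C i * q) =
          B - (1 + (Polynomial.C i : Polynomial k) ^ 2) * q ^ 2 := by rw [hB]; ring
      rw [this, h, h2]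
      ring
    rcases mul_eq_zero.1 h1 with h2 | h2
    · exact hconst i (by linear_combination h2)
    · exact hconst (-i) (by rw [map_neg]; linear_combination h2)
  have hAq : IsCoprime A q := by
    have h1 : IsCoprime (p ^ 2) q := hcop.pow_left
    have h2 := h1.add_mul_left_left (-q)
    have : p ^ 2 + q * -q = A := by rw [hA]; ring
    rwa [this] at h2
  have hAp : IsCoprime A p := by
    have h1 : IsCoprime (q ^ 2) p := hcop.symm.pow_left
    have h2 := h1.neg_left.add_mul_left_left p
    have : -q ^ 2 + p * p = A := by rw [hA]; ring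
    rwa [this] at h2
  have hAB : IsCoprime A B := by
    obtain ⟨u, v, huv⟩ : IsCoprime (p ^ 2) (q ^ 2) := hcop.pow
    refine ⟨Polynomial.C (1 / 2) * (u - v), Polynomial.C (1 / 2) * (u + v), ?_⟩
    have h2 : (Polynomial.C (1 / 2 : k)) * 2 = 1 := by
      have : (2 : Polynomial k) = Polynomial.C 2 := (map_ofNat Polynomial.C 2).symm
      rw [this, ← map_mul]
      norm_num
    rw [hA, hB]
    calc _ = (Polynomial.C (1 / 2 : k)) * 2 * (u * p ^ 2 + v * q ^ 2) := by ring
      _ = 1 := by rw [h2, huv, one_mul]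
  have hu4 : IsUnit (Polynomial.C (4 : k)) := Polynomial.isUnit_C.2 (by norm_num)
  have hND : IsCoprime (A ^ 2) (Polynomial.C 4 * (q * p * B)) := by
    refine IsCoprime.pow_left ?_
    rw [isCoprime_mul_unit_left_right hu4]
    exact (hAq.mul_right hAp).mul_right hAB
  have hD0 : Polynomial.C (4 : k) * (q * p * B) ≠ 0 :=
    mul_ne_zero hu4.ne_zero (mul_ne_zero (mul_ne_zero hq0 hp0) hB0)
  have hp' : algebraMap (Polynomial k) (RatFunc k) p ≠ 0 := fun h =>
    hp0 (hinj (h.trans (map_zero _).symm))
  have hB' : algebraMap (Polynomial k) (RatFunc k) B ≠ 0 := fun h =>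
    hB0 (hinj (h.trans (map_zero _).symm))
  have hform : (X ^ 2 - 1) ^ 2 / (4 * (X ^ 3 + X)) =
      algebraMap (Polynomial k) (RatFunc k) (A ^ 2) /
        algebraMap (Polynomial k) (RatFunc k) (Polynomial.C 4 * (q * p * B)) := by
    have h4 : algebraMap (Polynomial k) (RatFunc k) (Polynomial.C 4) = 4 := by
      have : (Polynomial.C (4 : k)) = (4 : Polynomial k) := map_ofNat Polynomial.C 4
      rw [this, map_ofNat]
    have h40 : (4 : RatFunc k) ≠ 0 := by
      rw [← h4]
      intro h
      exact hu4.ne_zero (hinj (h.trans (map_zero _).symm))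
    rw [hB, map_add, map_pow, map_pow] at hB'
    rw [map_mul, map_mul, map_mul, h4, hA, hB, map_pow, map_sub, map_add, map_pow, map_pow, hXpq]
    set P := algebraMap (Polynomial k) (RatFunc k) p
    set Q := algebraMap (Polynomial k) (RatFunc k) q
    have h5 : (P / Q) ^ 3 + P / Q = P * (P ^ 2 + Q ^ 2) / Q ^ 3 := by
      field_simp
    rw [h5]
    field_simp
  rw [hform, specB_rdeg_div _ _ hND hD0, hd]
  have hdegN : (A ^ 2).natDegree = 2 * A.natDegree := Polynomial.natDegree_pow _ _
  have hdegD : (Polynomial.C (4 : k) * (q * p * B)).natDegree =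
      q.natDegree + p.natDegree + B.natDegree := by
    rw [Polynomial.natDegree_C_mul (by norm_num), Polynomial.natDegree_mul (mul_ne_zero hq0 hp0) hB0,
      Polynomial.natDegree_mul hq0 hp0]
  rw [hdegN, hdegD]
  have hp2 : (p ^ 2).natDegree = 2 * p.natDegree := Polynomial.natDegree_pow _ _
  have hq2 : (q ^ 2).natDegree = 2 * q.natDegree := Polynomial.natDegree_pow _ _
  have hAle : A.natDegree ≤ max (2 * p.natDegree) (2 * q.natDegree) := by
    rw [hA, ← hp2, ← hq2]; exact Polynomial.natDegree_sub_le _ _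
  have hBle : B.natDegree ≤ max (2 * p.natDegree) (2 * q.natDegree) := by
    rw [hB, ← hp2, ← hq2]; exact Polynomial.natDegree_add_le _ _
  rcases lt_trichotomy p.natDegree q.natDegree with h | h | h
  · have hA2 : A.natDegree = 2 * q.natDegree := by
      rw [hA, Polynomial.natDegree_sub_eq_right_of_natDegree_lt (by rw [hp2, hq2]; omega), hq2]
    omega
  · have hcp : (p ^ 2).coeff (2 * p.natDegree) = p.leadingCoeff ^ 2 :=
      Polynomial.coeff_pow_mul_natDegree p 2
    have hcq : (q ^ 2).coeff (2 * p.natDegree) = 1 := by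
      have h1 := Polynomial.coeff_pow_mul_natDegree q 2
      rw [hqm.leadingCoeff, one_pow, ← h] at h1
      exact h1
    by_cases hl : p.leadingCoeff ^ 2 = 1
    · have h1 : B.coeff (2 * p.natDegree) ≠ 0 := by
        rw [hB, Polynomial.coeff_add, hcp, hcq, hl]
        norm_num
      have h2 := Polynomial.le_natDegree_of_ne_zero h1
      omega
    · have h1 : A.coeff (2 * p.natDegree) ≠ 0 := by
        rw [hA, Polynomial.coeff_sub, hcp, hcq]
        exact sub_ne_zero.2 hl
      have h2 := Polynomial.le_natDegree_of_ne_zero h1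
      omega
  · have hA2 : A.natDegree = 2 * p.natDegree := by
      rw [hA, Polynomial.natDegree_sub_eq_left_of_natDegree_lt (by rw [hp2, hq2]; omega), hp2]
    omega

omit [IsAlgClosed k] [CharZero k] in
theorem specB_Fr_ne (s : k) : Fr s ≠ 0 := by
  unfold Fr Fp
  intro h
  have h1 := (IsFractionRing.injective (Polynomial k) (RatFunc k)) (h.trans (map_zero _).symm)
  have h2 := congrArg (Polynomial.eval 0) h1
  simp at h2

omit [IsAlgClosed k] in
theorem specB_two_ne : (2 : RatFunc k) ≠ 0 := by
  intro h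
  have h1 : algebraMap k (RatFunc k) 2 = 0 := by rw [map_ofNat]; exact h
  have h2 := (algebraMap k (RatFunc k)).injective (h1.trans (map_zero _).symm)
  norm_num at h2

/-- SPEC-B. In terms of `X = x / (2F)` the `x`-coordinate of `2 P` on `Wc s` is given by the
duplication formula of `Y^2 = X^3 + X`. -/
theorem double_X (s : k) (x y : RatFunc k) (h : (Wc s).Nonsingular x y) (hy : y ≠ 0) :
    ∃ (x' y' : RatFunc k) (h' : (Wc s).Nonsingular x' y'),
      (2 : ℕ) • (WeierstrassCurve.Affine.Point.some x y h : EP s) =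
        WeierstrassCurve.Affine.Point.some x' y' h' ∧
      x' / (2 * Fr s) = ((x / (2 * Fr s)) ^ 2 - 1) ^ 2 /
        (4 * ((x / (2 * Fr s)) ^ 3 + x / (2 * Fr s))) := by
  have hF := specB_Fr_ne s
  have h2 := specB_two_ne (k := k)
  have hneg : (Wc s).negY x y = -y := by
    simp [WeierstrassCurve.Affine.negY, Wc]
  have hyne : y ≠ (Wc s).negY x y := by
    rw [hneg]
    intro h'
    have : (2 : RatFunc k) * y = 0 := by linear_combination h'
    rcases mul_eq_zero.1 this with h3 | h3
    · exact h2 h3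
    · exact hy h3
  have heq : y ^ 2 = x ^ 3 + 4 * Fr s ^ 2 * x := by
    have h3 := (WeierstrassCurve.Affine.equation_iff _ _).1 h.1
    simpa [Wc] using h3
  refine ⟨_, _, _, by rw [two_nsmul, WeierstrassCurve.Affine.Point.add_self_of_Y_ne hyne], ?_⟩
  rw [WeierstrassCurve.Affine.addX, WeierstrassCurve.Affine.slope_of_Y_ne rfl hyne, hneg]
  have h3 : x ^ 3 + 4 * Fr s ^ 2 * x ≠ 0 := by rw [← heq]; exact pow_ne_zero 2 hy
  have hx : x ≠ 0 := by
    rintro rfl
    apply h3
    ring
  have h4 : x ^ 2 + 4 * Fr s ^ 2 ≠ 0 := by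
    intro h'
    apply h3
    linear_combination x * h'
  simp only [Wc]
  have h5 : (x / (2 * Fr s)) ^ 3 + x / (2 * Fr s) = x * (x ^ 2 + 4 * Fr s ^ 2) / (2 * Fr s) ^ 3 := by
    field_simp
    ring
  have h6 : (4 : RatFunc k) ≠ 0 := by
    have : (4 : RatFunc k) = 2 * 2 := by norm_num
    rw [this]; exact mul_ne_zero h2 h2
  rw [h5]
  have h7 : y - -y = 2 * y := by ring
  rw [h7]
  have h8 : ((3 * x ^ 2 + 2 * 0 * x + 4 * Fr s ^ 2 - 0 * y) / (2 * y)) ^ 2 =
      (3 * x ^ 2 + 4 * Fr s ^ 2) ^ 2 / (4 * (x * (x ^ 2 + 4 * Fr s ^ 2))) := by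
    rw [div_pow, mul_pow, heq]
    congr 1
    · ring
    · ring
  rw [h8]
  field_simp
  ring

end PicJump

end
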