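import Pool.Agent.Lib_helper43.PJ.D
import Pool.Agent.Lib_helper43.PJ.W_SpecB

/-!
BLOCK SpecC of MP_f6fc0c_ag.
BLOCKS SPEC (special parameters: the curve has a point of infinite order).
-/

noncomputable section

namespace PicJump

open Polynomial

variable {k : Type} [Field k] [IsAlgClosed k] [CharZero k]

omit [IsAlgClosed k] [CharZero k] in
theorem specC_rdeg_C (c : k) : rdeg (RatFunc.C c) = 0 := by
  unfold rdeg
  rw [RatFunc.num_C, RatFunc.denom_C]
  simp

omit [IsAlgClosed k] [CharZero k] in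
theorem specC_eq_C (X : RatFunc k) (h : rdeg X = 0) : ∃ c : k, X = RatFunc.C c := by
  unfold rdeg at h
  have h1 : X.num.natDegree = 0 := by omega
  have h2 : X.denom.natDegree = 0 := by omega
  obtain ⟨a, ha⟩ := Polynomial.natDegree_eq_zero.1 h1
  have h3 : X.denom = 1 := (RatFunc.monic_denom X).natDegree_eq_zero.1 h2
  refine ⟨a, ?_⟩
  rw [← RatFunc.num_div_denom X, h3, ← ha, map_one, div_one]
  rfl

omit [IsAlgClosed k] in
theorem specC_y_ne (s : k) (x y : RatFunc k) (h : (Wc s).Nonsingular x y)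
    (hx : 0 < rdeg (x / (2 * Fr s))) [IsAlgClosed k] : y ≠ 0 := by
  intro hy
  have hF := specB_Fr_ne s
  have h2 := specB_two_ne (k := k)
  have heq : y ^ 2 = x ^ 3 + 4 * Fr s ^ 2 * x := by
    have h3 := (WeierstrassCurve.Affine.equation_iff _ _).1 h.1
    simpa [Wc] using h3
  set X := x / (2 * Fr s) with hX
  have hxX : x = 2 * Fr s * X := by
    rw [hX]; field_simp
  obtain ⟨i, hi⟩ := IsAlgClosed.exists_pow_nat_eq (-1 : k) (n := 2) (by norm_num)
  have hi' : (RatFunc.C i : RatFunc k) ^ 2 = -1 := by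
    rw [← map_pow, hi]; simp
  have h4 : (8 * Fr s ^ 3) * (X * ((X - RatFunc.C i) * (X + RatFunc.C i))) = 0 := by
    have h5 : (X - RatFunc.C i) * (X + RatFunc.C i) = X ^ 2 + 1 := by
      linear_combination (-1 : RatFunc k) * hi'
    rw [h5]
    rw [hy, hxX] at heq
    linear_combination (-1 : RatFunc k) * heq
  have h8 : (8 : RatFunc k) ≠ 0 := by
    have : (8 : RatFunc k) = 2 ^ 3 := by norm_num
    rw [this]; exact pow_ne_zero 3 h2
  have h6 := (mul_eq_zero.1 h4).resolve_left (mul_ne_zero h8 (pow_ne_zero 3 hF))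
  rcases mul_eq_zero.1 h6 with h7 | h7
  · rw [h7, ← map_zero (RatFunc.C (K := k)), specC_rdeg_C] at hx
    exact lt_irrefl _ hx
  · rcases mul_eq_zero.1 h7 with h9 | h9
    · rw [sub_eq_zero.1 h9, specC_rdeg_C] at hx
      exact lt_irrefl _ hx
    · rw [eq_neg_of_add_eq_zero_left h9, ← map_neg, specC_rdeg_C] at hx
      exact lt_irrefl _ hx

theorem specC_pow (s : k) (x y : RatFunc k) (h : (Wc s).Nonsingular x y)
    (hx : 0 < rdeg (x / (2 * Fr s))) (r : ℕ) :
    ∃ (x' y' : RatFunc k) (h' : (Wc s).Nonsingular x' y'),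
      (2 ^ r) • (WeierstrassCurve.Affine.Point.some x y h : EP s) =
        WeierstrassCurve.Affine.Point.some x' y' h' ∧
      rdeg (x' / (2 * Fr s)) = 4 ^ r * rdeg (x / (2 * Fr s)) := by
  induction r with
  | zero => exact ⟨x, y, h, by simp, by simp⟩
  | succ r ih =>
    obtain ⟨x1, y1, h1, h2, h3⟩ := ih
    have hpos : 0 < rdeg (x1 / (2 * Fr s)) := by rw [h3]; positivity
    obtain ⟨x2, y2, h4, h5, h6⟩ := double_X s x1 y1 h1 (specC_y_ne s x1 y1 h1 hpos)
    refine ⟨x2, y2, h4, ?_, ?_⟩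
    · rw [pow_succ, mul_nsmul, h2, h5]
    · rw [h6, rdeg_dup _ hpos, h3]
      ring

/-- SPEC-C. A point whose `X` is nonconstant has infinite order: the points `2^r P` have
`X`-coordinates of degree `4^r deg X`. -/
theorem infinite_order (s : k) (x y : RatFunc k) (h : (Wc s).Nonsingular x y)
    (hx : 0 < rdeg (x / (2 * Fr s))) (n : ℕ) (hn : 0 < n) :
    n • (WeierstrassCurve.Affine.Point.some x y h : EP s) ≠ 0 := by
  intro h0
  set P : EP s := WeierstrassCurve.Affine.Point.some x y h with hP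
  have hfin : IsOfFinAddOrder P := isOfFinAddOrder_iff_nsmul_eq_zero.2 ⟨n, hn, h0⟩
  have hfin2 : Finite (AddSubmonoid.multiples P) := hfin.finite_multiples
  obtain ⟨r, r', hne, he⟩ := Finite.exists_ne_map_eq_of_infinite
    (fun r : ℕ => (⟨(2 ^ r) • P, ⟨2 ^ r, rfl⟩⟩ : AddSubmonoid.multiples P))
  have he' : (2 ^ r) • P = (2 ^ r') • P := congrArg Subtype.val he
  obtain ⟨x1, y1, h1, h2, h3⟩ := specC_pow s x y h hx r
  obtain ⟨x2, y2, h4, h5, h6⟩ := specC_pow s x y h hx r'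
  rw [← hP] at h2 h5
  rw [h2, h5] at he'
  have hxx : x1 = x2 := by
    injection he'
  rw [hxx, h6] at h3
  have h7 := Nat.eq_of_mul_eq_mul_right hx h3
  exact hne (Nat.pow_right_injective (le_refl (2 : ℕ) |>.trans (by norm_num)) h7).symm

/-- SPEC-C. If `Iso s`, put `X = (φ + ζ)/(φ - ζ)`, `ζ^4 = -1`; then
`φ^4 + 1 = (φ - ζ)^4 (X^3 + X) / 2`. -/
theorem exists_infinite_order (s : k) (hs : s ^ 2 ≠ 4) (h : Iso s) :
    ∃ P : EP s, ∀ n : ℕ, 0 < n → n • P ≠ 0 := by
  obtain ⟨φ, ψ, hφ, hψ, hrel⟩ := h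
  have hF := specB_Fr_ne s
  have h2 := specB_two_ne (k := k)
  obtain ⟨ζ, hζ⟩ := IsAlgClosed.exists_pow_nat_eq (-1 : k) (n := 4) (by norm_num)
  set Z : RatFunc k := RatFunc.C ζ with hZ
  have hZ4 : Z ^ 4 = -1 := by
    rw [hZ, ← map_pow, hζ]; simp
  have hZ0 : Z ≠ 0 := by
    intro h0
    rw [h0] at hZ4
    norm_num at hZ4
  have hd : φ - Z ≠ 0 := fun h0 => hφ ζ (sub_eq_zero.1 h0)
  have h4 : (4 : RatFunc k) ≠ 0 := by
    have : (4 : RatFunc k) = 2 * 2 := by norm_num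
    rw [this]; exact mul_ne_zero h2 h2
  have hy : 4 * Fr s ^ 2 * ψ / (φ - Z) ^ 2 ≠ 0 :=
    div_ne_zero (mul_ne_zero (mul_ne_zero h4 (pow_ne_zero 2 hF)) hψ) (pow_ne_zero 2 hd)
  have heq : (4 * Fr s ^ 2 * ψ / (φ - Z) ^ 2) ^ 2 =
      (2 * Fr s * ((φ + Z) / (φ - Z))) ^ 3 +
        4 * Fr s ^ 2 * (2 * Fr s * ((φ + Z) / (φ - Z))) := by
    have h5 : (2 * Fr s * ((φ + Z) / (φ - Z))) ^ 3 +
        4 * Fr s ^ 2 * (2 * Fr s * ((φ + Z) / (φ - Z))) =
        16 * Fr s ^ 3 * (φ ^ 4 - Z ^ 4) / (φ - Z) ^ 4 := by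
      field_simp
      ring
    rw [h5, hZ4, sub_neg_eq_add, ← hrel]
    field_simp
    ring
  have hns : (Wc s).Nonsingular (2 * Fr s * ((φ + Z) / (φ - Z)))
      (4 * Fr s ^ 2 * ψ / (φ - Z) ^ 2) := by
    rw [WeierstrassCurve.Affine.nonsingular_iff']
    refine ⟨?_, Or.inr ?_⟩
    · rw [WeierstrassCurve.Affine.equation_iff]
      simpa [Wc] using heq
    · simp only [Wc]
      intro h0
      have h1 : 2 * (4 * Fr s ^ 2 * ψ / (φ - Z) ^ 2) = 0 := by linear_combination h0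
      exact (mul_ne_zero h2 hy) h1
  refine ⟨WeierstrassCurve.Affine.Point.some _ _ hns, fun n hn => ?_⟩
  refine infinite_order s _ _ hns ?_ n hn
  have h6 : 2 * Fr s * ((φ + Z) / (φ - Z)) / (2 * Fr s) = (φ + Z) / (φ - Z) := by
    field_simp
  rw [h6]
  by_contra hcon
  obtain ⟨c, hc⟩ := specC_eq_C _ (by omega : rdeg ((φ + Z) / (φ - Z)) = 0)
  rw [div_eq_iff hd] at hc
  have h7 : (1 - RatFunc.C c) * φ = -(Z * (1 + RatFunc.C c)) := by linear_combination hc
  have h8 : (1 : k) - c ≠ 0 := by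
    intro h9
    have h10 : (1 : RatFunc k) - RatFunc.C c = 0 := by
      rw [← map_one (RatFunc.C (K := k)), ← map_sub, h9, map_zero]
    have h11 : 2 * Z = 0 := by linear_combination h7 + (Z - φ) * h10
    exact (mul_ne_zero h2 hZ0) h11
  apply hφ (-(ζ * (1 + c)) / (1 - c))
  have h9 : (1 : RatFunc k) - RatFunc.C c ≠ 0 := by
    intro h10
    apply h8
    apply (RatFunc.C (K := k)).injective
    rw [map_sub, map_one, h10, map_zero]
  rw [map_div₀, map_neg, map_mul, map_add, map_sub, map_one, eq_div_iff h9]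
  linear_combination h7

theorem special_rank_pos (s : k) (hs : s ^ 2 ≠ 4) (h : Iso s) :
    1 ≤ Module.rank ℤ (EP s) := by
  obtain ⟨P, hP⟩ := exists_infinite_order s hs h
  have hinj : Function.Injective (LinearMap.toSpanSingleton ℤ (EP s) P) := by
    rw [← LinearMap.ker_eq_bot, LinearMap.ker_eq_bot']
    intro m hm
    rw [LinearMap.toSpanSingleton_apply] at hm
    by_contra hm0
    have h1 := hP m.natAbs (Int.natAbs_pos.2 hm0)
    apply h1
    rcases Int.natAbs_eq m with h2 | h2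
    · rw [h2] at hm
      rw [← natCast_zsmul]
      exact hm
    · rw [h2, neg_smul, neg_eq_zero] at hm
      rw [← natCast_zsmul]
      exact hm
  have h2 := LinearMap.rank_le_of_injective _ hinj
  rwa [Module.rank_self] at h2

end PicJump

end
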