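import Pool.Agent.Lib_helper43.PJ.D
import Pool.Agent.Lib_helper43.PJ.W_FormA
import Pool.Agent.Lib_helper43.PJ.W_FormB
import Pool.Agent.Lib_helper43.PJ.W_GenE
import Pool.Agent.Lib_helper43.PJ.W_GenF
import Pool.Agent.Lib_helper43.PJ.W_SpecC

/-!
BLOCK FormC of MP_f6fc0c_ag.
-/

noncomputable section

namespace PicJump

open MvPolynomial

variable {k : Type} [Field k] [IsAlgClosed k] [CharZero k]

/-- the same as `generic_rank_zero`, for a derivation given as a function -/
theorem formC_rank_zero (s : k) (hs : s ^ 2 ≠ 4) (d : k → k) (hadd : ∀ x y, d (x + y) = d x + d y)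
    (hmul : ∀ x y, d (x * y) = x * d y + y * d x) (hds : d s ≠ 0) :
    Module.rank ℤ (EP s) = 0 :=
  generic_rank_zero s hs
    (Derivation.mk' ((AddMonoidHom.mk' d hadd).toIntLinearMap) (fun x y => hmul x y)) hds

/-- FORMULA-C. The generic Picard number is 18. -/
theorem rhoGen_G (c₀ c₁ : k) (h : c₀ ≠ c₁) (h0 : c₀ ^ 2 ≠ 4) (h1 : c₁ ^ 2 ≠ 4) :
    rhoGen (G0 c₀) (G1 c₁) = 18 := by
  obtain ⟨d, hdT, hdc⟩ := exists_derivation_genField k
  let g : k →+* GenField k := algebraMap k (GenField k)
  have hg : ∀ c : k, g c = algebraMap (RatFunc k) (GenField k) (RatFunc.C c) := by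
    intro c
    rfl
  let T : GenField k := algebraMap (RatFunc k) (GenField k) RatFunc.X
  have hinj : Function.Injective g := g.injective
  have hdT' : d T = 1 := hdT
  have hdc' : ∀ c : k, d (g c) = 0 := fun c => by rw [hg]; exact hdc c
  have hTne : ∀ c : k, T ≠ g c := by
    intro c hc
    have := congrArg d hc
    rw [hdT', hdc'] at this
    exact one_ne_zero this
  have hT0 : T ≠ 0 := by
    have := hTne 0
    rwa [map_zero] at this
  have hT1 : 1 + T ≠ 0 := by
    intro h'
    apply hTne (-1)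
    rw [map_neg, map_one]
    linear_combination h'
  obtain ⟨s, hs⟩ : ∃ s : GenField k, s = (g c₀ + T * g c₁) / (1 + T) := ⟨_, rfl⟩
  have hst : s * (1 + T) = g c₀ + T * g c₁ := by rw [hs]; field_simp
  -- `d s ≠ 0`
  have hds : d s ≠ 0 := by
    intro hds
    have h2 := congrArg d hst
    simp only [Derivation.leibniz, map_add, hdc', hdT', smul_eq_mul, hds, mul_zero, zero_add,
      add_zero, mul_one, Derivation.map_one_eq_zero] at h2
    -- `s = g c₁`
    have h3 : s = g c₁ := by linear_combination h2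
    rw [h3] at hst
    have h4 : g c₁ = g c₀ := by linear_combination hst
    exact h (hinj h4).symm
  have hs4 : s ^ 2 ≠ 4 := by
    intro h2
    have h3 := congrArg d h2
    have h4 : d (4 : GenField k) = 0 := by
      have := Derivation.map_natCast d 4
      exact_mod_cast this
    rw [h4, pow_two, Derivation.leibniz, smul_eq_mul] at h3
    have h5 : s * d s = 0 := by
      have : (2 : GenField k) * (s * d s) = 0 := by linear_combination h3
      exact (mul_eq_zero.mp this).resolve_left two_ne_zero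
    rcases mul_eq_zero.mp h5 with h6 | h6
    · rw [h6] at h2
      norm_num at h2
    · exact hds h6
  have hmem : rhoGen (G0 c₀) (G1 c₁) = rho (member (G0 (g c₀)) (G1 (g c₁)) 1 T) := by
    rw [rhoGen]
    have e0 : (G0 c₀).map (algebraMap k (GenField k)) = G0 (g c₀) := by
      simp [G0, g]
    have e1 : (G1 c₁).map (algebraMap k (GenField k)) = G1 (g c₁) := by
      simp [G1, g]
    rw [e0, e1]
  rw [hmem, rho_member (g c₀) (g c₁) T s hT0 hT1 hst, rho_IX s hs4,
    formC_rank_zero s hs4 d (fun x y => map_add d x y) (fun x y => d.leibniz x y) hds, add_zero]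

/-- FORMULA-D. Jump points. -/
theorem jump_of_iso (c₀ c₁ t s : k) (h : c₀ ≠ c₁) (h0 : c₀ ^ 2 ≠ 4) (h1 : c₁ ^ 2 ≠ 4)
    (ht : t ≠ 0) (ht1 : 1 + t ≠ 0) (hst : s * (1 + t) = c₀ + t * c₁) (hs : s ^ 2 ≠ 4)
    (hiso : Iso s) : rhoGen (G0 c₀) (G1 c₁) < rho (member (G0 c₀) (G1 c₁) 1 t) := by
  rw [rhoGen_G c₀ c₁ h h0 h1, rho_member c₀ c₁ t s ht ht1 hst, rho_IX s hs]
  have := special_rank_pos s hs hiso
  calc (18 : Cardinal) < 18 + 1 := by
        have : (18 : Cardinal) = ((18 : ℕ) : Cardinal) := by norm_num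
        rw [this]
        exact_mod_cast Nat.lt_succ_self 18
    _ ≤ 18 + Module.rank ℤ (EP s) := by gcongr

end PicJump

end
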