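import Pool.Agent.Lib_helper43.PJ.D
import Pool.Agent.Lib_helper43.PJ.W_FormB
import Pool.Agent.Lib_helper43.PJ.W_FormC
import Pool.Agent.Lib_helper43.PJ.W_CurveG
import Pool.Agent.Lib_helper43.PJ.W_SmoothC

/-!
BLOCK FinA of MP_f6fc0c_ag.
-/

noncomputable section

namespace PicJump

open MvPolynomial

/-- FINAL-A. For a jump parameter `s`, `t = (s - c₀)/(c₁ - s)`, `p` a root of
`p^4 + s p^2 + 1 = 0` and `q^4 = -t`, the class of the divisor `E` of the line is in `Gamma`. -/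
theorem lineDiv_mem_Gamma (c₀ c₁ s : Qbar) (h : c₀ ≠ c₁) (h0 : c₀ ^ 2 ≠ 4) (h1 : c₁ ^ 2 ≠ 4)
    (hs : s ^ 2 ≠ 4) (hs0 : s ≠ c₀) (hs1 : s ≠ c₁) (hiso : Iso s) :
    ∃ p q : Qbar, p ^ 4 + s * p ^ 2 + 1 = 0 ∧ Ac c₀ p ≠ 0 ∧ Ac c₁ p ≠ 0 ∧
      q ^ 4 * Ac c₁ p = Ac c₀ p ∧
      ∀ E, IsLineDiv c₀ c₁ p q E → Cl.mk E ∈ Gamma (G0 c₀) (G1 c₁) := by
  have hd : c₁ - s ≠ 0 := sub_ne_zero.mpr (Ne.symm hs1)
  obtain ⟨t, ht⟩ : ∃ t : Qbar, t = (s - c₀) / (c₁ - s) := ⟨_, rfl⟩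
  have htd : t * (c₁ - s) = s - c₀ := by rw [ht]; field_simp
  have ht0 : t ≠ 0 := by
    intro h
    rw [h, zero_mul] at htd
    exact hs0 (sub_eq_zero.mp htd.symm)
  have hst : s * (1 + t) = c₀ + t * c₁ := by linear_combination -htd
  have ht1 : 1 + t ≠ 0 := by
    intro h'
    have : t = -1 := by linear_combination h'
    rw [this] at htd
    exact h (by linear_combination htd)
  -- a root `p`
  obtain ⟨p, hp⟩ : ∃ p : Qbar, p ^ 4 + s * p ^ 2 + 1 = 0 := by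
    have hdeg : (Polynomial.X ^ 4 + Polynomial.C s * Polynomial.X ^ 2 + 1 :
        Polynomial Qbar).degree ≠ 0 := by
      have : (Polynomial.X ^ 4 + Polynomial.C s * Polynomial.X ^ 2 + 1 :
        Polynomial Qbar).degree = 4 := by compute_degree!
      rw [this]; norm_num
    obtain ⟨p, hp⟩ := IsAlgClosed.exists_root _ hdeg
    refine ⟨p, ?_⟩
    simpa [Polynomial.IsRoot] using hp
  obtain ⟨q, hq⟩ : ∃ q : Qbar, q ^ 4 = -t := by
    obtain ⟨q, hq⟩ := IsAlgClosed.exists_pow_nat_eq (-t) (n := 4) (by norm_num)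
    exact ⟨q, hq⟩
  have hp2 : p ≠ 0 := by
    rintro rfl
    simp at hp
  have hA0 : Ac c₀ p = (c₀ - s) * p ^ 2 := by rw [Ac]; linear_combination hp
  have hA1 : Ac c₁ p = (c₁ - s) * p ^ 2 := by rw [Ac]; linear_combination hp
  have hp0 : Ac c₀ p ≠ 0 := by
    rw [hA0]; exact mul_ne_zero (sub_ne_zero.mpr (Ne.symm hs0)) (pow_ne_zero 2 hp2)
  have hp1 : Ac c₁ p ≠ 0 := by
    rw [hA1]; exact mul_ne_zero hd (pow_ne_zero 2 hp2)
  have hpt : Ac c₀ p + t * Ac c₁ p = 0 := by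
    rw [hA0, hA1]; linear_combination p ^ 2 * htd
  refine ⟨p, q, hp, hp0, hp1, ?_, ?_⟩
  · rw [hq]; linear_combination -hpt
  intro E hE
  obtain ⟨hprime, hsm⟩ := member_prime_smooth c₀ c₁ t s ht0 ht1 hst hs
  obtain ⟨L, -, hLr⟩ := line_restriction h h0 h1 t p q ht0 hpt hq hp0 hp1 hprime
  have hadm := admissible_G c₀ c₁ h h0 h1
  have hF : (C 1 * G0 c₀ + C t * G1 c₁ : Pol Qbar).IsHomogeneous 4 := by
    refine MvPolynomial.IsHomogeneous.add ?_ ?_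
    · simpa using (MvPolynomial.isHomogeneous_C (Fin 4) (1 : Qbar)).mul hadm.hom0
    · simpa using (MvPolynomial.isHomogeneous_C (Fin 4) t).mul hadm.hom1
  have hF0 : (C 1 * G0 c₀ + C t * G1 c₁ : Pol Qbar) ≠ 0 := by
    intro h0
    have h2 : eval ![0, 0, 1, 0] (C 1 * G0 c₀ + C t * G1 c₁ : Pol Qbar) = -1 := by
      simp [G0, G1]
    rw [h0, map_zero] at h2
    norm_num at h2
  refine AddSubgroup.subset_closure ⟨1, t, Or.inl one_ne_zero,
    jump_of_iso c₀ c₁ t s h h0 h1 ht0 ht1 hst hs hiso, Finsupp.single L 1, E, ?_, hLr E hE, rfl⟩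
  exact smooth_locallyPrincipal hF (by norm_num) hprime hF0 hsm _

end PicJump

end
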