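import Pool.Agent.Lib_helper43.PJ.D
import Pool.Agent.Lib_helper43.PJ.W_TransA

/-!
BLOCK GalA of MP_f6fc0c_ag.
-/

noncomputable section

namespace PicJump

open MvPolynomial

theorem galA_primeDiv_ext {k : Type} [Field k] {I : Ideal (Pol k)} {Q Q' : PrimeDiv I}
    (h : Q.carrier = Q'.carrier) : Q = Q' := by
  cases Q
  cases Q'
  simp only at h
  subst h
  rfl

theorem galA_homog (θ : Qbar ≃+* Qbar) :
    HomogIso (MvPolynomial.mapEquiv (Fin 4) θ : Pol Qbar ≃+* Pol Qbar) := by
  intro f n
  change _ ↔ (MvPolynomial.map (θ : Qbar →+* Qbar) f).IsHomogeneous n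
  constructor
  · intro h
    exact h.map _
  · intro h
    have h2 := h.map (θ.symm : Qbar →+* Qbar)
    rw [MvPolynomial.map_map] at h2
    have h3 : ((θ.symm : Qbar →+* Qbar).comp (θ : Qbar →+* Qbar)) = RingHom.id Qbar := by
      ext x
      simp
    rw [h3, MvPolynomial.map_id] at h2
    exact h2

theorem galA_mk_eq {k : Type} [Field k] {I : Ideal (Pol k)} {D D' : PrimeDiv I →₀ ℤ} :
    (Cl.mk D : Cl I) = Cl.mk D' ↔ D' - D ∈ Princ I := by
  rw [Cl.mk, Cl.mk, QuotientAddGroup.eq, neg_add_eq_sub]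

theorem fg_fixed (c₀ c₁ : Qbar) (G : AddSubgroup (Cl (base (G0 c₀) (G1 c₁)))) (hG : G.FG) :
    ∃ L : IntermediateField ℚ Qbar, FiniteDimensional ℚ L ∧ c₀ ∈ L ∧ c₁ ∈ L ∧
      ∀ θ : Qbar ≃ₐ[L] Qbar,
        ∀ E : PrimeDiv (base (G0 c₀) (G1 c₁)) ≃ PrimeDiv (base (G0 c₀) (G1 c₁)),
          (∀ Q, (E Q).carrier =
            Q.carrier.map (MvPolynomial.map (θ : Qbar →+* Qbar) : Pol Qbar →+* Pol Qbar)) →
          ∀ D : PrimeDiv (base (G0 c₀) (G1 c₁)) →₀ ℤ, Cl.mk D ∈ G →
            Finsupp.equivMapDomain E D - D ∈ Princ (base (G0 c₀) (G1 c₁)) := by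
  classical
  obtain ⟨S, hS⟩ := hG
  -- representatives
  have hrep : ∀ c : Cl (base (G0 c₀) (G1 c₁)), ∃ D, Cl.mk D = c := fun c =>
    QuotientAddGroup.mk_surjective c
  choose R hR using hrep
  -- generators of the ideals
  have hgen : ∀ Q : PrimeDiv (base (G0 c₀) (G1 c₁)), ∃ s : Finset (Pol Qbar),
      Ideal.span (s : Set (Pol Qbar)) = Q.carrier := by
    intro Q
    have := IsNoetherian.noetherian Q.carrier
    exact this
  choose gen hgen using hgen
  let T : Finset Qbar := {c₀, c₁} ∪ S.biUnion (fun c => (R c).support.biUnion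
    (fun Q => (gen Q).biUnion (fun f => f.support.image (fun m => f.coeff m))))
  let L : IntermediateField ℚ Qbar := IntermediateField.adjoin ℚ (T : Set Qbar)
  have i0 : Algebra.IsAlgebraic ℚ Qbar := AlgebraicClosure.isAlgebraic ℚ
  have hTL : ∀ x ∈ T, x ∈ L := fun x hx => IntermediateField.subset_adjoin _ _ hx
  refine ⟨L, ?_, hTL _ (by simp [T]), hTL _ (by simp [T]), ?_⟩
  · exact IntermediateField.finiteDimensional_adjoin
      (fun x _ => Algebra.IsIntegral.isIntegral x)
  intro θ E hE
  have hθ : ∀ x ∈ T, θ x = x := fun x hx => θ.commutes ⟨x, hTL x hx⟩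
  -- E fixes the prime divisors in the supports
  have hfix : ∀ c ∈ S, ∀ Q ∈ (R c).support, E Q = Q := by
    intro c hc Q hQ
    apply galA_primeDiv_ext
    rw [hE, ← hgen Q, Ideal.map_span]
    congr 1
    have himg : ∀ f ∈ gen Q, MvPolynomial.map (θ : Qbar →+* Qbar) f = f := by
      intro f hf
      ext m
      rw [MvPolynomial.coeff_map]
      by_cases hm : f.coeff m = 0
      · rw [hm]; simp
      · apply hθ
        simp only [T, Finset.mem_union, Finset.mem_biUnion, Finset.mem_image]
        exact Or.inr ⟨c, hc, Q, hQ, f, hf, m, MvPolynomial.mem_support_iff.mpr hm, rfl⟩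
    ext f
    constructor
    · rintro ⟨g, hg, rfl⟩
      rw [himg g hg]
      exact hg
    · intro hf
      exact ⟨f, hf, himg f hf⟩
  have hfixD : ∀ c ∈ S, Finsupp.equivMapDomain E (R c) = R c := by
    intro c hc
    ext Q
    rw [Finsupp.equivMapDomain_apply]
    by_cases hQ : Q ∈ (R c).support
    · have := hfix c hc Q hQ
      rw [show E.symm Q = Q from by rw [Equiv.symm_apply_eq]; exact this.symm]
    · have h2 : E.symm Q ∉ (R c).support := by
        intro h3
        apply hQ
        have := hfix c hc _ h3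
        rw [Equiv.apply_symm_apply] at this
        rw [this]
        exact h3
      rw [Finsupp.notMem_support_iff.mp hQ, Finsupp.notMem_support_iff.mp h2]
  -- E preserves principal divisors
  have hθc0 : θ c₀ = c₀ := hθ _ (by simp [T])
  have hθc1 : θ c₁ = c₁ := hθ _ (by simp [T])
  let e : Pol Qbar ≃+* Pol Qbar := MvPolynomial.mapEquiv (Fin 4) (θ : Qbar ≃+* Qbar)
  have hbase : base (G0 c₀) (G1 c₁) =
      (base (G0 c₀) (G1 c₁)).map (e : Pol Qbar →+* Pol Qbar) := by
    rw [base, Ideal.map_span]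
    congr 1
    have e1 : (e : Pol Qbar →+* Pol Qbar) (G0 c₀) = G0 c₀ := by
      change MvPolynomial.map (θ : Qbar →+* Qbar) (G0 c₀) = G0 c₀
      simp [G0, hθc0]
    have e2 : (e : Pol Qbar →+* Pol Qbar) (G1 c₁) = G1 c₁ := by
      change MvPolynomial.map (θ : Qbar →+* Qbar) (G1 c₁) = G1 c₁
      simp [G1, hθc1]
    rw [Set.image_pair, e1, e2]
  have hpres : ∀ D, D ∈ Princ (base (G0 c₀) (G1 c₁)) →
      Finsupp.equivMapDomain E D - D ∈ Princ (base (G0 c₀) (G1 c₁)) := by
    intro D hD
    refine AddSubgroup.sub_mem _ ?_ hD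
    exact (princ_transport e (galA_homog _) _ _ hbase E (fun Q => hE Q) D).mpr hD
  have hadd : ∀ D D' : PrimeDiv (base (G0 c₀) (G1 c₁)) →₀ ℤ, Finsupp.equivMapDomain E (D + D') =
      Finsupp.equivMapDomain E D + Finsupp.equivMapDomain E D' := by
    intro D D'
    ext Q
    simp [Finsupp.equivMapDomain_apply]
  have hneg : ∀ D : PrimeDiv (base (G0 c₀) (G1 c₁)) →₀ ℤ, Finsupp.equivMapDomain E (-D) = -Finsupp.equivMapDomain E D := by
    intro D
    ext Q
    simp [Finsupp.equivMapDomain_apply]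
  have key : ∀ c ∈ AddSubgroup.closure (S : Set (Cl (base (G0 c₀) (G1 c₁)))),
      ∀ D, Cl.mk D = c → Finsupp.equivMapDomain E D - D ∈ Princ (base (G0 c₀) (G1 c₁)) := by
    intro c hc
    induction hc using AddSubgroup.closure_induction with
    | mem c hc =>
      intro D hD
      have h1 : D - R c ∈ Princ (base (G0 c₀) (G1 c₁)) := by
        rw [← galA_mk_eq, hR, hD]
      have h2 := hpres _ h1
      have h3 : Finsupp.equivMapDomain E D - D =
          Finsupp.equivMapDomain E (D - R c) - (D - R c) := by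
        rw [sub_eq_add_neg D (R c), hadd, hneg, hfixD c hc]
        abel
      rw [h3]
      exact h2
    | zero =>
      intro D hD
      apply hpres
      have : (Cl.mk (0 : PrimeDiv (base (G0 c₀) (G1 c₁)) →₀ ℤ) :
          Cl (base (G0 c₀) (G1 c₁))) = Cl.mk D := by rw [hD]; rfl
      rw [galA_mk_eq, sub_zero] at this
      exact this
    | add a b ha hb iha ihb =>
      intro D hD
      have h1 := iha (R a) (hR a)
      have h2 := ihb (D - R a) (by
        have : (Cl.mk (D - R a) : Cl (base (G0 c₀) (G1 c₁))) = Cl.mk D - Cl.mk (R a) := rfl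
        rw [this, hD, hR]
        abel)
      have h3 : Finsupp.equivMapDomain E D - D =
          (Finsupp.equivMapDomain E (R a) - R a) +
            (Finsupp.equivMapDomain E (D - R a) - (D - R a)) := by
        rw [sub_eq_add_neg D (R a), hadd, hneg]
        abel
      rw [h3]
      exact AddSubgroup.add_mem _ h1 h2
    | neg a ha iha =>
      intro D hD
      have h1 := iha (-D) (by
        have : (Cl.mk (-D) : Cl (base (G0 c₀) (G1 c₁))) = -Cl.mk D := rfl
        rw [this, hD, neg_neg])
      rw [hneg] at h1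
      have h3 : Finsupp.equivMapDomain E D - D = -(-Finsupp.equivMapDomain E D - -D) := by abel
      rw [h3]
      exact AddSubgroup.neg_mem _ h1
  intro D hD
  rw [← hS] at hD
  exact key _ hD D rfl

end PicJump

end
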