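import Pool.Agent.Lib_helper43.PJ.D

/-!
BLOCK GalB of MP_f6fc0c_ag.
-/

noncomputable section

namespace PicJump

open MvPolynomial

/-- GAL-B. an element of `Qbar` fixed by all automorphisms over `L` lies in `L` -/
theorem mem_of_fixed (L : IntermediateField ℚ Qbar) (x : Qbar)
    (h : ∀ θ : Qbar ≃ₐ[L] Qbar, θ x = x) : x ∈ L := by
  have i0 : Algebra.IsAlgebraic ℚ Qbar := AlgebraicClosure.isAlgebraic ℚ
  have i1 : Algebra.IsAlgebraic L Qbar := Algebra.IsAlgebraic.tower_top (K := ℚ) L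
  have i2 : IsAlgClosure L Qbar := ⟨inferInstance, i1⟩
  have i3 : IsGalois L Qbar := IsGalois.mk
  obtain ⟨y, hy⟩ := (InfiniteGalois.mem_bot_iff_fixed x).mpr h
  rw [← hy]
  exact y.2

end PicJump

end
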