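import Pool.Agent.Lib_helper43.PJ.D

/-!
BLOCK SpecA of MP_f6fc0c_ag.
BLOCKS SPEC (special parameters: the curve has a point of infinite order).
-/

noncomputable section

namespace PicJump

open Polynomial

variable {k : Type} [Field k] [IsAlgClosed k] [CharZero k]

set_option linter.unusedSectionVars false

omit [IsAlgClosed k] [CharZero k] in
theorem specA_X_ne_C (c : k) : (RatFunc.X : RatFunc k) ≠ RatFunc.C c := by
  intro h
  have h1 : algebraMap k[X] (RatFunc k) X = algebraMap k[X] (RatFunc k) (Polynomial.C c) := by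
    rw [RatFunc.algebraMap_X, RatFunc.algebraMap_C, h]
  have h2 := RatFunc.algebraMap_injective k h1
  exact Polynomial.X_ne_C c h2

/-- SPEC-A. `φ = a`, `ψ = 1`. -/
theorem iso_zero : Iso (0 : k) := by
  refine ⟨RatFunc.X, 1, specA_X_ne_C, one_ne_zero, ?_⟩
  simp [Fr, Fp, RatFunc.algebraMap_X]

omit [CharZero k] in
theorem specA_transcendental (x : RatFunc k) (hx : ∀ c : k, x ≠ RatFunc.C c) :
    Transcendental k x := by
  intro halg
  have hint : IsIntegral k x := isAlgebraic_iff_isIntegral.1 halg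
  obtain ⟨r, hr⟩ := minpoly.mem_range_of_degree_eq_one k x
    (IsAlgClosed.degree_eq_one_of_irreducible k (minpoly.irreducible hint))
  apply hx r
  rw [← hr]
  rfl

omit [CharZero k] in
theorem specA_exists_hom (x : RatFunc k) (hx : ∀ c : k, x ≠ RatFunc.C c) :
    ∃ σ : RatFunc k →ₐ[k] RatFunc k, σ RatFunc.X = x := by
  have hinj : Function.Injective (aeval x : k[X] →ₐ[k] RatFunc k) :=
    transcendental_iff_injective.1 (specA_transcendental x hx)
  refine ⟨IsFractionRing.liftAlgHom (K := RatFunc k) hinj, ?_⟩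
  rw [← RatFunc.algebraMap_X]
  rw [IsFractionRing.liftAlgHom_apply, IsFractionRing.lift_algebraMap]
  simp

/-- SPEC-A. One step of the chain of 2-isogenies.  With `λ^2 = 2 q`, `a' = (a + 1/a) / λ`,
`s = - (4 + q^2) / (2 q)`, `s' = 2 - q^2`: `F_s(a') = F_{s'}(a) ((a - 1/a) / (a λ^2))^2`. So substitute
`a -> a'` in `F_s ψ^2 = φ^4 + 1` (a `k`-algebra endomorphism of `k(a)`). -/
theorem iso_step {s q : k} (hq : q ^ 2 + 2 * s * q + 4 = 0) (h : Iso s) : Iso (2 - q ^ 2) := by
  obtain ⟨φ, ψ, hφ, hψ, hrel⟩ := h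
  have hq0 : q ≠ 0 := by
    rintro rfl
    norm_num at hq
  obtain ⟨l, hl⟩ := IsAlgClosed.exists_pow_nat_eq (2 * q) (n := 2) (by norm_num)
  have hl0 : l ≠ 0 := by
    rintro rfl
    apply hq0
    have : (2 : k) * q = 0 := by rw [← hl]; ring
    exact (mul_eq_zero.1 this).resolve_left two_ne_zero
  have hX0 : (RatFunc.X : RatFunc k) ≠ 0 := RatFunc.X_ne_zero
  have hCl0 : (RatFunc.C l : RatFunc k) ≠ 0 := by
    rwa [Ne, map_eq_zero]
  set x : RatFunc k := (RatFunc.X + 1 / RatFunc.X) / RatFunc.C l with hxdef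
  have hx : ∀ c : k, x ≠ RatFunc.C c := by
    intro c hc
    have h1 : (RatFunc.X : RatFunc k) ^ 2 - RatFunc.C (l * c) * RatFunc.X + 1 = 0 := by
      have h2 : RatFunc.X + 1 / RatFunc.X = RatFunc.C c * RatFunc.C l := by
        rw [← hc, hxdef, div_mul_cancel₀ _ hCl0]
      have h3 : (RatFunc.X : RatFunc k) ^ 2 + 1 = RatFunc.C c * RatFunc.C l * RatFunc.X := by
        rw [← h2]
        field_simp
      rw [map_mul]
      linear_combination h3
    have h4 : algebraMap k[X] (RatFunc k) (X ^ 2 - Polynomial.C (l * c) * X + 1) = 0 := by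
      simpa [RatFunc.algebraMap_X, RatFunc.algebraMap_C] using h1
    have h5 : (X ^ 2 - Polynomial.C (l * c) * X + 1 : k[X]) = 0 :=
      RatFunc.algebraMap_injective k (by rw [h4, map_zero])
    have h6 := congrArg (Polynomial.eval 0) h5
    simp at h6
  obtain ⟨σ, hσ⟩ := specA_exists_hom x hx
  have hσC : ∀ c : k, σ (RatFunc.C c) = RatFunc.C c := fun c => σ.commutes c
  have hσinj : Function.Injective σ := σ.toRingHom.injective
  have hFr : ∀ t : k, Fr t = RatFunc.X ^ 4 + RatFunc.C t * RatFunc.X ^ 2 + 1 := by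
    intro t
    simp [Fr, Fp, RatFunc.algebraMap_X, RatFunc.algebraMap_C]
  have hC2 : (RatFunc.C (2 : k) : RatFunc k) = 2 := map_ofNat _ 2
  have hC4 : (RatFunc.C (4 : k) : RatFunc k) = 4 := map_ofNat _ 4
  have hCq : (RatFunc.C l : RatFunc k) ^ 2 = 2 * RatFunc.C q := by
    rw [← map_pow, hl, map_mul, hC2]
  have hCq0 : (RatFunc.C q : RatFunc k) ≠ 0 := by
    rwa [Ne, map_eq_zero]
  have hCs : (RatFunc.C q : RatFunc k) ^ 2 + 2 * RatFunc.C s * RatFunc.C q + 4 = 0 := by
    have h1 := congrArg (RatFunc.C : k → RatFunc k) hq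
    rwa [map_add, map_add, map_mul, map_mul, map_pow, hC2, hC4, map_zero] at h1
  have hkey : σ (Fr s) = Fr (2 - q ^ 2) *
      ((RatFunc.X - 1 / RatFunc.X) / (RatFunc.X * (2 * RatFunc.C q))) ^ 2 := by
    rw [hFr, hFr]
    simp only [map_add, map_mul, map_pow, map_one, hσ, hσC, map_sub, hxdef]
    rw [hC2]
    have e4 : ((RatFunc.X + 1 / RatFunc.X : RatFunc k) / RatFunc.C l) ^ 2 =
        (RatFunc.X + 1 / RatFunc.X) ^ 2 / (2 * RatFunc.C q) := by
      rw [div_pow, hCq]
    have e5 : ((RatFunc.X + 1 / RatFunc.X : RatFunc k) / RatFunc.C l) ^ 4 =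
        ((RatFunc.X + 1 / RatFunc.X) ^ 2 / (2 * RatFunc.C q)) ^ 2 := by
      rw [← e4]
      ring
    rw [e4, e5]
    have e6 : (RatFunc.C s : RatFunc k) = -(RatFunc.C q ^ 2 + 4) / (2 * RatFunc.C q) := by
      rw [eq_div_iff (mul_ne_zero two_ne_zero hCq0)]
      linear_combination hCs
    rw [e6]
    field_simp
    ring
  refine ⟨σ φ, ((RatFunc.X - 1 / RatFunc.X) / (RatFunc.X * (2 * RatFunc.C q))) * σ ψ, ?_, ?_, ?_⟩
  · intro c hc
    apply hφ c
    apply hσinj
    rw [hc, hσC]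
  · refine mul_ne_zero (div_ne_zero ?_ (mul_ne_zero hX0 (mul_ne_zero two_ne_zero hCq0))) ?_
    · intro h0
      have h1 : (RatFunc.X : RatFunc k) ^ 2 - 1 = 0 := by
        have : (RatFunc.X : RatFunc k) * (RatFunc.X - 1 / RatFunc.X) = 0 := by rw [h0, mul_zero]
        rw [mul_sub, mul_one_div_cancel hX0] at this
        linear_combination this
      have h4 : algebraMap k[X] (RatFunc k) (X ^ 2 - 1) = 0 := by
        simpa [RatFunc.algebraMap_X] using h1
      have h5 : (X ^ 2 - 1 : k[X]) = 0 :=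
        RatFunc.algebraMap_injective k (by rw [h4, map_zero])
      have h6 := congrArg (Polynomial.eval 0) h5
      simp at h6
    · rwa [Ne, map_eq_zero_iff σ hσinj]
  · have h7 := congrArg σ hrel
    rw [map_mul, map_add, map_pow, map_pow, map_one, hkey] at h7
    rw [← h7]
    ring

end PicJump

end
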