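import Pool.Agent.Lib_helper43.PJ.D
import Pool.Agent.Lib_helper43.PJ.W_SpecA

/-!
BLOCK SpecE of MP_f6fc0c_ag.
BLOCKS SPEC (special parameters: the curve has a point of infinite order).
-/

noncomputable section

namespace PicJump

open Polynomial

section aux

instance specE_fact : Fact (Nat.Prime 2) := ⟨Nat.prime_two⟩

variable {K : Type} [NormedField K] [IsUltrametricDist K]

theorem specE_add {x y : K} (h : ‖x‖ < ‖y‖) : ‖x + y‖ = ‖y‖ := by
  rw [IsUltrametricDist.norm_add_eq_max_of_norm_ne_norm h.ne, max_eq_right h.le]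

theorem specE_add' {x y : K} (h : ‖y‖ < ‖x‖) : ‖x + y‖ = ‖x‖ := by
  rw [IsUltrametricDist.norm_add_eq_max_of_norm_ne_norm h.ne', max_eq_left h.le]

theorem specE_two_pow (h2 : ‖(2 : K)‖ = 1 / 2) : ‖(4 : K)‖ = 1 / 4 := by
  have : (4 : K) = 2 * 2 := by norm_num
  rw [this, norm_mul, h2]; norm_num

theorem specE_hom : Nonempty (AlgebraicClosure ℚ →+* PadicAlgCl 2) := by
  have halg := AlgebraicClosure.isAlgebraic ℚ
  exact ⟨(@IsAlgClosed.lift (PadicAlgCl 2) _ _ ℚ _ _ (AlgebraicClosure ℚ) _ _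
    (AlgebraicClosure.instAlgebra ℚ) _ _ _ halg).toRingHom⟩

/-- both roots have absolute value `1/2` -/
theorem specE_q (h2 : ‖(2 : K)‖ = 1 / 2) {s q : K} (hs : ‖s‖ = 1 / 2)
    (hq : q ^ 2 + 2 * s * q + 4 = 0) : ‖q‖ = 1 / 2 := by
  have h4 := specE_two_pow h2
  have e1 : ‖2 * s * q‖ = ‖q‖ / 4 := by
    rw [norm_mul, norm_mul, h2, hs]; ring
  have e2 : ‖q ^ 2‖ = ‖q‖ ^ 2 := norm_pow _ _
  have hq0 : 0 ≤ ‖q‖ := norm_nonneg q
  rcases lt_trichotomy ‖q‖ (1 / 2) with h | h | h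
  · exfalso
    have h3 : ‖q ^ 2 + 2 * s * q‖ ≤ max ‖q ^ 2‖ ‖2 * s * q‖ := IsUltrametricDist.norm_add_le_max _ _
    have h5 : ‖q ^ 2 + 2 * s * q‖ < ‖(4 : K)‖ := by
      refine lt_of_le_of_lt h3 (max_lt ?_ ?_)
      · rw [e2, h4]; nlinarith
      · rw [e1, h4]; linarith
    have h6 := specE_add h5
    rw [hq, norm_zero, h4] at h6
    norm_num at h6
  · exact h
  · exfalso
    have h3 : ‖2 * s * q + 4‖ ≤ max ‖2 * s * q‖ ‖(4 : K)‖ := IsUltrametricDist.norm_add_le_max _ _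
    have h5 : ‖2 * s * q + 4‖ < ‖q ^ 2‖ := by
      refine lt_of_le_of_lt h3 (max_lt ?_ ?_)
      · rw [e1, e2]; nlinarith
      · rw [e2, h4]; nlinarith
    have h6 := specE_add' h5
    rw [← add_assoc, hq, norm_zero, e2] at h6
    nlinarith

/-- the recursion for the absolute values -/
theorem specE_step (h2 : ‖(2 : K)‖ = 1 / 2) {s q : K} (ht : ‖s + 2‖ ≤ 1 / 8)
    (hq : q ^ 2 + 2 * s * q + 4 = 0) : ‖(2 - q ^ 2) + 2‖ ^ 2 = ‖s + 2‖ / 64 := by
  have h4 := specE_two_pow h2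
  have hs : ‖s‖ = 1 / 2 := by
    have h3 : ‖s + 2 + (-2)‖ = ‖(-2 : K)‖ := by
      apply specE_add
      rw [norm_neg, h2]
      linarith
    rw [norm_neg, h2] at h3
    rw [← h3]
    congr 1
    ring
  have hqn := specE_q h2 hs hq
  have h5 : ‖s - 2‖ = 1 / 4 := by
    have h3 : ‖s + 2 + (-4)‖ = ‖(-4 : K)‖ := by
      apply specE_add
      rw [norm_neg, h4]
      linarith
    rw [norm_neg, h4] at h3
    rw [← h3]
    congr 1
    ring
  have h6 : (q - 2) ^ 2 = -(2 * q * (s + 2)) := by linear_combination hq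
  have h7 : (q + 2) ^ 2 = -(2 * q * (s - 2)) := by linear_combination hq
  have h8 : ‖q - 2‖ ^ 2 = ‖s + 2‖ / 4 := by
    rw [← norm_pow, h6, norm_neg, norm_mul, norm_mul, h2, hqn]; ring
  have h9 : ‖q + 2‖ ^ 2 = 1 / 16 := by
    rw [← norm_pow, h7, norm_neg, norm_mul, norm_mul, h2, hqn, h5]; norm_num
  have h10 : (2 - q ^ 2) + 2 = -((q - 2) * (q + 2)) := by ring
  rw [h10, norm_neg, norm_mul, mul_pow, h8, h9]
  ring

theorem specE_li {E ι : Type} [Field E] [CharZero E] (φ : E →+* K) (t : ι → E)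
    (h0 : ∀ i, t i ≠ 0)
    (h : ∀ i j, i ≠ j → ∀ a b : ℚ, a ≠ 0 → b ≠ 0 → ‖φ (a • t i)‖ ≠ ‖φ (b • t j)‖) :
    LinearIndependent ℚ t := by
  classical
  rw [linearIndependent_iff']
  intro S g hg i hi
  by_contra hgi
  set S' := S.filter (fun j => g j ≠ 0) with hS'
  have hiS' : i ∈ S' := Finset.mem_filter.mpr ⟨hi, hgi⟩
  have h1 : ∑ j ∈ S', g j • t j = 0 := by
    rw [← hg, hS', Finset.sum_filter]
    refine Finset.sum_congr rfl fun j _ => ?_
    by_cases hj : g j = 0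
    · simp [hj]
    · simp [hj]
  have h2 : ‖∑ j ∈ S', φ (g j • t j)‖ = S'.sup' ⟨i, hiS'⟩ (fun j => ‖φ (g j • t j)‖) := by
    apply IsUltrametricDist.norm_sum_eq_sup'_of_pairwise_ne
    intro j hj l hl hjl
    exact h j l hjl _ _ (Finset.mem_filter.mp hj).2 (Finset.mem_filter.mp hl).2
  rw [← map_sum, h1, map_zero, norm_zero] at h2
  have h3 : ‖φ (g i • t i)‖ ≤ S'.sup' ⟨i, hiS'⟩ (fun j => ‖φ (g j • t j)‖) :=
    Finset.le_sup' (fun j => ‖φ (g j • t j)‖) hiS'
  rw [← h2] at h3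
  have h4 : φ (g i • t i) = 0 := norm_le_zero_iff.mp h3
  have h5 : g i • t i = 0 := (map_eq_zero φ).mp h4
  rcases smul_eq_zero.mp h5 with h6 | h6
  · exact hgi h6
  · exact h0 i h6

/-- the numbers `x_n`, `x_n ^ (2 ^ n) = 8`, are pairwise distinct modulo powers of `2` -/
theorem specE_coset {x y : ℝ} {n m : ℕ} (hx : x ^ 2 ^ n = 8) (hy : y ^ 2 ^ m = 8)
    (hnm : n < m) (a b : ℤ) (hab : (2 : ℝ) ^ a * x = 2 ^ b * y) : False := by
  have h1 : ((2 : ℝ) ^ a * x) ^ 2 ^ m = (2 ^ b * y) ^ 2 ^ m := by rw [hab]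
  rw [mul_pow, mul_pow, hy] at h1
  have h2 : x ^ 2 ^ m = (8 : ℝ) ^ 2 ^ (m - n) := by
    rw [← hx, ← pow_mul, ← pow_add]
    congr 2
    omega
  rw [h2] at h1
  have h8 : (8 : ℝ) = (2 : ℝ) ^ (3 : ℤ) := by norm_num
  rw [h8, ← zpow_natCast, ← zpow_natCast, ← zpow_natCast, ← zpow_mul, ← zpow_mul, ← zpow_mul,
    ← zpow_add₀ (by norm_num), ← zpow_add₀ (by norm_num)] at h1
  have h3 := zpow_right_injective₀ (by norm_num : (0 : ℝ) < 2) (by norm_num) h1
  push_cast at h3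
  obtain ⟨c, hc⟩ : ∃ c, m = c + 1 := ⟨m - 1, by omega⟩
  obtain ⟨e, he⟩ : ∃ e, m - n = e + 1 := ⟨m - n - 1, by omega⟩
  rw [he, hc, pow_succ, pow_succ] at h3
  have h4 : 2 * (a * 2 ^ c + 3 * 2 ^ e) = 2 * (b * 2 ^ c + 1) + 1 := by
    linear_combination h3
  omega

end aux

/-- SPEC-E. The 2-adic part.  `s_0 = 0`, `q_n^2 + 2 s_n q_n + 4 = 0`, `s_{n+1} = 2 - q_n^2`.
Embed `AlgebraicClosure ℚ` in `PadicAlgCl 2` and let `|.|` be the norm, `|2| = 1/2`.
`s_1 = 6`, `|s_1 + 2| = 2^{-3}`, and for `n >= 1`: `|s_n| = 1/2`, both roots `q` have `|q| = 1/2`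
(`q q' = 4`, `q + q' = -2 s_n`), `(q - 2)^2 = -2 q (s_n + 2)`, `(q + 2)^2 = -2 q (s_n - 2)`,
`s_{n+1} + 2 = (2 - q)(2 + q)`; so `|s_{n+1} + 2|^2 = 2^{-6} |s_n + 2|`, i.e.
`(2^6 |s_n + 2|)^{2^{n-1}} = 8`.  So the values `|s_n + 2|`, `n >= 1`, are in distinct cosets of
`2^ℤ`, hence the `s_n + 2` are linearly independent over `ℚ`, and only finitely many can lie in a
finite extension of `ℚ`. -/
theorem exists_seq :
    ∃ s : ℕ → AlgebraicClosure ℚ, (∀ n, Iso (s n)) ∧ (∀ n, s n ^ 2 ≠ 4) ∧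
      ∀ L : IntermediateField ℚ (AlgebraicClosure ℚ), FiniteDimensional ℚ L →
        {n | s n ∈ L}.Finite := by
  classical
  -- the embedding
  obtain ⟨φ⟩ := specE_hom
  have h2 : ‖(2 : PadicAlgCl 2)‖ = 1 / 2 := by
    have h3 := PadicAlgCl.norm_extends 2 (2 : ℚ_[2])
    have h4 : ((2 : ℚ_[2]) : PadicAlgCl 2) = 2 := map_ofNat (algebraMap ℚ_[2] (PadicAlgCl 2)) 2
    rw [h4] at h3
    rw [h3]
    have h5 := Padic.norm_p (p := 2)
    norm_num at h5 ⊢
    exact h5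
  have hrat : ∀ a : ℚ, a ≠ 0 → ∃ n : ℤ, ‖(a : PadicAlgCl 2)‖ = (2 : ℝ) ^ n := by
    intro a ha
    have h3 := PadicAlgCl.norm_extends 2 (a : ℚ_[2])
    have h4 : ((a : ℚ_[2]) : PadicAlgCl 2) = (a : PadicAlgCl 2) :=
      map_ratCast (algebraMap ℚ_[2] (PadicAlgCl 2)) a
    rw [h4] at h3
    rw [h3]
    obtain ⟨n, hn⟩ := Padic.padicNormE.image (p := 2) (q := (a : ℚ_[2])) (by exact_mod_cast ha)
    refine ⟨-n, ?_⟩
    rw [hn]
    push_cast
    rfl
  -- the sequence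
  have hroot : ∀ s : AlgebraicClosure ℚ, ∃ q, q ^ 2 + 2 * s * q + 4 = 0 := by
    intro s
    obtain ⟨r, hr⟩ := IsAlgClosed.exists_pow_nat_eq (s ^ 2 - 4) (n := 2) (by norm_num)
    exact ⟨r - s, by linear_combination hr⟩
  choose q hq using hroot
  let s : ℕ → AlgebraicClosure ℚ := fun n => Nat.rec 0 (fun _ s => 2 - (q s) ^ 2) n
  have hs0 : s 0 = 0 := rfl
  have hsS : ∀ n, s (n + 1) = 2 - (q (s n)) ^ 2 := fun n => rfl
  have hiso : ∀ n, Iso (s n) := by
    intro n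
    induction n with
    | zero => rw [hs0]; exact iso_zero
    | succ n ih => rw [hsS]; exact iso_step (hq (s n)) ih
  have hs1 : s 1 = 6 := by
    have h3 := hq (s 0)
    have h4 := hsS 0
    rw [hs0] at h3 h4
    have h5 : s 1 = 2 - q 0 ^ 2 := h4
    rw [h5]
    linear_combination -h3
  -- the absolute values
  have key : ∀ n : ℕ, (64 * ‖φ (s (n + 1) + 2)‖) ^ 2 ^ n = 8 ∧ ‖φ (s (n + 1) + 2)‖ ≤ 1 / 8 := by
    intro n
    induction n with
    | zero =>
      have h3 : φ (s (0 + 1) + 2) = 2 * 2 * 2 := by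
        rw [zero_add, hs1]
        have h4 : (6 : AlgebraicClosure ℚ) + 2 = 2 * 2 * 2 := by norm_num
        rw [h4, map_mul, map_mul, map_ofNat]
      rw [h3, norm_mul, norm_mul, h2]
      norm_num
    | succ n ih =>
      obtain ⟨ih1, ih2⟩ := ih
      have h3 : φ (s (n + 1) + 2) = φ (s (n + 1)) + 2 := by rw [map_add, map_ofNat]
      have h4 : (φ (q (s (n + 1)))) ^ 2 + 2 * φ (s (n + 1)) * φ (q (s (n + 1))) + 4 = 0 := by
        have h5 := congrArg φ (hq (s (n + 1)))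
        rw [map_add, map_add, map_mul, map_mul, map_pow, map_ofNat, map_ofNat, map_zero] at h5
        exact h5
      have h5 : φ (s (n + 1 + 1) + 2) = (2 - (φ (q (s (n + 1)))) ^ 2) + 2 := by
        rw [hsS (n + 1), map_add, map_sub, map_pow, map_ofNat]
      have h6 := specE_step h2 (by rw [← h3]; exact ih2) h4
      rw [← h5, ← h3] at h6
      constructor
      · rw [pow_succ' 2 n, pow_mul, ← ih1]
        congr 1
        rw [mul_pow, h6]
        ring
      · have h7 : ‖φ (s (n + 1 + 1) + 2)‖ ^ 2 ≤ (1 / 8) ^ 2 := by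
          rw [h6]
          linarith
        exact le_of_sq_le_sq h7 (by norm_num)
  have hne : ∀ n, s (n + 1) + 2 ≠ 0 := by
    intro n h0
    have h3 := (key n).1
    rw [h0, map_zero, norm_zero, mul_zero, zero_pow (by positivity)] at h3
    norm_num at h3
  refine ⟨s, hiso, ?_, ?_⟩
  · intro n
    cases n with
    | zero => rw [hs0]; norm_num
    | succ n =>
      intro h
      have h3 : (s (n + 1) + 2) * (s (n + 1) - 2) = 0 := by linear_combination h
      rcases mul_eq_zero.mp h3 with h4 | h4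
      · exact hne n h4
      · have h5 : s (n + 1) + 2 = 4 := by linear_combination h4
        have h6 := (key n).2
        rw [h5] at h6
        have h7 : φ 4 = 4 := map_ofNat φ 4
        rw [h7, specE_two_pow h2] at h6
        norm_num at h6
  · intro L hL
    let ι := {n : ℕ // s (n + 1) ∈ L}
    let t : ι → AlgebraicClosure ℚ := fun i => s (i.1 + 1) + 2
    have hpair : ∀ i j : ι, i.1 < j.1 → ∀ a b : ℚ, a ≠ 0 → b ≠ 0 →
        ‖φ (a • t i)‖ ≠ ‖φ (b • t j)‖ := by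
      intro i j hij a b ha hb he
      obtain ⟨n, hn⟩ := hrat a ha
      obtain ⟨m, hm⟩ := hrat b hb
      rw [map_rat_smul φ a (t i), map_rat_smul φ b (t j), Rat.smul_def, Rat.smul_def, norm_mul,
        norm_mul, hn, hm] at he
      refine specE_coset (key i.1).1 (key j.1).1 hij n m ?_
      linear_combination 64 * he
    have hli : LinearIndependent ℚ t := by
      refine specE_li φ t (fun i => hne i.1) ?_
      intro i j hij a b ha hb
      rcases lt_or_gt_of_ne (fun h => hij (Subtype.ext h)) with h | h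
      · exact hpair i j h a b ha hb
      · exact (hpair j i h b a hb ha).symm
    have htL : ∀ i, t i ∈ L := fun i => L.add_mem i.2 (by
      have h3 : (2 : AlgebraicClosure ℚ) = algebraMap ℚ _ 2 := by simp
      rw [h3]
      exact L.algebraMap_mem 2)
    have hliL : LinearIndependent ℚ (fun i => (⟨t i, htL i⟩ : L)) := by
      refine LinearIndependent.of_comp L.val.toLinearMap ?_
      exact hli
    have hfin : Finite ι := hliL.finite_of_isNoetherian
    have hfs : {n : ℕ | s (n + 1) ∈ L}.Finite := hfin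
    refine ((hfs.image (fun n => n + 1)).union (Set.finite_singleton 0)).subset ?_
    intro n hn
    cases n with
    | zero => right; rfl
    | succ n => left; exact ⟨n, hn, rfl⟩

end PicJump

end
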