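import Pool.Agent.Lib_helper43.PJ.D
import Pool.Agent.Lib_helper43.PJ.W_FinA
import Pool.Agent.Lib_helper43.PJ.W_GalA
import Pool.Agent.Lib_helper43.PJ.W_GalB
import Pool.Agent.Lib_helper43.PJ.W_SpecE
import Pool.Agent.Lib_helper43.PJ.W_CurveA
import Pool.Agent.Lib_helper43.PJ.W_CurveE
import Pool.Agent.Lib_helper43.PJ.W_CurveF
import Pool.Agent.Lib_helper43.PJ.W_TransA

/-!
BLOCK FinB of MP_f6fc0c_ag.
-/

noncomputable section

namespace PicJump

open MvPolynomial

/-- the ring automorphism of the polynomial ring induced by an automorphism of the field -/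
def finB_e (θ : Qbar ≃+* Qbar) : Pol Qbar ≃+* Pol Qbar := MvPolynomial.mapEquiv (Fin 4) θ

theorem finB_e_apply (θ : Qbar ≃+* Qbar) (f : Pol Qbar) :
    finB_e θ f = MvPolynomial.map (θ : Qbar →+* Qbar) f := rfl

theorem finB_homog (θ : Qbar ≃+* Qbar) : HomogIso (finB_e θ) := by
  intro f n
  rw [finB_e_apply]
  constructor
  · intro h
    exact h.map _
  · intro h
    have h2 := h.map (θ.symm : Qbar →+* Qbar)
    rw [MvPolynomial.map_map] at h2
    have h3 : ((θ.symm : Qbar →+* Qbar).comp (θ : Qbar →+* Qbar)) = RingHom.id Qbar := by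
      ext x
      simp
    rw [h3, MvPolynomial.map_id] at h2
    exact h2

theorem gamma_not_fg (c₀ c₁ : Qbar) (h : c₀ ≠ c₁) (h0 : c₀ ^ 2 ≠ 4) (h1 : c₁ ^ 2 ≠ 4) :
    ¬ (Gamma (G0 c₀) (G1 c₁)).FG := by
  classical
  intro hG
  obtain ⟨L, hfin, hc0, hc1, hfix⟩ := fg_fixed c₀ c₁ _ hG
  obtain ⟨s, hiso, hs4, hfinite⟩ := exists_seq
  have key : ∀ n, s n ∈ L := by
    intro n
    by_cases e0 : s n = c₀
    · rw [e0]; exact hc0
    by_cases e1 : s n = c₁
    · rw [e1]; exact hc1
    obtain ⟨p, q, hp, hp0, hp1, hq, hmem⟩ :=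
      lineDiv_mem_Gamma c₀ c₁ (s n) h h0 h1 (hs4 n) e0 e1 (hiso n)
    obtain ⟨E, hE⟩ := exists_lineDiv h h0 h1 p q hp0 hp1 hq
    have hEG := hmem E hE
    refine mem_of_fixed L (s n) ?_
    intro θ
    have hθc0 : θ c₀ = c₀ := θ.commutes ⟨c₀, hc0⟩
    have hθc1 : θ c₁ = c₁ := θ.commutes ⟨c₁, hc1⟩
    -- the permutation of prime divisors
    have hbase : base (G0 c₀) (G1 c₁) =
        (base (G0 c₀) (G1 c₁)).map (finB_e (θ : Qbar ≃+* Qbar) : Pol Qbar →+* Pol Qbar) := by
      rw [base, Ideal.map_span]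
      congr 1
      have e1 : (finB_e (θ : Qbar ≃+* Qbar) : Pol Qbar →+* Pol Qbar) (G0 c₀) = G0 c₀ := by
        change finB_e (θ : Qbar ≃+* Qbar) (G0 c₀) = G0 c₀
        rw [finB_e_apply]
        simp [G0, hθc0]
      have e2 : (finB_e (θ : Qbar ≃+* Qbar) : Pol Qbar →+* Pol Qbar) (G1 c₁) = G1 c₁ := by
        change finB_e (θ : Qbar ≃+* Qbar) (G1 c₁) = G1 c₁
        rw [finB_e_apply]
        simp [G1, hθc1]
      rw [Set.image_pair, e1, e2]
    obtain ⟨EE, hEE, -⟩ := exists_primeDivEquiv (finB_e (θ : Qbar ≃+* Qbar))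
      (finB_homog _) _ _ hbase
    have hpr := hfix θ EE (fun Q => by rw [hEE Q]; rfl) E hEG
    -- the image of the line divisor
    have hline : lineIdeal (θ p) (θ q) =
        (lineIdeal p q).map (finB_e (θ : Qbar ≃+* Qbar) : Pol Qbar →+* Pol Qbar) := by
      rw [lineIdeal, lineIdeal, Ideal.map_span]
      congr 1
      rw [Set.image_pair]
      have e1 : (finB_e (θ : Qbar ≃+* Qbar) : Pol Qbar →+* Pol Qbar) (X 0 - C p * X 1) =
          X 0 - C (θ p) * X 1 := by
        change finB_e (θ : Qbar ≃+* Qbar) _ = _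
        rw [finB_e_apply]
        simp
      have e2 : (finB_e (θ : Qbar ≃+* Qbar) : Pol Qbar →+* Pol Qbar) (X 2 - C q * X 3) =
          X 2 - C (θ q) * X 3 := by
        change finB_e (θ : Qbar ≃+* Qbar) _ = _
        rw [finB_e_apply]
        simp
      rw [e1, e2]
    have hE' : IsLineDiv c₀ c₁ (θ p) (θ q) (Finsupp.equivMapDomain EE E) := by
      intro P
      rw [Finsupp.equivMapDomain_apply, hE (EE.symm P)]
      have hP : P.carrier = (EE.symm P).carrier.map
          (finB_e (θ : Qbar ≃+* Qbar) : Pol Qbar →+* Pol Qbar) := by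
        rw [← hEE, Equiv.apply_symm_apply]
      have hiff : lineIdeal p q ≤ (EE.symm P).carrier ↔ lineIdeal (θ p) (θ q) ≤ P.carrier := by
        rw [hline, hP]
        constructor
        · intro hle
          exact Ideal.map_mono hle
        · intro hle
          intro x hx
          have := hle (Ideal.mem_map_of_mem _ hx)
          obtain ⟨y, hy, hyx⟩ := (Ideal.mem_map_iff_of_surjective
            (finB_e (θ : Qbar ≃+* Qbar) : Pol Qbar →+* Pol Qbar)
            (finB_e (θ : Qbar ≃+* Qbar)).surjective).mp this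
          have : y = x := (finB_e (θ : Qbar ≃+* Qbar)).injective hyx
          rwa [this] at hy
      simp only [hiff]
    have hAc0 : Ac c₀ (θ p) = θ (Ac c₀ p) := by simp [Ac, hθc0]
    have hAc1 : Ac c₁ (θ p) = θ (Ac c₁ p) := by simp [Ac, hθc1]
    have hθp : θ p = p := by
      refine lineDiv_unique h h0 h1 (θ p) (θ q) p q ?_ ?_ ?_ hp0 hp1 hq _ _ hE' hE hpr
      · rw [hAc0]; exact (map_ne_zero θ).mpr hp0
      · rw [hAc1]; exact (map_ne_zero θ).mpr hp1
      · rw [hAc0, hAc1, ← map_pow, ← map_mul, hq]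
    have hp2 : p ≠ 0 := by
      rintro rfl
      simp at hp
    have h2 := congrArg θ hp
    simp only [map_add, map_mul, map_pow, map_one, map_zero, hθp] at h2
    have h3 : θ (s n) * p ^ 2 = s n * p ^ 2 := by linear_combination h2 - hp
    exact mul_right_cancel₀ (pow_ne_zero 2 hp2) h3
  have := hfinite L hfin
  rw [show {n | s n ∈ L} = Set.univ from Set.eq_univ_of_forall key] at this
  exact Set.infinite_univ this

end PicJump

end
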